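import Pool.Agent.GS8.Iter

/-! Existence of approximate eigenfunctions (JOB 1). -/

set_option autoImplicit false

open MeasureTheory Set Filter Topology Function
open scoped Real ContDiff ENNReal

namespace Pool.Agent.GS8

section seq

variable {μ : ℕ → ℝ} (hpos : ∀ m, 0 < μ m) (hlc : ∀ k, μ (k + 1) ^ 2 ≤ μ k * μ (k + 2))
include hpos hlc

lemma ratio_mono : Monotone fun k => μ (k + 1) / μ k := by
  apply monotone_nat_of_le_succ
  intro k
  rw [div_le_div_iff₀ (hpos _) (hpos _)]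
  have := hlc k
  nlinarith

lemma ratio_le_one (hctr : ∀ i, μ (2 * i + 2) ≤ μ (2 * i)) (k : ℕ) : μ (k + 1) / μ k ≤ 1 := by
  have h1 : μ (2 * k + 1) / μ (2 * k) ≤ 1 := by
    by_contra h
    push Not at h
    have h2 := ratio_mono hpos hlc (Nat.le_succ (2 * k))
    simp only [Nat.succ_eq_add_one] at h2
    have h3 : μ (2 * k + 2) / μ (2 * k) ≤ 1 := by
      rw [div_le_one (hpos _)]
      exact hctr k
    have h4 : μ (2 * k + 2) / μ (2 * k) =
        (μ (2 * k + 1) / μ (2 * k)) * (μ (2 * k + 1 + 1) / μ (2 * k + 1)) := by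
      have e1 := (hpos (2 * k)).ne'
      have e2 := (hpos (2 * k + 1)).ne'
      rw [show 2 * k + 1 + 1 = 2 * k + 2 by ring]
      field_simp
    rw [h4] at h3
    nlinarith
  exact (ratio_mono hpos hlc (show k ≤ 2 * k by omega)).trans h1

lemma ratio_tail (hctr : ∀ i, μ (2 * i + 2) ≤ μ (2 * i)) {ε : ℝ} (hε : 0 < ε) :
    ∃ N₀, ∀ N, N₀ ≤ N → μ (2 * N + 2) / μ (2 * N) - (μ (2 * N + 1) / μ (2 * N)) ^ 2 ≤ ε := by
  have h1 := tendsto_atTop_ciSup (ratio_mono hpos hlc)
    ⟨1, by rintro _ ⟨k, rfl⟩; exact ratio_le_one hpos hlc hctr k⟩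
  have h2 : Tendsto (fun k => μ (k + 1 + 1) / μ (k + 1) - μ (k + 1) / μ k) atTop (𝓝 0) := by
    have := (h1.comp (tendsto_add_atTop_nat 1)).sub h1
    rw [sub_self] at this
    exact this
  have h3 := h2.comp (tendsto_id.const_mul_atTop' (r := 2) (by norm_num) : Tendsto (fun N : ℕ => 2 * N) atTop atTop)
  have h4 := (h3.eventually (gt_mem_nhds hε)).exists_forall_of_atTop
  obtain ⟨N₀, hN₀⟩ := h4
  refine ⟨N₀, fun N hN => ?_⟩
  have h5 : μ (2 * N + 1 + 1) / μ (2 * N + 1) - μ (2 * N + 1) / μ (2 * N) < ε := hN₀ N hN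
  have h6 := ratio_le_one hpos hlc hctr (2 * N)
  have h7 : 0 < μ (2 * N + 1) / μ (2 * N) := div_pos (hpos _) (hpos _)
  have h8 := ratio_mono hpos hlc (Nat.le_succ (2 * N))
  simp only [Nat.succ_eq_add_one] at h8
  have h9 : μ (2 * N + 2) / μ (2 * N) =
      (μ (2 * N + 1) / μ (2 * N)) * (μ (2 * N + 1 + 1) / μ (2 * N + 1)) := by
    have e1 := (hpos (2 * N)).ne'
    have e2 := (hpos (2 * N + 1)).ne'
    rw [show 2 * N + 1 + 1 = 2 * N + 2 by ring]
    field_simp
  rw [h9]
  nlinarith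

lemma pow_mul_le (ρ : ℝ) (hρ : 0 ≤ ρ) (hρ' : ρ ≤ μ 1 / μ 0) (m l : ℕ) :
    ρ ^ l * μ m ≤ μ (m + l) := by
  induction l with
  | zero => simp
  | succ l ih =>
    have h1 : ρ ≤ μ (m + l + 1) / μ (m + l) :=
      hρ'.trans (ratio_mono hpos hlc (Nat.zero_le (m + l)))
    rw [le_div_iff₀ (hpos _)] at h1
    calc ρ ^ (l + 1) * μ m = ρ * (ρ ^ l * μ m) := by ring
      _ ≤ ρ * μ (m + l) := by gcongr
      _ ≤ μ (m + l + 1) := h1
      _ = _ := by congr 1

end seq

variable {n : ℕ}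

/-- Energy bound. -/
lemma energy_pow {b : E n → ℝ} (hb : Nice b) {t : ℝ} (ht : 0 < t) (h1 : ∫ x, b x ^ 2 = 1)
    {ρ : ℝ} (hρ0 : 0 < ρ) (hρ : ρ = ∫ x, b x * gconv t b x) (j : ℕ) (hj : 1 ≤ j) :
    ρ ^ j ≤ ∫ x, b x * gconv (j * t) b x := by
  set τ : ℕ → ℝ := fun j => if j = 0 then 1 else ∫ x, b x * gconv (j * t) b x with hτ
  have hτs : ∀ j : ℕ, τ (j + 1) = ∫ x, b x * gconv ((j + 1 : ℕ) * t) b x := fun j => by
    rw [hτ]
    simp
  have hlc : ∀ j, τ (j + 1) ^ 2 ≤ τ j * τ (j + 2) := by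
    intro j
    rcases Nat.eq_zero_or_pos j with rfl | hj
    · have h2 := hb.cs (hb.gconv ht)
      have h3 := hb.form_add ht ht hb
      simp_rw [← sq] at h3
      rw [h1, one_mul, h3] at h2
      have e0 : τ 0 = 1 := by rw [hτ]; simp
      rw [hτs, show τ (0 + 2) = τ (1 + 1) from rfl, hτs, e0, one_mul]
      simpa [two_mul, add_mul, one_add_one_eq_two] using h2
    · have p1 : (0 : ℝ) < j * t / 2 := by positivity
      have p2 : (0 : ℝ) < (j + 2) * t / 2 := by positivity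
      have h2 := (hb.gconv p1).cs (hb.gconv p2)
      have h3 := hb.form_add p1 p1 hb
      have h4 := hb.form_add p2 p2 hb
      have h5 := hb.form_add p1 p2 hb
      simp_rw [← sq] at h3 h4
      rw [h3, h4, h5, show (j : ℝ) * t / 2 + j * t / 2 = j * t by ring,
        show ((j : ℝ) + 2) * t / 2 + (j + 2) * t / 2 = (j + 2) * t by ring,
        show (j : ℝ) * t / 2 + (j + 2) * t / 2 = (j + 1) * t by ring] at h2
      rw [hτs, show τ (j + 2) = τ (j + 1 + 1) from rfl, hτs]
      have e1 : τ j = ∫ x, b x * gconv (j * t) b x := by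
        rw [hτ]
        simp [hj.ne']
      rw [e1]
      push_cast
      rw [show (j : ℝ) + 1 + 1 = j + 2 by ring]
      exact h2
  have hmain : ∀ j, 0 < τ j ∧ ρ * τ j ≤ τ (j + 1) := by
    intro j
    induction j with
    | zero =>
      have e0 : τ 0 = 1 := by rw [hτ]; simp
      refine ⟨by rw [e0]; norm_num, ?_⟩
      rw [e0, hτs, mul_one, hρ]
      simp
    | succ j ih =>
      obtain ⟨ih1, ih2⟩ := ih
      have h2 : 0 < τ (j + 1) := lt_of_lt_of_le (mul_pos hρ0 ih1) ih2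
      refine ⟨h2, ?_⟩
      have h3 := hlc j
      have h4 : ρ * τ (j + 1) * τ j ≤ τ (j + 2) * τ j := by nlinarith
      exact le_of_mul_le_mul_right h4 ih1
  have hpow : ∀ j, ρ ^ j ≤ τ j := by
    intro j
    induction j with
    | zero => rw [hτ]; simp
    | succ j ih =>
      calc ρ ^ (j + 1) = ρ * ρ ^ j := by ring
        _ ≤ ρ * τ j := by gcongr
        _ ≤ _ := (hmain j).2
  have h5 := hpow j
  have e1 : τ j = ∫ x, b x * gconv (j * t) b x := by
    rw [hτ]
    exact if_neg (by omega)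
  rwa [e1] at h5

variable {Ω : Set (E n)} {t : ℝ}

lemma it_add_le (hΩ : Dom Ω) (ht : 0 < t) (N : ℕ) : ∀ (j : ℕ) (x : E n),
    it Ω t (N + (j + 1)) x ≤ gconv ((j + 1 : ℕ) * t) (it Ω t N) x
  | 0, x => by
    simpa using it_succ_le hΩ ht N x
  | j + 1, x => by
    have hN := (good_it hΩ ht N).toNice
    have hj : (0 : ℝ) < (j + 1 : ℕ) * t := by positivity
    have h1 := it_succ_le hΩ ht (N + (j + 1)) x
    have h2 := (good_it hΩ ht (N + (j + 1))).toNice.gconv_mono ht (hN.gconv hj)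
      (it_add_le hΩ ht N j) x
    rw [Nice.gconv_gconv ht hj hN] at h2
    have h3 := h1.trans h2
    rw [show N + (j + 1 + 1) = N + (j + 1) + 1 by ring,
      show ((j + 1 + 1 : ℕ) : ℝ) * t = t + (j + 1 : ℕ) * t by push_cast; ring]
    exact h3

lemma gconv_one_sq_le {f : E n → ℝ} (hf : Nice f) (x : E n) :
    gconv 1 f x ^ 2 ≤ ∫ y, f y ^ 2 := by
  have hG : Nice fun y : E n => Gk 1 (x - y) :=
    ⟨(measurable_Gk 1).comp (measurable_const.sub measurable_id),
      fun y => Gk_nonneg one_pos _, ⟨_, fun y => Gk_le one_pos _⟩,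
      (integrable_Gk one_pos).comp_sub_left x⟩
  have h1 := hG.cs hf
  have h2 : ∫ y : E n, Gk 1 (x - y) ^ 2 = Gk 2 (0 : E n) := by
    have := integral_Gk_mul (n := n) one_pos one_pos x x
    rw [sub_self, one_add_one_eq_two] at this
    rw [← this]
    congr 1
    funext y
    rw [sq, ← Gk_sub_comm 1 x y]
  have h3 : Gk 2 (0 : E n) ≤ 1 := by
    rw [Gk_zero, neg_div]
    apply Real.rpow_le_one_of_one_le_of_nonpos
    · have := Real.pi_gt_three
      nlinarith
    · have : (0 : ℝ) ≤ (n : ℝ) / 2 := by positivity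
      linarith
  rw [h2] at h1
  refine h1.trans ?_
  have h4 : 0 ≤ ∫ y, f y ^ 2 := integral_nonneg fun y => sq_nonneg _
  nlinarith

theorem targetApprox : TargetApprox := by
  intro n Ω hn ho hc hb hne
  have hΩ : Dom Ω := ⟨hn, ho, hc, hb, hne⟩
  set m0 : ℝ := ∫ x, Metric.infDist x Ωᶜ ^ 2 with hm0
  have hm0pos : 0 < m0 := by
    have := mu_pos hΩ one_pos 0
    rwa [mu_zero] at this
  set C : ℝ := 8 * 2 ^ ((n : ℝ) / 2) * (volume Ω).toReal / m0 with hC
  have hC0 : 0 ≤ C := by positivity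
  obtain ⟨k₀, hk₀⟩ : ∃ k₀ : ℕ, ∀ k, k₀ ≤ k → C * (1 / 2 : ℝ) ^ k ≤ 1 / 2 := by
    have h1 : Tendsto (fun k : ℕ => C * (1 / 2 : ℝ) ^ k) atTop (𝓝 (C * 0)) :=
      (tendsto_pow_atTop_nhds_zero_of_lt_one (by norm_num) (by norm_num)).const_mul C
    rw [mul_zero] at h1
    obtain ⟨k₀, h⟩ := (h1.eventually (gt_mem_nhds (by norm_num : (0 : ℝ) < 1 / 2))).exists_forall_of_atTop
    exact ⟨k₀, fun k hk => (h k hk).le⟩
  refine ⟨C, Real.exp (2 * C), k₀, hC0, Real.exp_pos _, fun k hk => ?_⟩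
  set t : ℝ := (1 / 2 : ℝ) ^ k with ht'
  have ht : 0 < t := by positivity
  have hCt : C * t ≤ 1 / 2 := hk₀ k hk
  have hpos := mu_pos hΩ ht
  have hlc := mu_logconvex hΩ ht
  have hctr := mu_contr hΩ ht
  have hr0 : 1 - C * t ≤ mu Ω t 1 / mu Ω t 0 := by
    rw [le_div_iff₀ (hpos 0)]
    have h1 := mu_one_ge hΩ ht
    have h2 : mu Ω t 0 = m0 := mu_zero Ω t
    have h3 : C * t * m0 = 8 * 2 ^ ((n : ℝ) / 2) * t * (volume Ω).toReal := by
      rw [hC]
      field_simp
    rw [h2] at h1 ⊢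
    nlinarith
  obtain ⟨N₀, hN₀⟩ := ratio_tail hpos hlc hctr (ε := t ^ 4) (by positivity)
  -- the index
  set j : ℕ := 2 ^ k with hj
  have hj1 : 1 ≤ j := Nat.one_le_two_pow
  have hjt : (j : ℝ) * t = 1 := by
    rw [hj, ht']
    push_cast
    rw [← mul_pow]
    norm_num
  set N : ℕ := N₀ + j with hN
  have hgood := good_it hΩ ht N
  set s : ℝ := Real.sqrt (mu Ω t (2 * N)) with hs
  have hs0 : 0 < s := Real.sqrt_pos.mpr (hpos _)
  have hs2 : s ^ 2 = mu Ω t (2 * N) := Real.sq_sqrt (hpos _).le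
  set b : E n → ℝ := fun x => it Ω t N x / s with hbdef
  set r : ℝ := mu Ω t (2 * N + 1) / mu Ω t (2 * N) with hr
  have hbnice : Nice b := by
    refine ⟨hgood.meas.div_const s, fun x => div_nonneg (hgood.nonneg x) hs0.le, ?_,
      hgood.int.div_const s⟩
    obtain ⟨D, hD⟩ := hgood.bdd
    exact ⟨D / s, fun x => div_le_div_of_nonneg_right (hD x) hs0.le⟩
  have hgb : ∀ (τ : ℝ) (x : E n), gconv τ b x = gconv τ (it Ω t N) x / s := by
    intro τ x
    unfold gconv
    rw [← integral_div]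
    congr 1
    funext y
    rw [hbdef]
    ring
  have hnorm : ∫ x, b x ^ 2 = 1 := by
    have : ∀ x, b x ^ 2 = it Ω t N x ^ 2 / s ^ 2 := fun x => div_pow _ _ _
    simp_rw [this]
    rw [integral_div, mu_sq hΩ ht, hs2, div_self (hpos _).ne']
  have hrb : r = ∫ x, b x * gconv t b x := by
    have : ∀ x, b x * gconv t b x = (it Ω t N x * gconv t (it Ω t N) x) / s ^ 2 := by
      intro x
      rw [hgb, hbdef]
      ring
    simp_rw [this]
    rw [integral_div, ← int_mul_succ hΩ ht, mu_eq hΩ ht, hs2, hr]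
    congr 2
    ring
  have hrge : 1 - C * t ≤ r := hr0.trans (ratio_mono hpos hlc (Nat.zero_le (2 * N)))
  have hr_pos : 0 < r := by linarith
  refine ⟨b, r, ⟨hbnice.meas, hbnice.nonneg, ?_, ?_, ?_, ?_, hnorm, hrge,
    ratio_le_one hpos hlc hctr _, ?_, ?_⟩⟩
  · -- sup bound
    intro x
    have h1 : it Ω t N x ≤ gconv 1 (it Ω t N₀) x := by
      have := it_add_le hΩ ht N₀ (j - 1) x
      rw [Nat.sub_add_cancel hj1, hjt] at this
      exact this
    have h2 : it Ω t N x ^ 2 ≤ mu Ω t (2 * N₀) := by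
      rw [← mu_sq hΩ ht]
      exact (pow_le_pow_left₀ (hgood.nonneg x) h1 2).trans
        (gconv_one_sq_le (good_it hΩ ht N₀).toNice x)
    have h3 := pow_mul_le hpos hlc (1 - C * t) (by linarith) hr0 (2 * N₀) (2 * j)
    have h4 : Real.exp (-(4 * C)) ≤ (1 - C * t) ^ (2 * j) := by
      have h5 : Real.exp (-(2 * (C * t))) ≤ 1 - C * t := by
        rw [Real.exp_neg, inv_le_comm₀ (Real.exp_pos _) (by linarith)]
        have h6 : (1 - C * t)⁻¹ ≤ 1 + 2 * (C * t) := by
          rw [inv_le_iff_one_le_mul₀ (by linarith)]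
          have : 0 ≤ C * t := by positivity
          nlinarith
        have h7 := Real.add_one_le_exp (2 * (C * t))
        linarith
      calc Real.exp (-(4 * C)) = Real.exp (-(2 * (C * t))) ^ (2 * j) := by
            rw [← Real.exp_nat_mul]
            congr 1
            push_cast
            have : (j : ℝ) * t = 1 := hjt
            calc -(4 * C) = -(4 * C * (j * t)) := by rw [this, mul_one]
              _ = _ := by ring
        _ ≤ _ := pow_le_pow_left₀ (Real.exp_pos _).le h5 _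
    have h8 : 2 * N₀ + 2 * j = 2 * N := by rw [hN]; ring
    rw [h8] at h3
    have h9 : Real.exp (-(4 * C)) * mu Ω t (2 * N₀) ≤ mu Ω t (2 * N) :=
      le_trans (by gcongr; exact (hpos _).le) h3
    have h10 : b x ^ 2 ≤ Real.exp (2 * C) ^ 2 := by
      rw [hbdef]
      simp only
      rw [div_pow, hs2, div_le_iff₀ (hpos _)]
      have h11 : Real.exp (2 * C) ^ 2 * Real.exp (-(4 * C)) = 1 := by
        rw [sq, ← Real.exp_add, ← Real.exp_add]
        simp only [Real.exp_eq_one_iff]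
        ring
      have h12 : 0 < Real.exp (2 * C) ^ 2 := by positivity
      calc it Ω t N x ^ 2 ≤ mu Ω t (2 * N₀) := h2
        _ = Real.exp (2 * C) ^ 2 * (Real.exp (-(4 * C)) * mu Ω t (2 * N₀)) := by
            rw [← mul_assoc, h11, one_mul]
        _ ≤ _ := by gcongr
    exact le_of_sq_le_sq h10 (Real.exp_pos _).le
  · intro x hx
    rw [hbdef]
    simp only
    rw [hgood.zero x hx, zero_div]
  · intro x y
    rw [hbdef]
    simp only
    rw [div_mul_div_comm, div_pow, ← sq]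
    exact div_le_div_of_nonneg_right (hgood.logc x y) (by positivity)
  · intro σ hσ x
    rw [hbdef]
    simp only
    rw [hgood.symm σ hσ x]
  · -- eigenfunction
    have h1 : ∫ x in Ω, (gconv t b x - r * b x) ^ 2 =
        ∫ x in Ω, (it Ω t (N + 1) x - r * it Ω t N x) ^ 2 / s ^ 2 := by
      apply setIntegral_congr_fun ho.measurableSet
      intro x hx
      have h2 : it Ω t (N + 1) x = gconv t (it Ω t N) x := indicator_of_mem hx _
      simp only
      rw [hgb, h2, hbdef]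
      field_simp
    have h3 : ∫ x in Ω, (it Ω t (N + 1) x - r * it Ω t N x) ^ 2 / s ^ 2 =
        ∫ x, (it Ω t (N + 1) x - r * it Ω t N x) ^ 2 / s ^ 2 := by
      apply setIntegral_eq_integral_of_forall_compl_eq_zero
      intro x hx
      rw [hgood.zero x hx, (good_it hΩ ht (N + 1)).zero x hx]
      simp
    have h4 : ∫ x, (it Ω t (N + 1) x - r * it Ω t N x) ^ 2 / s ^ 2 =
        mu Ω t (2 * N + 2) / mu Ω t (2 * N) - (mu Ω t (2 * N + 1) / mu Ω t (2 * N)) ^ 2 := by
      rw [integral_div]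
      have e1 : ∀ x, (it Ω t (N + 1) x - r * it Ω t N x) ^ 2 =
          it Ω t (N + 1) x ^ 2 + (-(2 * r)) * (it Ω t N x * it Ω t (N + 1) x) +
            r ^ 2 * it Ω t N x ^ 2 := fun x => by ring
      simp_rw [e1]
      have i1 := (good_it hΩ ht (N + 1)).toNice.sq_int
      have i2 : Integrable fun x => (-(2 * r)) * (it Ω t N x * it Ω t (N + 1) x) :=
        (hgood.toNice.mul_int (good_it hΩ ht (N + 1)).toNice).const_mul _
      have i3 : Integrable fun x => it Ω t (N + 1) x ^ 2 +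
          (-(2 * r)) * (it Ω t N x * it Ω t (N + 1) x) := i1.add i2
      rw [integral_add i3 (hgood.toNice.sq_int.const_mul _), integral_add i1 i2,
        integral_const_mul, integral_const_mul, mu_sq hΩ ht, mu_sq hΩ ht, mu_eq hΩ ht, hs2,
        show 2 * (N + 1) = 2 * N + 2 by ring, show N + (N + 1) = 2 * N + 1 by ring, hr]
      have := (hpos (2 * N)).ne'
      field_simp
      ring
    rw [h1, h3, h4]
    exact hN₀ N (by omega)
  · -- energy
    intro i hi
    have h1 := energy_pow hbnice ht hnorm hr_pos hrb i hi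
    refine le_trans ?_ h1
    have h2 := one_add_mul_le_pow (a := r - 1) (by linarith) i
    rw [add_sub_cancel] at h2
    have h3 : (i : ℝ) * (1 - r) ≤ i * (C * t) := by
      gcongr
      linarith
    nlinarith

end Pool.Agent.GS8
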