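import Pool.Agent.GS8.Mass

/-!
# JOB 5b: Hessian bounds on the superlevel set give a cross polytope in it
-/

set_option autoImplicit false

open MeasureTheory Set Filter Topology
open scoped Real ContDiff

namespace Pool.Agent.GS8

section pd

variable {n : ℕ} {Ω : Set (E n)} {u : E n → ℝ}

theorem differentiableAt_of_contDiffOn (ho : IsOpen Ω) (hu : ContDiffOn ℝ 2 u Ω) {x : E n}
    (hx : x ∈ Ω) : DifferentiableAt ℝ u x :=
  (hu.contDiffAt (ho.mem_nhds hx)).differentiableAt (by norm_num)

theorem differentiableAt_pd (ho : IsOpen Ω) (hu : ContDiffOn ℝ 2 u Ω) (i : Fin n) {x : E n}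
    (hx : x ∈ Ω) : DifferentiableAt ℝ (pd i u) x := by
  have h1 : ContDiffAt ℝ 1 (fderiv ℝ u) x :=
    (hu.contDiffAt (ho.mem_nhds hx)).fderiv_right (m := 1) (by norm_num)
  have h2 : DifferentiableAt ℝ (fderiv ℝ u) x := h1.differentiableAt (by norm_num)
  exact h2.clm_apply (differentiableAt_const _)

/-- derivative along the line `t ↦ t e_i` -/
theorem hasDerivAt_line {f : E n → ℝ} {i : Fin n} {t : ℝ}
    (hf : DifferentiableAt ℝ f (t • ee i)) :
    HasDerivAt (fun s : ℝ => f (s • ee i)) (pd i f (t • ee i)) t := by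
  have h1 : HasDerivAt (fun s : ℝ => s • (ee i : E n)) ((1 : ℝ) • (ee i : E n)) t :=
    (hasDerivAt_id t).smul_const (ee i)
  rw [one_smul] at h1
  exact hf.hasFDerivAt.comp_hasDerivAt t h1

end pd

/-- one dimensional comparison: if `(log φ)'' ≥ -B` where `φ > φ 0 / 2` and `0` is a maximum of
`φ`, then `φ t ≥ φ 0 exp (-B t^2/2)` there. -/
theorem one_dim {φ φ' φ'' : ℝ → ℝ} {B : ℝ} {J : Set ℝ} (hJc : Convex ℝ J)
    (h0 : (0 : ℝ) ∈ J) (hpos : ∀ t ∈ J, 0 < φ t) (h1 : ∀ t ∈ J, HasDerivAt φ (φ' t) t)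
    (h2 : ∀ t ∈ J, HasDerivAt φ' (φ'' t) t)
    (hB : ∀ t ∈ J, (φ' t ^ 2 - φ t * φ'' t) / φ t ^ 2 ≤ B) (hmax : ∀ t, φ t ≤ φ 0) :
    ∀ t ∈ J, φ 0 * Real.exp (-(B * t ^ 2 / 2)) ≤ φ t := by
  set G : ℝ → ℝ := fun t => Real.log (φ t) + B * t ^ 2 / 2 with hG
  set G' : ℝ → ℝ := fun t => φ' t / φ t + B * t with hG'
  have hGd : ∀ t ∈ J, HasDerivAt G (G' t) t := by
    intro t ht
    have h3 := (h1 t ht).log (hpos t ht).ne'
    have h4 : HasDerivAt (fun t : ℝ => B * t ^ 2 / 2) (B * t) t := by
      have := ((hasDerivAt_pow 2 t).const_mul B).div_const 2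
      refine this.congr_deriv ?_
      push_cast
      ring
    exact h3.add h4
  have hGd' : ∀ t ∈ J, HasDerivAt G' (B - (φ' t ^ 2 - φ t * φ'' t) / φ t ^ 2) t := by
    intro t ht
    have h3 := (h2 t ht).div (h1 t ht) (hpos t ht).ne'
    have h4 : HasDerivAt (fun t : ℝ => B * t) B t := by
      simpa using (hasDerivAt_id t).const_mul B
    have h5 := h3.add h4
    refine h5.congr_deriv ?_
    have := (hpos t ht).ne'
    field_simp
    ring
  have hmono : MonotoneOn G' J := by
    refine monotoneOn_of_deriv_nonneg hJc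
      (fun t ht => (hGd' t ht).continuousAt.continuousWithinAt) ?_ ?_
    · intro t ht
      exact (hGd' t (interior_subset ht)).differentiableAt.differentiableWithinAt
    · intro t ht
      have ht' := interior_subset ht
      rw [(hGd' t ht').deriv]
      have := hB t ht'
      linarith
  have hφ'0 : φ' 0 = 0 := by
    have hlm : IsLocalMax φ 0 := Eventually.of_forall fun t => hmax t
    exact hlm.hasDerivAt_eq_zero (h1 0 h0)
  have hG'0 : G' 0 = 0 := by simp [hG', hφ'0]
  have hG0 : G 0 = Real.log (φ 0) := by simp [hG]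
  have hGge : ∀ t ∈ J, G 0 ≤ G t := by
    intro t ht
    rcases le_total 0 t with h | h
    · have hm : MonotoneOn G (Icc 0 t) := by
        have hsub : Icc 0 t ⊆ J := hJc.ordConnected.out h0 ht
        refine monotoneOn_of_deriv_nonneg (convex_Icc 0 t)
          (fun s hs => (hGd s (hsub hs)).continuousAt.continuousWithinAt) ?_ ?_
        · intro s hs
          exact (hGd s (hsub (interior_subset hs))).differentiableAt.differentiableWithinAt
        · intro s hs
          have hs' := interior_subset hs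
          rw [(hGd s (hsub hs')).deriv]
          have := hmono h0 (hsub hs') hs'.1
          rwa [hG'0] at this
      exact hm (left_mem_Icc.2 h) (right_mem_Icc.2 h) h
    · have hm : AntitoneOn G (Icc t 0) := by
        have hsub : Icc t 0 ⊆ J := hJc.ordConnected.out ht h0
        refine antitoneOn_of_deriv_nonpos (convex_Icc t 0)
          (fun s hs => (hGd s (hsub hs)).continuousAt.continuousWithinAt) ?_ ?_
        · intro s hs
          exact (hGd s (hsub (interior_subset hs))).differentiableAt.differentiableWithinAt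
        · intro s hs
          have hs' := interior_subset hs
          rw [(hGd s (hsub hs')).deriv]
          have := hmono (hsub hs') h0 hs'.2
          rwa [hG'0] at this
      exact hm (left_mem_Icc.2 h) (right_mem_Icc.2 h) h
  intro t ht
  have h3 := hGge t ht
  rw [hG0] at h3
  have h4 : Real.log (φ 0) - B * t ^ 2 / 2 ≤ Real.log (φ t) := by
    simp only [hG] at h3; linarith
  have h5 := Real.exp_le_exp.2 h4
  rw [Real.exp_log (hpos t ht), sub_eq_add_neg, Real.exp_add, Real.exp_log (hpos 0 h0)] at h5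
  exact h5

theorem half_lt_exp : (1 / 2 : ℝ) < Real.exp (-(1 / 2)) := by
  rw [Real.exp_neg, one_div, inv_lt_inv₀ (by norm_num) (Real.exp_pos _)]
  have h1 : Real.exp (1 / 2) ^ 2 = Real.exp 1 := by
    rw [← Real.exp_nat_mul]; norm_num
  have h2 := Real.exp_one_lt_d9
  nlinarith [Real.exp_pos (1 / 2 : ℝ)]

namespace Ground

variable {n : ℕ} {Ω : Set (E n)} {u : E n → ℝ} {lam : ℝ}

/-- the superlevel set `u > m` for `m > 0` is convex -/
theorem convex_superlevel (hu : Ground Ω u lam) {m : ℝ} (hm : 0 < m) :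
    Convex ℝ {x | m < u x} := by
  have h : {x | m < u x} = {x ∈ Ω | Real.log m < Real.log (u x)} := by
    ext x
    simp only [mem_ofPred_eq]
    constructor
    · intro hx
      have hΩ : x ∈ Ω := by
        by_contra h'
        rw [hu.zero x h'] at hx
        linarith
      exact ⟨hΩ, Real.log_lt_log hm hx⟩
    · rintro ⟨hΩ, hx⟩
      exact (Real.log_lt_log_iff hm (hu.pos x hΩ)).1 hx
  rw [h]
  exact hu.conc.convex_gt _

theorem axis_point (hu : Ground Ω u lam) (ho : IsOpen Ω) (h0 : (0 : E n) ∈ Ω)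
    (hmax : ∀ x, u x ≤ u 0) (i : Fin n) {B : ℝ} (hB : 0 < B)
    (hsig : ∀ x ∈ Ω, u 0 / 2 < u x → sig i u x ≤ B) (t : ℝ) (ht : |t| * Real.sqrt B ≤ 1) :
    u 0 / 2 < u (t • ee i) := by
  have hu0 : 0 < u 0 := hu.pos 0 h0
  have hS := hu.convex_superlevel (half_pos hu0)
  set J : Set ℝ := {s | u 0 / 2 < u (s • (ee i : E n))} with hJ
  have hcont : Continuous fun s : ℝ => u (s • (ee i : E n)) :=
    hu.cont.comp (continuous_id.smul continuous_const)
  have hJo : IsOpen J := isOpen_lt continuous_const hcont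
  have hJc : Convex ℝ J := by
    have := hS.is_linear_preimage (f := fun s : ℝ => s • (ee i : E n))
      ⟨fun a b => add_smul a b _, fun a b => by simp [mul_smul]⟩
    exact this
  have h0J : (0 : ℝ) ∈ J := by
    simp only [hJ, mem_ofPred_eq, zero_smul]
    linarith
  have hJΩ : ∀ s ∈ J, s • (ee i : E n) ∈ Ω := by
    intro s hs
    by_contra h
    simp only [hJ, mem_ofPred_eq] at hs
    rw [hu.zero _ h] at hs
    linarith
  have key := one_dim (φ := fun s => u (s • (ee i : E n)))
    (φ' := fun s => pd i u (s • (ee i : E n))) (φ'' := fun s => pd i (pd i u) (s • (ee i : E n)))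
    (B := B) hJc h0J (fun s hs => hu.pos _ (hJΩ s hs))
    (fun s hs => hasDerivAt_line (differentiableAt_of_contDiffOn ho hu.smooth (hJΩ s hs)))
    (fun s hs => hasDerivAt_line (differentiableAt_pd ho hu.smooth i (hJΩ s hs)))
    (fun s hs => hsig _ (hJΩ s hs) hs)
    (fun s => by simp only [zero_smul]; exact hmax _)
  simp only [zero_smul] at key
  have hT : ∀ s ∈ closure J, u 0 * Real.exp (-(B * s ^ 2 / 2)) ≤ u (s • (ee i : E n)) := by
    have hcl : IsClosed {s : ℝ | u 0 * Real.exp (-(B * s ^ 2 / 2)) ≤ u (s • (ee i : E n))} :=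
      isClosed_le (by fun_prop) hcont
    intro s hs
    exact closure_minimal (fun s hs => key s hs) hcl hs
  set T : ℝ := (Real.sqrt B)⁻¹ with hTdef
  have hsB : 0 < Real.sqrt B := Real.sqrt_pos.2 hB
  have hTpos : 0 < T := inv_pos.2 hsB
  have hsub : Icc (-T) T ⊆ J := by
    refine isPreconnected_Icc.subset_of_closure_inter_subset hJo ⟨0, ⟨by linarith, hTpos.le⟩, h0J⟩ ?_
    rintro s ⟨hs, hs1, hs2⟩
    have h1 := hT s hs
    have h2 : B * s ^ 2 ≤ 1 := by
      have h3 : s ^ 2 ≤ T ^ 2 := sq_le_sq' hs1 hs2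
      have h4 : B * T ^ 2 = 1 := by
        rw [hTdef, inv_pow, Real.sq_sqrt hB.le, mul_inv_cancel₀ hB.ne']
      nlinarith
    have h5 : Real.exp (-(1 / 2)) ≤ Real.exp (-(B * s ^ 2 / 2)) := Real.exp_le_exp.2 (by linarith)
    have h6 := half_lt_exp
    show u 0 / 2 < u (s • (ee i : E n))
    nlinarith
  have htT : t ∈ Icc (-T) T := by
    rw [mem_Icc, ← abs_le, hTdef, ← one_div, le_div_iff₀ hsB]
    exact ht
  exact hsub htT

end Ground

theorem targetAxis : TargetAxis := by
  intro n Ω u lam B ho hc hu h0 hmax hBpos hsig p hp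
  have hu0 : 0 < u 0 := hu.pos 0 h0
  have hS := hu.convex_superlevel (half_pos hu0)
  set S : Set (E n) := {x | u 0 / 2 < u x} with hSdef
  have h0S : (0 : E n) ∈ S := by
    simp only [hSdef, mem_ofPred_eq]; linarith
  have hsB : ∀ i, 0 < Real.sqrt (B i) := fun i => Real.sqrt_pos.2 (hBpos i)
  -- weights and points
  set θ : Fin n → ℝ := fun i => |p i| * Real.sqrt (B i) with hθ
  set q : Fin n → E n := fun i => (SignType.sign (p i) * (Real.sqrt (B i))⁻¹ : ℝ) • ee i with hq
  have hθ0 : ∀ i, 0 ≤ θ i := fun i => mul_nonneg (abs_nonneg _) (hsB i).le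
  have hqS : ∀ i, q i ∈ S := by
    intro i
    refine hu.axis_point ho h0 hmax i (hBpos i) (hsig i) _ ?_
    rw [abs_mul, abs_of_pos (inv_pos.2 (hsB i)), mul_assoc, inv_mul_cancel₀ (hsB i).ne', mul_one]
    rcases lt_trichotomy (p i) 0 with h | h | h
    · simp [sign_neg h]
    · simp [h]
    · simp [sign_pos h]
  have hpq : ∑ i, θ i • q i = p := by
    have h1 : ∀ i, θ i • q i = (p i) • (ee i : E n) := by
      intro i
      simp only [hθ, hq, smul_smul]
      congr 1
      have h2 : |p i| * (SignType.sign (p i) : ℝ) = p i := by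
        rcases lt_trichotomy (p i) 0 with h | h | h
        · simp [sign_neg h, abs_of_neg h]
        · simp [h]
        · simp [sign_pos h, abs_of_pos h]
      have h3 := (hsB i).ne'
      field_simp
      linarith
    rw [Finset.sum_congr rfl fun i _ => h1 i]
    ext j
    simp [Finset.sum_apply, Pi.single_apply]
  have hsum : ∑ i, θ i ≤ 1 := hp
  have hmem : ∑ i, θ i • q i + (1 - ∑ i, θ i) • (0 : E n) ∈ S := by
    by_cases hs0 : ∑ i, θ i = 0
    · have : ∀ i ∈ Finset.univ, θ i = 0 := (Finset.sum_eq_zero_iff_of_nonneg fun i _ => hθ0 i).1 hs0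
      have h4 : ∑ i, θ i • q i = 0 := Finset.sum_eq_zero fun i hi => by rw [this i hi, zero_smul]
      rw [h4, smul_zero, add_zero]
      exact h0S
    · have hspos : 0 < ∑ i, θ i := lt_of_le_of_ne (Finset.sum_nonneg fun i _ => hθ0 i) (Ne.symm hs0)
      have h5 : (∑ i, θ i)⁻¹ • ∑ i, θ i • q i ∈ S := by
        rw [Finset.smul_sum]
        simp only [smul_smul]
        refine hS.sum_mem (fun i _ => mul_nonneg (inv_nonneg.2 hspos.le) (hθ0 i)) ?_ (fun i _ => hqS i)
        rw [← Finset.mul_sum, inv_mul_cancel₀ hspos.ne']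
      have h6 := hS h5 h0S hspos.le (sub_nonneg.2 hsum) (by ring)
      rwa [smul_smul, mul_inv_cancel₀ hspos.ne', one_smul] at h6
  rw [hpq, smul_zero, add_zero] at hmem
  exact hmem

end Pool.Agent.GS8
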