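import Pool.Agent.GS8.Defs

/-!
# Basic calculus with `pd`, integration by parts, volumes of boxes
-/

set_option autoImplicit false

open MeasureTheory Set Filter Topology
open scoped Real ContDiff

namespace Pool.Agent.GS8

variable {n : ℕ} {i j : Fin n} {f g : E n → ℝ} {x : E n}

/-! ## Rules for `pd` -/

lemma pd_congr (h : f =ᶠ[𝓝 x] g) (i : Fin n) : pd i f x = pd i g x := by
  unfold pd; rw [h.fderiv_eq]

lemma pd_eventuallyEq (h : f =ᶠ[𝓝 x] g) (i : Fin n) : pd i f =ᶠ[𝓝 x] pd i g := by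
  filter_upwards [h.eventuallyEq_nhds] with y hy using pd_congr hy i

lemma pd_pd_congr (h : f =ᶠ[𝓝 x] g) (i j : Fin n) : pd j (pd i f) x = pd j (pd i g) x :=
  pd_congr (pd_eventuallyEq h i) j

lemma pd_eqOn {s : Set (E n)} (hs : IsOpen s) (h : EqOn f g s) (i : Fin n) :
    EqOn (pd i f) (pd i g) s := fun _ hx => pd_congr (h.eventuallyEq_of_mem (hs.mem_nhds hx)) i

lemma pd_const (c : ℝ) (i : Fin n) (x : E n) : pd i (fun _ => c) x = 0 := by simp [pd]

lemma pd_add (hf : DifferentiableAt ℝ f x) (hg : DifferentiableAt ℝ g x) (i : Fin n) :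
    pd i (fun y => f y + g y) x = pd i f x + pd i g x := by
  unfold pd; rw [fderiv_fun_add hf hg]; rfl

lemma pd_sub (hf : DifferentiableAt ℝ f x) (hg : DifferentiableAt ℝ g x) (i : Fin n) :
    pd i (fun y => f y - g y) x = pd i f x - pd i g x := by
  unfold pd; rw [fderiv_fun_sub hf hg]; rfl

lemma pd_neg (i : Fin n) : pd i (fun y => -f y) x = -pd i f x := by
  unfold pd; rw [fderiv_fun_neg]; rfl

lemma pdmul (hf : DifferentiableAt ℝ f x) (hg : DifferentiableAt ℝ g x) (i : Fin n) :
    pd i (fun y => f y * g y) x = pd i f x * g x + f x * pd i g x := by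
  unfold pd; rw [fderiv_fun_mul hf hg]
  simp only [_root_.add_apply, _root_.smul_apply, smul_eq_mul]; ring

lemma pd_const_mul (c : ℝ) (hf : DifferentiableAt ℝ f x) (i : Fin n) :
    pd i (fun y => c * f y) x = c * pd i f x := by
  unfold pd; rw [fderiv_const_mul hf]; rfl

lemma pd_comp {φ : ℝ → ℝ} {φ' : ℝ} (hφ : HasDerivAt φ φ' (f x)) (hf : DifferentiableAt ℝ f x)
    (i : Fin n) : pd i (fun y => φ (f y)) x = φ' * pd i f x := by
  have h := hφ.comp_hasFDerivAt x hf.hasFDerivAt
  unfold pd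
  rw [show (fun y => φ (f y)) = φ ∘ f from rfl, h.fderiv]; rfl

lemma pd_sq (hf : DifferentiableAt ℝ f x) (i : Fin n) :
    pd i (fun y => f y ^ 2) x = 2 * f x * pd i f x := by
  have := pd_comp (φ := fun s : ℝ => s ^ 2) (φ' := 2 * f x) (by simpa using hasDerivAt_pow 2 (f x)) hf i
  simpa using this

lemma pd_sum {ι : Type*} (s : Finset ι) {F : ι → E n → ℝ}
    (hF : ∀ a ∈ s, DifferentiableAt ℝ (F a) x) (i : Fin n) :
    pd i (fun y => ∑ a ∈ s, F a y) x = ∑ a ∈ s, pd i (F a) x := by
  unfold pd; rw [fderiv_fun_sum hF]; simp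

lemma hasFDerivAt_coord (j : Fin n) (x : E n) :
    HasFDerivAt (fun p : E n => p j) (EuclideanSpace.proj j : E n →L[ℝ] ℝ) x :=
  (EuclideanSpace.proj j : E n →L[ℝ] ℝ).hasFDerivAt

lemma cd_coord (j : Fin n) {m : WithTop ℕ∞} : ContDiff ℝ m (fun p : E n => p j) :=
  (EuclideanSpace.proj j : E n →L[ℝ] ℝ).contDiff

lemma continuous_coord (j : Fin n) : Continuous (fun p : E n => p j) :=
  (cd_coord j (m := 0)).continuous

lemma differentiableAt_coord (j : Fin n) (x : E n) : DifferentiableAt ℝ (fun p : E n => p j) x :=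
  (hasFDerivAt_coord j x).differentiableAt

lemma pd_coord (i j : Fin n) (x : E n) :
    pd i (fun p : E n => p j) x = if j = i then 1 else 0 := by
  unfold pd; rw [(hasFDerivAt_coord j x).fderiv]
  change (ee i : E n) j = _
  simp

/-- `pd i f x` is the derivative of `f` along the line `x + t e_i`. -/
lemma hda_line (hf : DifferentiableAt ℝ f x) (i : Fin n) :
    HasDerivAt (fun t : ℝ => f (x + t • ee i)) (pd i f x) 0 := by
  have h1 : HasDerivAt (fun t : ℝ => x + t • (ee i : E n)) (ee i) 0 := by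
    simpa using ((hasDerivAt_id (0:ℝ)).smul_const (ee i : E n)).const_add x
  have h2 : HasFDerivAt f (fderiv ℝ f x) (x + (0:ℝ) • (ee i : E n)) := by
    simpa using hf.hasFDerivAt
  exact h2.comp_hasDerivAt (0:ℝ) h1

lemma hda_line' {t : ℝ} (hf : DifferentiableAt ℝ f (x + t • ee i)) :
    HasDerivAt (fun s : ℝ => f (x + s • ee i)) (pd i f (x + t • ee i)) t := by
  have h1 : HasDerivAt (fun t : ℝ => x + t • (ee i : E n)) (ee i) t := by
    simpa using ((hasDerivAt_id t).smul_const (ee i : E n)).const_add x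
  exact hf.hasFDerivAt.comp_hasDerivAt t h1

/-! ## Smoothness of `pd` -/

lemma ContDiffOn.pd' {m k : WithTop ℕ∞} {s : Set (E n)} (hs : IsOpen s) (hf : ContDiffOn ℝ k f s)
    (hmk : m + 1 ≤ k) (i : Fin n) : ContDiffOn ℝ m (pd i f) s := by
  have h := hf.fderiv_of_isOpen hs hmk
  exact h.clm_apply contDiffOn_const

lemma ContDiff.pd' {m k : WithTop ℕ∞} (hf : ContDiff ℝ k f) (hmk : m + 1 ≤ k) (i : Fin n) :
    ContDiff ℝ m (pd i f) := by
  exact (hf.fderiv_right hmk).clm_apply contDiff_const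

lemma contDiff_pd_infty (hf : ContDiff ℝ ∞ f) (i : Fin n) : ContDiff ℝ ∞ (pd i f) :=
  ContDiff.pd' hf (by simp) i

/-! ## Test functions -/

/-- a function which is `C¹` on the open set `Ω` and vanishes off a compact subset of `Ω` is a test
function. -/
lemma contDiff_of_off_compact {m : WithTop ℕ∞} {Ω K : Set (E n)} (hΩ : IsOpen Ω)
    (hf : ContDiffOn ℝ m f Ω) (hK : IsCompact K) (hKΩ : K ⊆ Ω) (h0 : ∀ x, x ∉ K → f x = 0) :
    ContDiff ℝ m f := by
  rw [contDiff_iff_contDiffAt]
  intro x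
  by_cases hx : x ∈ Ω
  · exact hf.contDiffAt (hΩ.mem_nhds hx)
  · have hxK : x ∈ Kᶜ := fun h => hx (hKΩ h)
    have : f =ᶠ[𝓝 x] fun _ => 0 := by
      filter_upwards [hK.isClosed.isOpen_compl.mem_nhds hxK] with y hy using h0 y hy
    exact contDiffAt_const.congr_of_eventuallyEq this

lemma tsupport_subset_of_off {K : Set (E n)} (hK : IsClosed K) (h0 : ∀ x, x ∉ K → f x = 0) :
    tsupport f ⊆ K := by
  apply closure_minimal _ hK
  intro x hx
  by_contra h
  exact hx (h0 x h)

lemma test1_of {Ω K : Set (E n)} (hΩ : IsOpen Ω) (hf : ContDiffOn ℝ 1 f Ω) (hK : IsCompact K)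
    (hKΩ : K ⊆ Ω) (h0 : ∀ x, x ∉ K → f x = 0) : Test1 Ω f where
  smooth := contDiff_of_off_compact hΩ hf hK hKΩ h0
  cpt := HasCompactSupport.intro hK h0
  sub := (tsupport_subset_of_off hK.isClosed h0).trans hKΩ

lemma pd_eq_zero_of_notMem (h : x ∉ tsupport f) (i : Fin n) : pd i f x = 0 := by
  unfold pd; rw [fderiv_of_notMem_tsupport (𝕜 := ℝ) h]; rfl

lemma Test1.continuous {Ω : Set (E n)} (hf : Test1 Ω f) : Continuous f := hf.smooth.continuous

lemma Test1.differentiableAt {Ω : Set (E n)} (hf : Test1 Ω f) (x : E n) : DifferentiableAt ℝ f x :=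
  hf.smooth.differentiable (by norm_num) x

lemma Test1.continuous_pd {Ω : Set (E n)} (hf : Test1 Ω f) (i : Fin n) : Continuous (pd i f) :=
  (ContDiff.pd' (m := 0) hf.smooth (by simp) i).continuous

lemma hasCompactSupport_pd (hf : HasCompactSupport f) (i : Fin n) :
    HasCompactSupport (pd i f) := by
  refine HasCompactSupport.intro (K := tsupport f) hf (fun x hx => pd_eq_zero_of_notMem hx i)

lemma Test1.intg {Ω : Set (E n)} (hf : Test1 Ω f) : Integrable f :=
  hf.continuous.integrable_of_hasCompactSupport hf.cpt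

lemma Test1.integrable_pd {Ω : Set (E n)} (hf : Test1 Ω f) (i : Fin n) : Integrable (pd i f) :=
  (hf.continuous_pd i).integrable_of_hasCompactSupport (hasCompactSupport_pd hf.cpt i)

lemma Test1.eqz {Ω : Set (E n)} (hf : Test1 Ω f) (hx : x ∉ Ω) : f x = 0 :=
  image_eq_zero_of_notMem_tsupport (fun h => hx (hf.sub h))

lemma Test1.pdz {Ω : Set (E n)} (hf : Test1 Ω f) (hx : x ∉ Ω) (i : Fin n) :
    pd i f x = 0 := pd_eq_zero_of_notMem (fun h => hx (hf.sub h)) i

/-- `∫ ∂_i F = 0` -/
lemma integral_pd {f : E n → ℝ} (hf : ContDiff ℝ 1 f) (hc : HasCompactSupport f) (i : Fin n) :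
    ∫ x, pd i f x = 0 := by
  have hcont : Continuous (pd i f) := (ContDiff.pd' (m := 0) hf (by simp) i).continuous
  have h1 : Integrable (pd i f) :=
    hcont.integrable_of_hasCompactSupport (hasCompactSupport_pd hc i)
  have h2 : Integrable f := hf.continuous.integrable_of_hasCompactSupport hc
  have h := integral_mul_fderiv_eq_neg_fderiv_mul_of_integrable (μ := (volume : Measure (E n)))
    (f := f) (g := fun _ : E n => (1:ℝ)) (v := (ee i : E n))
    (by simp only [mul_one]; exact h1) (by simp) (by simpa using h2)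
    (fun x _ => hf.differentiable (by norm_num) x) (fun x _ => differentiableAt_const _)
  simp at h
  simpa [pd] using h

lemma Test1.integ_pd {Ω : Set (E n)} (hf : Test1 Ω f) (i : Fin n) : ∫ x, pd i f x = 0 :=
  GS8.integral_pd hf.smooth hf.cpt i

/-- integration by parts for two `C¹` functions on `Ω`, the product vanishing off a compact subset -/
lemma ibp1 {Ω K : Set (E n)} (hΩ : IsOpen Ω) (hf : ContDiffOn ℝ 1 f Ω) (hg : ContDiffOn ℝ 1 g Ω)
    (hK : IsCompact K) (hKΩ : K ⊆ Ω) (h0 : ∀ x, x ∉ K → f x = 0) (i : Fin n) :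
    ∫ x in Ω, f x * pd i g x = -∫ x in Ω, pd i f x * g x := by
  have hfg : Test1 Ω (fun x => f x * g x) :=
    test1_of hΩ (hf.mul hg) hK hKΩ (fun x hx => by simp [h0 x hx])
  have hft : Test1 Ω f := test1_of hΩ hf hK hKΩ h0
  have hcf : ContinuousOn (pd i f) Ω := (ContDiffOn.pd' (m := 0) hΩ hf (by simp) i).continuousOn
  have hcg : ContinuousOn (pd i g) Ω := (ContDiffOn.pd' (m := 0) hΩ hg (by simp) i).continuousOn
  have hpd0 : ∀ x, x ∉ K → pd i f x = 0 := by
    intro x hx
    apply pd_eq_zero_of_notMem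
    intro h
    exact hx (tsupport_subset_of_off hK.isClosed h0 h)
  have hKm : MeasurableSet K := hK.measurableSet
  have hi1 : IntegrableOn (fun x => f x * pd i g x) Ω := by
    have : IntegrableOn (fun x => f x * pd i g x) K :=
      ((hf.continuousOn.mul hcg).mono hKΩ).integrableOn_compact hK
    refine (this.of_forall_sdiff_eq_zero hΩ.measurableSet ?_)
    intro x hx; simp [h0 x hx.2]
  have hi2 : IntegrableOn (fun x => pd i f x * g x) Ω := by
    have : IntegrableOn (fun x => pd i f x * g x) K :=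
      ((hcf.mul hg.continuousOn).mono hKΩ).integrableOn_compact hK
    refine (this.of_forall_sdiff_eq_zero hΩ.measurableSet ?_)
    intro x hx; simp [hpd0 x hx.2]
  have h := hfg.integ_pd i
  have h' : ∫ x in Ω, pd i (fun y => f y * g y) x = 0 := by
    rw [setIntegral_eq_integral_of_forall_compl_eq_zero]
    · exact h
    · intro x hx; exact hfg.pdz hx i
  have h'' : ∫ x in Ω, pd i (fun y => f y * g y) x = ∫ x in Ω, (pd i f x * g x + f x * pd i g x) := by
    apply setIntegral_congr_fun hΩ.measurableSet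
    intro x hx
    exact pdmul ((hf.differentiableOn (by norm_num)).differentiableAt (hΩ.mem_nhds hx))
      ((hg.differentiableOn (by norm_num)).differentiableAt (hΩ.mem_nhds hx)) i
  rw [h'', integral_add hi2 hi1] at h'
  linarith

/-! ## Boxes -/

/-- the box `∏ [-a i, a i]` -/
def box (a : Fin n → ℝ) : Set (E n) := {p | ∀ i, |p i| ≤ a i}

lemma isClosed_box (a : Fin n → ℝ) : IsClosed (box a) := by
  have : box a = ⋂ i, {p : E n | |p i| ≤ a i} := by ext p; simp [box]
  rw [this]
  exact isClosed_iInter fun i => isClosed_le (continuous_coord i).abs continuous_const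

lemma volume_box (a : Fin n → ℝ) (ha : ∀ i, 0 ≤ a i) :
    volume (box a) = ENNReal.ofReal (∏ i, (2 * a i)) := by
  have h := (PiLp.volume_preserving_ofLp (Fin n)).measure_preimage
    (s := Set.Icc (fun i => -a i) a) measurableSet_Icc.nullMeasurableSet
  have h2 : (WithLp.ofLp (p := 2) (V := Fin n → ℝ)) ⁻¹' (Set.Icc (fun i => -a i) a) = box a := by
    ext p
    simp only [mem_preimage, mem_Icc, Pi.le_def, box, mem_setOf_eq, abs_le]
    constructor
    · rintro ⟨h1, h2⟩ i; exact ⟨h1 i, h2 i⟩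
    · intro h; exact ⟨fun i => (h i).1, fun i => (h i).2⟩
  have h3 : volume (box a) = volume (Set.Icc (fun i => -a i) a) := by rw [← h2]; exact h
  rw [h3, Real.volume_Icc_pi, ENNReal.ofReal_prod_of_nonneg]
  · congr 1; ext i; congr 1; ring
  · intro i _; have := ha i; linarith

lemma volume_box_lt_top (a : Fin n → ℝ) (ha : ∀ i, 0 ≤ a i) : volume (box a) < ⊤ := by
  rw [volume_box a ha]; exact ENNReal.ofReal_lt_top

lemma volume_real_box (a : Fin n → ℝ) (ha : ∀ i, 0 ≤ a i) :
    volume.real (box a) = ∏ i, (2 * a i) := by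
  rw [Measure.real, volume_box a ha, ENNReal.toReal_ofReal]
  exact Finset.prod_nonneg fun i _ => by have := ha i; linarith

lemma isCompact_box (a : Fin n → ℝ) : IsCompact (box a) := by
  apply Metric.isCompact_of_isClosed_isBounded (isClosed_box a)
  rw [Metric.isBounded_iff_subset_closedBall 0]
  refine ⟨Real.sqrt (∑ i, a i ^ 2), fun p hp => ?_⟩
  rw [mem_closedBall_zero_iff, EuclideanSpace.norm_eq]
  apply Real.sqrt_le_sqrt
  apply Finset.sum_le_sum
  intro i _
  rw [Real.norm_eq_abs]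
  exact pow_le_pow_left₀ (abs_nonneg _) (hp i) 2

end Pool.Agent.GS8
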