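import Pool.Agent.GS8.Defs

/-!
Calculus of the truncations `FF η` and `FF' η`.
-/

set_option autoImplicit false

open MeasureTheory Set Filter Topology
open scoped Real ContDiff

namespace Pool.Agent.GS8

lemma FF_of_le {η s : ℝ} (h : s ≤ η) : FF η s = 0 := if_pos h

lemma FF_of_lt {η s : ℝ} (h : η < s) : FF η s = (s - η) ^ 2 / s := if_neg (not_le.2 h)

lemma FF'_of_le {η s : ℝ} (h : s ≤ η) : FF' η s = 0 := if_pos h

lemma FF'_of_lt {η s : ℝ} (h : η < s) : FF' η s = 1 - η ^ 2 / s ^ 2 := if_neg (not_le.2 h)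

lemma FF_nonneg {η : ℝ} (hη : 0 < η) (s : ℝ) : 0 ≤ FF η s := by
  rcases le_or_gt s η with h | h
  · rw [FF_of_le h]
  · rw [FF_of_lt h]
    have : 0 < s := hη.trans h
    positivity

lemma FF_le {η s : ℝ} (hη : 0 < η) (hs : 0 ≤ s) : FF η s ≤ s := by
  rcases le_or_gt s η with h | h
  · rw [FF_of_le h]; exact hs
  · rw [FF_of_lt h]
    have h1 : 0 < s := hη.trans h
    rw [div_le_iff₀ h1]
    nlinarith

lemma le_FF {η s : ℝ} (hη : 0 < η) : s - 2 * η ≤ FF η s := by
  rcases le_or_gt s η with h | h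
  · rw [FF_of_le h]; linarith
  · rw [FF_of_lt h]
    have h1 : 0 < s := hη.trans h
    rw [le_div_iff₀ h1]
    nlinarith [sq_nonneg η]

lemma FF_le_max {η : ℝ} (hη : 0 < η) (s : ℝ) : FF η s ≤ max s 0 := by
  rcases le_or_gt s 0 with h | h
  · rw [FF_of_le (h.trans hη.le)]; exact le_max_right _ _
  · exact (FF_le hη h.le).trans (le_max_left _ _)

lemma FF'_nonneg {η : ℝ} (hη : 0 < η) (s : ℝ) : 0 ≤ FF' η s := by
  rcases le_or_gt s η with h | h
  · rw [FF'_of_le h]
  · rw [FF'_of_lt h]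
    have h1 : 0 < s := hη.trans h
    have h2 : η ^ 2 / s ^ 2 ≤ 1 := by
      rw [div_le_one (by positivity)]
      exact pow_le_pow_left₀ hη.le h.le 2
    linarith

lemma FF'_le_one {η : ℝ} (s : ℝ) : FF' η s ≤ 1 := by
  rcases le_or_gt s η with h | h
  · rw [FF'_of_le h]; norm_num
  · rw [FF'_of_lt h]
    have h2 : 0 ≤ η ^ 2 / s ^ 2 := by positivity
    linarith

lemma FF'_abs_le_one {η : ℝ} (hη : 0 < η) (s : ℝ) : |FF' η s| ≤ 1 := by
  rw [abs_of_nonneg (FF'_nonneg hη s)]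
  exact FF'_le_one s

/-- quadratic bound near the threshold -/
lemma FF_le_sq {η : ℝ} (hη : 0 < η) (s : ℝ) : FF η s ≤ (s - η) ^ 2 / η := by
  rcases le_or_gt s η with h | h
  · rw [FF_of_le h]; positivity
  · rw [FF_of_lt h]
    gcongr

lemma FF_hasDerivAt {η : ℝ} (hη : 0 < η) (s : ℝ) : HasDerivAt (FF η) (FF' η s) s := by
  rcases lt_trichotomy s η with h | h | h
  · rw [FF'_of_le h.le]
    have h1 : FF η =ᶠ[𝓝 s] fun _ => (0 : ℝ) := by
      filter_upwards [Iio_mem_nhds h] with t ht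
      exact FF_of_le (le_of_lt ht)
    exact (hasDerivAt_const s (0 : ℝ)).congr_of_eventuallyEq h1
  · subst h
    rw [FF'_of_le le_rfl, hasDerivAt_iff_isLittleO, FF_of_le le_rfl]
    have h1 : (fun t : ℝ => FF s t - 0 - (t - s) • (0 : ℝ)) =O[𝓝 s] fun t => (t - s) ^ 2 := by
      apply Asymptotics.IsBigO.of_bound (1 / s)
      filter_upwards with t
      rw [smul_zero, sub_zero, sub_zero, Real.norm_eq_abs, Real.norm_eq_abs,
        abs_of_nonneg (FF_nonneg hη t), abs_of_nonneg (sq_nonneg _)]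
      calc FF s t ≤ (t - s) ^ 2 / s := FF_le_sq hη t
        _ = 1 / s * (t - s) ^ 2 := by ring
    refine h1.trans_isLittleO ?_
    have h2 : (fun t : ℝ => (t - s) ^ 2) = fun t => (t - s) * (t - s) := by
      funext t; ring
    rw [h2]
    have h3 : (fun t : ℝ => t - s) =o[𝓝 s] fun _ => (1 : ℝ) := by
      rw [Asymptotics.isLittleO_one_iff]
      have : Tendsto (fun t : ℝ => t - s) (𝓝 s) (𝓝 (s - s)) :=
        (continuous_id.sub continuous_const).tendsto s
      simpa using this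
    simpa using h3.mul_isBigO (Asymptotics.isBigO_refl (fun t : ℝ => t - s) (𝓝 s))
  · rw [FF'_of_lt h]
    have h0 : s ≠ 0 := (hη.trans h).ne'
    have h1 : FF η =ᶠ[𝓝 s] fun t => (t - η) ^ 2 / t := by
      filter_upwards [Ioi_mem_nhds h] with t ht
      exact FF_of_lt ht
    have h2 : HasDerivAt (fun t : ℝ => (t - η) ^ 2 / t)
        ((2 * (s - η) ^ (2 - 1) * 1 * s - (s - η) ^ 2 * 1) / s ^ 2) s := by
      have h3 : HasDerivAt (fun t : ℝ => (t - η) ^ 2) (2 * (s - η) ^ (2 - 1) * 1) s := by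
        simpa using ((hasDerivAt_id s).sub_const η).fun_pow 2
      exact h3.div (hasDerivAt_id s) h0
    refine (h2.congr_of_eventuallyEq h1).congr_deriv ?_
    field_simp
    ring

lemma FF_deriv {η : ℝ} (hη : 0 < η) : deriv (FF η) = FF' η := by
  funext s
  exact (FF_hasDerivAt hη s).deriv

lemma FF'_continuous {η : ℝ} (hη : 0 < η) : Continuous (FF' η) := by
  have h1 : FF' η = fun s => if s ≤ η then (0 : ℝ) else 1 - η ^ 2 / (max s η) ^ 2 := by
    funext s
    rcases le_or_gt s η with h | h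
    · rw [FF'_of_le h, if_pos h]
    · rw [FF'_of_lt h, if_neg (not_le.2 h), max_eq_left h.le]
  rw [h1]
  refine Continuous.if_le continuous_const ?_ continuous_id continuous_const ?_
  · have : ∀ s : ℝ, (max s η) ^ 2 ≠ 0 := fun s => by
      have : 0 < max s η := lt_max_of_lt_right hη
      positivity
    fun_prop (disch := assumption)
  · intro s hs
    rw [hs, max_self, div_self (by positivity), sub_self]

lemma FF_contDiff {η : ℝ} (hη : 0 < η) : ContDiff ℝ 1 (FF η) := by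
  rw [contDiff_one_iff_deriv, FF_deriv hη]
  exact ⟨fun s => (FF_hasDerivAt hη s).differentiableAt, FF'_continuous hη⟩

lemma FF_continuous {η : ℝ} (hη : 0 < η) : Continuous (FF η) := (FF_contDiff hη).continuous

/-- on `s ≥ 2 η` the derivative is at least `3/4` -/
lemma FF'_ge {η s : ℝ} (hη : 0 < η) (h : 2 * η ≤ s) : 3 / 4 ≤ FF' η s := by
  rw [FF'_of_lt (by linarith)]
  have h1 : 0 < s := by linarith
  have h2 : η ^ 2 / s ^ 2 ≤ 1 / 4 := by
    rw [div_le_iff₀ (by positivity)]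
    nlinarith
  linarith

lemma FF_tendsto {s : ℝ} (hs : 0 ≤ s) : Tendsto (fun η => FF η s) (𝓝[>] 0) (𝓝 s) := by
  have h1 : Tendsto (fun η : ℝ => s - 2 * η) (𝓝[>] 0) (𝓝 s) := by
    have : Tendsto (fun η : ℝ => s - 2 * η) (𝓝 0) (𝓝 (s - 2 * 0)) :=
      (by fun_prop : Continuous fun η : ℝ => s - 2 * η).tendsto 0
    simpa using this.mono_left nhdsWithin_le_nhds
  refine tendsto_of_tendsto_of_tendsto_of_le_of_le' h1 tendsto_const_nhds ?_ ?_
  · filter_upwards [self_mem_nhdsWithin] with η hη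
    exact le_FF hη
  · filter_upwards [self_mem_nhdsWithin] with η hη
    exact FF_le hη hs

lemma FF'_tendsto {s : ℝ} (hs : 0 < s) : Tendsto (fun η => FF' η s) (𝓝[>] 0) (𝓝 1) := by
  have h1 : Tendsto (fun η : ℝ => 1 - η ^ 2 / s ^ 2) (𝓝[>] 0) (𝓝 1) := by
    have : Tendsto (fun η : ℝ => 1 - η ^ 2 / s ^ 2) (𝓝 0) (𝓝 (1 - 0 ^ 2 / s ^ 2)) :=
      (by fun_prop : Continuous fun η : ℝ => 1 - η ^ 2 / s ^ 2).tendsto 0
    simpa using this.mono_left nhdsWithin_le_nhds
  refine h1.congr' ?_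
  have h2 : ∀ᶠ η : ℝ in 𝓝[>] 0, η < s := nhdsWithin_le_nhds (Iio_mem_nhds hs)
  filter_upwards [h2] with η hη
  exact (FF'_of_lt hη).symm

end Pool.Agent.GS8
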