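import Pool.Agent.GS8.CalcA

/-!
Test functions, products with functions on `Ω`, integration by parts.
-/

set_option autoImplicit false

open MeasureTheory Set Filter Topology
open scoped Real ContDiff

namespace Pool.Agent.GS8

variable {n : ℕ} {Ω : Set (E n)}

/-- product of a compactly supported continuous function with a function continuous on `Ω` -/
lemma cont_mul_of {f g : E n → ℝ} (ho : IsOpen Ω) (hf : Continuous f) (hs : tsupport f ⊆ Ω)
    (hg : ContinuousOn g Ω) : Continuous (fun x => f x * g x) := by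
  apply continuous_of_tsupport
  intro x hx
  have h1 : x ∈ tsupport f := tsupport_mul_subset_left hx
  exact hf.continuousAt.mul ((hg x (hs h1)).continuousAt (ho.mem_nhds (hs h1)))

lemma int_mul_of {f g : E n → ℝ} (ho : IsOpen Ω) (hf : Continuous f) (hc : HasCompactSupport f)
    (hs : tsupport f ⊆ Ω) (hg : ContinuousOn g Ω) : Integrable (fun x => f x * g x) :=
  (cont_mul_of ho hf hs hg).integrable_of_hasCompactSupport hc.mul_right

lemma Test1.zero {f : E n → ℝ} (hf : Test1 Ω f) {x : E n} (hx : x ∉ Ω) : f x = 0 :=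
  image_eq_zero_of_notMem_tsupport fun h => hx (hf.sub h)

lemma Test1.pd_cont {f : E n → ℝ} (hf : Test1 Ω f) (i : Fin n) : Continuous (pd i f) :=
  (hf.smooth.continuous_fderiv one_ne_zero).clm_apply continuous_const

lemma Test1.pd_cpt {f : E n → ℝ} (hf : Test1 Ω f) (i : Fin n) : HasCompactSupport (pd i f) :=
  hf.cpt.fderiv_apply ℝ _

lemma Test1.pd_sub {f : E n → ℝ} (hf : Test1 Ω f) (i : Fin n) : tsupport (pd i f) ⊆ Ω :=
  (tsupport_fderiv_apply_subset ℝ _).trans hf.sub

lemma Test1.pd_zero {f : E n → ℝ} (hf : Test1 Ω f) (i : Fin n) {x : E n} (hx : x ∉ Ω) :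
    pd i f x = 0 :=
  image_eq_zero_of_notMem_tsupport fun h => hx (hf.pd_sub i h)

lemma Test1.integrable {f : E n → ℝ} (hf : Test1 Ω f) : Integrable f :=
  hf.smooth.continuous.integrable_of_hasCompactSupport hf.cpt

lemma Test1.pd_integrable {f : E n → ℝ} (hf : Test1 Ω f) (i : Fin n) : Integrable (pd i f) :=
  (hf.pd_cont i).integrable_of_hasCompactSupport (hf.pd_cpt i)

/-- partial derivatives of a `C¹` function on `Ω` are continuous on `Ω` -/
lemma pd_contOn {g : E n → ℝ} (ho : IsOpen Ω) (hg : ContDiffOn ℝ 1 g Ω) (i : Fin n) :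
    ContinuousOn (pd i g) Ω :=
  (hg.continuousOn_fderiv_of_isOpen ho le_rfl).clm_apply continuousOn_const

lemma pd_contDiffOn {g : E n → ℝ} (ho : IsOpen Ω) (hg : ContDiffOn ℝ 2 g Ω) (i : Fin n) :
    ContDiffOn ℝ 1 (pd i g) Ω := by
  have h1 : ContDiffOn ℝ 1 (fderiv ℝ g) Ω := hg.fderiv_of_isOpen ho (by norm_num)
  exact h1.clm_apply contDiffOn_const

lemma diffAt_of {g : E n → ℝ} (ho : IsOpen Ω) (hg : ContDiffOn ℝ 1 g Ω) {x : E n} (hx : x ∈ Ω) :
    DifferentiableAt ℝ g x :=
  (hg.contDiffAt (ho.mem_nhds hx)).differentiableAt one_ne_zero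

/-- the product of a test function with a `C¹` function on `Ω` is a test function -/
lemma Test1.mul {f g : E n → ℝ} (hf : Test1 Ω f) (ho : IsOpen Ω) (hg : ContDiffOn ℝ 1 g Ω) :
    Test1 Ω (fun x => f x * g x) where
  smooth := by
    rw [contDiff_iff_contDiffAt]
    intro x
    by_cases hx : x ∈ tsupport f
    · exact hf.smooth.contDiffAt.mul (hg.contDiffAt (ho.mem_nhds (hf.sub hx)))
    · have h1 : (fun x => f x * g x) =ᶠ[𝓝 x] fun _ => (0 : ℝ) := by
        have h2 : (tsupport f)ᶜ ∈ 𝓝 x := (isClosed_tsupport f).isOpen_compl.mem_nhds hx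
        filter_upwards [h2] with y hy
        rw [image_eq_zero_of_notMem_tsupport hy, zero_mul]
      exact contDiffAt_const.congr_of_eventuallyEq h1
  cpt := hf.cpt.mul_right
  sub := (tsupport_mul_subset_left).trans hf.sub

lemma pd_mul {f g : E n → ℝ} {x : E n} (hf : DifferentiableAt ℝ f x)
    (hg : DifferentiableAt ℝ g x) (i : Fin n) :
    pd i (fun y => f y * g y) x = pd i f x * g x + f x * pd i g x := by
  unfold pd
  rw [fderiv_fun_mul hf hg]
  simp only [_root_.add_apply, _root_.smul_apply, smul_eq_mul]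
  ring

lemma Test1.pd_mul {f g : E n → ℝ} (hf : Test1 Ω f) (ho : IsOpen Ω) (hg : ContDiffOn ℝ 1 g Ω)
    (i : Fin n) {x : E n} (hx : x ∈ Ω) :
    pd i (fun y => f y * g y) x = pd i f x * g x + f x * pd i g x :=
  GS8.pd_mul (hf.smooth.differentiable one_ne_zero x) (diffAt_of ho hg hx) i

/-- integration by parts -/
lemma ibp {f g : E n → ℝ} (ho : IsOpen Ω) (hf : Test1 Ω f) (hg : ContDiffOn ℝ 1 g Ω) (i : Fin n) :
    ∫ x, f x * pd i g x = - ∫ x, pd i f x * g x := by
  apply integral_mul_fderiv_eq_neg_fderiv_mul_of_integrable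
  · exact int_mul_of ho (hf.pd_cont i) (hf.pd_cpt i) (hf.pd_sub i) hg.continuousOn
  · exact int_mul_of ho hf.smooth.continuous hf.cpt hf.sub (pd_contOn ho hg i)
  · exact int_mul_of ho hf.smooth.continuous hf.cpt hf.sub hg.continuousOn
  · intro x _
    exact hf.smooth.differentiable one_ne_zero x
  · intro x hx
    exact diffAt_of ho hg (hf.sub hx)

/-- integrals over `Ω` and over the whole space agree for functions vanishing off `Ω` -/
lemma int_Om {h : E n → ℝ} (hz : ∀ x, x ∉ Ω → h x = 0) : ∫ x in Ω, h x = ∫ x, h x :=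
  setIntegral_eq_integral_of_forall_compl_eq_zero hz

/-- the integral of a derivative of a `C¹` compactly supported function vanishes -/
lemma int_pd_zero {f : E n → ℝ} (hf : ContDiff ℝ 1 f) (hc : HasCompactSupport f) (i : Fin n) :
    ∫ x, pd i f x = 0 := by
  have h1 : Test1 (univ : Set (E n)) f := ⟨hf, hc, subset_univ _⟩
  have h2 := ibp isOpen_univ h1 (contDiffOn_const (c := (1 : ℝ))) i
  have h3 : ∀ x : E n, pd i (fun _ : E n => (1 : ℝ)) x = 0 := by
    intro x
    unfold pd
    simp
  simp only [h3, mul_zero, mul_one, integral_zero] at h2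
  linarith

end Pool.Agent.GS8
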