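import Pool.Agent.GS8.CalcB

/-!
Calculus of a ground state, first part: truncations, weak form, Picone inequality, Hessian.
-/

set_option autoImplicit false

open MeasureTheory Set Filter Topology
open scoped Real ContDiff

namespace Pool.Agent.GS8

variable {n : ℕ} {Ω : Set (E n)} {u : E n → ℝ} {lam : ℝ}

lemma Ground.nonneg (hu : Ground Ω u lam) (x : E n) : 0 ≤ u x := by
  by_cases hx : x ∈ Ω
  · exact (hu.pos x hx).le
  · rw [hu.zero x hx]

lemma Ground.smooth1 (hu : Ground Ω u lam) : ContDiffOn ℝ 1 u Ω := hu.smooth.of_le (by norm_num)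

/-- the superlevel sets are in `Ω` -/
lemma Ground.superlevel_sub (hu : Ground Ω u lam) {η : ℝ} (hη : 0 < η) :
    {x | η ≤ u x} ⊆ Ω := by
  intro x hx
  by_contra hn
  have h1 : η ≤ u x := hx
  rw [hu.zero x hn] at h1
  linarith

lemma Ground.superlevel_closed (hu : Ground Ω u lam) (η : ℝ) : IsClosed {x | η ≤ u x} :=
  isClosed_le continuous_const hu.cont

lemma Ground.superlevel_compact (hu : Ground Ω u lam) (hb : Bornology.IsBounded Ω) {η : ℝ}
    (hη : 0 < η) : IsCompact {x | η ≤ u x} :=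
  Metric.isCompact_of_isClosed_isBounded (hu.superlevel_closed η)
    (hb.subset (hu.superlevel_sub hη))

lemma tsupport_trunc (hu : Ground Ω u lam) (η : ℝ) :
    tsupport (fun x => FF η (u x)) ⊆ {x | η ≤ u x} := by
  apply closure_minimal _ (hu.superlevel_closed η)
  intro x hx
  by_contra hn
  have h1 : u x < η := not_le.1 hn
  exact hx (FF_of_le h1.le)

lemma trunc_test (ho : IsOpen Ω) (hb : Bornology.IsBounded Ω) (hu : Ground Ω u lam) {η : ℝ}
    (hη : 0 < η) : Test1 Ω (fun x => FF η (u x)) where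
  smooth := by
    rw [contDiff_iff_contDiffAt]
    intro x
    by_cases hx : x ∈ Ω
    · exact (FF_contDiff hη).contDiffAt.comp x (hu.smooth1.contDiffAt (ho.mem_nhds hx))
    · have h1 : (fun x => FF η (u x)) =ᶠ[𝓝 x] fun _ => (0 : ℝ) := by
        have h2 : {x | η ≤ u x}ᶜ ∈ 𝓝 x :=
          (hu.superlevel_closed η).isOpen_compl.mem_nhds fun h => hx (hu.superlevel_sub hη h)
        filter_upwards [h2] with y hy
        have h3 : u y < η := not_le.1 hy
        exact FF_of_le h3.le
      exact contDiffAt_const.congr_of_eventuallyEq h1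
  cpt := (hu.superlevel_compact hb hη).of_isClosed_subset (isClosed_tsupport _)
    (tsupport_trunc hu η)
  sub := (tsupport_trunc hu η).trans (hu.superlevel_sub hη)

lemma trunc_pd (ho : IsOpen Ω) (hu : Ground Ω u lam) {η : ℝ} (hη : 0 < η) (i : Fin n) (x : E n) :
    pd i (fun y => FF η (u y)) x = FF' η (u x) * pd i u x := by
  by_cases hx : x ∈ Ω
  · have h1 := (diffAt_of ho hu.smooth1 hx).hasFDerivAt
    have h2 := (FF_hasDerivAt hη (u x)).comp_hasFDerivAt x h1
    have h3 : fderiv ℝ (fun y => FF η (u y)) x = FF' η (u x) • fderiv ℝ u x := h2.fderiv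
    unfold pd
    rw [h3]
    rfl
  · have h1 : (fun x => FF η (u x)) =ᶠ[𝓝 x] fun _ => (0 : ℝ) := by
      have h2 : {x | η ≤ u x}ᶜ ∈ 𝓝 x :=
        (hu.superlevel_closed η).isOpen_compl.mem_nhds fun h => hx (hu.superlevel_sub hη h)
      filter_upwards [h2] with y hy
      have h3 : u y < η := not_le.1 hy
      exact FF_of_le h3.le
    have h4 : pd i (fun y => FF η (u y)) x = 0 := by
      unfold pd
      rw [h1.fderiv_eq]
      simp
    rw [h4, hu.zero x hx, FF'_of_le hη.le, zero_mul]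

/-- weak form -/
lemma weak_form (ho : IsOpen Ω) (hu : Ground Ω u lam) {f : E n → ℝ} (hf : Test1 Ω f) :
    ∑ i : Fin n, ∫ x in Ω, pd i u x * pd i f x = lam * ∫ x in Ω, u x * f x := by
  have h1 : ∀ i : Fin n, ∫ x in Ω, pd i u x * pd i f x = - ∫ x, f x * pd i (pd i u) x := by
    intro i
    rw [int_Om (fun x hx => by rw [hf.pd_zero i hx, mul_zero]),
      ibp ho hf (pd_contDiffOn ho hu.smooth i) i, neg_neg]
    congr 1
    funext x
    ring
  have h2 : ∀ i : Fin n, Integrable (fun x => f x * pd i (pd i u) x) := fun i =>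
    int_mul_of ho hf.smooth.continuous hf.cpt hf.sub
      (pd_contOn ho (pd_contDiffOn ho hu.smooth i) i)
  simp only [h1]
  rw [Finset.sum_neg_distrib, ← integral_finsetSum _ (fun i _ => h2 i),
    int_Om (fun x hx => by rw [hf.zero hx, mul_zero]), ← integral_const_mul, ← integral_neg]
  congr 1
  funext x
  by_cases hx : x ∈ Ω
  · have h3 := hu.eq x hx
    unfold lap at h3
    rw [← Finset.mul_sum]
    linear_combination f x * h3
  · simp only [hf.zero hx, zero_mul, mul_zero, Finset.sum_const_zero, neg_zero]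

lemma inv_contDiffOn (hu : Ground Ω u lam) : ContDiffOn ℝ 1 (fun x => (u x)⁻¹) Ω :=
  hu.smooth1.inv fun x hx => (hu.pos x hx).ne'

lemma pd_inv (ho : IsOpen Ω) (hu : Ground Ω u lam) (i : Fin n) {x : E n} (hx : x ∈ Ω) :
    pd i (fun y => (u y)⁻¹) x = - pd i u x / u x ^ 2 := by
  have h1 := (diffAt_of ho hu.smooth1 hx).hasFDerivAt
  have h2 : HasFDerivAt (fun y => (u y)⁻¹) (-(u x ^ 2)⁻¹ • fderiv ℝ u x) x :=
    (hasDerivAt_inv (hu.pos x hx).ne').comp_hasFDerivAt x h1
  unfold pd
  rw [h2.fderiv]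
  simp only [_root_.smul_apply, smul_eq_mul]
  ring

/-- Picone inequality -/
lemma picone (ho : IsOpen Ω) (hu : Ground Ω u lam) {f : E n → ℝ} (hf : Test1 Ω f) :
    lam * ∫ x, f x ^ 2 ≤ ∑ i : Fin n, ∫ x, pd i f x ^ 2 := by
  set g : E n → ℝ := fun x => f x * (u x)⁻¹ with hg
  have hgt : Test1 Ω g := hf.mul ho (inv_contDiffOn hu)
  have hqt : Test1 Ω (fun x => f x * g x) := hf.mul ho hgt.smooth.contDiffOn
  have h1 := weak_form ho hu hqt
  have h2 : ∫ x in Ω, u x * (f x * g x) = ∫ x, f x ^ 2 := by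
    rw [int_Om (fun x hx => by rw [hf.zero hx]; ring)]
    congr 1
    funext x
    by_cases hx : x ∈ Ω
    · have h3 : u x ≠ 0 := (hu.pos x hx).ne'
      simp only [hg]
      field_simp
    · rw [hf.zero hx]; ring
  rw [← h2, ← h1]
  apply Finset.sum_le_sum
  intro i _
  rw [int_Om (fun x hx => by rw [hqt.pd_zero i hx, mul_zero])]
  have hint1 : Integrable (fun x => pd i (fun y => f y * g y) x * pd i u x) :=
    int_mul_of ho (hqt.pd_cont i) (hqt.pd_cpt i) (hqt.pd_sub i) (pd_contOn ho hu.smooth1 i)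
  have hint2 : Integrable (fun x => pd i f x * pd i f x) :=
    int_mul_of ho (hf.pd_cont i) (hf.pd_cpt i) (hf.pd_sub i) (hf.pd_cont i).continuousOn
  have e1 : ∀ x, pd i u x * pd i (fun y => f y * g y) x = pd i (fun y => f y * g y) x * pd i u x :=
    fun x => mul_comm _ _
  have e2 : ∀ x, pd i f x ^ 2 = pd i f x * pd i f x := fun x => sq _
  simp only [e1, e2]
  apply integral_mono hint1 hint2
  intro x
  show pd i (fun y => f y * g y) x * pd i u x ≤ pd i f x * pd i f x
  by_cases hx : x ∈ Ω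
  · have h3 : u x ≠ 0 := (hu.pos x hx).ne'
    have h4 : pd i g x = pd i f x * (u x)⁻¹ + f x * (- pd i u x / u x ^ 2) := by
      rw [← pd_inv ho hu i hx]
      exact hf.pd_mul ho (inv_contDiffOn hu) i hx
    have h5 : pd i (fun y => f y * g y) x = pd i f x * g x + f x * pd i g x :=
      hf.pd_mul ho hgt.smooth.contDiffOn i hx
    rw [h5, h4]
    have h6 : pd i f x * pd i f x - (pd i f x * g x + f x * (pd i f x * (u x)⁻¹
        + f x * (- pd i u x / u x ^ 2))) * pd i u x
        = (pd i f x - f x * (u x)⁻¹ * pd i u x) ^ 2 := by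
      simp only [hg]
      field_simp
      ring
    nlinarith [sq_nonneg (pd i f x - f x * (u x)⁻¹ * pd i u x)]
  · rw [hqt.pd_zero i hx, zero_mul]
    exact mul_self_nonneg _

/-! ### the Hessian of `log u` -/

lemma log_contDiffOn (hu : Ground Ω u lam) : ContDiffOn ℝ 2 (fun x => Real.log (u x)) Ω :=
  hu.smooth.log fun x hx => (hu.pos x hx).ne'

lemma pd_log (ho : IsOpen Ω) (hu : Ground Ω u lam) (i : Fin n) {x : E n} (hx : x ∈ Ω) :
    pd i (fun y => Real.log (u y)) x = pd i u x * (u x)⁻¹ := by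
  have h1 := (diffAt_of ho hu.smooth1 hx).hasFDerivAt
  have h2 := h1.log (hu.pos x hx).ne'
  unfold pd
  rw [h2.fderiv]
  simp only [_root_.smul_apply, smul_eq_mul]
  ring

lemma pd_pd_log (ho : IsOpen Ω) (hu : Ground Ω u lam) (i : Fin n) {x : E n} (hx : x ∈ Ω) :
    pd i (pd i (fun y => Real.log (u y))) x = - sig i u x := by
  have h1 : pd i (fun y => Real.log (u y)) =ᶠ[𝓝 x] fun y => pd i u y * (u y)⁻¹ := by
    filter_upwards [ho.mem_nhds hx] with y hy
    exact pd_log ho hu i hy
  have h2 : pd i (pd i (fun y => Real.log (u y))) x = pd i (fun y => pd i u y * (u y)⁻¹) x := by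
    show fderiv ℝ _ x (ee i) = fderiv ℝ _ x (ee i)
    rw [h1.fderiv_eq]
  rw [h2, GS8.pd_mul (diffAt_of ho (pd_contDiffOn ho hu.smooth i) hx)
    (diffAt_of ho (inv_contDiffOn hu) hx), pd_inv ho hu i hx]
  have h3 : u x ≠ 0 := (hu.pos x hx).ne'
  unfold sig
  field_simp
  ring

lemma hess_log (ho : IsOpen Ω) (hu : Ground Ω u lam) (i : Fin n) {x : E n} (hx : x ∈ Ω) :
    -(fderiv ℝ (fderiv ℝ (fun y => Real.log (u y))) x (ee i) (ee i)) = sig i u x := by
  have h1 : DifferentiableAt ℝ (fderiv ℝ (fun y => Real.log (u y))) x := by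
    have h2 : ContDiffOn ℝ 1 (fderiv ℝ (fun y => Real.log (u y))) Ω :=
      (log_contDiffOn hu).fderiv_of_isOpen ho (by norm_num)
    exact (h2.contDiffAt (ho.mem_nhds hx)).differentiableAt one_ne_zero
  have h3 : pd i (pd i (fun y => Real.log (u y))) x
      = fderiv ℝ (fderiv ℝ (fun y => Real.log (u y))) x (ee i) (ee i) := by
    show fderiv ℝ (fun y => fderiv ℝ (fun y => Real.log (u y)) y (ee i)) x (ee i) = _
    rw [fderiv_clm_apply h1 (differentiableAt_const _)]
    simp
  rw [← h3, pd_pd_log ho hu i hx, neg_neg]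

lemma sig_nonneg (ho : IsOpen Ω) (hu : Ground Ω u lam) (i : Fin n) {x : E n} (hx : x ∈ Ω) :
    0 ≤ sig i u x := by
  set S : Set ℝ := {t : ℝ | x + t • (ee i : E n) ∈ Ω} with hS
  have hSo : IsOpen S := ho.preimage (by fun_prop)
  have h0S : (0 : ℝ) ∈ S := by
    show x + (0 : ℝ) • (ee i : E n) ∈ Ω
    rw [zero_smul, add_zero]; exact hx
  set g : ℝ → ℝ := fun t => Real.log (u (x + t • (ee i : E n))) with hg
  have hconc : ConcaveOn ℝ S g := by
    have h1 := hu.conc.comp_affineMap (AffineMap.lineMap x (x + (ee i : E n)) : ℝ →ᵃ[ℝ] E n)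
    have h2 : ∀ t : ℝ, (AffineMap.lineMap x (x + (ee i : E n)) : ℝ →ᵃ[ℝ] E n) t
        = x + t • (ee i : E n) := by
      intro t
      rw [AffineMap.lineMap_apply]
      simp [add_comm]
    have h3 : (AffineMap.lineMap x (x + (ee i : E n)) : ℝ →ᵃ[ℝ] E n) ⁻¹' Ω = S := by
      ext t
      rw [Set.mem_preimage, h2]
      rfl
    rw [h3] at h1
    refine h1.congr fun t _ => ?_
    simp only [Function.comp_apply, h2, hg]
  have hline : ∀ t : ℝ, HasDerivAt (fun t : ℝ => x + t • (ee i : E n)) (ee i) t := by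
    intro t
    simpa using ((hasDerivAt_id t).smul_const (ee i : E n)).const_add x
  have hder : ∀ t ∈ S, HasDerivAt g (pd i (fun y => Real.log (u y)) (x + t • (ee i : E n))) t := by
    intro t ht
    have h1 : DifferentiableAt ℝ (fun y => Real.log (u y)) (x + t • (ee i : E n)) :=
      ((log_contDiffOn hu).contDiffAt (ho.mem_nhds ht)).differentiableAt two_ne_zero
    exact h1.hasFDerivAt.comp_hasDerivAt t (hline t)
  have hanti : AntitoneOn (deriv g) S :=
    hconc.antitoneOn_deriv fun t ht => (hder t ht).differentiableAt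
  have hder2 : HasDerivAt (deriv g) (- sig i u x) 0 := by
    have h1 : deriv g =ᶠ[𝓝 0] fun t => pd i (fun y => Real.log (u y)) (x + t • (ee i : E n)) := by
      filter_upwards [hSo.mem_nhds h0S] with t ht
      exact (hder t ht).deriv
    have h2 : DifferentiableAt ℝ (pd i (fun y => Real.log (u y))) (x + (0 : ℝ) • (ee i : E n)) := by
      rw [zero_smul, add_zero]
      exact diffAt_of ho (pd_contDiffOn ho (log_contDiffOn hu) i) hx
    have h3 := h2.hasFDerivAt.comp_hasDerivAt (0 : ℝ) (hline 0)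
    have h4 : fderiv ℝ (pd i (fun y => Real.log (u y))) (x + (0 : ℝ) • (ee i : E n)) (ee i)
        = - sig i u x := by
      rw [zero_smul, add_zero]
      exact pd_pd_log ho hu i hx
    rw [h4] at h3
    exact h3.congr_of_eventuallyEq h1
  have h5 := hanti.derivWithin_nonpos (x := (0 : ℝ))
  rw [derivWithin_of_isOpen hSo h0S, hder2.deriv] at h5
  linarith

end Pool.Agent.GS8
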