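import Pool.Agent.GS8.CalcC

/-!
Calculus of a ground state, second part: energy identity, integral bound for the Hessian.
-/

set_option autoImplicit false

open MeasureTheory Set Filter Topology
open scoped Real ContDiff

namespace Pool.Agent.GS8

variable {n : ℕ} {Ω : Set (E n)} {u : E n → ℝ} {lam : ℝ}

lemma Ground.cpt (hb : Bornology.IsBounded Ω) (hu : Ground Ω u lam) : HasCompactSupport u := by
  have h1 : IsCompact (closure Ω) :=
    Metric.isCompact_of_isClosed_isBounded isClosed_closure hb.closure
  apply HasCompactSupport.intro h1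
  intro x hx
  exact hu.zero x fun h => hx (subset_closure h)

lemma Ground.sq_integrable (hb : Bornology.IsBounded Ω) (hu : Ground Ω u lam) :
    Integrable (fun x => u x ^ 2) := by
  have h1 : (fun x => u x ^ 2) = fun x => u x * u x := by funext x; ring
  rw [h1]
  exact (hu.cont.mul hu.cont).integrable_of_hasCompactSupport (hu.cpt hb).mul_right

/-- the energy identity for truncations -/
lemma energy_trunc (ho : IsOpen Ω) (hb : Bornology.IsBounded Ω) (hu : Ground Ω u lam) {η : ℝ}
    (hη : 0 < η) : ∑ i : Fin n, ∫ x in Ω, FF' η (u x) * pd i u x ^ 2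
      = lam * ∫ x in Ω, u x * FF η (u x) := by
  rw [← weak_form ho hu (trunc_test ho hb hu hη)]
  apply Finset.sum_congr rfl
  intro i _
  congr 1
  funext x
  rw [trunc_pd ho hu hη]
  ring

lemma trunc_grad_int (ho : IsOpen Ω) (hb : Bornology.IsBounded Ω) (hu : Ground Ω u lam) {η : ℝ}
    (hη : 0 < η) (i : Fin n) : Integrable (fun x => FF' η (u x) * pd i u x ^ 2) := by
  have h1 := trunc_test ho hb hu hη
  have h2 : Integrable (fun x => pd i (fun y => FF η (u y)) x * pd i u x) :=
    int_mul_of ho (h1.pd_cont i) (h1.pd_cpt i) (h1.pd_sub i) (pd_contOn ho hu.smooth1 i)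
  refine h2.congr (Eventually.of_forall fun x => ?_)
  simp only [trunc_pd ho hu hη]
  ring

lemma FF_mul_int (hb : Bornology.IsBounded Ω) (hu : Ground Ω u lam) {η : ℝ}
    (hη : 0 < η) : Integrable (fun x => u x * FF η (u x)) :=
  (hu.cont.mul ((FF_continuous hη).comp hu.cont)).integrable_of_hasCompactSupport
    (hu.cpt hb).mul_right

lemma FF_mul_le (hb : Bornology.IsBounded Ω) (hu : Ground Ω u lam) {η : ℝ}
    (hη : 0 < η) : lam * ∫ x in Ω, u x * FF η (u x) ≤ |lam| * ∫ x, u x ^ 2 := by
  have h1 : ∀ x, 0 ≤ u x * FF η (u x) := fun x => mul_nonneg (hu.nonneg x) (FF_nonneg hη _)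
  have h0 : 0 ≤ ∫ x in Ω, u x * FF η (u x) := integral_nonneg h1
  have h2 : ∫ x in Ω, u x * FF η (u x) ≤ ∫ x, u x ^ 2 := by
    calc ∫ x in Ω, u x * FF η (u x) ≤ ∫ x, u x * FF η (u x) :=
          setIntegral_le_integral (FF_mul_int hb hu hη) (Eventually.of_forall h1)
      _ ≤ ∫ x, u x ^ 2 := by
          apply integral_mono (FF_mul_int hb hu hη) (hu.sq_integrable hb)
          intro x
          show u x * FF η (u x) ≤ u x ^ 2
          have := FF_le hη (hu.nonneg x)
          nlinarith [hu.nonneg x]
  calc lam * ∫ x in Ω, u x * FF η (u x) ≤ |lam| * ∫ x in Ω, u x * FF η (u x) :=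
        mul_le_mul_of_nonneg_right (le_abs_self _) h0
    _ ≤ _ := mul_le_mul_of_nonneg_left h2 (abs_nonneg _)

lemma grad_int (ho : IsOpen Ω) (hb : Bornology.IsBounded Ω) (hu : Ground Ω u lam) (i : Fin n) :
    IntegrableOn (fun x => pd i u x ^ 2) Ω := by
  have hcov : AECover (volume.restrict Ω) atTop (fun k : ℕ => {x | 2 * (1 / ((k : ℝ) + 1)) ≤ u x}) := by
    constructor
    · rw [ae_restrict_iff' ho.measurableSet]
      filter_upwards with x hx
      have h1 := hu.pos x hx
      have h2 : Tendsto (fun k : ℕ => 2 * (1 / ((k : ℝ) + 1))) atTop (𝓝 (2 * 0)) :=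
        tendsto_one_div_add_atTop_nhds_zero_nat.const_mul 2
      rw [mul_zero] at h2
      filter_upwards [h2.eventually (Iio_mem_nhds h1)] with k hk
      exact le_of_lt hk
    · intro k
      exact (hu.superlevel_closed _).measurableSet
  apply hcov.integrable_of_integral_bounded_of_nonneg_ae (4 / 3 * (|lam| * ∫ x, u x ^ 2))
  · intro k
    have h1 : (0 : ℝ) < 2 * (1 / ((k : ℝ) + 1)) := by positivity
    have h2 : IntegrableOn (fun x => pd i u x ^ 2) {x | 2 * (1 / ((k : ℝ) + 1)) ≤ u x} :=
      (((pd_contOn ho hu.smooth1 i).pow 2).mono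
        (hu.superlevel_sub h1)).integrableOn_compact (hu.superlevel_compact hb h1)
    exact h2.mono_measure Measure.restrict_le_self
  · exact Eventually.of_forall fun x => sq_nonneg _
  · filter_upwards with k
    have hη : (0 : ℝ) < 1 / ((k : ℝ) + 1) := by positivity
    have h1 : (0 : ℝ) < 2 * (1 / ((k : ℝ) + 1)) := by positivity
    set η : ℝ := 1 / ((k : ℝ) + 1) with hηd
    have hsub := hu.superlevel_sub h1
    have e1 : ∫ x in {x | 2 * η ≤ u x}, pd i u x ^ 2 ∂(volume.restrict Ω)
        = ∫ x in {x | 2 * η ≤ u x}, pd i u x ^ 2 := by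
      rw [Measure.restrict_restrict (hu.superlevel_closed _).measurableSet,
        inter_eq_left.2 hsub]
    have h2 : IntegrableOn (fun x => pd i u x ^ 2) {x | 2 * η ≤ u x} :=
      (((pd_contOn ho hu.smooth1 i).pow 2).mono
        (hu.superlevel_sub h1)).integrableOn_compact (hu.superlevel_compact hb h1)
    have h3 := (trunc_grad_int ho hb hu hη i)
    rw [e1]
    calc ∫ x in {x | 2 * η ≤ u x}, pd i u x ^ 2
        ≤ ∫ x in {x | 2 * η ≤ u x}, 4 / 3 * (FF' η (u x) * pd i u x ^ 2) := by
          apply setIntegral_mono_on h2 (h3.const_mul _).integrableOn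
            (hu.superlevel_closed _).measurableSet
          intro x hx
          have h4 := FF'_ge hη hx
          nlinarith [sq_nonneg (pd i u x)]
      _ ≤ ∫ x in Ω, 4 / 3 * (FF' η (u x) * pd i u x ^ 2) := by
          apply setIntegral_mono_set (h3.const_mul _).integrableOn
          · exact Eventually.of_forall fun x =>
              mul_nonneg (by norm_num) (mul_nonneg (FF'_nonneg hη _) (sq_nonneg _))
          · exact LE.le.eventuallyLE hsub
      _ = 4 / 3 * ∫ x in Ω, FF' η (u x) * pd i u x ^ 2 := integral_const_mul _ _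
      _ ≤ 4 / 3 * (|lam| * ∫ x, u x ^ 2) := by
          apply mul_le_mul_of_nonneg_left _ (by norm_num)
          refine le_trans ?_ (FF_mul_le hb hu hη)
          rw [← energy_trunc ho hb hu hη]
          exact Finset.single_le_sum (f := fun i : Fin n => ∫ x in Ω, FF' η (u x) * pd i u x ^ 2)
            (fun j _ => integral_nonneg fun x =>
            mul_nonneg (FF'_nonneg hη _) (sq_nonneg _)) (Finset.mem_univ i)

lemma tendsto_uFF (hb : Bornology.IsBounded Ω) (hu : Ground Ω u lam) (A : Set (E n)) :
    Tendsto (fun η => ∫ x in A, u x * FF η (u x)) (𝓝[>] 0) (𝓝 (∫ x in A, u x ^ 2)) := by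
  apply tendsto_integral_filter_of_dominated_convergence (fun x => u x ^ 2)
  · filter_upwards [self_mem_nhdsWithin] with η hη
    exact (FF_mul_int hb hu hη).integrableOn.aestronglyMeasurable
  · filter_upwards [self_mem_nhdsWithin] with η hη
    filter_upwards with x
    rw [Real.norm_eq_abs, abs_of_nonneg (mul_nonneg (hu.nonneg x) (FF_nonneg hη _))]
    have := FF_le hη (hu.nonneg x)
    nlinarith [hu.nonneg x]
  · exact (hu.sq_integrable hb).integrableOn
  · filter_upwards with x
    have := (FF_tendsto (hu.nonneg x)).const_mul (u x)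
    rw [← sq] at this
    exact this

lemma energy_eq (ho : IsOpen Ω) (hb : Bornology.IsBounded Ω) (hu : Ground Ω u lam) :
    ∑ i : Fin n, ∫ x in Ω, pd i u x ^ 2 = lam * ∫ x in Ω, u x ^ 2 := by
  have h1 : ∀ i : Fin n, Tendsto (fun η => ∫ x in Ω, FF' η (u x) * pd i u x ^ 2) (𝓝[>] 0)
      (𝓝 (∫ x in Ω, pd i u x ^ 2)) := by
    intro i
    apply tendsto_integral_filter_of_dominated_convergence (fun x => pd i u x ^ 2)
    · filter_upwards [self_mem_nhdsWithin] with η hη
      exact (trunc_grad_int ho hb hu hη i).integrableOn.aestronglyMeasurable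
    · filter_upwards [self_mem_nhdsWithin] with η hη
      filter_upwards with x
      rw [Real.norm_eq_abs, abs_of_nonneg (mul_nonneg (FF'_nonneg hη _) (sq_nonneg _))]
      have := FF'_le_one (η := η) (u x)
      nlinarith [sq_nonneg (pd i u x)]
    · exact grad_int ho hb hu i
    · rw [ae_restrict_iff' ho.measurableSet]
      filter_upwards with x hx
      have := (FF'_tendsto (hu.pos x hx)).mul_const (pd i u x ^ 2)
      rw [one_mul] at this
      exact this
  have h2 : Tendsto (fun η => ∑ i : Fin n, ∫ x in Ω, FF' η (u x) * pd i u x ^ 2) (𝓝[>] 0)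
      (𝓝 (∑ i : Fin n, ∫ x in Ω, pd i u x ^ 2)) :=
    tendsto_finsetSum _ fun i _ => h1 i
  have h3 : Tendsto (fun η => ∑ i : Fin n, ∫ x in Ω, FF' η (u x) * pd i u x ^ 2) (𝓝[>] 0)
      (𝓝 (lam * ∫ x in Ω, u x ^ 2)) := by
    refine ((tendsto_uFF hb hu Ω).const_mul lam).congr' ?_
    filter_upwards [self_mem_nhdsWithin] with η hη
    exact (energy_trunc ho hb hu hη).symm
  exact tendsto_nhds_unique h2 h3

lemma sig_int (ho : IsOpen Ω) (hb : Bornology.IsBounded Ω) (hu : Ground Ω u lam) (i : Fin n)
    {m s₀ : ℝ} (hm : 0 < m) (hs0 : 0 ≤ s₀) (h : ∀ x ∈ Ω, m < u x → s₀ ≤ sig i u x) :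
    s₀ * ∫ x in {x | m < u x}, u x ^ 2 ≤ 2 * ∫ x in Ω, pd i u x ^ 2 := by
  have hmeas : MeasurableSet {x | m < u x} := (isOpen_lt continuous_const hu.cont).measurableSet
  have hsub : {x | m < u x} ⊆ Ω := by
    intro x hx
    have h1 : m < u x := hx
    exact hu.superlevel_sub hm h1.le
  have key : ∀ η : ℝ, 0 < η →
      s₀ * ∫ x in {x | m < u x}, u x * FF η (u x) ≤ 2 * ∫ x in Ω, pd i u x ^ 2 := by
    intro η hη
    have ht := trunc_test ho hb hu hη
    -- the four functions
    have hg : ContinuousOn (sig i u) Ω := by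
      unfold sig
      refine ((((pd_contOn ho hu.smooth1 i).pow 2).sub
        (hu.cont.continuousOn.mul (pd_contOn ho (pd_contDiffOn ho hu.smooth i) i))).div
        (hu.cont.continuousOn.pow 2) ?_)
      intro x hx
      exact pow_ne_zero 2 (hu.pos x hx).ne'
    have i1 : Integrable (fun x => FF η (u x) * (u x * sig i u x)) :=
      int_mul_of ho ht.smooth.continuous ht.cpt ht.sub (hu.cont.continuousOn.mul hg)
    have i2 : Integrable (fun x => FF η (u x) * ((u x)⁻¹ * pd i u x ^ 2)) :=
      int_mul_of ho ht.smooth.continuous ht.cpt ht.sub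
        ((inv_contDiffOn hu).continuousOn.mul ((pd_contOn ho hu.smooth1 i).pow 2))
    have i3 : Integrable (fun x => FF η (u x) * pd i (pd i u) x) :=
      int_mul_of ho ht.smooth.continuous ht.cpt ht.sub
        (pd_contOn ho (pd_contDiffOn ho hu.smooth i) i)
    have hz : ∀ x, x ∉ Ω → FF η (u x) = 0 := fun x hx => ht.zero hx
    have e1 : ∀ x, FF η (u x) * (u x * sig i u x)
        = FF η (u x) * ((u x)⁻¹ * pd i u x ^ 2) - FF η (u x) * pd i (pd i u) x := by
      intro x
      by_cases hx : x ∈ Ω
      · have h3 : u x ≠ 0 := (hu.pos x hx).ne'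
        unfold sig
        field_simp
      · rw [hz x hx]; ring
    have e2 : ∫ x, FF η (u x) * (u x * sig i u x)
        = (∫ x, FF η (u x) * ((u x)⁻¹ * pd i u x ^ 2)) + ∫ x, FF' η (u x) * pd i u x ^ 2 := by
      simp only [e1]
      rw [integral_sub i2 i3, ibp ho ht (pd_contDiffOn ho hu.smooth i) i, sub_neg_eq_add]
      congr 1
      congr 1
      funext x
      rw [trunc_pd ho hu hη]
      ring
    have e3 : ∫ x, FF η (u x) * ((u x)⁻¹ * pd i u x ^ 2) ≤ ∫ x in Ω, pd i u x ^ 2 := by
      rw [← int_Om (Ω := Ω) (fun x hx => by rw [hz x hx, zero_mul])]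
      apply setIntegral_mono_on i2.integrableOn (grad_int ho hb hu i) ho.measurableSet
      intro x hx
      have h3 := hu.pos x hx
      have h4 : FF η (u x) * (u x)⁻¹ ≤ 1 := by
        rw [← div_eq_mul_inv, div_le_one h3]
        exact FF_le hη h3.le
      calc FF η (u x) * ((u x)⁻¹ * pd i u x ^ 2) = (FF η (u x) * (u x)⁻¹) * pd i u x ^ 2 := by ring
        _ ≤ 1 * pd i u x ^ 2 := mul_le_mul_of_nonneg_right h4 (sq_nonneg _)
        _ = _ := one_mul _
    have e4 : ∫ x, FF' η (u x) * pd i u x ^ 2 ≤ ∫ x in Ω, pd i u x ^ 2 := by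
      rw [← int_Om (Ω := Ω) (fun x hx => by rw [hu.zero x hx, FF'_of_le hη.le, zero_mul])]
      apply setIntegral_mono_on (trunc_grad_int ho hb hu hη i).integrableOn (grad_int ho hb hu i)
        ho.measurableSet
      intro x _
      have := FF'_le_one (η := η) (u x)
      nlinarith [sq_nonneg (pd i u x)]
    have e5 : s₀ * ∫ x in {x | m < u x}, u x * FF η (u x)
        ≤ ∫ x, FF η (u x) * (u x * sig i u x) := by
      calc s₀ * ∫ x in {x | m < u x}, u x * FF η (u x)
          = ∫ x in {x | m < u x}, s₀ * (u x * FF η (u x)) := (integral_const_mul _ _).symm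
        _ ≤ ∫ x in {x | m < u x}, FF η (u x) * (u x * sig i u x) := by
            apply setIntegral_mono_on ((FF_mul_int hb hu hη).const_mul _).integrableOn
              i1.integrableOn hmeas
            intro x hx
            have h4 := h x (hsub hx) hx
            have h5 : 0 ≤ u x * FF η (u x) := mul_nonneg (hu.nonneg x) (FF_nonneg hη _)
            nlinarith
        _ ≤ ∫ x, FF η (u x) * (u x * sig i u x) := by
            apply setIntegral_le_integral i1
            filter_upwards with x
            by_cases hx : x ∈ Ω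
            · exact mul_nonneg (FF_nonneg hη _) (mul_nonneg (hu.nonneg x) (sig_nonneg ho hu i hx))
            · show 0 ≤ FF η (u x) * (u x * sig i u x)
              rw [hz x hx, zero_mul]
    linarith
  have h1 := (tendsto_uFF hb hu {x | m < u x}).const_mul s₀
  refine le_of_tendsto h1 ?_
  filter_upwards [self_mem_nhdsWithin] with η hη
  exact key η hη

theorem targetCalc : TargetCalc := by
  intro n Ω u lam ho hb hu
  exact
    { trunc := fun η hη => trunc_test ho hb hu hη
      trunc_pd := fun η hη i x => trunc_pd ho hu hη i x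
      sq_int := (hu.sq_integrable hb).integrableOn
      grad_int := grad_int ho hb hu
      energy := energy_eq ho hb hu
      weak := fun f hf => weak_form ho hu hf
      picone := fun f hf => picone ho hu hf
      sig_nonneg := fun i x hx => sig_nonneg ho hu i hx
      hess := fun i x hx => hess_log ho hu i hx
      sig_int := fun i m s₀ hm hs h => sig_int ho hb hu i hm hs h }

end Pool.Agent.GS8
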