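import Pool.Agent.GS8.Gauss

/-! Gaussian convolutions of bounded nonnegative integrable functions. -/

set_option autoImplicit false

open MeasureTheory Set Filter Topology Function
open scoped Real ContDiff

namespace Pool.Agent.GS8

variable {n : ℕ}

/-- Bounded nonnegative integrable measurable functions. -/
structure Nice (f : E n → ℝ) : Prop where
  meas : Measurable f
  nonneg : ∀ x, 0 ≤ f x
  bdd : ∃ D, ∀ x, f x ≤ D
  int : Integrable f

namespace Nice

variable {f g : E n → ℝ} {t s : ℝ}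

lemma mul_int (hf : Nice f) (hg : Nice g) : Integrable fun x => f x * g x := by
  obtain ⟨D, hD⟩ := hf.bdd
  refine hg.int.bdd_mul hf.meas.aestronglyMeasurable (c := D) (Eventually.of_forall fun x => ?_)
  rw [Real.norm_eq_abs, abs_of_nonneg (hf.nonneg x)]
  exact hD x

lemma sq_int (hf : Nice f) : Integrable fun x => f x ^ 2 := by
  simpa only [sq] using hf.mul_int hf

lemma fiber (ht : 0 < t) (hf : Nice f) (x : E n) : Integrable fun y => Gk t (x - y) * f y := by
  refine hf.int.bdd_mul ((measurable_Gk t).comp (measurable_const.sub measurable_id)).aestronglyMeasurable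
    (c := (4 * π * t) ^ (-(n : ℝ) / 2)) (Eventually.of_forall fun y => ?_)
  rw [Real.norm_eq_abs, abs_of_nonneg (Gk_nonneg ht _)]
  exact Gk_le ht _

lemma kernel (ht : 0 < t) (hf : Nice f) :
    Integrable (fun p : E n × E n => Gk t (p.1 - p.2) * f p.2) (volume.prod volume) := by
  have := hf.int.convolution_integrand (ContinuousLinearMap.mul ℝ ℝ) (integrable_Gk (n := n) ht)
  simpa only [ContinuousLinearMap.mul_apply', mul_comm] using this

lemma kernel2 (ht : 0 < t) (hf : Nice f) (hg : Nice g) :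
    Integrable (fun p : E n × E n => f p.1 * (Gk t (p.1 - p.2) * g p.2)) (volume.prod volume) := by
  obtain ⟨D, hD⟩ := hf.bdd
  refine (hg.kernel ht).bdd_mul (hf.meas.comp measurable_fst).aestronglyMeasurable
    (c := D) (Eventually.of_forall fun p => ?_)
  rw [Real.norm_eq_abs, abs_of_nonneg (hf.nonneg _)]
  exact hD _

lemma gconv_nonneg (ht : 0 < t) (hf : Nice f) (x : E n) : 0 ≤ gconv t f x :=
  integral_nonneg fun y => mul_nonneg (Gk_nonneg ht _) (hf.nonneg y)

lemma gconv_le (ht : 0 < t) (hf : Nice f) {D : ℝ} (hD : ∀ x, f x ≤ D) (x : E n) :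
    gconv t f x ≤ D := by
  have h1 : ∫ y, Gk t (x - y) * D = D := by
    rw [integral_mul_const, integral_sub_left_eq_self (fun y => Gk t y) volume x, integral_Gk ht,
      one_mul]
  rw [← h1]
  refine integral_mono (hf.fiber ht x) (((integrable_Gk ht).comp_sub_left x).mul_const D) fun y => ?_
  exact mul_le_mul_of_nonneg_left (hD y) (Gk_nonneg ht _)

lemma gconv_mono (ht : 0 < t) (hf : Nice f) (hg : Nice g) (h : ∀ x, f x ≤ g x) (x : E n) :
    gconv t f x ≤ gconv t g x :=
  integral_mono (hf.fiber ht x) (hg.fiber ht x) fun y =>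
    mul_le_mul_of_nonneg_left (h y) (Gk_nonneg ht _)

lemma gconv (ht : 0 < t) (hf : Nice f) : Nice (GS8.gconv t f) where
  meas := by
    have h1 : StronglyMeasurable (fun p : E n × E n => Gk t (p.1 - p.2) * f p.2) :=
      (((measurable_Gk t).comp (measurable_fst.sub measurable_snd)).mul
        (hf.meas.comp measurable_snd)).stronglyMeasurable
    exact h1.integral_prod_right.measurable
  nonneg := hf.gconv_nonneg ht
  bdd := by
    obtain ⟨D, hD⟩ := hf.bdd
    exact ⟨D, hf.gconv_le ht hD⟩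
  int := (hf.kernel ht).integral_prod_left

lemma adj (ht : 0 < t) (hf : Nice f) (hg : Nice g) :
    ∫ x, f x * GS8.gconv t g x = ∫ x, GS8.gconv t f x * g x := by
  have h1 : ∀ x, f x * GS8.gconv t g x = ∫ y, f x * (Gk t (x - y) * g y) := fun x => by
    rw [integral_const_mul]; rfl
  have h2 : ∀ y, GS8.gconv t f y * g y = ∫ x, f x * (Gk t (x - y) * g y) := fun y => by
    unfold GS8.gconv
    rw [← integral_mul_const]
    congr 1
    funext x
    rw [Gk_sub_comm]
    ring
  simp_rw [h1, h2]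
  exact integral_integral_swap (f := fun x y => f x * (Gk t (x - y) * g y)) (hf.kernel2 ht hg)

lemma gconv_gconv (ht : 0 < t) (hs : 0 < s) (hf : Nice f) (x : E n) :
    GS8.gconv t (GS8.gconv s f) x = GS8.gconv (t + s) f x := by
  have h1 : ∀ y, Gk t (x - y) * GS8.gconv s f y = ∫ z, Gk t (x - y) * (Gk s (y - z) * f z) :=
    fun y => by rw [integral_const_mul]; rfl
  have h2 : ∀ z, Gk (t + s) (x - z) * f z = ∫ y, Gk t (x - y) * (Gk s (y - z) * f z) := by
    intro z
    rw [← integral_Gk_mul ht hs, ← integral_mul_const]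
    congr 1
    funext y
    ring
  change ∫ y, Gk t (x - y) * GS8.gconv s f y = ∫ z, Gk (t + s) (x - z) * f z
  simp_rw [h1, h2]
  refine integral_integral_swap (f := fun y z => Gk t (x - y) * (Gk s (y - z) * f z)) ?_
  refine (hf.kernel hs).bdd_mul
    ((measurable_Gk t).comp (measurable_const.sub measurable_fst)).aestronglyMeasurable
    (c := (4 * π * t) ^ (-(n : ℝ) / 2)) (Eventually.of_forall fun p => ?_)
  rw [Real.norm_eq_abs, abs_of_nonneg (Gk_nonneg ht _)]
  exact Gk_le ht _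

lemma form_add (ht : 0 < t) (hs : 0 < s) (hf : Nice f) (hg : Nice g) :
    ∫ x, GS8.gconv t f x * GS8.gconv s g x = ∫ x, f x * GS8.gconv (t + s) g x := by
  rw [← adj ht hf (hg.gconv hs)]
  simp_rw [gconv_gconv ht hs hg]

/-- Cauchy-Schwarz. -/
lemma cs (hf : Nice f) (hg : Nice g) :
    (∫ x, f x * g x) ^ 2 ≤ (∫ x, f x ^ 2) * ∫ x, g x ^ 2 := by
  have h1 : ∀ c : ℝ, 0 ≤ (∫ x, f x ^ 2) * (c * c) + (2 * ∫ x, f x * g x) * c + ∫ x, g x ^ 2 := by
    intro c
    have h2 : 0 ≤ ∫ x, (c * f x + g x) ^ 2 := integral_nonneg fun x => sq_nonneg _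
    have h3 : ∫ x, (c * f x + g x) ^ 2 =
        (∫ x, f x ^ 2) * (c * c) + (2 * ∫ x, f x * g x) * c + ∫ x, g x ^ 2 := by
      have h4 : ∀ x, (c * f x + g x) ^ 2 = (c * c) * f x ^ 2 + (2 * c) * (f x * g x) + g x ^ 2 :=
        fun x => by ring
      have e1 : Integrable fun x => (c * c) * f x ^ 2 := hf.sq_int.const_mul _
      have e2 : Integrable fun x => (2 * c) * (f x * g x) := (hf.mul_int hg).const_mul _
      have e3 : Integrable fun x => (c * c) * f x ^ 2 + (2 * c) * (f x * g x) := e1.add e2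
      simp_rw [h4]
      rw [integral_add e3 hg.sq_int, integral_add e1 e2, integral_const_mul, integral_const_mul]
      ring
    rwa [h3] at h2
  have h5 := discrim_le_zero h1
  unfold discrim at h5
  nlinarith

end Nice

/-- Products `h (x - y) φ y`. -/
lemma conv_prod {h φ : E n → ℝ} (hh : Integrable h) (hφ : Integrable φ) :
    Integrable (fun p : E n × E n => h (p.1 - p.2) * φ p.2) (volume.prod volume) ∧
      ∫ p : E n × E n, h (p.1 - p.2) * φ p.2 ∂(volume.prod volume) = (∫ x, h x) * ∫ x, φ x := by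
  have h1 : Integrable (fun p : E n × E n => h (p.1 - p.2) * φ p.2) (volume.prod volume) := by
    have := hφ.convolution_integrand (ContinuousLinearMap.mul ℝ ℝ) hh
    simpa only [ContinuousLinearMap.mul_apply', mul_comm] using this
  refine ⟨h1, ?_⟩
  rw [integral_prod_symm _ h1]
  simp only
  simp_rw [integral_mul_const]
  have h2 : ∀ y : E n, ∫ x, h (x - y) = ∫ x, h x := fun y => integral_sub_right_eq_self h y
  simp_rw [h2]
  rw [integral_const_mul]

/-- Products `h (x - y) φ x`, `h` even. -/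
lemma conv_prod' {h φ : E n → ℝ} (hh : Integrable h) (hφ : Integrable φ)
    (he : ∀ x, h (-x) = h x) :
    Integrable (fun p : E n × E n => h (p.1 - p.2) * φ p.1) (volume.prod volume) ∧
      ∫ p : E n × E n, h (p.1 - p.2) * φ p.1 ∂(volume.prod volume) = (∫ x, h x) * ∫ x, φ x := by
  obtain ⟨h1, h2⟩ := conv_prod hh hφ
  have h3 : (fun p : E n × E n => h (p.1 - p.2) * φ p.1) =
      (fun p : E n × E n => h (p.1 - p.2) * φ p.2) ∘ Prod.swap := by
    funext p
    simp only [comp_apply, Prod.fst_swap, Prod.snd_swap]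
    rw [← he (p.1 - p.2), neg_sub]
  rw [h3]
  refine ⟨h1.swap, ?_⟩
  rw [← h2]
  exact integral_prod_swap (fun p : E n × E n => h (p.1 - p.2) * φ p.2)

namespace Nice

variable {f g : E n → ℝ} {t s : ℝ}

lemma form_prod (ht : 0 < t) (hf : Nice f) (hg : Nice g) :
    ∫ x, f x * GS8.gconv t g x =
      ∫ p : E n × E n, f p.1 * (Gk t (p.1 - p.2) * g p.2) ∂(volume.prod volume) := by
  rw [integral_prod _ (hf.kernel2 ht hg)]
  congr 1
  funext x
  simp only
  rw [integral_const_mul]
  rfl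

/-- The Gaussian form is bounded by the square norm. -/
lemma form_le (ht : 0 < t) (hf : Nice f) : ∫ x, f x * GS8.gconv t f x ≤ ∫ x, f x ^ 2 := by
  obtain ⟨i1, e1⟩ := conv_prod (integrable_Gk (n := n) ht) hf.sq_int
  obtain ⟨i2, e2⟩ := conv_prod' (integrable_Gk (n := n) ht) hf.sq_int (Gk_neg t)
  rw [integral_Gk ht, one_mul] at e1 e2
  rw [form_prod ht hf hf]
  have h1 : ∫ p : E n × E n, f p.1 * (Gk t (p.1 - p.2) * f p.2) ∂(volume.prod volume) ≤
      ∫ p : E n × E n, (1 / 2) * (Gk t (p.1 - p.2) * f p.1 ^ 2) +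
        (1 / 2) * (Gk t (p.1 - p.2) * f p.2 ^ 2) ∂(volume.prod volume) := by
    refine integral_mono (hf.kernel2 ht hf) ((i2.const_mul _).add (i1.const_mul _)) fun p => ?_
    have h2 := Gk_nonneg ht (p.1 - p.2)
    have h3 := mul_nonneg h2 (sq_nonneg (f p.1 - f p.2))
    simp only
    nlinarith
  refine h1.trans (le_of_eq ?_)
  rw [integral_add (i2.const_mul _) (i1.const_mul _), integral_const_mul, integral_const_mul, e1, e2]
  ring

/-- Gaussian convolution is an `L²` contraction. -/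
lemma sq_gconv_le (ht : 0 < t) (hf : Nice f) : ∫ x, GS8.gconv t f x ^ 2 ≤ ∫ x, f x ^ 2 := by
  have h1 := form_add ht ht hf hf
  simp_rw [← sq] at h1
  rw [h1]
  exact form_le (by positivity) hf

/-- Lower bound of the Gaussian form of a Lipschitz function vanishing outside a set of finite
measure. -/
lemma form_ge (ht : 0 < t) (hf : Nice f) {Ω : Set (E n)} (hΩ : MeasurableSet Ω)
    (hfin : volume Ω ≠ ⊤) (h0 : ∀ x, x ∉ Ω → f x = 0) (hL : ∀ x y, |f x - f y| ≤ ‖x - y‖) :
    (∫ x, f x ^ 2) - 8 * 2 ^ ((n : ℝ) / 2) * t * (volume Ω).toReal ≤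
      ∫ x, f x * GS8.gconv t f x := by
  obtain ⟨i1, e1⟩ := conv_prod (integrable_Gk (n := n) ht) hf.sq_int
  obtain ⟨i2, e2⟩ := conv_prod' (integrable_Gk (n := n) ht) hf.sq_int (Gk_neg t)
  rw [integral_Gk ht, one_mul] at e1 e2
  obtain ⟨im, em⟩ := integral_Gk_norm_sq (n := n) ht
  have iΩ : Integrable (Ω.indicator (fun _ : E n => (1 : ℝ))) :=
    (integrable_indicator_iff hΩ).mpr (integrableOn_const hfin)
  have eΩ : ∫ x, Ω.indicator (fun _ : E n => (1 : ℝ)) x = (volume Ω).toReal := by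
    rw [integral_indicator hΩ]
    simp [Measure.real]
  obtain ⟨i3, e3⟩ := conv_prod im iΩ
  obtain ⟨i4, e4⟩ := conv_prod' im iΩ (fun x => by rw [Gk_neg, norm_neg])
  rw [eΩ] at e3 e4
  have h1 : ∫ p : E n × E n, ((1 / 2) * (Gk t (p.1 - p.2) * f p.1 ^ 2) +
        (1 / 2) * (Gk t (p.1 - p.2) * f p.2 ^ 2)) -
        ((1 / 2) * (Gk t (p.1 - p.2) * ‖p.1 - p.2‖ ^ 2 * Ω.indicator (fun _ : E n => (1 : ℝ)) p.1) +
        (1 / 2) * (Gk t (p.1 - p.2) * ‖p.1 - p.2‖ ^ 2 * Ω.indicator (fun _ : E n => (1 : ℝ)) p.2))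
        ∂(volume.prod volume) ≤
      ∫ p : E n × E n, f p.1 * (Gk t (p.1 - p.2) * f p.2) ∂(volume.prod volume) := by
    refine integral_mono (((i2.const_mul _).add (i1.const_mul _)).sub
      ((i4.const_mul _).add (i3.const_mul _))) (hf.kernel2 ht hf) fun p => ?_
    have h2 := Gk_nonneg ht (p.1 - p.2)
    have h3 : (f p.1 - f p.2) ^ 2 ≤ ‖p.1 - p.2‖ ^ 2 *
        (Ω.indicator (fun _ : E n => (1 : ℝ)) p.1 + Ω.indicator (fun _ : E n => (1 : ℝ)) p.2) := by
      have h4 : (f p.1 - f p.2) ^ 2 ≤ ‖p.1 - p.2‖ ^ 2 := by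
        rw [← sq_abs (f p.1 - f p.2)]
        exact pow_le_pow_left₀ (abs_nonneg _) (hL _ _) 2
      by_cases hp1 : p.1 ∈ Ω
      · rw [indicator_of_mem hp1]
        have h5 : 0 ≤ Ω.indicator (fun _ : E n => (1 : ℝ)) p.2 :=
          indicator_nonneg (fun _ _ => zero_le_one) _
        nlinarith [sq_nonneg ‖p.1 - p.2‖, mul_nonneg (sq_nonneg ‖p.1 - p.2‖) h5]
      · by_cases hp2 : p.2 ∈ Ω
        · rw [indicator_of_mem hp2, indicator_of_notMem hp1]
          nlinarith
        · rw [indicator_of_notMem hp1, indicator_of_notMem hp2, h0 _ hp1, h0 _ hp2]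
          simp
    have h6 := mul_le_mul_of_nonneg_left h3 h2
    simp only
    nlinarith
  rw [form_prod ht hf hf]
  refine le_trans ?_ h1
  have j1 : Integrable (fun p : E n × E n => (1 / 2 : ℝ) * (Gk t (p.1 - p.2) * f p.1 ^ 2) +
      (1 / 2) * (Gk t (p.1 - p.2) * f p.2 ^ 2)) (volume.prod volume) :=
    (i2.const_mul _).add (i1.const_mul _)
  have j2 : Integrable (fun p : E n × E n => (1 / 2 : ℝ) * (Gk t (p.1 - p.2) * ‖p.1 - p.2‖ ^ 2 *
      Ω.indicator (fun _ : E n => (1 : ℝ)) p.1) +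
      (1 / 2) * (Gk t (p.1 - p.2) * ‖p.1 - p.2‖ ^ 2 * Ω.indicator (fun _ : E n => (1 : ℝ)) p.2))
      (volume.prod volume) := (i4.const_mul _).add (i3.const_mul _)
  rw [integral_sub j1 j2, integral_add (i2.const_mul _) (i1.const_mul _),
    integral_add (i4.const_mul _) (i3.const_mul _), integral_const_mul, integral_const_mul,
    integral_const_mul, integral_const_mul, e1, e2, e3, e4]
  have h7 : (∫ y : E n, Gk t y * ‖y‖ ^ 2) * (volume Ω).toReal ≤
      8 * 2 ^ ((n : ℝ) / 2) * t * (volume Ω).toReal :=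
    mul_le_mul_of_nonneg_right em ENNReal.toReal_nonneg
  linarith

end Nice

end Pool.Agent.GS8
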