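import Mathlib

/-!
# MP_dd30b7_an (S06394): definitions and targets

`HessLogGround` project: the Hessian comparison for `log u` fails on a thin anisotropic convex
domain of `ℝ⁸`.  See `BLUEPRINT.md`.
-/

set_option autoImplicit false

open MeasureTheory Set Filter Topology
open scoped Real ContDiff

namespace Pool.Agent.GS8

/-- `ℝⁿ` with the Euclidean norm. -/
abbrev E (n : ℕ) : Type := EuclideanSpace ℝ (Fin n)

/-- the `i`-th unit vector -/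
noncomputable abbrev ee {n : ℕ} (i : Fin n) : E n := EuclideanSpace.single i (1 : ℝ)

/-- the `i`-th partial derivative -/
noncomputable def pd {n : ℕ} (i : Fin n) (u : E n → ℝ) (x : E n) : ℝ := fderiv ℝ u x (ee i)

/-- the Laplacian, in the form used by the frozen statement -/
noncomputable def lap {n : ℕ} (u : E n → ℝ) (x : E n) : ℝ := ∑ i : Fin n, pd i (pd i u) x

/-- Classical log-concave symmetric Dirichlet ground state of `Ω` (extended by zero). -/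
structure Ground {n : ℕ} (Ω : Set (E n)) (u : E n → ℝ) (lam : ℝ) : Prop where
  cont : Continuous u
  smooth : ContDiffOn ℝ 2 u Ω
  zero : ∀ x, x ∉ Ω → u x = 0
  pos : ∀ x ∈ Ω, 0 < u x
  eq : ∀ x ∈ Ω, -(lap u x) = lam * u x
  conc : ConcaveOn ℝ Ω (fun x => Real.log (u x))
  symm : ∀ σ : E n ≃ₗᵢ[ℝ] E n, (∀ x, σ x ∈ Ω ↔ x ∈ Ω) → ∀ x, u (σ x) = u x

/-! ## Part I: existence -/

/-- Gaussian kernel (heat kernel at time `t`). -/
noncomputable def Gk {n : ℕ} (t : ℝ) (x : E n) : ℝ :=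
  (4 * π * t) ^ (-(n : ℝ) / 2) * Real.exp (-‖x‖ ^ 2 / (4 * t))

/-- Gaussian convolution. -/
noncomputable def gconv {n : ℕ} (t : ℝ) (f : E n → ℝ) (x : E n) : ℝ := ∫ y, Gk t (x - y) * f y

/-- Approximate eigenfunction of the killed Gaussian walk with step `t`. -/
structure Approx {n : ℕ} (Ω : Set (E n)) (C M t : ℝ) (b : E n → ℝ) (r : ℝ) : Prop where
  meas : Measurable b
  nonneg : ∀ x, 0 ≤ b x
  le : ∀ x, b x ≤ M
  zero : ∀ x, x ∉ Ω → b x = 0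
  logc : ∀ x y, b x * b y ≤ b ((1 / 2 : ℝ) • (x + y)) ^ 2
  symm : ∀ σ : E n ≃ₗᵢ[ℝ] E n, (∀ x, σ x ∈ Ω ↔ x ∈ Ω) → ∀ x, b (σ x) = b x
  norm : ∫ x, b x ^ 2 = 1
  r_ge : 1 - C * t ≤ r
  r_le : r ≤ 1
  eig : ∫ x in Ω, (gconv t b x - r * b x) ^ 2 ≤ t ^ 4
  energy : ∀ j : ℕ, 1 ≤ j → 1 - C * (j * t) ≤ ∫ x, b x * gconv (j * t) b x

/-- JOB 1. -/
def TargetApprox : Prop := ∀ (n : ℕ) (Ω : Set (E n)), 1 ≤ n → IsOpen Ω → Convex ℝ Ω →
  Bornology.IsBounded Ω → Ω.Nonempty →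
  ∃ (C M : ℝ) (k₀ : ℕ), 0 ≤ C ∧ 0 < M ∧ ∀ k : ℕ, k₀ ≤ k →
    ∃ (b : E n → ℝ) (r : ℝ), Approx Ω C M ((1 / 2 : ℝ) ^ k) b r

/-- Weak (distributional) ground state. -/
structure Weak {n : ℕ} (Ω : Set (E n)) (u : E n → ℝ) (lam M : ℝ) : Prop where
  meas : Measurable u
  nonneg : ∀ x, 0 ≤ u x
  le : ∀ x, u x ≤ M
  zero : ∀ x, x ∉ Ω → u x = 0
  norm : ∫ x, u x ^ 2 = 1
  lam_nonneg : 0 ≤ lam
  weak : ∀ ζ : E n → ℝ, ContDiff ℝ ∞ ζ → HasCompactSupport ζ → tsupport ζ ⊆ Ω →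
    ∫ x, u x * lap ζ x = -lam * ∫ x, u x * ζ x
  sub : ∀ ζ : E n → ℝ, ContDiff ℝ ∞ ζ → HasCompactSupport ζ → (∀ x, 0 ≤ ζ x) →
    -(∫ x, u x * lap ζ x) ≤ lam * ∫ x, u x * ζ x
  full : ∃ F : Set (E n), volume Fᶜ = 0 ∧
    (∀ x ∈ F, ∀ y ∈ F, (1 / 2 : ℝ) • (x + y) ∈ F → u x * u y ≤ u ((1 / 2 : ℝ) • (x + y)) ^ 2) ∧
    (∀ σ : E n ≃ₗᵢ[ℝ] E n, (∀ x, σ x ∈ Ω ↔ x ∈ Ω) → ∀ x ∈ F, σ x ∈ F → u (σ x) = u x)

/-- JOB 2. -/
def TargetWeak : Prop := TargetApprox → ∀ (n : ℕ) (Ω : Set (E n)), 1 ≤ n → IsOpen Ω → Convex ℝ Ω →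
  Bornology.IsBounded Ω → Ω.Nonempty → ∃ (u : E n → ℝ) (lam M : ℝ), Weak Ω u lam M

/-- JOB 3. -/
def TargetReg : Prop := ∀ (n : ℕ) (Ω : Set (E n)) (u : E n → ℝ) (lam M : ℝ), 1 ≤ n → IsOpen Ω →
  Convex ℝ Ω → Bornology.IsBounded Ω → Weak Ω u lam M → ∃ v : E n → ℝ, Ground Ω v lam

/-- consequence of JOBS 1, 2, 3. -/
def TargetGround : Prop := ∀ (n : ℕ) (Ω : Set (E n)), 1 ≤ n → IsOpen Ω → Convex ℝ Ω →
  Bornology.IsBounded Ω → Ω.Nonempty → ∃ (u : E n → ℝ) (lam : ℝ), Ground Ω u lam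

theorem targetGround_of (h1 : TargetApprox) (h2 : TargetWeak) (h3 : TargetReg) : TargetGround := by
  intro n Ω hn ho hc hb hne
  obtain ⟨u, lam, M, hu⟩ := h2 h1 n Ω hn ho hc hb hne
  obtain ⟨v, hv⟩ := h3 n Ω u lam M hn ho hc hb hu
  exact ⟨v, lam, hv⟩

/-! ## Part II: general calculus for a ground state -/

/-- The truncation `F_η(s) = (s-η)₊²/s`. -/
noncomputable def FF (η s : ℝ) : ℝ := if s ≤ η then 0 else (s - η) ^ 2 / s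

/-- Its derivative. -/
noncomputable def FF' (η s : ℝ) : ℝ := if s ≤ η then 0 else 1 - η ^ 2 / s ^ 2

/-- test functions: `C¹` with compact support inside `Ω` -/
structure Test1 {n : ℕ} (Ω : Set (E n)) (f : E n → ℝ) : Prop where
  smooth : ContDiff ℝ 1 f
  cpt : HasCompactSupport f
  sub : tsupport f ⊆ Ω

/-- the `i`-th diagonal entry of the Hessian of `-log u` (for `C²` positive `u`) -/
noncomputable def sig {n : ℕ} (i : Fin n) (u : E n → ℝ) (x : E n) : ℝ :=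
  (pd i u x ^ 2 - u x * pd i (pd i u) x) / u x ^ 2

/-- JOB 4: general calculus of a ground state. -/
structure Calc {n : ℕ} (Ω : Set (E n)) (u : E n → ℝ) (lam : ℝ) : Prop where
  /-- truncations are test functions -/
  trunc : ∀ η : ℝ, 0 < η → Test1 Ω (fun x => FF η (u x))
  /-- chain rule -/
  trunc_pd : ∀ η : ℝ, 0 < η → ∀ (i : Fin n) (x : E n),
    pd i (fun y => FF η (u y)) x = FF' η (u x) * pd i u x
  sq_int : IntegrableOn (fun x => u x ^ 2) Ω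
  grad_int : ∀ i : Fin n, IntegrableOn (fun x => pd i u x ^ 2) Ω
  energy : ∑ i : Fin n, ∫ x in Ω, pd i u x ^ 2 = lam * ∫ x in Ω, u x ^ 2
  /-- weak form against test functions -/
  weak : ∀ f : E n → ℝ, Test1 Ω f →
    ∑ i : Fin n, ∫ x in Ω, pd i u x * pd i f x = lam * ∫ x in Ω, u x * f x
  /-- Picone / Jacobi inequality -/
  picone : ∀ f : E n → ℝ, Test1 Ω f →
    lam * ∫ x, f x ^ 2 ≤ ∑ i : Fin n, ∫ x, pd i f x ^ 2
  sig_nonneg : ∀ (i : Fin n), ∀ x ∈ Ω, 0 ≤ sig i u x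
  /-- the frozen Hessian entry equals `sig` -/
  hess : ∀ (i : Fin n), ∀ x ∈ Ω,
    -(fderiv ℝ (fderiv ℝ (fun y => Real.log (u y))) x (ee i) (ee i)) = sig i u x
  /-- integral bound for the Hessian on a superlevel set -/
  sig_int : ∀ (i : Fin n) (m s₀ : ℝ), 0 < m → 0 ≤ s₀ → (∀ x ∈ Ω, m < u x → s₀ ≤ sig i u x) →
    s₀ * ∫ x in {x | m < u x}, u x ^ 2 ≤ 2 * ∫ x in Ω, pd i u x ^ 2

def TargetCalc : Prop := ∀ (n : ℕ) (Ω : Set (E n)) (u : E n → ℝ) (lam : ℝ), IsOpen Ω →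
  Bornology.IsBounded Ω → Ground Ω u lam → Calc Ω u lam

/-- JOB 5a: a superlevel set of a log-concave function carries a fixed part of the mass. -/
def TargetMass : Prop := ∀ n : ℕ, ∃ c : ℝ, 0 < c ∧ ∀ (Ω : Set (E n)) (u : E n → ℝ) (lam : ℝ),
  IsOpen Ω → Bornology.IsBounded Ω → Convex ℝ Ω → Ground Ω u lam → (0 : E n) ∈ Ω →
  (∀ x, u x ≤ u 0) → c * ∫ x, u x ^ 2 ≤ ∫ x in {x | u 0 / 2 < u x}, u x ^ 2

/-- JOB 5b: if the Hessian of `-log u` is at most `B i` in direction `e i` on the superlevel set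
`u > u(0)/2`, then this set contains a cross polytope. -/
def TargetAxis : Prop := ∀ (n : ℕ) (Ω : Set (E n)) (u : E n → ℝ) (lam : ℝ) (B : Fin n → ℝ),
  IsOpen Ω → Convex ℝ Ω → Ground Ω u lam → (0 : E n) ∈ Ω → (∀ x, u x ≤ u 0) →
  (∀ i, 0 < B i) → (∀ i, ∀ x ∈ Ω, u 0 / 2 < u x → sig i u x ≤ B i) →
  ∀ p : E n, ∑ i : Fin n, |p i| * Real.sqrt (B i) ≤ 1 → u 0 / 2 < u p

/-! ## Part III: the domain -/

/-- the six indices of the `Y` variables -/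
def yI : Finset (Fin 8) := {1, 2, 3, 4, 5, 6}

noncomputable def r2 (p : E 8) : ℝ := ∑ i ∈ yI, p i ^ 2

noncomputable def AA (w x : ℝ) : ℝ := w ^ 2 + w ^ 6 * Real.sqrt (x ^ 2 + w ^ 2)

/-- smooth version of `max (|Y|², w² + w⁶|x|)` -/
noncomputable def V (w : ℝ) (p : E 8) : ℝ :=
  (AA w (p 0) + r2 p + Real.sqrt ((AA w (p 0) - r2 p) ^ 2 + w ^ 16)) / 2

noncomputable def hh (w k : ℝ) (p : E 8) : ℝ := 1 - V w p / (2 * k ^ 2)

noncomputable def kap (w k : ℝ) (p : E 8) : ℝ := k / hh w k p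

/-- the thin domain -/
def Om (w k : ℝ) : Set (E 8) := {p | |p 0| < (w ^ 4)⁻¹ ∧ |p 7| < π / (2 * k) * hh w k p}

/-- JOB 6: geometry of the domain -/
structure Geom (w k : ℝ) : Prop where
  isOpen : IsOpen (Om w k)
  convex : Convex ℝ (Om w k)
  bounded : Bornology.IsBounded (Om w k)
  zero_mem : (0 : E 8) ∈ Om w k
  /-- invariance under the reflections `p i ↦ -p i` -/
  reflect : ∀ (i : Fin 8), ∃ σ : E 8 ≃ₗᵢ[ℝ] E 8, (∀ p : E 8, ∀ j : Fin 8,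
    (σ p) j = if j = i then -(p j) else p j) ∧ ∀ p, σ p ∈ Om w k ↔ p ∈ Om w k
  hh_pos : ∀ p ∈ Om w k, 0 < hh w k p
  cos_pos : ∀ p ∈ Om w k, 0 < Real.cos (kap w k p * p 7)

def TargetGeom : Prop := ∀ w k : ℝ, 0 < w → w ≤ 1 / 4 → 1 ≤ k → Geom w k

/-- JOB 7: lower bounds for test functions. -/
structure Lower (w k : ℝ) : Prop where
  dz : ∀ f : E 8 → ℝ, Test1 (Om w k) f →
    ∫ x, pd 7 f x ^ 2 = (∫ x, kap w k x ^ 2 * f x ^ 2) +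
      ∫ x, Real.cos (kap w k x * x 7) ^ 2 *
        pd 7 (fun y => f y / Real.cos (kap w k y * y 7)) x ^ 2
  dy : ∀ f : E 8 → ℝ, Test1 (Om w k) f →
    6 * ∫ x, f x ^ 2 ≤ (∑ i ∈ yI, ∫ x, pd i f x ^ 2) + ∫ x, r2 x * f x ^ 2
  kap_ge : ∀ p ∈ Om w k, k ^ 2 + r2 p ≤ kap w k p ^ 2

def TargetLower : Prop := ∀ w k : ℝ, 0 < w → w ≤ 1 / 4 → 1 ≤ k → Lower w k

/-- JOB 8: upper bound for the eigenvalue by a trial function. -/
def TargetUpper : Prop := ∃ C₁ : ℝ, 0 < C₁ ∧ ∀ w : ℝ, 0 < w → w ≤ 1 / 4 → ∃ k₀ : ℝ, 1 ≤ k₀ ∧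
  ∀ k : ℝ, k₀ ≤ k → ∀ lam : ℝ,
    (∀ f : E 8 → ℝ, Test1 (Om w k) f → lam * ∫ x, f x ^ 2 ≤ ∑ i : Fin 8, ∫ x, pd i f x ^ 2) →
    lam ≤ k ^ 2 + 6 + C₁ * w ^ 8

/-- JOB 9a: window function in the `z` angle variable and its primitive defect `Q`. -/
structure Win (β : ℝ) (B Q : ℝ → ℝ) (CQ b₀ : ℝ) : Prop where
  smooth : ContDiff ℝ 2 B
  nonneg : ∀ θ, 0 ≤ B θ
  supp : ∀ θ, β ≤ |θ| → B θ = 0
  b₀_pos : 0 < b₀
  lower : ∀ θ, |θ| ≤ β / 2 → b₀ ≤ B θ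
  Qsmooth : ContDiff ℝ 1 Q
  Qderiv : ∀ θ, deriv Q θ = Real.cos θ ^ 2 - B θ * Real.cos θ
  CQ_pos : 0 < CQ
  Qbound : ∀ θ, |θ| < π / 2 → |Q θ| ≤ CQ * Real.cos θ

def TargetWin : Prop := ∀ β : ℝ, 0 < β → β < π / 2 → ∃ (B Q : ℝ → ℝ) (CQ b₀ : ℝ), Win β B Q CQ b₀

/-- smooth functions of `X = (p 0, …, p 6)` supported in the unit box -/
structure XTest (η : E 8 → ℝ) : Prop where
  smooth : ContDiff ℝ ∞ η
  indep : ∀ p q : E 8, (∀ i : Fin 8, i ≠ 7 → p i = q i) → η p = η q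
  supp : ∀ p : E 8, (∃ i : Fin 8, i ≠ 7 ∧ 1 ≤ |p i|) → η p = 0

/-- JOB 9b: the ground state, weighted by the window in `z`, is an approximate weak solution of the
Schroedinger equation `-Δ + V = lam - k²` in the `X` variables. -/
def TargetGreen : Prop := ∀ (w β : ℝ) (B Q : ℝ → ℝ) (CQ b₀ : ℝ) (η : E 8 → ℝ), 0 < w → w ≤ 1 / 4 →
  0 < β → β < π / 2 → Win β B Q CQ b₀ → XTest η →
  ∃ (Cη k₀ : ℝ), ∀ k : ℝ, k₀ ≤ k → Geom w k → Lower w k → ∀ (u : E 8 → ℝ) (lam : ℝ),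
    Ground (Om w k) u lam → Calc (Om w k) u lam → (∀ x, u x ≤ u 0) → lam ≤ k ^ 2 + 8 →
    |∫ x in Om w k, u x * B (kap w k x * x 7) *
        (lap η x - (V w x - (lam - k ^ 2)) * η x)| ≤ Cη * u 0 / k ^ 2

/-- the inner statement of the frozen `S06394` for `n = 8` and a constant `C` -/
def FrozenFor (C : ℝ) : Prop :=
    ∀ (Ω : Set (EuclideanSpace ℝ (Fin 8))) (u : EuclideanSpace ℝ (Fin 8) → ℝ) (lam : ℝ),
      IsOpen Ω → Convex ℝ Ω → Bornology.IsBounded Ω → Ω.Nonempty →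
      ContDiffOn ℝ 2 u Ω → ContinuousOn u (closure Ω) →
      (∀ x ∈ frontier Ω, u x = 0) → (∀ x ∈ Ω, 0 < u x) →
      (∀ x ∈ Ω, -(∑ i : Fin 8, fderiv ℝ (fun y => fderiv ℝ u y (EuclideanSpace.single i (1 : ℝ))) x
          (EuclideanSpace.single i (1 : ℝ))) = lam * u x) →
      (∫ x in Ω, u x ^ 2) = 1 →
      ∀ ps ∈ Ω, (∀ q ∈ Ω, u q ≤ u ps) →
      ∀ p ∈ Ω, u ps / 2 < u p →
      ∀ v : EuclideanSpace ℝ (Fin 8),
        C⁻¹ * (-(fderiv ℝ (fderiv ℝ (fun x => Real.log (u x))) p v v))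
            ≤ -(fderiv ℝ (fderiv ℝ (fun x => Real.log (u x))) ps v v) ∧
        -(fderiv ℝ (fderiv ℝ (fun x => Real.log (u x))) ps v v)
            ≤ C * (-(fderiv ℝ (fderiv ℝ (fun x => Real.log (u x))) p v v))

/-- JOB 10 (helper56). -/
def TargetFinal : Prop := TargetGround → TargetCalc → TargetMass → TargetAxis → TargetGeom →
  TargetLower → TargetUpper → TargetWin → TargetGreen → ∀ C : ℝ, 0 < C → ¬ FrozenFor C

end Pool.Agent.GS8
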