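import Pool.Agent.GS8.FinalZ

/-!
# JOB 10, part B: the key inequality
-/

set_option autoImplicit false

open MeasureTheory Set Filter Topology
open scoped Real ContDiff

namespace Pool.Agent.GS8

/-- Everything which is known about the ground state under the Hessian comparison hypothesis. -/
structure Setup (K β w k : ℝ) (u : E 8 → ℝ) (lam : ℝ) : Prop where
  w_pos : 0 < w
  w_le : w ≤ 1 / 4
  k_ge : 1 ≤ k
  β_pos : 0 < β
  β_le : β ≤ 1 / 2
  K_pos : 0 < K
  Kw : K * w ^ 8 ≤ 1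
  geom : Geom w k
  lower : Lower w k
  ground : Ground (Om w k) u lam
  hcalc : Calc (Om w k) u lam
  hmax : ∀ x, u x ≤ u 0
  lam_ge : k ^ 2 ≤ lam
  lam_le : lam ≤ k ^ 2 + 8
  sig0 : ∀ x ∈ Om w k, u 0 / 2 < u x → sig 0 u x ≤ K * w ^ 8
  window : ∀ p : E 8, (∀ i, i ≠ 7 → |p i| ≤ w) → |p 7| ≤ β / k → u 0 / 2 < u p

namespace Setup

variable {K β w k : ℝ} {u : E 8 → ℝ} {lam : ℝ}

lemma u0_pos (h : Setup K β w k u lam) : 0 < u 0 := h.ground.pos 0 h.geom.zero_mem

lemma mem_Om (h : Setup K β w k u lam) {p : E 8} (hp : u 0 / 2 < u p) : p ∈ Om w k := by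
  by_contra hn
  have := h.ground.zero p hn
  have := h.u0_pos
  linarith

lemma u_nonneg (h : Setup K β w k u lam) (p : E 8) : 0 ≤ u p := by
  by_cases hp : p ∈ Om w k
  · exact (h.ground.pos p hp).le
  · rw [h.ground.zero p hp]

/-- the window box -/
def W (β w k : ℝ) : Set (E 8) := box fun i => if i = 7 then β / k else w / 3

lemma mem_W {p : E 8} : p ∈ W β w k ↔ (∀ i, i ≠ 7 → |p i| ≤ w / 3) ∧ |p 7| ≤ β / k := by
  constructor
  · intro hp
    exact ⟨fun i hi => by simpa [hi] using hp i, by simpa using hp 7⟩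
  · rintro ⟨h1, h2⟩ i
    by_cases hi : i = 7
    · subst hi; simpa using h2
    · simpa [hi] using h1 i hi

lemma W_u (h : Setup K β w k u lam) {p : E 8} (hp : p ∈ W β w k) : u 0 / 2 < u p := by
  obtain ⟨h1, h2⟩ := mem_W.mp hp
  exact h.window p (fun i hi => (h1 i hi).trans (by linarith [h.w_pos])) h2

lemma W_sub (h : Setup K β w k u lam) : W β w k ⊆ Om w k := fun _ hp => h.mem_Om (h.W_u hp)

lemma isCompact_W : IsCompact (W β w k) := isCompact_box _

lemma hh_le_one (h : Setup K β w k u lam) (p : E 8) : hh w k p ≤ 1 := by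
  unfold hh
  rw [V_eqv]
  have := vv_nonneg h.w_pos (p 0) (r2_nn p)
  have : 0 ≤ vv w (p 0) (r2 p) / (2 * k ^ 2) := by positivity
  linarith

lemma r2_le_of (_h : Setup K β w k u lam) {p : E 8} (hp : ∀ i, i ≠ 7 → |p i| ≤ w / 3) :
    r2 p ≤ w ^ 2 := by
  have h1 : ∀ i : Fin 8, i ≠ 7 → p i ^ 2 ≤ (w / 3) ^ 2 := fun i hi => by
    rw [← sq_abs]; exact pow_le_pow_left₀ (abs_nonneg _) (hp i hi) 2
  have h2 : r2 p ≤ ∑ _i ∈ yI, (w / 3) ^ 2 := by
    unfold r2
    apply Finset.sum_le_sum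
    intro i hi
    apply h1
    rintro rfl
    revert hi; decide
  have h3 : (∑ _i ∈ yI, (w / 3) ^ 2) = 6 * (w / 3) ^ 2 := by
    rw [Finset.sum_const]
    have : yI.card = 6 := by decide
    rw [this]; simp
  rw [h3] at h2
  nlinarith [sq_nonneg w]

lemma V_le_one (h : Setup K β w k u lam) {p : E 8} (hp : ∀ i, i ≠ 7 → |p i| ≤ w / 3) :
    V w p ≤ 1 := by
  rw [V_eqv]
  apply vv_le h.w_pos h.w_le _ (r2_nn p) (h.r2_le_of hp)
  have := hp 0 (by decide)
  have := h.w_le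
  linarith

lemma V_nonneg (h : Setup K β w k u lam) (p : E 8) : 0 ≤ V w p := by
  rw [V_eqv]; exact vv_nonneg h.w_pos _ (r2_nn p)

lemma hh_ge (h : Setup K β w k u lam) {p : E 8} (hp : ∀ i, i ≠ 7 → |p i| ≤ w / 3) :
    1 / 2 ≤ hh w k p := by
  have h1 := h.V_le_one hp
  have hk := h.k_ge
  unfold hh
  have : V w p / (2 * k ^ 2) ≤ 1 / 2 := by
    rw [div_le_div_iff₀ (by positivity) (by norm_num)]
    nlinarith
  linarith

lemma Om_sub_DD (h : Setup K β w k u lam) : Om w k ⊆ DD w k := fun p hp => h.geom.hh_pos p hp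

lemma k_le_kap (h : Setup K β w k u lam) {p : E 8} (hp : p ∈ Om w k) : k ≤ kap w k p := by
  have h1 := h.geom.hh_pos p hp
  have h2 := h.hh_le_one p
  have hk := h.k_ge
  unfold kap
  rw [le_div_iff₀ h1]
  nlinarith

/-! ### derivative bounds on the window -/

/-- the point of the line through `p` with first coordinate `t` -/
noncomputable def ln (p : E 8) (t : ℝ) : E 8 := (p + (-(p 0)) • ee 0) + t • ee 0

lemma ln_zero (p : E 8) (t : ℝ) : ln p t 0 = t := by simp [ln]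

lemma ln_ne (p : E 8) (t : ℝ) {i : Fin 8} (hi : i ≠ 0) : ln p t i = p i := by simp [ln, hi]

lemma ln_self (p : E 8) : ln p (p 0) = p := by
  ext i
  by_cases hi : i = 0
  · subst hi; rw [ln_zero]
  · rw [ln_ne _ _ hi]

lemma ln_window (h : Setup K β w k u lam) {p : E 8} (hp : p ∈ W β w k) {t : ℝ} (ht : |t| ≤ w) :
    u 0 / 2 < u (ln p t) := by
  obtain ⟨h1, h2⟩ := mem_W.mp hp
  apply h.window
  · intro i hi
    by_cases hi0 : i = 0
    · subst hi0; rw [ln_zero]; exact ht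
    · rw [ln_ne _ _ hi0]; exact (h1 i hi).trans (by linarith [h.w_pos])
  · rw [ln_ne _ _ (by decide)]; exact h2

lemma even_u (h : Setup K β w k u lam) (p : E 8) (t : ℝ) : u (ln p (-t)) = u (ln p t) := by
  obtain ⟨σ, hσ, hΩ⟩ := h.geom.reflect 0
  have := h.ground.symm σ hΩ (ln p t)
  rw [← this]
  congr 1
  ext i
  rw [hσ]
  by_cases hi : i = 0
  · subst hi; simp [ln_zero]
  · simp [hi, ln_ne]

/-- `log`-derivative along the line -/
noncomputable def gl (u : E 8 → ℝ) (p : E 8) (t : ℝ) : ℝ := pd 0 u (ln p t) / u (ln p t)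

lemma hasDerivAt_u_ln (h : Setup K β w k u lam) {p : E 8} {t : ℝ} (ht : ln p t ∈ Om w k) :
    HasDerivAt (fun s => u (ln p s)) (pd 0 u (ln p t)) t :=
  hda_line' (i := 0) (diffAt_of_C1 h.geom.isOpen (C2_C1 h.ground.smooth) ht)

lemma hasDerivAt_gl (h : Setup K β w k u lam) {p : E 8} {t : ℝ} (ht : ln p t ∈ Om w k) :
    HasDerivAt (gl u p) (-sig 0 u (ln p t)) t := by
  have h1 := h.hasDerivAt_u_ln ht
  have h2 : HasDerivAt (fun s => pd 0 u (ln p s)) (pd 0 (pd 0 u) (ln p t)) t :=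
    hda_line' (i := 0) (diffAt_of_C1 h.geom.isOpen (C2_pd h.geom.isOpen h.ground.smooth 0) ht)
  have hpos := h.ground.pos _ ht
  have h3 := h2.div h1 hpos.ne'
  convert! h3 using 1
  unfold sig
  field_simp
  ring

lemma gl_zero (h : Setup K β w k u lam) {p : E 8} (hp : p ∈ W β w k) : gl u p 0 = 0 := by
  have h0 : ln p 0 ∈ Om w k := h.mem_Om (h.ln_window hp (by rw [abs_zero]; exact h.w_pos.le))
  have h1 := h.hasDerivAt_u_ln h0
  have h2 : HasDerivAt (fun s => u (ln p (-s))) (-(pd 0 u (ln p 0))) 0 := by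
    have h1' : HasDerivAt (fun s => u (ln p s)) (pd 0 u (ln p 0)) (-0) := by simpa using h1
    have := HasDerivAt.scomp (0:ℝ) h1' (hasDerivAt_neg (0:ℝ))
    simpa [Function.comp_def] using this
  have h3 : (fun s => u (ln p (-s))) = fun s => u (ln p s) := funext fun s => h.even_u p s
  rw [h3] at h2
  have := h1.unique h2
  unfold gl
  rw [show pd 0 u (ln p 0) = 0 by linarith, zero_div]

lemma abs_gl_le (h : Setup K β w k u lam) {p : E 8} (hp : p ∈ W β w k) :
    |gl u p (p 0)| ≤ K * w ^ 9 := by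
  have hmem : ∀ t ∈ Icc (-w) w, ln p t ∈ Om w k := fun t ht =>
    h.mem_Om (h.ln_window hp (abs_le.mpr ht))
  have hb : ∀ t ∈ Icc (-w) w, ‖-sig 0 u (ln p t)‖ ≤ K * w ^ 8 := by
    intro t ht
    rw [norm_neg, Real.norm_eq_abs, abs_of_nonneg (h.hcalc.sig_nonneg 0 _ (hmem t ht))]
    exact h.sig0 _ (hmem t ht) (h.ln_window hp (abs_le.mpr ht))
  have hp0 : |p 0| ≤ w / 3 := (mem_W.mp hp).1 0 (by decide)
  have hw := h.w_pos
  have h1 := (convex_Icc (-w) w).norm_image_sub_le_of_norm_hasDerivWithin_le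
    (f := gl u p) (f' := fun t => -sig 0 u (ln p t)) (C := K * w ^ 8) (x := 0) (y := p 0)
    (fun t ht => (h.hasDerivAt_gl (hmem t ht)).hasDerivWithinAt) hb
    ⟨by linarith, by linarith⟩ ⟨by linarith [(abs_le.mp hp0).1], by linarith [(abs_le.mp hp0).2]⟩
  rw [h.gl_zero hp, sub_zero, sub_zero, Real.norm_eq_abs, Real.norm_eq_abs] at h1
  have hK := h.K_pos
  calc |gl u p (p 0)| ≤ K * w ^ 8 * |p 0| := h1
    _ ≤ K * w ^ 8 * w := by gcongr; linarith
    _ = K * w ^ 9 := by ring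

lemma abs_pd_u_le (h : Setup K β w k u lam) {p : E 8} (hp : p ∈ W β w k) :
    |pd 0 u p| ≤ K * w ^ 9 * u 0 := by
  have h1 := h.abs_gl_le hp
  have hpos := h.ground.pos p (h.W_sub hp)
  unfold gl at h1
  rw [ln_self, abs_div, abs_of_pos hpos, div_le_iff₀ hpos] at h1
  have hK := h.K_pos
  have hw := h.w_pos
  calc |pd 0 u p| ≤ K * w ^ 9 * u p := h1
    _ ≤ _ := by gcongr; exact h.hmax p

lemma abs_pd_pd_u_le (h : Setup K β w k u lam) {p : E 8} (hp : p ∈ W β w k) :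
    |pd 0 (pd 0 u) p| ≤ 2 * K * w ^ 8 * u 0 := by
  have hpΩ := h.W_sub hp
  have h1 := h.abs_gl_le hp
  have hpos := h.ground.pos p hpΩ
  have hK := h.K_pos
  have hw := h.w_pos
  have hw1 := h.w_le
  unfold gl at h1
  rw [ln_self] at h1
  have e : pd 0 (pd 0 u) p = ((pd 0 u p / u p) ^ 2 - sig 0 u p) * u p := by
    unfold sig; field_simp; ring
  have s0 := h.hcalc.sig_nonneg 0 p hpΩ
  have s1 := h.sig0 p hpΩ (h.W_u hp)
  have g2 : (pd 0 u p / u p) ^ 2 ≤ K * w ^ 8 := by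
    rw [← sq_abs]
    calc |pd 0 u p / u p| ^ 2 ≤ (K * w ^ 9) ^ 2 := pow_le_pow_left₀ (abs_nonneg _) h1 2
      _ = (K * w ^ 8) * ((K * w ^ 8) * w ^ 2) := by ring
      _ ≤ (K * w ^ 8) * (1 * 1) := by
          gcongr
          · exact h.Kw
          · calc w ^ 2 ≤ (1/4:ℝ) ^ 2 := pow_le_pow_left₀ hw.le hw1 2
              _ ≤ 1 := by norm_num
      _ = _ := by ring
  rw [e, abs_mul, abs_of_pos hpos]
  have : |(pd 0 u p / u p) ^ 2 - sig 0 u p| ≤ 2 * K * w ^ 8 := by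
    rw [abs_le]
    have := sq_nonneg (pd 0 u p / u p)
    have : 0 < K * w ^ 8 := by positivity
    constructor <;> linarith
  calc _ ≤ 2 * K * w ^ 8 * u p := by gcongr
    _ ≤ _ := by gcongr; exact h.hmax p

end Setup

end Pool.Agent.GS8
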