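import Pool.Agent.GS8.FinalB

/-!
# JOB 10, part C: the key inequality
-/

set_option autoImplicit false

open MeasureTheory Set Filter Topology
open scoped Real ContDiff

namespace Pool.Agent.GS8

namespace Setup

variable {K β w k : ℝ} {u : E 8 → ℝ} {lam : ℝ} {B Q : ℝ → ℝ} {CQ b₀ b c : ℝ}

/-- `u` times the window -/
noncomputable def UU (B : ℝ → ℝ) (u : E 8 → ℝ) (w k : ℝ) (p : E 8) : ℝ := u p * B (kz w k p)

lemma contDiffOn_Bkz' (h : Setup K β w k u lam) (hB : ContDiff ℝ 2 B) :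
    ContDiffOn ℝ 2 (fun p => B (kz w k p)) (Om w k) :=
  (contDiffOn_Bkz h.w_pos hB).mono h.Om_sub_DD

lemma contDiffOn_UU (h : Setup K β w k u lam) (hB : ContDiff ℝ 2 B) :
    ContDiffOn ℝ 2 (UU B u w k) (Om w k) :=
  h.ground.smooth.mul (h.contDiffOn_Bkz' hB)

lemma abs_seven_le (h : Setup K β w k u lam) {p : E 8} (hp : p ∈ W β w k) : |p 7| ≤ 1 / k := by
  have h1 := (mem_W.mp hp).2
  have hk := h.k_ge
  have : β / k ≤ 1 / k := by
    apply div_le_div_of_nonneg_right _ (by linarith); linarith [h.β_le]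
  linarith

lemma abs_pd_UU_le (h : Setup K β w k u lam) (hB : ContDiff ℝ 2 B) (hb0 : 0 < b)
    (hb : BBound B b) {p : E 8} (hp : p ∈ W β w k) :
    |pd 0 (UU B u w k) p| ≤ u 0 * (K * w ^ 9 * b + 2 * b / k ^ 2) := by
  have hpΩ := h.W_sub hp
  have h1 : pd 0 (UU B u w k) p = pd 0 u p * B (kz w k p) +
      u p * pd 0 (fun q => B (kz w k q)) p :=
    pd_mul_on h.geom.isOpen (C2_C1 h.ground.smooth) (C2_C1 (h.contDiffOn_Bkz' hB)) 0 hpΩ
  have h2 := h.abs_pd_u_le hp
  have h3 := abs_pd_Bkz_le h.w_pos h.w_le h.k_ge hB hb0 hb (h.hh_ge (mem_W.mp hp).1) (h.abs_seven_le hp)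
  have h4 := hb.b0 (kz w k p)
  have h5 := h.hmax p
  have h6 := h.u_nonneg p
  have hu := h.u0_pos
  have hw := h.w_pos
  have hK := h.K_pos
  rw [h1]
  refine (abs_add_le _ _).trans ?_
  rw [abs_mul, abs_mul, abs_of_nonneg h6]
  calc |pd 0 u p| * |B (kz w k p)| + u p * |pd 0 (fun q => B (kz w k q)) p|
      ≤ (K * w ^ 9 * u 0) * b + u 0 * (2 * b / k ^ 2) := by gcongr
    _ = _ := by ring

lemma abs_pd_pd_UU_le (h : Setup K β w k u lam) (hB : ContDiff ℝ 2 B) (hb0 : 0 < b)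
    (hb : BBound B b) {p : E 8} (hp : p ∈ W β w k) :
    |pd 0 (pd 0 (UU B u w k)) p| ≤ u 0 * (2 * K * w ^ 8 * b + 14 * b / k ^ 2) := by
  have hpΩ := h.W_sub hp
  have h1 : pd 0 (pd 0 (UU B u w k)) p = pd 0 (pd 0 u) p * B (kz w k p) +
      2 * (pd 0 u p * pd 0 (fun q => B (kz w k q)) p) +
      u p * pd 0 (pd 0 (fun q => B (kz w k q))) p :=
    pd_pd_mul h.geom.isOpen h.ground.smooth (h.contDiffOn_Bkz' hB) 0 hpΩ
  have h2 := h.abs_pd_u_le hp
  have h2' := h.abs_pd_pd_u_le hp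
  have h3 := abs_pd_Bkz_le h.w_pos h.w_le h.k_ge hB hb0 hb (h.hh_ge (mem_W.mp hp).1) (h.abs_seven_le hp)
  have h3' := abs_pd_pd_Bkz_le h.w_pos h.w_le h.k_ge hB hb0 hb (h.hh_ge (mem_W.mp hp).1)
    (h.abs_seven_le hp)
  have h4 := hb.b0 (kz w k p)
  have h5 := h.hmax p
  have h6 := h.u_nonneg p
  have hu := h.u0_pos
  have hw := h.w_pos
  have hw1 := h.w_le
  have hK := h.K_pos
  have hk := h.k_ge
  have h7 : K * w ^ 9 ≤ 1 := by
    calc K * w ^ 9 = (K * w ^ 8) * w := by ring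
      _ ≤ 1 * 1 := by gcongr; exact h.Kw; linarith
      _ = 1 := by norm_num
  rw [h1]
  refine (abs_add_le _ _).trans ?_
  refine (add_le_add_left (abs_add_le _ _) _).trans ?_
  rw [abs_mul, abs_mul, abs_mul, abs_mul, abs_of_nonneg h6, abs_two]
  calc |pd 0 (pd 0 u) p| * |B (kz w k p)| + 2 * (|pd 0 u p| * |pd 0 (fun q => B (kz w k q)) p|) +
        u p * |pd 0 (pd 0 (fun q => B (kz w k q))) p|
      ≤ (2 * K * w ^ 8 * u 0) * b + 2 * ((1 * u 0) * (2 * b / k ^ 2)) + u 0 * (10 * b / k ^ 2) := by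
        gcongr
        exact h2.trans (by gcongr)
    _ = _ := by ring

/-- closed sets whose intersection is the window -/
def KX (w : ℝ) : Set (E 8) := {p | ∀ i, i ≠ 7 → |p i| ≤ w / 3}
def Kz (β k : ℝ) : Set (E 8) := {p | |p 7| ≤ β / k}

lemma W_eq : KX w ∩ Kz β k = W β w k := by
  ext p; rw [mem_W]; rfl

lemma isClosed_KX : IsClosed (KX w) := by
  have : KX w = ⋂ i : Fin 8, ⋂ _ : i ≠ 7, {p : E 8 | |p i| ≤ w / 3} := by
    ext p; simp [KX]
  rw [this]
  exact isClosed_iInter fun i => isClosed_iInter fun _ =>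
    isClosed_le (continuous_coord i).abs continuous_const

lemma isClosed_Kz : IsClosed (Kz β k) := isClosed_le (continuous_coord 7).abs continuous_const

lemma UU_zero (h : Setup K β w k u lam) (hW : Win β B Q CQ b₀) {p : E 8} (hp : p ∈ Om w k)
    (hz : p ∉ Kz β k) : UU B u w k p = 0 := by
  have h1 : β / k < |p 7| := by
    have : ¬ (|p 7| ≤ β / k) := hz
    exact not_le.mp this
  have h2 := h.k_le_kap hp
  have hk := h.k_ge
  have h3 : β ≤ |kz w k p| := by
    unfold kz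
    rw [abs_mul, abs_of_pos (lt_of_lt_of_le (by linarith) h2)]
    rw [div_lt_iff₀ (by linarith)] at h1
    nlinarith [abs_nonneg (p 7)]
  unfold UU
  rw [hW.supp _ h3, mul_zero]

lemma zt_off {p : E 8} (hw : 0 < w) (hp : p ∉ KX w) : zt (w / 3) p = 0 := by
  have : ∃ i : Fin 8, i ≠ 7 ∧ w / 3 < |p i| := by
    by_contra hn
    push Not at hn
    exact hp hn
  obtain ⟨i, hi, hi2⟩ := this
  exact zt_zero (by positivity) hi hi2.le

lemma lap_zt_off {p : E 8} (hw : 0 < w) (hp : p ∉ KX w) : lap (zt (w / 3)) p = 0 := by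
  have h1 : zt (w / 3) =ᶠ[𝓝 p] fun _ => 0 := by
    filter_upwards [isClosed_KX.isOpen_compl.mem_nhds hp] with q hq using zt_off hw hq
  unfold lap
  apply Finset.sum_eq_zero
  intro i _
  rw [pd_pd_congr h1]
  have : pd i (fun _ : E 8 => (0:ℝ)) = fun _ => 0 := by funext y; exact pd_const 0 i y
  rw [this, pd_const]

/-- the potential minus the eigenvalue -/
noncomputable def TT (w k lam : ℝ) (p : E 8) : ℝ := V w p - (lam - k ^ 2)

lemma contDiff_TT (hw : 0 < w) {m : WithTop ℕ∞} : ContDiff ℝ m (TT w k lam) :=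
  (contDiff_V hw).sub contDiff_const

lemma abs_TT_le (h : Setup K β w k u lam) {p : E 8} (hp : p ∈ W β w k) : |TT w k lam p| ≤ 10 := by
  have h1 := h.V_le_one (mem_W.mp hp).1
  have h2 := h.V_nonneg p
  have h3 := h.lam_ge
  have h4 := h.lam_le
  unfold TT
  rw [abs_le]; constructor <;> linarith

lemma pd_TT (hw : 0 < w) (p : E 8) : pd 0 (TT w k lam) p = pd 0 (V w) p := by
  have : pd 0 (TT w k lam) p = pd 0 (fun y => V w y - (lam - k ^ 2)) p := rfl
  rw [this, pd_sub ((contDiff_V hw (m := 1)).differentiable (by norm_num) p)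
    (differentiableAt_const _), pd_const, sub_zero]

/-- the Green functional of JOB 9 -/
noncomputable def JJ (B : ℝ → ℝ) (u : E 8 → ℝ) (w k lam : ℝ) : ℝ :=
  ∫ x in Om w k, u x * B (kap w k x * x 7) *
    (lap (pd 0 (pd 0 (zt (w / 3)))) x - (V w x - (lam - k ^ 2)) * pd 0 (pd 0 (zt (w / 3))) x)

/-- support bookkeeping -/
lemma off_cases {p : E 8} (hp : p ∉ W β w k) : p ∉ KX w ∨ p ∉ Kz β k := by
  rw [← W_eq] at hp
  by_contra hn
  push Not at hn
  exact hp hn

lemma main_identity (h : Setup K β w k u lam) (hW : Win β B Q CQ b₀) :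
    ∫ x in Om w k, UU B u w k x * pd 0 (pd 0 (V w)) x * zt (w / 3) x =
      (∫ x in Om w k, pd 0 (pd 0 (UU B u w k)) x * (lap (zt (w / 3)) x - TT w k lam x * zt (w / 3) x)) -
      (∫ x in Om w k, 2 * (pd 0 (UU B u w k) x * pd 0 (V w) x) * zt (w / 3) x) - JJ B u w k lam := by
  have hw := h.w_pos
  have hΩ := h.geom.isOpen
  have hU := h.contDiffOn_UU hW.smooth
  have hz := contDiff_zt (w / 3)
  have hlz := contDiff_lap hz
  have hT : ContDiff ℝ 2 (TT w k lam) := contDiff_TT hw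
  have hUT : ContDiffOn ℝ 2 (fun p => UU B u w k p * TT w k lam p) (Om w k) := hU.mul hT.contDiffOn
  have hKc : IsCompact (KX w ∩ Kz β k) := by rw [W_eq]; exact isCompact_W
  have hKs : KX w ∩ Kz β k ⊆ Om w k := by rw [W_eq]; exact h.W_sub
  -- the two integrations by parts
  have e1 := ibp2 hΩ hU (hlz.of_le two_le_infty) isClosed_KX isClosed_Kz hKc hKs
    (fun x hx => lap_zt_off hw hx) (fun x hx hx2 => h.UU_zero hW hx hx2) 0
  have e2 := ibp2 hΩ hUT (hz.of_le two_le_infty) isClosed_KX isClosed_Kz hKc hKs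
    (fun x hx => zt_off hw hx) (fun x hx hx2 => by
      change UU B u w k x * TT w k lam x = 0
      rw [h.UU_zero hW hx hx2, zero_mul]) 0
  -- continuity facts
  have cU := hU.continuousOn
  have cUi := (C2_pd hΩ hU 0).continuousOn
  have cUii := C1_pd_cont hΩ (C2_pd hΩ hU 0) 0
  have cT : ContinuousOn (TT w k lam) (Om w k) := hT.continuous.continuousOn
  have cz : ContinuousOn (zt (w / 3)) (Om w k) := hz.continuous.continuousOn
  have clz : ContinuousOn (lap (zt (w / 3))) (Om w k) := hlz.continuous.continuousOn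
  have cη : ContinuousOn (pd 0 (pd 0 (zt (w / 3)))) (Om w k) :=
    (contDiff_pd_infty (contDiff_pd_infty hz 0) 0).continuous.continuousOn
  have clη : ContinuousOn (pd 0 (pd 0 (lap (zt (w / 3))))) (Om w k) :=
    (contDiff_pd_infty (contDiff_pd_infty hlz 0) 0).continuous.continuousOn
  have cV1 : ContinuousOn (pd 0 (V w)) (Om w k) := (contDiff_pdV hw).continuous.continuousOn
  have cV2 : ContinuousOn (pd 0 (pd 0 (V w))) (Om w k) :=
    (ContDiff.pd' (m := 0) (contDiff_pdV hw) (by simp) 0).continuous.continuousOn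
  -- vanishing of derivatives off KX
  have zη : ∀ x, x ∉ KX w → pd 0 (pd 0 (zt (w / 3))) x = 0 := fun x hx => by
    have h1 : zt (w / 3) =ᶠ[𝓝 x] fun _ => 0 := by
      filter_upwards [isClosed_KX.isOpen_compl.mem_nhds hx] with q hq using zt_off hw hq
    rw [pd_pd_congr h1]
    have : pd 0 (fun _ : E 8 => (0:ℝ)) = fun _ => 0 := by funext y; exact pd_const 0 0 y
    rw [this, pd_const]
  have zlη : ∀ x, x ∉ KX w → pd 0 (pd 0 (lap (zt (w / 3)))) x = 0 := fun x hx => by
    have h1 : lap (zt (w / 3)) =ᶠ[𝓝 x] fun _ => 0 := by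
      filter_upwards [isClosed_KX.isOpen_compl.mem_nhds hx] with q hq using lap_zt_off hw hq
    rw [pd_pd_congr h1]
    have : pd 0 (fun _ : E 8 => (0:ℝ)) = fun _ => 0 := by funext y; exact pd_const 0 0 y
    rw [this, pd_const]
  have hWc : IsCompact (W β w k) := isCompact_W
  have hWs := h.W_sub
  have zUi : ∀ x ∈ Om w k, x ∉ Kz β k → pd 0 (UU B u w k) x = 0 := fun x hxΩ hx => by
    have h1 : UU B u w k =ᶠ[𝓝 x] fun _ => 0 := by
      filter_upwards [isClosed_Kz.isOpen_compl.mem_nhds hx, hΩ.mem_nhds hxΩ] with q hq hqΩ using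
        h.UU_zero hW hqΩ hq
    rw [pd_congr h1, pd_const]
  have zUii : ∀ x ∈ Om w k, x ∉ Kz β k → pd 0 (pd 0 (UU B u w k)) x = 0 := fun x hxΩ hx => by
    have h1 : UU B u w k =ᶠ[𝓝 x] fun _ => 0 := by
      filter_upwards [isClosed_Kz.isOpen_compl.mem_nhds hx, hΩ.mem_nhds hxΩ] with q hq hqΩ using
        h.UU_zero hW hqΩ hq
    rw [pd_pd_congr h1]
    have : pd 0 (fun _ : E 8 => (0:ℝ)) = fun _ => 0 := by funext y; exact pd_const 0 0 y
    rw [this, pd_const]
  -- integrability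
  have I1 : IntegrableOn (fun x => UU B u w k x * pd 0 (pd 0 (lap (zt (w / 3)))) x) (Om w k) :=
    integrableOn_of_off hΩ (cU.mul clη) hWc hWs (fun x hxΩ hx => by
      rcases off_cases hx with h1 | h1
      · rw [zlη x h1, mul_zero]
      · rw [h.UU_zero hW hxΩ h1, zero_mul])
  have I2 : IntegrableOn (fun x => (UU B u w k x * TT w k lam x) * pd 0 (pd 0 (zt (w / 3))) x)
      (Om w k) :=
    integrableOn_of_off hΩ ((cU.mul cT).mul cη) hWc hWs (fun x hxΩ hx => by
      rcases off_cases hx with h1 | h1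
      · rw [zη x h1, mul_zero]
      · rw [h.UU_zero hW hxΩ h1, zero_mul, zero_mul])
  have I3 : IntegrableOn (fun x => pd 0 (pd 0 (UU B u w k)) x * lap (zt (w / 3)) x) (Om w k) :=
    integrableOn_of_off hΩ (cUii.mul clz) hWc hWs (fun x hxΩ hx => by
      rcases off_cases hx with h1 | h1
      · rw [lap_zt_off hw h1, mul_zero]
      · rw [zUii x hxΩ h1, zero_mul])
  have I4 : IntegrableOn (fun x => pd 0 (pd 0 (UU B u w k)) x * (TT w k lam x * zt (w / 3) x))
      (Om w k) :=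
    integrableOn_of_off hΩ (cUii.mul (cT.mul cz)) hWc hWs (fun x hxΩ hx => by
      rcases off_cases hx with h1 | h1
      · rw [zt_off hw h1, mul_zero, mul_zero]
      · rw [zUii x hxΩ h1, zero_mul])
  have I5 : IntegrableOn (fun x => 2 * (pd 0 (UU B u w k) x * pd 0 (V w) x) * zt (w / 3) x)
      (Om w k) :=
    integrableOn_of_off hΩ ((continuousOn_const.mul (cUi.mul cV1)).mul cz) hWc hWs
      (fun x hxΩ hx => by
      rcases off_cases hx with h1 | h1
      · rw [zt_off hw h1, mul_zero]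
      · rw [zUi x hxΩ h1, zero_mul, mul_zero, zero_mul])
  have I6 : IntegrableOn (fun x => UU B u w k x * pd 0 (pd 0 (V w)) x * zt (w / 3) x)
      (Om w k) :=
    integrableOn_of_off hΩ ((cU.mul cV2).mul cz) hWc hWs
      (fun x hxΩ hx => by
      rcases off_cases hx with h1 | h1
      · rw [zt_off hw h1, mul_zero]
      · rw [h.UU_zero hW hxΩ h1, zero_mul, zero_mul])
  -- JJ
  have eJ : JJ B u w k lam = (∫ x in Om w k, UU B u w k x * pd 0 (pd 0 (lap (zt (w / 3)))) x) -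
      ∫ x in Om w k, (UU B u w k x * TT w k lam x) * pd 0 (pd 0 (zt (w / 3))) x := by
    rw [← integral_sub I1 I2]
    unfold JJ
    apply setIntegral_congr_fun hΩ.measurableSet
    intro x _
    change u x * B (kap w k x * x 7) * _ = _
    rw [lap_pd_pd_zt]
    unfold UU TT kz
    ring
  have e3 : ∫ x in Om w k, pd 0 (pd 0 (fun p => UU B u w k p * TT w k lam p)) x * zt (w / 3) x =
      (∫ x in Om w k, pd 0 (pd 0 (UU B u w k)) x * (TT w k lam x * zt (w / 3) x)) +
      (∫ x in Om w k, 2 * (pd 0 (UU B u w k) x * pd 0 (V w) x) * zt (w / 3) x) +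
      ∫ x in Om w k, UU B u w k x * pd 0 (pd 0 (V w)) x * zt (w / 3) x := by
    have I45 : IntegrableOn (fun x => pd 0 (pd 0 (UU B u w k)) x * (TT w k lam x * zt (w / 3) x) +
        2 * (pd 0 (UU B u w k) x * pd 0 (V w) x) * zt (w / 3) x) (Om w k) := I4.add I5
    rw [← integral_add I4 I5, ← integral_add I45 I6]
    apply setIntegral_congr_fun hΩ.measurableSet
    intro x hx
    have := pd_pd_mul hΩ hU hT.contDiffOn 0 hx
    have hT1 : pd 0 (TT w k lam) = pd 0 (V w) := funext fun q => pd_TT hw q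
    change pd 0 (pd 0 (fun p => UU B u w k p * TT w k lam p)) x * zt (w / 3) x = _
    rw [this, hT1]
    ring
  have e4 : (∫ x in Om w k, pd 0 (pd 0 (UU B u w k)) x * (lap (zt (w / 3)) x - TT w k lam x * zt (w / 3) x)) =
      (∫ x in Om w k, pd 0 (pd 0 (UU B u w k)) x * lap (zt (w / 3)) x) -
      ∫ x in Om w k, pd 0 (pd 0 (UU B u w k)) x * (TT w k lam x * zt (w / 3) x) := by
    rw [← integral_sub I3 I4]
    apply setIntegral_congr_fun hΩ.measurableSet
    intro x _
    ring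
  rw [e4, eJ, e1, e2, e3]
  ring

end Setup

end Pool.Agent.GS8
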