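import Pool.Agent.GS8.FinalC

/-!
# JOB 10, part D: the key inequality
-/

set_option autoImplicit false

open MeasureTheory Set Filter Topology
open scoped Real ContDiff

namespace Pool.Agent.GS8

namespace Setup

variable {K β w k : ℝ} {u : E 8 → ℝ} {lam : ℝ} {B Q : ℝ → ℝ} {CQ b₀ b c : ℝ}

/-- the small box -/
def W' (β w k : ℝ) : Set (E 8) := box fun i => if i = 7 then β / (4 * k) else w / 6

lemma mem_W' {p : E 8} : p ∈ W' β w k ↔ (∀ i, i ≠ 7 → |p i| ≤ w / 6) ∧ |p 7| ≤ β / (4 * k) := by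
  constructor
  · intro hp
    exact ⟨fun i hi => by simpa [hi] using hp i, by simpa using hp 7⟩
  · rintro ⟨h1, h2⟩ i
    by_cases hi : i = 7
    · subst hi; simpa using h2
    · simpa [hi] using h1 i hi

lemma W'_sub_W (h : Setup K β w k u lam) : W' β w k ⊆ W β w k := by
  intro p hp
  obtain ⟨h1, h2⟩ := mem_W'.mp hp
  have hw := h.w_pos
  have hk := h.k_ge
  have hβ := h.β_pos
  refine mem_W.mpr ⟨fun i hi => (h1 i hi).trans (by linarith), h2.trans ?_⟩
  apply div_le_div_of_nonneg_left hβ.le (by linarith) (by linarith)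

lemma vol_W (h : Setup K β w k u lam) :
    volume.real (W β w k) = 256 * ((w / 3) ^ 7 * (β / k)) := by
  have hw := h.w_pos
  have hk := h.k_ge
  have hβ := h.β_pos
  unfold W
  rw [volume_real_box]
  · rw [Fin.prod_univ_eight]
    simp only [Fin.isValue, Fin.reduceEq, if_true, if_false]
    ring
  · intro i
    split_ifs <;> positivity

lemma vol_W' (h : Setup K β w k u lam) :
    volume.real (W' β w k) = (w / 3) ^ 7 * (β / k) / 2 := by
  have hw := h.w_pos
  have hk := h.k_ge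
  have hβ := h.β_pos
  unfold W'
  rw [volume_real_box]
  · rw [Fin.prod_univ_eight]
    simp only [Fin.isValue, Fin.reduceEq, if_true, if_false]
    field_simp
    ring
  · intro i
    split_ifs <;> positivity

/-- an integral over `Ω` whose integrand lives on `W` -/
lemma abs_integral_le (h : Setup K β w k u lam) {f : E 8 → ℝ} {M : ℝ}
    (h0 : ∀ x ∈ Om w k, x ∉ W β w k → f x = 0) (hM : ∀ x ∈ W β w k, |f x| ≤ M) :
    |∫ x in Om w k, f x| ≤ M * (256 * ((w / 3) ^ 7 * (β / k))) := by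
  have e1 : ∫ x in Om w k, f x = ∫ x in W β w k, f x := by
    apply setIntegral_eq_of_subset_of_forall_sdiff_eq_zero h.geom.isOpen.measurableSet h.W_sub
    intro x hx
    exact h0 x hx.1 hx.2
  rw [e1, ← h.vol_W, ← Real.norm_eq_abs]
  apply norm_setIntegral_le_of_norm_le_const
  · exact (isCompact_W).measure_lt_top
  · intro x hx
    exact hM x hx

lemma main_lower (h : Setup K β w k u lam) (hW : Win β B Q CQ b₀) :
    b₀ * u 0 * w ^ 5 / 12 * ((w / 3) ^ 7 * (β / k)) ≤
      ∫ x in Om w k, UU B u w k x * pd 0 (pd 0 (V w)) x * zt (w / 3) x := by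
  have hw := h.w_pos
  have hk := h.k_ge
  have hβ := h.β_pos
  have hΩ := h.geom.isOpen
  have hb₀ := hW.b₀_pos
  have hu := h.u0_pos
  set f : E 8 → ℝ := fun x => UU B u w k x * pd 0 (pd 0 (V w)) x * zt (w / 3) x with hf
  have hV : ∀ x : E 8, x ∈ KX w → 1 / 3 * w ^ 5 ≤ pd 0 (pd 0 (V w)) x := by
    intro x hx
    rw [pd_pd_V hw]
    exact v2_ge hw (hx 0 (by decide)) (h.r2_le_of hx)
  have hU0 : ∀ x, 0 ≤ UU B u w k x := fun x => mul_nonneg (h.u_nonneg x) (hW.nonneg _)
  have hf0 : ∀ x, 0 ≤ f x := by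
    intro x
    by_cases hx : x ∈ KX w
    · have := hV x hx
      have h3 : 0 ≤ pd 0 (pd 0 (V w)) x := le_trans (by positivity) this
      exact mul_nonneg (mul_nonneg (hU0 x) h3) (zt_nonneg _ _)
    · simp only [hf]
      rw [zt_off hw hx, mul_zero]
  have hint : IntegrableOn f (Om w k) := by
    apply integrableOn_of_off hΩ _ isCompact_W h.W_sub
    · intro x hxΩ hx
      simp only [hf]
      rcases off_cases hx with h1 | h1
      · rw [zt_off hw h1, mul_zero]
      · rw [h.UU_zero hW hxΩ h1, zero_mul, zero_mul]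
    · have cU := (h.contDiffOn_UU hW.smooth).continuousOn
      have cz : ContinuousOn (zt (w / 3)) (Om w k) := (contDiff_zt _).continuous.continuousOn
      have cV2 : ContinuousOn (pd 0 (pd 0 (V w))) (Om w k) :=
        (ContDiff.pd' (m := 0) (contDiff_pdV hw) (by simp) 0).continuous.continuousOn
      exact (cU.mul cV2).mul cz
  have hsub : W' β w k ⊆ Om w k := h.W'_sub_W.trans h.W_sub
  have h1 : ∫ x in W' β w k, f x ≤ ∫ x in Om w k, f x :=
    setIntegral_mono_set hint (ae_of_all _ hf0) (HasSubset.Subset.eventuallyLE hsub)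
  have hmeas : MeasurableSet (W' β w k) := (isClosed_box _).measurableSet
  have hfin : volume (W' β w k) ≠ ⊤ := ((isCompact_box _).measure_lt_top).ne
  have h2 : ∫ _x in W' β w k, (b₀ * u 0 * w ^ 5 / 6) ≤ ∫ x in W' β w k, f x := by
    apply setIntegral_mono_on _ (hint.mono_set hsub) hmeas
    · intro x hx
      obtain ⟨hx1, hx2⟩ := mem_W'.mp hx
      have hxW := h.W'_sub_W hx
      have hxΩ := hsub hx
      have hxK : x ∈ KX w := fun i hi => (hx1 i hi).trans (by linarith)
      have hz : zt (w / 3) x = 1 := zt_one (by positivity) (fun i hi => (hx1 i hi).trans (by linarith))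
      have hu2 := h.W_u hxW
      have hkap : kap w k x ≤ 2 * k := by
        have := h.hh_ge (p := x) (mem_W.mp hxW).1
        unfold kap
        rw [div_le_iff₀ (by linarith)]
        nlinarith
      have hkap0 : 0 < kap w k x := lt_of_lt_of_le (by linarith) (h.k_le_kap hxΩ)
      have hB : b₀ ≤ B (kz w k x) := by
        apply hW.lower
        unfold kz
        rw [abs_mul, abs_of_pos hkap0]
        calc kap w k x * |x 7| ≤ (2 * k) * (β / (4 * k)) := by gcongr
          _ = β / 2 := by field_simp; ring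
      simp only [hf]
      rw [hz, mul_one]
      unfold UU
      calc b₀ * u 0 * w ^ 5 / 6 = (u 0 / 2 * b₀) * (1 / 3 * w ^ 5) := by ring
        _ ≤ (u x * B (kz w k x)) * pd 0 (pd 0 (V w)) x := by
          have := hV x hxK
          have hux : 0 ≤ u x := h.u_nonneg x
          have hBx : 0 ≤ B (kz w k x) := hW.nonneg _
          gcongr
    · exact integrableOn_const hfin
  rw [setIntegral_const, smul_eq_mul, h.vol_W'] at h2
  calc b₀ * u 0 * w ^ 5 / 12 * ((w / 3) ^ 7 * (β / k))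
      = (w / 3) ^ 7 * (β / k) / 2 * (b₀ * u 0 * w ^ 5 / 6) := by ring
    _ ≤ _ := h2.trans h1

lemma key (h : Setup K β w k u lam) (hW : Win β B Q CQ b₀) (hb0 : 0 < b) (hb : BBound B b)
    (hc1 : 1 ≤ c) (hc : ∀ t, |deriv (deriv th) t| ≤ c) {Cη : ℝ}
    (hJ : |JJ B u w k lam| ≤ Cη * u 0 / k ^ 2) :
    b₀ * w ^ 5 / 12 ≤ 256 * ((2 * K * w ^ 8 * b + 14 * b / k ^ 2) * (72 * c / w ^ 2 + 10) +
      2 * (K * w ^ 9 * b + 2 * b / k ^ 2) * w ^ 6) + Cη / (k * ((w / 3) ^ 7 * β)) := by
  have hw := h.w_pos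
  have hk := h.k_ge
  have hβ := h.β_pos
  have hK := h.K_pos
  have hu := h.u0_pos
  have hk0 : 0 < k := by linarith
  have h1 := h.main_lower hW
  rw [h.main_identity hW] at h1
  have h2 := h.abs_integral_le (f := fun x => pd 0 (pd 0 (UU B u w k)) x *
      (lap (zt (w / 3)) x - TT w k lam x * zt (w / 3) x))
      (M := (u 0 * (2 * K * w ^ 8 * b + 14 * b / k ^ 2)) * (72 * c / w ^ 2 + 10)) (by
    intro x hxΩ hx
    rcases off_cases hx with h1 | h1
    · rw [zt_off hw h1, lap_zt_off hw h1]; ring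
    · have h1' : UU B u w k =ᶠ[𝓝 x] fun _ => 0 := by
        filter_upwards [isClosed_Kz.isOpen_compl.mem_nhds h1, h.geom.isOpen.mem_nhds hxΩ] with q hq hqΩ
          using h.UU_zero hW hqΩ hq
      have : pd 0 (pd 0 (UU B u w k)) x = 0 := by
        rw [pd_pd_congr h1']
        have : pd 0 (fun _ : E 8 => (0:ℝ)) = fun _ => 0 := by funext y; exact pd_const 0 0 y
        rw [this, pd_const]
      rw [this, zero_mul]) (by
    intro x hx
    rw [abs_mul]
    have a1 := h.abs_pd_pd_UU_le hW.smooth hb0 hb hx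
    have a2 : |lap (zt (w / 3)) x - TT w k lam x * zt (w / 3) x| ≤ 72 * c / w ^ 2 + 10 := by
      have a3 := abs_lap_zt_le (om := w / 3) (by positivity) hc x
      have a4 := h.abs_TT_le hx
      have a5 := zt_nonneg (w / 3) x
      have a6 := zt_le_one (w / 3) x
      have a7 : 8 * c / (w / 3) ^ 2 = 72 * c / w ^ 2 := by field_simp; ring
      rw [a7] at a3
      refine (abs_sub _ _).trans ?_
      have : |TT w k lam x * zt (w / 3) x| ≤ 10 := by
        rw [abs_mul, abs_of_nonneg a5]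
        calc |TT w k lam x| * zt (w / 3) x ≤ 10 * 1 := by gcongr
          _ = 10 := by norm_num
      linarith
    gcongr)
  have h3 := h.abs_integral_le (f := fun x => 2 * (pd 0 (UU B u w k) x * pd 0 (V w) x) * zt (w / 3) x)
      (M := 2 * ((u 0 * (K * w ^ 9 * b + 2 * b / k ^ 2)) * w ^ 6)) (by
    intro x hxΩ hx
    rcases off_cases hx with h1 | h1
    · rw [zt_off hw h1, mul_zero]
    · have h1' : UU B u w k =ᶠ[𝓝 x] fun _ => 0 := by
        filter_upwards [isClosed_Kz.isOpen_compl.mem_nhds h1, h.geom.isOpen.mem_nhds hxΩ] with q hq hqΩ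
          using h.UU_zero hW hqΩ hq
      rw [pd_congr h1', pd_const, zero_mul, mul_zero, zero_mul]) (by
    intro x hx
    have a1 := h.abs_pd_UU_le hW.smooth hb0 hb hx
    have a2 : |pd 0 (V w) x| ≤ w ^ 6 := by rw [pd_V hw]; exact abs_v1_le hw _ _
    have a5 := zt_nonneg (w / 3) x
    have a6 := zt_le_one (w / 3) x
    rw [abs_mul, abs_mul, abs_mul, abs_two, abs_of_nonneg a5]
    calc 2 * (|pd 0 (UU B u w k) x| * |pd 0 (V w) x|) * zt (w / 3) x
        ≤ 2 * ((u 0 * (K * w ^ 9 * b + 2 * b / k ^ 2)) * w ^ 6) * 1 := by gcongr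
      _ = _ := by ring)
  set v : ℝ := (w / 3) ^ 7 * (β / k) with hv
  have hv0 : 0 < v := by positivity
  have h4 : b₀ * u 0 * w ^ 5 / 12 * v ≤
      (u 0 * (2 * K * w ^ 8 * b + 14 * b / k ^ 2)) * (72 * c / w ^ 2 + 10) * (256 * v) +
      2 * ((u 0 * (K * w ^ 9 * b + 2 * b / k ^ 2)) * w ^ 6) * (256 * v) + Cη * u 0 / k ^ 2 := by
    have b1 := (abs_le.mp h2).2
    have b2 := (abs_le.mp h3).1
    have b3 := (abs_le.mp hJ).1
    linarith
  have h5 : Cη * u 0 / k ^ 2 = (Cη / (k * ((w / 3) ^ 7 * β))) * (u 0 * v) := by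
    rw [hv]; field_simp
  have hpos : 0 < u 0 * v := by positivity
  rw [h5] at h4
  have h6 : b₀ * w ^ 5 / 12 * (u 0 * v) ≤ (256 * ((2 * K * w ^ 8 * b + 14 * b / k ^ 2) * (72 * c / w ^ 2 + 10) +
      2 * (K * w ^ 9 * b + 2 * b / k ^ 2) * w ^ 6) + Cη / (k * ((w / 3) ^ 7 * β))) * (u 0 * v) := by
    calc b₀ * w ^ 5 / 12 * (u 0 * v) = b₀ * u 0 * w ^ 5 / 12 * v := by ring
      _ ≤ _ := h4
      _ = _ := by ring
  exact le_of_mul_le_mul_right h6 hpos

end Setup

end Pool.Agent.GS8
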