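import Pool.Agent.GS8.FinalD
import Pool.Agent.GS8.CalcA

/-!
# JOB 10, part E: consequences of the frozen statement
-/

set_option autoImplicit false

open MeasureTheory Set Filter Topology
open scoped Real ContDiff

namespace Pool.Agent.GS8

section scale

variable {n : ℕ} {Ω : Set (E n)} {u : E n → ℝ} {lam : ℝ}

lemma Ground.scale (hΩ : IsOpen Ω) (h : Ground Ω u lam) {a : ℝ} (ha : 0 < a) :
    Ground Ω (fun x => a * u x) lam where
  cont := continuous_const.mul h.cont
  smooth := contDiffOn_const.mul h.smooth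
  zero := fun x hx => by rw [h.zero x hx, mul_zero]
  pos := fun x hx => mul_pos ha (h.pos x hx)
  eq := fun x hx => by
    have h1 : ∀ i, pd i (pd i (fun x => a * u x)) x = a * pd i (pd i u) x := by
      intro i
      have e1 : EqOn (pd i (fun x => a * u x)) (fun y => a * pd i u y) Ω := fun y hy =>
        pd_const_mul a (diffAt_of_C1 hΩ (C2_C1 h.smooth) hy) i
      rw [pd_congr (e1.eventuallyEq_of_mem (hΩ.mem_nhds hx))]
      exact pd_const_mul a (diffAt_of_C1 hΩ (C2_pd hΩ h.smooth i) hx) i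
    have h2 := h.eq x hx
    unfold lap at h2 ⊢
    simp only [h1, ← Finset.mul_sum]
    linear_combination a * h2
  conc := by
    have h1 : ConcaveOn ℝ Ω (fun x => Real.log a + Real.log (u x)) :=
      (concaveOn_const (Real.log a) h.conc.1).add h.conc
    refine h1.congr ?_
    intro x hx
    exact (Real.log_mul ha.ne' (h.pos x hx).ne').symm
  symm := fun σ hσ x => by rw [h.symm σ hσ x]

lemma Ground.cptF (hb : Bornology.IsBounded Ω) (h : Ground Ω u lam) : HasCompactSupport u :=
  HasCompactSupport.intro hb.isCompact_closure (fun _ hx => h.zero _ fun hx' => hx (subset_closure hx'))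

lemma Ground.nonnegF (h : Ground Ω u lam) (p : E n) : 0 ≤ u p := by
  by_cases hp : p ∈ Ω
  · exact (h.pos p hp).le
  · rw [h.zero p hp]

lemma Ground.sq_pos (hb : Bornology.IsBounded Ω) (hne : Ω.Nonempty) (h : Ground Ω u lam) :
    0 < ∫ x, u x ^ 2 := by
  obtain ⟨x, hx⟩ := hne
  have hc : HasCompactSupport (fun x => u x ^ 2) :=
    HasCompactSupport.intro hb.isCompact_closure (fun y hy => by
      rw [h.zero y fun hx' => hy (subset_closure hx')]; norm_num)
  exact (h.cont.pow 2).integral_pos_of_hasCompactSupport_nonneg_nonzero hc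
    (fun y => sq_nonneg _) (x := x) (pow_ne_zero 2 (h.pos x hx).ne')

lemma Ground.sq_set (h : Ground Ω u lam) : ∫ x in Ω, u x ^ 2 = ∫ x, u x ^ 2 :=
  setIntegral_eq_integral_of_forall_compl_eq_zero fun x hx => by rw [h.zero x hx]; norm_num

lemma Ground.normalize (hΩ : IsOpen Ω) (hb : Bornology.IsBounded Ω) (hne : Ω.Nonempty)
    (h : Ground Ω u lam) : ∃ v : E n → ℝ, Ground Ω v lam ∧ ∫ x, v x ^ 2 = 1 := by
  have h0 := h.sq_pos hb hne
  set I := ∫ x, u x ^ 2 with hI
  have ha : 0 < (Real.sqrt I)⁻¹ := inv_pos.mpr (Real.sqrt_pos.mpr h0)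
  refine ⟨_, h.scale hΩ ha, ?_⟩
  simp only [mul_pow]
  rw [integral_const_mul, ← hI, inv_pow, Real.sq_sqrt h0.le]
  field_simp

lemma Ground.max_zero (hneg : ∀ x, x ∈ Ω → -x ∈ Ω) (h0 : (0 : E n) ∈ Ω) (h : Ground Ω u lam) :
    ∀ x, u x ≤ u 0 := by
  intro x
  by_cases hx : x ∈ Ω
  · have hs : u (-x) = u x := by
      have := h.symm (LinearIsometryEquiv.neg ℝ) (fun y => by
        constructor
        · intro hy
          have := hneg _ hy
          simpa using this
        · intro hy
          have := hneg _ hy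
          simpa using this) x
      simpa using this
    have hc := h.conc.2 hx (hneg x hx) (by norm_num : (0:ℝ) ≤ 1 / 2) (by norm_num : (0:ℝ) ≤ 1 / 2)
      (by norm_num)
    have e : (1 / 2 : ℝ) • x + (1 / 2 : ℝ) • (-x) = 0 := by
      rw [smul_neg, add_neg_cancel]
    simp only [e, hs, smul_eq_mul] at hc
    have hc' : Real.log (u x) ≤ Real.log (u 0) := by linarith
    exact (Real.log_le_log_iff (h.pos x hx) (h.pos 0 h0)).mp hc'
  · rw [h.zero x hx]; exact (h.pos 0 h0).le

end scale

section dom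

variable {w k : ℝ} {u : E 8 → ℝ} {lam : ℝ}

lemma r2_neg (p : E 8) : r2 (-p) = r2 p := by unfold r2; simp

lemma V_neg (w : ℝ) (p : E 8) : V w (-p) = V w p := by
  unfold V
  rw [r2_neg]
  unfold AA
  simp

lemma hh_neg (w k : ℝ) (p : E 8) : hh w k (-p) = hh w k p := by unfold hh; rw [V_neg]

lemma Om_neg {p : E 8} (hp : p ∈ Om w k) : -p ∈ Om w k := by
  obtain ⟨h1, h2⟩ := hp
  refine ⟨?_, ?_⟩
  · simpa using h1
  · rw [hh_neg]; simpa using h2

/-- use of the frozen statement -/
lemma frozen_apply {C : ℝ} (hF : FrozenFor C) (hg : Geom w k) (h : Ground (Om w k) u lam)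
    (hc : Calc (Om w k) u lam) (hnorm : ∫ x, u x ^ 2 = 1) (hmax : ∀ x, u x ≤ u 0) (i : Fin 8)
    {p : E 8} (hp : p ∈ Om w k) (hup : u 0 / 2 < u p) :
    C⁻¹ * sig i u p ≤ sig i u 0 ∧ sig i u 0 ≤ C * sig i u p := by
  have h1 := hF (Om w k) u lam hg.isOpen hg.convex hg.bounded ⟨0, hg.zero_mem⟩ h.smooth
    h.cont.continuousOn (fun x hx => h.zero x (fun hx' => by
      rw [frontier, hg.isOpen.interior_eq] at hx
      exact hx.2 hx')) h.pos h.eq (by rw [h.sq_set]; exact hnorm) 0 hg.zero_mem
      (fun q _ => hmax q) p hp hup (ee i)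
  rw [hc.hess i p hp, hc.hess i 0 hg.zero_mem] at h1
  exact h1

/-- the lower bounds for the energies -/
lemma energy_lower (hw : 0 < w) (hg : Geom w k) (hl : Lower w k) (h : Ground (Om w k) u lam)
    (hc : Calc (Om w k) u lam) (hnorm : ∫ x, u x ^ 2 = 1) :
    k ^ 2 ≤ ∫ x in Om w k, pd 7 u x ^ 2 ∧
    k ^ 2 + 6 ≤ (∫ x in Om w k, pd 7 u x ^ 2) + ∑ i ∈ yI, ∫ x in Om w k, pd i u x ^ 2 := by
  set A : ℝ := ∫ x, u x with hA
  have hu0 := h.nonnegF
  have hui : Integrable u := h.cont.integrable_of_hasCompactSupport (h.cptF hg.bounded)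
  have husq : Integrable (fun x => u x ^ 2) :=
    (h.cont.pow 2).integrable_of_hasCompactSupport
      (HasCompactSupport.intro hg.bounded.isCompact_closure (fun y hy => by
        change u y ^ 2 = 0
        rw [h.zero y fun hx' => hy (subset_closure hx')]; norm_num))
  have key : ∀ η : ℝ, 0 < η →
      k ^ 2 * (1 - 4 * η * A) ≤ ∫ x in Om w k, pd 7 u x ^ 2 ∧
      (k ^ 2 + 6) * (1 - 4 * η * A) ≤
        (∫ x in Om w k, pd 7 u x ^ 2) + ∑ i ∈ yI, ∫ x in Om w k, pd i u x ^ 2 := by
    intro η hη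
    set f : E 8 → ℝ := fun x => FF η (u x) with hf
    have hT : Test1 (Om w k) f := hc.trunc η hη
    -- (a)
    have ha : ∀ i : Fin 8, ∫ x, pd i f x ^ 2 ≤ ∫ x in Om w k, pd i u x ^ 2 := by
      intro i
      have e1 : ∫ x, pd i f x ^ 2 = ∫ x in Om w k, pd i f x ^ 2 :=
        (setIntegral_eq_integral_of_forall_compl_eq_zero fun x hx => by
          rw [hT.pdz hx]; norm_num).symm
      rw [e1]
      apply integral_mono_of_nonneg (ae_of_all _ fun x => sq_nonneg _) (hc.grad_int i)
      refine ae_of_all _ fun x => ?_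
      change pd i f x ^ 2 ≤ pd i u x ^ 2
      rw [hc.trunc_pd η hη i x, mul_pow]
      have h1 := FF'_nonneg hη (u x)
      have h2 := FF'_le_one (η := η) (u x)
      have h3 : FF' η (u x) ^ 2 ≤ 1 := by nlinarith
      nlinarith [sq_nonneg (pd i u x)]
    -- (b)
    have hfc : Continuous f := hT.continuous
    have hfsq : Integrable (fun x => f x ^ 2) := by
      apply (hfc.pow 2).integrable_of_hasCompactSupport
      refine HasCompactSupport.intro hT.cpt (fun x hx => ?_)
      change f x ^ 2 = 0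
      rw [image_eq_zero_of_notMem_tsupport hx]; norm_num
    have hb : 1 - 4 * η * A ≤ ∫ x, f x ^ 2 := by
      have e1 : 1 - 4 * η * A = ∫ x, (u x ^ 2 - 4 * η * u x) := by
        rw [integral_sub husq (hui.const_mul _), integral_const_mul, hnorm]
      rw [e1]
      apply integral_mono (husq.sub (hui.const_mul _)) hfsq
      intro x
      change u x ^ 2 - 4 * η * u x ≤ f x ^ 2
      have h1 := le_FF (s := u x) hη
      have h2 := FF_nonneg hη (u x)
      have h3 := hu0 x
      simp only [hf]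
      by_cases h4 : 2 * η ≤ u x
      · nlinarith
      · push Not at h4
        nlinarith [sq_nonneg (FF η (u x))]
    -- (c)
    have hc1 : ∫ x, kap w k x ^ 2 * f x ^ 2 ≤ ∫ x, pd 7 f x ^ 2 := by
      rw [hl.dz f hT]
      have : 0 ≤ ∫ x, Real.cos (kap w k x * x 7) ^ 2 *
        pd 7 (fun y => f y / Real.cos (kap w k y * y 7)) x ^ 2 :=
        integral_nonneg fun x => by positivity
      linarith
    -- (d)
    have hkapc : ContinuousOn (kap w k) (Om w k) :=
      (contDiffOn_kap hw (m := 0)).continuousOn.mono fun p hp => hg.hh_pos p hp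
    have hki : Integrable (fun x => kap w k x ^ 2 * f x ^ 2) := by
      have h1 : IntegrableOn (fun x => kap w k x ^ 2 * f x ^ 2) (Om w k) :=
        integrableOn_of_off hg.isOpen ((hkapc.pow 2).mul (hfc.pow 2).continuousOn) hT.cpt hT.sub
          (fun x _ hx => by rw [image_eq_zero_of_notMem_tsupport hx]; ring)
      refine (integrableOn_iff_integrable_of_support_subset ?_).mp h1
      intro x hx
      by_contra hx'
      apply hx
      change kap w k x ^ 2 * f x ^ 2 = 0
      rw [hT.eqz hx']; ring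
    have hr2i : Integrable (fun x => r2 x * f x ^ 2) := by
      apply ((contDiff_r2 (m := 0)).continuous.mul (hfc.pow 2)).integrable_of_hasCompactSupport
      refine HasCompactSupport.intro hT.cpt (fun x hx => ?_)
      change r2 x * f x ^ 2 = 0
      rw [image_eq_zero_of_notMem_tsupport hx]; ring
    have hd : k ^ 2 * (∫ x, f x ^ 2) + ∫ x, r2 x * f x ^ 2 ≤ ∫ x, kap w k x ^ 2 * f x ^ 2 := by
      rw [← integral_const_mul, ← integral_add (hfsq.const_mul _) hr2i]
      apply integral_mono ((hfsq.const_mul _).add hr2i) hki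
      intro x
      change k ^ 2 * f x ^ 2 + r2 x * f x ^ 2 ≤ kap w k x ^ 2 * f x ^ 2
      by_cases hx : x ∈ Om w k
      · have := hl.kap_ge x hx
        nlinarith [sq_nonneg (f x)]
      · rw [hT.eqz hx]; simp
    have hr2n : 0 ≤ ∫ x, r2 x * f x ^ 2 :=
      integral_nonneg fun x => mul_nonneg (r2_nn x) (sq_nonneg _)
    have hy := hl.dy f hT
    have h7 := ha 7
    constructor
    · have : k ^ 2 * (1 - 4 * η * A) ≤ k ^ 2 * ∫ x, f x ^ 2 :=
        mul_le_mul_of_nonneg_left hb (sq_nonneg k)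
      linarith
    · have h8 : ∑ i ∈ yI, ∫ x, pd i f x ^ 2 ≤ ∑ i ∈ yI, ∫ x in Om w k, pd i u x ^ 2 :=
        Finset.sum_le_sum fun i _ => ha i
      have : (k ^ 2 + 6) * (1 - 4 * η * A) ≤ (k ^ 2 + 6) * ∫ x, f x ^ 2 :=
        mul_le_mul_of_nonneg_left hb (by positivity)
      linarith
  have lim : ∀ a : ℝ, Tendsto (fun η : ℝ => a * (1 - 4 * η * A)) (𝓝[>] 0) (𝓝 a) := by
    intro a
    have : Tendsto (fun η : ℝ => a * (1 - 4 * η * A)) (𝓝 0) (𝓝 (a * (1 - 4 * 0 * A))) :=
      (by fun_prop : Continuous fun η : ℝ => a * (1 - 4 * η * A)).tendsto 0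
    have e : a * (1 - 4 * 0 * A) = a := by ring
    rw [e] at this
    exact this.mono_left nhdsWithin_le_nhds
  constructor
  · apply le_of_tendsto (lim (k ^ 2))
    filter_upwards [self_mem_nhdsWithin] with η hη using (key η hη).1
  · apply le_of_tendsto (lim (k ^ 2 + 6))
    filter_upwards [self_mem_nhdsWithin] with η hη using (key η hη).2

end dom

end Pool.Agent.GS8
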