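import Pool.Agent.GS8.FinalV

/-!
# JOB 10, part K: derivatives of `kap` and of `B (kap * z)` in direction `x = p 0`
-/

set_option autoImplicit false

open MeasureTheory Set Filter Topology
open scoped Real ContDiff

namespace Pool.Agent.GS8

section general

variable {n : ℕ} {i j : Fin n} {f g : E n → ℝ} {x : E n} {Ω : Set (E n)}

lemma diffAt_of_C1 (hΩ : IsOpen Ω) (hf : ContDiffOn ℝ 1 f Ω) (hx : x ∈ Ω) :
    DifferentiableAt ℝ f x :=
  (hf.differentiableOn (by norm_num)).differentiableAt (hΩ.mem_nhds hx)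

lemma C2_C1 (hf : ContDiffOn ℝ 2 f Ω) : ContDiffOn ℝ 1 f Ω := hf.of_le (by norm_num)

lemma C2_pd (hΩ : IsOpen Ω) (hf : ContDiffOn ℝ 2 f Ω) (i : Fin n) : ContDiffOn ℝ 1 (pd i f) Ω :=
  ContDiffOn.pd' hΩ hf (by norm_num) i

lemma C1_pd_cont (hΩ : IsOpen Ω) (hf : ContDiffOn ℝ 1 f Ω) (i : Fin n) : ContinuousOn (pd i f) Ω :=
  (ContDiffOn.pd' (m := 0) hΩ hf (by simp) i).continuousOn

lemma pd_mul_on (hΩ : IsOpen Ω) (hf : ContDiffOn ℝ 1 f Ω) (hg : ContDiffOn ℝ 1 g Ω) (i : Fin n) :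
    EqOn (pd i (fun y => f y * g y)) (fun y => pd i f y * g y + f y * pd i g y) Ω :=
  fun _ hx => pdmul (diffAt_of_C1 hΩ hf hx) (diffAt_of_C1 hΩ hg hx) i

lemma pd_pd_mul (hΩ : IsOpen Ω) (hf : ContDiffOn ℝ 2 f Ω) (hg : ContDiffOn ℝ 2 g Ω) (i : Fin n)
    (hx : x ∈ Ω) : pd i (pd i (fun y => f y * g y)) x =
      pd i (pd i f) x * g x + 2 * (pd i f x * pd i g x) + f x * pd i (pd i g) x := by
  rw [pd_eqOn hΩ (pd_mul_on hΩ (C2_C1 hf) (C2_C1 hg) i) i hx]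
  rw [pd_add (diffAt_of_C1 hΩ ((C2_pd hΩ hf i).mul (C2_C1 hg)) hx)
    (diffAt_of_C1 hΩ ((C2_C1 hf).mul (C2_pd hΩ hg i)) hx)]
  rw [pdmul (diffAt_of_C1 hΩ (C2_pd hΩ hf i) hx) (diffAt_of_C1 hΩ (C2_C1 hg) hx),
    pdmul (diffAt_of_C1 hΩ (C2_C1 hf) hx) (diffAt_of_C1 hΩ (C2_pd hΩ hg i) hx)]
  ring

end general

variable {w k : ℝ}

/-- the open set where `hh > 0` -/
def DD (w k : ℝ) : Set (E 8) := {p | 0 < hh w k p}

lemma contDiff_hh (hw : 0 < w) {m : WithTop ℕ∞} : ContDiff ℝ m (hh w k) :=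
  contDiff_const.sub ((contDiff_V hw).div_const _)

lemma isOpen_DD (hw : 0 < w) : IsOpen (DD w k) :=
  isOpen_lt continuous_const (contDiff_hh hw (m := 0)).continuous

lemma contDiffOn_kap (hw : 0 < w) {m : WithTop ℕ∞} : ContDiffOn ℝ m (kap w k) (DD w k) :=
  contDiffOn_const.div (contDiff_hh hw).contDiffOn fun _ hp => ne_of_gt hp

lemma pd_hh (hw : 0 < w) (p : E 8) : pd 0 (hh w k) p = -(v1 w (p 0) (r2 p) / (2 * k ^ 2)) := by
  have hd : DifferentiableAt ℝ (V w) p := (contDiff_V hw (m := 1)).differentiable (by norm_num) p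
  have : pd 0 (hh w k) p = pd 0 (fun y => 1 - V w y / (2 * k ^ 2)) p := rfl
  have hd' : DifferentiableAt ℝ (fun y => V w y / (2 * k ^ 2)) p := by
    simp only [div_eq_mul_inv]; exact hd.mul_const _
  rw [this, pd_sub (differentiableAt_const _) hd', pd_const]
  have h2 : pd 0 (fun y => V w y / (2 * k ^ 2)) p = (2 * k ^ 2)⁻¹ * pd 0 (V w) p := by
    rw [← pd_const_mul _ hd]; congr 1; funext y; rw [div_eq_inv_mul]
  rw [h2, pd_V hw]; ring

lemma pd_kap (hw : 0 < w) (hk : 0 < k) {p : E 8} (hp : p ∈ DD w k) :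
    pd 0 (kap w k) p = v1 w (p 0) (r2 p) / (2 * k * hh w k p ^ 2) := by
  have hd : DifferentiableAt ℝ (hh w k) p := (contDiff_hh hw (m := 1)).differentiable (by norm_num) p
  have hp' : hh w k p ≠ 0 := ne_of_gt hp
  have h1 : HasDerivAt (fun s : ℝ => k / s) (-(k / hh w k p ^ 2)) (hh w k p) := by
    have := (hasDerivAt_inv hp').const_mul k
    convert! this using 1
    field_simp
  have := pd_comp (f := hh w k) (φ := fun s => k / s) h1 hd 0
  have h2 : pd 0 (kap w k) p = pd 0 (fun y => k / hh w k y) p := rfl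
  rw [h2, this, pd_hh hw]
  field_simp

lemma pd_pd_kap (hw : 0 < w) (hk : 0 < k) {p : E 8} (hp : p ∈ DD w k) :
    pd 0 (pd 0 (kap w k)) p = v2 w (p 0) (r2 p) / (2 * k * hh w k p ^ 2) +
      v1 w (p 0) (r2 p) ^ 2 / (2 * k ^ 3 * hh w k p ^ 3) := by
  have hd : DifferentiableAt ℝ (hh w k) p := (contDiff_hh hw (m := 1)).differentiable (by norm_num) p
  have hp' : hh w k p ≠ 0 := ne_of_gt hp
  have hD := isOpen_DD (k := k) hw
  have h1 : EqOn (pd 0 (kap w k)) (fun q => pd 0 (V w) q * (1 / (2 * k * hh w k q ^ 2))) (DD w k) := by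
    intro q hq
    change pd 0 (kap w k) q = pd 0 (V w) q * (1 / (2 * k * hh w k q ^ 2))
    rw [pd_kap hw hk hq, pd_V hw]; ring
  rw [pd_eqOn hD h1 0 hp]
  have hd1 : DifferentiableAt ℝ (pd 0 (V w)) p := (contDiff_pdV hw).differentiable (by norm_num) p
  have h2 : HasDerivAt (fun s : ℝ => 1 / (2 * k * s ^ 2)) (-(1 / (k * hh w k p ^ 3))) (hh w k p) := by
    have h3 : HasDerivAt (fun s : ℝ => 2 * k * s ^ 2) (2 * k * (2 * hh w k p)) (hh w k p) := by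
      simpa using (hasDerivAt_pow 2 (hh w k p)).const_mul (2 * k)
    have h4 := h3.inv (by positivity)
    convert! h4 using 1
    · funext s; simp [one_div]
    · field_simp
  have hd2 : DifferentiableAt ℝ (fun q => 1 / (2 * k * hh w k q ^ 2)) p :=
    h2.differentiableAt.comp p hd
  rw [pdmul hd1 hd2, pd_pd_V hw, pd_V hw,
    pd_comp (f := hh w k) (φ := fun s => 1 / (2 * k * s ^ 2)) h2 hd 0, pd_hh hw]
  field_simp

lemma abs_pd_kap_le (hw : 0 < w) (hw1 : w ≤ 1 / 4) (hk : 1 ≤ k) {p : E 8}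
    (hp : 1 / 2 ≤ hh w k p) : |pd 0 (kap w k) p| ≤ 2 / k := by
  have hpD : p ∈ DD w k := lt_of_lt_of_le (by norm_num) hp
  rw [pd_kap hw (by linarith) hpD]
  have h1 := abs_v1_le hw (p 0) (r2 p)
  have h6 : w ^ 6 ≤ 1 := by
    calc w ^ 6 ≤ (1/4:ℝ) ^ 6 := pow_le_pow_left₀ hw.le hw1 6
      _ ≤ 1 := by norm_num
  have h2 : (1/2:ℝ) ^ 2 ≤ hh w k p ^ 2 := pow_le_pow_left₀ (by norm_num) hp 2
  rw [abs_div, abs_of_pos (show 0 < 2 * k * hh w k p ^ 2 by positivity), div_le_div_iff₀ (by positivity) (by linarith)]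
  nlinarith [abs_nonneg (v1 w (p 0) (r2 p))]

lemma abs_pd_pd_kap_le (hw : 0 < w) (hw1 : w ≤ 1 / 4) (hk : 1 ≤ k) {p : E 8}
    (hp : 1 / 2 ≤ hh w k p) : |pd 0 (pd 0 (kap w k)) p| ≤ 6 / k := by
  have hpD : p ∈ DD w k := lt_of_lt_of_le (by norm_num) hp
  have hk0 : 0 < k := by linarith
  rw [pd_pd_kap hw hk0 hpD]
  have h1 := abs_v1_le hw (p 0) (r2 p)
  have h1' := abs_v2_le hw hw1 (p 0) (r2 p)
  have h6 : w ^ 6 ≤ 1 := by
    calc w ^ 6 ≤ (1/4:ℝ) ^ 6 := pow_le_pow_left₀ hw.le hw1 6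
      _ ≤ 1 := by norm_num
  have h2 : (1/2:ℝ) ^ 2 ≤ hh w k p ^ 2 := pow_le_pow_left₀ (by norm_num) hp 2
  have h3 : (1/2:ℝ) ^ 3 ≤ hh w k p ^ 3 := pow_le_pow_left₀ (by norm_num) hp 3
  have a1 : |v2 w (p 0) (r2 p) / (2 * k * hh w k p ^ 2)| ≤ 2 / k := by
    rw [abs_div, abs_of_pos (show 0 < 2 * k * hh w k p ^ 2 by positivity), div_le_div_iff₀ (by positivity) (by linarith)]
    nlinarith [abs_nonneg (v2 w (p 0) (r2 p))]
  have a2 : |v1 w (p 0) (r2 p) ^ 2 / (2 * k ^ 3 * hh w k p ^ 3)| ≤ 4 / k := by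
    rw [abs_div, abs_of_pos (show 0 < 2 * k ^ 3 * hh w k p ^ 3 by positivity), abs_pow, div_le_div_iff₀ (by positivity) (by linarith)]
    have b1 : |v1 w (p 0) (r2 p)| ^ 2 ≤ 1 := by
      have : |v1 w (p 0) (r2 p)| ≤ 1 := h1.trans h6
      nlinarith [abs_nonneg (v1 w (p 0) (r2 p))]
    have b2 : k ≤ k ^ 3 := by nlinarith [sq_nonneg (k - 1), mul_pos hk0 hk0]
    have b3 : 2 * k ^ 3 * (1/2:ℝ) ^ 3 ≤ 2 * k ^ 3 * hh w k p ^ 3 := by gcongr
    calc |v1 w (p 0) (r2 p)| ^ 2 * k ≤ 1 * k ^ 3 := by gcongr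
      _ = 4 * (2 * k ^ 3 * (1/2:ℝ) ^ 3) := by ring
      _ ≤ _ := by gcongr
  calc _ ≤ 2 / k + 4 / k := (abs_add_le _ _).trans (add_le_add a1 a2)
    _ = 6 / k := by ring

/-! ## The window function `B (kap * p 7)` -/

lemma pd_zero_seven (p : E 8) : pd 0 (fun q : E 8 => q 7) p = 0 := by
  rw [pd_coord]; simp

/-- `kap * z` -/
noncomputable def kz (w k : ℝ) (p : E 8) : ℝ := kap w k p * p 7

lemma contDiffOn_kz (hw : 0 < w) {m : WithTop ℕ∞} : ContDiffOn ℝ m (kz w k) (DD w k) :=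
  (contDiffOn_kap hw).mul (cd_coord 7).contDiffOn

lemma pd_kz (hw : 0 < w) {p : E 8} (hp : p ∈ DD w k) :
    pd 0 (kz w k) p = pd 0 (kap w k) p * p 7 := by
  have hD := isOpen_DD (k := k) hw
  have : pd 0 (kz w k) p = pd 0 (fun y => kap w k y * y 7) p := rfl
  rw [this, pdmul (diffAt_of_C1 hD (contDiffOn_kap hw) hp) (differentiableAt_coord 7 p),
    pd_zero_seven]
  ring

lemma pd_pd_kz (hw : 0 < w) {p : E 8} (hp : p ∈ DD w k) :
    pd 0 (pd 0 (kz w k)) p = pd 0 (pd 0 (kap w k)) p * p 7 := by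
  have hD := isOpen_DD (k := k) hw
  rw [pd_eqOn hD (g := fun y => pd 0 (kap w k) y * y 7) (fun q hq => pd_kz hw hq) 0 hp]
  rw [pdmul (diffAt_of_C1 hD (C2_pd hD (contDiffOn_kap hw) 0) hp) (differentiableAt_coord 7 p),
    pd_zero_seven]
  ring

variable {B : ℝ → ℝ}

lemma contDiffOn_Bkz (hw : 0 < w) (hB : ContDiff ℝ 2 B) :
    ContDiffOn ℝ 2 (fun p => B (kz w k p)) (DD w k) :=
  hB.comp_contDiffOn (contDiffOn_kz hw)

lemma pd_Bkz (hw : 0 < w) (hB : ContDiff ℝ 2 B) {p : E 8} (hp : p ∈ DD w k) :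
    pd 0 (fun q => B (kz w k q)) p = deriv B (kz w k p) * (pd 0 (kap w k) p * p 7) := by
  have hD := isOpen_DD (k := k) hw
  have h1 : HasDerivAt B (deriv B (kz w k p)) (kz w k p) :=
    ((hB.differentiable (by norm_num)) _).hasDerivAt
  rw [pd_comp h1 (diffAt_of_C1 hD (contDiffOn_kz hw) hp), pd_kz hw hp]

lemma pd_pd_Bkz (hw : 0 < w) (hB : ContDiff ℝ 2 B) {p : E 8} (hp : p ∈ DD w k) :
    pd 0 (pd 0 (fun q => B (kz w k q))) p =
      deriv (deriv B) (kz w k p) * (pd 0 (kap w k) p * p 7) ^ 2 +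
        deriv B (kz w k p) * (pd 0 (pd 0 (kap w k)) p * p 7) := by
  have hD := isOpen_DD (k := k) hw
  have hB1 : ContDiff ℝ 1 (deriv B) := by
    have : ContDiff ℝ (1 + 1) B := by norm_num; exact hB
    exact (contDiff_succ_iff_deriv.mp this).2.2
  have h0 : EqOn (pd 0 (fun q => B (kz w k q))) (fun q => deriv B (kz w k q) * pd 0 (kz w k) q)
      (DD w k) := by
    intro q hq
    change pd 0 (fun q => B (kz w k q)) q = deriv B (kz w k q) * pd 0 (kz w k) q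
    rw [pd_Bkz hw hB hq, pd_kz hw hq]
  rw [pd_eqOn hD h0 0 hp]
  have h1 : HasDerivAt (deriv B) (deriv (deriv B) (kz w k p)) (kz w k p) :=
    ((hB1.differentiable (by norm_num)) _).hasDerivAt
  have hd1 : DifferentiableAt ℝ (fun q => deriv B (kz w k q)) p :=
    h1.differentiableAt.comp p (diffAt_of_C1 hD (contDiffOn_kz hw) hp)
  rw [pdmul hd1 (diffAt_of_C1 hD (C2_pd hD (contDiffOn_kz hw) 0) hp),
    pd_comp h1 (diffAt_of_C1 hD (contDiffOn_kz hw) hp), pd_kz hw hp, pd_pd_kz hw hp]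
  ring

/-- bounds for a window function and its two derivatives -/
structure BBound (B : ℝ → ℝ) (b : ℝ) : Prop where
  b0 : ∀ θ, |B θ| ≤ b
  b1 : ∀ θ, |deriv B θ| ≤ b
  b2 : ∀ θ, |deriv (deriv B) θ| ≤ b

lemma exists_BBound {β : ℝ} (hB : ContDiff ℝ 2 B) (h0 : ∀ θ, β ≤ |θ| → B θ = 0) :
    ∃ b, 0 < b ∧ BBound B b := by
  have hB1 : ContDiff ℝ 1 (deriv B) := by
    have : ContDiff ℝ (1 + 1) B := by norm_num; exact hB
    exact (contDiff_succ_iff_deriv.mp this).2.2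
  have hB2 : Continuous (deriv (deriv B)) := hB1.continuous_deriv (by norm_num)
  have hc : HasCompactSupport B := by
    refine HasCompactSupport.intro (K := Icc (-β) β) isCompact_Icc ?_
    intro θ hθ
    apply h0
    by_contra hlt
    push Not at hlt
    exact hθ ⟨(abs_lt.mp hlt).1.le, (abs_lt.mp hlt).2.le⟩
  have hc1 : HasCompactSupport (deriv B) := hc.deriv
  have hc2 : HasCompactSupport (deriv (deriv B)) := hc1.deriv
  obtain ⟨c0, h0'⟩ := hc.exists_bound_of_continuous hB.continuous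
  obtain ⟨c1, h1'⟩ := hc1.exists_bound_of_continuous hB1.continuous
  obtain ⟨c2, h2'⟩ := hc2.exists_bound_of_continuous hB2
  refine ⟨|c0| + |c1| + |c2| + 1, by positivity, ?_, ?_, ?_⟩
  · intro θ
    have := h0' θ; rw [Real.norm_eq_abs] at this
    linarith [le_abs_self c0, abs_nonneg c1, abs_nonneg c2]
  · intro θ
    have := h1' θ; rw [Real.norm_eq_abs] at this
    linarith [le_abs_self c1, abs_nonneg c0, abs_nonneg c2]
  · intro θ
    have := h2' θ; rw [Real.norm_eq_abs] at this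
    linarith [le_abs_self c2, abs_nonneg c1, abs_nonneg c0]

lemma abs_pd_Bkz_le (hw : 0 < w) (hw1 : w ≤ 1 / 4) (hk : 1 ≤ k) (hB : ContDiff ℝ 2 B) {b : ℝ}
    (hb0 : 0 < b) (hb : BBound B b) {p : E 8} (hp : 1 / 2 ≤ hh w k p) (h7 : |p 7| ≤ 1 / k) :
    |pd 0 (fun q => B (kz w k q)) p| ≤ 2 * b / k ^ 2 := by
  have hpD : p ∈ DD w k := lt_of_lt_of_le (by norm_num) hp
  rw [pd_Bkz hw hB hpD, abs_mul, abs_mul]
  have h1 := abs_pd_kap_le hw hw1 hk hp
  have h2 := hb.b1 (kz w k p)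
  have hk0 : 0 < k := by linarith
  calc _ ≤ b * (2 / k * (1 / k)) := by gcongr
    _ = 2 * b / k ^ 2 := by field_simp

lemma abs_pd_pd_Bkz_le (hw : 0 < w) (hw1 : w ≤ 1 / 4) (hk : 1 ≤ k) (hB : ContDiff ℝ 2 B) {b : ℝ}
    (hb0 : 0 < b) (hb : BBound B b) {p : E 8} (hp : 1 / 2 ≤ hh w k p) (h7 : |p 7| ≤ 1 / k) :
    |pd 0 (pd 0 (fun q => B (kz w k q))) p| ≤ 10 * b / k ^ 2 := by
  have hpD : p ∈ DD w k := lt_of_lt_of_le (by norm_num) hp
  have hk0 : 0 < k := by linarith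
  rw [pd_pd_Bkz hw hB hpD]
  have h1 := abs_pd_kap_le hw hw1 hk hp
  have h1' := abs_pd_pd_kap_le hw hw1 hk hp
  have h2 := hb.b1 (kz w k p)
  have h3 := hb.b2 (kz w k p)
  have a1 : |deriv (deriv B) (kz w k p) * (pd 0 (kap w k) p * p 7) ^ 2| ≤ b * (4 / k ^ 2) := by
    rw [abs_mul, abs_pow, abs_mul]
    have : |pd 0 (kap w k) p| * |p 7| ≤ 2 / k * (1 / k) := by gcongr
    have h4 : (|pd 0 (kap w k) p| * |p 7|) ^ 2 ≤ (2 / k * (1 / k)) ^ 2 :=
      pow_le_pow_left₀ (by positivity) this 2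
    have h5 : (2 / k * (1 / k)) ^ 2 ≤ 4 / k ^ 2 := by
      rw [div_mul_div_comm, div_pow, div_le_div_iff₀ (by positivity) (by positivity)]
      have : k ^ 2 ≤ (k * k) ^ 2 := by
        have : 1 ≤ k ^ 2 := by nlinarith
        nlinarith
      nlinarith
    gcongr
    exact h4.trans h5
  have a2 : |deriv B (kz w k p) * (pd 0 (pd 0 (kap w k)) p * p 7)| ≤ b * (6 / k ^ 2) := by
    rw [abs_mul, abs_mul]
    have : |pd 0 (pd 0 (kap w k)) p| * |p 7| ≤ 6 / k * (1 / k) := by gcongr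
    calc _ ≤ b * (6 / k * (1 / k)) := by gcongr
      _ = b * (6 / k ^ 2) := by field_simp
  calc _ ≤ b * (4 / k ^ 2) + b * (6 / k ^ 2) := (abs_add_le _ _).trans (add_le_add a1 a2)
    _ = 10 * b / k ^ 2 := by ring

end Pool.Agent.GS8
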