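import Pool.Agent.GS8.Basic

/-!
# JOB 10, part V: derivatives of `V`, `kap` and `B (kap * z)` in the direction `x = p 0`
-/

set_option autoImplicit false

open MeasureTheory Set Filter Topology
open scoped Real ContDiff

namespace Pool.Agent.GS8

/-! ## One variable functions -/

lemma sq_add_pos {w x : ℝ} (hw : 0 < w) : 0 < x ^ 2 + w ^ 2 := by positivity

/-- `AA' ` -/
noncomputable def AA1 (w x : ℝ) : ℝ := w ^ 6 * (x / Real.sqrt (x ^ 2 + w ^ 2))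

/-- `AA''` -/
noncomputable def AA2 (w x : ℝ) : ℝ := w ^ 6 * (w ^ 2 / (Real.sqrt (x ^ 2 + w ^ 2) ^ 3))

lemma hasDerivAt_sqrt_sq {w : ℝ} (hw : 0 < w) (x : ℝ) :
    HasDerivAt (fun x : ℝ => Real.sqrt (x ^ 2 + w ^ 2)) (x / Real.sqrt (x ^ 2 + w ^ 2)) x := by
  have h1 : HasDerivAt (fun x : ℝ => x ^ 2 + w ^ 2) (2 * x) x := by
    simpa using (hasDerivAt_pow 2 x).add_const (w ^ 2)
  have h2 := h1.sqrt (sq_add_pos hw).ne'
  convert! h2 using 1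
  field_simp

lemma hasDerivAt_AA {w : ℝ} (hw : 0 < w) (x : ℝ) : HasDerivAt (AA w) (AA1 w x) x := by
  have := ((hasDerivAt_sqrt_sq hw x).const_mul (w ^ 6)).const_add (w ^ 2)
  exact this

lemma hasDerivAt_AA1 {w : ℝ} (hw : 0 < w) (x : ℝ) : HasDerivAt (AA1 w) (AA2 w x) x := by
  have hs : 0 < Real.sqrt (x ^ 2 + w ^ 2) := Real.sqrt_pos.mpr (sq_add_pos hw)
  have h := ((hasDerivAt_id x).div (hasDerivAt_sqrt_sq hw x) hs.ne').const_mul (w ^ 6)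
  have h3 : Real.sqrt (x ^ 2 + w ^ 2) ^ 2 = x ^ 2 + w ^ 2 := Real.sq_sqrt (sq_add_pos hw).le
  have : AA2 w x = w ^ 6 * ((1 * Real.sqrt (x ^ 2 + w ^ 2) - id x * (x / Real.sqrt (x ^ 2 + w ^ 2))) /
      Real.sqrt (x ^ 2 + w ^ 2) ^ 2) := by
    unfold AA2
    congr 1
    rw [id, div_eq_div_iff (by positivity) (by positivity)]
    field_simp
    rw [h3]; ring
  rw [this]
  exact h

/-- `∂_x V` as a function of `x` and `r = r2` -/
noncomputable def v1 (w x r : ℝ) : ℝ :=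
  AA1 w x * (1 + (AA w x - r) / Real.sqrt ((AA w x - r) ^ 2 + (w ^ 8) ^ 2)) / 2

noncomputable def v2 (w x r : ℝ) : ℝ :=
  (AA2 w x * (1 + (AA w x - r) / Real.sqrt ((AA w x - r) ^ 2 + (w ^ 8) ^ 2)) +
    AA1 w x ^ 2 * ((w ^ 8) ^ 2 / Real.sqrt ((AA w x - r) ^ 2 + (w ^ 8) ^ 2) ^ 3)) / 2

noncomputable def vv (w x r : ℝ) : ℝ :=
  (AA w x + r + Real.sqrt ((AA w x - r) ^ 2 + (w ^ 8) ^ 2)) / 2

lemma V_eqv (w : ℝ) (p : E 8) : V w p = vv w (p 0) (r2 p) := by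
  unfold V vv; rw [← pow_mul]

lemma hasDerivAt_vv {w : ℝ} (hw : 0 < w) (x r : ℝ) :
    HasDerivAt (fun x => vv w x r) (v1 w x r) x := by
  have h1 : HasDerivAt (fun x => AA w x - r) (AA1 w x) x := (hasDerivAt_AA hw x).sub_const r
  have h2 := (hasDerivAt_sqrt_sq (w := w ^ 8) (by positivity) (AA w x - r)).comp x h1
  have h3 := (((hasDerivAt_AA hw x).add_const r).add h2).div_const 2
  convert! h3 using 1
  unfold v1; ring

lemma hasDerivAt_v1 {w : ℝ} (hw : 0 < w) (x r : ℝ) :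
    HasDerivAt (fun x => v1 w x r) (v2 w x r) x := by
  have h1 : HasDerivAt (fun x => AA w x - r) (AA1 w x) x := (hasDerivAt_AA hw x).sub_const r
  have hs : 0 < Real.sqrt ((AA w x - r) ^ 2 + (w ^ 8) ^ 2) :=
    Real.sqrt_pos.mpr (sq_add_pos (by positivity))
  have h3 : Real.sqrt ((AA w x - r) ^ 2 + (w ^ 8) ^ 2) ^ 2 = (AA w x - r) ^ 2 + (w ^ 8) ^ 2 :=
    Real.sq_sqrt (sq_add_pos (by positivity)).le
  have h2 := (hasDerivAt_sqrt_sq (w := w ^ 8) (by positivity) (AA w x - r)).comp x h1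
  have h4 := (h1.div h2 hs.ne').const_add 1
  have h5 := ((hasDerivAt_AA1 hw x).mul h4).div_const 2
  convert! h5 using 1
  unfold v2
  simp only [Function.comp, Pi.div_apply]
  congr 1
  congr 1
  set q := Real.sqrt ((AA w x - r) ^ 2 + (w ^ 8) ^ 2) with hq
  have : (w ^ 8) ^ 2 = q ^ 2 - (AA w x - r) ^ 2 := by rw [h3]; ring
  rw [this]
  field_simp

/-! ## Bounds -/

lemma abs_div_sqrt_le {w x : ℝ} (hw : 0 < w) : |x / Real.sqrt (x ^ 2 + w ^ 2)| ≤ 1 := by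
  have hs : 0 < Real.sqrt (x ^ 2 + w ^ 2) := Real.sqrt_pos.mpr (sq_add_pos hw)
  rw [abs_div, abs_of_pos hs, div_le_one hs]
  apply Real.le_sqrt_of_sq_le
  rw [sq_abs]; nlinarith [sq_nonneg w]

lemma abs_AA1_le {w : ℝ} (hw : 0 < w) (x : ℝ) : |AA1 w x| ≤ w ^ 6 := by
  unfold AA1
  rw [abs_mul, abs_of_pos (by positivity : (0:ℝ) < w ^ 6)]
  have := abs_div_sqrt_le (x := x) hw
  nlinarith [pow_pos hw 6]

lemma AA2_nonneg {w : ℝ} (hw : 0 < w) (x : ℝ) : 0 ≤ AA2 w x := by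
  unfold AA2; positivity

lemma AA2_le {w : ℝ} (hw : 0 < w) (x : ℝ) : AA2 w x ≤ w ^ 5 := by
  have h1 : w ≤ Real.sqrt (x ^ 2 + w ^ 2) := by
    apply Real.le_sqrt_of_sq_le; nlinarith [sq_nonneg x]
  have h2 : w ^ 3 ≤ Real.sqrt (x ^ 2 + w ^ 2) ^ 3 := pow_le_pow_left₀ hw.le h1 3
  unfold AA2
  rw [← mul_div_assoc, div_le_iff₀ (by positivity)]
  calc w ^ 6 * w ^ 2 = w ^ 5 * w ^ 3 := by ring
    _ ≤ _ := by gcongr

lemma AA2_ge {w x : ℝ} (hw : 0 < w) (hx : |x| ≤ w / 3) : 2 / 3 * w ^ 5 ≤ AA2 w x := by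
  have h1 : Real.sqrt (x ^ 2 + w ^ 2) ≤ 11 / 10 * w := by
    rw [show (11 / 10 * w) = Real.sqrt ((11 / 10 * w) ^ 2) by
      rw [Real.sqrt_sq]; positivity]
    apply Real.sqrt_le_sqrt
    have : x ^ 2 ≤ (w / 3) ^ 2 := by rw [← sq_abs x]; exact pow_le_pow_left₀ (abs_nonneg _) hx 2
    nlinarith [sq_nonneg w]
  have h0 : 0 < Real.sqrt (x ^ 2 + w ^ 2) := Real.sqrt_pos.mpr (sq_add_pos hw)
  have h2 : Real.sqrt (x ^ 2 + w ^ 2) ^ 3 ≤ (11 / 10 * w) ^ 3 := pow_le_pow_left₀ h0.le h1 3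
  unfold AA2
  rw [← mul_div_assoc, le_div_iff₀ (by positivity)]
  calc 2 / 3 * w ^ 5 * Real.sqrt (x ^ 2 + w ^ 2) ^ 3 ≤ 2 / 3 * w ^ 5 * (11 / 10 * w) ^ 3 := by gcongr
    _ = (2 / 3 * (11 / 10) ^ 3) * (w ^ 6 * w ^ 2) := by ring
    _ ≤ 1 * (w ^ 6 * w ^ 2) := by gcongr; norm_num
    _ = _ := by ring

lemma abs_v1_le {w : ℝ} (hw : 0 < w) (x r : ℝ) : |v1 w x r| ≤ w ^ 6 := by
  have h1 := abs_div_sqrt_le (w := w ^ 8) (x := AA w x - r) (by positivity)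
  have h2 := abs_AA1_le hw x
  unfold v1
  rw [abs_div, abs_mul, abs_two]
  have h3 : |1 + (AA w x - r) / Real.sqrt ((AA w x - r) ^ 2 + (w ^ 8) ^ 2)| ≤ 2 :=
    (abs_add_le _ _).trans (by rw [abs_one]; linarith)
  have := mul_le_mul h2 h3 (abs_nonneg _) (by positivity)
  linarith

lemma abs_v2_le {w : ℝ} (hw : 0 < w) (hw1 : w ≤ 1 / 4) (x r : ℝ) : |v2 w x r| ≤ 1 := by
  have h1 := abs_div_sqrt_le (w := w ^ 8) (x := AA w x - r) (by positivity)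
  have h2 := abs_AA1_le hw x
  have h3 : |1 + (AA w x - r) / Real.sqrt ((AA w x - r) ^ 2 + (w ^ 8) ^ 2)| ≤ 2 :=
    (abs_add_le _ _).trans (by rw [abs_one]; linarith)
  have h4 := AA2_nonneg hw x
  have h5 := AA2_le hw x
  set q := Real.sqrt ((AA w x - r) ^ 2 + (w ^ 8) ^ 2) with hq
  have hq1 : w ^ 8 ≤ q := by
    apply Real.le_sqrt_of_sq_le; nlinarith [sq_nonneg (AA w x - r)]
  have hq0 : 0 < q := lt_of_lt_of_le (by positivity) hq1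
  have h6 : (w ^ 8) ^ 2 / q ^ 3 ≤ 1 / w ^ 8 := by
    rw [div_le_div_iff₀ (by positivity) (by positivity)]
    calc (w ^ 8) ^ 2 * w ^ 8 = (w ^ 8) ^ 3 := by ring
      _ ≤ q ^ 3 := pow_le_pow_left₀ (by positivity) hq1 3
      _ = 1 * q ^ 3 := by ring
  have h7 : AA1 w x ^ 2 ≤ (w ^ 6) ^ 2 := by
    rw [← sq_abs (AA1 w x)]; exact pow_le_pow_left₀ (abs_nonneg _) h2 2
  have h8 : AA1 w x ^ 2 * ((w ^ 8) ^ 2 / q ^ 3) ≤ w ^ 4 := by
    calc AA1 w x ^ 2 * ((w ^ 8) ^ 2 / q ^ 3) ≤ (w ^ 6) ^ 2 * (1 / w ^ 8) := by gcongr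
      _ = w ^ 4 := by field_simp
  have h9 : |AA2 w x * (1 + (AA w x - r) / q)| ≤ w ^ 5 * 2 := by
    rw [abs_mul, abs_of_nonneg h4]; gcongr
  unfold v2
  rw [abs_div, abs_two, div_le_iff₀ (by norm_num)]
  refine (abs_add_le _ _).trans ?_
  rw [abs_of_nonneg (by positivity : 0 ≤ AA1 w x ^ 2 * ((w ^ 8) ^ 2 / q ^ 3))]
  have h10 : w ^ 5 ≤ (1/4) ^ 5 := pow_le_pow_left₀ hw.le hw1 5
  have h11 : w ^ 4 ≤ (1/4) ^ 4 := pow_le_pow_left₀ hw.le hw1 4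
  norm_num at h10 h11
  linarith

lemma v2_ge {w x r : ℝ} (hw : 0 < w) (hx : |x| ≤ w / 3) (hr : r ≤ w ^ 2) :
    1 / 3 * w ^ 5 ≤ v2 w x r := by
  have h1 := AA2_ge hw hx
  have h2 : 0 ≤ AA w x - r := by
    unfold AA
    have : 0 ≤ w ^ 6 * Real.sqrt (x ^ 2 + w ^ 2) := by positivity
    linarith
  have h3 : 0 ≤ (AA w x - r) / Real.sqrt ((AA w x - r) ^ 2 + (w ^ 8) ^ 2) := by positivity
  have h4 : 0 ≤ AA1 w x ^ 2 * ((w ^ 8) ^ 2 / Real.sqrt ((AA w x - r) ^ 2 + (w ^ 8) ^ 2) ^ 3) := by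
    positivity
  have h5 : AA2 w x * 1 ≤ AA2 w x * (1 + (AA w x - r) / Real.sqrt ((AA w x - r) ^ 2 + (w ^ 8) ^ 2)) := by
    apply mul_le_mul_of_nonneg_left _ (AA2_nonneg hw x); linarith
  unfold v2
  linarith

lemma vv_nonneg {w : ℝ} (hw : 0 < w) (x : ℝ) {r : ℝ} (hr : 0 ≤ r) : 0 ≤ vv w x r := by
  unfold vv AA; positivity

lemma vv_le {w x r : ℝ} (hw : 0 < w) (hw1 : w ≤ 1 / 4) (hx : |x| ≤ 1) (hr0 : 0 ≤ r) (hr : r ≤ w ^ 2) :
    vv w x r ≤ 1 := by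
  have hs : Real.sqrt (x ^ 2 + w ^ 2) ≤ 2 := by
    rw [show (2:ℝ) = Real.sqrt (2 ^ 2) by rw [Real.sqrt_sq]; norm_num]
    apply Real.sqrt_le_sqrt
    have : x ^ 2 ≤ 1 := by rw [← sq_abs x]; nlinarith [abs_nonneg x]
    nlinarith
  have hA : AA w x ≤ 1 / 8 := by
    unfold AA
    have h2 : w ^ 2 ≤ (1/4) ^ 2 := pow_le_pow_left₀ hw.le hw1 2
    have h6 : w ^ 6 ≤ (1/4) ^ 6 := pow_le_pow_left₀ hw.le hw1 6
    have : w ^ 6 * Real.sqrt (x ^ 2 + w ^ 2) ≤ (1/4) ^ 6 * 2 := by gcongr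
    norm_num at h2 this ⊢
    linarith
  have hA0 : 0 ≤ AA w x := by unfold AA; positivity
  have h2 : w ^ 2 ≤ (1/4) ^ 2 := pow_le_pow_left₀ hw.le hw1 2
  have h8 : w ^ 8 ≤ (1/4) ^ 8 := pow_le_pow_left₀ hw.le hw1 8
  have hq : Real.sqrt ((AA w x - r) ^ 2 + (w ^ 8) ^ 2) ≤ 1 := by
    rw [show (1:ℝ) = Real.sqrt (1 ^ 2) by simp]
    apply Real.sqrt_le_sqrt
    have h3 : |AA w x - r| ≤ 1 / 4 := by
      rw [abs_le]; norm_num at h2; constructor <;> linarith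
    have h4 : (AA w x - r) ^ 2 ≤ (1/4) ^ 2 := by
      rw [← sq_abs]; exact pow_le_pow_left₀ (abs_nonneg _) h3 2
    have h5 : (w ^ 8) ^ 2 ≤ ((1/4) ^ 8) ^ 2 := pow_le_pow_left₀ (by positivity) h8 2
    norm_num at h4 h5 ⊢
    linarith
  unfold vv
  norm_num at h2
  linarith

/-! ## `V` on `E 8` -/

lemma contDiff_r2 {m : WithTop ℕ∞} : ContDiff ℝ m (r2 : E 8 → ℝ) := by
  unfold r2
  exact ContDiff.sum fun i _ => (cd_coord i).pow 2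

lemma r2_nn (p : E 8) : 0 ≤ r2 p := by
  unfold r2; exact Finset.sum_nonneg fun i _ => sq_nonneg _

lemma contDiff_sqrt_sq {w : ℝ} (hw : 0 < w) {m : WithTop ℕ∞} {f : E 8 → ℝ} (hf : ContDiff ℝ m f) :
    ContDiff ℝ m (fun p => Real.sqrt (f p ^ 2 + w ^ 2)) :=
  ((hf.pow 2).add contDiff_const).sqrt fun _ => (sq_add_pos hw).ne'

lemma contDiff_V {w : ℝ} (hw : 0 < w) {m : WithTop ℕ∞} : ContDiff ℝ m (V w) := by
  have h1 : ContDiff ℝ m (fun p : E 8 => AA w (p 0)) :=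
    contDiff_const.add (contDiff_const.mul (contDiff_sqrt_sq hw (cd_coord 0)))
  have h2 : ContDiff ℝ m (fun p : E 8 => Real.sqrt ((AA w (p 0) - r2 p) ^ 2 + (w ^ 8) ^ 2)) :=
    contDiff_sqrt_sq (by positivity) (h1.sub contDiff_r2)
  have : V w = fun p => (AA w (p 0) + r2 p + Real.sqrt ((AA w (p 0) - r2 p) ^ 2 + (w ^ 8) ^ 2)) / 2 := by
    funext p; rw [V_eqv]; rfl
  rw [this]
  exact ((h1.add contDiff_r2).add h2).div_const 2

lemma line_coord_zero (p : E 8) (t : ℝ) : (p + t • (ee 0 : E 8)) 0 = p 0 + t := by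
  simp

lemma line_coord_ne (p : E 8) (t : ℝ) {i : Fin 8} (hi : i ≠ 0) : (p + t • (ee 0 : E 8)) i = p i := by
  simp [hi]

lemma r2_line (p : E 8) (t : ℝ) : r2 (p + t • (ee 0 : E 8)) = r2 p := by
  unfold r2
  apply Finset.sum_congr rfl
  intro i hi
  rw [line_coord_ne]
  rintro rfl
  revert hi; decide

/-- computing `pd 0` from the restriction to the line -/
lemma pd_zero_eq {f : E 8 → ℝ} {p : E 8} (hf : DifferentiableAt ℝ f p) {d : ℝ}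
    (h : HasDerivAt (fun t : ℝ => f (p + t • ee 0)) d 0) : pd 0 f p = d :=
  (hda_line hf 0).unique h

lemma pd_V {w : ℝ} (hw : 0 < w) (p : E 8) : pd 0 (V w) p = v1 w (p 0) (r2 p) := by
  apply pd_zero_eq ((contDiff_V hw (m := 1)).differentiable (by norm_num) p)
  have h1 : (fun t : ℝ => V w (p + t • ee 0)) = fun t => vv w (p 0 + t) (r2 p) := by
    funext t; rw [V_eqv, line_coord_zero, r2_line]
  rw [h1]
  have := (hasDerivAt_vv hw (p 0 + 0) (r2 p)).comp_const_add (p 0) 0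
  simpa using this

lemma contDiff_pdV {w : ℝ} (hw : 0 < w) : ContDiff ℝ 1 (pd 0 (V w)) :=
  ContDiff.pd' (k := 2) (contDiff_V hw) (by norm_num) 0

lemma pd_pd_V {w : ℝ} (hw : 0 < w) (p : E 8) : pd 0 (pd 0 (V w)) p = v2 w (p 0) (r2 p) := by
  apply pd_zero_eq ((contDiff_pdV hw).differentiable (by norm_num) p)
  have h1 : (fun t : ℝ => pd 0 (V w) (p + t • ee 0)) = fun t => v1 w (p 0 + t) (r2 p) := by
    funext t; rw [pd_V hw, line_coord_zero, r2_line]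
  rw [h1]
  have := (hasDerivAt_v1 hw (p 0 + 0) (r2 p)).comp_const_add (p 0) 0
  simpa using this

end Pool.Agent.GS8
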