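import Pool.Agent.GS8.FinalK

/-!
# JOB 10, part Z: the test function `zeta`, commuting derivatives, double integration by parts
-/

set_option autoImplicit false

open MeasureTheory Set Filter Topology
open scoped Real ContDiff

namespace Pool.Agent.GS8

lemma two_le_infty : (2 : WithTop ℕ∞) ≤ ∞ := by
  have : ((2 : ℕ∞) : WithTop ℕ∞) ≤ ((⊤ : ℕ∞) : WithTop ℕ∞) := WithTop.coe_le_coe.2 le_top
  exact this

section general

variable {n : ℕ} {i j : Fin n} {f g : E n → ℝ} {x : E n} {Ω : Set (E n)}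

lemma pd_zero_of_indep (hf : DifferentiableAt ℝ f x) (h : ∀ t : ℝ, f (x + t • ee i) = f x) :
    pd i f x = 0 := by
  have h1 := hda_line hf i
  have h2 : HasDerivAt (fun t : ℝ => f (x + t • ee i)) 0 0 := by
    have : (fun t : ℝ => f (x + t • (ee i : E n))) = fun _ => f x := funext h
    rw [this]; exact hasDerivAt_const _ _
  exact h1.unique h2

lemma pd_comm (hf : ContDiff ℝ 2 f) (i j : Fin n) (x : E n) :
    pd i (pd j f) x = pd j (pd i f) x := by
  have h1 : ∀ y, HasFDerivAt f (fderiv ℝ f y) y := fun y =>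
    (hf.differentiable (by norm_num) y).hasFDerivAt
  have hd : Differentiable ℝ (fderiv ℝ f) :=
    (hf.fderiv_right (m := 1) (by norm_num)).differentiable (by norm_num)
  have h2 : HasFDerivAt (fderiv ℝ f) (fderiv ℝ (fderiv ℝ f) x) x := (hd x).hasFDerivAt
  have hs := second_derivative_symmetric h1 h2 (ee i) (ee j)
  have key : ∀ a b : Fin n, pd a (pd b f) x = fderiv ℝ (fderiv ℝ f) x (ee a) (ee b) := by
    intro a b
    have : pd b f = fun y => fderiv ℝ f y (ee b) := rfl
    rw [this]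
    unfold pd
    rw [fderiv_clm_apply (hd x) (differentiableAt_const _)]
    simp
  rw [key, key, hs]

lemma lap_pd_comm (hf : ContDiff ℝ ∞ f) (i : Fin n) (x : E n) :
    lap (pd i f) x = pd i (lap f) x := by
  have h1 : ∀ j : Fin n, ContDiff ℝ ∞ (pd j (pd j f)) := fun j =>
    contDiff_pd_infty (contDiff_pd_infty hf j) j
  have hd : ∀ j ∈ (Finset.univ : Finset (Fin n)), DifferentiableAt ℝ (pd j (pd j f)) x := fun j _ =>
    (h1 j).differentiable (by simp) x
  have h2 : pd i (lap f) x = ∑ j : Fin n, pd i (pd j (pd j f)) x := by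
    have := pd_sum Finset.univ (F := fun j => pd j (pd j f)) hd i
    exact this
  rw [h2]
  unfold lap
  apply Finset.sum_congr rfl
  intro j _
  have a1 : ∀ y, pd j (pd i f) y = pd i (pd j f) y := fun y => pd_comm (hf.of_le two_le_infty) j i y
  have a2 : pd j (pd i f) = pd i (pd j f) := funext a1
  rw [a2, pd_comm ((contDiff_pd_infty hf j).of_le two_le_infty) j i x]

lemma contDiff_lap (hf : ContDiff ℝ ∞ f) : ContDiff ℝ ∞ (lap f) := by
  have h1 : ∀ j : Fin n, ContDiff ℝ ∞ (pd j (pd j f)) := fun j =>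
    contDiff_pd_infty (contDiff_pd_infty hf j) j
  have : lap f = fun x => ∑ j : Fin n, pd j (pd j f) x := rfl
  rw [this]
  exact ContDiff.sum fun j _ => h1 j

/-- integrability of a continuous function vanishing off a compact subset -/
lemma integrableOn_of_off {K : Set (E n)} (hΩ : IsOpen Ω) (hf : ContinuousOn f Ω) (hK : IsCompact K)
    (hKΩ : K ⊆ Ω) (h0 : ∀ x ∈ Ω, x ∉ K → f x = 0) : IntegrableOn f Ω := by
  have : IntegrableOn f K := (hf.mono hKΩ).integrableOn_compact hK
  refine (this.of_forall_sdiff_eq_zero hΩ.measurableSet ?_)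
  intro x hx; exact h0 x hx.1 hx.2

/-- `∫_Ω ∂_i F = 0` for `F` of class `C¹` on `Ω` vanishing on `Ω` off a compact subset of `Ω` -/
lemma integral_pd_on {K : Set (E n)} (hΩ : IsOpen Ω) (hf : ContDiffOn ℝ 1 f Ω) (hK : IsCompact K)
    (hKΩ : K ⊆ Ω) (h0 : ∀ x ∈ Ω, x ∉ K → f x = 0) (i : Fin n) :
    ∫ x in Ω, pd i f x = 0 := by
  classical
  set g : E n → ℝ := Ω.indicator f with hg
  have hfg : EqOn g f Ω := fun x hx => by rw [hg, indicator_of_mem hx]
  have hgt : Test1 Ω g := by
    refine test1_of hΩ (hf.congr hfg) hK hKΩ ?_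
    intro x hx
    by_cases hxΩ : x ∈ Ω
    · rw [hfg hxΩ, h0 x hxΩ hx]
    · rw [hg, indicator_of_notMem hxΩ]
  have h1 := hgt.integ_pd i
  have h2 : ∫ x in Ω, pd i f x = ∫ x in Ω, pd i g x :=
    setIntegral_congr_fun hΩ.measurableSet (fun x hx => (pd_eqOn hΩ hfg i hx).symm)
  rw [h2, setIntegral_eq_integral_of_forall_compl_eq_zero (fun x hx => hgt.pdz hx i)]
  exact h1

/-- double integration by parts -/
lemma ibp2 {U φ : E n → ℝ} {KX Kz : Set (E n)} (hΩ : IsOpen Ω) (hU : ContDiffOn ℝ 2 U Ω)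
    (hφ : ContDiff ℝ 2 φ) (hKX : IsClosed KX) (hKz : IsClosed Kz) (hK : IsCompact (KX ∩ Kz))
    (hKΩ : KX ∩ Kz ⊆ Ω) (hφ0 : ∀ x, x ∉ KX → φ x = 0) (hU0 : ∀ x ∈ Ω, x ∉ Kz → U x = 0)
    (i : Fin n) :
    ∫ x in Ω, U x * pd i (pd i φ) x = ∫ x in Ω, pd i (pd i U) x * φ x := by
  have hφon : ContDiffOn ℝ 2 φ Ω := hφ.contDiffOn
  -- vanishing facts
  have hφn : ∀ x, x ∉ KX → φ =ᶠ[𝓝 x] fun _ => 0 := fun x hx => by
    filter_upwards [hKX.isOpen_compl.mem_nhds hx] with y hy using hφ0 y hy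
  have hUn : ∀ x ∈ Ω, x ∉ Kz → U =ᶠ[𝓝 x] fun _ => 0 := fun x hxΩ hx => by
    filter_upwards [hKz.isOpen_compl.mem_nhds hx, hΩ.mem_nhds hxΩ] with y hy hyΩ using hU0 y hyΩ hy
  have z1 : ∀ x, x ∉ KX → pd i φ x = 0 := fun x hx => by rw [pd_congr (hφn x hx), pd_const]
  have z2 : ∀ x, x ∉ KX → pd i (pd i φ) x = 0 := fun x hx => by
    rw [pd_pd_congr (hφn x hx)]
    have : pd i (fun _ : E n => (0:ℝ)) = fun _ => 0 := by funext y; exact pd_const 0 i y
    rw [this, pd_const]
  have z3 : ∀ x ∈ Ω, x ∉ Kz → pd i U x = 0 := fun x hxΩ hx => by rw [pd_congr (hUn x hxΩ hx), pd_const]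
  have z4 : ∀ x ∈ Ω, x ∉ Kz → pd i (pd i U) x = 0 := fun x hxΩ hx => by
    rw [pd_pd_congr (hUn x hxΩ hx)]
    have : pd i (fun _ : E n => (0:ℝ)) = fun _ => 0 := by funext y; exact pd_const 0 i y
    rw [this, pd_const]
  have hU1 := C2_C1 hU
  have hφ1 := C2_C1 hφon
  have hUi : ContDiffOn ℝ 1 (pd i U) Ω := C2_pd hΩ hU i
  have hφi : ContDiffOn ℝ 1 (pd i φ) Ω := C2_pd hΩ hφon i
  have cU := hU1.continuousOn
  have cφ := hφ1.continuousOn
  have cUi := hUi.continuousOn
  have cφi := hφi.continuousOn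
  have cUii := C1_pd_cont hΩ hUi i
  have cφii := C1_pd_cont hΩ hφi i
  have off : ∀ x, x ∉ KX ∩ Kz → x ∉ KX ∨ x ∉ Kz := fun x hx => by
    by_contra h; push Not at h; exact hx h
  have I1 : IntegrableOn (fun x => U x * pd i (pd i φ) x) Ω :=
    integrableOn_of_off hΩ (cU.mul cφii) hK hKΩ (fun x hxΩ hx => by
      rcases off x hx with h | h
      · rw [z2 x h, mul_zero]
      · rw [hU0 x hxΩ h, zero_mul])
  have I2 : IntegrableOn (fun x => pd i U x * pd i φ x) Ω :=
    integrableOn_of_off hΩ (cUi.mul cφi) hK hKΩ (fun x hxΩ hx => by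
      rcases off x hx with h | h
      · rw [z1 x h, mul_zero]
      · rw [z3 x hxΩ h, zero_mul])
  have I3 : IntegrableOn (fun x => pd i (pd i U) x * φ x) Ω :=
    integrableOn_of_off hΩ (cUii.mul cφ) hK hKΩ (fun x hxΩ hx => by
      rcases off x hx with h | h
      · rw [hφ0 x h, mul_zero]
      · rw [z4 x hxΩ h, zero_mul])
  have e1 := integral_pd_on hΩ (f := fun x => U x * pd i φ x) (hU1.mul hφi) hK hKΩ (fun x hxΩ hx => by
      rcases off x hx with h | h
      · simp [z1 x h]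
      · simp [hU0 x hxΩ h]) i
  have e2 := integral_pd_on hΩ (f := fun x => pd i U x * φ x) (hUi.mul hφ1) hK hKΩ (fun x hxΩ hx => by
      rcases off x hx with h | h
      · simp [hφ0 x h]
      · simp [z3 x hxΩ h]) i
  rw [setIntegral_congr_fun hΩ.measurableSet (pd_mul_on hΩ hU1 hφi i), integral_add I2 I1] at e1
  rw [setIntegral_congr_fun hΩ.measurableSet (pd_mul_on hΩ hUi hφ1 i), integral_add I3 I2] at e2
  linarith

end general

/-! ## The bump -/

noncomputable def bmp : ContDiffBump (0 : ℝ) := ⟨1 / 2, 1, by norm_num, by norm_num⟩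

/-- one dimensional bump: `1` on `[-1/2,1/2]`, `0` off `(-1,1)` -/
noncomputable def th (t : ℝ) : ℝ := bmp t

lemma th_contDiff : ContDiff ℝ ∞ th := bmp.contDiff

lemma th_nonneg (t : ℝ) : 0 ≤ th t := bmp.nonneg

lemma th_le_one (t : ℝ) : th t ≤ 1 := bmp.le_one

lemma th_one {t : ℝ} (ht : |t| ≤ 1 / 2) : th t = 1 := by
  apply bmp.one_of_mem_closedBall
  rw [mem_closedBall_zero_iff, Real.norm_eq_abs]; exact ht

lemma th_zero {t : ℝ} (ht : 1 ≤ |t|) : th t = 0 := by
  apply bmp.zero_of_le_dist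
  rw [dist_zero_right, Real.norm_eq_abs]; exact ht

lemma exists_th_bound : ∃ c : ℝ, 1 ≤ c ∧ ∀ t, |deriv (deriv th) t| ≤ c := by
  have h2 : ContDiff ℝ 2 th := th_contDiff.of_le two_le_infty
  obtain ⟨b, hb, hB⟩ := exists_BBound (β := 1) h2 (fun t ht => th_zero ht)
  exact ⟨b + 1, by linarith, fun t => by have := hB.b2 t; linarith⟩

/-- indices of the `X` variables -/
def xI : Finset (Fin 8) := {0, 1, 2, 3, 4, 5, 6}

lemma mem_xI {i : Fin 8} : i ∈ xI ↔ i ≠ 7 := by
  revert i; decide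

/-- product bump at scale `om` in the `X` variables -/
noncomputable def zt (om : ℝ) (p : E 8) : ℝ := ∏ i ∈ xI, th (p i / om)

lemma contDiff_th_coord (om : ℝ) (i : Fin 8) {m : WithTop ℕ∞} (hm : m ≤ ∞) :
    ContDiff ℝ m (fun p : E 8 => th (p i / om)) :=
  (th_contDiff.of_le hm).comp ((cd_coord i).div_const om)

lemma contDiff_zt (om : ℝ) : ContDiff ℝ ∞ (zt om) := by
  unfold zt
  exact contDiff_prod fun i _ => contDiff_th_coord om i le_rfl

lemma zt_nonneg (om : ℝ) (p : E 8) : 0 ≤ zt om p := Finset.prod_nonneg fun _ _ => th_nonneg _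

lemma zt_le_one (om : ℝ) (p : E 8) : zt om p ≤ 1 :=
  Finset.prod_le_one (fun _ _ => th_nonneg _) (fun _ _ => th_le_one _)

lemma zt_one {om : ℝ} (hom : 0 < om) {p : E 8} (hp : ∀ i, i ≠ 7 → |p i| ≤ om / 2) : zt om p = 1 := by
  unfold zt
  apply Finset.prod_eq_one
  intro i hi
  apply th_one
  rw [abs_div, abs_of_pos hom, div_le_iff₀ hom]
  have := hp i (mem_xI.mp hi)
  linarith

lemma zt_zero {om : ℝ} (hom : 0 < om) {p : E 8} {i : Fin 8} (hi : i ≠ 7) (hp : om ≤ |p i|) :
    zt om p = 0 := by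
  unfold zt
  apply Finset.prod_eq_zero (mem_xI.mpr hi)
  apply th_zero
  rw [abs_div, abs_of_pos hom, le_div_iff₀ hom]; linarith

lemma pd_pd_zt {om : ℝ} {i : Fin 8} (hi : i ∈ xI) (p : E 8) :
    pd i (pd i (zt om)) p = (deriv (deriv th) (p i / om)) / om ^ 2 *
      ∏ j ∈ xI.erase i, th (p j / om) := by
  have hth1 : ContDiff ℝ 1 (deriv th) := by
    have h2 : ContDiff ℝ (1 + 1) th := by norm_num; exact th_contDiff.of_le two_le_infty
    exact (contDiff_succ_iff_deriv.mp h2).2.2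
  set R : E 8 → ℝ := fun q => ∏ j ∈ xI.erase i, th (q j / om) with hR
  have hRs : ContDiff ℝ ∞ R := contDiff_prod fun j _ => contDiff_th_coord om j le_rfl
  have hRd : ∀ q, DifferentiableAt ℝ R q := fun q => hRs.differentiable (by simp) q
  have hRi : ∀ q, pd i R q = 0 := by
    intro q
    apply pd_zero_of_indep (hRd q)
    intro t
    apply Finset.prod_congr rfl
    intro j hj
    have : j ≠ i := Finset.ne_of_mem_erase hj
    simp [this]
  have hz : zt om = fun q => th (q i / om) * R q := by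
    funext q; exact (Finset.mul_prod_erase xI (fun j => th (q j / om)) hi).symm
  have hdi : ∀ q : E 8, DifferentiableAt ℝ (fun q : E 8 => q i / om) q := fun q => by
    simp only [div_eq_mul_inv]; exact (differentiableAt_coord i q).mul_const _
  have hpi : ∀ q : E 8, pd i (fun q : E 8 => q i / om) q = 1 / om := by
    intro q
    have : (fun q : E 8 => q i / om) = fun q => om⁻¹ * q i := by funext q; rw [div_eq_inv_mul]
    rw [this, pd_const_mul _ (differentiableAt_coord i q), pd_coord]; simp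
  have hth : ∀ q : E 8, HasDerivAt th (deriv th (q i / om)) (q i / om) := fun q =>
    (th_contDiff.differentiable (by simp) _).hasDerivAt
  have hth' : ∀ q : E 8, HasDerivAt (deriv th) (deriv (deriv th) (q i / om)) (q i / om) := fun q =>
    (hth1.differentiable (by norm_num) _).hasDerivAt
  have h1 : pd i (zt om) = fun q => (1 / om * deriv th (q i / om)) * R q := by
    funext q
    have hd1 : DifferentiableAt ℝ (fun q : E 8 => th (q i / om)) q :=
      DifferentiableAt.comp (g := th) q (hth q).differentiableAt (hdi q)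
    rw [hz, pdmul hd1 (hRd q), hRi,
      pd_comp (f := fun q : E 8 => q i / om) (hth q) (hdi q), hpi]
    ring
  rw [h1]
  have hd2 : DifferentiableAt ℝ (fun q : E 8 => deriv th (q i / om)) p :=
    DifferentiableAt.comp (g := deriv th) p (hth' p).differentiableAt (hdi p)
  rw [pdmul (hd2.const_mul _) (hRd p), hRi, pd_const_mul _ hd2,
    pd_comp (f := fun q : E 8 => q i / om) (hth' p) (hdi p), hpi]
  ring

lemma zt_indep (om : ℝ) {p q : E 8} (h : ∀ i : Fin 8, i ≠ 7 → p i = q i) : zt om p = zt om q := by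
  unfold zt
  apply Finset.prod_congr rfl
  intro i hi
  rw [h i (mem_xI.mp hi)]

lemma pd_seven_zt (om : ℝ) (p : E 8) : pd 7 (zt om) p = 0 := by
  apply pd_zero_of_indep ((contDiff_zt om).differentiable (by simp) p)
  intro t
  apply zt_indep
  intro i hi
  simp [hi]

lemma pd_indep {f : E 8 → ℝ} (hf : Differentiable ℝ f)
    (h : ∀ p q : E 8, (∀ i : Fin 8, i ≠ 7 → p i = q i) → f p = f q) {i : Fin 8}
    (p q : E 8) (hpq : ∀ j : Fin 8, j ≠ 7 → p j = q j) : pd i f p = pd i f q := by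
  have h1 := hda_line (hf p) i
  have h2 := hda_line (hf q) i
  have : (fun t : ℝ => f (p + t • (ee i : E 8))) = fun t : ℝ => f (q + t • (ee i : E 8)) := by
    funext t
    apply h
    intro j hj
    simp [hpq j hj]
  rw [this] at h1
  exact h1.unique h2

lemma abs_lap_zt_le {om c : ℝ} (hom : 0 < om) (hc : ∀ t, |deriv (deriv th) t| ≤ c) (p : E 8) :
    |lap (zt om) p| ≤ 8 * c / om ^ 2 := by
  have hc0 : 0 ≤ c := (abs_nonneg _).trans (hc 0)
  have h1 : ∀ i : Fin 8, |pd i (pd i (zt om)) p| ≤ c / om ^ 2 := by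
    intro i
    by_cases hi : i ∈ xI
    · rw [pd_pd_zt hi, abs_mul, abs_div, abs_of_pos (by positivity : 0 < om ^ 2)]
      have h2 : |∏ j ∈ xI.erase i, th (p j / om)| ≤ 1 := by
        rw [abs_of_nonneg (Finset.prod_nonneg fun _ _ => th_nonneg _)]
        exact Finset.prod_le_one (fun _ _ => th_nonneg _) (fun _ _ => th_le_one _)
      calc _ ≤ c / om ^ 2 * 1 := by gcongr; exact hc _
        _ = _ := mul_one _
    · have hi7 : i = 7 := by
        by_contra h; exact hi (mem_xI.mpr h)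
      subst hi7
      have : pd 7 (zt om) = fun _ => 0 := funext fun q => pd_seven_zt om q
      rw [this, pd_const, abs_zero]; positivity
  unfold lap
  calc |∑ i : Fin 8, pd i (pd i (zt om)) p| ≤ ∑ i : Fin 8, |pd i (pd i (zt om)) p| :=
        Finset.abs_sum_le_sum_abs _ _
    _ ≤ ∑ _i : Fin 8, c / om ^ 2 := Finset.sum_le_sum fun i _ => h1 i
    _ = 8 * c / om ^ 2 := by simp; ring

/-- `∂_x² zt` is an admissible test function for JOB 9 -/
lemma xtest_zt {om : ℝ} (hom : 0 < om) (hom1 : om < 1) : XTest (pd 0 (pd 0 (zt om))) where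
  smooth := contDiff_pd_infty (contDiff_pd_infty (contDiff_zt om) 0) 0
  indep := by
    have h0 := contDiff_zt om
    have h1 := contDiff_pd_infty h0 0
    intro p q hpq
    exact pd_indep (h1.differentiable (by simp))
      (fun p q h => pd_indep (h0.differentiable (by simp)) (fun p q h => zt_indep om h) p q h) p q hpq
  supp := by
    rintro p ⟨i, hi, hpi⟩
    have h1 : zt om =ᶠ[𝓝 p] fun _ => 0 := by
      have : {q : E 8 | om < |q i|} ∈ 𝓝 p :=
        (isOpen_lt continuous_const (continuous_coord i).abs).mem_nhds (lt_of_lt_of_le hom1 hpi)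
      filter_upwards [this] with q hq
      exact zt_zero hom hi (le_of_lt hq)
    rw [pd_pd_congr h1]
    have : pd 0 (fun _ : E 8 => (0:ℝ)) = fun _ => 0 := by funext y; exact pd_const 0 0 y
    rw [this, pd_const]

lemma lap_pd_pd_zt (om : ℝ) (p : E 8) :
    lap (pd 0 (pd 0 (zt om))) p = pd 0 (pd 0 (lap (zt om))) p := by
  have h0 := contDiff_zt om
  have h1 := contDiff_pd_infty h0 0
  rw [lap_pd_comm h1]
  have : lap (pd 0 (zt om)) = pd 0 (lap (zt om)) := funext fun q => lap_pd_comm h0 0 q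
  rw [this]

end Pool.Agent.GS8
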