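import Pool.Agent.GS8.Defs

/-! Gaussian kernels and Gaussian convolutions. -/

set_option autoImplicit false

open MeasureTheory Set Filter Topology
open scoped Real ContDiff

namespace Pool.Agent.GS8

variable {n : ℕ}

lemma Gk_pos {t : ℝ} (ht : 0 < t) (x : E n) : 0 < Gk t x := by
  unfold Gk
  have : (0 : ℝ) < 4 * π * t := by positivity
  positivity

lemma Gk_nonneg {t : ℝ} (ht : 0 < t) (x : E n) : 0 ≤ Gk t x := (Gk_pos ht x).le

lemma Gk_neg (t : ℝ) (x : E n) : Gk t (-x) = Gk t x := by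
  unfold Gk
  rw [norm_neg]

lemma Gk_sub_comm (t : ℝ) (x y : E n) : Gk t (x - y) = Gk t (y - x) := by
  rw [← Gk_neg, neg_sub]

lemma Gk_norm_eq (t : ℝ) {x y : E n} (h : ‖x‖ = ‖y‖) : Gk t x = Gk t y := by
  unfold Gk
  rw [h]

lemma continuous_Gk (t : ℝ) : Continuous (Gk t : E n → ℝ) := by
  unfold Gk
  fun_prop

lemma measurable_Gk (t : ℝ) : Measurable (Gk t : E n → ℝ) := (continuous_Gk t).measurable

/-- The maximum of the Gaussian kernel. -/
lemma Gk_le {t : ℝ} (ht : 0 < t) (x : E n) : Gk t x ≤ (4 * π * t) ^ (-(n : ℝ) / 2) := by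
  unfold Gk
  have h1 : (0 : ℝ) < (4 * π * t) ^ (-(n : ℝ) / 2) := by
    have : (0 : ℝ) < 4 * π * t := by positivity
    positivity
  have h2 : Real.exp (-‖x‖ ^ 2 / (4 * t)) ≤ 1 := by
    rw [Real.exp_le_one_iff]
    have : 0 ≤ ‖x‖ ^ 2 / (4 * t) := by positivity
    rw [neg_div]
    linarith
  calc _ ≤ (4 * π * t) ^ (-(n : ℝ) / 2) * 1 := by gcongr
    _ = _ := mul_one _

lemma Gk_zero (t : ℝ) : Gk t (0 : E n) = (4 * π * t) ^ (-(n : ℝ) / 2) := by
  unfold Gk
  simp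

lemma Gk_mul_le {t : ℝ} (ht : 0 < t) (x y : E n) :
    Gk t x * Gk t y ≤ Gk t ((1 / 2 : ℝ) • (x + y)) ^ 2 := by
  unfold Gk
  have hc : (0 : ℝ) ≤ (4 * π * t) ^ (-(n : ℝ) / 2) := by positivity
  have h1 : ‖(1 / 2 : ℝ) • (x + y)‖ ^ 2 * 2 ≤ ‖x‖ ^ 2 + ‖y‖ ^ 2 := by
    rw [norm_smul, mul_pow, Real.norm_eq_abs]
    have h2 := parallelogram_law_with_norm ℝ x y
    have h3 : 0 ≤ ‖x - y‖ * ‖x - y‖ := by positivity
    rw [abs_of_pos (by norm_num : (0:ℝ) < 1 / 2)]
    nlinarith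
  have h4 : Real.exp (-‖x‖ ^ 2 / (4 * t)) * Real.exp (-‖y‖ ^ 2 / (4 * t)) ≤
      Real.exp (-‖(1 / 2 : ℝ) • (x + y)‖ ^ 2 / (4 * t)) *
      Real.exp (-‖(1 / 2 : ℝ) • (x + y)‖ ^ 2 / (4 * t)) := by
    rw [← Real.exp_add, ← Real.exp_add, Real.exp_le_exp, ← add_div, ← add_div]
    apply div_le_div_of_nonneg_right _ (by positivity)
    linarith
  calc _ = ((4 * π * t) ^ (-(n : ℝ) / 2)) ^ 2 * (Real.exp (-‖x‖ ^ 2 / (4 * t)) *
        Real.exp (-‖y‖ ^ 2 / (4 * t))) := by ring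
    _ ≤ ((4 * π * t) ^ (-(n : ℝ) / 2)) ^ 2 * (Real.exp (-‖(1 / 2 : ℝ) • (x + y)‖ ^ 2 / (4 * t)) *
      Real.exp (-‖(1 / 2 : ℝ) • (x + y)‖ ^ 2 / (4 * t))) := by gcongr
    _ = _ := by ring

lemma integral_exp_neg {c : ℝ} (hc : 0 < c) (m : E n) :
    ∫ x : E n, Real.exp (-c * ‖x - m‖ ^ 2) = (π / c) ^ ((n : ℝ) / 2) := by
  rw [integral_sub_right_eq_self (fun x : E n => Real.exp (-c * ‖x‖ ^ 2)) m]
  rw [GaussianFourier.integral_rexp_neg_mul_sq_norm hc]
  simp

lemma integrable_exp_neg {c : ℝ} (hc : 0 < c) :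
    Integrable fun x : E n => Real.exp (-c * ‖x‖ ^ 2) := by
  by_contra h
  have h1 := GaussianFourier.integral_rexp_neg_mul_sq_norm (V := E n) hc
  rw [integral_undef h] at h1
  have : (0 : ℝ) < (π / c) ^ (Module.finrank ℝ (E n) / 2 : ℝ) := by positivity
  linarith

lemma Gk_eq (t : ℝ) (x : E n) :
    Gk t x = (4 * π * t) ^ (-(n : ℝ) / 2) * Real.exp (-(1 / (4 * t)) * ‖x‖ ^ 2) := by
  unfold Gk
  congr 2
  ring

lemma integrable_Gk {t : ℝ} (ht : 0 < t) : Integrable (Gk t : E n → ℝ) := by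
  have : (Gk t : E n → ℝ) = fun x => (4 * π * t) ^ (-(n : ℝ) / 2) *
      Real.exp (-(1 / (4 * t)) * ‖x‖ ^ 2) := funext fun x => Gk_eq t x
  rw [this]
  exact (integrable_exp_neg (by positivity)).const_mul _

lemma integral_Gk {t : ℝ} (ht : 0 < t) : ∫ x : E n, Gk t x = 1 := by
  have : (Gk t : E n → ℝ) = fun x => (4 * π * t) ^ (-(n : ℝ) / 2) *
      Real.exp (-(1 / (4 * t)) * ‖x‖ ^ 2) := funext fun x => Gk_eq t x
  rw [this, integral_const_mul, GaussianFourier.integral_rexp_neg_mul_sq_norm (by positivity)]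
  rw [finrank_euclideanSpace_fin, one_div, div_inv_eq_mul, show π * (4 * t) = 4 * π * t by ring,
    ← Real.rpow_add (by positivity), show -(n : ℝ) / 2 + (n : ℝ) / 2 = 0 by ring, Real.rpow_zero]

/-- The semigroup property. -/
lemma integral_Gk_mul {t s : ℝ} (ht : 0 < t) (hs : 0 < s) (x z : E n) :
    ∫ y : E n, Gk t (x - y) * Gk s (y - z) = Gk (t + s) (x - z) := by
  set m : E n := (s / (t + s)) • x + (t / (t + s)) • z with hm
  set c : ℝ := (t + s) / (4 * t * s) with hc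
  have hc0 : 0 < c := by positivity
  have key : ∀ y : E n, Gk t (x - y) * Gk s (y - z) =
      ((4 * π * t) ^ (-(n : ℝ) / 2) * (4 * π * s) ^ (-(n : ℝ) / 2) *
        Real.exp (-(1 / (4 * (t + s))) * ‖x - z‖ ^ 2)) * Real.exp (-c * ‖y - m‖ ^ 2) := by
    intro y
    rw [Gk_eq, Gk_eq]
    have h1 : -(1 / (4 * t)) * ‖x - y‖ ^ 2 + -(1 / (4 * s)) * ‖y - z‖ ^ 2 =
        -(1 / (4 * (t + s))) * ‖x - z‖ ^ 2 + -c * ‖y - m‖ ^ 2 := by
      have e1 : y - m = (t / (t + s)) • (y - z) - (s / (t + s)) • (x - y) := by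
        rw [hm]
        have h2 : y = (t / (t + s)) • y + (s / (t + s)) • y := by
          rw [← add_smul, ← add_div, div_self (by positivity), one_smul]
        rw [smul_sub, smul_sub]
        nth_rewrite 1 [h2]
        abel
      have e2 : x - z = (x - y) + (y - z) := by abel
      rw [e1, e2, norm_add_sq_real, norm_sub_sq_real ((t / (t + s)) • (y - z)), norm_smul,
        norm_smul, inner_smul_left, inner_smul_right, real_inner_comm (x - y) (y - z),
        Real.norm_eq_abs, Real.norm_eq_abs,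
        abs_of_pos (by positivity), abs_of_pos (by positivity), hc]
      simp only [conj_trivial]
      field_simp
      ring
    rw [mul_mul_mul_comm, ← Real.exp_add, h1, Real.exp_add]
    ring
  simp_rw [key]
  rw [integral_const_mul, integral_exp_neg hc0, Gk_eq]
  have h3 : (4 * π * t) ^ (-(n : ℝ) / 2) * (4 * π * s) ^ (-(n : ℝ) / 2) * (π / c) ^ ((n : ℝ) / 2) =
      (4 * π * (t + s)) ^ (-(n : ℝ) / 2) := by
    rw [neg_div, Real.rpow_neg (by positivity), Real.rpow_neg (by positivity),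
      Real.rpow_neg (by positivity), ← mul_inv, ← Real.mul_rpow (by positivity) (by positivity),
      ← Real.inv_rpow (by positivity), ← Real.mul_rpow (by positivity) (by positivity),
      ← Real.inv_rpow (by positivity)]
    congr 1
    rw [hc]
    field_simp
  rw [← h3]
  ring

/-- Second moment. -/
lemma integral_Gk_norm_sq {t : ℝ} (ht : 0 < t) :
    Integrable (fun y : E n => Gk t y * ‖y‖ ^ 2) ∧
      ∫ y : E n, Gk t y * ‖y‖ ^ 2 ≤ 8 * 2 ^ ((n : ℝ) / 2) * t := by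
  have hb : ∀ y : E n, Gk t y * ‖y‖ ^ 2 ≤ 8 * 2 ^ ((n : ℝ) / 2) * t * Gk (2 * t) y := by
    intro y
    rw [Gk_eq, Gk_eq]
    set u := ‖y‖ ^ 2 / (8 * t) with hu
    have hu0 : 0 ≤ u := by positivity
    have e1 : Real.exp (-(1 / (4 * t)) * ‖y‖ ^ 2) = Real.exp (-u) * Real.exp (-u) := by
      rw [← Real.exp_add, hu]
      congr 1
      field_simp
      ring
    have e2 : Real.exp (-(1 / (4 * (2 * t))) * ‖y‖ ^ 2) = Real.exp (-u) := by
      rw [hu]
      congr 1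
      field_simp
      ring
    have e3 : ‖y‖ ^ 2 = 8 * t * u := by rw [hu]; field_simp
    have e4 : (4 * π * t) ^ (-(n : ℝ) / 2) =
        2 ^ ((n : ℝ) / 2) * (4 * π * (2 * t)) ^ (-(n : ℝ) / 2) := by
      have h4 : (0 : ℝ) < 4 * π * t := by positivity
      rw [show 4 * π * (2 * t) = 2 * (4 * π * t) by ring,
        Real.mul_rpow (x := 2) (y := 4 * π * t) (by norm_num) h4.le, ← mul_assoc,
        ← Real.rpow_add (x := 2) (by norm_num),
        show (n : ℝ) / 2 + -(n : ℝ) / 2 = 0 by ring, Real.rpow_zero, one_mul]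
    have h5 : u * Real.exp (-u) ≤ 1 := by
      have h6 : u ≤ Real.exp u := by linarith [Real.add_one_le_exp u]
      calc u * Real.exp (-u) ≤ Real.exp u * Real.exp (-u) := by gcongr
        _ = 1 := by rw [← Real.exp_add]; simp
    rw [e1, e2, e4, e3]
    have hpos : (0 : ℝ) ≤ 2 ^ ((n : ℝ) / 2) * (4 * π * (2 * t)) ^ (-(n : ℝ) / 2) := by positivity
    calc _ = (2 ^ ((n : ℝ) / 2) * (4 * π * (2 * t)) ^ (-(n : ℝ) / 2)) * Real.exp (-u) * (8 * t) *
          (u * Real.exp (-u)) := by ring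
      _ ≤ (2 ^ ((n : ℝ) / 2) * (4 * π * (2 * t)) ^ (-(n : ℝ) / 2)) * Real.exp (-u) * (8 * t) * 1 := by
          gcongr
      _ = _ := by ring
  have hi : Integrable (fun y : E n => Gk t y * ‖y‖ ^ 2) := by
    refine ((integrable_Gk (n := n) (by positivity : 0 < 2 * t)).const_mul
      (8 * 2 ^ ((n : ℝ) / 2) * t)).mono' ?_ ?_
    · exact ((measurable_Gk t).mul (measurable_norm.pow_const 2)).aestronglyMeasurable
    · filter_upwards with y
      rw [Real.norm_eq_abs, abs_of_nonneg (by have := Gk_nonneg ht y; positivity)]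
      exact hb y
  refine ⟨hi, ?_⟩
  calc ∫ y : E n, Gk t y * ‖y‖ ^ 2 ≤ ∫ y : E n, 8 * 2 ^ ((n : ℝ) / 2) * t * Gk (2 * t) y :=
        integral_mono hi ((integrable_Gk (by positivity)).const_mul _) hb
    _ = _ := by rw [integral_const_mul, integral_Gk (by positivity), mul_one]

end Pool.Agent.GS8
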