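import Pool.Agent.GS8.Defs

/-!
# Geometry of the thin domain `Om w k`
-/

set_option autoImplicit false

open MeasureTheory Set Filter Topology
open scoped Real ContDiff

namespace Pool.Agent.GS8

/-! ### the smooth maximum -/

lemma sqrt_conv {c a b s t : ℝ} (hs : 0 ≤ s) (ht : 0 ≤ t) (hst : s + t = 1) (hc : 0 ≤ c) :
    √((s * a + t * b) ^ 2 + c) ≤ s * √(a ^ 2 + c) + t * √(b ^ 2 + c) := by
  have hA : 0 ≤ a ^ 2 + c := by positivity
  have hB : 0 ≤ b ^ 2 + c := by positivity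
  have hAB : a * b + c ≤ √(a ^ 2 + c) * √(b ^ 2 + c) := by
    rw [← Real.sqrt_mul hA]
    refine Real.le_sqrt_of_sq_le ?_
    nlinarith [mul_nonneg hc (sq_nonneg (a - b))]
  refine Real.sqrt_le_iff.2 ⟨by positivity, ?_⟩
  have e1 : (s * √(a ^ 2 + c) + t * √(b ^ 2 + c)) ^ 2 =
      s ^ 2 * (a ^ 2 + c) + t ^ 2 * (b ^ 2 + c) + 2 * (s * t) * (√(a ^ 2 + c) * √(b ^ 2 + c)) := by
    have h1 := Real.sq_sqrt hA
    have h2 := Real.sq_sqrt hB
    linear_combination s ^ 2 * h1 + t ^ 2 * h2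
  rw [e1]
  have h3 := mul_le_mul_of_nonneg_left hAB (show 0 ≤ 2 * (s * t) by positivity)
  have h4 : s ^ 2 * c + t ^ 2 * c + 2 * (s * t) * c = c := by
    have : (s + t) ^ 2 = 1 := by rw [hst]; norm_num
    linear_combination c * this
  nlinarith

lemma sqrt_lip {c a b : ℝ} (hc : 0 ≤ c) : √(a ^ 2 + c) ≤ √(b ^ 2 + c) + |a - b| := by
  refine Real.sqrt_le_iff.2 ⟨by positivity, ?_⟩
  have h1 : √(b ^ 2 + c) ^ 2 = b ^ 2 + c := Real.sq_sqrt (by positivity)
  have h2 : |b| ≤ √(b ^ 2 + c) := Real.abs_le_sqrt (by linarith)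
  have h3 : |a| ≤ |b| + |a - b| := by
    have := abs_add_le b (a - b)
    rwa [add_sub_cancel] at this
  have h4 : a ^ 2 ≤ (|b| + |a - b|) ^ 2 := by
    rw [← sq_abs a]
    exact pow_le_pow_left₀ (abs_nonneg _) h3 2
  have h5 : |b| * |a - b| ≤ √(b ^ 2 + c) * |a - b| :=
    mul_le_mul_of_nonneg_right h2 (abs_nonneg _)
  have h6 := sq_abs b
  nlinarith

/-- the smooth maximum -/
noncomputable def mm (c a b : ℝ) : ℝ := (a + b + √((a - b) ^ 2 + c)) / 2

lemma V_eq (w : ℝ) (p : E 8) : V w p = mm (w ^ 16) (AA w (p 0)) (r2 p) := rfl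

lemma mm_mono {c a b a' b' : ℝ} (hc : 0 ≤ c) (ha : a ≤ a') (hb : b ≤ b') :
    mm c a b ≤ mm c a' b' := by
  unfold mm
  have h := sqrt_lip (a := a - b) (b := a' - b') hc
  have h2 : |(a - b) - (a' - b')| ≤ (a' - a) + (b' - b) := by
    rw [abs_le]
    constructor <;> linarith
  linarith

lemma mm_conv {c a b a' b' s t : ℝ} (hc : 0 ≤ c) (hs : 0 ≤ s) (ht : 0 ≤ t) (hst : s + t = 1) :
    mm c (s * a + t * a') (s * b + t * b') ≤ s * mm c a b + t * mm c a' b' := by
  unfold mm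
  have h := sqrt_conv (a := a - b) (b := a' - b') hs ht hst hc
  rw [show s * (a - b) + t * (a' - b') = s * a + t * a' - (s * b + t * b') by ring] at h
  linarith

lemma le_mm_left {c a b : ℝ} (hc : 0 ≤ c) : a ≤ mm c a b := by
  unfold mm
  have : |a - b| ≤ √((a - b) ^ 2 + c) := Real.abs_le_sqrt (by linarith)
  have := (le_abs_self (a - b)).trans this
  linarith

lemma le_mm_right {c a b : ℝ} (hc : 0 ≤ c) : b ≤ mm c a b := by
  unfold mm
  have : |a - b| ≤ √((a - b) ^ 2 + c) := Real.abs_le_sqrt (by linarith)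
  have := (neg_abs_le (a - b)).trans' (neg_le_neg this)
  linarith

lemma mm_le {d a b : ℝ} (hd : 0 ≤ d) : mm (d ^ 2) a b ≤ max a b + d / 2 := by
  unfold mm
  have h1 : √((a - b) ^ 2 + d ^ 2) ≤ |a - b| + d := by
    refine Real.sqrt_le_iff.2 ⟨by positivity, ?_⟩
    have := sq_abs (a - b)
    nlinarith [mul_nonneg (abs_nonneg (a - b)) hd]
  have h2 : a + b + |a - b| = 2 * max a b := by
    rcases le_total a b with h | h
    · rw [max_eq_right h, abs_of_nonpos (by linarith)]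
      ring
    · rw [max_eq_left h, abs_of_nonneg (by linarith)]
      ring
  linarith

/-! ### the potential -/

lemma r2_nonneg (p : E 8) : 0 ≤ r2 p := Finset.sum_nonneg fun i _ => sq_nonneg _

lemma sq_le_r2 {p : E 8} {i : Fin 8} (hi : i ∈ yI) : p i ^ 2 ≤ r2 p :=
  Finset.single_le_sum (f := fun i => p i ^ 2) (fun i _ => sq_nonneg _) hi

lemma r2_le_V {w : ℝ} (p : E 8) : r2 p ≤ V w p := le_mm_right (by positivity)

lemma AA_le_V {w : ℝ} (p : E 8) : AA w (p 0) ≤ V w p := le_mm_left (by positivity)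

lemma V_nonneg {w : ℝ} (p : E 8) : 0 ≤ V w p := (r2_nonneg p).trans (r2_le_V p)

lemma V_le {w : ℝ} (p : E 8) : V w p ≤ max (AA w (p 0)) (r2 p) + w ^ 8 / 2 := by
  rw [V_eq, show w ^ 16 = (w ^ 8) ^ 2 by ring]
  exact mm_le (by positivity)

lemma sq_le_AA {w : ℝ} (x : ℝ) : w ^ 2 ≤ AA w x := by
  unfold AA
  have : 0 ≤ w ^ 6 * √(x ^ 2 + w ^ 2) := by positivity
  linarith

lemma AA_nonneg {w : ℝ} (x : ℝ) : 0 ≤ AA w x := (sq_nonneg w).trans (sq_le_AA x)

lemma AA_conv {w a b s t : ℝ} (hs : 0 ≤ s) (ht : 0 ≤ t) (hst : s + t = 1) :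
    AA w (s * a + t * b) ≤ s * AA w a + t * AA w b := by
  unfold AA
  have h := sqrt_conv (a := a) (b := b) hs ht hst (sq_nonneg w)
  have h2 := mul_le_mul_of_nonneg_left h (show 0 ≤ w ^ 6 by positivity)
  have h3 : w ^ 2 = s * w ^ 2 + t * w ^ 2 := by rw [← add_mul, hst, one_mul]
  nlinarith

lemma r2_conv {p q : E 8} {s t : ℝ} (hs : 0 ≤ s) (ht : 0 ≤ t) (hst : s + t = 1) :
    r2 (s • p + t • q) ≤ s * r2 p + t * r2 q := by
  unfold r2
  rw [Finset.mul_sum, Finset.mul_sum, ← Finset.sum_add_distrib]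
  refine Finset.sum_le_sum fun i _ => ?_
  simp only [PiLp.add_apply, PiLp.smul_apply, smul_eq_mul]
  have ht' : t = 1 - s := by linarith
  subst ht'
  nlinarith [mul_nonneg (mul_nonneg hs ht) (sq_nonneg (p i - q i))]

lemma V_conv {w : ℝ} {p q : E 8} {s t : ℝ} (hs : 0 ≤ s) (ht : 0 ≤ t) (hst : s + t = 1) :
    V w (s • p + t • q) ≤ s * V w p + t * V w q := by
  rw [V_eq, V_eq, V_eq]
  refine (mm_mono (by positivity) ?_ (r2_conv hs ht hst)).trans (mm_conv (by positivity) hs ht hst)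
  simp only [PiLp.add_apply, PiLp.smul_apply, smul_eq_mul]
  exact AA_conv hs ht hst

lemma AA_contDiff {w : ℝ} (hw : 0 < w) {m : WithTop ℕ∞} : ContDiff ℝ m (AA w) := by
  unfold AA
  refine contDiff_const.add (contDiff_const.mul ?_)
  refine ContDiff.sqrt ?_ fun x => by positivity
  exact (contDiff_id.pow 2).add contDiff_const

lemma contDiff_coord {n : ℕ} (i : Fin n) {m : WithTop ℕ∞} : ContDiff ℝ m (fun p : E n => p i) :=
  (EuclideanSpace.proj i : E n →L[ℝ] ℝ).contDiff

lemma r2_contDiff {m : WithTop ℕ∞} : ContDiff ℝ m r2 := by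
  unfold r2
  exact ContDiff.sum fun i _ => (contDiff_coord i).pow 2

lemma V_contDiff {w : ℝ} (hw : 0 < w) {m : WithTop ℕ∞} : ContDiff ℝ m (V w) := by
  unfold V
  have h1 : ContDiff ℝ m (fun p : E 8 => AA w (p 0)) := (AA_contDiff hw).comp (contDiff_coord 0)
  refine ((h1.add r2_contDiff).add ?_).div_const 2
  refine ContDiff.sqrt (((h1.sub r2_contDiff).pow 2).add contDiff_const) fun x => ?_
  positivity

lemma hh_contDiff {w : ℝ} (hw : 0 < w) (k : ℝ) {m : WithTop ℕ∞} : ContDiff ℝ m (hh w k) := by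
  unfold hh
  exact contDiff_const.sub ((V_contDiff hw).div_const _)

lemma hh_le_one {w k : ℝ} (p : E 8) : hh w k p ≤ 1 := by
  unfold hh
  have := V_nonneg (w := w) p
  have : 0 ≤ V w p / (2 * k ^ 2) := by positivity
  linarith

lemma V_indep {w : ℝ} {p q : E 8} (h : ∀ i : Fin 8, i ≠ 7 → p i = q i) : V w p = V w q := by
  unfold V
  have h1 : p 0 = q 0 := h 0 (by decide)
  have h2 : r2 p = r2 q := by
    unfold r2
    refine Finset.sum_congr rfl fun i hi => ?_
    rw [h i ?_]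
    rintro rfl
    exact absurd hi (by decide)
  rw [h1, h2]

lemma hh_indep {w k : ℝ} {p q : E 8} (h : ∀ i : Fin 8, i ≠ 7 → p i = q i) :
    hh w k p = hh w k q := by
  unfold hh
  rw [V_indep h]

lemma kap_indep {w k : ℝ} {p q : E 8} (h : ∀ i : Fin 8, i ≠ 7 → p i = q i) :
    kap w k p = kap w k q := by
  unfold kap
  rw [hh_indep h]

/-- invariance of `V` under sign changes of coordinates -/
lemma V_sign {w : ℝ} {p q : E 8} (h : ∀ i : Fin 8, q i = p i ∨ q i = -(p i)) : V w q = V w p := by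
  unfold V
  have h1 : AA w (q 0) = AA w (p 0) := by
    unfold AA
    rcases h 0 with h | h <;> rw [h]
    rw [neg_sq]
  have h2 : r2 q = r2 p := by
    unfold r2
    refine Finset.sum_congr rfl fun i hi => ?_
    rcases h i with h | h <;> rw [h]
    rw [neg_sq]
  rw [h1, h2]

/-! ### the domain -/

lemma hh_pos_of_mem {w k : ℝ} (hk : 0 < k) {p : E 8} (hp : p ∈ Om w k) : 0 < hh w k p := by
  have h := (abs_nonneg _).trans_lt hp.2
  have h2 : 0 < π / (2 * k) := by positivity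
  exact (mul_pos_iff_of_pos_left h2).1 h

lemma kap_pos_of_mem {w k : ℝ} (hk : 0 < k) {p : E 8} (hp : p ∈ Om w k) : 0 < kap w k p :=
  div_pos hk (hh_pos_of_mem hk hp)

lemma abs_kap_mul_lt {w k : ℝ} (hk : 0 < k) {p : E 8} (hp : p ∈ Om w k) :
    |kap w k p * p 7| < π / 2 := by
  have hh0 := hh_pos_of_mem hk hp
  rw [abs_mul, abs_of_pos (kap_pos_of_mem hk hp)]
  unfold kap
  have h := mul_lt_mul_of_pos_left hp.2 (div_pos hk hh0)
  have e : k / hh w k p * (π / (2 * k) * hh w k p) = π / 2 := by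
    field_simp
  rwa [e] at h

lemma V_lt_of_mem {w k : ℝ} (hk : 0 < k) {p : E 8} (hp : p ∈ Om w k) : V w p < 2 * k ^ 2 := by
  have h := hh_pos_of_mem hk hp
  unfold hh at h
  have h2 : V w p / (2 * k ^ 2) < 1 := by linarith
  rwa [div_lt_one (by positivity)] at h2

lemma Om_isOpen {w : ℝ} (hw : 0 < w) (k : ℝ) : IsOpen (Om w k) := by
  unfold Om
  have h1 : Continuous (fun p : E 8 => |p 0|) := (contDiff_coord (m := 0) 0).continuous.abs
  have h2 : Continuous (fun p : E 8 => |p 7|) := (contDiff_coord (m := 0) 7).continuous.abs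
  have h3 : Continuous (hh w k) := (hh_contDiff (m := 0) hw k).continuous
  exact (isOpen_lt h1 continuous_const).inter (isOpen_lt h2 (continuous_const.mul h3))

lemma Om_convex {w k : ℝ} (hk : 0 < k) : Convex ℝ (Om w k) := by
  intro p hp q hq s t hs ht hst
  have hV := V_conv (w := w) (p := p) (q := q) hs ht hst
  have key : ∀ {a b c d : ℝ}, |a| < c → |b| < d → |s * a + t * b| < s * c + t * d := by
    intro a b c d ha hb
    have h1 : |s * a + t * b| ≤ s * |a| + t * |b| := by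
      refine (abs_add_le _ _).trans (le_of_eq ?_)
      rw [abs_mul, abs_mul, abs_of_nonneg hs, abs_of_nonneg ht]
    rcases hs.eq_or_lt with rfl | hs'
    · have : t = 1 := by linarith
      subst this
      simpa using hb
    · have h2 := mul_lt_mul_of_pos_left ha hs'
      have h3 := mul_le_mul_of_nonneg_left hb.le ht
      linarith
  refine ⟨?_, ?_⟩
  · have h := key hp.1 hq.1
    simp only [PiLp.add_apply, PiLp.smul_apply, smul_eq_mul]
    rwa [← add_mul, hst, one_mul] at h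
  · have h := key hp.2 hq.2
    simp only [PiLp.add_apply, PiLp.smul_apply, smul_eq_mul]
    refine h.trans_le ?_
    have h5 : s * hh w k p + t * hh w k q ≤ hh w k (s • p + t • q) := by
      unfold hh
      have h6 : V w (s • p + t • q) / (2 * k ^ 2) ≤ (s * V w p + t * V w q) / (2 * k ^ 2) :=
        div_le_div_of_nonneg_right hV (by positivity)
      have h7 : s * (1 - V w p / (2 * k ^ 2)) + t * (1 - V w q / (2 * k ^ 2)) =
          1 - (s * V w p + t * V w q) / (2 * k ^ 2) := by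
        have : s * (1 - V w p / (2 * k ^ 2)) + t * (1 - V w q / (2 * k ^ 2)) =
          (s + t) - (s * V w p + t * V w q) / (2 * k ^ 2) := by ring
        rw [this, hst]
      rw [h7]
      linarith
    have h8 := mul_le_mul_of_nonneg_left h5 (show 0 ≤ π / (2 * k) by positivity)
    linarith

lemma Om_zero_mem {w k : ℝ} (hw : 0 < w) (hw1 : w ≤ 1 / 4) (hk : 1 ≤ k) :
    (0 : E 8) ∈ Om w k := by
  have hk0 : 0 < k := by linarith
  refine ⟨?_, ?_⟩
  · simp only [PiLp.zero_apply, abs_zero]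
    positivity
  · simp only [PiLp.zero_apply, abs_zero]
    refine mul_pos (by positivity) ?_
    unfold hh
    have h1 : V w (0 : E 8) ≤ 1 := by
      have h2 := V_le (w := w) (0 : E 8)
      have h3 : r2 (0 : E 8) = 0 := by
        unfold r2
        simp
      have h4 : AA w ((0 : E 8) 0) ≤ 1 / 2 := by
        unfold AA
        simp only [PiLp.zero_apply]
        rw [zero_pow two_ne_zero, zero_add, Real.sqrt_sq hw.le]
        have h5 : w ^ 2 ≤ (1 / 4) ^ 2 := pow_le_pow_left₀ hw.le hw1 2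
        have h6 : w ^ 6 ≤ (1 / 4) ^ 6 := pow_le_pow_left₀ hw.le hw1 6
        nlinarith [mul_le_mul h6 hw1 hw.le (by positivity)]
      rw [h3] at h2
      have h5 : max (AA w ((0 : E 8) 0)) 0 ≤ 1 / 2 := max_le h4 (by norm_num)
      have h6 : w ^ 8 ≤ 1 := pow_le_one₀ hw.le (by linarith)
      linarith
    have h2 : V w (0 : E 8) / (2 * k ^ 2) < 1 := by
      rw [div_lt_one (by positivity)]
      nlinarith
    linarith

lemma Om_bounded {w k : ℝ} (hk : 0 < k) : Bornology.IsBounded (Om w k) := by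
  have hb : Om w k ⊆ Metric.closedBall (0 : E 8)
      (√((w ^ 4)⁻¹ ^ 2 + (π / (2 * k)) ^ 2 + 2 * k ^ 2)) := by
    intro p hp
    rw [mem_closedBall_zero_iff, EuclideanSpace.norm_eq]
    apply Real.sqrt_le_sqrt
    have e : ∑ i : Fin 8, ‖p i‖ ^ 2 = p 0 ^ 2 + r2 p + p 7 ^ 2 := by
      simp only [Real.norm_eq_abs, sq_abs]
      unfold r2
      have : (Finset.univ : Finset (Fin 8)) = insert 0 (insert 7 yI) := by decide
      rw [this, Finset.sum_insert (by decide), Finset.sum_insert (by decide)]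
      ring
    rw [e]
    have h1 : p 0 ^ 2 ≤ (w ^ 4)⁻¹ ^ 2 := by
      rw [← sq_abs]
      exact pow_le_pow_left₀ (abs_nonneg _) hp.1.le 2
    have h2 : p 7 ^ 2 ≤ (π / (2 * k)) ^ 2 := by
      rw [← sq_abs]
      refine pow_le_pow_left₀ (abs_nonneg _) (hp.2.le.trans ?_) 2
      exact mul_le_of_le_one_right (by positivity) (hh_le_one p)
    have h3 : r2 p ≤ 2 * k ^ 2 := (r2_le_V p).trans (V_lt_of_mem hk hp).le
    linarith
  exact Metric.isBounded_closedBall.subset hb

/-- reflection in the `i`-th coordinate -/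
noncomputable def refl {n : ℕ} (i : Fin n) : E n ≃ₗᵢ[ℝ] E n :=
  LinearIsometryEquiv.piLpCongrRight 2
    (fun j => if j = i then LinearIsometryEquiv.neg ℝ else LinearIsometryEquiv.refl ℝ ℝ)

lemma refl_apply {n : ℕ} (i j : Fin n) (p : E n) :
    (refl i p) j = if j = i then -(p j) else p j := by
  unfold refl
  rw [LinearIsometryEquiv.piLpCongrRight_apply]
  by_cases h : j = i
  · simp [h]
  · simp [h]

lemma Om_refl {w k : ℝ} (i : Fin 8) (p : E 8) : refl i p ∈ Om w k ↔ p ∈ Om w k := by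
  have h1 : ∀ j, (refl i p) j = p j ∨ (refl i p) j = -(p j) := by
    intro j
    rw [refl_apply]
    by_cases h : j = i
    · right; rw [if_pos h]
    · left; rw [if_neg h]
  have h2 : hh w k (refl i p) = hh w k p := by
    unfold hh
    rw [V_sign h1]
  have h3 : ∀ j, |(refl i p) j| = |p j| := by
    intro j
    rcases h1 j with h | h <;> rw [h]
    rw [abs_neg]
  unfold Om
  simp only [mem_setOf_eq]
  rw [h2, h3, h3]

lemma Om_cos_pos {w k : ℝ} (hk : 0 < k) {p : E 8} (hp : p ∈ Om w k) :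
    0 < Real.cos (kap w k p * p 7) := by
  have h := abs_lt.1 (abs_kap_mul_lt hk hp)
  exact Real.cos_pos_of_mem_Ioo ⟨by linarith [h.1], h.2⟩

theorem targetGeom : TargetGeom := by
  intro w k hw hw1 hk
  have hk0 : 0 < k := by linarith
  exact ⟨Om_isOpen hw k, Om_convex hk0, Om_bounded hk0, Om_zero_mem hw hw1 hk,
    fun i => ⟨refl i, fun p j => refl_apply i j p, Om_refl i⟩,
    fun p hp => hh_pos_of_mem hk0 hp, fun p hp => Om_cos_pos hk0 hp⟩

/-- `κ² ≥ k² + V` on the domain -/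
lemma kap_sq_ge {w k : ℝ} (hk : 0 < k) {p : E 8} (hp : 0 < hh w k p) :
    k ^ 2 + V w p ≤ kap w k p ^ 2 := by
  unfold kap
  rw [div_pow, le_div_iff₀ (by positivity)]
  have hV := V_nonneg (w := w) p
  have e : V w p = 2 * k ^ 2 * (1 - hh w k p) := by
    unfold hh
    field_simp
    ring
  have h1 := hh_le_one (w := w) (k := k) p
  set h := hh w k p
  rw [e]
  have h2 : (1 + 2 * (1 - h)) * h ^ 2 ≤ 1 := by
    nlinarith [mul_nonneg (sub_nonneg.2 h1) (sub_nonneg.2 h1), mul_nonneg hp.le (mul_nonneg (sub_nonneg.2 h1) (sub_nonneg.2 h1))]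
  have h3 := mul_le_mul_of_nonneg_left h2 (sq_nonneg k)
  nlinarith

end Pool.Agent.GS8
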