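import Pool.Agent.GS8.GreenWin

/-!
# Job 9b: `TargetGreen`
-/

set_option autoImplicit false

open MeasureTheory Set Filter Topology
open scoped Real ContDiff

namespace Pool.Agent.GS8.Gr

variable {w k lam A : ℝ} {u η : E 8 → ℝ}

/-- truncated trial function -/
noncomputable def Pj (w k : ℝ) (η : E 8 → ℝ) (j : ℕ) (p : E 8) : ℝ :=
  (Om w k).indicator (fun q => η q * FF (lev j) (cc w k q)) p

/-- the compact set carrying the truncated trial function -/
def Kj (w k : ℝ) (j : ℕ) : Set (E 8) :=
  (bx ∩ {p | |p 7| ≤ π / (2 * k) * hh w k p}) ∩ (cc w k) ⁻¹' (Ici (lev j))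

lemma Ctx.closed_Kj (c : Ctx w k lam A u η) (j : ℕ) : IsClosed (Kj w k j) := by
  have h1 : IsClosed (bx ∩ {p : E 8 | |p 7| ≤ π / (2 * k) * hh w k p}) := by
    apply isClosed_bx.inter
    apply isClosed_le
    · exact continuous_abs.comp (contDiff_coord (m := 0) 7).continuous
    · exact continuous_const.mul (contDiff_hh c.w0 k).continuous
  apply ContinuousOn.preimage_isClosed_of_isClosed _ h1 isClosed_Ici
  intro p hp
  have := c.hh_box hp.1
  exact (contDiffAt_cc c.w0 (by linarith)).continuousAt.continuousWithinAt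

lemma Ctx.Kj_sub (c : Ctx w k lam A u η) (j : ℕ) : Kj w k j ⊆ Om w k := by
  intro p hp
  have hk := c.k0
  have hw := c.w0
  have hh0 := c.hh_box hp.1.1
  refine ⟨?_, ?_⟩
  · have h1 : |p 0| ≤ 1 := hp.1.1 0 (by decide)
    have h2 : (1 : ℝ) < (w ^ 4)⁻¹ := by
      apply (one_lt_inv₀ (by positivity)).2
      have := c.w4
      calc w ^ 4 ≤ (1 / 4) ^ 4 := pow_le_pow_left₀ hw.le this 4
        _ < 1 := by norm_num
    linarith
  · have h1 : |p 7| ≤ π / (2 * k) * hh w k p := hp.1.2
    rcases lt_or_eq_of_le h1 with h | h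
    · exact h
    · exfalso
      have h2 : lev j ≤ cc w k p := hp.2
      have h3 : |ph w k p| = π / 2 := by
        unfold ph kap
        rw [abs_mul, abs_of_pos (by positivity : 0 < k / hh w k p), h]
        field_simp
      have h4 : cc w k p = 0 := by
        unfold cc
        rw [← Real.cos_abs, h3, Real.cos_pi_div_two]
      have := lev_pos j
      linarith

lemma Ctx.bounded_Kj (c : Ctx w k lam A u η) (j : ℕ) : IsCompact (Kj w k j) :=
  (c.G.bounded.isCompact_closure).of_isClosed_subset (c.closed_Kj j)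
    ((c.Kj_sub j).trans subset_closure)

lemma Ctx.supp_Pj (c : Ctx w k lam A u η) (j : ℕ) : Function.support (Pj w k η j) ⊆ Kj w k j := by
  intro p hp
  have h1 : p ∈ Om w k := by
    by_contra h
    exact hp (by unfold Pj; rw [indicator_of_notMem h])
  have h2 : Pj w k η j p = η p * FF (lev j) (cc w k p) := by
    unfold Pj; rw [indicator_of_mem h1]
  refine ⟨⟨?_, h1.2.le⟩, ?_⟩
  · by_contra h
    apply hp
    rw [h2, XTest.zero_of_notMem c.xt h, zero_mul]
  · by_contra h
    apply hp
    have h3 : cc w k p ≤ lev j := (not_le.1 h).le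
    rw [h2]
    simp [FF, h3]

lemma Ctx.tsupp_Pj (c : Ctx w k lam A u η) (j : ℕ) : tsupport (Pj w k η j) ⊆ Kj w k j :=
  closure_minimal (c.supp_Pj j) (c.closed_Kj j)

lemma Ctx.Pj_eq (c : Ctx w k lam A u η) (j : ℕ) {p : E 8} (hp : p ∈ Om w k) :
    Pj w k η j =ᶠ[𝓝 p] fun q => η q * FF (lev j) (cc w k q) := by
  filter_upwards [c.G.isOpen.mem_nhds hp] with q hq
  unfold Pj; rw [indicator_of_mem hq]

lemma Ctx.test_Pj (c : Ctx w k lam A u η) (j : ℕ) : Test1 (Om w k) (Pj w k η j) := by
  refine ⟨?_, (c.bounded_Kj j).of_isClosed_subset (isClosed_tsupport _) (c.tsupp_Pj j),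
    (c.tsupp_Pj j).trans (c.Kj_sub j)⟩
  rw [contDiff_iff_contDiffAt]
  intro x
  by_cases hx : x ∈ Om w k
  · apply ContDiffAt.congr_of_eventuallyEq _ (c.Pj_eq j hx)
    apply ContDiffAt.mul
    · exact (c.xt.smooth.of_le (by exact_mod_cast le_top)).contDiffAt
    · apply ContDiffAt.comp x (contDiff_FF (lev_pos j)).contDiffAt
      exact (contDiffAt_cc c.w0 (c.hh_pos hx).ne').of_le (by exact_mod_cast le_top)
  · have hx' : x ∉ tsupport (Pj w k η j) := fun h => hx (c.Kj_sub j (c.tsupp_Pj j h))
    have : Pj w k η j =ᶠ[𝓝 x] fun _ => 0 := notMem_tsupport_iff_eventuallyEq.1 hx'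
    exact contDiffAt_const.congr_of_eventuallyEq this

lemma Ctx.pd_Pj (c : Ctx w k lam A u η) (j : ℕ) {p : E 8} (hp : p ∈ Om w k) (i : Fin 8) :
    pd i (Pj w k η j) p = η p * (FF' (lev j) (cc w k p) * pd i (cc w k) p) +
      pd i η p * FF (lev j) (cc w k p) := by
  rw [pd_congr (c.Pj_eq j hp)]
  have d1 : DifferentiableAt ℝ η p := c.xt.smooth.differentiable (by simp) p
  have d2 : DifferentiableAt ℝ (cc w k) p :=
    (contDiffAt_cc c.w0 (c.hh_pos hp).ne').differentiableAt (by simp)
  have d3 : DifferentiableAt ℝ (fun q => FF (lev j) (cc w k q)) p :=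
    (hasDerivAt_FF (lev_pos j) _).differentiableAt.comp p d2
  rw [pd_mul d1 d3, pd_comp (hasDerivAt_FF (lev_pos j) _) d2]

/-- a bound for the derivatives of the cosine profile -/
lemma Ctx.cc_all (c : Ctx w k lam A u η) {p : E 8} (hp : p ∈ Om w k) (hb : p ∈ bx) (i : Fin 8) :
    |pd i (cc w k) p| ≤ 4 * A + 2 * k := by
  have hk := c.k0
  have hA := c.A0
  by_cases hi : i = 7
  · subst hi
    have hh0 := c.hh_box hb
    rw [pd_cc c.w0 (by linarith), pd7_ph c.w0 (by linarith), abs_mul, abs_neg,
      abs_of_pos (c.kap_pos hp)]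
    calc |Real.sin (ph w k p)| * kap w k p ≤ 1 * (2 * k) :=
          mul_le_mul (Real.abs_sin_le_one _) (c.kap_le hb) (c.kap_pos hp).le (by norm_num)
      _ ≤ 4 * A + 2 * k := by linarith
  · refine (c.cc1 hp hb hi).trans ?_
    have h1 : 4 * A / k ^ 2 ≤ 4 * A := by
      apply div_le_self (by positivity)
      have := c.k1
      nlinarith
    linarith

/-- the dominating constant -/
noncomputable def DD (A k : ℝ) : ℝ := A * (4 * A + 2 * k) + A

lemma Ctx.DD_nonneg (c : Ctx w k lam A u η) : 0 ≤ DD A k := by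
  have := c.A0
  have := c.k0
  unfold DD; positivity

lemma Ctx.pd_Pj_le (c : Ctx w k lam A u η) (j : ℕ) {p : E 8} (hp : p ∈ Om w k) (i : Fin 8) :
    |pd i (Pj w k η j) p| ≤ DD A k := by
  have hD := c.DD_nonneg
  have hk := c.k0
  have hA := c.A0
  rw [c.pd_Pj j hp]
  by_cases hb : p ∈ bx
  · have hs := c.small hp hb
    have a1 := c.bη p hs
    have a2 := c.bη1 i p hs
    have a3 := c.cc_all hp hb i
    have a4 : |FF' (lev j) (cc w k p)| ≤ 1 := by
      rw [abs_of_nonneg (FF'_nonneg (lev_pos j))]; exact FF'_le (lev_pos j)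
    have a5 : |FF (lev j) (cc w k p)| ≤ 1 := by
      rw [abs_of_nonneg (FF_nonneg (lev_pos j))]
      exact (FF_le (lev_pos j) (c.cc_pos hp).le).trans (cc_le_one _ _ _)
    refine (abs_add_le _ _).trans ?_
    rw [abs_mul, abs_mul, abs_mul]
    calc |η p| * (|FF' (lev j) (cc w k p)| * |pd i (cc w k) p|) + |pd i η p| *
          |FF (lev j) (cc w k p)| ≤ A * (1 * (4 * A + 2 * k)) + A * 1 := by gcongr
      _ = DD A k := by unfold DD; ring
  · have h1 := XTest.ev_zero c.xt hb
    rw [h1.self_of_nhds, (pd_ev_zero h1 i).self_of_nhds]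
    simpa using hD

lemma Ctx.pd_Ps_le (c : Ctx w k lam A u η) {p : E 8} (hp : p ∈ Om w k) (i : Fin 8) :
    |pd i (Ps w k η) p| ≤ DD A k := by
  have hD := c.DD_nonneg
  have hk := c.k0
  have hA := c.A0
  rw [pd_Ps c.w0 c.xt.smooth (c.hh_pos hp).ne']
  by_cases hb : p ∈ bx
  · have hs := c.small hp hb
    have a1 := c.bη p hs
    have a2 := c.bη1 i p hs
    have a3 := c.cc_all hp hb i
    have a5 : |cc w k p| ≤ 1 := Real.abs_cos_le_one _
    refine (abs_add_le _ _).trans ?_
    rw [abs_mul, abs_mul]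
    calc |η p| * |pd i (cc w k) p| + |pd i η p| * |cc w k p| ≤ A * (4 * A + 2 * k) + A * 1 := by
          gcongr
      _ = DD A k := by unfold DD; ring
  · have h1 := XTest.ev_zero c.xt hb
    rw [h1.self_of_nhds, (pd_ev_zero h1 i).self_of_nhds]
    simpa using hD

lemma Ctx.int_pdu (c : Ctx w k lam A u η) (i : Fin 8) :
    IntegrableOn (fun x => |pd i u x|) (Om w k) := by
  have h1 : IntegrableOn (fun x => 1 + pd i u x ^ 2) (Om w k) :=
    (integrableOn_const c.fin.ne).add (c.ca.grad_int i)
  apply Integrable.mono' h1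
  · exact (continuous_abs.measurable.comp (measurable_pd u i)).aestronglyMeasurable
  · apply ae_of_all
    intro x
    rw [Real.norm_eq_abs, abs_abs]
    nlinarith [sq_nonneg (|pd i u x| - 1), sq_abs (pd i u x), abs_nonneg (pd i u x)]

/-- the weak equation against `Ψ` -/
lemma Ctx.weak_Ps (c : Ctx w k lam A u η) :
    ∑ i : Fin 8, ∫ x in Om w k, pd i u x * pd i (Ps w k η) x =
      lam * ∫ x in Om w k, u x * Ps w k η x := by
  have hj := fun j => c.ca.weak _ (c.test_Pj j)
  have hD := c.DD_nonneg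
  have hA := c.A0
  have hM := c.M_pos
  have hmcc : Measurable (cc w k) := Real.measurable_cos.comp (measurable_ph c.w0)
  have l1 : Tendsto (fun j => ∑ i : Fin 8, ∫ x in Om w k, pd i u x * pd i (Pj w k η j) x) atTop
      (𝓝 (∑ i : Fin 8, ∫ x in Om w k, pd i u x * pd i (Ps w k η) x)) := by
    apply tendsto_finsetSum
    intro i _
    apply dct c.meas (b := fun x => |pd i u x| * DD A k)
    · intro j
      exact (measurable_pd u i).mul (measurable_pd _ i)
    · exact (c.int_pdu i).mul_const _
    · intro j x hx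
      rw [abs_mul]
      exact mul_le_mul_of_nonneg_left (c.pd_Pj_le j hx i) (abs_nonneg _)
    · intro x hx
      apply Tendsto.const_mul
      have h1 : (fun j => pd i (Pj w k η j) x) = fun j =>
          η x * (FF' (lev j) (cc w k x) * pd i (cc w k) x) +
            pd i η x * FF (lev j) (cc w k x) := funext fun j => c.pd_Pj j hx i
      rw [h1, pd_Ps c.w0 c.xt.smooth (c.hh_pos hx).ne']
      have h2 := FF'_tendsto (c.cc_pos hx)
      have h3 := FF_tendsto (c.cc_pos hx).le
      have h4 := ((h2.mul_const (pd i (cc w k) x)).const_mul (η x)).add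
        (h3.const_mul (pd i η x))
      simpa using h4
  have l2 : Tendsto (fun j => lam * ∫ x in Om w k, u x * Pj w k η j x) atTop
      (𝓝 (lam * ∫ x in Om w k, u x * Ps w k η x)) := by
    apply Tendsto.const_mul
    apply dct c.meas (b := fun _ => u 0 * A)
    · intro j
      exact c.mu.mul (c.test_Pj j).smooth.continuous.measurable
    · exact integrableOn_const c.fin.ne
    · intro j x hx
      rw [abs_mul, abs_of_nonneg (c.u_nonneg x)]
      have h1 : |Pj w k η j x| ≤ A := by
        unfold Pj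
        rw [indicator_of_mem hx]
        by_cases hb : x ∈ bx
        · rw [abs_mul]
          have a1 := c.bη x (c.small hx hb)
          have a5 : |FF (lev j) (cc w k x)| ≤ 1 := by
            rw [abs_of_nonneg (FF_nonneg (lev_pos j))]
            exact (FF_le (lev_pos j) (c.cc_pos hx).le).trans (cc_le_one _ _ _)
          calc |η x| * |FF (lev j) (cc w k x)| ≤ A * 1 := by gcongr
            _ = A := mul_one _
        · rw [XTest.zero_of_notMem c.xt hb]; simpa using hA
      exact mul_le_mul (c.mx x) h1 (abs_nonneg _) hM.le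
    · intro x hx
      apply Tendsto.const_mul
      have h1 : (fun j => Pj w k η j x) = fun j => η x * FF (lev j) (cc w k x) := by
        funext j; unfold Pj; rw [indicator_of_mem hx]
      rw [h1]
      exact (FF_tendsto (c.cc_pos hx).le).const_mul _
  have l3 : (fun j => ∑ i : Fin 8, ∫ x in Om w k, pd i u x * pd i (Pj w k η j) x) =
      fun j => lam * ∫ x in Om w k, u x * Pj w k η j x := funext hj
  rw [l3] at l1
  exact tendsto_nhds_unique l1 l2

lemma Ctx.contDiffAt_Ps (c : Ctx w k lam A u η) {p : E 8} (hp : p ∈ Om w k) :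
    ContDiffAt ℝ ∞ (Ps w k η) p :=
  c.xt.smooth.contDiffAt.mul (contDiffAt_cc c.w0 (c.hh_pos hp).ne')

lemma Ctx.contDiffAt_pd_Ps (c : Ctx w k lam A u η) {p : E 8} (hp : p ∈ Om w k) (i : Fin 8) :
    ContDiffAt ℝ ∞ (pd i (Ps w k η)) p := by
  have := (c.contDiffAt_Ps hp).fderiv_right (m := ∞) (by simp)
  exact this.clm_apply contDiffAt_const

lemma Ctx.contDiffAt_pd_pd_Ps (c : Ctx w k lam A u η) {p : E 8} (hp : p ∈ Om w k) (i : Fin 8) :
    ContDiffAt ℝ ∞ (pd i (pd i (Ps w k η))) p := by
  have := (c.contDiffAt_pd_Ps hp i).fderiv_right (m := ∞) (by simp)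
  exact this.clm_apply contDiffAt_const

lemma Ctx.lap_Ps_le (c : Ctx w k lam A u η) {p : E 8} (hp : p ∈ Om w k) :
    |lap (Ps w k η) p| ≤ CR A / k ^ 2 + lam * A + CE A := by
  have hmu := c.mu_nonneg
  have hk := c.k0
  have hA := c.A0
  have hCE : 0 ≤ CE A := by unfold CE; positivity
  have hCR : 0 ≤ CR A := by unfold CR; positivity
  have hlam : 0 ≤ lam := (by positivity : 0 ≤ k ^ 2).trans hmu
  by_cases hb : p ∈ bx
  · have h1 : lap (Ps w k η) p = RR w k lam η p - lam * Ps w k η p +
        cc w k p * EE w k lam η p := by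
      unfold RR; ring
    rw [h1]
    have h2 := c.RR_le hp hb
    have h3 : |lam * Ps w k η p| ≤ lam * A := by
      rw [abs_mul, abs_of_nonneg hlam]
      apply mul_le_mul_of_nonneg_left _ hlam
      unfold Ps
      rw [abs_mul]
      have a1 := c.bη p (c.small hp hb)
      have a5 : |cc w k p| ≤ 1 := Real.abs_cos_le_one _
      calc |η p| * |cc w k p| ≤ A * 1 := by gcongr
        _ = A := mul_one _
    have h4 : |cc w k p * EE w k lam η p| ≤ CE A := by
      rw [abs_mul]
      have a5 : |cc w k p| ≤ 1 := Real.abs_cos_le_one _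
      have a6 := c.EE_le hmu hp
      calc |cc w k p| * |EE w k lam η p| ≤ 1 * CE A := by gcongr
        _ = CE A := one_mul _
    calc |RR w k lam η p - lam * Ps w k η p + cc w k p * EE w k lam η p|
        ≤ |RR w k lam η p - lam * Ps w k η p| + |cc w k p * EE w k lam η p| := abs_add_le _ _
      _ ≤ (|RR w k lam η p| + |lam * Ps w k η p|) + |cc w k p * EE w k lam η p| := by
          gcongr; exact abs_sub _ _
      _ ≤ CR A / k ^ 2 + lam * A + CE A := by gcongr
  · rw [lap_ev_zero (Ps_ev_zero c.xt hb), abs_zero]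
    positivity

/-- Green's identity -/
lemma Ctx.green (c : Ctx w k lam A u η) :
    ∫ x in Om w k, u x * lap (Ps w k η) x =
      -∑ i : Fin 8, ∫ x in Om w k, pd i u x * pd i (Ps w k η) x := by
  have hD := c.DD_nonneg
  have hM := c.M_pos
  -- integration by parts for the truncations
  have hj : ∀ j : ℕ, ∫ x in Om w k, FF (lev j) (u x) * lap (Ps w k η) x =
      -∑ i : Fin 8, ∫ x in Om w k, (FF' (lev j) (u x) * pd i u x) * pd i (Ps w k η) x := by
    intro j
    set f : E 8 → ℝ := fun x => FF (lev j) (u x) with hf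
    have ht : Test1 (Om w k) f := c.ca.trunc _ (lev_pos j)
    have hfz : ∀ x, x ∉ Om w k → f x = 0 := fun x hx => c.f_zero j hx
    have hcont1 : ∀ i : Fin 8, ContinuousOn (pd i (Ps w k η)) (Om w k) := fun i x hx =>
      (c.contDiffAt_pd_Ps hx i).continuousAt.continuousWithinAt
    have hcont2 : ∀ i : Fin 8, ContinuousOn (pd i (pd i (Ps w k η))) (Om w k) := fun i x hx =>
      (c.contDiffAt_pd_pd_Ps hx i).continuousAt.continuousWithinAt
    have hI : ∀ i : Fin 8, Integrable (fun x => f x * pd i (pd i (Ps w k η)) x) := by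
      intro i
      have := integrable_mul_test c.G.isOpen ht.smooth.continuous ht.cpt ht.sub (hcont2 i)
      refine this.congr (ae_of_all _ (fun x => ?_))
      exact mul_comm _ _
    have h1 : ∫ x in Om w k, f x * lap (Ps w k η) x =
        ∑ i : Fin 8, ∫ x, f x * pd i (pd i (Ps w k η)) x := by
      rw [setIntegral_eq_of_zero (fun x hx => by rw [hfz x hx]; ring)]
      rw [← integral_finsetSum _ (fun i _ => hI i)]
      apply integral_congr_ae
      apply ae_of_all
      intro x
      simp only [lap, Finset.mul_sum]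
    rw [h1, ← Finset.sum_neg_distrib]
    apply Finset.sum_congr rfl
    intro i _
    have hibp := integral_mul_fderiv_eq_neg_fderiv_mul_of_integrable
      (μ := (volume : Measure (E 8))) (f := f) (g := pd i (Ps w k η)) (v := ee i)
      (by
        have := integrable_mul_test c.G.isOpen (contDiff_pd_one ht.smooth i)
          (hasCompactSupport_pd ht.cpt i) ((tsupport_pd_subset f i).trans ht.sub) (hcont1 i)
        refine this.congr (ae_of_all _ (fun x => ?_))
        exact mul_comm _ _)
      (hI i)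
      (by
        have := integrable_mul_test c.G.isOpen ht.smooth.continuous ht.cpt ht.sub (hcont1 i)
        refine this.congr (ae_of_all _ (fun x => ?_))
        exact mul_comm _ _)
      (fun x _ => ht.smooth.differentiable (by norm_num) x)
      (fun x hx => (c.contDiffAt_pd_Ps (ht.sub hx) i).differentiableAt (by simp))
    have h2 : ∫ x, f x * pd i (pd i (Ps w k η)) x =
        ∫ x, f x * fderiv ℝ (pd i (Ps w k η)) x (ee i) := rfl
    rw [h2, hibp]
    congr 1
    rw [← setIntegral_eq_of_zero (Ω := Om w k)]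
    · apply setIntegral_congr_fun c.meas
      intro x _
      have h3 := c.ca.trunc_pd _ (lev_pos j) i x
      change pd i f x * pd i (Ps w k η) x = _
      rw [h3]
    · intro x hx
      have h4 : pd i f x = 0 := by
        by_contra h
        exact hx (ht.sub (tsupport_pd_subset f i (subset_tsupport _ h)))
      change pd i f x * pd i (Ps w k η) x = 0
      rw [h4, zero_mul]
  have l1 : Tendsto (fun j => ∫ x in Om w k, FF (lev j) (u x) * lap (Ps w k η) x) atTop
      (𝓝 (∫ x in Om w k, u x * lap (Ps w k η) x)) := by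
    apply dct c.meas (b := fun _ => u 0 * (CR A / k ^ 2 + lam * A + CE A))
    · intro j
      exact (c.cont_f j).measurable.mul (measurable_lap _)
    · exact integrableOn_const c.fin.ne
    · intro j x hx
      rw [abs_mul]
      have h1 : |FF (lev j) (u x)| ≤ u 0 := by
        rw [abs_of_nonneg (FF_nonneg (lev_pos j))]
        exact (FF_le (lev_pos j) (c.u_nonneg x)).trans (c.mx x)
      exact mul_le_mul h1 (c.lap_Ps_le hx) (abs_nonneg _) hM.le
    · intro x _
      exact (FF_tendsto (c.u_nonneg x)).mul_const _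
  have l2 : Tendsto (fun j => -∑ i : Fin 8, ∫ x in Om w k,
      (FF' (lev j) (u x) * pd i u x) * pd i (Ps w k η) x) atTop
      (𝓝 (-∑ i : Fin 8, ∫ x in Om w k, pd i u x * pd i (Ps w k η) x)) := by
    apply Tendsto.neg
    apply tendsto_finsetSum
    intro i _
    apply dct c.meas (b := fun x => |pd i u x| * DD A k)
    · intro j
      exact (((continuous_FF' (lev_pos j)).measurable.comp c.mu).mul (measurable_pd u i)).mul
        (measurable_pd _ i)
    · exact (c.int_pdu i).mul_const _
    · intro j x hx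
      rw [abs_mul, abs_mul]
      have a4 : |FF' (lev j) (u x)| ≤ 1 := by
        rw [abs_of_nonneg (FF'_nonneg (lev_pos j))]; exact FF'_le (lev_pos j)
      have a5 := c.pd_Ps_le hx i
      calc |FF' (lev j) (u x)| * |pd i u x| * |pd i (Ps w k η) x|
          ≤ 1 * |pd i u x| * DD A k := by gcongr
        _ = |pd i u x| * DD A k := by ring
    · intro x hx
      have h2 := FF'_tendsto (c.gr.pos x hx)
      have h3 := (h2.mul_const (pd i u x)).mul_const (pd i (Ps w k η) x)
      simpa using h3
  rw [funext hj] at l1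
  exact tendsto_nhds_unique l1 l2

lemma Ctx.green_bound (c : Ctx w k lam A u η) :
    |∫ x in Om w k, u x * (cc w k x * EE w k lam η x)| ≤ CR A * (2 ^ 7 * π) * u 0 / k ^ 2 := by
  have hmu := c.mu_nonneg
  have hk := c.k0
  have hA := c.A0
  have hM := c.M_pos
  have hCE : 0 ≤ CE A := by unfold CE; positivity
  have hCR : 0 ≤ CR A := by unfold CR; positivity
  have hlam : 0 ≤ lam := (by positivity : 0 ≤ k ^ 2).trans hmu
  have hmcc : Measurable (cc w k) := Real.measurable_cos.comp (measurable_ph c.w0)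
  have hmE : Measurable (EE w k lam η) := (contDiff_EE c.w0 c.xt.smooth).continuous.measurable
  have hmη : Measurable η := c.xt.smooth.continuous.measurable
  have hmPs : Measurable (Ps w k η) := hmη.mul hmcc
  have hmR : Measurable (RR w k lam η) :=
    ((measurable_lap _).add (hmPs.const_mul lam)).sub (hmcc.mul hmE)
  have hR : ∀ x ∈ Om w k, |RR w k lam η x| ≤ CR A / k ^ 2 := by
    intro x hx
    by_cases hb : x ∈ bx
    · exact c.RR_le hx hb
    · rw [RR_zero c.xt hb, abs_zero]; positivity
  have hPsb : ∀ x ∈ Om w k, |Ps w k η x| ≤ A := by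
    intro x hx
    unfold Ps
    by_cases hb : x ∈ bx
    · rw [abs_mul]
      have a1 := c.bη x (c.small hx hb)
      have a5 : |cc w k x| ≤ 1 := Real.abs_cos_le_one _
      calc |η x| * |cc w k x| ≤ A * 1 := by gcongr
        _ = A := mul_one _
    · rw [XTest.zero_of_notMem c.xt hb]; simpa using hA
  have hu : ∀ x, |u x| ≤ u 0 := fun x => by rw [abs_of_nonneg (c.u_nonneg x)]; exact c.mx x
  have i1 : IntegrableOn (fun x => u x * lap (Ps w k η) x) (Om w k) := by
    apply integrableOn_bdd c.meas c.fin (c.mu.mul (measurable_lap _))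
      (C := u 0 * (CR A / k ^ 2 + lam * A + CE A))
    intro x hx
    change |u x * lap (Ps w k η) x| ≤ _
    rw [abs_mul]
    exact mul_le_mul (hu x) (c.lap_Ps_le hx) (abs_nonneg _) hM.le
  have i2 : IntegrableOn (fun x => u x * Ps w k η x) (Om w k) := by
    apply integrableOn_bdd c.meas c.fin (c.mu.mul hmPs) (C := u 0 * A)
    intro x hx
    change |u x * Ps w k η x| ≤ _
    rw [abs_mul]
    exact mul_le_mul (hu x) (hPsb x hx) (abs_nonneg _) hM.le
  have i3 : IntegrableOn (fun x => u x * RR w k lam η x) (Om w k) := by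
    apply integrableOn_bdd c.meas c.fin (c.mu.mul hmR) (C := u 0 * (CR A / k ^ 2))
    intro x hx
    change |u x * RR w k lam η x| ≤ _
    rw [abs_mul]
    exact mul_le_mul (hu x) (hR x hx) (abs_nonneg _) hM.le
  have h1 : ∫ x in Om w k, u x * (cc w k x * EE w k lam η x) =
      -∫ x in Om w k, u x * RR w k lam η x := by
    have h2 : ∫ x in Om w k, u x * (cc w k x * EE w k lam η x) =
        ∫ x in Om w k, ((u x * lap (Ps w k η) x + lam * (u x * Ps w k η x)) -
          u x * RR w k lam η x) := by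
      apply integral_congr_ae
      apply ae_of_all
      intro x
      simp only [RR]
      ring
    have i12 : IntegrableOn (fun x => u x * lap (Ps w k η) x + lam * (u x * Ps w k η x))
      (Om w k) := i1.add (i2.const_mul lam)
    rw [h2, integral_sub i12 i3, integral_add i1 (i2.const_mul lam),
      integral_const_mul, c.green, c.weak_Ps]
    ring
  rw [h1, abs_neg]
  have h3 : ∫ x in Om w k, u x * RR w k lam η x = ∫ x in Om w k ∩ bx, u x * RR w k lam η x := by
    symm
    refine (setIntegral_eq_of_subset_of_forall_sdiff_eq_zero c.meas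
      (inter_subset_left (t := bx)) ?_).symm
    intro x hx
    have hb : x ∉ bx := fun h => hx.2 ⟨hx.1, h⟩
    rw [RR_zero c.xt hb, mul_zero]
  rw [h3]
  have h4 := integral_le_bdd (S := Om w k ∩ bx) (F := fun x => u x * RR w k lam η x)
    (C := u 0 * (CR A / k ^ 2)) ((measure_mono inter_subset_left).trans_lt c.fin)
    (fun x hx => by
      rw [abs_mul]
      exact mul_le_mul (hu x) (hR x hx.1) (abs_nonneg _) hM.le)
  refine h4.trans ?_
  have h5 := c.vol_box
  calc u 0 * (CR A / k ^ 2) * (volume (Om w k ∩ bx)).toReal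
      ≤ u 0 * (CR A / k ^ 2) * (2 ^ 7 * π / k) := by gcongr
    _ ≤ u 0 * (CR A / k ^ 2) * (2 ^ 7 * π) := by
        apply mul_le_mul_of_nonneg_left _ (by positivity)
        apply div_le_self (by positivity) c.k1
    _ = CR A * (2 ^ 7 * π) * u 0 / k ^ 2 := by ring

end Pool.Agent.GS8.Gr

namespace Pool.Agent.GS8

open Gr

theorem targetGreen : TargetGreen := by
  intro w β B Q CQ b₀ η hw hw4 _ _ hW hη
  -- the constants
  have hV := contDiff_V hw
  obtain ⟨A1, hA1, hb1⟩ := exists_bound hV.continuous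
  obtain ⟨A2, hA2, hb2⟩ := exists_bound hη.smooth.continuous
  obtain ⟨A3, hA3, hb3⟩ := exists_bound (contDiff_lap hη.smooth).continuous
  have e4 : ∀ i : Fin 8, ∃ A : ℝ, 0 ≤ A ∧ ∀ p : E 8, (∀ i, |p i| ≤ 2) → |pd i (V w) p| ≤ A :=
    fun i => exists_bound (contDiff_pd hV i).continuous
  have e5 : ∀ i : Fin 8, ∃ A : ℝ, 0 ≤ A ∧ ∀ p : E 8, (∀ i, |p i| ≤ 2) →
      |pd i (pd i (V w)) p| ≤ A := fun i => exists_bound (contDiff_pd (contDiff_pd hV i) i).continuous
  have e6 : ∀ i : Fin 8, ∃ A : ℝ, 0 ≤ A ∧ ∀ p : E 8, (∀ i, |p i| ≤ 2) → |pd i η p| ≤ A :=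
    fun i => exists_bound (contDiff_pd hη.smooth i).continuous
  choose A4 hA4 hb4 using e4
  choose A5 hA5 hb5 using e5
  choose A6 hA6 hb6 using e6
  set A : ℝ := A1 + A2 + A3 + ∑ i, A4 i + ∑ i, A5 i + ∑ i, A6 i with hA
  have s4 : 0 ≤ ∑ i, A4 i := Finset.sum_nonneg (fun i _ => hA4 i)
  have s5 : 0 ≤ ∑ i, A5 i := Finset.sum_nonneg (fun i _ => hA5 i)
  have s6 : 0 ≤ ∑ i, A6 i := Finset.sum_nonneg (fun i _ => hA6 i)
  have t4 : ∀ i, A4 i ≤ ∑ i, A4 i := fun i =>
    Finset.single_le_sum (f := A4) (fun i _ => hA4 i) (Finset.mem_univ i)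
  have t5 : ∀ i, A5 i ≤ ∑ i, A5 i := fun i =>
    Finset.single_le_sum (f := A5) (fun i _ => hA5 i) (Finset.mem_univ i)
  have t6 : ∀ i, A6 i ≤ ∑ i, A6 i := fun i =>
    Finset.single_le_sum (f := A6) (fun i _ => hA6 i) (Finset.mem_univ i)
  have hA0 : 0 ≤ A := by rw [hA]; positivity
  refine ⟨CW w A CQ + CR A * (2 ^ 7 * π), 1 + A, ?_⟩
  intro k hk G L u lam gr ca mx hlam
  have hk1 : 1 ≤ k := by linarith
  have c : Ctx w k lam A u η := by
    refine ⟨hw, hw4, hk1, hA0, ?_, G, L, gr, ca, mx, hlam, hη, ?_, ?_, ?_, ?_, ?_, ?_⟩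
    · nlinarith
    · intro p hp; refine (hb1 p hp).trans ?_; rw [hA]; linarith
    · intro i p hp; refine (hb4 i p hp).trans ((t4 i).trans ?_); rw [hA]; linarith
    · intro i p hp; refine (hb5 i p hp).trans ((t5 i).trans ?_); rw [hA]; linarith
    · intro p hp; refine (hb2 p hp).trans ?_; rw [hA]; linarith
    · intro i p hp; refine (hb6 i p hp).trans ((t6 i).trans ?_); rw [hA]; linarith
    · intro p hp; refine (hb3 p hp).trans ?_; rw [hA]; linarith
  have h1 := c.window hW
  have h2 := c.green_bound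
  have hmu := c.mu_nonneg
  obtain ⟨CB, hCB⟩ := Gr.Win.bound hW
  have hmcc : Measurable (cc w k) := Real.measurable_cos.comp (measurable_ph c.w0)
  have hmB : Measurable (fun x => B (ph w k x)) :=
    hW.smooth.continuous.measurable.comp (measurable_ph c.w0)
  have hmE : Measurable (EE w k lam η) := (contDiff_EE c.w0 c.xt.smooth).continuous.measurable
  have hM := c.M_pos
  have hu : ∀ x, |u x| ≤ u 0 := fun x => by rw [abs_of_nonneg (c.u_nonneg x)]; exact c.mx x
  have i1 : IntegrableOn (fun x => u x * ((cc w k x - B (ph w k x)) * EE w k lam η x))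
      (Om w k) := by
    apply integrableOn_bdd c.meas c.fin (c.mu.mul ((hmcc.sub hmB).mul hmE))
      (C := u 0 * ((1 + CB) * CE A))
    intro x hx
    change |u x * ((cc w k x - B (ph w k x)) * EE w k lam η x)| ≤ _
    rw [abs_mul, abs_mul]
    have h2 : |cc w k x - B (ph w k x)| ≤ 1 + CB :=
      (abs_sub _ _).trans (add_le_add (Real.abs_cos_le_one _) (hCB _ (c.ph_lt hx)))
    have h3 := c.EE_le hmu hx
    have h4 : 0 ≤ 1 + CB := (abs_nonneg _).trans h2
    exact mul_le_mul (hu x) (mul_le_mul h2 h3 (abs_nonneg _) h4) (by positivity) hM.le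
  have i2 : IntegrableOn (fun x => u x * (cc w k x * EE w k lam η x)) (Om w k) := by
    apply integrableOn_bdd c.meas c.fin (c.mu.mul (hmcc.mul hmE)) (C := u 0 * (1 * CE A))
    intro x hx
    change |u x * (cc w k x * EE w k lam η x)| ≤ _
    rw [abs_mul, abs_mul]
    have h3 := c.EE_le hmu hx
    exact mul_le_mul (hu x) (mul_le_mul (Real.abs_cos_le_one _) h3 (abs_nonneg _) zero_le_one)
      (by positivity) hM.le
  have h3 : ∫ x in Om w k, u x * B (kap w k x * x 7) *
        (lap η x - (V w x - (lam - k ^ 2)) * η x) =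
      (∫ x in Om w k, u x * (cc w k x * EE w k lam η x)) -
        ∫ x in Om w k, u x * ((cc w k x - B (ph w k x)) * EE w k lam η x) := by
    rw [← integral_sub i2 i1]
    apply integral_congr_ae
    apply ae_of_all
    intro x
    simp only [EE, ph]
    ring
  rw [h3]
  calc |(∫ x in Om w k, u x * (cc w k x * EE w k lam η x)) -
        ∫ x in Om w k, u x * ((cc w k x - B (ph w k x)) * EE w k lam η x)|
      ≤ |∫ x in Om w k, u x * (cc w k x * EE w k lam η x)| +
        |∫ x in Om w k, u x * ((cc w k x - B (ph w k x)) * EE w k lam η x)| := abs_sub _ _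
    _ ≤ CR A * (2 ^ 7 * π) * u 0 / k ^ 2 + CW w A CQ * u 0 / k ^ 2 := add_le_add h2 h1
    _ = (CW w A CQ + CR A * (2 ^ 7 * π)) * u 0 / k ^ 2 := by ring

end Pool.Agent.GS8
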