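import Pool.Agent.GS8.Defs

/-!
# Job 9b, auxiliary part 1: calculus in `E 8`
-/

set_option autoImplicit false

open MeasureTheory Set Filter Topology
open scoped Real ContDiff

namespace Pool.Agent.GS8.Gr

section general

variable {n : ℕ} {i : Fin n} {f g : E n → ℝ} {x : E n}

lemma pd_mul (hf : DifferentiableAt ℝ f x) (hg : DifferentiableAt ℝ g x) :
    pd i (fun y => f y * g y) x = f x * pd i g x + pd i f x * g x := by
  have := (hf.hasFDerivAt.mul hg.hasFDerivAt).fderiv
  unfold pd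
  rw [show (fun y => f y * g y) = f * g from rfl, this]
  simp [mul_comm]

lemma pd_add (hf : DifferentiableAt ℝ f x) (hg : DifferentiableAt ℝ g x) :
    pd i (fun y => f y + g y) x = pd i f x + pd i g x := by
  unfold pd
  rw [show (fun y => f y + g y) = f + g from rfl, fderiv_add hf hg]
  simp

lemma pd_comp {φ : ℝ → ℝ} {φ' : ℝ} (hφ : HasDerivAt φ φ' (f x)) (hf : DifferentiableAt ℝ f x) :
    pd i (fun y => φ (f y)) x = φ' * pd i f x := by
  unfold pd
  have := (hφ.comp_hasFDerivAt x hf.hasFDerivAt).fderiv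
  rw [show (fun y => φ (f y)) = φ ∘ f from rfl, this]
  simp

lemma pd_congr (h : f =ᶠ[𝓝 x] g) : pd i f x = pd i g x := by
  unfold pd; rw [h.fderiv_eq]

lemma pd_coord (j : Fin n) : pd i (fun p : E n => p j) x = if j = i then 1 else 0 := by
  unfold pd
  have h : (fun p : E n => p j) = (EuclideanSpace.proj j : E n →L[ℝ] ℝ) := by
    ext p; simp
  rw [h, ContinuousLinearMap.fderiv]
  simp

lemma contDiff_coord (j : Fin n) {m : WithTop ℕ∞} : ContDiff ℝ m (fun p : E n => p j) := by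
  have h : (fun p : E n => p j) = (EuclideanSpace.proj j : E n →L[ℝ] ℝ) := by
    ext p; simp
  rw [h]; exact ContinuousLinearMap.contDiff _

lemma contDiff_pd (hf : ContDiff ℝ ∞ f) (i : Fin n) : ContDiff ℝ ∞ (pd i f) := by
  have := hf.fderiv_right (m := ∞) (by simp)
  exact this.clm_apply contDiff_const

lemma contDiff_pd_one (hf : ContDiff ℝ 1 f) (i : Fin n) : Continuous (pd i f) := by
  have := hf.continuous_fderiv (by norm_num)
  exact this.clm_apply continuous_const

lemma measurable_pd (f : E n → ℝ) (i : Fin n) : Measurable (pd i f) :=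
  measurable_fderiv_apply_const ℝ f (ee i)

lemma measurable_lap (f : E n → ℝ) : Measurable (lap f) :=
  Finset.measurable_sum _ (fun i _ => measurable_pd _ i)

lemma contDiff_lap (hf : ContDiff ℝ ∞ f) : ContDiff ℝ ∞ (lap f) :=
  ContDiff.sum (fun i _ => contDiff_pd (contDiff_pd hf i) i)

/-- product of a test function with a function regular on `Ω` -/
lemma contDiff_mul_test {Ω : Set (E n)} (ho : IsOpen Ω) {m : WithTop ℕ∞} (hf : ContDiff ℝ m f)
    (hs : tsupport f ⊆ Ω) (hg : ContDiffOn ℝ m g Ω) : ContDiff ℝ m (fun x => g x * f x) := by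
  rw [contDiff_iff_contDiffAt]
  intro x
  by_cases hx : x ∈ Ω
  · exact (hg.contDiffAt (ho.mem_nhds hx)).mul hf.contDiffAt
  · have hx' : x ∉ tsupport f := fun h => hx (hs h)
    have : f =ᶠ[𝓝 x] 0 := notMem_tsupport_iff_eventuallyEq.1 hx'
    refine (contDiffAt_const (c := (0 : ℝ))).congr_of_eventuallyEq ?_
    filter_upwards [this] with y hy
    simp [hy]

lemma continuous_mul_test {Ω : Set (E n)} (ho : IsOpen Ω) (hf : Continuous f)
    (hs : tsupport f ⊆ Ω) (hg : ContinuousOn g Ω) : Continuous (fun x => g x * f x) := by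
  rw [continuous_iff_continuousAt]
  intro x
  by_cases hx : x ∈ Ω
  · exact (hg.continuousAt (ho.mem_nhds hx)).mul hf.continuousAt
  · have hx' : x ∉ tsupport f := fun h => hx (hs h)
    have : f =ᶠ[𝓝 x] 0 := notMem_tsupport_iff_eventuallyEq.1 hx'
    refine (continuousAt_const (y := (0 : ℝ))).congr ?_
    filter_upwards [this] with y hy
    simp [hy]

lemma integrable_mul_test {Ω : Set (E n)} (ho : IsOpen Ω) (hf : Continuous f)
    (hc : HasCompactSupport f) (hs : tsupport f ⊆ Ω) (hg : ContinuousOn g Ω) :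
    Integrable (fun x => g x * f x) := by
  apply (continuous_mul_test ho hf hs hg).integrable_of_hasCompactSupport
  exact hc.mul_left

lemma tsupport_pd_subset (f : E n → ℝ) (i : Fin n) : tsupport (pd i f) ⊆ tsupport f := by
  apply closure_minimal _ (isClosed_tsupport f)
  intro x hx
  by_contra h
  apply hx
  have : f =ᶠ[𝓝 x] fun _ => 0 := notMem_tsupport_iff_eventuallyEq.1 h
  rw [pd_congr this]
  simp [pd]

lemma hasCompactSupport_pd (hc : HasCompactSupport f) (i : Fin n) :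
    HasCompactSupport (pd i f) :=
  hc.mono' ((subset_tsupport _).trans (tsupport_pd_subset f i))

end general

/-! ### independence of the last variable -/

/-- invariance under translations in the last variable -/
def Ind (f : E 8 → ℝ) : Prop := ∀ (p : E 8) (t : ℝ), f (p + t • ee 7) = f p

lemma ind_of {f : E 8 → ℝ} (h : ∀ p q : E 8, (∀ i : Fin 8, i ≠ 7 → p i = q i) → f p = f q) :
    Ind f := by
  intro p t
  apply h
  intro i hi
  simp [hi]

lemma Ind.pd {f : E 8 → ℝ} (hf : Ind f) (i : Fin 8) : Ind (GS8.pd i f) := by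
  intro p t
  unfold GS8.pd
  have h : (fun x => f (x + t • ee 7)) = f := funext (fun x => hf x t)
  have h2 := fderiv_comp_add_right (𝕜 := ℝ) (f := f) (x := p) (t • ee 7)
  rw [h] at h2
  rw [h2]

lemma Ind.pd7 {f : E 8 → ℝ} (hf : Ind f) (x : E 8) : GS8.pd 7 f x = 0 := by
  unfold GS8.pd
  by_cases hd : DifferentiableAt ℝ f x
  · have h1 : HasDerivAt (fun t : ℝ => f (x + t • ee 7)) (fderiv ℝ f x (ee 7)) 0 := by
      have := hd.hasFDerivAt.hasLineDerivAt (ee 7)
      exact this
    have h2 : HasDerivAt (fun t : ℝ => f (x + t • ee 7)) 0 0 := by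
      simp only [hf x]; exact hasDerivAt_const _ _
    exact h1.unique h2
  · rw [fderiv_zero_of_not_differentiableAt hd]; simp

lemma Ind.lap {f : E 8 → ℝ} (hf : Ind f) : Ind (GS8.lap f) := by
  intro p t
  unfold GS8.lap
  exact Finset.sum_congr rfl (fun i _ => (hf.pd i).pd i p t)

/-! ### bounds on the unit box -/

lemma exists_bound {f : E 8 → ℝ} (hf : Continuous f) :
    ∃ A : ℝ, 0 ≤ A ∧ ∀ p : E 8, (∀ i, |p i| ≤ 2) → |f p| ≤ A := by
  obtain ⟨A, hA⟩ := (isCompact_closedBall (0 : E 8) 6).exists_bound_of_continuousOn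
    hf.continuousOn
  have h0 : ∀ p : E 8, (∀ i, |p i| ≤ 2) → p ∈ Metric.closedBall (0 : E 8) 6 := by
    intro p hp
    rw [mem_closedBall_zero_iff, EuclideanSpace.norm_eq]
    apply Real.sqrt_le_iff.2 ⟨by norm_num, ?_⟩
    calc ∑ i : Fin 8, ‖p i‖ ^ 2 ≤ ∑ i : Fin 8, (2 : ℝ) ^ 2 := by
          apply Finset.sum_le_sum
          intro i _
          exact pow_le_pow_left₀ (norm_nonneg _) (by simpa using hp i) 2
      _ ≤ 6 ^ 2 := by norm_num
  refine ⟨A, ?_, fun p hp => by simpa using hA p (h0 p hp)⟩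
  exact (norm_nonneg _).trans (hA 0 (by simp))

/-! ### the potential -/

lemma AA_pos {w : ℝ} (hw : 0 < w) (x : ℝ) : 0 < AA w x := by
  unfold AA; positivity

lemma r2_nonneg (p : E 8) : 0 ≤ r2 p := Finset.sum_nonneg (fun _ _ => sq_nonneg _)

lemma V_ge_r2 (w : ℝ) (p : E 8) : r2 p ≤ V w p := by
  unfold V
  have h : |AA w (p 0) - r2 p| ≤ Real.sqrt ((AA w (p 0) - r2 p) ^ 2 + w ^ 16) := by
    apply Real.le_sqrt_of_sq_le
    rw [sq_abs]
    have : 0 ≤ w ^ 16 := by positivity
    linarith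
  have h2 := neg_abs_le (AA w (p 0) - r2 p)
  linarith

lemma V_nonneg (w : ℝ) (p : E 8) : 0 ≤ V w p := (r2_nonneg p).trans (V_ge_r2 w p)

lemma contDiff_V {w : ℝ} (hw : 0 < w) : ContDiff ℝ ∞ (V w) := by
  have hA : ContDiff ℝ ∞ (fun p : E 8 => AA w (p 0)) := by
    unfold AA
    have h0 : ContDiff ℝ ∞ (fun p : E 8 => p 0) := contDiff_coord 0
    have h1 : ContDiff ℝ ∞ (fun p : E 8 => Real.sqrt ((p 0) ^ 2 + w ^ 2)) := by
      apply ContDiff.sqrt
      · exact (h0.pow 2).add contDiff_const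
      · intro x; positivity
    exact contDiff_const.add (contDiff_const.mul h1)
  have hr : ContDiff ℝ ∞ r2 := by
    unfold r2
    exact ContDiff.sum (fun i _ => (contDiff_coord i).pow 2)
  unfold V
  apply ContDiff.div_const
  apply (hA.add hr).add
  apply ContDiff.sqrt
  · exact ((hA.sub hr).pow 2).add contDiff_const
  · intro x; positivity

lemma ind_V (w : ℝ) : Ind (V w) := by
  apply ind_of
  intro p q h
  have h0 : p 0 = q 0 := h 0 (by decide)
  have hr : r2 p = r2 q := by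
    unfold r2
    apply Finset.sum_congr rfl
    intro i hi
    rw [h i]
    rintro rfl
    simp [yI] at hi
  unfold V
  rw [h0, hr]

lemma contDiff_hh {w : ℝ} (hw : 0 < w) (k : ℝ) : ContDiff ℝ ∞ (hh w k) := by
  unfold hh
  exact contDiff_const.sub ((contDiff_V hw).div_const _)

lemma hh_le_one (w k : ℝ) (p : E 8) : hh w k p ≤ 1 := by
  unfold hh
  have : 0 ≤ V w p / (2 * k ^ 2) := div_nonneg (V_nonneg w p) (by positivity)
  linarith

lemma ind_hh (w k : ℝ) : Ind (hh w k) := by
  intro p t; unfold hh; rw [ind_V w p t]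

lemma ind_kap (w k : ℝ) : Ind (kap w k) := by
  intro p t; unfold kap; rw [ind_hh w k p t]

lemma pd_hh {w : ℝ} (hw : 0 < w) (k : ℝ) (i : Fin 8) (p : E 8) :
    pd i (hh w k) p = -(pd i (V w) p) / (2 * k ^ 2) := by
  have hd : DifferentiableAt ℝ (V w) p := (contDiff_V hw).differentiable (by simp) p
  have h : HasDerivAt (fun v : ℝ => 1 - v / (2 * k ^ 2)) (-(1 / (2 * k ^ 2))) (V w p) := by
    have := ((hasDerivAt_id (V w p)).div_const (2 * k ^ 2)).const_sub 1
    simpa using this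
  have := pd_comp (i := i) h hd
  unfold hh
  rw [this]; ring

/-- the phase `κ z` -/
noncomputable def ph (w k : ℝ) (p : E 8) : ℝ := kap w k p * p 7

/-- the `i`-th derivative of the phase, `i ≠ 7` -/
noncomputable def sg (w k : ℝ) (i : Fin 8) (p : E 8) : ℝ :=
  p 7 * pd i (V w) p * ((hh w k p) ^ 2)⁻¹ * (1 / (2 * k))

lemma contDiffAt_kap {w k : ℝ} (hw : 0 < w) {p : E 8} (hp : hh w k p ≠ 0) :
    ContDiffAt ℝ ∞ (kap w k) p := by
  unfold kap
  exact contDiffAt_const.div (contDiff_hh hw k).contDiffAt hp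

lemma contDiffAt_ph {w k : ℝ} (hw : 0 < w) {p : E 8} (hp : hh w k p ≠ 0) :
    ContDiffAt ℝ ∞ (ph w k) p :=
  (contDiffAt_kap hw hp).mul (contDiff_coord 7).contDiffAt

lemma measurable_kap {w k : ℝ} (hw : 0 < w) : Measurable (kap w k) := by
  unfold kap
  exact measurable_const.div (contDiff_hh hw k).continuous.measurable

lemma measurable_ph {w k : ℝ} (hw : 0 < w) : Measurable (ph w k) :=
  (measurable_kap hw).mul (contDiff_coord (m := 0) 7).continuous.measurable

lemma pd_kap {w k : ℝ} (hw : 0 < w) (hk : k ≠ 0) {p : E 8} (hp : hh w k p ≠ 0) (i : Fin 8) :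
    pd i (kap w k) p = pd i (V w) p * ((hh w k p) ^ 2)⁻¹ * (1 / (2 * k)) := by
  have hd : DifferentiableAt ℝ (hh w k) p := (contDiff_hh hw k).differentiable (by simp) p
  have h : HasDerivAt (fun v : ℝ => k / v) (-(k / (hh w k p) ^ 2)) (hh w k p) := by
    have h1 := (hasDerivAt_inv hp).const_mul k
    have h2 : (fun v : ℝ => k / v) = fun v => k * v⁻¹ := by
      funext v; rw [div_eq_mul_inv]
    rw [h2]
    refine h1.congr_deriv ?_
    rw [div_eq_mul_inv]; ring
  have := pd_comp (i := i) h hd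
  unfold kap
  rw [this, pd_hh hw]
  field_simp

lemma pd_ph {w k : ℝ} (hw : 0 < w) (hk : k ≠ 0) {p : E 8} (hp : hh w k p ≠ 0) {i : Fin 8}
    (hi : i ≠ 7) : pd i (ph w k) p = sg w k i p := by
  have h1 : DifferentiableAt ℝ (kap w k) p := (contDiffAt_kap hw hp).differentiableAt (by simp)
  have h2 : DifferentiableAt ℝ (fun p : E 8 => p 7) p :=
    (contDiff_coord (m := ∞) 7).differentiable (by simp) p
  unfold ph
  rw [pd_mul h1 h2, pd_coord, pd_kap hw hk hp, if_neg (Ne.symm hi)]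
  unfold sg; ring

lemma pd7_ph {w k : ℝ} (hw : 0 < w) {p : E 8} (hp : hh w k p ≠ 0) :
    pd 7 (ph w k) p = kap w k p := by
  have h1 : DifferentiableAt ℝ (kap w k) p := (contDiffAt_kap hw hp).differentiableAt (by simp)
  have h2 : DifferentiableAt ℝ (fun p : E 8 => p 7) p :=
    (contDiff_coord (m := ∞) 7).differentiable (by simp) p
  unfold ph
  rw [pd_mul h1 h2, pd_coord, (ind_kap w k).pd7]
  simp

lemma hh_ne_nhds {w k : ℝ} (hw : 0 < w) {p : E 8} (hp : hh w k p ≠ 0) :
    ∀ᶠ q in 𝓝 p, hh w k q ≠ 0 :=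
  (contDiff_hh hw k).continuous.continuousAt.eventually_ne hp

lemma pd_pd_ph {w k : ℝ} (hw : 0 < w) (hk : k ≠ 0) {p : E 8} (hp : hh w k p ≠ 0) {i : Fin 8}
    (hi : i ≠ 7) : pd i (pd i (ph w k)) p =
      p 7 * (pd i (pd i (V w)) p * ((hh w k p) ^ 2)⁻¹ * (1 / (2 * k)) +
        (pd i (V w) p) ^ 2 * ((hh w k p) ^ 3)⁻¹ * (1 / (2 * k ^ 3))) := by
  have he : pd i (ph w k) =ᶠ[𝓝 p] sg w k i := by
    filter_upwards [hh_ne_nhds hw hp] with q hq
    exact pd_ph hw hk hq hi
  rw [pd_congr he]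
  have hd : DifferentiableAt ℝ (hh w k) p := (contDiff_hh hw k).differentiable (by simp) p
  have h7 : DifferentiableAt ℝ (fun p : E 8 => p 7) p :=
    (contDiff_coord (m := ∞) 7).differentiable (by simp) p
  have hV : DifferentiableAt ℝ (pd i (V w)) p :=
    (contDiff_pd (contDiff_V hw) i).differentiable (by simp) p
  have hinv : HasDerivAt (fun v : ℝ => (v ^ 2)⁻¹) (-(2 / (hh w k p) ^ 3)) (hh w k p) := by
    have h1 := (hasDerivAt_pow 2 (hh w k p)).fun_inv (pow_ne_zero 2 hp)
    refine h1.congr_deriv ?_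
    field_simp
    norm_num
    ring
  have hI : DifferentiableAt ℝ (fun q => ((hh w k q) ^ 2)⁻¹) p :=
    (hinv.comp_hasFDerivAt p hd.hasFDerivAt).differentiableAt
  have e1 : pd i (fun q => ((hh w k q) ^ 2)⁻¹) p = -(2 / (hh w k p) ^ 3) * pd i (hh w k) p :=
    pd_comp hinv hd
  have e2 : pd i (fun q : E 8 => q 7 * pd i (V w) q) p = p 7 * pd i (pd i (V w)) p := by
    rw [pd_mul h7 hV, pd_coord, if_neg (Ne.symm hi)]; ring
  have e3 : pd i (fun q : E 8 => q 7 * pd i (V w) q * ((hh w k q) ^ 2)⁻¹) p =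
      p 7 * pd i (V w) p * (-(2 / (hh w k p) ^ 3) * pd i (hh w k) p) +
        p 7 * pd i (pd i (V w)) p * ((hh w k p) ^ 2)⁻¹ := by
    have h7V : DifferentiableAt ℝ (fun q : E 8 => q 7 * pd i (V w) q) p := h7.mul hV
    rw [pd_mul h7V hI, e1, e2]
  have e4 : pd i (sg w k i) p = (pd i (fun q : E 8 => q 7 * pd i (V w) q *
      ((hh w k q) ^ 2)⁻¹) p) * (1 / (2 * k)) := by
    unfold sg
    have h7V : DifferentiableAt ℝ (fun q : E 8 => q 7 * pd i (V w) q * ((hh w k q) ^ 2)⁻¹) p :=
      (h7.mul hV).mul hI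
    rw [pd_mul h7V (differentiableAt_const _)]
    have : pd i (fun _ : E 8 => 1 / (2 * k)) p = 0 := by simp [pd]
    rw [this]; ring
  rw [e4, e3, pd_hh hw]
  field_simp
  ring

/-! ### the cosine profile -/

/-- `cos (κ z)` -/
noncomputable def cc (w k : ℝ) (p : E 8) : ℝ := Real.cos (ph w k p)

lemma contDiffAt_cc {w k : ℝ} (hw : 0 < w) {p : E 8} (hp : hh w k p ≠ 0) :
    ContDiffAt ℝ ∞ (cc w k) p :=
  Real.contDiff_cos.contDiffAt.comp p (contDiffAt_ph hw hp)

lemma pd_cc {w k : ℝ} (hw : 0 < w) {p : E 8} (hp : hh w k p ≠ 0) (i : Fin 8) :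
    pd i (cc w k) p = -Real.sin (ph w k p) * pd i (ph w k) p := by
  have hd : DifferentiableAt ℝ (ph w k) p := (contDiffAt_ph hw hp).differentiableAt (by simp)
  exact pd_comp (Real.hasDerivAt_cos _) hd

lemma contDiffAt_pd_ph {w k : ℝ} (hw : 0 < w) {p : E 8} (hp : hh w k p ≠ 0) (i : Fin 8) :
    ContDiffAt ℝ ∞ (pd i (ph w k)) p := by
  have := (contDiffAt_ph hw hp).fderiv_right (m := ∞) (by simp)
  exact this.clm_apply contDiffAt_const

lemma pd_pd_cc {w k : ℝ} (hw : 0 < w) {p : E 8} (hp : hh w k p ≠ 0) (i : Fin 8) :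
    pd i (pd i (cc w k)) p = -Real.cos (ph w k p) * (pd i (ph w k) p) ^ 2 -
      Real.sin (ph w k p) * pd i (pd i (ph w k)) p := by
  have he : pd i (cc w k) =ᶠ[𝓝 p] fun q => -Real.sin (ph w k q) * pd i (ph w k) q := by
    filter_upwards [hh_ne_nhds hw hp] with q hq
    exact pd_cc hw hq i
  rw [pd_congr he]
  have hd : DifferentiableAt ℝ (ph w k) p := (contDiffAt_ph hw hp).differentiableAt (by simp)
  have hd2 : DifferentiableAt ℝ (pd i (ph w k)) p :=
    (contDiffAt_pd_ph hw hp i).differentiableAt (by simp)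
  have hs : DifferentiableAt ℝ (fun q => -Real.sin (ph w k q)) p := hd.sin.neg
  rw [pd_mul hs hd2]
  have e : pd i (fun q => -Real.sin (ph w k q)) p = -Real.cos (ph w k p) * pd i (ph w k) p :=
    pd_comp (φ := fun r => -Real.sin r) ((Real.hasDerivAt_sin _).neg) hd
  rw [e]; ring

lemma pd7_pd7_ph {w k : ℝ} (hw : 0 < w) {p : E 8} (hp : hh w k p ≠ 0) :
    pd 7 (pd 7 (ph w k)) p = 0 := by
  have he : pd 7 (ph w k) =ᶠ[𝓝 p] kap w k := by
    filter_upwards [hh_ne_nhds hw hp] with q hq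
    exact pd7_ph hw hq
  rw [pd_congr he]
  exact (ind_kap w k).pd7 p

/-! ### the truncation `FF` -/

lemma FF_eq {e s : ℝ} (_he : 0 < e) : FF e s = (max s e - e) ^ 2 / max s e := by
  unfold FF
  split_ifs with h
  · rw [max_eq_right h]; simp
  · rw [max_eq_left (not_le.1 h).le]

lemma FF'_eq {e s : ℝ} (he : 0 < e) : FF' e s = 1 - e ^ 2 / (max s e) ^ 2 := by
  unfold FF'
  split_ifs with h
  · rw [max_eq_right h, div_self (by positivity)]; simp
  · rw [max_eq_left (not_le.1 h).le]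

lemma FF_nonneg {e s : ℝ} (he : 0 < e) : 0 ≤ FF e s := by
  rw [FF_eq he]
  have : 0 < max s e := lt_max_of_lt_right he
  positivity

lemma FF_le {e s : ℝ} (he : 0 < e) (hs : 0 ≤ s) : FF e s ≤ s := by
  unfold FF
  split_ifs with h
  · exact hs
  · push Not at h
    rw [div_le_iff₀ (by linarith)]
    nlinarith

lemma FF_ge {e s : ℝ} (he : 0 < e) : s - 2 * e ≤ FF e s := by
  unfold FF
  split_ifs with h
  · linarith
  · push Not at h
    rw [le_div_iff₀ (by linarith)]
    nlinarith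

lemma FF'_nonneg {e s : ℝ} (he : 0 < e) : 0 ≤ FF' e s := by
  rw [FF'_eq he]
  have h : 0 < max s e := lt_max_of_lt_right he
  have : e ^ 2 / (max s e) ^ 2 ≤ 1 := by
    rw [div_le_one (by positivity)]
    exact pow_le_pow_left₀ he.le (le_max_right _ _) 2
  linarith

lemma FF'_le {e s : ℝ} (he : 0 < e) : FF' e s ≤ 1 := by
  rw [FF'_eq he]
  have h : 0 < max s e := lt_max_of_lt_right he
  have : 0 ≤ e ^ 2 / (max s e) ^ 2 := by positivity
  linarith

lemma hasDerivAt_FF {e : ℝ} (he : 0 < e) (s : ℝ) : HasDerivAt (FF e) (FF' e s) s := by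
  rcases lt_trichotomy s e with h | h | h
  · have h1 : FF e =ᶠ[𝓝 s] fun _ => 0 := by
      filter_upwards [Iio_mem_nhds h] with t ht
      simp only [FF, if_pos (le_of_lt (mem_Iio.1 ht))]
    have h2 : FF' e s = 0 := by simp [FF', h.le]
    rw [h2]
    exact (hasDerivAt_const s (0 : ℝ)).congr_of_eventuallyEq h1
  · subst h
    have h2 : FF' s s = 0 := by simp [FF']
    rw [h2, ← hasDerivWithinAt_univ, ← Iic_union_Ici (a := s)]
    apply HasDerivWithinAt.union
    · apply (hasDerivWithinAt_const s (Iic s) (0 : ℝ)).congr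
      · intro x hx; simp [FF, mem_Iic.1 hx]
      · simp [FF]
    · have h3 : HasDerivAt (fun t : ℝ => (t - s) ^ 2 / t) 0 s := by
        have h4 := (((hasDerivAt_id s).sub_const s).pow 2).div (hasDerivAt_id s) he.ne'
        refine h4.congr_deriv ?_
        simp
      apply h3.hasDerivWithinAt.congr
      · intro x hx
        rcases eq_or_lt_of_le (mem_Ici.1 hx) with h5 | h5
        · subst h5; simp [FF]
        · simp [FF, not_le.2 h5]
      · simp [FF]
  · have hs : 0 < s := he.trans h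
    have h1 : FF e =ᶠ[𝓝 s] fun t => (t - e) ^ 2 / t := by
      filter_upwards [Ioi_mem_nhds h] with t ht
      simp only [FF, if_neg (not_le.2 (mem_Ioi.1 ht))]
    have h2 : FF' e s = 1 - e ^ 2 / s ^ 2 := by simp [FF', not_le.2 h]
    have h4 := (((hasDerivAt_id s).sub_const e).pow 2).div (hasDerivAt_id s) hs.ne'
    rw [h2]
    apply HasDerivAt.congr_of_eventuallyEq _ h1
    refine h4.congr_deriv ?_
    simp
    field_simp
    ring

lemma continuous_FF' {e : ℝ} (he : 0 < e) : Continuous (FF' e) := by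
  have h : FF' e = fun s => 1 - e ^ 2 / (max s e) ^ 2 := funext fun s => FF'_eq he
  rw [h]
  apply continuous_const.sub
  apply Continuous.div continuous_const
  · exact (continuous_id.max continuous_const).pow 2
  · intro x
    have : 0 < max x e := lt_max_of_lt_right he
    positivity

lemma contDiff_FF {e : ℝ} (he : 0 < e) : ContDiff ℝ 1 (FF e) := by
  rw [contDiff_one_iff_deriv]
  refine ⟨fun s => (hasDerivAt_FF he s).differentiableAt, ?_⟩
  have : deriv (FF e) = FF' e := funext fun s => (hasDerivAt_FF he s).deriv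
  rw [this]; exact continuous_FF' he

/-- the truncation levels -/
noncomputable def lev (j : ℕ) : ℝ := 1 / ((j : ℝ) + 1)

lemma lev_pos (j : ℕ) : 0 < lev j := by unfold lev; positivity

lemma lev_tendsto : Tendsto lev atTop (𝓝 0) := tendsto_one_div_add_atTop_nhds_zero_nat

lemma FF_tendsto {s : ℝ} (hs : 0 ≤ s) : Tendsto (fun j => FF (lev j) s) atTop (𝓝 s) := by
  have h1 : Tendsto (fun j => s - 2 * lev j) atTop (𝓝 s) := by
    simpa using (tendsto_const_nhds (x := s)).sub (lev_tendsto.const_mul 2)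
  exact tendsto_of_tendsto_of_tendsto_of_le_of_le h1 tendsto_const_nhds
    (fun j => FF_ge (lev_pos j)) (fun j => FF_le (lev_pos j) hs)

lemma FF'_tendsto {s : ℝ} (hs : 0 < s) : Tendsto (fun j => FF' (lev j) s) atTop (𝓝 1) := by
  have h1 : ∀ᶠ j in atTop, 1 - (lev j) ^ 2 / s ^ 2 = FF' (lev j) s := by
    have : ∀ᶠ j in atTop, lev j < s := lev_tendsto.eventually (gt_mem_nhds hs)
    filter_upwards [this] with j hj
    simp [FF', not_le.2 hj]
  have h2 : Tendsto (fun j => 1 - (lev j) ^ 2 / s ^ 2) atTop (𝓝 1) := by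
    simpa using (tendsto_const_nhds (x := (1 : ℝ))).sub ((lev_tendsto.pow 2).div_const (s ^ 2))
  exact h2.congr' h1

/-! ### volumes -/

lemma volume_box (a : Fin 8 → ℝ) :
    volume {p : E 8 | ∀ i, |p i| ≤ a i} = ∏ i, ENNReal.ofReal (2 * a i) := by
  have h1 : {p : E 8 | ∀ i, |p i| ≤ a i} = WithLp.ofLp ⁻¹'
      (Set.pi univ (fun i : Fin 8 => Icc (-(a i)) (a i))) := by
    ext p
    change (∀ i, |p i| ≤ a i) ↔ ∀ i ∈ univ, p i ∈ Icc (-(a i)) (a i)
    simp only [abs_le, mem_univ, forall_true_left, mem_Icc]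
  have h2 := (PiLp.volume_preserving_ofLp (Fin 8)).measure_preimage
    (s := Set.pi univ (fun i => Icc (-(a i)) (a i)))
    (MeasurableSet.univ_pi (fun i => measurableSet_Icc)).nullMeasurableSet
  rw [h1, h2, volume_pi_pi]
  simp only [Real.volume_Icc]
  apply Finset.prod_congr rfl
  intro i _
  congr 1; ring

end Pool.Agent.GS8.Gr
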