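import Pool.Agent.GS8.GreenAux

/-!
# Job 9b, auxiliary part 2: bounds and the energy inequality
-/

set_option autoImplicit false

open MeasureTheory Set Filter Topology
open scoped Real ContDiff

namespace Pool.Agent.GS8.Gr

/-- the box in the `X` variables -/
def bx : Set (E 8) := {p | ∀ i : Fin 8, i ≠ 7 → |p i| ≤ 1}

/-- all data -/
structure Ctx (w k lam A : ℝ) (u η : E 8 → ℝ) : Prop where
  w0 : 0 < w
  w4 : w ≤ 1 / 4
  k1 : 1 ≤ k
  A0 : 0 ≤ A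
  Ak : A ≤ k ^ 2
  G : Geom w k
  L : Lower w k
  gr : Ground (Om w k) u lam
  ca : Calc (Om w k) u lam
  mx : ∀ x, u x ≤ u 0
  hlam : lam ≤ k ^ 2 + 8
  xt : XTest η
  bV : ∀ p : E 8, (∀ i, |p i| ≤ 2) → |V w p| ≤ A
  bV1 : ∀ (i : Fin 8) (p : E 8), (∀ i, |p i| ≤ 2) → |pd i (V w) p| ≤ A
  bV2 : ∀ (i : Fin 8) (p : E 8), (∀ i, |p i| ≤ 2) → |pd i (pd i (V w)) p| ≤ A
  bη : ∀ p : E 8, (∀ i, |p i| ≤ 2) → |η p| ≤ A
  bη1 : ∀ (i : Fin 8) (p : E 8), (∀ i, |p i| ≤ 2) → |pd i η p| ≤ A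
  bη2 : ∀ p : E 8, (∀ i, |p i| ≤ 2) → |lap η p| ≤ A

section

variable {w k lam A : ℝ} {u η : E 8 → ℝ}

lemma Ctx.k0 (c : Ctx w k lam A u η) : 0 < k := lt_of_lt_of_le one_pos c.k1

lemma Ctx.V_box (c : Ctx w k lam A u η) {p : E 8} (hp : p ∈ bx) : V w p ≤ A := by
  have h1 := ind_V w p (-(p 7))
  rw [← h1]
  refine (le_abs_self _).trans (c.bV _ ?_)
  intro i
  by_cases hi : i = 7
  · subst hi; simp
  · have : (p + -(p 7) • ee 7 : E 8) i = p i := by simp [hi]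
    rw [this]
    exact (hp i hi).trans (by norm_num)

lemma Ctx.hh_box (c : Ctx w k lam A u η) {p : E 8} (hp : p ∈ bx) : 1 / 2 ≤ hh w k p := by
  have h := c.V_box hp
  have hk := c.k0
  unfold hh
  have : V w p / (2 * k ^ 2) ≤ 1 / 2 := by
    rw [div_le_iff₀ (by positivity)]
    have := c.Ak
    linarith
  linarith

lemma Ctx.hh_pos (c : Ctx w k lam A u η) {p : E 8} (hp : p ∈ Om w k) : 0 < hh w k p :=
  c.G.hh_pos p hp

lemma Ctx.z_le (c : Ctx w k lam A u η) {p : E 8} (hp : p ∈ Om w k) : |p 7| ≤ π / (2 * k) := by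
  have h1 := hp.2.le
  have hk := c.k0
  have h2 := hh_le_one w k p
  calc |p 7| ≤ π / (2 * k) * hh w k p := h1
    _ ≤ π / (2 * k) * 1 := mul_le_mul_of_nonneg_left h2 (by positivity)
    _ = π / (2 * k) := mul_one _

lemma Ctx.z_le' (c : Ctx w k lam A u η) {p : E 8} (hp : p ∈ Om w k) : |p 7| ≤ 2 / k := by
  refine (c.z_le hp).trans ?_
  have hk := c.k0
  rw [div_le_div_iff₀ (by positivity) hk]
  have := Real.pi_le_four
  nlinarith

lemma Ctx.z_two (c : Ctx w k lam A u η) {p : E 8} (hp : p ∈ Om w k) : |p 7| ≤ 2 := by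
  refine (c.z_le' hp).trans ?_
  rw [div_le_iff₀ c.k0]
  have := c.k1
  linarith

lemma Ctx.small (c : Ctx w k lam A u η) {p : E 8} (hp : p ∈ Om w k) (hb : p ∈ bx) :
    ∀ i, |p i| ≤ 2 := by
  intro i
  by_cases hi : i = 7
  · subst hi; exact c.z_two hp
  · exact (hb i hi).trans (by norm_num)

lemma Ctx.kap_ge (c : Ctx w k lam A u η) {p : E 8} (hp : p ∈ Om w k) : k ≤ kap w k p := by
  unfold kap
  rw [le_div_iff₀ (c.hh_pos hp)]
  have := hh_le_one w k p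
  have := c.k0
  nlinarith

lemma Ctx.kap_le (c : Ctx w k lam A u η) {p : E 8} (hb : p ∈ bx) : kap w k p ≤ 2 * k := by
  have h := c.hh_box hb
  unfold kap
  rw [div_le_iff₀ (by linarith)]
  have := c.k0
  nlinarith

lemma Ctx.ph_lt (c : Ctx w k lam A u η) {p : E 8} (hp : p ∈ Om w k) : |ph w k p| < π / 2 := by
  have h1 := hp.2
  have hh0 := c.hh_pos hp
  have hk := c.k0
  unfold ph kap
  rw [abs_mul, abs_of_pos (by positivity : 0 < k / hh w k p)]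
  calc k / hh w k p * |p 7| < k / hh w k p * (π / (2 * k) * hh w k p) :=
        mul_lt_mul_of_pos_left h1 (by positivity)
    _ = π / 2 := by field_simp

lemma Ctx.cc_pos (c : Ctx w k lam A u η) {p : E 8} (hp : p ∈ Om w k) : 0 < cc w k p :=
  c.G.cos_pos p hp

lemma cc_le_one (w k : ℝ) (p : E 8) : cc w k p ≤ 1 := Real.cos_le_one _

lemma inv_hh_sq_le {h : ℝ} (hh0 : 1 / 2 ≤ h) : (h ^ 2)⁻¹ ≤ 4 := by
  have : (1 / 4 : ℝ) ≤ h ^ 2 := by nlinarith
  calc (h ^ 2)⁻¹ ≤ (1 / 4 : ℝ)⁻¹ := inv_anti₀ (by norm_num) this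
    _ = 4 := by norm_num

lemma inv_hh_cu_le {h : ℝ} (hh0 : 1 / 2 ≤ h) : (h ^ 3)⁻¹ ≤ 8 := by
  have : (1 / 8 : ℝ) ≤ h ^ 3 := by
    calc (1 / 8 : ℝ) = (1 / 2) ^ 3 := by norm_num
      _ ≤ h ^ 3 := pow_le_pow_left₀ (by norm_num) hh0 3
  calc (h ^ 3)⁻¹ ≤ (1 / 8 : ℝ)⁻¹ := inv_anti₀ (by norm_num) this
    _ = 8 := by norm_num

lemma Ctx.sg_le (c : Ctx w k lam A u η) {p : E 8} (hp : p ∈ Om w k) (hb : p ∈ bx) {i : Fin 8}
    (hi : i ≠ 7) : |pd i (ph w k) p| ≤ 4 * A / k ^ 2 := by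
  have hk := c.k0
  have hh0 := c.hh_box hb
  rw [pd_ph c.w0 hk.ne' (by linarith) hi]
  unfold sg
  rw [abs_mul, abs_mul, abs_mul]
  have h1 := c.z_le' hp
  have h2 := c.bV1 i p (c.small hp hb)
  have h3 : |((hh w k p) ^ 2)⁻¹| ≤ 4 := by
    rw [abs_of_nonneg (by positivity)]; exact inv_hh_sq_le hh0
  have h4 : |1 / (2 * k)| = 1 / (2 * k) := abs_of_nonneg (by positivity)
  rw [h4]
  have hA := c.A0
  calc |p 7| * |pd i (V w) p| * |((hh w k p) ^ 2)⁻¹| * (1 / (2 * k))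
      ≤ 2 / k * A * 4 * (1 / (2 * k)) := by gcongr
    _ = 4 * A / k ^ 2 := by field_simp

lemma Ctx.sgg_le (c : Ctx w k lam A u η) {p : E 8} (hp : p ∈ Om w k) (hb : p ∈ bx) {i : Fin 8}
    (hi : i ≠ 7) : |pd i (pd i (ph w k)) p| ≤ (4 * A + 8 * A ^ 2) / k ^ 2 := by
  have hk := c.k0
  have hh0 := c.hh_box hb
  rw [pd_pd_ph c.w0 hk.ne' (by linarith) hi]
  rw [abs_mul]
  have h1 := c.z_le' hp
  have h2 := c.bV1 i p (c.small hp hb)
  have h2' := c.bV2 i p (c.small hp hb)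
  have hA := c.A0
  have h3 : ((hh w k p) ^ 2)⁻¹ ≤ 4 := inv_hh_sq_le hh0
  have h3' : ((hh w k p) ^ 3)⁻¹ ≤ 8 := inv_hh_cu_le hh0
  have h5 : (pd i (V w) p) ^ 2 ≤ A ^ 2 := sq_le_sq' (abs_le.1 h2).1 (abs_le.1 h2).2
  have hh1 : 0 < hh w k p := by linarith
  have h6 : |pd i (pd i (V w)) p * ((hh w k p) ^ 2)⁻¹ * (1 / (2 * k)) +
        (pd i (V w) p) ^ 2 * ((hh w k p) ^ 3)⁻¹ * (1 / (2 * k ^ 3))| ≤
        A * 4 * (1 / (2 * k)) + A ^ 2 * 8 * (1 / (2 * k ^ 3)) := by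
    refine (abs_add_le _ _).trans ?_
    apply add_le_add
    · rw [abs_mul, abs_mul, abs_of_nonneg (by positivity : 0 ≤ ((hh w k p) ^ 2)⁻¹),
        abs_of_nonneg (by positivity : 0 ≤ 1 / (2 * k))]
      gcongr
    · rw [abs_of_nonneg (by positivity)]
      gcongr
  calc |p 7| * |pd i (pd i (V w)) p * ((hh w k p) ^ 2)⁻¹ * (1 / (2 * k)) +
        (pd i (V w) p) ^ 2 * ((hh w k p) ^ 3)⁻¹ * (1 / (2 * k ^ 3))|
      ≤ 2 / k * (A * 4 * (1 / (2 * k)) + A ^ 2 * 8 * (1 / (2 * k ^ 3))) := by gcongr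
    _ = 4 * A / k ^ 2 + 8 * A ^ 2 / k ^ 2 * (1 / k ^ 2) := by field_simp
    _ ≤ 4 * A / k ^ 2 + 8 * A ^ 2 / k ^ 2 * 1 := by
        have : 1 / k ^ 2 ≤ 1 := by
          rw [div_le_one (by positivity)]
          have := c.k1
          nlinarith
        gcongr
    _ = (4 * A + 8 * A ^ 2) / k ^ 2 := by ring

lemma Ctx.kap_sq (c : Ctx w k lam A u η) {p : E 8} (hb : p ∈ bx) :
    |k ^ 2 + V w p - kap w k p ^ 2| ≤ 3 * A ^ 2 / k ^ 2 := by
  have hk := c.k0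
  have hh0 := c.hh_box hb
  have hV := c.V_box hb
  have hV0 := V_nonneg w p
  set s : ℝ := V w p / (2 * k ^ 2) with hs
  have hhs : hh w k p = 1 - s := rfl
  rw [hhs] at hh0
  have hs0 : 0 ≤ s := by positivity
  have hVs : V w p = 2 * k ^ 2 * s := by rw [hs]; field_simp
  have h1 : k ^ 2 + V w p - kap w k p ^ 2 = -(k ^ 2 * (3 * s ^ 2 - 2 * s ^ 3) * ((1 - s) ^ 2)⁻¹) := by
    unfold kap
    rw [hhs, hVs]
    have : (1 - s) ≠ 0 := by linarith
    field_simp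
    ring
  rw [h1, abs_neg, abs_of_nonneg]
  · have h2 := inv_hh_sq_le hh0
    have h3 : 3 * s ^ 2 - 2 * s ^ 3 ≤ 3 * s ^ 2 := by
      have : 0 ≤ s ^ 3 := by positivity
      linarith
    have h4 : 0 ≤ 3 * s ^ 2 - 2 * s ^ 3 := by nlinarith [sq_nonneg s]
    calc k ^ 2 * (3 * s ^ 2 - 2 * s ^ 3) * ((1 - s) ^ 2)⁻¹ ≤ k ^ 2 * (3 * s ^ 2) * 4 := by
          gcongr
      _ = 3 * (V w p) ^ 2 / k ^ 2 := by rw [hVs]; field_simp; ring
      _ ≤ 3 * A ^ 2 / k ^ 2 := by gcongr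
  · have h4 : 0 ≤ 3 * s ^ 2 - 2 * s ^ 3 := by nlinarith [sq_nonneg s]
    positivity

/-! ### the trial function `Ψ = η cos (κ z)` -/

/-- the trial function -/
noncomputable def Ps (w k : ℝ) (η : E 8 → ℝ) (p : E 8) : ℝ := η p * cc w k p

/-- the Schroedinger residual of `η` -/
noncomputable def EE (w k lam : ℝ) (η : E 8 → ℝ) (p : E 8) : ℝ :=
  lap η p - (V w p - (lam - k ^ 2)) * η p

/-- the remainder -/
noncomputable def RR (w k lam : ℝ) (η : E 8 → ℝ) (p : E 8) : ℝ :=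
  lap (Ps w k η) p + lam * Ps w k η p - cc w k p * EE w k lam η p

lemma pd_Ps (hw : 0 < w) (hη : ContDiff ℝ ∞ η) {p : E 8} (hp : hh w k p ≠ 0) (i : Fin 8) :
    pd i (Ps w k η) p = η p * pd i (cc w k) p + pd i η p * cc w k p :=
  pd_mul (hη.differentiable (by simp) p) ((contDiffAt_cc hw hp).differentiableAt (by simp))

lemma contDiffAt_pd_cc (hw : 0 < w) {p : E 8} (hp : hh w k p ≠ 0) (i : Fin 8) :
    ContDiffAt ℝ ∞ (pd i (cc w k)) p := by
  have := (contDiffAt_cc hw hp).fderiv_right (m := ∞) (by simp)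
  exact this.clm_apply contDiffAt_const

lemma pd_pd_Ps (hw : 0 < w) (hη : ContDiff ℝ ∞ η) {p : E 8} (hp : hh w k p ≠ 0) (i : Fin 8) :
    pd i (pd i (Ps w k η)) p = η p * pd i (pd i (cc w k)) p +
      2 * (pd i η p * pd i (cc w k) p) + pd i (pd i η) p * cc w k p := by
  have he : pd i (Ps w k η) =ᶠ[𝓝 p] fun q => η q * pd i (cc w k) q + pd i η q * cc w k q := by
    filter_upwards [hh_ne_nhds hw hp] with q hq
    exact pd_Ps hw hη hq i
  rw [pd_congr he]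
  have d1 : DifferentiableAt ℝ η p := hη.differentiable (by simp) p
  have d2 : DifferentiableAt ℝ (pd i (cc w k)) p :=
    (contDiffAt_pd_cc hw hp i).differentiableAt (by simp)
  have d3 : DifferentiableAt ℝ (pd i η) p := (contDiff_pd hη i).differentiable (by simp) p
  have d4 : DifferentiableAt ℝ (cc w k) p := (contDiffAt_cc hw hp).differentiableAt (by simp)
  have d5 : DifferentiableAt ℝ (fun q => η q * pd i (cc w k) q) p := d1.mul d2
  have d6 : DifferentiableAt ℝ (fun q => pd i η q * cc w k q) p := d3.mul d4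
  rw [pd_add d5 d6, pd_mul d1 d2, pd_mul d3 d4]
  ring

lemma RR_eq (hw : 0 < w) (hη : ContDiff ℝ ∞ η) (hi : Ind η) {p : E 8} (hp : hh w k p ≠ 0) :
    RR w k lam η p = η p * cc w k p * (k ^ 2 + V w p - kap w k p ^ 2) +
      ∑ i ∈ Finset.univ.erase (7 : Fin 8),
        (η p * pd i (pd i (cc w k)) p + 2 * (pd i η p * pd i (cc w k) p)) := by
  have h1 : lap (Ps w k η) p = ∑ i : Fin 8, (η p * pd i (pd i (cc w k)) p +
      2 * (pd i η p * pd i (cc w k) p)) + lap η p * cc w k p := by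
    unfold lap
    rw [Finset.sum_mul, ← Finset.sum_add_distrib]
    exact Finset.sum_congr rfl (fun i _ => pd_pd_Ps hw hη hp i)
  have h2 := Finset.add_sum_erase Finset.univ (fun i : Fin 8 => η p * pd i (pd i (cc w k)) p +
      2 * (pd i η p * pd i (cc w k) p)) (Finset.mem_univ 7)
  have h3 : pd 7 η p = 0 := hi.pd7 p
  have h4 : pd 7 (pd 7 (cc w k)) p = -cc w k p * kap w k p ^ 2 := by
    rw [pd_pd_cc hw hp, pd7_ph hw hp, pd7_pd7_ph hw hp]
    unfold cc; ring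
  unfold RR
  rw [h1, ← h2, h3, h4]
  unfold Ps EE
  ring

lemma Ctx.ind_eta (c : Ctx w k lam A u η) : Ind η := ind_of c.xt.indep

lemma Ctx.cc1 (c : Ctx w k lam A u η) {p : E 8} (hp : p ∈ Om w k) (hb : p ∈ bx) {i : Fin 8}
    (hi : i ≠ 7) : |pd i (cc w k) p| ≤ 4 * A / k ^ 2 := by
  have hh0 := c.hh_box hb
  rw [pd_cc c.w0 (by linarith), abs_mul, abs_neg]
  calc |Real.sin (ph w k p)| * |pd i (ph w k) p| ≤ 1 * (4 * A / k ^ 2) :=
        mul_le_mul (Real.abs_sin_le_one _) (c.sg_le hp hb hi) (abs_nonneg _) (by norm_num)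
    _ = 4 * A / k ^ 2 := one_mul _

lemma Ctx.cc2 (c : Ctx w k lam A u η) {p : E 8} (hp : p ∈ Om w k) (hb : p ∈ bx) {i : Fin 8}
    (hi : i ≠ 7) : |pd i (pd i (cc w k)) p| ≤ (4 * A + 24 * A ^ 2) / k ^ 2 := by
  have hh0 := c.hh_box hb
  have hk := c.k0
  have hA := c.A0
  rw [pd_pd_cc c.w0 (by linarith)]
  have h1 := c.sg_le hp hb hi
  have h2 := c.sgg_le hp hb hi
  have h3 : |-Real.cos (ph w k p) * (pd i (ph w k) p) ^ 2| ≤ 1 * (4 * A / k ^ 2) ^ 2 := by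
    rw [abs_mul, abs_neg, abs_pow]
    exact mul_le_mul (Real.abs_cos_le_one _) (pow_le_pow_left₀ (abs_nonneg _) h1 2)
      (by positivity) (by norm_num)
  have h4 : |Real.sin (ph w k p) * pd i (pd i (ph w k)) p| ≤ 1 * ((4 * A + 8 * A ^ 2) / k ^ 2) := by
    rw [abs_mul]
    exact mul_le_mul (Real.abs_sin_le_one _) h2 (abs_nonneg _) (by norm_num)
  refine (abs_sub _ _).trans ((add_le_add h3 h4).trans ?_)
  have h5 : 1 / k ^ 2 ≤ 1 := by
    rw [div_le_one (by positivity)]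
    have := c.k1
    nlinarith
  calc 1 * (4 * A / k ^ 2) ^ 2 + 1 * ((4 * A + 8 * A ^ 2) / k ^ 2)
      = 16 * A ^ 2 / k ^ 2 * (1 / k ^ 2) + (4 * A + 8 * A ^ 2) / k ^ 2 := by field_simp; ring
    _ ≤ 16 * A ^ 2 / k ^ 2 * 1 + (4 * A + 8 * A ^ 2) / k ^ 2 := by gcongr
    _ = (4 * A + 24 * A ^ 2) / k ^ 2 := by ring

/-- the constant of the remainder -/
noncomputable def CR (A : ℝ) : ℝ := A * (3 * A ^ 2) + 7 * (A * (4 * A + 24 * A ^ 2) + 2 * (A * (4 * A)))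

lemma Ctx.RR_le (c : Ctx w k lam A u η) {p : E 8} (hp : p ∈ Om w k) (hb : p ∈ bx) :
    |RR w k lam η p| ≤ CR A / k ^ 2 := by
  have hh0 := c.hh_box hb
  have hk := c.k0
  have hA := c.A0
  have hs := c.small hp hb
  rw [RR_eq c.w0 c.xt.smooth c.ind_eta (by linarith)]
  have hc : |cc w k p| ≤ 1 := Real.abs_cos_le_one _
  have h1 : |η p * cc w k p * (k ^ 2 + V w p - kap w k p ^ 2)| ≤ A * 1 * (3 * A ^ 2 / k ^ 2) := by
    rw [abs_mul, abs_mul]
    have := c.bη p hs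
    have := c.kap_sq hb
    gcongr
  have h2 : |∑ i ∈ Finset.univ.erase (7 : Fin 8),
        (η p * pd i (pd i (cc w k)) p + 2 * (pd i η p * pd i (cc w k) p))| ≤
      7 * (A * ((4 * A + 24 * A ^ 2) / k ^ 2) + 2 * (A * (4 * A / k ^ 2))) := by
    refine (Finset.abs_sum_le_sum_abs _ _).trans ?_
    have : ∀ i ∈ Finset.univ.erase (7 : Fin 8),
        |η p * pd i (pd i (cc w k)) p + 2 * (pd i η p * pd i (cc w k) p)| ≤
        A * ((4 * A + 24 * A ^ 2) / k ^ 2) + 2 * (A * (4 * A / k ^ 2)) := by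
      intro i hi
      have hi7 : i ≠ 7 := Finset.ne_of_mem_erase hi
      refine (abs_add_le _ _).trans ?_
      rw [abs_mul, abs_mul, abs_mul]
      have a1 := c.bη p hs
      have a2 := c.bη1 i p hs
      have a3 := c.cc1 hp hb hi7
      have a4 := c.cc2 hp hb hi7
      rw [abs_of_pos (by norm_num : (0 : ℝ) < 2)]
      gcongr
    refine (Finset.sum_le_card_nsmul _ _ _ this).trans (le_of_eq ?_)
    have hcard : (Finset.univ.erase (7 : Fin 8)).card = 7 := by simp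
    rw [hcard, nsmul_eq_mul]; norm_num
  refine (abs_add_le _ _).trans ((add_le_add h1 h2).trans (le_of_eq ?_))
  unfold CR
  field_simp

/-! ### vanishing outside the box -/

lemma isClosed_bx : IsClosed bx := by
  have : bx = ⋂ i : Fin 8, {p : E 8 | i ≠ 7 → |p i| ≤ 1} := by
    ext p; simp [bx]
  rw [this]
  apply isClosed_iInter
  intro i
  by_cases hi : i = 7
  · simp [hi]
  · simp only [ne_eq, hi, not_false_eq_true, forall_true_left]
    exact isClosed_le (continuous_abs.comp (contDiff_coord (m := 0) i).continuous)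
      continuous_const

lemma XTest.zero_of_notMem {η : E 8 → ℝ} (hx : XTest η) {p : E 8} (hp : p ∉ bx) : η p = 0 := by
  apply hx.supp
  change ¬ (∀ i : Fin 8, i ≠ 7 → |p i| ≤ 1) at hp
  push Not at hp
  obtain ⟨i, hi, h⟩ := hp
  exact ⟨i, hi, h.le⟩

lemma XTest.ev_zero {η : E 8 → ℝ} (hx : XTest η) {p : E 8} (hp : p ∉ bx) :
    η =ᶠ[𝓝 p] fun _ => 0 := by
  filter_upwards [isClosed_bx.isOpen_compl.mem_nhds hp] with q hq
  exact XTest.zero_of_notMem hx hq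

lemma pd_ev_zero {f : E 8 → ℝ} {p : E 8} (h : f =ᶠ[𝓝 p] fun _ => 0) (i : Fin 8) :
    pd i f =ᶠ[𝓝 p] fun _ => 0 := by
  filter_upwards [h.eventuallyEq_nhds] with q hq
  rw [pd_congr hq]
  simp [pd]

lemma lap_ev_zero {f : E 8 → ℝ} {p : E 8} (h : f =ᶠ[𝓝 p] fun _ => 0) : lap f p = 0 := by
  unfold lap
  exact Finset.sum_eq_zero (fun i _ => (pd_ev_zero (pd_ev_zero h i) i).self_of_nhds)

lemma EE_zero (hx : XTest η) {p : E 8} (hp : p ∉ bx) : EE w k lam η p = 0 := by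
  unfold EE
  rw [lap_ev_zero (XTest.ev_zero hx hp), XTest.zero_of_notMem hx hp]; ring

lemma Ps_ev_zero (hx : XTest η) {p : E 8} (hp : p ∉ bx) : Ps w k η =ᶠ[𝓝 p] fun _ => 0 := by
  filter_upwards [XTest.ev_zero hx hp] with q hq
  simp [Ps, hq]

lemma RR_zero (hx : XTest η) {p : E 8} (hp : p ∉ bx) : RR w k lam η p = 0 := by
  unfold RR
  rw [lap_ev_zero (Ps_ev_zero hx hp), EE_zero hx hp, (Ps_ev_zero hx hp).self_of_nhds]; ring

/-- the constant of the residual -/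
noncomputable def CE (A : ℝ) : ℝ := A + (A + 8) * A

lemma Ctx.EE_le (c : Ctx w k lam A u η) (hmu : k ^ 2 ≤ lam) {p : E 8} (hp : p ∈ Om w k) :
    |EE w k lam η p| ≤ CE A := by
  have hA := c.A0
  by_cases hb : p ∈ bx
  · have hs := c.small hp hb
    unfold EE CE
    refine (abs_sub _ _).trans ?_
    rw [abs_mul]
    have h1 := c.bη p hs
    have h2 := c.bη2 p hs
    have h3 : |V w p - (lam - k ^ 2)| ≤ A + 8 := by
      refine (abs_sub _ _).trans ?_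
      have h4 := c.bV p hs
      have h5 : |lam - k ^ 2| ≤ 8 := by
        rw [abs_of_nonneg (by linarith)]
        have := c.hlam
        linarith
      linarith
    gcongr
  · rw [EE_zero c.xt hb]
    unfold CE
    simp only [abs_zero]
    positivity

lemma contDiff_EE (hw : 0 < w) (hη : ContDiff ℝ ∞ η) : ContDiff ℝ ∞ (EE w k lam η) := by
  unfold EE
  exact (contDiff_lap hη).sub (((contDiff_V hw).sub contDiff_const).mul hη)

lemma ind_EE (hi : Ind η) : Ind (EE w k lam η) := by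
  intro p t
  unfold EE
  rw [hi.lap p t, hi p t, ind_V w p t]

end

end Pool.Agent.GS8.Gr
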