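import Pool.Agent.GS8.GreenBd

/-!
# Job 9b, auxiliary part 3: the energy inequality
-/

set_option autoImplicit false

open MeasureTheory Set Filter Topology
open scoped Real ContDiff

namespace Pool.Agent.GS8.Gr

lemma dct {Ω : Set (E 8)} (hΩ : MeasurableSet Ω) {F : ℕ → E 8 → ℝ} {f b : E 8 → ℝ}
    (hF : ∀ j, Measurable (F j)) (hb : IntegrableOn b Ω)
    (hle : ∀ j, ∀ x ∈ Ω, |F j x| ≤ b x)
    (hlim : ∀ x ∈ Ω, Tendsto (fun j => F j x) atTop (𝓝 (f x))) :
    Tendsto (fun j => ∫ x in Ω, F j x) atTop (𝓝 (∫ x in Ω, f x)) := by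
  apply tendsto_integral_of_dominated_convergence b (fun j => (hF j).aestronglyMeasurable) hb
  · intro j
    exact (ae_restrict_iff' hΩ).2 (ae_of_all _ (fun x hx => by simpa using hle j x hx))
  · exact (ae_restrict_iff' hΩ).2 (ae_of_all _ hlim)

lemma integrableOn_bdd {Ω : Set (E 8)} (hΩ : MeasurableSet Ω) (hfin : volume Ω < ⊤)
    {F : E 8 → ℝ} (hF : Measurable F) {C : ℝ} (hC : ∀ x ∈ Ω, |F x| ≤ C) : IntegrableOn F Ω := by
  apply Measure.integrableOn_of_bounded (M := C) hfin.ne hF.aestronglyMeasurable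
  exact (ae_restrict_iff' hΩ).2 (ae_of_all _ (fun x hx => by simpa using hC x hx))

lemma integral_le_bdd {S : Set (E 8)} (hfin : volume S < ⊤)
    {F : E 8 → ℝ} {C : ℝ} (hC : ∀ x ∈ S, |F x| ≤ C) :
    |∫ x in S, F x| ≤ C * (volume S).toReal := by
  have := norm_setIntegral_le_of_norm_le_const (f := F) (C := C) hfin
    (fun x hx => by simpa using hC x hx)
  simpa [Measure.real] using this

section

variable {w k lam A : ℝ} {u η : E 8 → ℝ}

lemma Ctx.meas (c : Ctx w k lam A u η) : MeasurableSet (Om w k) := c.G.isOpen.measurableSet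

lemma Ctx.fin (c : Ctx w k lam A u η) : volume (Om w k) < ⊤ := c.G.bounded.measure_lt_top

lemma Ctx.u_nonneg (c : Ctx w k lam A u η) (x : E 8) : 0 ≤ u x := by
  by_cases hx : x ∈ Om w k
  · exact (c.gr.pos x hx).le
  · rw [c.gr.zero x hx]

lemma Ctx.M_pos (c : Ctx w k lam A u η) : 0 < u 0 := c.gr.pos 0 c.G.zero_mem

lemma Ctx.mu (c : Ctx w k lam A u η) : Measurable u := c.gr.cont.measurable

lemma continuous_r2 : Continuous r2 := by
  unfold r2
  exact continuous_finsetSum _ (fun i _ => (contDiff_coord (m := 0) i).continuous.pow 2)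

lemma Ctx.integrableOn_cont (c : Ctx w k lam A u η) {F : E 8 → ℝ} (hF : Continuous F) :
    IntegrableOn F (Om w k) := by
  have h1 : IsCompact (closure (Om w k)) := c.G.bounded.isCompact_closure
  exact (hF.continuousOn.integrableOn_compact h1).mono_set subset_closure

lemma Ctx.cont_f (c : Ctx w k lam A u η) (j : ℕ) : Continuous (fun x => FF (lev j) (u x)) :=
  (contDiff_FF (lev_pos j)).continuous.comp c.gr.cont

lemma setIntegral_eq_of_zero {Ω : Set (E 8)} {F : E 8 → ℝ} (h : ∀ x, x ∉ Ω → F x = 0) :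
    ∫ x in Ω, F x = ∫ x, F x := setIntegral_eq_integral_of_forall_compl_eq_zero h

lemma Ctx.f_zero (c : Ctx w k lam A u η) (j : ℕ) {x : E 8} (hx : x ∉ Om w k) :
    FF (lev j) (u x) = 0 := by
  rw [c.gr.zero x hx]
  simp [FF, (lev_pos j).le]

lemma Ctx.cont_kap (c : Ctx w k lam A u η) : ContinuousOn (kap w k) (Om w k) := fun _ hp =>
  (contDiffAt_kap c.w0 (c.hh_pos hp).ne').continuousAt.continuousWithinAt

lemma Ctx.star (c : Ctx w k lam A u η) (j : ℕ) :
    (∫ x in Om w k, (k ^ 2 + r2 x) * FF (lev j) (u x) ^ 2) +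
      ∫ x, cc w k x ^ 2 * pd 7 (fun y => FF (lev j) (u y) / cc w k y) x ^ 2 ≤
      lam * ∫ x in Om w k, u x ^ 2 := by
  set f : E 8 → ℝ := fun x => FF (lev j) (u x) with hf
  have ht : Test1 (Om w k) f := c.ca.trunc _ (lev_pos j)
  have hdz := c.L.dz f ht
  have hfz : ∀ x, x ∉ Om w k → f x = 0 := fun x hx => c.f_zero j hx
  have hpdz : ∀ x, x ∉ Om w k → pd 7 f x = 0 := by
    intro x hx
    by_contra h
    exact hx (ht.sub (tsupport_pd_subset f 7 (subset_tsupport _ h)))
  -- upper bound of the left side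
  have h1 : ∫ x, pd 7 f x ^ 2 ≤ lam * ∫ x in Om w k, u x ^ 2 := by
    rw [← setIntegral_eq_of_zero (Ω := Om w k) (fun x hx => by rw [hpdz x hx]; ring),
      ← c.ca.energy]
    have h2 : ∫ x in Om w k, pd 7 f x ^ 2 ≤ ∫ x in Om w k, pd 7 u x ^ 2 := by
      apply setIntegral_mono_on _ (c.ca.grad_int 7) c.meas
      · intro x _
        rw [c.ca.trunc_pd _ (lev_pos j), mul_pow]
        have a1 := FF'_nonneg (s := u x) (lev_pos j)
        have a2 := FF'_le (s := u x) (lev_pos j)
        have : FF' (lev j) (u x) ^ 2 ≤ 1 := pow_le_one₀ a1 a2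
        calc FF' (lev j) (u x) ^ 2 * pd 7 u x ^ 2 ≤ 1 * pd 7 u x ^ 2 := by gcongr
          _ = pd 7 u x ^ 2 := one_mul _
      · have hc : Continuous (pd 7 f) := contDiff_pd_one ht.smooth 7
        have h4 : Integrable (fun x => pd 7 f x * pd 7 f x) :=
          (hc.mul hc).integrable_of_hasCompactSupport
            (HasCompactSupport.mul_left (hasCompactSupport_pd ht.cpt 7))
        have h5 : (fun x => pd 7 f x ^ 2) = fun x => pd 7 f x * pd 7 f x := by
          funext x; ring
        rw [h5]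
        exact h4.integrableOn
    refine h2.trans ?_
    exact Finset.single_le_sum (f := fun i : Fin 8 => ∫ x in Om w k, pd i u x ^ 2)
      (fun i _ => setIntegral_nonneg c.meas (fun x _ => sq_nonneg _)) (Finset.mem_univ 7)
  -- lower bound
  have h3 : ∫ x in Om w k, (k ^ 2 + r2 x) * f x ^ 2 ≤ ∫ x, kap w k x ^ 2 * f x ^ 2 := by
    rw [← setIntegral_eq_of_zero (Ω := Om w k) (F := fun x => kap w k x ^ 2 * f x ^ 2)
      (fun x hx => by rw [hfz x hx]; ring)]
    apply setIntegral_mono_on _ _ c.meas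
    · intro x hx
      have := c.L.kap_ge x hx
      gcongr
    · apply c.integrableOn_cont
      exact (continuous_const.add continuous_r2).mul ((c.cont_f j).pow 2)
    · have h4 : Integrable (fun x => (kap w k x ^ 2 * f x) * f x) := by
        apply integrable_mul_test c.G.isOpen ht.smooth.continuous ht.cpt ht.sub
        exact (c.cont_kap.pow 2).mul ht.smooth.continuous.continuousOn
      have h5 : (fun x => kap w k x ^ 2 * f x ^ 2) = fun x => (kap w k x ^ 2 * f x) * f x := by
        funext x; ring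
      rw [h5]; exact h4.integrableOn
  have h6 : ∫ x, cc w k x ^ 2 * pd 7 (fun y => f y / cc w k y) x ^ 2 =
      ∫ x, Real.cos (kap w k x * x 7) ^ 2 *
        pd 7 (fun y => f y / Real.cos (kap w k y * y 7)) x ^ 2 := rfl
  rw [h6]
  linarith

lemma Ctx.lim_r2 (c : Ctx w k lam A u η) :
    Tendsto (fun j => ∫ x in Om w k, (k ^ 2 + r2 x) * FF (lev j) (u x) ^ 2) atTop
      (𝓝 (∫ x in Om w k, (k ^ 2 + r2 x) * u x ^ 2)) := by
  apply dct c.meas (b := fun x => (k ^ 2 + r2 x) * u x ^ 2)
  · intro j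
    exact ((continuous_const.add continuous_r2).mul ((c.cont_f j).pow 2)).measurable
  · exact c.integrableOn_cont ((continuous_const.add continuous_r2).mul (c.gr.cont.pow 2))
  · intro j x _
    have h0 : 0 ≤ k ^ 2 + r2 x := by have := r2_nonneg x; positivity
    rw [abs_of_nonneg (mul_nonneg h0 (sq_nonneg _))]
    have h1 := FF_nonneg (s := u x) (lev_pos j)
    have h2 := FF_le (lev_pos j) (c.u_nonneg x)
    gcongr
  · intro x _
    exact ((FF_tendsto (c.u_nonneg x)).pow 2).const_mul _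

lemma Ctx.lim_sq (c : Ctx w k lam A u η) :
    Tendsto (fun j => ∫ x in Om w k, FF (lev j) (u x) ^ 2) atTop
      (𝓝 (∫ x in Om w k, u x ^ 2)) := by
  apply dct c.meas (b := fun x => u x ^ 2)
  · intro j
    exact ((c.cont_f j).pow 2).measurable
  · exact c.integrableOn_cont (c.gr.cont.pow 2)
  · intro j x _
    rw [abs_of_nonneg (sq_nonneg _)]
    have h1 := FF_nonneg (s := u x) (lev_pos j)
    have h2 := FF_le (lev_pos j) (c.u_nonneg x)
    gcongr
  · intro x _
    exact (FF_tendsto (c.u_nonneg x)).pow 2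

lemma Ctx.energy_r2 (c : Ctx w k lam A u η) :
    ∫ x in Om w k, (k ^ 2 + r2 x) * u x ^ 2 ≤ lam * ∫ x in Om w k, u x ^ 2 := by
  apply le_of_tendsto c.lim_r2
  apply Eventually.of_forall
  intro j
  have h1 := c.star j
  have h2 : 0 ≤ ∫ x, cc w k x ^ 2 * pd 7 (fun y => FF (lev j) (u y) / cc w k y) x ^ 2 :=
    integral_nonneg (fun x => by positivity)
  linarith

lemma Ctx.sq_pos (c : Ctx w k lam A u η) : 0 < ∫ x in Om w k, u x ^ 2 := by
  rw [setIntegral_eq_of_zero (F := fun x => u x ^ 2)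
    (fun x hx => by rw [c.gr.zero x hx]; ring)]
  have hcont : Continuous (fun x => u x ^ 2) := c.gr.cont.pow 2
  have hcs : HasCompactSupport (fun x => u x ^ 2) := by
    apply HasCompactSupport.of_support_subset_isCompact c.G.bounded.isCompact_closure
    intro x hx
    by_contra h
    apply hx
    have : x ∉ Om w k := fun h' => h (subset_closure h')
    simp [c.gr.zero x this]
  exact hcont.integral_pos_of_hasCompactSupport_nonneg_nonzero hcs
    (fun x => sq_nonneg _) (x := 0) (by have := c.M_pos; positivity)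

lemma Ctx.r2_le (c : Ctx w k lam A u η) :
    ∫ x in Om w k, r2 x * u x ^ 2 ≤ (lam - k ^ 2) * ∫ x in Om w k, u x ^ 2 := by
  have h := c.energy_r2
  have h1 : ∫ x in Om w k, (k ^ 2 + r2 x) * u x ^ 2 =
      k ^ 2 * (∫ x in Om w k, u x ^ 2) + ∫ x in Om w k, r2 x * u x ^ 2 := by
    rw [← integral_const_mul, ← integral_add]
    · apply integral_congr_ae
      exact ae_of_all _ (fun x => by ring)
    · exact (c.integrableOn_cont (c.gr.cont.pow 2)).const_mul _
    · exact c.integrableOn_cont (continuous_r2.mul (c.gr.cont.pow 2))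
  rw [h1] at h
  linarith

lemma Ctx.mu_nonneg (c : Ctx w k lam A u η) : k ^ 2 ≤ lam := by
  have h1 := c.r2_le
  have h2 := c.sq_pos
  have h3 : 0 ≤ ∫ x in Om w k, r2 x * u x ^ 2 :=
    integral_nonneg (fun x => mul_nonneg (r2_nonneg x) (sq_nonneg _))
  by_contra h
  push Not at h
  nlinarith

/-! ### volume bounds -/

lemma Ctx.vol_box (c : Ctx w k lam A u η) :
    (volume (Om w k ∩ bx)).toReal ≤ 2 ^ 7 * π / k := by
  have hk := c.k0
  have h1 : Om w k ∩ bx ⊆ {p : E 8 | ∀ i, |p i| ≤ (fun i : Fin 8 =>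
      if i = 7 then π / (2 * k) else 1) i} := by
    intro p hp i
    by_cases hi : i = 7
    · subst hi; simpa using c.z_le hp.1
    · simpa [hi] using hp.2 i hi
  have h2 := volume_box (fun i : Fin 8 => if i = 7 then π / (2 * k) else 1)
  have h3 : (∏ i : Fin 8, ENNReal.ofReal (2 * (if i = 7 then π / (2 * k) else 1))) =
      ENNReal.ofReal (2 ^ 7 * π / k) := by
    rw [← ENNReal.ofReal_prod_of_nonneg]
    · congr 1
      rw [Fin.prod_univ_eight]
      simp
      field_simp
    · intro i _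
      split_ifs <;> positivity
  have h4 : volume (Om w k ∩ bx) ≤ ENNReal.ofReal (2 ^ 7 * π / k) := by
    rw [← h3, ← h2]
    exact measure_mono h1
  exact ENNReal.toReal_le_of_le_ofReal (by positivity) h4

lemma Ctx.vol_r2 (c : Ctx w k lam A u η) :
    (volume (Om w k ∩ {p | r2 p < 16})).toReal ≤ (2 * (w ^ 4)⁻¹ * 8 ^ 6 * π) / k := by
  have hk := c.k0
  have hw := c.w0
  have h1 : Om w k ∩ {p | r2 p < 16} ⊆ {p : E 8 | ∀ i, |p i| ≤ (fun i : Fin 8 =>
      if i = 7 then π / (2 * k) else if i = 0 then (w ^ 4)⁻¹ else 4) i} := by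
    intro p hp i
    by_cases hi : i = 7
    · subst hi; simpa using c.z_le hp.1
    · by_cases hi0 : i = 0
      · subst hi0
        simpa using hp.1.1.le
      · simp only [hi, hi0, if_false]
        have h5 : p i ^ 2 ≤ r2 p := by
          unfold r2
          apply Finset.single_le_sum (f := fun i : Fin 8 => p i ^ 2)
            (fun i _ => sq_nonneg _)
          revert hi hi0
          fin_cases i <;> simp [yI]
        have h6 : r2 p < 16 := hp.2
        apply abs_le_of_sq_le_sq _ (by norm_num)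
        linarith
  have h2 := volume_box (fun i : Fin 8 => if i = 7 then π / (2 * k) else
    if i = 0 then (w ^ 4)⁻¹ else 4)
  have h3 : (∏ i : Fin 8, ENNReal.ofReal (2 * (if i = 7 then π / (2 * k) else
      if i = 0 then (w ^ 4)⁻¹ else 4))) =
      ENNReal.ofReal ((2 * (w ^ 4)⁻¹ * 8 ^ 6 * π) / k) := by
    rw [← ENNReal.ofReal_prod_of_nonneg]
    · congr 1
      rw [Fin.prod_univ_eight]
      simp
      field_simp
      ring
    · intro i _
      split_ifs <;> positivity
  have h4 : volume (Om w k ∩ {p | r2 p < 16}) ≤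
      ENNReal.ofReal ((2 * (w ^ 4)⁻¹ * 8 ^ 6 * π) / k) := by
    rw [← h3, ← h2]
    exact measure_mono h1
  exact ENNReal.toReal_le_of_le_ofReal (by positivity) h4

/-- the `L²` mass is `O(M²/k)` -/
lemma Ctx.mass (c : Ctx w k lam A u η) :
    ∫ x in Om w k, u x ^ 2 ≤ 2 * (2 * (w ^ 4)⁻¹ * 8 ^ 6 * π) * u 0 ^ 2 / k := by
  have hk := c.k0
  set S : Set (E 8) := {p | r2 p < 16} with hS
  have hSm : MeasurableSet S := (isOpen_lt continuous_r2 continuous_const).measurableSet
  have h1 : ∫ x in Om w k, u x ^ 2 ≤ ∫ x in Om w k, ((1 / 16) * (r2 x * u x ^ 2) +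
      S.indicator (fun _ => u 0 ^ 2) x) := by
    apply setIntegral_mono_on (c.integrableOn_cont (c.gr.cont.pow 2)) _ c.meas
    · intro x _
      have hu := c.u_nonneg x
      have hM := c.mx x
      by_cases hx : x ∈ S
      · rw [indicator_of_mem hx]
        have : 0 ≤ (1 / 16) * (r2 x * u x ^ 2) := by
          have := r2_nonneg x
          positivity
        have : u x ^ 2 ≤ u 0 ^ 2 := pow_le_pow_left₀ hu hM 2
        simp only [Pi.pow_apply]
        linarith
      · rw [indicator_of_notMem hx, add_zero]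
        have h2 : 16 ≤ r2 x := not_lt.1 hx
        simp only [Pi.pow_apply]
        nlinarith [sq_nonneg (u x)]
    · apply Integrable.add
      · exact (c.integrableOn_cont (continuous_r2.mul (c.gr.cont.pow 2))).const_mul _
      · exact (c.integrableOn_cont (continuous_const (y := u 0 ^ 2))).indicator hSm
  have h2 : ∫ x in Om w k, ((1 / 16) * (r2 x * u x ^ 2) + S.indicator (fun _ => u 0 ^ 2) x) =
      (1 / 16) * (∫ x in Om w k, r2 x * u x ^ 2) +
        u 0 ^ 2 * (volume (Om w k ∩ S)).toReal := by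
    rw [integral_add]
    · rw [integral_const_mul, integral_indicator hSm, Measure.restrict_restrict hSm,
        inter_comm S]
      simp [Measure.real, mul_comm]
    · exact (c.integrableOn_cont (continuous_r2.mul (c.gr.cont.pow 2))).const_mul _
    · exact (c.integrableOn_cont (continuous_const (y := u 0 ^ 2))).indicator hSm
  have h3 := c.r2_le
  have h4 := c.vol_r2
  have h5 : (lam - k ^ 2) * ∫ x in Om w k, u x ^ 2 ≤ 8 * ∫ x in Om w k, u x ^ 2 := by
    have := c.hlam
    have := c.sq_pos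
    gcongr
    linarith
  have h6 : u 0 ^ 2 * (volume (Om w k ∩ S)).toReal ≤
      u 0 ^ 2 * ((2 * (w ^ 4)⁻¹ * 8 ^ 6 * π) / k) := by gcongr
  have h7 : 2 * (2 * (w ^ 4)⁻¹ * 8 ^ 6 * π) * u 0 ^ 2 / k =
      2 * (u 0 ^ 2 * ((2 * (w ^ 4)⁻¹ * 8 ^ 6 * π) / k)) := by ring
  rw [h7]
  linarith

end

end Pool.Agent.GS8.Gr
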