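import Pool.Agent.GS8.GreenEn

/-!
# Job 9b, part 4: replacing the cosine by the window
-/

set_option autoImplicit false

open MeasureTheory Set Filter Topology
open scoped Real ContDiff

namespace Pool.Agent.GS8.Gr

variable {w k lam A : ℝ} {u η : E 8 → ℝ} {β CQ b₀ : ℝ} {B Q : ℝ → ℝ}

lemma Win.bound (hW : Win β B Q CQ b₀) : ∃ CB : ℝ, ∀ θ : ℝ, |θ| < π / 2 → |B θ| ≤ CB := by
  obtain ⟨C, hC⟩ := (isCompact_Icc (a := -(π / 2)) (b := π / 2)).exists_bound_of_continuousOn
    hW.smooth.continuous.continuousOn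
  refine ⟨C, fun θ hθ => ?_⟩
  have := abs_lt.1 hθ
  simpa using hC θ ⟨this.1.le, this.2.le⟩

lemma Ctx.contDiffOn_cc (c : Ctx w k lam A u η) : ContDiffOn ℝ ∞ (cc w k) (Om w k) :=
  fun _ hp => (contDiffAt_cc c.w0 (c.hh_pos hp).ne').contDiffWithinAt

lemma Ctx.cont_ph (c : Ctx w k lam A u η) : ContinuousOn (ph w k) (Om w k) :=
  fun _ hp => (contDiffAt_ph c.w0 (c.hh_pos hp).ne').continuousAt.continuousWithinAt

lemma Ctx.kap_pos (c : Ctx w k lam A u η) {p : E 8} (hp : p ∈ Om w k) : 0 < kap w k p :=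
  lt_of_lt_of_le c.k0 (c.kap_ge hp)

/-- the auxiliary function -/
noncomputable def G2 (w k lam : ℝ) (η : E 8 → ℝ) (Q : ℝ → ℝ) (p : E 8) : ℝ :=
  Q (ph w k p) * (kap w k p)⁻¹ * EE w k lam η p

lemma Ctx.G2_diff (c : Ctx w k lam A u η) (hW : Win β B Q CQ b₀) {p : E 8} (hp : p ∈ Om w k) :
    DifferentiableAt ℝ (G2 w k lam η Q) p := by
  have h0 : hh w k p ≠ 0 := (c.hh_pos hp).ne'
  have h1 : DifferentiableAt ℝ (ph w k) p := (contDiffAt_ph c.w0 h0).differentiableAt (by simp)
  have h2 : DifferentiableAt ℝ (kap w k) p := (contDiffAt_kap c.w0 h0).differentiableAt (by simp)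
  have h3 : DifferentiableAt ℝ (fun q => Q (ph w k q)) p :=
    ((hW.Qsmooth.differentiable (by norm_num)) _).comp p h1
  have h4 : DifferentiableAt ℝ (fun q => (kap w k q)⁻¹) p := h2.inv (c.kap_pos hp).ne'
  have h5 : DifferentiableAt ℝ (EE w k lam η) p :=
    (contDiff_EE c.w0 c.xt.smooth).differentiable (by simp) p
  exact (h3.mul h4).mul h5

lemma Ctx.pd_G2 (c : Ctx w k lam A u η) (hW : Win β B Q CQ b₀) {p : E 8} (hp : p ∈ Om w k) :
    pd 7 (G2 w k lam η Q) p = (cc w k p ^ 2 - B (ph w k p) * cc w k p) * EE w k lam η p := by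
  have h0 : hh w k p ≠ 0 := (c.hh_pos hp).ne'
  have h1 : DifferentiableAt ℝ (ph w k) p := (contDiffAt_ph c.w0 h0).differentiableAt (by simp)
  have h2 : DifferentiableAt ℝ (kap w k) p := (contDiffAt_kap c.w0 h0).differentiableAt (by simp)
  have hQ : HasDerivAt Q (Real.cos (ph w k p) ^ 2 - B (ph w k p) * Real.cos (ph w k p))
      (ph w k p) := by
    rw [← hW.Qderiv]
    exact ((hW.Qsmooth.differentiable (by norm_num)) _).hasDerivAt
  have h3 : DifferentiableAt ℝ (fun q => Q (ph w k q)) p :=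
    ((hW.Qsmooth.differentiable (by norm_num)) _).comp p h1
  have h4 : DifferentiableAt ℝ (fun q => (kap w k q)⁻¹) p := h2.inv (c.kap_pos hp).ne'
  have h5 : DifferentiableAt ℝ (EE w k lam η) p :=
    (contDiff_EE c.w0 c.xt.smooth).differentiable (by simp) p
  have e1 : pd 7 (fun q => Q (ph w k q)) p =
      (Real.cos (ph w k p) ^ 2 - B (ph w k p) * Real.cos (ph w k p)) * kap w k p := by
    rw [pd_comp hQ h1, pd7_ph c.w0 h0]
  have i4 : Ind (fun q => (kap w k q)⁻¹) := by
    intro q t
    change (kap w k (q + t • ee 7))⁻¹ = (kap w k q)⁻¹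
    rw [ind_kap w k q t]
  have e2 : pd 7 (fun q => (kap w k q)⁻¹) p = 0 := i4.pd7 p
  have e3 : pd 7 (EE w k lam η) p = 0 := (ind_EE c.ind_eta).pd7 p
  have h34 : DifferentiableAt ℝ (fun q => Q (ph w k q) * (kap w k q)⁻¹) p := h3.mul h4
  have hk : kap w k p ≠ 0 := (c.kap_pos hp).ne'
  unfold G2
  rw [pd_mul h34 h5, pd_mul h3 h4, e1, e2, e3]
  unfold cc
  field_simp
  ring

/-- one truncation level -/
lemma Ctx.window_j (c : Ctx w k lam A u η) (hW : Win β B Q CQ b₀) (j : ℕ) :
    |∫ x in Om w k, FF (lev j) (u x) * ((cc w k x - B (ph w k x)) * EE w k lam η x)| ≤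
      CQ * CE A / (2 * k) * (u 0 * (2 ^ 7 * π / k) + 1 / u 0 *
        (lam * (∫ x in Om w k, u x ^ 2) -
          ∫ x in Om w k, (k ^ 2 + r2 x) * FF (lev j) (u x) ^ 2)) := by
  have hmu := c.mu_nonneg
  have hk := c.k0
  have hM := c.M_pos
  have hA := c.A0
  have hCQ := hW.CQ_pos
  have hCE : 0 ≤ CE A := by unfold CE; positivity
  set f : E 8 → ℝ := fun x => FF (lev j) (u x) with hf
  have ht : Test1 (Om w k) f := c.ca.trunc _ (lev_pos j)
  have hfz : ∀ x, x ∉ Om w k → f x = 0 := fun x hx => c.f_zero j hx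
  set g : E 8 → ℝ := fun x => f x / cc w k x with hg
  have hg' : g = fun x => (cc w k x)⁻¹ * f x := by
    funext x; rw [hg]; simp only; rw [div_eq_mul_inv, mul_comm]
  have hgsupp : Function.support g ⊆ Function.support f := by
    intro x hx h
    apply hx
    simp only [hg]
    rw [h, zero_div]
  have hgts : tsupport g ⊆ Om w k := (closure_mono hgsupp).trans ht.sub
  have hgc : HasCompactSupport g := ht.cpt.mono hgsupp
  have hgC : ContDiff ℝ 1 g := by
    rw [hg']
    apply contDiff_mul_test c.G.isOpen ht.smooth ht.sub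
    intro x hx
    have h1 : ContDiffAt ℝ 1 (cc w k) x :=
      (contDiffAt_cc c.w0 (c.hh_pos hx).ne').of_le (by exact_mod_cast le_top)
    exact (h1.inv (c.cc_pos hx).ne').contDiffWithinAt
  have hpgc : Continuous (pd 7 g) := contDiff_pd_one hgC 7
  have hpgcs : HasCompactSupport (pd 7 g) := hasCompactSupport_pd hgc 7
  have hpgts : tsupport (pd 7 g) ⊆ Om w k := (tsupport_pd_subset g 7).trans hgts
  -- continuity of `G2`
  have hccc : ContinuousOn (cc w k) (Om w k) := c.contDiffOn_cc.continuousOn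
  have hEc : Continuous (EE w k lam η) := (contDiff_EE c.w0 c.xt.smooth).continuous
  have hBc : ContinuousOn (fun x => B (ph w k x)) (Om w k) :=
    hW.smooth.continuous.comp_continuousOn c.cont_ph
  have hG2c : ContinuousOn (G2 w k lam η Q) (Om w k) := fun x hx =>
    (c.G2_diff hW hx).continuousAt.continuousWithinAt
  have hpG2c : ContinuousOn (pd 7 (G2 w k lam η Q)) (Om w k) := by
    have h1 : ContinuousOn (fun x => (cc w k x ^ 2 - B (ph w k x) * cc w k x) *
        EE w k lam η x) (Om w k) :=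
      ((hccc.pow 2).sub (hBc.mul hccc)).mul hEc.continuousOn
    exact h1.congr (fun x hx => c.pd_G2 hW hx)
  have hibp := integral_mul_fderiv_eq_neg_fderiv_mul_of_integrable (μ := (volume : Measure (E 8)))
    (f := g) (g := G2 w k lam η Q) (v := ee 7)
    (by
      have := integrable_mul_test c.G.isOpen hpgc hpgcs hpgts hG2c
      refine this.congr (ae_of_all _ (fun x => ?_))
      exact mul_comm _ _)
    (by
      have := integrable_mul_test c.G.isOpen hgC.continuous hgc hgts hpG2c
      refine this.congr (ae_of_all _ (fun x => ?_))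
      exact mul_comm _ _)
    (by
      have := integrable_mul_test c.G.isOpen hgC.continuous hgc hgts hG2c
      refine this.congr (ae_of_all _ (fun x => ?_))
      exact mul_comm _ _)
    (fun x _ => hgC.differentiable (by norm_num) x)
    (fun x hx => c.G2_diff hW (hgts hx))
  have hL : ∫ x in Om w k, f x * ((cc w k x - B (ph w k x)) * EE w k lam η x) =
      ∫ x, g x * fderiv ℝ (G2 w k lam η Q) x (ee 7) := by
    rw [setIntegral_eq_of_zero (fun x hx => by rw [hfz x hx]; ring)]
    apply integral_congr_ae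
    apply ae_of_all
    intro x
    by_cases hx : x ∈ Om w k
    · have h1 := c.pd_G2 hW hx
      unfold pd at h1
      simp only
      rw [h1]
      have h2 : cc w k x ≠ 0 := (c.cc_pos hx).ne'
      simp only [hg]
      field_simp
    · simp only [hg]
      rw [hfz x hx]; simp
  rw [hL, hibp, abs_neg]
  -- estimate the right side
  have hS : MeasurableSet (Om w k ∩ bx) := c.meas.inter isClosed_bx.measurableSet
  have hint2 : Integrable (fun x => cc w k x ^ 2 * pd 7 g x ^ 2) := by
    have h4 : Integrable (fun x => (cc w k x ^ 2 * pd 7 g x) * pd 7 g x) := by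
      apply integrable_mul_test c.G.isOpen hpgc hpgcs hpgts
      exact (hccc.pow 2).mul hpgc.continuousOn
    have h5 : (fun x => cc w k x ^ 2 * pd 7 g x ^ 2) =
        fun x => (cc w k x ^ 2 * pd 7 g x) * pd 7 g x := by
      funext x; ring
    rw [h5]; exact h4
  have hfinS : volume (Om w k ∩ bx) < ⊤ := (measure_mono inter_subset_left).trans_lt c.fin
  have hint1 : Integrable ((Om w k ∩ bx).indicator (fun _ : E 8 => u 0)) := by
    rw [integrable_indicator_iff hS]
    exact integrableOn_const hfinS.ne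
  have hpt : ∀ x, |fderiv ℝ g x (ee 7) * G2 w k lam η Q x| ≤
      CQ * CE A / (2 * k) * ((Om w k ∩ bx).indicator (fun _ => u 0) x +
        1 / u 0 * (cc w k x ^ 2 * pd 7 g x ^ 2)) := by
    intro x
    change |pd 7 g x * G2 w k lam η Q x| ≤ _
    by_cases hx : x ∈ Om w k
    · by_cases hb : x ∈ bx
      · have hmem : x ∈ Om w k ∩ bx := ⟨hx, hb⟩
        rw [indicator_of_mem hmem]
        have h1 : |G2 w k lam η Q x| ≤ CQ * cc w k x * (1 / k) * CE A := by
          unfold G2
          rw [abs_mul, abs_mul]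
          have a1 : |Q (ph w k x)| ≤ CQ * cc w k x := hW.Qbound _ (c.ph_lt hx)
          have a2 : |(kap w k x)⁻¹| ≤ 1 / k := by
            rw [abs_of_pos (inv_pos.2 (c.kap_pos hx)), one_div]
            exact inv_anti₀ hk (c.kap_ge hx)
          have a3 := c.EE_le hmu hx
          have a4 : 0 ≤ CQ * cc w k x := (abs_nonneg _).trans a1
          gcongr
        rw [abs_mul]
        have h2 : cc w k x * |pd 7 g x| ≤ (u 0 + 1 / u 0 * (cc w k x ^ 2 * pd 7 g x ^ 2)) / 2 := by
          have h3 : cc w k x ^ 2 * pd 7 g x ^ 2 = (cc w k x * |pd 7 g x|) ^ 2 := by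
            rw [mul_pow, sq_abs]
          rw [h3]
          set t := cc w k x * |pd 7 g x|
          have h4 : (u 0 + 1 / u 0 * t ^ 2) / 2 - t = (u 0 - t) ^ 2 / (2 * u 0) := by
            field_simp; ring
          have h5 : 0 ≤ (u 0 - t) ^ 2 / (2 * u 0) := by positivity
          linarith
        calc |pd 7 g x| * |G2 w k lam η Q x|
            ≤ |pd 7 g x| * (CQ * cc w k x * (1 / k) * CE A) :=
              mul_le_mul_of_nonneg_left h1 (abs_nonneg _)
          _ = CQ * CE A / k * (cc w k x * |pd 7 g x|) := by ring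
          _ ≤ CQ * CE A / k * ((u 0 + 1 / u 0 * (cc w k x ^ 2 * pd 7 g x ^ 2)) / 2) :=
              mul_le_mul_of_nonneg_left h2 (by positivity)
          _ = _ := by ring
      · have : G2 w k lam η Q x = 0 := by
          unfold G2; rw [EE_zero c.xt hb]; ring
        rw [this, mul_zero, abs_zero]
        have : 0 ≤ (Om w k ∩ bx).indicator (fun _ => u 0) x :=
          indicator_nonneg (fun _ _ => hM.le) _
        positivity
    · have h1 : pd 7 g x = 0 := by
        by_contra h
        exact hx (hpgts (subset_tsupport _ h))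
      rw [h1, zero_mul, abs_zero]
      have : 0 ≤ (Om w k ∩ bx).indicator (fun _ => u 0) x :=
        indicator_nonneg (fun _ _ => hM.le) _
      positivity
  have hmain : |∫ x, fderiv ℝ g x (ee 7) * G2 w k lam η Q x| ≤
      ∫ x, CQ * CE A / (2 * k) * ((Om w k ∩ bx).indicator (fun _ => u 0) x +
        1 / u 0 * (cc w k x ^ 2 * pd 7 g x ^ 2)) := by
    have := norm_integral_le_of_norm_le (μ := (volume : Measure (E 8)))
      (f := fun x => fderiv ℝ g x (ee 7) * G2 w k lam η Q x)
      ((hint1.add (hint2.const_mul (1 / u 0))).const_mul (CQ * CE A / (2 * k)))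
      (ae_of_all _ (fun x => by simpa using hpt x))
    simpa using this
  refine hmain.trans ?_
  rw [integral_const_mul]
  apply mul_le_mul_of_nonneg_left _ (by positivity)
  rw [integral_add hint1 (hint2.const_mul (1 / u 0)), integral_const_mul]
  have h7 : ∫ x, (Om w k ∩ bx).indicator (fun _ : E 8 => u 0) x ≤ u 0 * (2 ^ 7 * π / k) := by
    rw [integral_indicator hS]
    simp only [setIntegral_const, smul_eq_mul]
    rw [mul_comm]
    exact mul_le_mul_of_nonneg_left c.vol_box hM.le
  have h8 := c.star j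
  have h9 : ∫ x, cc w k x ^ 2 * pd 7 g x ^ 2 ≤ lam * (∫ x in Om w k, u x ^ 2) -
          ∫ x in Om w k, (k ^ 2 + r2 x) * FF (lev j) (u x) ^ 2 := by
    linarith
  apply add_le_add h7
  exact mul_le_mul_of_nonneg_left h9 (by positivity)

/-- the constant of the window estimate -/
noncomputable def CW (w A CQ : ℝ) : ℝ :=
  CQ * CE A / 2 * (2 ^ 7 * π + 8 * (2 * (2 * (w ^ 4)⁻¹ * 8 ^ 6 * π)))

lemma Ctx.window (c : Ctx w k lam A u η) (hW : Win β B Q CQ b₀) :
    |∫ x in Om w k, u x * ((cc w k x - B (ph w k x)) * EE w k lam η x)| ≤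
      CW w A CQ * u 0 / k ^ 2 := by
  have hmu := c.mu_nonneg
  have hk := c.k0
  have hM := c.M_pos
  have hA := c.A0
  have hCQ := hW.CQ_pos
  have hw := c.w0
  have hCE : 0 ≤ CE A := by unfold CE; positivity
  obtain ⟨CB, hCB⟩ := Win.bound hW
  have hmcc : Measurable (cc w k) := Real.measurable_cos.comp (measurable_ph c.w0)
  have hmB : Measurable (fun x => B (ph w k x)) :=
    hW.smooth.continuous.measurable.comp (measurable_ph c.w0)
  have hmE : Measurable (EE w k lam η) := (contDiff_EE c.w0 c.xt.smooth).continuous.measurable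
  have hlim : Tendsto (fun j => ∫ x in Om w k, FF (lev j) (u x) *
      ((cc w k x - B (ph w k x)) * EE w k lam η x)) atTop
      (𝓝 (∫ x in Om w k, u x * ((cc w k x - B (ph w k x)) * EE w k lam η x))) := by
    apply dct c.meas (b := fun _ => u 0 * ((1 + CB) * CE A))
    · intro j
      exact (c.cont_f j).measurable.mul ((hmcc.sub hmB).mul hmE)
    · exact integrableOn_const c.fin.ne
    · intro j x hx
      rw [abs_mul, abs_mul]
      have h1 : |FF (lev j) (u x)| ≤ u 0 := by
        rw [abs_of_nonneg (FF_nonneg (lev_pos j))]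
        exact (FF_le (lev_pos j) (c.u_nonneg x)).trans (c.mx x)
      have h2 : |cc w k x - B (ph w k x)| ≤ 1 + CB :=
        (abs_sub _ _).trans (add_le_add (Real.abs_cos_le_one _) (hCB _ (c.ph_lt hx)))
      have h3 := c.EE_le hmu hx
      have h4 : 0 ≤ 1 + CB := (abs_nonneg _).trans h2
      gcongr
    · intro x _
      exact (FF_tendsto (c.u_nonneg x)).mul_const _
  have hlim2 : Tendsto (fun j => CQ * CE A / (2 * k) * (u 0 * (2 ^ 7 * π / k) + 1 / u 0 *
        (lam * (∫ x in Om w k, u x ^ 2) -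
          ∫ x in Om w k, (k ^ 2 + r2 x) * FF (lev j) (u x) ^ 2))) atTop
      (𝓝 (CQ * CE A / (2 * k) * (u 0 * (2 ^ 7 * π / k) + 1 / u 0 *
        (lam * (∫ x in Om w k, u x ^ 2) - ∫ x in Om w k, (k ^ 2 + r2 x) * u x ^ 2)))) := by
    apply Tendsto.const_mul
    apply Tendsto.const_add
    apply Tendsto.const_mul
    exact tendsto_const_nhds.sub c.lim_r2
  have h1 := le_of_tendsto_of_tendsto' hlim.abs hlim2 (fun j => c.window_j hW j)
  refine h1.trans ?_
  have h2 : ∫ x in Om w k, (k ^ 2 + r2 x) * u x ^ 2 ≥ k ^ 2 * ∫ x in Om w k, u x ^ 2 := by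
    rw [← integral_const_mul]
    apply setIntegral_mono_on _ _ c.meas
    · intro x _
      have := r2_nonneg x
      change k ^ 2 * u x ^ 2 ≤ (k ^ 2 + r2 x) * u x ^ 2
      gcongr
      linarith
    · exact (c.integrableOn_cont (c.gr.cont.pow 2)).const_mul _
    · exact c.integrableOn_cont ((continuous_const.add continuous_r2).mul (c.gr.cont.pow 2))
  have h3 : lam * (∫ x in Om w k, u x ^ 2) - ∫ x in Om w k, (k ^ 2 + r2 x) * u x ^ 2 ≤
      8 * ∫ x in Om w k, u x ^ 2 := by
    have h4 := c.hlam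
    have h5 := c.sq_pos
    nlinarith
  have h6 := c.mass
  have h7 : lam * (∫ x in Om w k, u x ^ 2) - ∫ x in Om w k, (k ^ 2 + r2 x) * u x ^ 2 ≤
      8 * (2 * (2 * (w ^ 4)⁻¹ * 8 ^ 6 * π) * u 0 ^ 2 / k) := by linarith
  calc CQ * CE A / (2 * k) * (u 0 * (2 ^ 7 * π / k) + 1 / u 0 *
        (lam * (∫ x in Om w k, u x ^ 2) - ∫ x in Om w k, (k ^ 2 + r2 x) * u x ^ 2))
      ≤ CQ * CE A / (2 * k) * (u 0 * (2 ^ 7 * π / k) + 1 / u 0 *
        (8 * (2 * (2 * (w ^ 4)⁻¹ * 8 ^ 6 * π) * u 0 ^ 2 / k))) := by gcongr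
    _ = CW w A CQ * u 0 / k ^ 2 := by
      unfold CW
      field_simp

end Pool.Agent.GS8.Gr
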