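import Pool.Agent.GS8.Logc

/-! The iteration of the killed Gaussian walk. -/

set_option autoImplicit false

open MeasureTheory Set Filter Topology Function
open scoped Real ContDiff ENNReal

namespace Pool.Agent.GS8

variable {n : ℕ}

/-- Positive log-concave symmetric functions on `Ω`. -/
structure Good (Ω : Set (E n)) (f : E n → ℝ) : Prop extends Nice f where
  zero : ∀ x, x ∉ Ω → f x = 0
  pos : ∀ x ∈ Ω, 0 < f x
  logc : ∀ x y, f x * f y ≤ f ((1 / 2 : ℝ) • (x + y)) ^ 2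
  symm : ∀ σ : E n ≃ₗᵢ[ℝ] E n, (∀ x, σ x ∈ Ω ↔ x ∈ Ω) → ∀ x, f (σ x) = f x

/-- Iterates of the killed Gaussian walk. -/
noncomputable def it (Ω : Set (E n)) (t : ℝ) : ℕ → E n → ℝ
  | 0 => fun x => Metric.infDist x Ωᶜ
  | N + 1 => Ω.indicator (gconv t (it Ω t N))

variable {Ω : Set (E n)}

lemma compl_nonempty (hn : 1 ≤ n) (hb : Bornology.IsBounded Ω) : Ωᶜ.Nonempty := by
  have : Nonempty (Fin n) := ⟨⟨0, hn⟩⟩
  have : Nontrivial (E n) := inferInstance
  by_contra h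
  rw [not_nonempty_iff_eq_empty, compl_empty_iff] at h
  rw [h] at hb
  exact NoncompactSpace.noncompact_univ (X := E n) |>.elim
    (Metric.isCompact_of_isClosed_isBounded isClosed_univ hb)

lemma good_infDist (hn : 1 ≤ n) (ho : IsOpen Ω) (hc : Convex ℝ Ω) (hb : Bornology.IsBounded Ω) :
    Good Ω (fun x => Metric.infDist x Ωᶜ) := by
  have hne := compl_nonempty hn hb
  have hz : ∀ x, x ∉ Ω → Metric.infDist x Ωᶜ = 0 := fun x hx => Metric.infDist_zero_of_mem hx
  obtain ⟨w, hw⟩ := hne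
  obtain ⟨R, hR⟩ := hb.subset_closedBall w
  have hbd : ∀ x, Metric.infDist x Ωᶜ ≤ |R| := by
    intro x
    by_cases hx : x ∈ Ω
    · exact (Metric.infDist_le_dist_of_mem hw).trans ((hR hx).trans (le_abs_self R))
    · rw [hz x hx]
      exact abs_nonneg R
  have hmeas : Measurable fun x : E n => Metric.infDist x Ωᶜ :=
    (Metric.continuous_infDist_pt _).measurable
  refine ⟨⟨hmeas, fun x => Metric.infDist_nonneg, ⟨|R|, hbd⟩, ?_⟩, hz, ?_, ?_, ?_⟩
  · have h1 : (fun x => Metric.infDist x Ωᶜ) = Ω.indicator (fun x => Metric.infDist x Ωᶜ) := by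
      funext x
      by_cases hx : x ∈ Ω
      · rw [indicator_of_mem hx]
      · rw [indicator_of_notMem hx, hz x hx]
    rw [h1, integrable_indicator_iff ho.measurableSet]
    refine Measure.integrableOn_of_bounded (M := |R|) hb.measure_lt_top.ne
      hmeas.aestronglyMeasurable (Eventually.of_forall fun x => ?_)
    rw [Real.norm_eq_abs, abs_of_nonneg Metric.infDist_nonneg]
    exact hbd x
  · intro x hx
    exact (ho.isClosed_compl.notMem_iff_infDist_pos ⟨w, hw⟩).mp (fun h => h hx)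
  · intro x y
    exact infDist_mid hc ⟨w, hw⟩
  · intro σ hσ x
    exact infDist_symm σ hσ x

lemma Good.step {f : E n → ℝ} {t : ℝ} (ht : 0 < t) (ho : IsOpen Ω) (hc : Convex ℝ Ω)
    (hne : Ω.Nonempty) (hf : Good Ω f) : Good Ω (Ω.indicator (gconv t f)) := by
  have hN := hf.toNice.gconv ht
  refine ⟨⟨hN.meas.indicator ho.measurableSet, ?_, ?_, hN.int.indicator ho.measurableSet⟩,
    ?_, ?_, ?_, ?_⟩
  · exact fun x => indicator_nonneg (fun y _ => hN.nonneg y) x
  · obtain ⟨D, hD⟩ := hN.bdd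
    refine ⟨D, fun x => (indicator_le_self' (fun y _ => hN.nonneg y) x).trans (hD x)⟩
  · exact fun x hx => indicator_of_notMem hx _
  · intro x hx
    rw [indicator_of_mem hx]
    exact hf.toNice.gconv_pos ht ho hne hf.pos x
  · intro x y
    by_cases hx : x ∈ Ω
    · by_cases hy : y ∈ Ω
      · have hm : (1 / 2 : ℝ) • (x + y) ∈ Ω := by
          rw [smul_add]
          exact hc hx hy (by norm_num) (by norm_num) (by norm_num)
        rw [indicator_of_mem hx, indicator_of_mem hy, indicator_of_mem hm]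
        exact hf.toNice.gconv_logc ht hf.logc x y
      · rw [indicator_of_notMem hy, mul_zero]
        positivity
    · rw [indicator_of_notMem hx, zero_mul]
      positivity
  · intro σ hσ x
    by_cases hx : x ∈ Ω
    · rw [indicator_of_mem hx, indicator_of_mem ((hσ x).mpr hx)]
      exact Nice.gconv_symm σ (hf.symm σ hσ) x
    · rw [indicator_of_notMem hx, indicator_of_notMem (fun h => hx ((hσ x).mp h))]

/-- A standing package of hypotheses. -/
structure Dom (Ω : Set (E n)) : Prop where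
  hn : 1 ≤ n
  ho : IsOpen Ω
  hc : Convex ℝ Ω
  hb : Bornology.IsBounded Ω
  hne : Ω.Nonempty

variable {t : ℝ}

lemma good_it (hΩ : Dom Ω) (ht : 0 < t) : ∀ N, Good Ω (it Ω t N)
  | 0 => good_infDist hΩ.hn hΩ.ho hΩ.hc hΩ.hb
  | N + 1 => (good_it hΩ ht N).step ht hΩ.ho hΩ.hc hΩ.hne

lemma it_succ_le (hΩ : Dom Ω) (ht : 0 < t) (N : ℕ) (x : E n) :
    it Ω t (N + 1) x ≤ gconv t (it Ω t N) x :=
  indicator_le_self' (fun y _ => (good_it hΩ ht N).toNice.gconv_nonneg ht y) x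

lemma mul_it_succ {f g : E n → ℝ} (hg : ∀ x, x ∉ Ω → g x = 0) (x : E n) :
    g x * Ω.indicator f x = g x * f x := by
  by_cases hx : x ∈ Ω
  · rw [indicator_of_mem hx]
  · rw [hg x hx, zero_mul, zero_mul]

lemma int_mul_succ (hΩ : Dom Ω) (ht : 0 < t) (i j : ℕ) :
    ∫ x, it Ω t i x * it Ω t (j + 1) x = ∫ x, it Ω t i x * gconv t (it Ω t j) x := by
  congr 1
  funext x
  exact mul_it_succ (good_it hΩ ht i).zero x

lemma shift (hΩ : Dom Ω) (ht : 0 < t) (i j : ℕ) :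
    ∫ x, it Ω t (i + 1) x * it Ω t j x = ∫ x, it Ω t i x * it Ω t (j + 1) x := by
  rw [int_mul_succ hΩ ht i j, (good_it hΩ ht i).toNice.adj ht (good_it hΩ ht j).toNice]
  simp_rw [mul_comm _ (it Ω t j _)]
  exact int_mul_succ hΩ ht j i

/-- The moments. -/
noncomputable def mu (Ω : Set (E n)) (t : ℝ) (m : ℕ) : ℝ := ∫ x, it Ω t 0 x * it Ω t m x

lemma mu_eq (hΩ : Dom Ω) (ht : 0 < t) : ∀ i j : ℕ,
    ∫ x, it Ω t i x * it Ω t j x = mu Ω t (i + j)
  | 0, j => by rw [zero_add]; rfl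
  | i + 1, j => by
    rw [shift hΩ ht i j, mu_eq hΩ ht i (j + 1)]
    congr 1
    ring

lemma mu_sq (hΩ : Dom Ω) (ht : 0 < t) (i : ℕ) : ∫ x, it Ω t i x ^ 2 = mu Ω t (2 * i) := by
  simp_rw [sq]
  rw [mu_eq hΩ ht, two_mul]

lemma mu_pos (hΩ : Dom Ω) (ht : 0 < t) (m : ℕ) : 0 < mu Ω t m := by
  have h0 := good_it hΩ ht 0
  have hm := good_it hΩ ht m
  refine (integral_pos_iff_support_of_nonneg
    (fun x => mul_nonneg (h0.nonneg x) (hm.nonneg x)) (h0.toNice.mul_int hm.toNice)).mpr ?_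
  exact lt_of_lt_of_le (hΩ.ho.measure_pos volume hΩ.hne)
    (measure_mono fun y hy => (mul_pos (h0.pos y hy) (hm.pos y hy)).ne')

lemma mu_zero (Ω : Set (E n)) (t : ℝ) : mu Ω t 0 = ∫ x, Metric.infDist x Ωᶜ ^ 2 := by
  unfold mu
  simp_rw [← sq]
  rfl

/-- Log-convexity of the moments. -/
lemma mu_logconvex (hΩ : Dom Ω) (ht : 0 < t) (k : ℕ) :
    mu Ω t (k + 1) ^ 2 ≤ mu Ω t k * mu Ω t (k + 2) := by
  rcases Nat.even_or_odd' k with ⟨i, rfl | rfl⟩
  · have h1 := (good_it hΩ ht i).toNice.cs (good_it hΩ ht (i + 1)).toNice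
    rw [mu_sq hΩ ht, mu_sq hΩ ht, mu_eq hΩ ht] at h1
    rw [show 2 * i + 1 = i + (i + 1) by ring, show 2 * i + 2 = 2 * (i + 1) by ring]
    exact h1
  · have ht2 : 0 < t / 2 := by positivity
    have h1 := ((good_it hΩ ht i).toNice.gconv ht2).cs ((good_it hΩ ht (i + 1)).toNice.gconv ht2)
    have h2 : ∀ i j, ∫ x, gconv (t / 2) (it Ω t i) x * gconv (t / 2) (it Ω t j) x =
        mu Ω t (i + j + 1) := by
      intro i j
      rw [(good_it hΩ ht i).toNice.form_add ht2 ht2 (good_it hΩ ht j).toNice, add_halves,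
        ← int_mul_succ hΩ ht, mu_eq hΩ ht]
      congr 1
    have h3 : ∀ i, ∫ x, gconv (t / 2) (it Ω t i) x ^ 2 = mu Ω t (i + i + 1) := by
      intro i
      simp_rw [sq]
      exact h2 i i
    rw [h3, h3, h2] at h1
    rw [show 2 * i + 1 + 1 = i + (i + 1) + 1 by ring, show 2 * i + 1 = i + i + 1 by ring,
      show i + i + 1 + 2 = (i + 1) + (i + 1) + 1 by ring]
    exact h1

lemma mu_contr (hΩ : Dom Ω) (ht : 0 < t) (i : ℕ) : mu Ω t (2 * i + 2) ≤ mu Ω t (2 * i) := by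
  rw [show 2 * i + 2 = 2 * (i + 1) by ring, ← mu_sq hΩ ht, ← mu_sq hΩ ht]
  refine le_trans ?_ ((good_it hΩ ht i).toNice.sq_gconv_le ht)
  refine integral_mono (good_it hΩ ht (i + 1)).toNice.sq_int
    ((good_it hΩ ht i).toNice.gconv ht).sq_int fun x => ?_
  exact pow_le_pow_left₀ ((good_it hΩ ht (i + 1)).nonneg x) (it_succ_le hΩ ht i x) 2

lemma mu_one_ge (hΩ : Dom Ω) (ht : 0 < t) :
    mu Ω t 0 - 8 * 2 ^ ((n : ℝ) / 2) * t * (volume Ω).toReal ≤ mu Ω t 1 := by
  have h1 := (good_it hΩ ht 0).toNice.form_ge ht hΩ.ho.measurableSet hΩ.hb.measure_lt_top.ne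
    (good_it hΩ ht 0).zero (by
      intro x y
      have := (Metric.lipschitz_infDist_pt Ωᶜ).dist_le_mul x y
      rw [NNReal.coe_one, one_mul, Real.dist_eq, dist_eq_norm] at this
      exact this)
  rw [mu_sq hΩ ht, mul_zero, ← int_mul_succ hΩ ht, mu_eq hΩ ht] at h1
  exact h1

end Pool.Agent.GS8
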