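import Pool.Agent.GS8.FinalF

/-!
# The failure of the comparison, domain by domain
-/

set_option autoImplicit false

open MeasureTheory Set Filter Topology
open scoped Real ContDiff

namespace Pool.Agent.GS8

/-- the comparison of the diagonal entries of the Hessians for one domain and one ground state -/
def CompAt (C : ℝ) (Ω : Set (E 8)) (u : E 8 → ℝ) : Prop :=
  ∀ (i : Fin 8), ∀ p ∈ Ω, u 0 / 2 < u p →
    C⁻¹ * sig i u p ≤ sig i u 0 ∧ sig i u 0 ≤ C * sig i u p

lemma setup_loc (hCalc : TargetCalc) (hMass : TargetMass)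
    (hAxis : TargetAxis) (hGeom : TargetGeom) (hLower : TargetLower) (hUpper : TargetUpper)
    {C : ℝ} (hC : 0 < C) :
    ∃ K β w₀ : ℝ, 0 < K ∧ 0 < β ∧ β ≤ 1 / 2 ∧ 0 < w₀ ∧ ∀ w : ℝ, 0 < w → w ≤ w₀ →
      ∃ k₀ : ℝ, 1 ≤ k₀ ∧ ∀ k : ℝ, k₀ ≤ k → ∀ (u : E 8 → ℝ) (lam : ℝ),
        Ground (Om w k) u lam → ∫ x, u x ^ 2 = 1 → CompAt C (Om w k) u → Setup K β w k u lam := by
  obtain ⟨cm, hcm, hmass⟩ := hMass 8
  obtain ⟨C₁, hC₁, hup⟩ := hUpper
  set D : ℝ := 2 * C ^ 2 / cm with hD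
  have hD0 : 0 < D := by positivity
  set K : ℝ := D * (C₁ + 8) with hK
  have hK0 : 0 < K := by positivity
  have hsK : 0 < Real.sqrt K := Real.sqrt_pos.mpr hK0
  set β : ℝ := min (1 / (2 * Real.sqrt K)) (1 / 2) with hβ
  have hβ0 : 0 < β := by rw [hβ]; positivity
  have hβ1 : β ≤ 1 / 2 := min_le_right _ _
  have hβ2 : β * Real.sqrt K ≤ 1 / 2 := by
    have : β ≤ 1 / (2 * Real.sqrt K) := min_le_left _ _
    calc β * Real.sqrt K ≤ 1 / (2 * Real.sqrt K) * Real.sqrt K := by gcongr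
      _ = 1 / 2 := by field_simp
  set w₀ : ℝ := min (1 / 4) (min (1 / (14 * Real.sqrt K)) (min (1 / K) (1 / C₁))) with hw₀
  have hw₀0 : 0 < w₀ := by rw [hw₀]; positivity
  refine ⟨K, β, w₀, hK0, hβ0, hβ1, hw₀0, ?_⟩
  intro w hw hww₀
  have hw4 : w ≤ 1 / 4 := hww₀.trans (min_le_left _ _)
  have hws : w ≤ 1 / (14 * Real.sqrt K) :=
    hww₀.trans ((min_le_right _ _).trans (min_le_left _ _))
  have hwK : w ≤ 1 / K :=
    hww₀.trans ((min_le_right _ _).trans ((min_le_right _ _).trans (min_le_left _ _)))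
  have hwC : w ≤ 1 / C₁ :=
    hww₀.trans ((min_le_right _ _).trans ((min_le_right _ _).trans (min_le_right _ _)))
  have hw8 : w ^ 8 ≤ w := by
    calc w ^ 8 = w ^ 7 * w := by ring
      _ ≤ 1 * w := by
        gcongr
        exact pow_le_one₀ hw.le (by linarith)
      _ = w := one_mul w
  have hKw : K * w ^ 8 ≤ 1 := by
    calc K * w ^ 8 ≤ K * (1 / K) := by gcongr; exact hw8.trans hwK
      _ = 1 := by field_simp
  have hCw : C₁ * w ^ 8 ≤ 1 := by
    calc C₁ * w ^ 8 ≤ C₁ * (1 / C₁) := by gcongr; exact hw8.trans hwC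
      _ = 1 := by field_simp
  obtain ⟨k₀, hk₀, hupk⟩ := hup w hw hw4
  refine ⟨k₀, hk₀, ?_⟩
  intro k hk u lam hu hnorm hF
  have hk1 : 1 ≤ k := hk₀.trans hk
  have hg : Geom w k := hGeom w k hw hw4 hk1
  have hl : Lower w k := hLower w k hw hw4 hk1
  have hc : Calc (Om w k) u lam := hCalc 8 (Om w k) u lam hg.isOpen hg.bounded hu
  have hmax : ∀ x, u x ≤ u 0 := hu.max_zero (fun x hx => Om_neg hx) hg.zero_mem
  have hu00 : 0 < u 0 := hu.pos 0 hg.zero_mem
  set R : Fin 8 → ℝ := fun i => ∫ x in Om w k, pd i u x ^ 2 with hR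
  have hR0 : ∀ i, 0 ≤ R i := fun i => integral_nonneg fun x => sq_nonneg _
  have hsum : R 0 + R 7 + ∑ i ∈ yI, R i = lam := by
    have h1 := hc.energy
    rw [hu.sq_set, hnorm, mul_one] at h1
    rw [← sum_eight]; exact h1
  obtain ⟨hlow7, hlowS⟩ := energy_lower hw hg hl hu hc hnorm
  have hlow7' : k ^ 2 ≤ R 7 := hlow7
  have hlowS' : k ^ 2 + 6 ≤ R 7 + ∑ i ∈ yI, R i := hlowS
  have hlam : lam ≤ k ^ 2 + 6 + C₁ * w ^ 8 := hupk k hk lam hc.picone
  have hyn : ∀ i ∈ yI, R i ≤ ∑ j ∈ yI, R j := fun i hi =>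
    Finset.single_le_sum (f := R) (fun j _ => hR0 j) hi
  have hRy0 : 0 ≤ ∑ j ∈ yI, R j := Finset.sum_nonneg fun j _ => hR0 j
  have hR00 : R 0 ≤ C₁ * w ^ 8 := by linarith
  have hRy : ∀ i ∈ yI, R i ≤ 7 := by
    intro i hi
    have := hyn i hi
    have := hR0 0
    linarith
  have hR7 : R 7 ≤ 8 * k ^ 2 := by
    have := hR0 0
    nlinarith
  -- the comparison
  have hsig : ∀ i : Fin 8, ∀ p ∈ Om w k, u 0 / 2 < u p → sig i u p ≤ D * R i := by
    intro i p hp hup
    have h1 : sig i u p ≤ C * sig i u 0 := by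
      have := (hF i p hp hup).1
      rwa [inv_mul_le_iff₀ hC] at this
    have h2 : sig i u 0 / C * cm ≤ 2 * R i := by
      have hs0 := hc.sig_nonneg i 0 hg.zero_mem
      have h3 := hc.sig_int i (u 0 / 2) (sig i u 0 / C) (by positivity) (by positivity) (by
        intro x hx hux
        have := (hF i x hx hux).2
        rw [div_le_iff₀ hC]; linarith)
      have h4 := hmass (Om w k) u lam hg.isOpen hg.bounded hg.convex hu hg.zero_mem hmax
      rw [hnorm, mul_one] at h4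
      have h5 : sig i u 0 / C * cm ≤ sig i u 0 / C * ∫ x in {x | u 0 / 2 < u x}, u x ^ 2 := by
        apply mul_le_mul_of_nonneg_left h4 (by positivity)
      exact h5.trans h3
    have h6 : sig i u 0 ≤ 2 * C / cm * R i := by
      rw [div_mul_eq_mul_div, div_le_iff₀ hC] at h2
      rw [div_mul_eq_mul_div, le_div_iff₀ hcm]
      linarith
    calc sig i u p ≤ C * sig i u 0 := h1
      _ ≤ C * (2 * C / cm * R i) := by gcongr
      _ = D * R i := by rw [hD]; ring
  have hsig0 : ∀ x ∈ Om w k, u 0 / 2 < u x → sig 0 u x ≤ K * w ^ 8 := by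
    intro x hx hux
    have h1 := hsig 0 x hx hux
    calc sig 0 u x ≤ D * R 0 := h1
      _ ≤ D * (C₁ * w ^ 8) := by gcongr
      _ ≤ D * ((C₁ + 8) * w ^ 8) := by
        have : 0 < w ^ 8 := by positivity
        gcongr; linarith
      _ = K * w ^ 8 := by rw [hK]; ring
  -- the window
  set Bd : Fin 8 → ℝ := fun i => if i = 0 then K * w ^ 8 else if i = 7 then K * k ^ 2 else K with hBd
  have hk0 : 0 < k := by linarith
  have hwin : ∀ p : E 8, ∑ i : Fin 8, |p i| * Real.sqrt (Bd i) ≤ 1 → u 0 / 2 < u p := by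
    apply hAxis 8 (Om w k) u lam Bd hg.isOpen hg.convex hu hg.zero_mem hmax
    · intro i
      simp only [hBd]
      split_ifs <;> positivity
    · intro i x hx hux
      simp only [hBd]
      split_ifs with h1 h2
      · subst h1; exact hsig0 x hx hux
      · subst h2
        calc sig 7 u x ≤ D * R 7 := hsig 7 x hx hux
          _ ≤ D * (8 * k ^ 2) := by gcongr
          _ ≤ D * ((C₁ + 8) * k ^ 2) := by gcongr; linarith
          _ = K * k ^ 2 := by rw [hK]; ring
      · have hi : i ∈ yI := by revert h1 h2; revert i; decide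
        calc sig i u x ≤ D * R i := hsig i x hx hux
          _ ≤ D * 7 := by gcongr; exact hRy i hi
          _ ≤ D * (C₁ + 8) := by gcongr; linarith
          _ = K := by rw [hK]
  exact {
    w_pos := hw
    w_le := hw4
    k_ge := hk1
    β_pos := hβ0
    β_le := hβ1
    K_pos := hK0
    Kw := hKw
    geom := hg
    lower := hl
    ground := hu
    hcalc := hc
    hmax := hmax
    lam_ge := by linarith [hR0 0, hsum]
    lam_le := by linarith
    sig0 := hsig0
    window := by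
      intro p hp hp7
      apply hwin
      rw [sum_eight]
      have e0 : Real.sqrt (Bd 0) = Real.sqrt K * w ^ 4 := by
        simp only [hBd, if_true]
        rw [Real.sqrt_mul hK0.le, show w ^ 8 = (w ^ 4) ^ 2 by ring, Real.sqrt_sq (by positivity)]
      have e7 : Real.sqrt (Bd 7) = Real.sqrt K * k := by
        simp only [hBd, if_true, show (7 : Fin 8) ≠ 0 by decide, if_false]
        rw [Real.sqrt_mul hK0.le, Real.sqrt_sq hk0.le]
      have ei : ∀ i ∈ yI, |p i| * Real.sqrt (Bd i) ≤ w * Real.sqrt K := by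
        intro i hi
        have h0 : i ≠ 0 := by rintro rfl; revert hi; decide
        have h7 : i ≠ 7 := by rintro rfl; revert hi; decide
        simp only [hBd, h0, h7, if_false]
        gcongr
        exact hp i h7
      have es : ∑ i ∈ yI, |p i| * Real.sqrt (Bd i) ≤ 6 * (w * Real.sqrt K) := by
        calc ∑ i ∈ yI, |p i| * Real.sqrt (Bd i) ≤ ∑ _i ∈ yI, w * Real.sqrt K := Finset.sum_le_sum ei
          _ = 6 * (w * Real.sqrt K) := by
            rw [Finset.sum_const]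
            have : yI.card = 6 := by decide
            rw [this]; simp
      have s0 : |p 0| * Real.sqrt (Bd 0) ≤ w * Real.sqrt K := by
        rw [e0]
        calc |p 0| * (Real.sqrt K * w ^ 4) ≤ w * (Real.sqrt K * 1) := by
              gcongr
              · exact hp 0 (by decide)
              · exact pow_le_one₀ hw.le (by linarith)
          _ = w * Real.sqrt K := by ring
      have s7 : |p 7| * Real.sqrt (Bd 7) ≤ 1 / 2 := by
        rw [e7]
        calc |p 7| * (Real.sqrt K * k) ≤ β / k * (Real.sqrt K * k) := by gcongr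
          _ = β * Real.sqrt K := by field_simp
          _ ≤ 1 / 2 := hβ2
      have sw : w * Real.sqrt K ≤ 1 / 14 := by
        calc w * Real.sqrt K ≤ 1 / (14 * Real.sqrt K) * Real.sqrt K := by gcongr
          _ = 1 / 14 := by field_simp
      linarith }

theorem fails_eventually (hCalc : TargetCalc) (hMass : TargetMass)
    (hAxis : TargetAxis) (hGeom : TargetGeom) (hLower : TargetLower) (hUpper : TargetUpper)
    (hWin : TargetWin) (hGreen : TargetGreen) {C : ℝ} (hC : 0 < C) :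
    ∃ w : ℝ, 0 < w ∧ w ≤ 1 / 4 ∧ ∀ᶠ k : ℝ in atTop, 1 ≤ k ∧ ∀ (u : E 8 → ℝ) (lam : ℝ),
      Ground (Om w k) u lam → ∫ x, u x ^ 2 = 1 → ¬ CompAt C (Om w k) u := by
  obtain ⟨K, β, w₀, hK, hβ, hβ1, hw₀, hset⟩ :=
    setup_loc hCalc hMass hAxis hGeom hLower hUpper hC
  have hβπ : β < π / 2 := by
    have := Real.pi_gt_three
    linarith
  obtain ⟨B, Q, CQ, b₀, hW⟩ := hWin β hβ hβπ
  obtain ⟨b, hb0, hb⟩ := exists_BBound hW.smooth hW.supp
  obtain ⟨c, hc1, hc⟩ := exists_th_bound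
  have hb₀ := hW.b₀_pos
  have hc0 : 0 < c := by linarith
  set w : ℝ := min (1 / 4) (min w₀ (b₀ / (10 ^ 6 * (K * b * c)))) with hwdef
  have hw : 0 < w := by rw [hwdef]; positivity
  have hw4 : w ≤ 1 / 4 := min_le_left _ _
  have hww₀ : w ≤ w₀ := (min_le_right _ _).trans (min_le_left _ _)
  have hwb : w ≤ b₀ / (10 ^ 6 * (K * b * c)) := (min_le_right _ _).trans (min_le_right _ _)
  obtain ⟨k₀, hk₀1, hk₀⟩ := hset w hw hww₀
  refine ⟨w, hw, hw4, (eventually_ge_atTop 1).and ?_⟩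
  by_contra hcon
  have hfreq : ∃ᶠ k : ℝ in atTop, ∃ (u : E 8 → ℝ) (lam : ℝ),
      Ground (Om w k) u lam ∧ ∫ x, u x ^ 2 = 1 ∧ CompAt C (Om w k) u := by
    intro h
    apply hcon
    filter_upwards [h] with k hk u lam h1 h2 h3
    exact hk ⟨u, lam, h1, h2, h3⟩
  have hX : XTest (pd 0 (pd 0 (zt (w / 3)))) := xtest_zt (by positivity) (by linarith)
  obtain ⟨Cη, k₁, hk₁⟩ := hGreen w β B Q CQ b₀ _ hw hw4 hβ hβπ hW hX
  have hkey : ∀ k : ℝ, max k₀ k₁ ≤ k → (∃ (u : E 8 → ℝ) (lam : ℝ),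
      Ground (Om w k) u lam ∧ ∫ x, u x ^ 2 = 1 ∧ CompAt C (Om w k) u) →
      b₀ * w ^ 5 / 12 ≤ 256 * ((2 * K * w ^ 8 * b + 14 * b / k ^ 2) * (72 * c / w ^ 2 + 10) +
      2 * (K * w ^ 9 * b + 2 * b / k ^ 2) * w ^ 6) + Cη / (k * ((w / 3) ^ 7 * β)) := by
    rintro k hk ⟨u, lam, hu1, hu2, hu3⟩
    have hS := hk₀ k ((le_max_left _ _).trans hk) u lam hu1 hu2 hu3
    have hJ := hk₁ k ((le_max_right _ _).trans hk) hS.geom hS.lower u lam hS.ground hS.hcalc
      hS.hmax hS.lam_le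
    exact hS.key hW hb0 hb hc1 hc hJ
  -- the limit `k → ∞`
  have t2 : ∀ a : ℝ, Tendsto (fun k : ℝ => a / k ^ 2) atTop (𝓝 0) := fun a =>
    tendsto_const_nhds.div_atTop (tendsto_pow_atTop (by norm_num))
  have t1 : Tendsto (fun k : ℝ => Cη / (k * ((w / 3) ^ 7 * β))) atTop (𝓝 0) := by
    apply tendsto_const_nhds.div_atTop
    exact tendsto_id.atTop_mul_const (by positivity)
  have t3 : Tendsto (fun k : ℝ => 256 * ((2 * K * w ^ 8 * b + 14 * b / k ^ 2) * (72 * c / w ^ 2 + 10) +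
      2 * (K * w ^ 9 * b + 2 * b / k ^ 2) * w ^ 6) + Cη / (k * ((w / 3) ^ 7 * β))) atTop
      (𝓝 (256 * ((2 * K * w ^ 8 * b + 0) * (72 * c / w ^ 2 + 10) +
      2 * (K * w ^ 9 * b + 0) * w ^ 6) + 0)) := by
    apply Tendsto.add _ t1
    apply Tendsto.const_mul
    apply Tendsto.add
    · apply Tendsto.mul_const
      exact tendsto_const_nhds.add (t2 _)
    · apply Tendsto.mul_const
      apply Tendsto.const_mul
      exact tendsto_const_nhds.add (t2 _)
  have hlim := ge_of_tendsto_of_frequently t3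
    ((hfreq.and_eventually (eventually_ge_atTop (max k₀ k₁))).mono fun k hk => hkey k hk.2 hk.1)
  have e : 256 * ((2 * K * w ^ 8 * b + 0) * (72 * c / w ^ 2 + 10) +
      2 * (K * w ^ 9 * b + 0) * w ^ 6) + 0 =
      256 * (K * b * w ^ 5 * w * (144 * c + 20 * w ^ 2 + 2 * w ^ 9)) := by
    field_simp
    ring
  rw [e] at hlim
  have h9 : w ^ 9 ≤ 1 := pow_le_one₀ hw.le (by linarith)
  have h2 : w ^ 2 ≤ 1 := pow_le_one₀ hw.le (by linarith)
  have h3 : 256 * (K * b * w ^ 5 * w * (144 * c + 20 * w ^ 2 + 2 * w ^ 9)) ≤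
      256 * (K * b * w ^ 5 * w * (166 * c)) := by
    have : 0 < K * b * w ^ 5 * w := by positivity
    gcongr
    linarith
  have h4 : 256 * (K * b * w ^ 5 * w * (166 * c)) ≤ 42496 * b₀ * w ^ 5 / 10 ^ 6 := by
    calc 256 * (K * b * w ^ 5 * w * (166 * c)) = 42496 * (K * b * c) * w ^ 5 * w := by ring
      _ ≤ 42496 * (K * b * c) * w ^ 5 * (b₀ / (10 ^ 6 * (K * b * c))) := by gcongr
      _ = _ := by field_simp
  have h5 : 0 < b₀ * w ^ 5 := by positivity
  nlinarith

end Pool.Agent.GS8
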