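import Pool.Agent.GS8.Conv
import Pool.Agent.Lib.PrekopaLeindler

/-! Log-concavity and symmetry of Gaussian convolutions; the distance function. -/

set_option autoImplicit false

open MeasureTheory Set Filter Topology Function
open scoped Real ContDiff ENNReal

namespace Pool.Agent.GS8

variable {n : ℕ}

lemma prekopa_E {f g h : E n → ℝ≥0∞} (hf : Measurable f) (hg : Measurable g) (hh : Measurable h)
    (H : ∀ x y, f x * g y ≤ h ((1 / 2 : ℝ) • (x + y)) ^ 2) :
    (∫⁻ x, f x) * (∫⁻ x, g x) ≤ (∫⁻ x, h x) ^ 2 := by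
  have hm : Measurable (WithLp.toLp 2 : (Fin n → ℝ) → E n) :=
    (PiLp.volume_preserving_toLp (Fin n)).measurable
  have key : ∀ F : E n → ℝ≥0∞, Measurable F → ∫⁻ x, F x = ∫⁻ x : Fin n → ℝ, F (WithLp.toLp 2 x) :=
    fun F hF => ((PiLp.volume_preserving_toLp (Fin n)).lintegral_comp hF).symm
  rw [key f hf, key g hg, key h hh]
  apply Pool.Agent.Lib.PL.prekopa_leindler n (hf.comp hm) (hg.comp hm) (hh.comp hm)
  intro x y
  exact H (WithLp.toLp 2 x) (WithLp.toLp 2 y)

namespace Nice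

variable {f g : E n → ℝ} {t s : ℝ}

lemma gconv_eq (ht : 0 < t) (hf : Nice f) (x : E n) :
    ENNReal.ofReal (GS8.gconv t f x) = ∫⁻ y, ENNReal.ofReal (Gk t (x - y) * f y) :=
  ofReal_integral_eq_lintegral_ofReal (hf.fiber ht x)
    (Eventually.of_forall fun y => mul_nonneg (Gk_nonneg ht _) (hf.nonneg y))

lemma gconv_logc (ht : 0 < t) (hf : Nice f)
    (hlc : ∀ x y, f x * f y ≤ f ((1 / 2 : ℝ) • (x + y)) ^ 2) (x y : E n) :
    GS8.gconv t f x * GS8.gconv t f y ≤ GS8.gconv t f ((1 / 2 : ℝ) • (x + y)) ^ 2 := by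
  have hm : ∀ z : E n, Measurable fun y => ENNReal.ofReal (Gk t (z - y) * f y) := fun z =>
    (((measurable_Gk t).comp (measurable_const.sub measurable_id)).mul hf.meas).ennreal_ofReal
  have h1 := prekopa_E (hm x) (hm y) (hm ((1 / 2 : ℝ) • (x + y))) (by
    intro u v
    rw [← ENNReal.ofReal_mul (mul_nonneg (Gk_nonneg ht _) (hf.nonneg _)),
      ← ENNReal.ofReal_pow (mul_nonneg (Gk_nonneg ht _) (hf.nonneg _))]
    apply ENNReal.ofReal_le_ofReal
    have h2 := Gk_mul_le ht (x - u) (y - v)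
    have h3 := hlc u v
    have h4 : (1 / 2 : ℝ) • (x - u + (y - v)) = (1 / 2 : ℝ) • (x + y) - (1 / 2 : ℝ) • (u + v) := by
      rw [← smul_sub]
      congr 1
      abel
    rw [h4] at h2
    calc Gk t (x - u) * f u * (Gk t (y - v) * f v) =
        (Gk t (x - u) * Gk t (y - v)) * (f u * f v) := by ring
      _ ≤ Gk t ((1 / 2 : ℝ) • (x + y) - (1 / 2 : ℝ) • (u + v)) ^ 2 *
          f ((1 / 2 : ℝ) • (u + v)) ^ 2 :=
        mul_le_mul h2 h3 (mul_nonneg (hf.nonneg _) (hf.nonneg _)) (sq_nonneg _)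
      _ = _ := by ring)
  rw [← gconv_eq ht hf, ← gconv_eq ht hf, ← gconv_eq ht hf,
    ← ENNReal.ofReal_mul (hf.gconv_nonneg ht x), ← ENNReal.ofReal_pow (hf.gconv_nonneg ht _)] at h1
  exact (ENNReal.ofReal_le_ofReal_iff (sq_nonneg _)).mp h1

lemma gconv_symm (σ : E n ≃ₗᵢ[ℝ] E n) (hσ : ∀ x, f (σ x) = f x) (x : E n) :
    GS8.gconv t f (σ x) = GS8.gconv t f x := by
  unfold GS8.gconv
  rw [← (σ.measurePreserving).integral_comp (σ.toHomeomorph.measurableEmbedding)]
  congr 1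
  funext y
  rw [hσ, ← map_sub, Gk_norm_eq t (σ.norm_map (x - y))]

lemma gconv_pos (ht : 0 < t) (hf : Nice f) {Ω : Set (E n)} (hΩ : IsOpen Ω) (hne : Ω.Nonempty)
    (hpos : ∀ x ∈ Ω, 0 < f x) (x : E n) : 0 < GS8.gconv t f x := by
  have h0 : ∀ y, 0 ≤ Gk t (x - y) * f y := fun y => mul_nonneg (Gk_nonneg ht _) (hf.nonneg y)
  refine (integral_pos_iff_support_of_nonneg h0 (hf.fiber ht x)).mpr ?_
  refine lt_of_lt_of_le (hΩ.measure_pos volume hne) (measure_mono fun y hy => ?_)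
  exact (mul_pos (Gk_pos ht _) (hpos y hy)).ne'

end Nice

/-- The distance function to the complement is concave. -/
lemma infDist_mid {Ω : Set (E n)} (hc : Convex ℝ Ω) (hne : Ωᶜ.Nonempty) {x y : E n} :
    Metric.infDist x Ωᶜ * Metric.infDist y Ωᶜ ≤ Metric.infDist ((1 / 2 : ℝ) • (x + y)) Ωᶜ ^ 2 := by
  set a := Metric.infDist x Ωᶜ with ha
  set b := Metric.infDist y Ωᶜ with hb
  have ha0 : 0 ≤ a := Metric.infDist_nonneg
  have hb0 : 0 ≤ b := Metric.infDist_nonneg
  have hm0 : 0 ≤ Metric.infDist ((1 / 2 : ℝ) • (x + y)) Ωᶜ := Metric.infDist_nonneg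
  rcases ha0.eq_or_lt with h1 | h1
  · rw [← h1, zero_mul]; positivity
  rcases hb0.eq_or_lt with h2 | h2
  · rw [← h2, mul_zero]; positivity
  have hball : ∀ z : E n, ∀ w ∉ Ω, Metric.infDist z Ωᶜ ≤ dist z w := fun z w hw =>
    Metric.infDist_le_dist_of_mem hw
  have h3 : (a + b) / 2 ≤ Metric.infDist ((1 / 2 : ℝ) • (x + y)) Ωᶜ := by
    rw [Metric.le_infDist hne]
    intro w hw
    by_contra hlt
    push Not at hlt
    set m : E n := (1 / 2 : ℝ) • (x + y) with hm
    set R := (a + b) / 2 with hR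
    have hR0 : 0 < R := by positivity
    have hx : x + (a / R) • (w - m) ∈ Ω := by
      by_contra hn
      have h4 := hball x _ hn
      rw [dist_self_add_right, norm_smul, Real.norm_eq_abs, abs_of_pos (by positivity)] at h4
      rw [dist_comm, dist_eq_norm] at hlt
      have h5 : a / R * ‖w - m‖ < a / R * R := by gcongr
      rw [div_mul_cancel₀ _ hR0.ne'] at h5
      linarith
    have hy : y + (b / R) • (w - m) ∈ Ω := by
      by_contra hn
      have h4 := hball y _ hn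
      rw [dist_self_add_right, norm_smul, Real.norm_eq_abs, abs_of_pos (by positivity)] at h4
      rw [dist_comm, dist_eq_norm] at hlt
      have h5 : b / R * ‖w - m‖ < b / R * R := by gcongr
      rw [div_mul_cancel₀ _ hR0.ne'] at h5
      linarith
    have h6 := hc hx hy (by norm_num : (0 : ℝ) ≤ 1 / 2) (by norm_num : (0 : ℝ) ≤ 1 / 2)
      (by norm_num)
    apply hw
    convert h6 using 1
    have h7 : (a / R) • (w - m) + (b / R) • (w - m) = (2 : ℝ) • (w - m) := by
      rw [← add_smul, ← add_div, hR]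
      congr 1
      field_simp
    have h8 : (1 / 2 : ℝ) • (x + (a / R) • (w - m)) + (1 / 2 : ℝ) • (y + (b / R) • (w - m)) =
        m + (1 / 2 : ℝ) • ((a / R) • (w - m) + (b / R) • (w - m)) := by
      rw [hm]
      simp only [smul_add]
      abel
    rw [h8, h7, smul_smul]
    norm_num
  nlinarith [sq_nonneg (a - b)]

lemma infDist_symm {Ω : Set (E n)} (σ : E n ≃ₗᵢ[ℝ] E n) (hσ : ∀ x, σ x ∈ Ω ↔ x ∈ Ω) (x : E n) :
    Metric.infDist (σ x) Ωᶜ = Metric.infDist x Ωᶜ := by
  have h1 : σ '' Ωᶜ = Ωᶜ := by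
    ext y
    constructor
    · rintro ⟨z, hz, rfl⟩
      exact fun h => hz ((hσ z).mp h)
    · intro hy
      refine ⟨σ.symm y, fun h => hy ?_, σ.apply_symm_apply y⟩
      have := (hσ (σ.symm y)).mpr h
      rwa [σ.apply_symm_apply] at this
  conv_lhs => rw [← h1]
  exact Metric.infDist_image σ.isometry

end Pool.Agent.GS8
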