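import Pool.Agent.GS8.Geom

/-!
# Lower bounds for the energy of test functions on the thin domain
-/

set_option autoImplicit false

open MeasureTheory Set Filter Topology
open scoped Real ContDiff

namespace Pool.Agent.GS8

/-! ### general tools -/

lemma pd_continuous {n : ℕ} {F : E n → ℝ} (hF : ContDiff ℝ 1 F) (i : Fin n) :
    Continuous (pd i F) :=
  (hF.continuous_fderiv one_ne_zero).clm_apply continuous_const

lemma pd_hasCompactSupport {n : ℕ} {F : E n → ℝ} (hc : HasCompactSupport F) (i : Fin n) :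
    HasCompactSupport (pd i F) :=
  hc.fderiv_apply ℝ (ee i)

/-- `∫ ∂ᵢ F = 0` for compactly supported `C¹` functions. -/
lemma integral_pd_zero {n : ℕ} {F : E n → ℝ} (hF : ContDiff ℝ 1 F) (hc : HasCompactSupport F)
    (i : Fin n) : ∫ x, pd i F x = 0 := by
  have h := integral_mul_fderiv_eq_neg_fderiv_mul_of_integrable (μ := (volume : Measure (E n)))
    (f := fun _ : E n => (1 : ℝ)) (g := F) (v := ee i) ?_ ?_ ?_ ?_ ?_
  · simpa [pd] using h
  · simp
  · simp only [one_mul]
    exact (pd_continuous hF i).integrable_of_hasCompactSupport (pd_hasCompactSupport hc i)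
  · simp only [one_mul]
    exact hF.continuous.integrable_of_hasCompactSupport hc
  · intro x _
    exact differentiableAt_const _
  · intro x _
    exact (hF.differentiable one_ne_zero) x

lemma Test1.mul_left {n : ℕ} {Ω : Set (E n)} (ho : IsOpen Ω) {f G : E n → ℝ} (hf : Test1 Ω f)
    (hG : ContDiffOn ℝ 1 G Ω) : Test1 Ω (fun x => G x * f x) := by
  refine ⟨contDiff_iff_contDiffAt.2 fun x => ?_, hf.cpt.mul_left, ?_⟩
  · by_cases hx : x ∈ Ω
    · exact (hG.contDiffAt (ho.mem_nhds hx)).mul hf.smooth.contDiffAt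
    · have h0 : f =ᶠ[𝓝 x] 0 := notMem_tsupport_iff_eventuallyEq.1 fun h => hx (hf.sub h)
      refine (contDiffAt_const (c := (0 : ℝ))).congr_of_eventuallyEq ?_
      filter_upwards [h0] with y hy
      simp [hy]
  · exact (tsupport_mul_subset_right).trans hf.sub

lemma Test1.eventually_zero {n : ℕ} {Ω : Set (E n)} {f : E n → ℝ} (hf : Test1 Ω f) {x : E n}
    (hx : x ∉ Ω) : f =ᶠ[𝓝 x] 0 :=
  notMem_tsupport_iff_eventuallyEq.1 fun h => hx (hf.sub h)

lemma Test1.eq_zero {n : ℕ} {Ω : Set (E n)} {f : E n → ℝ} (hf : Test1 Ω f) {x : E n}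
    (hx : x ∉ Ω) : f x = 0 :=
  (hf.eventually_zero hx).self_of_nhds

lemma Test1.pd_eq_zero {n : ℕ} {Ω : Set (E n)} {f : E n → ℝ} (hf : Test1 Ω f) {x : E n}
    (hx : x ∉ Ω) (i : Fin n) : pd i f x = 0 := by
  unfold pd
  rw [(hf.eventually_zero hx).fderiv_eq]
  simp

lemma Test1.integral_pd {n : ℕ} {Ω : Set (E n)} {f : E n → ℝ} (hf : Test1 Ω f) (i : Fin n) :
    ∫ x, pd i f x = 0 :=
  integral_pd_zero hf.smooth hf.cpt i

/-- partial derivatives as derivatives along the line -/
lemma pd_hasDerivAt {n : ℕ} {u : E n → ℝ} {x : E n} (hu : DifferentiableAt ℝ u x) (i : Fin n) :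
    HasDerivAt (fun t : ℝ => u (x + t • ee i)) (pd i u x) 0 := by
  have h1 : HasDerivAt (fun t : ℝ => x + t • (ee i : E n)) (ee i) 0 := by
    have := ((hasDerivAt_id (0 : ℝ)).smul_const (ee i : E n)).const_add x
    simpa using this
  have h2 : HasFDerivAt u (fderiv ℝ u x) (x + (0 : ℝ) • ee i) := by
    simpa using hu.hasFDerivAt
  exact h2.comp_hasDerivAt (0 : ℝ) h1

lemma pd_eq_of_hasDerivAt {n : ℕ} {u : E n → ℝ} {x : E n} (hu : DifferentiableAt ℝ u x)
    (i : Fin n) {d : ℝ} (h : HasDerivAt (fun t : ℝ => u (x + t • ee i)) d 0) : pd i u x = d :=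
  (pd_hasDerivAt hu i).unique h

lemma line_apply {n : ℕ} (x : E n) (t : ℝ) (i j : Fin n) :
    (x + t • ee i : E n) j = x j + if j = i then t else 0 := by
  simp only [PiLp.add_apply, PiLp.smul_apply, smul_eq_mul, PiLp.single_apply]
  by_cases h : j = i
  · simp [h]
  · simp [h]

lemma line_indep {x : E 8} (t : ℝ) : ∀ j : Fin 8, j ≠ 7 → (x + t • ee 7 : E 8) j = x j := by
  intro j hj
  rw [line_apply, if_neg hj, add_zero]

lemma line_seven {x : E 8} (t : ℝ) : (x + t • ee 7 : E 8) 7 = x 7 + t := by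
  rw [line_apply, if_pos rfl]

/-! ### smoothness of `κ` and of `cos (κ z)` on the domain -/

lemma kap_contDiffOn {w k : ℝ} (hw : 0 < w) (hk : 0 < k) {m : WithTop ℕ∞} :
    ContDiffOn ℝ m (kap w k) (Om w k) := by
  unfold kap
  exact contDiffOn_const.div (hh_contDiff hw k).contDiffOn fun p hp => (hh_pos_of_mem hk hp).ne'

lemma kapz_contDiffOn {w k : ℝ} (hw : 0 < w) (hk : 0 < k) {m : WithTop ℕ∞} :
    ContDiffOn ℝ m (fun p : E 8 => kap w k p * p 7) (Om w k) :=
  (kap_contDiffOn hw hk).mul (contDiff_coord 7).contDiffOn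

lemma cosk_contDiffOn {w k : ℝ} (hw : 0 < w) (hk : 0 < k) {m : WithTop ℕ∞} :
    ContDiffOn ℝ m (fun p : E 8 => Real.cos (kap w k p * p 7)) (Om w k) :=
  Real.contDiff_cos.comp_contDiffOn (kapz_contDiffOn hw hk)

lemma sink_contDiffOn {w k : ℝ} (hw : 0 < w) (hk : 0 < k) {m : WithTop ℕ∞} :
    ContDiffOn ℝ m (fun p : E 8 => Real.sin (kap w k p * p 7)) (Om w k) :=
  Real.contDiff_sin.comp_contDiffOn (kapz_contDiffOn hw hk)

/-- `τ = κ tan (κ z)` -/
noncomputable def tauk (w k : ℝ) (p : E 8) : ℝ :=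
  kap w k p * Real.sin (kap w k p * p 7) / Real.cos (kap w k p * p 7)

lemma tauk_contDiffOn {w k : ℝ} (hw : 0 < w) (hk : 0 < k) {m : WithTop ℕ∞} :
    ContDiffOn ℝ m (tauk w k) (Om w k) := by
  unfold tauk
  exact ((kap_contDiffOn hw hk).mul (sink_contDiffOn hw hk)).div (cosk_contDiffOn hw hk)
    fun p hp => (Om_cos_pos hk hp).ne'

/-! ### the completed square in the `z` direction -/

lemma dz_pointwise {w k : ℝ} (hw : 0 < w) (hk : 0 < k) {f : E 8 → ℝ} (hf : Test1 (Om w k) f)
    (x : E 8) :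
    pd 7 f x ^ 2 = kap w k x ^ 2 * f x ^ 2 + Real.cos (kap w k x * x 7) ^ 2 *
        pd 7 (fun y => f y / Real.cos (kap w k y * y 7)) x ^ 2
      - pd 7 (fun y => tauk w k y * f y * f y) x := by
  have ho := Om_isOpen hw k
  have hg : Test1 (Om w k) (fun y => f y / Real.cos (kap w k y * y 7)) := by
    have := hf.mul_left ho (G := fun p => (Real.cos (kap w k p * p 7))⁻¹)
      ((cosk_contDiffOn hw hk).inv fun p hp => (Om_cos_pos hk hp).ne')
    refine (show (fun y => f y / Real.cos (kap w k y * y 7)) =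
      fun y => (Real.cos (kap w k y * y 7))⁻¹ * f y from ?_) ▸ this
    funext y
    rw [div_eq_mul_inv, mul_comm]
  have hF : Test1 (Om w k) (fun y => tauk w k y * f y * f y) :=
    hf.mul_left ho ((tauk_contDiffOn hw hk).mul hf.smooth.contDiffOn)
  by_cases hx : x ∈ Om w k
  · set κ := kap w k x with hκ
    have hline : ∀ t : ℝ, kap w k (x + t • ee 7) = κ := fun t => kap_indep (line_indep t)
    have hc0 : 0 < Real.cos (κ * x 7) := Om_cos_pos hk hx
    have hfd := pd_hasDerivAt (hf.smooth.differentiable one_ne_zero x) 7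
    have hgd : HasDerivAt (fun t : ℝ => (fun y => f y / Real.cos (kap w k y * y 7))
        (x + t • ee 7)) ((pd 7 f x * Real.cos (κ * x 7) + f x * (κ * Real.sin (κ * x 7))) /
          Real.cos (κ * x 7) ^ 2) 0 := by
      have h1 : HasDerivAt (fun t : ℝ => Real.cos (κ * (x 7 + t)))
          (-Real.sin (κ * (x 7 + 0)) * (κ * 1)) 0 := by
        refine (((hasDerivAt_id (0 : ℝ)).const_add (x 7)).const_mul κ).cos.congr_deriv ?_
        simp
      have h2 := hfd.div h1 (by rw [add_zero]; exact hc0.ne')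
      simp only [add_zero, zero_smul] at h2
      simp only [hline, line_seven]
      refine h2.congr_deriv ?_
      ring
    have hFd : HasDerivAt (fun t : ℝ => (fun y => tauk w k y * f y * f y) (x + t • ee 7))
        ((κ ^ 2 / Real.cos (κ * x 7) ^ 2) * f x ^ 2 +
          2 * (κ * Real.sin (κ * x 7) / Real.cos (κ * x 7)) * f x * pd 7 f x) 0 := by
      have h1 : HasDerivAt (fun t : ℝ => Real.cos (κ * (x 7 + t)))
          (-Real.sin (κ * (x 7 + 0)) * (κ * 1)) 0 := by
        refine (((hasDerivAt_id (0 : ℝ)).const_add (x 7)).const_mul κ).cos.congr_deriv ?_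
        simp
      have h1' : HasDerivAt (fun t : ℝ => Real.sin (κ * (x 7 + t)))
          (Real.cos (κ * (x 7 + 0)) * (κ * 1)) 0 := by
        refine (((hasDerivAt_id (0 : ℝ)).const_add (x 7)).const_mul κ).sin.congr_deriv ?_
        simp
      have h3 := (h1'.const_mul κ).div h1 (by rw [add_zero]; exact hc0.ne')
      have h4 := (h3.mul hfd).mul hfd
      simp only [add_zero, zero_smul] at h4
      unfold tauk
      simp only [hline, line_seven]
      refine h4.congr_deriv ?_
      have hs : Real.sin (κ * x 7) ^ 2 = 1 - Real.cos (κ * x 7) ^ 2 := by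
        rw [Real.sin_sq]
      simp only [Pi.div_apply, Pi.mul_apply]
      simp only [add_zero, zero_smul]
      field_simp
      simp only [hs]
      ring
    rw [pd_eq_of_hasDerivAt (hg.smooth.differentiable one_ne_zero x) 7 hgd,
      pd_eq_of_hasDerivAt (hF.smooth.differentiable one_ne_zero x) 7 hFd]
    have hs : Real.sin (κ * x 7) ^ 2 = 1 - Real.cos (κ * x 7) ^ 2 := by
      rw [Real.sin_sq]
    field_simp
    ring_nf
    simp only [hs]
    ring
  · rw [hf.pd_eq_zero hx, hf.eq_zero hx, hg.pd_eq_zero hx, hF.pd_eq_zero hx]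
    ring

lemma Test1.integrable_sq {n : ℕ} {Ω : Set (E n)} {f : E n → ℝ} (hf : Test1 Ω f) :
    Integrable (fun x => f x ^ 2) := by
  have : (fun x => f x ^ 2) = fun x => f x * f x := by funext x; ring
  rw [this]
  exact (hf.smooth.continuous.mul hf.smooth.continuous).integrable_of_hasCompactSupport
    hf.cpt.mul_left

lemma Test1.integrable_pd_sq {n : ℕ} {Ω : Set (E n)} {f : E n → ℝ} (hf : Test1 Ω f)
    (i : Fin n) : Integrable (fun x => pd i f x ^ 2) := by
  have : (fun x => pd i f x ^ 2) = fun x => pd i f x * pd i f x := by funext x; ring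
  rw [this]
  exact ((pd_continuous hf.smooth i).mul (pd_continuous hf.smooth i)).integrable_of_hasCompactSupport
    (pd_hasCompactSupport hf.cpt i).mul_left

lemma Test1.mul_cont_integrable {n : ℕ} {Ω : Set (E n)} (ho : IsOpen Ω) {f G : E n → ℝ}
    (hf : Test1 Ω f) (hG : ContinuousOn G Ω) : Integrable (fun x => G x * f x ^ 2) := by
  refine Continuous.integrable_of_hasCompactSupport ?_ ?_
  · rw [continuous_iff_continuousAt]
    intro x
    by_cases hx : x ∈ Ω
    · exact (hG.continuousAt (ho.mem_nhds hx)).mul (hf.smooth.continuous.continuousAt.pow 2)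
    · refine (continuousAt_const (y := (0 : ℝ))).congr ?_
      filter_upwards [hf.eventually_zero hx] with y hy
      simp [hy]
  · have : (fun x => G x * f x ^ 2) = fun x => (G x * f x) * f x := by funext x; ring
    rw [this]
    exact hf.cpt.mul_left

lemma lower_dz {w k : ℝ} (hw : 0 < w) (hk : 0 < k) {f : E 8 → ℝ} (hf : Test1 (Om w k) f) :
    ∫ x, pd 7 f x ^ 2 = (∫ x, kap w k x ^ 2 * f x ^ 2) +
      ∫ x, Real.cos (kap w k x * x 7) ^ 2 *
        pd 7 (fun y => f y / Real.cos (kap w k y * y 7)) x ^ 2 := by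
  have ho := Om_isOpen hw k
  have hg : Test1 (Om w k) (fun y => f y / Real.cos (kap w k y * y 7)) := by
    have := hf.mul_left ho (G := fun p => (Real.cos (kap w k p * p 7))⁻¹)
      ((cosk_contDiffOn hw hk).inv fun p hp => (Om_cos_pos hk hp).ne')
    refine (show (fun y => f y / Real.cos (kap w k y * y 7)) =
      fun y => (Real.cos (kap w k y * y 7))⁻¹ * f y from ?_) ▸ this
    funext y
    rw [div_eq_mul_inv, mul_comm]
  have hF : Test1 (Om w k) (fun y => tauk w k y * f y * f y) :=
    hf.mul_left ho ((tauk_contDiffOn hw hk).mul hf.smooth.contDiffOn)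
  have i1 : Integrable (fun x => kap w k x ^ 2 * f x ^ 2) :=
    hf.mul_cont_integrable ho ((kap_contDiffOn (m := 0) hw hk).continuousOn.pow 2)
  have i3 : Integrable (fun x => pd 7 (fun y => tauk w k y * f y * f y) x) :=
    (pd_continuous hF.smooth 7).integrable_of_hasCompactSupport (pd_hasCompactSupport hF.cpt 7)
  have i2 : Integrable (fun x => Real.cos (kap w k x * x 7) ^ 2 *
      pd 7 (fun y => f y / Real.cos (kap w k y * y 7)) x ^ 2) := by
    have := ((hf.integrable_pd_sq 7).sub i1).add i3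
    refine this.congr (Eventually.of_forall fun x => ?_)
    have h := dz_pointwise hw hk hf x
    simp only [Pi.add_apply, Pi.sub_apply]
    linarith
  have i12 : Integrable (fun x => kap w k x ^ 2 * f x ^ 2 + Real.cos (kap w k x * x 7) ^ 2 *
      pd 7 (fun y => f y / Real.cos (kap w k y * y 7)) x ^ 2) := i1.add i2
  rw [← integral_add i1 i2]
  have : ∫ x, pd 7 f x ^ 2 = ∫ x, ((kap w k x ^ 2 * f x ^ 2 + Real.cos (kap w k x * x 7) ^ 2 *
      pd 7 (fun y => f y / Real.cos (kap w k y * y 7)) x ^ 2) -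
        pd 7 (fun y => tauk w k y * f y * f y) x) :=
    integral_congr_ae (Eventually.of_forall fun x => dz_pointwise hw hk hf x)
  rw [this, integral_sub i12 i3, hF.integral_pd 7, sub_zero]

/-! ### the harmonic oscillator bound in the `Y` directions -/

lemma dy_one {n : ℕ} {Ω : Set (E n)} {f : E n → ℝ} (hf : Test1 Ω f) (i : Fin n) :
    ∫ x, f x ^ 2 ≤ (∫ x, pd i f x ^ 2) + ∫ x, x i ^ 2 * f x ^ 2 := by
  have hF1 : ContDiff ℝ 1 (fun x : E n => x i * f x * f x) :=
    ((contDiff_coord i).mul hf.smooth).mul hf.smooth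
  have hF2 : HasCompactSupport (fun x : E n => x i * f x * f x) := hf.cpt.mul_left
  have hpd : ∀ x : E n, pd i (fun x : E n => x i * f x * f x) x =
      f x ^ 2 + 2 * x i * f x * pd i f x := by
    intro x
    refine pd_eq_of_hasDerivAt (hF1.differentiable one_ne_zero x) i ?_
    have hfd := pd_hasDerivAt (hf.smooth.differentiable one_ne_zero x) i
    have h1 : HasDerivAt (fun t : ℝ => x i + t) 1 0 := (hasDerivAt_id (0 : ℝ)).const_add (x i)
    have h2 := (h1.mul hfd).mul hfd
    simp only [line_apply, if_true]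
    refine h2.congr_deriv ?_
    simp only [Pi.mul_apply, zero_smul, add_zero]
    ring
  have i1 := hf.integrable_sq
  have i2 := hf.integrable_pd_sq i
  have i3 : Integrable (fun x : E n => x i ^ 2 * f x ^ 2) := by
    refine Continuous.integrable_of_hasCompactSupport ?_ ?_
    · exact ((contDiff_coord (m := 0) i).continuous.pow 2).mul (hf.smooth.continuous.pow 2)
    · have : (fun x : E n => x i ^ 2 * f x ^ 2) = fun x => (x i ^ 2 * f x) * f x := by
        funext x; ring
      rw [this]
      exact hf.cpt.mul_left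
  have i4 : Integrable (fun x => pd i (fun x : E n => x i * f x * f x) x) :=
    (pd_continuous hF1 i).integrable_of_hasCompactSupport (pd_hasCompactSupport hF2 i)
  have hle : ∀ x : E n, f x ^ 2 ≤ (pd i f x ^ 2 + x i ^ 2 * f x ^ 2) +
      pd i (fun x : E n => x i * f x * f x) x := by
    intro x
    rw [hpd]
    nlinarith [sq_nonneg (pd i f x + x i * f x)]
  calc ∫ x, f x ^ 2 ≤ ∫ x, ((pd i f x ^ 2 + x i ^ 2 * f x ^ 2) +
      pd i (fun x : E n => x i * f x * f x) x) := integral_mono i1 ((i2.add i3).add i4) hle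
    _ = (∫ x, pd i f x ^ 2) + ∫ x, x i ^ 2 * f x ^ 2 := by
      have e1 := integral_add (i2.add i3) i4
      have e2 := integral_add i2 i3
      have e3 := integral_pd_zero hF1 hF2 i
      simp only [Pi.add_apply] at e1 e2
      rw [e1, e2, e3, add_zero]

lemma lower_dy {w k : ℝ} {f : E 8 → ℝ} (hf : Test1 (Om w k) f) :
    6 * ∫ x, f x ^ 2 ≤ (∑ i ∈ yI, ∫ x, pd i f x ^ 2) + ∫ x, r2 x * f x ^ 2 := by
  have h1 : ∀ i ∈ yI, ∫ x, f x ^ 2 ≤ (∫ x, pd i f x ^ 2) + ∫ x, x i ^ 2 * f x ^ 2 :=
    fun i _ => dy_one hf i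
  have h2 := Finset.sum_le_sum h1
  rw [Finset.sum_const, Finset.sum_add_distrib, show yI.card = 6 from rfl, nsmul_eq_mul] at h2
  have h3 : ∫ x, r2 x * f x ^ 2 = ∑ i ∈ yI, ∫ x : E 8, x i ^ 2 * f x ^ 2 := by
    rw [← integral_finsetSum]
    · refine integral_congr_ae (Eventually.of_forall fun x => ?_)
      simp only [r2, Finset.sum_mul]
    · intro i _
      refine Continuous.integrable_of_hasCompactSupport ?_ ?_
      · exact ((contDiff_coord (m := 0) i).continuous.pow 2).mul (hf.smooth.continuous.pow 2)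
      · have : (fun x : E 8 => x i ^ 2 * f x ^ 2) = fun x => (x i ^ 2 * f x) * f x := by
          funext x; ring
        rw [this]
        exact hf.cpt.mul_left
  rw [h3]
  exact_mod_cast h2

theorem targetLower : TargetLower := by
  intro w k hw hw1 hk
  have hk0 : 0 < k := by linarith
  refine ⟨fun f hf => lower_dz hw hk0 hf, fun f hf => lower_dy hf, fun p hp => ?_⟩
  have h1 := kap_sq_ge (w := w) hk0 (hh_pos_of_mem hk0 hp)
  have h2 := r2_le_V (w := w) p
  linarith

end Pool.Agent.GS8
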