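import Pool.Agent.GS8.Defs

/-!
# JOB 5a: a superlevel set of a log-concave ground state carries a fixed part of the mass
-/

set_option autoImplicit false

open MeasureTheory Set Filter Topology
open scoped Real ContDiff

namespace Pool.Agent.GS8

namespace Ground

variable {n : ℕ} {Ω : Set (E n)} {u : E n → ℝ} {lam : ℝ}

theorem nonneg (hu : Ground Ω u lam) (x : E n) : 0 ≤ u x := by
  by_cases h : x ∈ Ω
  · exact (hu.pos x h).le
  · rw [hu.zero x h]

/-- radial comparison for a log-concave function with maximum at `0` -/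
theorem radial (hu : Ground Ω u lam) (hc : Convex ℝ Ω) (h0 : (0 : E n) ∈ Ω)
    {r : ℕ} (hr : 1 ≤ r) (p : E n) :
    u ((r : ℝ) • p) / u 0 ≤ (u p / u 0) ^ r := by
  have hu0 : 0 < u 0 := hu.pos 0 h0
  have hr' : (1 : ℝ) ≤ r := by exact_mod_cast hr
  have hrpos : (0 : ℝ) < r := by linarith
  by_cases h : (r : ℝ) • p ∈ Ω
  · have hpos := hu.pos _ h
    have hw1 : 0 ≤ (r : ℝ)⁻¹ := by positivity
    have hw2 : 0 ≤ 1 - (r : ℝ)⁻¹ := by
      have : (r : ℝ)⁻¹ ≤ 1 := inv_le_one_of_one_le₀ hr'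
      linarith
    have hp : (r : ℝ)⁻¹ • ((r : ℝ) • p) + (1 - (r : ℝ)⁻¹) • (0 : E n) = p := by
      rw [smul_smul, inv_mul_cancel₀ hrpos.ne', one_smul, smul_zero, add_zero]
    have hpΩ : p ∈ Ω := by
      have := hc h h0 hw1 hw2 (by ring)
      rwa [hp] at this
    have hconc := hu.conc.2 h h0 hw1 hw2 (by ring)
    rw [hp] at hconc
    simp only [smul_eq_mul] at hconc
    have hup : 0 < u p := hu.pos p hpΩ
    have h1 : Real.log (u ((r : ℝ) • p) / u 0) ≤ Real.log ((u p / u 0) ^ r) := by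
      rw [Real.log_pow, Real.log_div hpos.ne' hu0.ne', Real.log_div hup.ne' hu0.ne']
      have h2 : (r : ℝ) * ((r : ℝ)⁻¹ * Real.log (u ((r : ℝ) • p)) + (1 - (r : ℝ)⁻¹) * Real.log (u 0))
          = Real.log (u ((r : ℝ) • p)) + (r - 1) * Real.log (u 0) := by
        field_simp
      have h3 := mul_le_mul_of_nonneg_left hconc hrpos.le
      rw [h2] at h3
      linarith
    exact (Real.log_le_log_iff (div_pos hpos hu0) (pow_pos (div_pos hup hu0) r)).1 h1
  · rw [hu.zero _ h, zero_div]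
    exact pow_nonneg (div_nonneg (hu.nonneg p) hu0.le) r

theorem hasCompactSupport (hu : Ground Ω u lam) (hb : Bornology.IsBounded Ω) :
    HasCompactSupport u := by
  refine HasCompactSupport.intro' (K := closure Ω) hb.isCompact_closure isClosed_closure ?_
  intro x hx
  exact hu.zero x (fun h => hx (subset_closure h))

end Ground

theorem exists_pow_small (n : ℕ) : ∃ r : ℕ, 1 ≤ r ∧ (r : ℝ) ^ n * (1 / 4 : ℝ) ^ (r - 1) ≤ 1 / 2 := by
  have h := tendsto_pow_const_mul_const_pow_of_abs_lt_one n (r := (1 / 4 : ℝ))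
    (by rw [abs_of_pos] <;> norm_num)
  have h2 := (h.eventually (gt_mem_nhds (show (0 : ℝ) < 1 / 8 by norm_num))).and
    (eventually_ge_atTop 1)
  obtain ⟨r, hr1, hr2⟩ := h2.exists
  refine ⟨r, hr2, ?_⟩
  have h3 : (1 / 4 : ℝ) ^ r = (1 / 4 : ℝ) ^ (r - 1) * (1 / 4) := by
    rw [← pow_succ]; congr 1; omega
  rw [h3, ← mul_assoc] at hr1
  linarith

theorem targetMass : TargetMass := by
  intro n
  obtain ⟨r, hr1, hr2⟩ := exists_pow_small n
  have hrpos : (0 : ℝ) < r := by exact_mod_cast hr1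
  refine ⟨1 / (2 * (r : ℝ) ^ n), by positivity, ?_⟩
  intro Ω u lam ho hb hc hu h0 hmax
  have hu0 : 0 < u 0 := hu.pos 0 h0
  set v : E n → ℝ := fun x => u x / u 0 with hv
  have hvc : Continuous v := hu.cont.div_const _
  have hv0 : ∀ x, 0 ≤ v x := fun x => div_nonneg (hu.nonneg x) hu0.le
  have hv1 : ∀ x, v x ≤ 1 := fun x => (div_le_one hu0).2 (hmax x)
  have hvs : HasCompactSupport v := by
    refine HasCompactSupport.intro' (K := closure Ω) hb.isCompact_closure isClosed_closure ?_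
    intro x hx
    simp only [hv]
    rw [hu.zero x (fun h => hx (subset_closure h)), zero_div]
  have hint : ∀ m : ℕ, m ≠ 0 → Integrable (fun x => v x ^ m) := by
    intro m hm
    refine (hvc.pow m).integrable_of_hasCompactSupport ?_
    refine HasCompactSupport.intro' (K := closure Ω) hb.isCompact_closure isClosed_closure ?_
    intro x hx
    have hx0 : v x = 0 := by
      simp only [hv]
      rw [hu.zero x (fun h => hx (subset_closure h)), zero_div]
    rw [Pi.pow_apply, hx0, zero_pow hm]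
  -- change of variables
  have hcv : ∫ x, v x ^ 2 = (r : ℝ) ^ n * ∫ x, v ((r : ℝ) • x) ^ 2 := by
    have h := MeasureTheory.Measure.integral_comp_smul (μ := (volume : Measure (E n)))
      (fun x => v x ^ 2) (r : ℝ)
    rw [h, finrank_euclideanSpace, Fintype.card_fin, abs_of_pos (by positivity), smul_eq_mul]
    field_simp
  have hle : ∫ x, v ((r : ℝ) • x) ^ 2 ≤ ∫ x, v x ^ (2 * r) := by
    refine integral_mono_of_nonneg (Eventually.of_forall fun x => sq_nonneg _)
      (hint (2 * r) (by omega)) (Eventually.of_forall fun x => ?_)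
    have h := hu.radial hc h0 hr1 x
    have h' : v ((r : ℝ) • x) ≤ v x ^ r := h
    calc v ((r : ℝ) • x) ^ 2 ≤ (v x ^ r) ^ 2 := pow_le_pow_left₀ (hv0 _) h' 2
      _ = v x ^ (2 * r) := by rw [← pow_mul, mul_comm]
  set S : Set (E n) := {x | u 0 / 2 < u x} with hS
  have hSm : MeasurableSet S := (isOpen_lt continuous_const hu.cont).measurableSet
  have hSv : ∀ x, x ∈ S ↔ 1 / 2 < v x := by
    intro x
    simp only [hS, hv, mem_ofPred_eq]
    rw [lt_div_iff₀ hu0]
    constructor <;> intro h <;> linarith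
  have hsplit : ∫ x, v x ^ (2 * r) ≤ (∫ x in S, v x ^ 2) + (1 / 4 : ℝ) ^ (r - 1) * ∫ x, v x ^ 2 := by
    rw [← integral_indicator hSm, ← integral_const_mul, ← integral_add]
    · refine integral_mono (hint _ (by omega)) ?_ ?_
      · exact ((hint 2 (by norm_num)).indicator hSm).add ((hint 2 (by norm_num)).const_mul _)
      · intro x
        simp only
        by_cases hx : x ∈ S
        · rw [indicator_of_mem hx]
          have h1 : v x ^ (2 * r) ≤ v x ^ 2 := pow_le_pow_of_le_one (hv0 x) (hv1 x) (by omega)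
          have h2 : 0 ≤ (1 / 4 : ℝ) ^ (r - 1) * v x ^ 2 := by positivity
          linarith
        · rw [indicator_of_notMem hx, zero_add]
          have h1 : v x ≤ 1 / 2 := by
            by_contra h
            exact hx ((hSv x).2 (not_le.1 h))
          have h2 : v x ^ (2 * r) = (v x ^ 2) ^ (r - 1) * v x ^ 2 := by
            rw [← pow_mul, ← pow_add]; congr 1; omega
          rw [h2]
          refine mul_le_mul_of_nonneg_right ?_ (sq_nonneg _)
          refine pow_le_pow_left₀ (sq_nonneg _) ?_ _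
          nlinarith [hv0 x]
    · exact (hint 2 (by norm_num)).indicator hSm
    · exact (hint 2 (by norm_num)).const_mul _
  have hI0 : 0 ≤ ∫ x, v x ^ 2 := integral_nonneg fun x => sq_nonneg _
  have hmain : ∫ x, v x ^ 2 ≤ 2 * (r : ℝ) ^ n * ∫ x in S, v x ^ 2 := by
    have h1 : ∫ x, v x ^ 2 ≤ (r : ℝ) ^ n *
        ((∫ x in S, v x ^ 2) + (1 / 4 : ℝ) ^ (r - 1) * ∫ x, v x ^ 2) := by
      calc ∫ x, v x ^ 2 = (r : ℝ) ^ n * ∫ x, v ((r : ℝ) • x) ^ 2 := hcv
        _ ≤ _ := mul_le_mul_of_nonneg_left (hle.trans hsplit) (by positivity)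
    have h2 : (r : ℝ) ^ n * ((1 / 4 : ℝ) ^ (r - 1) * ∫ x, v x ^ 2) ≤ 1 / 2 * ∫ x, v x ^ 2 := by
      rw [← mul_assoc]
      exact mul_le_mul_of_nonneg_right hr2 hI0
    nlinarith
  have hu2 : ∀ x, u x ^ 2 = u 0 ^ 2 * v x ^ 2 := by
    intro x
    simp only [hv]
    field_simp
  have e1 : ∫ x, u x ^ 2 = u 0 ^ 2 * ∫ x, v x ^ 2 := by
    rw [← integral_const_mul]; exact integral_congr_ae (Eventually.of_forall fun x => hu2 x)
  have e2 : ∫ x in S, u x ^ 2 = u 0 ^ 2 * ∫ x in S, v x ^ 2 := by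
    rw [← integral_const_mul]; exact integral_congr_ae (Eventually.of_forall fun x => hu2 x)
  rw [e1, e2]
  have h3 : 1 / (2 * (r : ℝ) ^ n) * ∫ x, v x ^ 2 ≤ ∫ x in S, v x ^ 2 := by
    rw [div_mul_eq_mul_div, one_mul, div_le_iff₀ (by positivity)]
    linarith
  calc 1 / (2 * (r : ℝ) ^ n) * (u 0 ^ 2 * ∫ x, v x ^ 2)
      = u 0 ^ 2 * (1 / (2 * (r : ℝ) ^ n) * ∫ x, v x ^ 2) := by ring
    _ ≤ u 0 ^ 2 * ∫ x in S, v x ^ 2 := mul_le_mul_of_nonneg_left h3 (sq_nonneg _)

end Pool.Agent.GS8
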