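import Pool.Agent.GS8.Reg1Spec

/-!
# Interior regularity I: the kernel integrals

`CC g a τ = ∫_{-1}^{1} cosh (a s) g (τ + s²) ds` and its derivatives.
-/

set_option autoImplicit false

open MeasureTheory Set Filter Topology
open scoped Real ContDiff

namespace Pool.Agent.GS8.Reg

open Pool.Agent.GS8

/-- weighted derivative under the integral sign on a compact set -/
theorem hasDerivAt_param {X : Type*} [TopologicalSpace X] [MeasurableSpace X] [BorelSpace X]
    [T2Space X] {m : Measure X} {w : X → ℝ} {K : Set X}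
    (hK : IsCompact K) (hw : IntegrableOn w K m) {G G' : ℝ → X → ℝ} {a b t₀ : ℝ} (ha : a < t₀)
    (hb : t₀ < b) (hG : ContinuousOn (Function.uncurry G) (Icc a b ×ˢ K))
    (hG' : ContinuousOn (Function.uncurry G') (Icc a b ×ˢ K))
    (hd : ∀ t ∈ Icc a b, ∀ x ∈ K, HasDerivAt (fun s => G s x) (G' t x) t) :
    HasDerivAt (fun t => ∫ x in K, w x * G t x ∂m) (∫ x in K, w x * G' t₀ x ∂m) t₀ := by
  have hKm : MeasurableSet K := hK.measurableSet
  have hsl : ∀ t ∈ Icc a b, ∀ H : ℝ → X → ℝ, ContinuousOn (Function.uncurry H) (Icc a b ×ˢ K) →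
      ContinuousOn (H t) K := by
    intro t ht H hH
    have : ContinuousOn (fun x : X => ((t, x) : ℝ × X)) K := by fun_prop
    exact hH.comp this (fun x hx => ⟨ht, hx⟩)
  have hmeas : ∀ t ∈ Icc a b, ∀ H : ℝ → X → ℝ,
      ContinuousOn (Function.uncurry H) (Icc a b ×ˢ K) →
      AEStronglyMeasurable (H t) (m.restrict K) := by
    intro t ht H hH
    exact (hsl t ht H hH).aestronglyMeasurable_of_isCompact hK hKm
  have hbd : ∀ H : ℝ → X → ℝ, ContinuousOn (Function.uncurry H) (Icc a b ×ˢ K) →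
      ∃ C : ℝ, ∀ t ∈ Icc a b, ∀ x ∈ K, ‖H t x‖ ≤ C := by
    intro H hH
    obtain ⟨C, hC⟩ := (isCompact_Icc.prod hK).exists_bound_of_continuousOn hH
    exact ⟨C, fun t ht x hx => hC (t, x) ⟨ht, hx⟩⟩
  obtain ⟨C, hC⟩ := hbd G' hG'
  obtain ⟨D, hD⟩ := hbd G hG
  have ht₀ : t₀ ∈ Icc a b := ⟨ha.le, hb.le⟩
  have hnhds : Icc a b ∈ 𝓝 t₀ := Icc_mem_nhds ha hb
  refine (hasDerivAt_integral_of_dominated_loc_of_deriv_le (μ := m.restrict K)
    (F := fun t x => w x * G t x) (F' := fun t x => w x * G' t x) (x₀ := t₀)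
    (bound := fun x => |w x| * C) hnhds ?_ ?_ ?_ ?_ ?_ ?_).2
  · filter_upwards [hnhds] with t ht
    exact hw.aestronglyMeasurable.mul (hmeas t ht G hG)
  · have h1 : AEStronglyMeasurable (G t₀) (m.restrict K) := hmeas t₀ ht₀ G hG
    refine Integrable.mul_bdd (c := D) hw h1 ?_
    exact (ae_restrict_iff' hKm).2 (Eventually.of_forall fun x hx => hD t₀ ht₀ x hx)
  · exact hw.aestronglyMeasurable.mul (hmeas t₀ ht₀ G' hG')
  · refine (ae_restrict_iff' hKm).2 (Eventually.of_forall fun x hx t ht => ?_)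
    rw [norm_mul, Real.norm_eq_abs]
    exact mul_le_mul_of_nonneg_left (hC t ht x hx) (abs_nonneg _)
  · exact hw.abs.mul_const C
  · refine (ae_restrict_iff' hKm).2 (Eventually.of_forall fun x hx t ht => ?_)
    exact (hd t ht x hx).const_mul (w x)

/-- `∫_{-1}^{1} cosh (a s) g (τ + s²) ds` -/
noncomputable def CC (g : ℝ → ℝ) (a τ : ℝ) : ℝ :=
  ∫ s in Icc (-1 : ℝ) 1, Real.cosh (a * s) * g (τ + s ^ 2)

/-- `∫_{-1}^{1} s sinh (a s) g (τ + s²) ds` -/
noncomputable def SS (g : ℝ → ℝ) (a τ : ℝ) : ℝ :=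
  ∫ s in Icc (-1 : ℝ) 1, s * Real.sinh (a * s) * g (τ + s ^ 2)

theorem continuous_CC {g : ℝ → ℝ} (hg : Continuous g) :
    Continuous (fun p : ℝ × ℝ => CC g p.1 p.2) := by
  unfold CC
  refine continuous_parametric_integral_of_continuous
    (f := fun (p : ℝ × ℝ) (s : ℝ) => Real.cosh (p.1 * s) * g (p.2 + s ^ 2)) ?_ isCompact_Icc
  have h1 : Continuous (fun q : (ℝ × ℝ) × ℝ => Real.cosh (q.1.1 * q.2)) :=
    Real.continuous_cosh.comp (by fun_prop)
  have h2 : Continuous (fun q : (ℝ × ℝ) × ℝ => g (q.1.2 + q.2 ^ 2)) := hg.comp (by fun_prop)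
  exact h1.mul h2

theorem continuous_SS {g : ℝ → ℝ} (hg : Continuous g) :
    Continuous (fun p : ℝ × ℝ => SS g p.1 p.2) := by
  unfold SS
  refine continuous_parametric_integral_of_continuous
    (f := fun (p : ℝ × ℝ) (s : ℝ) => s * Real.sinh (p.1 * s) * g (p.2 + s ^ 2)) ?_ isCompact_Icc
  have h1 : Continuous (fun q : (ℝ × ℝ) × ℝ => Real.sinh (q.1.1 * q.2)) :=
    Real.continuous_sinh.comp (by fun_prop)
  have h2 : Continuous (fun q : (ℝ × ℝ) × ℝ => g (q.1.2 + q.2 ^ 2)) := hg.comp (by fun_prop)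
  exact (continuous_snd.mul h1).mul h2

/-- derivative in `τ` -/
theorem hasDerivAt_CC {g g' : ℝ → ℝ} (hg : ∀ t, HasDerivAt g (g' t) t) (hg' : Continuous g')
    (a τ : ℝ) : HasDerivAt (fun t => CC g a t) (CC g' a τ) τ := by
  have hgc : Continuous g := continuous_iff_continuousAt.2 fun t => (hg t).continuousAt
  have hw : IntegrableOn (fun s : ℝ => Real.cosh (a * s)) (Icc (-1 : ℝ) 1) := by
    refine Continuous.integrableOn_Icc ?_
    exact Real.continuous_cosh.comp (by fun_prop)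
  have := hasDerivAt_param (m := volume) (w := fun s : ℝ => Real.cosh (a * s))
    (K := Icc (-1 : ℝ) 1) (G := fun t s => g (t + s ^ 2)) (G' := fun t s => g' (t + s ^ 2))
    (a := τ - 1) (b := τ + 1) (t₀ := τ) isCompact_Icc hw (by linarith) (by linarith)
    (by
      refine Continuous.continuousOn ?_
      exact hgc.comp (by fun_prop))
    (by
      refine Continuous.continuousOn ?_
      exact hg'.comp (by fun_prop))
    (by
      intro t _ s _
      have h1 : HasDerivAt (fun r : ℝ => g (r + s ^ 2)) (g' (t + s ^ 2) * 1) t :=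
        (hg (t + s ^ 2)).comp t ((hasDerivAt_id t).add_const (s ^ 2))
      simpa using h1)
  exact this

theorem contDiff_CC {g : ℝ → ℝ} (hg : ContDiff ℝ ∞ g) (a : ℝ) :
    ContDiff ℝ ∞ (fun t => CC g a t) := by
  rw [contDiff_infty]
  intro n
  induction n generalizing g with
  | zero =>
    have h1 := continuous_CC hg.continuous
    have h2 : Continuous (fun t => CC g a t) := h1.comp (by fun_prop : Continuous fun t : ℝ => (a, t))
    exact_mod_cast contDiff_zero.2 h2
  | succ n ih =>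
    have hd : ∀ t, HasDerivAt (fun t => CC g a t) (CC (deriv g) a t) t := by
      intro t
      refine hasDerivAt_CC (fun s => ?_) (hg.continuous_deriv (by simp)) a t
      exact (hg.differentiable (by simp)).differentiableAt.hasDerivAt
    have hg' : ContDiff ℝ ∞ (deriv g) := (contDiff_infty_iff_deriv.1 hg).2
    have he : deriv (fun t => CC g a t) = fun t => CC (deriv g) a t := by
      funext t; exact (hd t).deriv
    have := (contDiff_succ_iff_deriv (𝕜 := ℝ) (n := (n : WithTop ℕ∞))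
      (f := fun t => CC g a t)).2
      ⟨fun t => (hd t).differentiableAt, by simp, by rw [he]; exact ih hg'⟩
    exact_mod_cast this

/-- `CC` vanishes where it should -/
theorem CC_zero {g : ℝ → ℝ} (hg : ∀ t, 1 ≤ t → g t = 0) (a : ℝ) {τ : ℝ} (hτ : 1 ≤ τ) :
    CC g a τ = 0 := by
  unfold CC
  have : ∀ s : ℝ, Real.cosh (a * s) * g (τ + s ^ 2) = 0 := by
    intro s
    rw [hg _ (by nlinarith [sq_nonneg s]), mul_zero]
  simp [this]

theorem SS_zero {g : ℝ → ℝ} (hg : ∀ t, 1 ≤ t → g t = 0) (a : ℝ) {τ : ℝ} (hτ : 1 ≤ τ) :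
    SS g a τ = 0 := by
  unfold SS
  have : ∀ s : ℝ, s * Real.sinh (a * s) * g (τ + s ^ 2) = 0 := by
    intro s
    rw [hg _ (by nlinarith [sq_nonneg s]), mul_zero]
  simp [this]

/-- integration by parts -/
theorem CC_SS {ψ Ψ : ℝ → ℝ} (hψ : Continuous ψ) (hΨ : ∀ t, HasDerivAt Ψ (-(1 / 2) * ψ t) t)
    (hz : ∀ t, 1 ≤ t → Ψ t = 0) (a : ℝ) {τ : ℝ} (hτ : 0 ≤ τ) :
    a * CC Ψ a τ = SS ψ a τ := by
  have hΨc : Continuous Ψ := continuous_iff_continuousAt.2 fun t => (hΨ t).continuousAt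
  have hd : ∀ s : ℝ, HasDerivAt (fun s => Real.sinh (a * s) * Ψ (τ + s ^ 2))
      (a * (Real.cosh (a * s) * Ψ (τ + s ^ 2)) - s * Real.sinh (a * s) * ψ (τ + s ^ 2)) s := by
    intro s
    have h1 : HasDerivAt (fun s : ℝ => Real.sinh (a * s)) (Real.cosh (a * s) * a) s := by
      have h0 : HasDerivAt (fun s : ℝ => a * s) a s := by
        simpa using (hasDerivAt_id s).const_mul a
      exact (Real.hasDerivAt_sinh (a * s)).comp s h0
    have h2 : HasDerivAt (fun s : ℝ => Ψ (τ + s ^ 2)) (-(1 / 2) * ψ (τ + s ^ 2) * (2 * s)) s := by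
      have h3 : HasDerivAt (fun s : ℝ => τ + s ^ 2) (2 * s) s := by
        have := (hasDerivAt_pow 2 s).const_add τ
        simpa using this
      exact (hΨ (τ + s ^ 2)).comp s h3
    have h4 := h1.mul h2
    refine h4.congr_deriv ?_
    ring
  have hc1 : Continuous (fun s : ℝ => Real.cosh (a * s) * Ψ (τ + s ^ 2)) :=
    (Real.continuous_cosh.comp (by fun_prop)).mul (hΨc.comp (by fun_prop))
  have hc2 : Continuous (fun s : ℝ => s * Real.sinh (a * s) * ψ (τ + s ^ 2)) :=
    (continuous_id.mul (Real.continuous_sinh.comp (by fun_prop))).mul (hψ.comp (by fun_prop))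
  have hI := intervalIntegral.integral_eq_sub_of_hasDerivAt (a := (-1 : ℝ)) (b := 1)
    (fun s _ => hd s) (((hc1.const_mul a).sub hc2).intervalIntegrable _ _)
  have hb1 : Ψ (τ + 1 ^ 2) = 0 := hz _ (by linarith)
  have hb2 : Ψ (τ + (-1 : ℝ) ^ 2) = 0 := hz _ (by norm_num; linarith)
  rw [hb1, hb2, mul_zero, mul_zero, sub_zero, intervalIntegral.integral_of_le (by norm_num),
    ← integral_Icc_eq_integral_Ioc, integral_sub, integral_const_mul] at hI
  · unfold CC SS
    linarith
  · exact (hc1.const_mul a).integrableOn_Icc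
  · exact hc2.integrableOn_Icc

/-- derivative along the scaling curve -/
theorem hasDerivAt_CC_curve {g g' : ℝ → ℝ} (hg : ∀ t, HasDerivAt g (g' t) t)
    (hg' : Continuous g') (μ c : ℝ) {η : ℝ} (hη : 0 < η) :
    HasDerivAt (fun η => CC g (μ * η) (c / η ^ 2))
      (μ * SS g (μ * η) (c / η ^ 2) - 2 * c / η ^ 3 * CC g' (μ * η) (c / η ^ 2)) η := by
  have hgc : Continuous g := continuous_iff_continuousAt.2 fun t => (hg t).continuousAt
  have hw : IntegrableOn (fun _ : ℝ => (1 : ℝ)) (Icc (-1 : ℝ) 1) :=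
    continuous_const.integrableOn_Icc
  have hne : ∀ p ∈ Icc (η / 2) (2 * η) ×ˢ Icc (-1 : ℝ) 1, p.1 ≠ 0 := by
    intro p hp
    have := hp.1.1
    intro h0
    rw [h0] at this
    linarith
  have hcos : Continuous (fun p : ℝ × ℝ => Real.cosh (μ * p.1 * p.2)) :=
    Real.continuous_cosh.comp (by fun_prop)
  have hsin : Continuous (fun p : ℝ × ℝ => Real.sinh (μ * p.1 * p.2)) :=
    Real.continuous_sinh.comp (by fun_prop)
  have hin : ContinuousOn (fun p : ℝ × ℝ => c / p.1 ^ 2 + p.2 ^ 2)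
      (Icc (η / 2) (2 * η) ×ˢ Icc (-1 : ℝ) 1) := by
    refine ContinuousOn.add (ContinuousOn.div continuousOn_const (by fun_prop) ?_) (by fun_prop)
    intro p hp
    exact pow_ne_zero 2 (hne p hp)
  have hp3 : ContinuousOn (fun p : ℝ × ℝ => 2 * c / p.1 ^ 3)
      (Icc (η / 2) (2 * η) ×ˢ Icc (-1 : ℝ) 1) := by
    refine ContinuousOn.div continuousOn_const (by fun_prop) ?_
    intro p hp
    exact pow_ne_zero 3 (hne p hp)
  have key := hasDerivAt_param (m := volume) (w := fun _ : ℝ => (1 : ℝ)) (K := Icc (-1 : ℝ) 1)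
    (G := fun t s => Real.cosh (μ * t * s) * g (c / t ^ 2 + s ^ 2))
    (G' := fun t s => μ * (s * Real.sinh (μ * t * s) * g (c / t ^ 2 + s ^ 2)) -
      2 * c / t ^ 3 * (Real.cosh (μ * t * s) * g' (c / t ^ 2 + s ^ 2)))
    (a := η / 2) (b := 2 * η) (t₀ := η) isCompact_Icc hw (by linarith) (by linarith)
    (by
      exact hcos.continuousOn.mul (hgc.comp_continuousOn hin))
    (by
      refine ContinuousOn.sub ?_ ?_
      · exact continuousOn_const.mul ((continuousOn_snd.mul hsin.continuousOn).mul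
          (hgc.comp_continuousOn hin))
      · exact hp3.mul (hcos.continuousOn.mul (hg'.comp_continuousOn hin)))
    (by
      intro t ht s _
      have ht0 : 0 < t := by linarith [ht.1]
      have h1 : HasDerivAt (fun t : ℝ => Real.cosh (μ * t * s))
          (Real.sinh (μ * t * s) * (μ * s)) t := by
        have h2 : HasDerivAt (fun t : ℝ => μ * t * s) (μ * s) t := by
          simpa using ((hasDerivAt_id t).const_mul μ).mul_const s
        exact (Real.hasDerivAt_cosh _).comp t h2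
      have h3 : HasDerivAt (fun t : ℝ => c / t ^ 2 + s ^ 2) (-(2 * c / t ^ 3)) t := by
        have h4 := ((hasDerivAt_const t c).div (hasDerivAt_pow 2 t) (by positivity)).add_const
          (s ^ 2)
        refine h4.congr_deriv ?_
        field_simp
        ring
      have h5 := h1.mul ((hg (c / t ^ 2 + s ^ 2)).comp t h3)
      refine h5.congr_deriv ?_
      simp only [Function.comp]
      ring)
  have hηin : η ∈ Icc (η / 2) (2 * η) := ⟨by linarith, by linarith⟩
  have key2 : HasDerivAt (fun η => CC g (μ * η) (c / η ^ 2))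
      (∫ s in Icc (-1 : ℝ) 1, 1 * (μ * (s * Real.sinh (μ * η * s) * g (c / η ^ 2 + s ^ 2)) -
      2 * c / η ^ 3 * (Real.cosh (μ * η * s) * g' (c / η ^ 2 + s ^ 2)))) η := by
    simpa only [CC, one_mul] using key
  refine key2.congr_deriv ?_
  · simp only [one_mul]
    rw [integral_sub, integral_const_mul, integral_const_mul]
    · rfl
    · refine Continuous.integrableOn_Icc ?_
      exact continuous_const.mul ((continuous_id.mul (Real.continuous_sinh.comp (by fun_prop))).mul
        (hgc.comp (by fun_prop)))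
    · refine Continuous.integrableOn_Icc ?_
      exact continuous_const.mul ((Real.continuous_cosh.comp (by fun_prop)).mul
        (hg'.comp (by fun_prop)))

/-- monotonicity in `a` (nonnegative `g`) -/
theorem CC_ge {g : ℝ → ℝ} (hg : Continuous g) (hg0 : ∀ t, 0 ≤ g t) (a τ : ℝ) :
    CC g 0 τ ≤ CC g a τ := by
  unfold CC
  have hc : ∀ a : ℝ, Continuous (fun s : ℝ => Real.cosh (a * s) * g (τ + s ^ 2)) := fun a =>
    (Real.continuous_cosh.comp (by fun_prop)).mul (hg.comp (by fun_prop))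
  refine integral_mono ((hc 0).integrableOn_Icc) ((hc a).integrableOn_Icc) ?_
  intro s
  simp only [zero_mul, Real.cosh_zero]
  exact mul_le_mul_of_nonneg_right (Real.one_le_cosh _) (hg0 _)

theorem CC_le {g : ℝ → ℝ} (hg : Continuous g) (hg0 : ∀ t, 0 ≤ g t) (a τ : ℝ) :
    CC g a τ ≤ Real.cosh a * CC g 0 τ := by
  unfold CC
  have hc : ∀ a : ℝ, Continuous (fun s : ℝ => Real.cosh (a * s) * g (τ + s ^ 2)) := fun a =>
    (Real.continuous_cosh.comp (by fun_prop)).mul (hg.comp (by fun_prop))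
  rw [← integral_const_mul]
  refine setIntegral_mono_on ((hc a).integrableOn_Icc) ((hc 0).const_mul _ |>.integrableOn_Icc)
    measurableSet_Icc ?_
  intro s hs
  simp only [zero_mul, Real.cosh_zero, one_mul]
  refine mul_le_mul_of_nonneg_right ?_ (hg0 _)
  rw [Real.cosh_le_cosh, abs_mul]
  exact mul_le_of_le_one_right (abs_nonneg a) (abs_le.2 ⟨hs.1, hs.2⟩)

theorem CC_nonneg {g : ℝ → ℝ} (hg0 : ∀ t, 0 ≤ g t) (a τ : ℝ) : 0 ≤ CC g a τ := by
  unfold CC
  refine integral_nonneg fun s => ?_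
  exact mul_nonneg (Real.cosh_pos _).le (hg0 _)

end Pool.Agent.GS8.Reg
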