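import Pool.Agent.GS8.Reg1A

/-!
# Interior regularity II: the kernels on `ℝⁿ`
-/

set_option autoImplicit false

open MeasureTheory Set Filter Topology
open scoped Real ContDiff

namespace Pool.Agent.GS8.Reg

open Pool.Agent.GS8

/-! ### Radial functions -/

theorem hasFDerivAt_radial {n : ℕ} {H H' : ℝ → ℝ} (h1 : ∀ t, HasDerivAt H (H' t) t) (x y : E n) :
    HasFDerivAt (fun y : E n => H (‖x - y‖ ^ 2))
      (H' (‖x - y‖ ^ 2) • ((2 : ℝ) • (innerSL ℝ (x - y)).comp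
        (-(ContinuousLinearMap.id ℝ (E n))))) y := by
  have h2 : HasFDerivAt (fun y : E n => x - y) (-(ContinuousLinearMap.id ℝ (E n))) y :=
    (hasFDerivAt_id y).const_sub x
  have h3 : HasFDerivAt (fun y : E n => ‖x - y‖ ^ 2) ((2 : ℝ) • (innerSL ℝ (x - y)).comp
        (-(ContinuousLinearMap.id ℝ (E n)))) y := by
    refine h2.norm_sq.congr_fderiv ?_
    ext z
    simp
  exact (h1 (‖x - y‖ ^ 2)).comp_hasFDerivAt y h3

theorem pd_radial {n : ℕ} {H H' : ℝ → ℝ} (h1 : ∀ t, HasDerivAt H (H' t) t) (i : Fin n)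
    (x y : E n) :
    pd i (fun y : E n => H (‖x - y‖ ^ 2)) y = H' (‖x - y‖ ^ 2) * (2 * (y i - x i)) := by
  unfold pd
  rw [(hasFDerivAt_radial h1 x y).fderiv]
  simp [EuclideanSpace.inner_single_right]

theorem pd_pd_radial {n : ℕ} {H H' H'' : ℝ → ℝ} (h1 : ∀ t, HasDerivAt H (H' t) t)
    (h2 : ∀ t, HasDerivAt H' (H'' t) t) (i : Fin n) (x y : E n) :
    pd i (pd i (fun y : E n => H (‖x - y‖ ^ 2))) y =
      H'' (‖x - y‖ ^ 2) * (4 * (y i - x i) ^ 2) + 2 * H' (‖x - y‖ ^ 2) := by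
  have he : pd i (fun y : E n => H (‖x - y‖ ^ 2)) =
      fun y : E n => H' (‖x - y‖ ^ 2) * (2 * (y i - x i)) := by
    funext y; exact pd_radial h1 i x y
  rw [he]
  have h3 : HasFDerivAt (fun y : E n => 2 * (y i - x i))
      ((2 : ℝ) • (EuclideanSpace.proj i : E n →L[ℝ] ℝ)) y := by
    have h4 : HasFDerivAt (fun y : E n => y i) (EuclideanSpace.proj i : E n →L[ℝ] ℝ) y :=
      (EuclideanSpace.proj i : E n →L[ℝ] ℝ).hasFDerivAt
    exact (h4.sub_const (x i)).const_mul 2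
  have h5 : HasFDerivAt (fun y : E n => H' (‖x - y‖ ^ 2) * (2 * (y i - x i)))
      (H' (‖x - y‖ ^ 2) • ((2 : ℝ) • (EuclideanSpace.proj i : E n →L[ℝ] ℝ)) +
        (2 * (y i - x i)) • (H'' (‖x - y‖ ^ 2) • ((2 : ℝ) • (innerSL ℝ (x - y)).comp
        (-(ContinuousLinearMap.id ℝ (E n)))))) y := (hasFDerivAt_radial h2 x y).mul h3
  unfold pd
  rw [h5.fderiv]
  simp [EuclideanSpace.inner_single_right]
  ring

theorem lap_radial {n : ℕ} {H H' H'' : ℝ → ℝ} (h1 : ∀ t, HasDerivAt H (H' t) t)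
    (h2 : ∀ t, HasDerivAt H' (H'' t) t) (x y : E n) :
    lap (fun y : E n => H (‖x - y‖ ^ 2)) y =
      4 * ‖x - y‖ ^ 2 * H'' (‖x - y‖ ^ 2) + 2 * n * H' (‖x - y‖ ^ 2) := by
  unfold lap
  have hs : ∑ i : Fin n, (y i - x i) ^ 2 = ‖x - y‖ ^ 2 := by
    rw [EuclideanSpace.real_norm_sq_eq]
    refine Finset.sum_congr rfl fun i _ => ?_
    simp only [PiLp.sub_apply]
    ring
  simp only [pd_pd_radial h1 h2]
  rw [Finset.sum_add_distrib, ← Finset.mul_sum, ← Finset.mul_sum, hs]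
  simp
  ring

theorem contDiff_radial {n : ℕ} {H : ℝ → ℝ} (hH : ContDiff ℝ ∞ H) (x : E n) :
    ContDiff ℝ ∞ (fun y : E n => H (‖x - y‖ ^ 2)) := by
  refine hH.comp ?_
  exact (contDiff_const.sub contDiff_id).norm_sq ℝ

/-! ### The profiles -/

/-- the two one-variable profiles -/
structure Prof (ψ Ψ : ℝ → ℝ) : Prop where
  smooth : ContDiff ℝ ∞ ψ
  nonneg : ∀ t, 0 ≤ ψ t
  pos : ∀ t, t < 1 → 0 < ψ t
  zero : ∀ t, 1 ≤ t → ψ t = 0
  Psi_smooth : ContDiff ℝ ∞ Ψ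
  Psi_nonneg : ∀ t, 0 ≤ Ψ t
  Psi_zero : ∀ t, 1 ≤ t → Ψ t = 0
  Psi_deriv : ∀ t, HasDerivAt Ψ (-(1 / 2) * ψ t) t

/-- radial profile of the kernel -/
noncomputable def kk (n : ℕ) (g : ℝ → ℝ) (μ η τ : ℝ) : ℝ :=
  (η ^ n)⁻¹ * CC g (μ * η) (τ / η ^ 2)

/-- the derivative of `kk` in `η` -/
noncomputable def kk' (n : ℕ) (g : ℝ → ℝ) (μ η τ : ℝ) : ℝ :=
  -(n * (η ^ (n + 1))⁻¹) * CC g (μ * η) (τ / η ^ 2) +
    (η ^ n)⁻¹ * (μ * SS g (μ * η) (τ / η ^ 2) -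
      2 * τ / η ^ 3 * CC (deriv g) (μ * η) (τ / η ^ 2))

theorem contDiff_kk {n : ℕ} {g : ℝ → ℝ} (hg : ContDiff ℝ ∞ g) (μ η : ℝ) :
    ContDiff ℝ ∞ (fun τ => kk n g μ η τ) := by
  unfold kk
  refine contDiff_const.mul ((contDiff_CC hg (μ * η)).comp ?_)
  exact contDiff_id.div_const _

theorem kk_zero {n : ℕ} {g : ℝ → ℝ} (hz : ∀ t, 1 ≤ t → g t = 0) (μ : ℝ) {η τ : ℝ} (hη : 0 < η)
    (hτ : η ^ 2 ≤ τ) : kk n g μ η τ = 0 := by
  unfold kk
  rw [CC_zero hz, mul_zero]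
  rwa [le_div_iff₀ (by positivity), one_mul]

theorem kk_nonneg {n : ℕ} {g : ℝ → ℝ} (hg0 : ∀ t, 0 ≤ g t) (μ : ℝ) {η : ℝ} (hη : 0 < η)
    (τ : ℝ) : 0 ≤ kk n g μ η τ := by
  unfold kk
  exact mul_nonneg (by positivity) (CC_nonneg hg0 _ _)

theorem deriv_zero_of {g : ℝ → ℝ} (hg : ContDiff ℝ ∞ g) (hz : ∀ t, 1 ≤ t → g t = 0) :
    ∀ t, 1 ≤ t → deriv g t = 0 := by
  intro t ht
  rcases ht.lt_or_eq with h | h
  · have he : g =ᶠ[𝓝 t] fun _ => (0 : ℝ) := by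
      filter_upwards [Ioi_mem_nhds h] with s hs
      exact hz s (le_of_lt hs)
    rw [he.deriv_eq]
    simp
  · have hc : Continuous (deriv g) := hg.continuous_deriv (by simp)
    have hlim : Tendsto (deriv g) (𝓝[>] t) (𝓝 (deriv g t)) :=
      (hc.tendsto t).mono_left nhdsWithin_le_nhds
    have hlim2 : Tendsto (deriv g) (𝓝[>] t) (𝓝 0) := by
      refine tendsto_const_nhds.congr' ?_
      filter_upwards [self_mem_nhdsWithin] with s hs
      have hs1 : 1 < s := by rw [h]; exact hs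
      have he : g =ᶠ[𝓝 s] fun _ => (0 : ℝ) := by
        filter_upwards [Ioi_mem_nhds hs1] with r hr
        exact hz r (le_of_lt hr)
      rw [he.deriv_eq]
      simp
    exact tendsto_nhds_unique hlim hlim2

theorem kk'_zero {n : ℕ} {g : ℝ → ℝ} (hg : ContDiff ℝ ∞ g) (hz : ∀ t, 1 ≤ t → g t = 0) (μ : ℝ)
    {η τ : ℝ} (hη : 0 < η) (hτ : η ^ 2 ≤ τ) : kk' n g μ η τ = 0 := by
  have h1 : 1 ≤ τ / η ^ 2 := by rwa [le_div_iff₀ (by positivity), one_mul]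
  unfold kk'
  rw [CC_zero hz _ h1, SS_zero hz _ h1, CC_zero (deriv_zero_of hg hz) _ h1]
  simp

theorem hasDerivAt_kk_scale {n : ℕ} {g : ℝ → ℝ} (hg : ContDiff ℝ ∞ g) (μ τ : ℝ) {η : ℝ}
    (hη : 0 < η) : HasDerivAt (fun η => kk n g μ η τ) (kk' n g μ η τ) η := by
  have hd : ∀ t, HasDerivAt g (deriv g t) t := fun t =>
    (hg.differentiable (by simp)).differentiableAt.hasDerivAt
  have h1 := hasDerivAt_CC_curve hd (hg.continuous_deriv (by simp)) μ τ hη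
  have h2 : HasDerivAt (fun η : ℝ => (η ^ n)⁻¹) (-(n * (η ^ (n + 1))⁻¹)) η := by
    have h3 := (hasDerivAt_pow n η).inv (by positivity)
    refine h3.congr_deriv ?_
    rcases n with _ | m
    · simp
    · simp only [Nat.add_sub_cancel]
      field_simp
      ring
  exact h2.mul h1

/-- derivatives of `kk` in `τ` -/
theorem hasDerivAt_kk {n : ℕ} {g g' : ℝ → ℝ} (hg : ∀ t, HasDerivAt g (g' t) t)
    (hg' : Continuous g') (μ η τ : ℝ) :
    HasDerivAt (fun τ => kk n g μ η τ) ((η ^ 2)⁻¹ * kk n g' μ η τ) τ := by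
  unfold kk
  have h1 : HasDerivAt (fun τ : ℝ => τ / η ^ 2) (1 / η ^ 2) τ :=
    (hasDerivAt_id τ).div_const _
  have h2 := ((hasDerivAt_CC hg hg' (μ * η) (τ / η ^ 2)).comp τ h1).const_mul ((η ^ n)⁻¹)
  refine h2.congr_deriv ?_
  ring

theorem comp_cont2 {X : Type*} [TopologicalSpace X] {F : ℝ → ℝ → ℝ}
    (hF : Continuous (fun p : ℝ × ℝ => F p.1 p.2))
    {S : Set X} {a b : X → ℝ} (ha : ContinuousOn a S) (hb : ContinuousOn b S) :
    ContinuousOn (fun p => F (a p) (b p)) S :=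
  hF.comp_continuousOn (ha.prodMk hb)

theorem continuousOn_kk {n : ℕ} {g : ℝ → ℝ} (hg : Continuous g) (μ : ℝ) :
    ContinuousOn (fun p : ℝ × ℝ => kk n g μ p.1 p.2) (Ioi 0 ×ˢ univ) := by
  have hne : ∀ p ∈ (Ioi (0 : ℝ)) ×ˢ (univ : Set ℝ), p.1 ≠ 0 := fun p hp => (ne_of_gt hp.1)
  have ha : ContinuousOn (fun p : ℝ × ℝ => μ * p.1) (Ioi 0 ×ˢ univ) := by fun_prop
  have hb : ContinuousOn (fun p : ℝ × ℝ => p.2 / p.1 ^ 2) (Ioi 0 ×ˢ univ) := by
    refine ContinuousOn.div (by fun_prop) (by fun_prop) ?_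
    intro p hp
    exact pow_ne_zero 2 (hne p hp)
  have h1 : ContinuousOn (fun p : ℝ × ℝ => (p.1 ^ n)⁻¹) (Ioi 0 ×ˢ univ) := by
    refine ContinuousOn.inv₀ (by fun_prop) ?_
    intro p hp
    exact pow_ne_zero n (hne p hp)
  exact h1.mul (comp_cont2 (F := CC g) (continuous_CC hg) ha hb)

theorem continuousOn_kk' {n : ℕ} {g : ℝ → ℝ} (hg : ContDiff ℝ ∞ g) (μ : ℝ) :
    ContinuousOn (fun p : ℝ × ℝ => kk' n g μ p.1 p.2) (Ioi 0 ×ˢ univ) := by
  have hne : ∀ p ∈ (Ioi (0 : ℝ)) ×ˢ (univ : Set ℝ), p.1 ≠ 0 := fun p hp => (ne_of_gt hp.1)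
  have ha : ContinuousOn (fun p : ℝ × ℝ => μ * p.1) (Ioi 0 ×ˢ univ) := by fun_prop
  have hb : ContinuousOn (fun p : ℝ × ℝ => p.2 / p.1 ^ 2) (Ioi 0 ×ˢ univ) := by
    refine ContinuousOn.div (by fun_prop) (by fun_prop) ?_
    intro p hp
    exact pow_ne_zero 2 (hne p hp)
  have hinv : ∀ m : ℕ, ContinuousOn (fun p : ℝ × ℝ => (p.1 ^ m)⁻¹) (Ioi 0 ×ˢ univ) := by
    intro m
    refine ContinuousOn.inv₀ (by fun_prop) ?_
    intro p hp
    exact pow_ne_zero m (hne p hp)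
  have h3 : ContinuousOn (fun p : ℝ × ℝ => 2 * p.2 / p.1 ^ 3) (Ioi 0 ×ˢ univ) := by
    refine ContinuousOn.div (by fun_prop) (by fun_prop) ?_
    intro p hp
    exact pow_ne_zero 3 (hne p hp)
  have hC := comp_cont2 (F := CC g) (continuous_CC hg.continuous) ha hb
  have hS := comp_cont2 (F := SS g) (continuous_SS hg.continuous) ha hb
  have hC' := comp_cont2 (F := CC (deriv g)) (continuous_CC (hg.continuous_deriv (by simp))) ha hb
  exact (((continuousOn_const.mul (hinv (n + 1))).neg).mul hC).add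
    ((hinv n).mul ((continuousOn_const.mul hS).sub (h3.mul hC')))

/-- The key identity: `∂_η k_η = (Δ + μ²) h_η` with `h_η = η * kk n Ψ μ η`. -/
theorem key_identity {n : ℕ} {ψ Ψ : ℝ → ℝ} (hP : Prof ψ Ψ) (μ : ℝ) {η : ℝ} (hη : 0 < η)
    (x y : E n) :
    lap (fun y : E n => η * kk n Ψ μ η (‖x - y‖ ^ 2)) y +
      μ ^ 2 * (η * kk n Ψ μ η (‖x - y‖ ^ 2)) = kk' n ψ μ η (‖x - y‖ ^ 2) := by
  have hdψ : ∀ t, HasDerivAt ψ (deriv ψ t) t := fun t =>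
    (hP.smooth.differentiable (by simp)).differentiableAt.hasDerivAt
  have hcψ : Continuous ψ := hP.smooth.continuous
  have hcψ' : Continuous (deriv ψ) := hP.smooth.continuous_deriv (by simp)
  have h1 : ∀ t, HasDerivAt (fun t => η * kk n Ψ μ η t)
      (η * ((η ^ 2)⁻¹ * kk n (fun t => -(1 / 2) * ψ t) μ η t)) t := fun t =>
    (hasDerivAt_kk hP.Psi_deriv (hcψ.const_mul _) μ η t).const_mul η
  have h2 : ∀ t, HasDerivAt
      (fun t => η * ((η ^ 2)⁻¹ * kk n (fun t => -(1 / 2) * ψ t) μ η t))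
      (η * ((η ^ 2)⁻¹ * ((η ^ 2)⁻¹ * kk n (fun t => -(1 / 2) * deriv ψ t) μ η t))) t := fun t =>
    ((hasDerivAt_kk (fun s => (hdψ s).const_mul (-(1 / 2)))
      (hcψ'.const_mul _) μ η t).const_mul _).const_mul η
  rw [lap_radial h1 h2 x y]
  have hlin : ∀ (g : ℝ → ℝ) (c a τ : ℝ), CC (fun t => c * g t) a τ = c * CC g a τ := by
    intro g c a τ
    unfold CC
    rw [← integral_const_mul]
    refine integral_congr_ae (Eventually.of_forall fun s => ?_)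
    simp only
    ring
  have hτ : 0 ≤ ‖x - y‖ ^ 2 / η ^ 2 := by positivity
  have hIBP := CC_SS hcψ hP.Psi_deriv hP.Psi_zero (μ * η) hτ
  unfold kk kk'
  rw [hlin, hlin, ← hIBP]
  field_simp
  ring

end Pool.Agent.GS8.Reg
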