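import Pool.Agent.GS8.Reg1B

/-!
# Interior regularity III: convolutions
-/

set_option autoImplicit false

open MeasureTheory Set Filter Topology
open scoped Real ContDiff

namespace Pool.Agent.GS8.Reg

open Pool.Agent.GS8

/-- convolution -/
noncomputable def cv {n : ℕ} (u K : E n → ℝ) (x : E n) : ℝ := ∫ y, u y * K (x - y)

theorem contDiff_pd {n : ℕ} (i : Fin n) {K : E n → ℝ} (hK : ContDiff ℝ ∞ K) :
    ContDiff ℝ ∞ (pd i K) := by
  unfold pd
  exact (hK.fderiv_right (m := ∞) (by simp)).clm_apply contDiff_const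

theorem hasCompactSupport_pd {n : ℕ} (i : Fin n) {K : E n → ℝ} (hK : HasCompactSupport K) :
    HasCompactSupport (pd i K) := by
  unfold pd
  exact hK.fderiv_apply ℝ (ee i)

theorem contDiff_cv {n : ℕ} {u K : E n → ℝ} (hu : LocallyIntegrable u volume)
    (hK : ContDiff ℝ ∞ K) (hKc : HasCompactSupport K) : ContDiff ℝ ∞ (cv u K) := by
  have := hKc.contDiff_convolution_right (ContinuousLinearMap.mul ℝ ℝ) (μ := volume) hu hK
  exact this

theorem pd_cv {n : ℕ} {u K : E n → ℝ} (hu : LocallyIntegrable u volume)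
    (hK : ContDiff ℝ ∞ K) (hKc : HasCompactSupport K) (i : Fin n) :
    pd i (cv u K) = cv u (pd i K) := by
  funext x
  have hK1 : ContDiff ℝ 1 K := hK.of_le (by exact_mod_cast le_top)
  have h1 := (hKc.hasFDerivAt_convolution_right (ContinuousLinearMap.mul ℝ ℝ) (μ := volume)
    hu hK1 x)
  have h2 := convolution_precompR_apply (ContinuousLinearMap.mul ℝ ℝ) (μ := volume) hu
    (hKc.fderiv ℝ) (hK1.continuous_fderiv (by simp)) x (ee i)
  have h3 : fderiv ℝ (cv u K) x = _ := h1.fderiv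
  unfold pd
  rw [h3, h2]
  rfl

theorem integrable_mul_cpt {n : ℕ} {u f : E n → ℝ} {M : ℝ} (hu : Measurable u)
    (hM : ∀ x, |u x| ≤ M) (hf : Continuous f) (hfc : HasCompactSupport f) :
    Integrable (fun y => u y * f y) := by
  refine Integrable.bdd_mul (c := M) (hf.integrable_of_hasCompactSupport hfc)
    hu.aestronglyMeasurable (Eventually.of_forall hM)

theorem integrable_cv {n : ℕ} {u f : E n → ℝ} {M : ℝ} (hu : Measurable u)
    (hM : ∀ x, |u x| ≤ M) (hf : Continuous f) (hfc : HasCompactSupport f) (x : E n) :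
    Integrable (fun y => u y * f (x - y)) := by
  refine integrable_mul_cpt hu hM (hf.comp (by fun_prop)) ?_
  exact hfc.comp_homeomorph (Homeomorph.subLeft x)

theorem locInt {n : ℕ} {u : E n → ℝ} {M : ℝ} (hu : Measurable u)
    (hM : ∀ x, |u x| ≤ M) : LocallyIntegrable u volume := by
  have h1 : LocallyIntegrable (fun _ : E n => M) volume := locallyIntegrable_const M
  exact h1.mono hu.aestronglyMeasurable (Eventually.of_forall fun x => by
    simpa using (hM x).trans (le_abs_self M))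

theorem lap_cv {n : ℕ} {u K : E n → ℝ} {M : ℝ} (hu : Measurable u)
    (hM : ∀ x, |u x| ≤ M) (hK : ContDiff ℝ ∞ K) (hKc : HasCompactSupport K) (x : E n) :
    lap (cv u K) x = ∫ y, u y * lap K (x - y) := by
  have hul := locInt hu hM
  unfold lap
  have h1 : ∀ i : Fin n, pd i (pd i (cv u K)) = cv u (pd i (pd i K)) := by
    intro i
    rw [pd_cv hul hK hKc, pd_cv hul (contDiff_pd i hK) (hasCompactSupport_pd i hKc)]
  simp only [h1]
  unfold cv
  rw [← integral_finsetSum]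
  · simp only [Finset.mul_sum]
  · intro i _
    exact integrable_cv hu hM (contDiff_pd i (contDiff_pd i hK)).continuous
      (hasCompactSupport_pd i (hasCompactSupport_pd i hKc)) x

theorem lap_radial_translate {n : ℕ} {H : ℝ → ℝ} (hH : ContDiff ℝ ∞ H) (x y : E n) :
    lap (fun z : E n => H (‖z‖ ^ 2)) (x - y) = lap (fun y : E n => H (‖x - y‖ ^ 2)) y := by
  have h1 : ∀ t, HasDerivAt H (deriv H t) t := fun t =>
    (hH.differentiable (by simp)).differentiableAt.hasDerivAt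
  have hH' : ContDiff ℝ ∞ (deriv H) := (contDiff_infty_iff_deriv.1 hH).2
  have h2 : ∀ t, HasDerivAt (deriv H) (deriv (deriv H) t) t := fun t =>
    (hH'.differentiable (by simp)).differentiableAt.hasDerivAt
  have h3 := lap_radial (n := n) h1 h2 0 (x - y)
  simp only [zero_sub, norm_neg] at h3
  rw [h3, lap_radial h1 h2 x y]

/-! ### The mollified function -/

/-- `F(η, x) = ∫ u(y) k_η(x - y) dy` -/
noncomputable def Fu {n : ℕ} (g : ℝ → ℝ) (μ : ℝ) (u : E n → ℝ) (η : ℝ) (x : E n) : ℝ :=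
  ∫ y, u y * kk n g μ η (‖x - y‖ ^ 2)

theorem cpt_radial {n : ℕ} {H : ℝ → ℝ} {η : ℝ} (hη : 0 < η) (hH : ∀ t, η ^ 2 ≤ t → H t = 0)
    (x : E n) : HasCompactSupport (fun y : E n => H (‖x - y‖ ^ 2)) := by
  refine HasCompactSupport.intro (isCompact_closedBall x η) fun y hy => ?_
  refine hH _ ?_
  rw [Metric.mem_closedBall, not_le, dist_comm, dist_eq_norm] at hy
  exact pow_le_pow_left₀ hη.le hy.le 2

theorem tsupport_radial {n : ℕ} {H : ℝ → ℝ} {η : ℝ} (hη : 0 < η) (hH : ∀ t, η ^ 2 ≤ t → H t = 0)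
    (x : E n) : tsupport (fun y : E n => H (‖x - y‖ ^ 2)) ⊆ Metric.closedBall x η := by
  refine closure_minimal ?_ Metric.isClosed_closedBall
  intro y hy
  rw [Metric.mem_closedBall, dist_comm, dist_eq_norm]
  by_contra hlt
  rw [not_le] at hlt
  exact hy (hH _ (pow_le_pow_left₀ hη.le hlt.le 2))

theorem hasDerivAt_Fu {n : ℕ} {g : ℝ → ℝ} (hg : ContDiff ℝ ∞ g) (hz : ∀ t, 1 ≤ t → g t = 0)
    {u : E n → ℝ} {M : ℝ} (hu : Measurable u) (hM : ∀ x, |u x| ≤ M) (μ : ℝ) (x : E n) {η : ℝ}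
    (hη : 0 < η) :
    HasDerivAt (fun η => Fu g μ u η x) (∫ y, u y * kk' n g μ η (‖x - y‖ ^ 2)) η := by
  have hul := locInt hu hM
  have hmaps : ContinuousOn (fun p : ℝ × E n => ((p.1, ‖x - p.2‖ ^ 2) : ℝ × ℝ))
      (Icc (η / 2) (2 * η) ×ˢ Metric.closedBall x (2 * η)) := by fun_prop
  have hmt : MapsTo (fun p : ℝ × E n => ((p.1, ‖x - p.2‖ ^ 2) : ℝ × ℝ))
      (Icc (η / 2) (2 * η) ×ˢ Metric.closedBall x (2 * η)) (Ioi 0 ×ˢ univ) := by
    intro p hp
    have := hp.1.1
    exact ⟨show 0 < p.1 by linarith, trivial⟩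
  have key := hasDerivAt_param (m := volume) (w := u) (K := Metric.closedBall x (2 * η))
    (G := fun t y => kk n g μ t (‖x - y‖ ^ 2)) (G' := fun t y => kk' n g μ t (‖x - y‖ ^ 2))
    (a := η / 2) (b := 2 * η) (t₀ := η) (isCompact_closedBall x (2 * η))
    (hul.integrableOn_isCompact (isCompact_closedBall x (2 * η))) (by linarith) (by linarith)
    ((continuousOn_kk hg.continuous μ).comp hmaps hmt)
    ((continuousOn_kk' hg μ).comp hmaps hmt)
    (by
      intro t ht y _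
      exact hasDerivAt_kk_scale hg μ _ (by linarith [ht.1]))
  have hout : ∀ t, 0 < t → t ≤ 2 * η → ∀ y : E n, y ∉ Metric.closedBall x (2 * η) →
      t ^ 2 ≤ ‖x - y‖ ^ 2 := by
    intro t ht ht2 y hy
    rw [Metric.mem_closedBall, not_le, dist_comm, dist_eq_norm] at hy
    exact pow_le_pow_left₀ ht.le (ht2.trans hy.le) 2
  have e1 : ∀ t, 0 < t → t ≤ 2 * η →
      ∫ y in Metric.closedBall x (2 * η), u y * kk n g μ t (‖x - y‖ ^ 2) = Fu g μ u t x := by
    intro t ht ht2
    refine setIntegral_eq_integral_of_forall_compl_eq_zero fun y hy => ?_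
    rw [kk_zero hz μ ht (hout t ht ht2 y hy), mul_zero]
  have e2 : ∫ y in Metric.closedBall x (2 * η), u y * kk' n g μ η (‖x - y‖ ^ 2) =
      ∫ y, u y * kk' n g μ η (‖x - y‖ ^ 2) := by
    refine setIntegral_eq_integral_of_forall_compl_eq_zero fun y hy => ?_
    rw [kk'_zero hg hz μ hη (hout η hη (by linarith) y hy), mul_zero]
  rw [e2] at key
  refine key.congr_of_eventuallyEq ?_
  filter_upwards [Ioo_mem_nhds (show 0 < η from hη) (show η < 2 * η by linarith)] with t ht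
  exact (e1 t ht.1 ht.2.le).symm

section main

variable {n : ℕ} {ψ Ψ : ℝ → ℝ} {Ω : Set (E n)} {u : E n → ℝ} {lam M μ : ℝ}

theorem abs_le_of_weak (hW : Weak Ω u lam M) (x : E n) : |u x| ≤ M := by
  rw [abs_of_nonneg (hW.nonneg x)]
  exact hW.le x

/-- the derivative of `F` in `η` in terms of the test function -/
theorem deriv_formula (hP : Prof ψ Ψ) (hW : Weak Ω u lam M) (hμ : μ ^ 2 = lam) (x : E n) {η : ℝ}
    (hη : 0 < η) :
    (∫ y, u y * kk' n ψ μ η (‖x - y‖ ^ 2)) =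
      (∫ y, u y * lap (fun y : E n => η * kk n Ψ μ η (‖x - y‖ ^ 2)) y) +
        lam * ∫ y, u y * (η * kk n Ψ μ η (‖x - y‖ ^ 2)) := by
  have hHs : ContDiff ℝ ∞ (fun t => η * kk n Ψ μ η t) :=
    contDiff_const.mul (contDiff_kk hP.Psi_smooth μ η)
  have hHz : ∀ t, η ^ 2 ≤ t → η * kk n Ψ μ η t = 0 := by
    intro t ht
    rw [kk_zero hP.Psi_zero μ hη ht, mul_zero]
  have hζc : ContDiff ℝ ∞ (fun y : E n => η * kk n Ψ μ η (‖x - y‖ ^ 2)) := contDiff_radial hHs x
  have hζs : HasCompactSupport (fun y : E n => η * kk n Ψ μ η (‖x - y‖ ^ 2)) :=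
    cpt_radial hη hHz x
  have hM := abs_le_of_weak hW
  have hi1 : Integrable (fun y => u y * (η * kk n Ψ μ η (‖x - y‖ ^ 2))) :=
    integrable_mul_cpt hW.meas hM hζc.continuous hζs
  have hi2 : Integrable (fun y => u y *
      lap (fun y : E n => η * kk n Ψ μ η (‖x - y‖ ^ 2)) y) := by
    refine integrable_mul_cpt hW.meas hM ?_ ?_
    · unfold lap
      exact continuous_finsetSum _ fun i _ => (contDiff_pd i (contDiff_pd i hζc)).continuous
    · unfold lap
      refine HasCompactSupport.intro (isCompact_closedBall x η) fun y hy => ?_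
      refine Finset.sum_eq_zero fun i _ => ?_
      have h1 : tsupport (pd i (pd i (fun y : E n => η * kk n Ψ μ η (‖x - y‖ ^ 2)))) ⊆
          Metric.closedBall x η := by
        refine Subset.trans ?_ (tsupport_radial hη hHz x)
        refine Subset.trans (tsupport_fderiv_apply_subset ℝ (ee i)) ?_
        exact tsupport_fderiv_apply_subset ℝ (ee i)
      exact image_eq_zero_of_notMem_tsupport fun h => hy (h1 h)
  rw [← integral_const_mul, ← integral_add hi2 (hi1.const_mul _)]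
  refine integral_congr_ae (Eventually.of_forall fun y => ?_)
  simp only
  rw [← key_identity hP μ hη x y, hμ]
  ring

theorem deriv_nonneg_Fu (hP : Prof ψ Ψ) (hW : Weak Ω u lam M) (hμ : μ ^ 2 = lam) (x : E n) {η : ℝ}
    (hη : 0 < η) : 0 ≤ ∫ y, u y * kk' n ψ μ η (‖x - y‖ ^ 2) := by
  rw [deriv_formula hP hW hμ x hη]
  have hHs : ContDiff ℝ ∞ (fun t => η * kk n Ψ μ η t) :=
    contDiff_const.mul (contDiff_kk hP.Psi_smooth μ η)
  have hHz : ∀ t, η ^ 2 ≤ t → η * kk n Ψ μ η t = 0 := by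
    intro t ht
    rw [kk_zero hP.Psi_zero μ hη ht, mul_zero]
  have := hW.sub (fun y : E n => η * kk n Ψ μ η (‖x - y‖ ^ 2)) (contDiff_radial hHs x)
    (cpt_radial hη hHz x) (fun y => mul_nonneg hη.le (kk_nonneg hP.Psi_nonneg μ hη _))
  linarith

theorem deriv_zero_Fu (hP : Prof ψ Ψ) (hW : Weak Ω u lam M) (hμ : μ ^ 2 = lam) (x : E n) {η : ℝ}
    (hη : 0 < η) (hb : Metric.closedBall x η ⊆ Ω) :
    ∫ y, u y * kk' n ψ μ η (‖x - y‖ ^ 2) = 0 := by
  rw [deriv_formula hP hW hμ x hη]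
  have hHs : ContDiff ℝ ∞ (fun t => η * kk n Ψ μ η t) :=
    contDiff_const.mul (contDiff_kk hP.Psi_smooth μ η)
  have hHz : ∀ t, η ^ 2 ≤ t → η * kk n Ψ μ η t = 0 := by
    intro t ht
    rw [kk_zero hP.Psi_zero μ hη ht, mul_zero]
  have := hW.weak (fun y : E n => η * kk n Ψ μ η (‖x - y‖ ^ 2)) (contDiff_radial hHs x)
    (cpt_radial hη hHz x) ((tsupport_radial hη hHz x).trans hb)
  linarith

theorem mono_Fu (hP : Prof ψ Ψ) (hW : Weak Ω u lam M) (hμ : μ ^ 2 = lam) (x : E n) :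
    MonotoneOn (fun η => Fu ψ μ u η x) (Ioi 0) := by
  have hd : ∀ η ∈ Ioi (0 : ℝ), HasDerivAt (fun η => Fu ψ μ u η x)
      (∫ y, u y * kk' n ψ μ η (‖x - y‖ ^ 2)) η := fun η hη =>
    hasDerivAt_Fu hP.smooth hP.zero hW.meas (abs_le_of_weak hW) μ x hη
  refine monotoneOn_of_deriv_nonneg (convex_Ioi 0)
    (fun η hη => (hd η hη).continuousAt.continuousWithinAt) ?_ ?_
  · rw [interior_Ioi]
    exact fun η hη => (hd η hη).differentiableAt.differentiableWithinAt
  · rw [interior_Ioi]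
    intro η hη
    rw [(hd η hη).deriv]
    exact deriv_nonneg_Fu hP hW hμ x hη

theorem const_Fu (hP : Prof ψ Ψ) (hW : Weak Ω u lam M) (hμ : μ ^ 2 = lam) (x : E n) {η η' : ℝ}
    (hη : 0 < η) (hle : η ≤ η') (hb : Metric.closedBall x η' ⊆ Ω) :
    Fu ψ μ u η x = Fu ψ μ u η' x := by
  have hd : ∀ t ∈ Ioc (0 : ℝ) η', HasDerivAt (fun η => Fu ψ μ u η x) 0 t := by
    intro t ht
    have h1 := hasDerivAt_Fu hP.smooth hP.zero hW.meas (abs_le_of_weak hW) μ x ht.1
    rwa [deriv_zero_Fu hP hW hμ x ht.1 ((Metric.closedBall_subset_closedBall ht.2).trans hb)] at h1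
  refine le_antisymm ?_ ?_
  · exact mono_Fu hP hW hμ x hη (lt_of_lt_of_le hη hle : 0 < η') hle
  · have ha : AntitoneOn (fun η => Fu ψ μ u η x) (Ioc 0 η') := by
      refine antitoneOn_of_deriv_nonpos (convex_Ioc 0 η')
        (fun t ht => (hd t ht).continuousAt.continuousWithinAt) ?_ ?_
      · rw [interior_Ioc]
        exact fun t ht => (hd t (Ioo_subset_Ioc_self ht)).differentiableAt.differentiableWithinAt
      · rw [interior_Ioc]
        intro t ht
        rw [(hd t (Ioo_subset_Ioc_self ht)).deriv]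
    exact ha ⟨hη, hle⟩ ⟨lt_of_lt_of_le hη hle, le_rfl⟩ hle

theorem contDiff_Fu (hP : Prof ψ Ψ) (hW : Weak Ω u lam M) {η : ℝ} (hη : 0 < η) :
    ContDiff ℝ ∞ (fun x => Fu ψ μ u η x) := by
  have hHs := contDiff_kk (n := n) hP.smooth μ η
  have h1 : ContDiff ℝ ∞ (fun z : E n => kk n ψ μ η (‖z‖ ^ 2)) := by
    have := contDiff_radial hHs (0 : E n)
    simpa only [zero_sub, norm_neg] using this
  have h2 : HasCompactSupport (fun z : E n => kk n ψ μ η (‖z‖ ^ 2)) := by
    have := cpt_radial hη (fun t ht => kk_zero (n := n) hP.zero μ hη ht) (0 : E n)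
    simpa only [zero_sub, norm_neg] using this
  exact contDiff_cv (locInt hW.meas (abs_le_of_weak hW)) h1 h2

theorem lap_Fu (hP : Prof ψ Ψ) (hW : Weak Ω u lam M) {η : ℝ} (hη : 0 < η) (x : E n)
    (hb : Metric.closedBall x η ⊆ Ω) :
    lap (fun x => Fu ψ μ u η x) x = -lam * Fu ψ μ u η x := by
  have hHs := contDiff_kk (n := n) hP.smooth μ η
  have hHz : ∀ t, η ^ 2 ≤ t → kk n ψ μ η t = 0 := fun t ht => kk_zero hP.zero μ hη ht
  have h1 : ContDiff ℝ ∞ (fun z : E n => kk n ψ μ η (‖z‖ ^ 2)) := by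
    have := contDiff_radial hHs (0 : E n)
    simpa only [zero_sub, norm_neg] using this
  have h2 : HasCompactSupport (fun z : E n => kk n ψ μ η (‖z‖ ^ 2)) := by
    have := cpt_radial hη hHz (0 : E n)
    simpa only [zero_sub, norm_neg] using this
  have h3 := lap_cv hW.meas (abs_le_of_weak hW) h1 h2 x
  have h4 : lap (fun x => Fu ψ μ u η x) x = ∫ y, u y *
      lap (fun z : E n => kk n ψ μ η (‖z‖ ^ 2)) (x - y) := h3
  rw [h4]
  simp only [lap_radial_translate hHs]
  exact hW.weak (fun y : E n => kk n ψ μ η (‖x - y‖ ^ 2)) (contDiff_radial hHs x)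
    (cpt_radial hη hHz x) ((tsupport_radial hη hHz x).trans hb)

end main

end Pool.Agent.GS8.Reg
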