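import Pool.Agent.GS8.Reg1C

/-!
# Interior regularity IV: bounds of the kernels, Lebesgue points, the final statement
-/

set_option autoImplicit false

open MeasureTheory Set Filter Topology
open scoped Real ContDiff

namespace Pool.Agent.GS8.Reg

open Pool.Agent.GS8

/-- the (unscaled) bump kernel of a profile -/
noncomputable def rr {n : ℕ} (ψ : ℝ → ℝ) (z : E n) : ℝ := CC ψ 0 (‖z‖ ^ 2)

theorem kk_eq_rr {n : ℕ} (ψ : ℝ → ℝ) (h : ℝ) (z : E n) :
    kk n ψ 0 h (‖z‖ ^ 2) = (h ^ n)⁻¹ * rr ψ (h⁻¹ • z) := by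
  unfold kk rr
  rw [zero_mul, norm_smul, mul_pow, Real.norm_eq_abs, sq_abs, inv_pow, div_eq_inv_mul]

theorem mol_eq {n : ℕ} (ψ : ℝ → ℝ) (u : E n → ℝ) (h : ℝ) (x : E n) :
    mol (rr ψ) u h x = Fu ψ 0 u h x := by
  unfold mol Fu
  simp only [kk_eq_rr]

theorem continuous_rr {n : ℕ} {ψ : ℝ → ℝ} (hψ : Continuous ψ) :
    Continuous (rr ψ : E n → ℝ) := by
  have h1 := comp_cont2 (F := CC ψ) (continuous_CC hψ) (S := (univ : Set (E n)))
    (a := fun _ => 0) (b := fun z => ‖z‖ ^ 2) continuousOn_const (by fun_prop)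
  exact continuousOn_univ.1 h1

theorem rr_supp {n : ℕ} {ψ : ℝ → ℝ} (hz : ∀ t, 1 ≤ t → ψ t = 0) (z : E n) (hn : 1 ≤ ‖z‖) :
    rr ψ z = 0 := CC_zero hz 0 (by nlinarith)

theorem CC_pos {ψ : ℝ → ℝ} (hψ : Continuous ψ) (h0 : ∀ t, 0 ≤ ψ t) (hp : ∀ t, t < 1 → 0 < ψ t)
    {τ : ℝ} (hτ : τ < 1) : 0 < CC ψ 0 τ := by
  unfold CC
  rw [integral_Icc_eq_integral_Ioc, ← intervalIntegral.integral_of_le (by norm_num)]
  have hc : Continuous (fun s : ℝ => Real.cosh (0 * s) * ψ (τ + s ^ 2)) :=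
    (Real.continuous_cosh.comp (by fun_prop)).mul (hψ.comp (by fun_prop))
  refine intervalIntegral.integral_pos (by norm_num) hc.continuousOn ?_ ⟨0, by norm_num, ?_⟩
  · intro s _
    exact mul_nonneg (Real.cosh_pos _).le (h0 _)
  · simp only [mul_zero, Real.cosh_zero, one_mul]
    exact hp _ (by simpa using hτ)

theorem rr_pos {n : ℕ} {ψ : ℝ → ℝ} (hψ : Continuous ψ) (h0 : ∀ t, 0 ≤ ψ t)
    (hp : ∀ t, t < 1 → 0 < ψ t) (z : E n) (hz : ‖z‖ < 1) : 0 < rr ψ z := by
  refine CC_pos hψ h0 hp ?_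
  have := norm_nonneg z
  nlinarith

theorem rr_cpt {n : ℕ} {ψ : ℝ → ℝ} (hz : ∀ t, 1 ≤ t → ψ t = 0) :
    HasCompactSupport (rr ψ : E n → ℝ) := by
  refine HasCompactSupport.intro (isCompact_closedBall 0 1) fun y hy => ?_
  rw [Metric.mem_closedBall, not_le, dist_zero_right] at hy
  exact rr_supp hz y hy.le

/-! ### existence of the profile -/

theorem exists_prof0 : ∃ ψ Ψ : ℝ → ℝ, Prof ψ Ψ := by
  let ψ : ℝ → ℝ := fun t => expNegInvGlue (1 - t)
  have hψs : ContDiff ℝ ∞ ψ := by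
    have h1 : ContDiff ℝ ∞ expNegInvGlue := expNegInvGlue.contDiff
    exact h1.comp (contDiff_const.sub contDiff_id)
  have hψc : Continuous ψ := hψs.continuous
  have hψ0 : ∀ t, 0 ≤ ψ t := fun t => expNegInvGlue.nonneg _
  have hψz : ∀ t, 1 ≤ t → ψ t = 0 := fun t ht => expNegInvGlue.zero_of_nonpos (by linarith)
  let Ψ : ℝ → ℝ := fun t => -(1 / 2) * ∫ s in (1 : ℝ)..t, ψ s
  have hd : ∀ t, HasDerivAt Ψ (-(1 / 2) * ψ t) t := by
    intro t
    exact (intervalIntegral.integral_hasDerivAt_right (hψc.intervalIntegrable _ _)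
      (hψc.stronglyMeasurableAtFilter _ _) hψc.continuousAt).const_mul _
  refine ⟨ψ, Ψ, hψs, hψ0, fun t ht => expNegInvGlue.pos_of_pos (by linarith), hψz, ?_, ?_, ?_, hd⟩
  · rw [contDiff_infty_iff_deriv]
    refine ⟨fun t => (hd t).differentiableAt, ?_⟩
    have : deriv Ψ = fun t => -(1 / 2) * ψ t := by
      funext t; exact (hd t).deriv
    rw [this]
    exact contDiff_const.mul hψs
  · intro t
    rcases le_total t 1 with h | h
    · have h1 : (∫ s in (1 : ℝ)..t, ψ s) = -∫ s in t..(1 : ℝ), ψ s :=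
        intervalIntegral.integral_symm _ _
      have h2 : 0 ≤ ∫ s in t..(1 : ℝ), ψ s := intervalIntegral.integral_nonneg h fun s _ => hψ0 s
      change 0 ≤ -(1 / 2) * ∫ s in (1 : ℝ)..t, ψ s
      rw [h1]
      linarith
    · have h1 : (∫ s in (1 : ℝ)..t, ψ s) = 0 := by
        have : ∀ s ∈ Set.uIcc (1 : ℝ) t, ψ s = (fun _ => (0 : ℝ)) s := by
          intro s hs
          rw [Set.uIcc_of_le h] at hs
          exact hψz s hs.1
        rw [intervalIntegral.integral_congr this]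
        simp
      change 0 ≤ -(1 / 2) * ∫ s in (1 : ℝ)..t, ψ s
      rw [h1]
      simp
  · intro t h
    have h1 : (∫ s in (1 : ℝ)..t, ψ s) = 0 := by
      have : ∀ s ∈ Set.uIcc (1 : ℝ) t, ψ s = (fun _ => (0 : ℝ)) s := by
        intro s hs
        rw [Set.uIcc_of_le h] at hs
        exact hψz s hs.1
      rw [intervalIntegral.integral_congr this]
      simp
    change -(1 / 2) * ∫ s in (1 : ℝ)..t, ψ s = 0
    rw [h1, mul_zero]

theorem CC_smul (g : ℝ → ℝ) (c a τ : ℝ) : CC (fun t => c * g t) a τ = c * CC g a τ := by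
  unfold CC
  rw [← integral_const_mul]
  refine integral_congr_ae (Eventually.of_forall fun s => ?_)
  simp only
  ring

theorem exists_prof (n : ℕ) : ∃ ψ Ψ : ℝ → ℝ, Prof ψ Ψ ∧ ∫ z : E n, rr ψ z = 1 := by
  obtain ⟨ψ, Ψ, hP⟩ := exists_prof0
  have hpos : 0 < ∫ z : E n, rr ψ z := by
    refine (continuous_rr hP.smooth.continuous).integral_pos_of_hasCompactSupport_nonneg_nonzero
      (rr_cpt hP.zero) (fun z => CC_nonneg hP.nonneg _ _) (x := 0) ?_
    exact (rr_pos hP.smooth.continuous hP.nonneg hP.pos 0 (by simp)).ne'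
  set I := ∫ z : E n, rr ψ z with hI
  have hc : 0 < I⁻¹ := inv_pos.2 hpos
  refine ⟨fun t => I⁻¹ * ψ t, fun t => I⁻¹ * Ψ t, ⟨contDiff_const.mul hP.smooth,
    fun t => mul_nonneg hc.le (hP.nonneg t), fun t ht => mul_pos hc (hP.pos t ht),
    fun t ht => by rw [hP.zero t ht, mul_zero], contDiff_const.mul hP.Psi_smooth,
    fun t => mul_nonneg hc.le (hP.Psi_nonneg t), fun t ht => by rw [hP.Psi_zero t ht, mul_zero],
    fun t => ?_⟩, ?_⟩
  · refine ((hP.Psi_deriv t).const_mul I⁻¹).congr_deriv ?_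
    ring
  · have : (fun z : E n => rr (fun t => I⁻¹ * ψ t) z) = fun z : E n => I⁻¹ * rr ψ z := by
      funext z
      exact CC_smul ψ I⁻¹ 0 _
    rw [this, integral_const_mul, ← hI]
    exact inv_mul_cancel₀ hpos.ne'

theorem bumpK_rr {n : ℕ} {ψ Ψ : ℝ → ℝ} (hP : Prof ψ Ψ) (hI : ∫ z : E n, rr ψ z = 1) :
    BumpK (rr ψ : E n → ℝ) where
  cont := continuous_rr hP.smooth.continuous
  nonneg := fun z => CC_nonneg hP.nonneg _ _
  pos := fun z hz => rr_pos hP.smooth.continuous hP.nonneg hP.pos z (by linarith)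
  supp := fun z hz => rr_supp hP.zero z hz
  int := hI

/-- total mass of the scaled kernel -/
theorem integral_kk {n : ℕ} {ψ : ℝ → ℝ} (hI : ∫ z : E n, rr ψ z = 1) {h : ℝ} (hh : 0 < h)
    (x : E n) : ∫ y, kk n ψ 0 h (‖x - y‖ ^ 2) = 1 := by
  simp only [kk_eq_rr]
  rw [integral_sub_left_eq_self (fun z : E n => (h ^ n)⁻¹ * rr ψ (h⁻¹ • z)) volume x,
    integral_const_mul, Measure.integral_comp_smul, hI]
  simp only [finrank_euclideanSpace, Fintype.card_fin, smul_eq_mul, mul_one]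
  rw [abs_of_pos (by positivity), inv_pow, inv_inv, inv_mul_cancel₀ (pow_ne_zero n hh.ne')]

theorem measurable_kk {n : ℕ} {ψ : ℝ → ℝ} (hψ : ContDiff ℝ ∞ ψ) (μ h : ℝ) (x : E n) :
    Continuous (fun y : E n => kk n ψ μ h (‖x - y‖ ^ 2)) :=
  (contDiff_radial (contDiff_kk hψ μ h) x).continuous

section main

variable {n : ℕ} {ψ Ψ : ℝ → ℝ} {Ω : Set (E n)} {u : E n → ℝ} {lam M μ : ℝ}

theorem integrable_kk (hP : Prof ψ Ψ) (hW : Weak Ω u lam M) (μ : ℝ) {h : ℝ} (hh : 0 < h)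
    (x : E n) : Integrable (fun y => u y * kk n ψ μ h (‖x - y‖ ^ 2)) :=
  integrable_mul_cpt hW.meas (abs_le_of_weak hW) (measurable_kk hP.smooth μ h x)
    (cpt_radial hh (fun _ ht => kk_zero hP.zero μ hh ht) x)

theorem Fu_ge (hP : Prof ψ Ψ) (hW : Weak Ω u lam M) (μ : ℝ) {h : ℝ} (hh : 0 < h)
    (x : E n) : Fu ψ 0 u h x ≤ Fu ψ μ u h x := by
  refine integral_mono (integrable_kk hP hW 0 hh x) (integrable_kk hP hW μ hh x) fun y => ?_
  refine mul_le_mul_of_nonneg_left ?_ (hW.nonneg y)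
  unfold kk
  refine mul_le_mul_of_nonneg_left ?_ (by positivity)
  rw [zero_mul]
  exact CC_ge hP.smooth.continuous hP.nonneg _ _

theorem Fu_le (hP : Prof ψ Ψ) (hW : Weak Ω u lam M) (μ : ℝ) {h : ℝ} (hh : 0 < h)
    (x : E n) : Fu ψ μ u h x ≤ Real.cosh (μ * h) * Fu ψ 0 u h x := by
  unfold Fu
  rw [← integral_const_mul]
  refine integral_mono (integrable_kk hP hW μ hh x)
    ((integrable_kk hP hW 0 hh x).const_mul _) fun y => ?_
  have h1 : kk n ψ μ h (‖x - y‖ ^ 2) ≤ Real.cosh (μ * h) * kk n ψ 0 h (‖x - y‖ ^ 2) := by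
    unfold kk
    rw [mul_left_comm, zero_mul]
    refine mul_le_mul_of_nonneg_left ?_ (by positivity)
    exact CC_le hP.smooth.continuous hP.nonneg _ _
  calc u y * kk n ψ μ h (‖x - y‖ ^ 2) ≤ u y * (Real.cosh (μ * h) * kk n ψ 0 h (‖x - y‖ ^ 2)) :=
        mul_le_mul_of_nonneg_left h1 (hW.nonneg y)
    _ = Real.cosh (μ * h) * (u y * kk n ψ 0 h (‖x - y‖ ^ 2)) := by ring

theorem Fu_le_M (hP : Prof ψ Ψ) (hI : ∫ z : E n, rr ψ z = 1) (hW : Weak Ω u lam M) {h : ℝ}
    (hh : 0 < h) (x : E n) : Fu ψ 0 u h x ≤ M := by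
  have h2 : Integrable (fun y : E n => kk n ψ 0 h (‖x - y‖ ^ 2)) :=
    (measurable_kk hP.smooth 0 h x).integrable_of_hasCompactSupport
      (cpt_radial hh (fun _ ht => kk_zero hP.zero 0 hh ht) x)
  have h1 : Fu ψ 0 u h x ≤ ∫ y : E n, M * kk n ψ 0 h (‖x - y‖ ^ 2) := by
    refine integral_mono (integrable_kk hP hW 0 hh x) (h2.const_mul _) fun y => ?_
    exact mul_le_mul_of_nonneg_right (hW.le y) (kk_nonneg hP.nonneg 0 hh _)
  rwa [integral_const_mul, integral_kk hI hh, mul_one] at h1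

theorem tendsto_Fu0 (hP : Prof ψ Ψ) (hI : ∫ z : E n, rr ψ z = 1) (hW : Weak Ω u lam M) :
    ∀ᵐ x, Tendsto (fun h => Fu ψ 0 u h x) (𝓝[>] 0) (𝓝 (u x)) := by
  have hul := locInt hW.meas (abs_le_of_weak hW)
  obtain ⟨B, hB⟩ := (rr_cpt (n := n) hP.zero).exists_bound_of_continuous
    (continuous_rr hP.smooth.continuous)
  filter_upwards [(Besicovitch.vitaliFamily (volume : Measure (E n))).ae_tendsto_average_norm_sub
    hul] with x hx
  have h1 := hx.comp (Besicovitch.tendsto_filterAt volume x)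
  have h2 := tendsto_integral_smul_of_tendsto_average_norm_sub
    (g := fun h y => kk n ψ 0 h (‖x - y‖ ^ 2))
    (B * (volume : Measure (E n)).real (Metric.ball 0 1)) h1 ?_ ?_ ?_ ?_
  · refine h2.congr fun h => ?_
    unfold Fu
    refine integral_congr_ae (Eventually.of_forall fun y => ?_)
    simp only [smul_eq_mul]
    ring
  · exact Eventually.of_forall fun h => hul.integrableOn_isCompact (isCompact_closedBall _ _)
  · refine tendsto_const_nhds.congr' ?_
    filter_upwards [self_mem_nhdsWithin] with h hh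
    exact (integral_kk hI hh x).symm
  · filter_upwards [self_mem_nhdsWithin] with h hh
    intro y hy
    by_contra hny
    rw [Metric.mem_closedBall, not_le, dist_comm, dist_eq_norm] at hny
    exact hy (kk_zero hP.zero 0 hh (pow_le_pow_left₀ (le_of_lt hh) hny.le 2))
  · filter_upwards [self_mem_nhdsWithin] with h hh
    intro y
    have hh' : 0 < h := hh
    have hv : (volume : Measure (E n)).real (Metric.closedBall x h) =
        h ^ n * (volume : Measure (E n)).real (Metric.ball 0 1) := by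
      rw [Measure.real, Measure.addHaar_closedBall volume x hh'.le, ENNReal.toReal_mul,
        ENNReal.toReal_ofReal (by positivity)]
      simp [Measure.real]
    have hv1 : 0 < (volume : Measure (E n)).real (Metric.ball (0 : E n) 1) := by
      refine ENNReal.toReal_pos ?_ measure_ball_lt_top.ne
      exact (Metric.measure_ball_pos volume 0 (by norm_num)).ne'
    rw [hv, kk_eq_rr, abs_mul, abs_of_pos (by positivity : 0 < (h ^ n)⁻¹), ← Real.norm_eq_abs]
    rw [mul_div_mul_right _ _ hv1.ne', div_eq_inv_mul]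
    exact mul_le_mul_of_nonneg_left (hB _) (by positivity)

theorem tendsto_Fu (hP : Prof ψ Ψ) (hI : ∫ z : E n, rr ψ z = 1) (hW : Weak Ω u lam M) (μ : ℝ) :
    ∀ᵐ x, Tendsto (fun h => Fu ψ μ u h x) (𝓝[>] 0) (𝓝 (u x)) := by
  filter_upwards [tendsto_Fu0 hP hI hW] with x hx
  have h1 : Tendsto (fun h : ℝ => Real.cosh (μ * h)) (𝓝[>] 0) (𝓝 1) := by
    have hc : Continuous (fun h : ℝ => Real.cosh (μ * h)) :=
      Real.continuous_cosh.comp (by fun_prop)
    have := (hc.tendsto 0).mono_left (nhdsWithin_le_nhds (s := Ioi (0 : ℝ)))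
    simpa using this
  have h2 := h1.mul hx
  rw [one_mul] at h2
  refine tendsto_of_tendsto_of_tendsto_of_le_of_le' hx h2 ?_ ?_
  · filter_upwards [self_mem_nhdsWithin] with h hh
    exact Fu_ge hP hW μ hh x
  · filter_upwards [self_mem_nhdsWithin] with h hh
    exact Fu_le hP hW μ hh x

theorem lap_congr {f g : E n → ℝ} {x : E n} (h : f =ᶠ[𝓝 x] g) : lap f x = lap g x := by
  unfold lap
  refine Finset.sum_congr rfl fun i _ => ?_
  have h1 : pd i f =ᶠ[𝓝 x] pd i g := by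
    have h2 : fderiv ℝ f =ᶠ[𝓝 x] fderiv ℝ g := h.fderiv
    filter_upwards [h2] with y hy
    unfold pd
    rw [hy]
  unfold pd at h1 ⊢
  rw [h1.fderiv_eq]

theorem cosh_bound {y : ℝ} {A : ℝ} (hy : y ^ 2 / 2 ≤ A) :
    Real.cosh y - 1 ≤ y ^ 2 / 2 * Real.exp A := by
  have h1 := Real.cosh_le_exp_half_sq y
  set t := y ^ 2 / 2 with ht
  have ht0 : 0 ≤ t := by positivity
  have h2 : 1 - t ≤ Real.exp (-t) := Real.one_sub_le_exp_neg t
  have h3 : Real.exp t * (1 - t) ≤ 1 := by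
    calc Real.exp t * (1 - t) ≤ Real.exp t * Real.exp (-t) :=
          mul_le_mul_of_nonneg_left h2 (Real.exp_pos t).le
      _ = 1 := by rw [← Real.exp_add]; simp
  have h4 : t * Real.exp t ≤ t * Real.exp A :=
    mul_le_mul_of_nonneg_left (Real.exp_le_exp.2 hy) ht0
  nlinarith

end main

/-- **Interior regularity.** -/
theorem targetInterior : TargetInterior := by
  intro n Ω u lam M _ hΩ _ _ hW
  obtain ⟨ψ, Ψ, hP, hI⟩ := exists_prof n
  set μ := Real.sqrt lam with hμdef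
  have hμ : μ ^ 2 = lam := Real.sq_sqrt hW.lam_nonneg
  have hμ0 : 0 ≤ μ := Real.sqrt_nonneg _
  have hr : ∀ x : E n, ∃ r : ℝ, 0 < r ∧ (x ∈ Ω → Metric.closedBall x r ⊆ Ω) := by
    intro x
    by_cases hx : x ∈ Ω
    · obtain ⟨r, hr0, hr⟩ := Metric.isOpen_iff.1 hΩ x hx
      refine ⟨r / 2, by positivity, fun _ => ?_⟩
      exact (Metric.closedBall_subset_ball (by linarith)).trans hr
    · exact ⟨1, one_pos, fun h => absurd h hx⟩
  choose r hr0 hrb using hr
  classical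
  let v : E n → ℝ := fun x => if x ∈ Ω then Fu ψ μ u (r x) x else 0
  have hv : ∀ x ∈ Ω, ∀ h, 0 < h → Metric.closedBall x h ⊆ Ω → v x = Fu ψ μ u h x := by
    intro x hx h hh hb
    have h1 : v x = Fu ψ μ u (r x) x := if_pos hx
    rw [h1]
    rcases le_total h (r x) with hle | hle
    · exact (const_Fu hP hW hμ x hh hle (hrb x hx)).symm
    · exact const_Fu hP hW hμ x (hr0 x) hle hb
  have hvz : ∀ x, x ∉ Ω → v x = 0 := fun x hx => if_neg hx
  have hloc : ∀ x ∈ Ω, ∃ s, 0 < s ∧ Metric.closedBall x s ⊆ Ω ∧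
      v =ᶠ[𝓝 x] fun y => Fu ψ μ u s y := by
    intro x hx
    refine ⟨r x / 2, by linarith [hr0 x], (Metric.closedBall_subset_closedBall
      (by linarith [hr0 x])).trans (hrb x hx), ?_⟩
    filter_upwards [Metric.ball_mem_nhds x (show 0 < r x / 2 by linarith [hr0 x])] with y hy
    have hsub : Metric.closedBall y (r x / 2) ⊆ Ω := by
      refine (Metric.closedBall_subset_closedBall' ?_).trans (hrb x hx)
      have := Metric.mem_ball.1 hy
      linarith
    exact hv y (hsub (Metric.mem_closedBall_self (by linarith [hr0 x]))) _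
      (by linarith [hr0 x]) hsub
  have hM0 : 0 ≤ M := (hW.nonneg 0).trans (hW.le 0)
  refine ⟨v, rr ψ, M * (μ ^ 2 / 2 * Real.exp (μ ^ 2 / 2)), bumpK_rr hP hI, ?_, ?_, hvz, ?_, ?_,
    ?_, ?_⟩
  · -- smooth
    intro x hx
    obtain ⟨s, hs, _, he⟩ := hloc x hx
    have h1 : ContDiffAt ℝ 2 (fun y => Fu ψ μ u s y) x :=
      (contDiff_infty.1 (contDiff_Fu hP hW hs) 2).contDiffAt
    exact (h1.congr_of_eventuallyEq he).contDiffWithinAt
  · -- equation
    intro x hx
    obtain ⟨s, hs, hb, he⟩ := hloc x hx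
    rw [lap_congr he, lap_Fu hP hW hs x hb, hv x hx s hs hb]
    ring
  · -- almost everywhere equality
    filter_upwards [tendsto_Fu hP hI hW μ] with x hx
    by_cases hxΩ : x ∈ Ω
    · have h1 : Tendsto (fun h => Fu ψ μ u h x) (𝓝[>] 0) (𝓝 (v x)) := by
        refine tendsto_const_nhds.congr' ?_
        filter_upwards [Ioo_mem_nhdsGT (hr0 x)] with h hh
        exact hv x hxΩ h hh.1 ((Metric.closedBall_subset_closedBall hh.2.le).trans (hrb x hxΩ))
      exact tendsto_nhds_unique h1 hx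
    · rw [hvz x hxΩ, hW.zero x hxΩ]
  · positivity
  · -- upper bound
    intro x hx h hh h1
    rw [mol_eq]
    have h2 : v x ≤ Fu ψ μ u h x := by
      rcases le_total h (r x) with hle | hle
      · rw [hv x hx h hh ((Metric.closedBall_subset_closedBall hle).trans (hrb x hx))]
      · rw [hv x hx (r x) (hr0 x) (hrb x hx)]
        exact mono_Fu hP hW hμ x (hr0 x) hh hle
    have h3 := Fu_le hP hW μ hh x
    have h4 := Fu_le_M hP hI hW hh x
    have h5 : Real.cosh (μ * h) - 1 ≤ (μ * h) ^ 2 / 2 * Real.exp (μ ^ 2 / 2) := by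
      refine cosh_bound ?_
      have : h ^ 2 ≤ 1 := by nlinarith
      have : μ ^ 2 * h ^ 2 ≤ μ ^ 2 * 1 := mul_le_mul_of_nonneg_left this (sq_nonneg μ)
      nlinarith
    have h6 : 0 ≤ Real.cosh (μ * h) - 1 := by linarith [Real.one_le_cosh (μ * h)]
    have h7 : (Real.cosh (μ * h) - 1) * Fu ψ 0 u h x ≤
        ((μ * h) ^ 2 / 2 * Real.exp (μ ^ 2 / 2)) * M := by
      calc (Real.cosh (μ * h) - 1) * Fu ψ 0 u h x ≤ (Real.cosh (μ * h) - 1) * M :=
            mul_le_mul_of_nonneg_left h4 h6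
        _ ≤ ((μ * h) ^ 2 / 2 * Real.exp (μ ^ 2 / 2)) * M := mul_le_mul_of_nonneg_right h5 hM0
    have h8 : M * (μ ^ 2 / 2 * Real.exp (μ ^ 2 / 2)) * h ^ 2 =
        ((μ * h) ^ 2 / 2 * Real.exp (μ ^ 2 / 2)) * M := by ring
    rw [h8]
    linarith
  · -- lower bound
    intro x hxh h hh hb
    rw [mol_eq, hv x hxh h hh hb]
    exact Fu_ge hP hW μ hh x

end Pool.Agent.GS8.Reg
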