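import Pool.Agent.GS8.Defs

/-!
# Interface between the interior regularity part (J3a) and the boundary part (J3b) of `TargetReg`
-/

set_option autoImplicit false

open MeasureTheory Set Filter Topology
open scoped Real ContDiff

namespace Pool.Agent.GS8

/-- Bump kernel on the unit ball. -/
structure BumpK {n : ℕ} (ρ : E n → ℝ) : Prop where
  cont : Continuous ρ
  nonneg : ∀ x, 0 ≤ ρ x
  pos : ∀ x, ‖x‖ < 3 / 4 → 0 < ρ x
  supp : ∀ x, 1 ≤ ‖x‖ → ρ x = 0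
  int : ∫ x, ρ x = 1

/-- Mollification at scale `h`. -/
noncomputable def mol {n : ℕ} (ρ u : E n → ℝ) (h : ℝ) (x : E n) : ℝ :=
  ∫ y, u y * ((h ^ n)⁻¹ * ρ (h⁻¹ • (x - y)))

/-- Output of the interior regularity part. -/
structure Interior {n : ℕ} (Ω : Set (E n)) (u v ρ : E n → ℝ) (lam C : ℝ) : Prop where
  bump : BumpK ρ
  smooth : ContDiffOn ℝ 2 v Ω
  eq : ∀ x ∈ Ω, -(lap v x) = lam * v x
  zero : ∀ x, x ∉ Ω → v x = 0
  ae : v =ᵐ[volume] u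
  C_nonneg : 0 ≤ C
  upper : ∀ x ∈ Ω, ∀ h : ℝ, 0 < h → h ≤ 1 → v x ≤ mol ρ u h x + C * h ^ 2
  lower : ∀ x ∈ Ω, ∀ h : ℝ, 0 < h → Metric.closedBall x h ⊆ Ω → mol ρ u h x ≤ v x

/-- Interior regularity (J3a). -/
def TargetInterior : Prop := ∀ (n : ℕ) (Ω : Set (E n)) (u : E n → ℝ) (lam M : ℝ), 1 ≤ n →
  IsOpen Ω → Convex ℝ Ω → Bornology.IsBounded Ω → Weak Ω u lam M →
  ∃ (v ρ : E n → ℝ) (C : ℝ), Interior Ω u v ρ lam C

end Pool.Agent.GS8
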