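import Pool.Agent.GS8.Reg1Spec

/-!
# JOB J3b: boundary continuity, positivity, log-concavity and symmetry of the ground state
-/

set_option autoImplicit false

open MeasureTheory Set Filter Topology
open scoped Real ContDiff

namespace Pool.Agent.GS8
namespace Reg2

variable {n : ℕ} {Ω : Set (E n)} {u v ρ : E n → ℝ} {lam C M : ℝ}

lemma nonneg_of_ae (ho : IsOpen Ω) {g : E n → ℝ} (hg : ContinuousOn g Ω)
    (h : ∀ᵐ x, 0 ≤ g x) : ∀ x ∈ Ω, 0 ≤ g x := by
  intro x hx
  by_contra hneg
  push Not at hneg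
  have hU : IsOpen (Ω ∩ g ⁻¹' Iio 0) := hg.isOpen_inter_preimage ho isOpen_Iio
  have hd : Dense {x | 0 ≤ g x} := Measure.dense_of_ae h
  obtain ⟨y, ⟨_, hy1⟩, hy2⟩ := hd.inter_open_nonempty _ hU ⟨x, hx, hneg⟩
  exact absurd (show g y < 0 from hy1) (not_lt.2 hy2)

lemma mol_eq (h : ℝ) (hh : 0 < h) (x : E n) :
    mol ρ u h x = ∫ z, u (x - h • z) * ρ z := by
  unfold mol
  rw [← integral_sub_left_eq_self (fun y => u y * ((h ^ n)⁻¹ * ρ (h⁻¹ • (x - y)))) volume x]
  have e1 : ∀ w : E n, u (x - w) * ((h ^ n)⁻¹ * ρ (h⁻¹ • (x - (x - w)))) =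
      (h ^ n)⁻¹ * (u (x - w) * ρ (h⁻¹ • w)) := by
    intro w; rw [sub_sub_cancel]; ring
  simp only [e1]
  rw [integral_const_mul]
  have e2 := Measure.integral_comp_smul (volume : Measure (E n))
    (fun w => u (x - w) * ρ (h⁻¹ • w)) h
  have e3 : Module.finrank ℝ (E n) = n := by simp
  rw [e3, abs_of_nonneg (by positivity : 0 ≤ (h ^ n)⁻¹), smul_eq_mul] at e2
  rw [← e2]
  refine integral_congr_ae ?_
  filter_upwards with z
  rw [smul_smul, inv_mul_cancel₀ hh.ne', one_smul]

lemma mol_congr (hae : v =ᵐ[volume] u) (h : ℝ) (x : E n) : mol ρ u h x = mol ρ v h x := by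
  unfold mol
  refine integral_congr_ae ?_
  filter_upwards [hae] with y hy
  rw [hy]

lemma bumpK_integrable (hb : BumpK ρ) : Integrable ρ volume := by
  refine hb.cont.integrable_of_hasCompactSupport ?_
  refine HasCompactSupport.of_support_subset_isCompact (isCompact_closedBall (0 : E n) 1) ?_
  intro x hx
  rw [mem_closedBall_zero_iff]
  by_contra h
  exact hx (hb.supp x (not_le.1 h).le)

/-- mass of the kernel in a half space -/
noncomputable def c₀ (ρ : E n → ℝ) (f : E n →L[ℝ] ℝ) : ℝ := ∫ z in {z | f z < -(‖f‖ / 2)}, ρ z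

lemma c₀_le (hb : BumpK ρ) (f : E n →L[ℝ] ℝ) : c₀ ρ f ≤ 1 := by
  rw [← hb.int]
  exact setIntegral_le_integral (bumpK_integrable hb) (by filter_upwards with x; exact hb.nonneg x)

lemma c₀_pos (hb : BumpK ρ) (f : E n →L[ℝ] ℝ) (hf : 0 < ‖f‖) : 0 < c₀ ρ f := by
  have hm : MeasurableSet {z | f z < -(‖f‖ / 2)} :=
    (isOpen_lt f.continuous continuous_const).measurableSet
  unfold c₀
  rw [setIntegral_pos_iff_support_of_nonneg_ae (by filter_upwards with x; exact hb.nonneg x)
    (bumpK_integrable hb).integrableOn]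
  have hU : IsOpen ({z | f z < -(‖f‖ / 2)} ∩ Metric.ball 0 (3 / 4)) :=
    (isOpen_lt f.continuous continuous_const).inter Metric.isOpen_ball
  obtain ⟨x, hx1, hx2⟩ := f.exists_lt_apply_of_lt_opNorm (r := 3 / 4 * ‖f‖) (by linarith)
  have hne : ({z | f z < -(‖f‖ / 2)} ∩ Metric.ball 0 (3 / 4)).Nonempty := by
    rw [Real.norm_eq_abs] at hx2
    rcases le_or_gt 0 (f x) with hs | hs
    · refine ⟨(-(7 / 10) : ℝ) • x, ?_, ?_⟩
      · rw [mem_ofPred_eq, map_smul, smul_eq_mul]
        rw [abs_of_nonneg hs] at hx2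
        linarith
      · rw [mem_ball_zero_iff, norm_smul]
        norm_num
        linarith
    · refine ⟨((7 / 10) : ℝ) • x, ?_, ?_⟩
      · rw [mem_ofPred_eq, map_smul, smul_eq_mul]
        rw [abs_of_neg hs] at hx2
        linarith
      · rw [mem_ball_zero_iff, norm_smul]
        norm_num
        linarith
  refine (hU.measure_pos volume hne).trans_le (measure_mono ?_)
  rintro z ⟨hz1, hz2⟩
  exact ⟨(hb.pos z (mem_ball_zero_iff.1 hz2)).ne', hz1⟩

/-- One step of the decay at a boundary point. -/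
lemma mol_le_step (hb : BumpK ρ) (hv0 : ∀ x, 0 ≤ v x) (f : E n →L[ℝ] ℝ) {h A : ℝ} (hA : 0 ≤ A)
    (hh : 0 < h) {x : E n} (h1 : ∀ z, ‖z‖ < 1 → v (x - h • z) ≤ A)
    (h2 : ∀ z, f z < -(‖f‖ / 2) → v (x - h • z) = 0) :
    mol ρ v h x ≤ (1 - c₀ ρ f) * A := by
  have hm : MeasurableSet {z | f z < -(‖f‖ / 2)} :=
    (isOpen_lt f.continuous continuous_const).measurableSet
  rw [mol_eq h hh x]
  have hi : Integrable (fun z => A * ρ z - A * indicator {z | f z < -(‖f‖ / 2)} ρ z) volume :=
    ((bumpK_integrable hb).const_mul A).sub (((bumpK_integrable hb).indicator hm).const_mul A)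
  have e : (1 - c₀ ρ f) * A = ∫ z, (A * ρ z - A * indicator {z | f z < -(‖f‖ / 2)} ρ z) := by
    rw [integral_sub ((bumpK_integrable hb).const_mul A) (((bumpK_integrable hb).indicator hm).const_mul A),
      integral_const_mul, integral_const_mul, hb.int, integral_indicator hm]
    unfold c₀
    ring
  rw [e]
  refine integral_mono_of_nonneg ?_ hi ?_
  · filter_upwards with z
    exact mul_nonneg (hv0 _) (hb.nonneg z)
  · filter_upwards with z
    by_cases hz : z ∈ {z | f z < -(‖f‖ / 2)}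
    · rw [indicator_of_mem hz, h2 z hz, zero_mul, sub_self]
    · rw [indicator_of_notMem hz, mul_zero, sub_zero]
      by_cases hz1 : ‖z‖ < 1
      · exact mul_le_mul_of_nonneg_right (h1 z hz1) (hb.nonneg z)
      · rw [hb.supp z (not_lt.1 hz1), mul_zero, mul_zero]

/-- Decay at a boundary point. -/
lemma boundary (hi : Interior Ω u v ρ lam C) (ho : IsOpen Ω) (hc : Convex ℝ Ω)
    (hne : Ω.Nonempty) (hM : 0 ≤ M) (hv0 : ∀ x, 0 ≤ v x) (hvM : ∀ x, v x ≤ M) {b : E n}
    (hb : b ∉ Ω) {ε : ℝ} (hε : 0 < ε) : ∃ r > 0, ∀ x ∈ Ω, ‖x - b‖ < r → v x ≤ ε := by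
  obtain ⟨f, hf⟩ := geometric_hahn_banach_open_point hc ho hb
  have hfpos : 0 < ‖f‖ := by
    rw [norm_pos_iff]
    rintro rfl
    obtain ⟨a, ha⟩ := hne
    simpa using hf a ha
  set c := c₀ ρ f with hcdef
  have hc0 : 0 < c := c₀_pos hi.bump f hfpos
  have hc1 : c ≤ 1 := c₀_le hi.bump f
  have hC := hi.C_nonneg
  have hmain : ∀ m : ℕ, ∃ r > 0, r ≤ 2 ∧ C * (r / 2) ^ 2 ≤ c * (ε / 2) ∧
      ∀ x ∈ Ω, ‖x - b‖ < r → v x ≤ ε / 2 + (1 - c) ^ m * M := by
    intro m
    induction m with
    | zero =>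
      obtain ⟨r, hr0, hr1⟩ : ∃ r : ℝ, 0 < r ∧ (C + 1) * r ≤ c * (ε / 2) :=
        ⟨c * (ε / 2) / (C + 1), by positivity, by
          rw [mul_div_assoc']
          exact (mul_div_cancel_left₀ _ (by positivity)).le⟩
      refine ⟨min r 2, lt_min hr0 two_pos, min_le_right _ _, ?_, ?_⟩
      · have h1 : min r 2 ≤ r := min_le_left _ _
        have h2 : min r 2 ≤ 2 := min_le_right _ _
        have h3 : 0 < min r 2 := lt_min hr0 two_pos
        have h4 : (min r 2 / 2) ^ 2 ≤ r := by nlinarith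
        have h5 : C * (min r 2 / 2) ^ 2 ≤ C * r := mul_le_mul_of_nonneg_left h4 hC
        nlinarith
      · intro x _ _
        rw [pow_zero, one_mul]
        linarith [hvM x]
    | succ m ih =>
      obtain ⟨r, hr0, hr2, hrC, hr⟩ := ih
      refine ⟨r / 4, by positivity, by linarith, ?_, ?_⟩
      · have h4 : (r / 4 / 2) ^ 2 ≤ (r / 2) ^ 2 := by
          apply pow_le_pow_left₀ (by positivity); linarith
        exact (mul_le_mul_of_nonneg_left h4 hC).trans hrC
      intro x hx hxb
      set A := ε / 2 + (1 - c) ^ m * M with hA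
      have hA0 : 0 ≤ A := by
        have : 0 ≤ (1 - c) ^ m := pow_nonneg (by linarith) m
        positivity
      have hup := hi.upper x hx (r / 2) (by positivity) (by linarith)
      rw [mol_congr hi.ae] at hup
      have hst : mol ρ v (r / 2) x ≤ (1 - c) * A := by
        refine mol_le_step hi.bump hv0 f hA0 (by positivity) ?_ ?_
        · intro z hz
          by_cases hy : x - (r / 2) • z ∈ Ω
          · refine hr _ hy ?_
            have e : x - (r / 2) • z - b = (x - b) - (r / 2) • z := by abel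
            rw [e]
            refine (norm_sub_le _ _).trans_lt ?_
            rw [norm_smul, Real.norm_of_nonneg (by positivity)]
            have : r / 2 * ‖z‖ ≤ r / 2 := mul_le_of_le_one_right (by positivity) hz.le
            linarith
          · rw [hi.zero _ hy]; exact hA0
        · intro z hz
          refine hi.zero _ fun hy => ?_
          have h1 := hf _ hy
          rw [map_sub, map_smul, smul_eq_mul] at h1
          have h2 : |f (x - b)| ≤ ‖f‖ * ‖x - b‖ := f.le_opNorm _
          rw [map_sub] at h2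
          have h3 := (abs_le.1 h2).1
          have h4 : ‖f‖ * ‖x - b‖ ≤ ‖f‖ * (r / 4) := mul_le_mul_of_nonneg_left hxb.le hfpos.le
          have h5 : r / 2 * f z < r / 2 * -(‖f‖ / 2) :=
            mul_lt_mul_of_pos_left hz (by positivity)
          nlinarith
      have : (1 - c) ^ (m + 1) * M = (1 - c) * ((1 - c) ^ m * M) := by ring
      rw [this]
      have e : (1 - c) * A = (1 - c) * (ε / 2) + (1 - c) * ((1 - c) ^ m * M) := by
        rw [hA]; ring
      linarith
  have hlim : Tendsto (fun m : ℕ => (1 - c) ^ m * M) atTop (𝓝 0) := by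
    have := (tendsto_pow_atTop_nhds_zero_of_lt_one (by linarith : 0 ≤ 1 - c)
      (by linarith)).mul_const M
    simpa using this
  obtain ⟨m, hm⟩ := (hlim.eventually (gt_mem_nhds (half_pos hε))).exists
  obtain ⟨r, hr0, _, _, hr⟩ := hmain m
  exact ⟨r, hr0, fun x hx hxb => (hr x hx hxb).trans (by linarith)⟩

/-- Continuous midpoint concave functions are concave. -/
lemma concave_of_midpoint (hc : Convex ℝ Ω) {φ : E n → ℝ}
    (hφ : ContinuousOn φ Ω)
    (hmid : ∀ x ∈ Ω, ∀ y ∈ Ω, (φ x + φ y) / 2 ≤ φ ((1 / 2 : ℝ) • (x + y))) :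
    ConcaveOn ℝ Ω φ := by
  refine ⟨hc, ?_⟩
  intro x hx y hy a b ha hb hab
  -- function on the segment
  let γ : ℝ → E n := fun t => (1 - t) • x + t • y
  have hγ : Continuous γ := by fun_prop
  have hγΩ : ∀ t ∈ Icc (0 : ℝ) 1, γ t ∈ Ω := fun t ht =>
    hc hx hy (by linarith [ht.2]) ht.1 (by ring)
  let g : ℝ → ℝ := fun t => φ (γ t) - ((1 - t) * φ x + t * φ y)
  have hg : ContinuousOn g (Icc 0 1) := by
    refine ContinuousOn.sub (hφ.comp hγ.continuousOn hγΩ) ?_
    fun_prop
  have hg0 : g 0 = 0 := by simp [g, γ]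
  have hg1 : g 1 = 0 := by simp [g, γ]
  have hgm : ∀ s ∈ Icc (0 : ℝ) 1, ∀ t ∈ Icc (0 : ℝ) 1, (g s + g t) / 2 ≤ g ((s + t) / 2) := by
    intro s hs t ht
    have h1 := hmid _ (hγΩ s hs) _ (hγΩ t ht)
    have h2 : (1 / 2 : ℝ) • (γ s + γ t) = γ ((s + t) / 2) := by
      simp only [γ]
      module
    rw [h2] at h1
    simp only [g]
    linarith
  -- minimum
  have key : ∀ t ∈ Icc (0 : ℝ) 1, 0 ≤ g t := by
    obtain ⟨t₁, ht₁, hmin⟩ := isCompact_Icc.exists_isMinOn (nonempty_Icc.2 zero_le_one) hg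
    have hmin' : ∀ t ∈ Icc (0 : ℝ) 1, g t₁ ≤ g t := fun t ht => hmin ht
    by_contra hcon
    push Not at hcon
    obtain ⟨t₂, ht₂, hneg⟩ := hcon
    have hm : g t₁ < 0 := (hmin' t₂ ht₂).trans_lt hneg
    -- smallest minimiser
    let Z : Set ℝ := Icc 0 1 ∩ g ⁻¹' {g t₁}
    have hZc : IsClosed Z := hg.preimage_isClosed_of_isClosed isClosed_Icc isClosed_singleton
    have hZk : IsCompact Z := isCompact_Icc.of_isClosed_subset hZc inter_subset_left
    obtain ⟨t₀, ht₀, hleast⟩ := hZk.exists_isLeast ⟨t₁, ht₁, rfl⟩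
    have ht₀I : t₀ ∈ Icc (0 : ℝ) 1 := ht₀.1
    have hgt₀ : g t₀ = g t₁ := ht₀.2
    have h0 : 0 < t₀ := by
      rcases ht₀I.1.lt_or_eq with h | h
      · exact h
      · rw [← h, hg0] at hgt₀; linarith
    have h1 : t₀ < 1 := by
      rcases ht₀I.2.lt_or_eq with h | h
      · exact h
      · rw [h, hg1] at hgt₀; linarith
    let δ := min t₀ (1 - t₀)
    have hδ : 0 < δ := lt_min h0 (by linarith)
    have hs : t₀ - δ ∈ Icc (0 : ℝ) 1 := by
      have : δ ≤ t₀ := min_le_left _ _
      exact ⟨by linarith, by linarith⟩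
    have ht : t₀ + δ ∈ Icc (0 : ℝ) 1 := by
      have : δ ≤ 1 - t₀ := min_le_right _ _
      exact ⟨by linarith, by linarith⟩
    have h2 := hgm _ hs _ ht
    rw [show (t₀ - δ + (t₀ + δ)) / 2 = t₀ by ring, hgt₀] at h2
    have h3 : g t₁ < g (t₀ - δ) := by
      refine lt_of_le_of_ne (hmin' _ hs) fun he => ?_
      have : t₀ ≤ t₀ - δ := hleast ⟨hs, he.symm⟩
      linarith
    have h4 := hmin' _ ht
    linarith
  have hb1 : b ∈ Icc (0 : ℝ) 1 := ⟨hb, by linarith⟩
  have h := key b hb1
  have ha1 : 1 - b = a := by linarith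
  simp only [g, γ, ha1] at h
  simp only [smul_eq_mul]
  linarith

end Reg2

open Reg2 in
/-- Boundary regularity, positivity, log-concavity and symmetry. -/
theorem targetReg_of (hI : TargetInterior) : TargetReg := by
  intro n Ω u lam M hn ho hc hbd hw
  obtain ⟨v, ρ, C, hi⟩ := hI n Ω u lam M hn ho hc hbd hw
  have hM : 0 ≤ M := (hw.nonneg 0).trans (hw.le 0)
  have hcont : ContinuousOn v Ω := hi.smooth.continuousOn
  have hv0 : ∀ x, 0 ≤ v x := by
    intro x
    by_cases hx : x ∈ Ω
    · refine nonneg_of_ae ho hcont ?_ x hx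
      filter_upwards [hi.ae] with y hy
      rw [hy]; exact hw.nonneg y
    · rw [hi.zero x hx]
  have hvM : ∀ x, v x ≤ M := by
    intro x
    by_cases hx : x ∈ Ω
    · have := nonneg_of_ae ho (g := fun x => M - v x) (continuousOn_const.sub hcont) (by
        filter_upwards [hi.ae] with y hy
        rw [hy]; linarith [hw.le y]) x hx
      linarith
    · rw [hi.zero x hx]; exact hM
  have hne : Ω.Nonempty := by
    by_contra h
    rw [not_nonempty_iff_eq_empty] at h
    have h1 : ∀ x, u x = 0 := fun x => hw.zero x (by rw [h]; exact notMem_empty x)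
    have h2 := hw.norm
    simp [h1] at h2
  -- continuity
  have hvc : Continuous v := by
    rw [continuous_iff_continuousAt]
    intro x
    by_cases hx : x ∈ Ω
    · exact hcont.continuousAt (ho.mem_nhds hx)
    · rw [Metric.continuousAt_iff]
      intro ε hε
      obtain ⟨r, hr, hb⟩ := boundary hi ho hc hne hM hv0 hvM hx (half_pos hε)
      refine ⟨r, hr, fun {y} hy => ?_⟩
      rw [hi.zero x hx, Real.dist_eq, sub_zero, abs_of_nonneg (hv0 y)]
      by_cases hyΩ : y ∈ Ω
      · rw [dist_eq_norm] at hy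
        linarith [hb y hyΩ hy]
      · rw [hi.zero y hyΩ]; exact hε
  -- positivity
  have hpos : ∀ x ∈ Ω, 0 < v x := by
    have hZo : IsOpen {x | x ∈ Ω ∧ v x = 0} := by
      rw [Metric.isOpen_iff]
      rintro x ⟨hx, hvx⟩
      obtain ⟨δ, hδ, hball⟩ := Metric.isOpen_iff.1 ho x hx
      set h := δ / 2 with hh
      have hh0 : 0 < h := half_pos hδ
      have hcb : Metric.closedBall x h ⊆ Ω :=
        (Metric.closedBall_subset_ball (by linarith)).trans hball
      have hlow := hi.lower x hx h hh0 hcb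
      rw [mol_congr hi.ae, mol_eq h hh0, hvx] at hlow
      have hnn : ∀ z, 0 ≤ v (x - h • z) * ρ z := fun z => mul_nonneg (hv0 _) (hi.bump.nonneg z)
      have hcz : Continuous (fun z => v (x - h • z)) :=
        hvc.comp (continuous_const.sub (continuous_const_smul h))
      have hint : Integrable (fun z => v (x - h • z) * ρ z) volume := by
        refine ((bumpK_integrable hi.bump).const_mul M).mono'
          ((hcz.mul hi.bump.cont).aestronglyMeasurable) ?_
        filter_upwards with z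
        rw [Real.norm_of_nonneg (hnn z)]
        exact mul_le_mul_of_nonneg_right (hvM _) (hi.bump.nonneg z)
      have hz0 : ∫ z, v (x - h • z) * ρ z = 0 := le_antisymm hlow (integral_nonneg hnn)
      rw [integral_eq_zero_iff_of_nonneg hnn hint] at hz0
      have hz1 : (fun z => v (x - h • z) * ρ z) = 0 :=
        ((hcz.mul hi.bump.cont).ae_eq_iff_eq volume continuous_zero).1 hz0
      refine ⟨3 / 4 * h, by positivity, ?_⟩
      intro y hy
      rw [Metric.mem_ball, dist_eq_norm] at hy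
      have hyb : y ∈ Ω := hcb (by
        rw [Metric.mem_closedBall, dist_eq_norm]; linarith)
      refine ⟨hyb, ?_⟩
      have h1 := congrFun hz1 (h⁻¹ • (x - y))
      simp only [smul_smul, mul_inv_cancel₀ hh0.ne', one_smul, Pi.zero_apply,
        sub_sub_cancel] at h1
      rcases mul_eq_zero.1 h1 with h2 | h2
      · exact h2
      · exfalso
        refine (hi.bump.pos (h⁻¹ • (x - y)) ?_).ne' h2
        rw [norm_smul, Real.norm_of_nonneg (by positivity), norm_sub_rev, inv_mul_lt_iff₀ hh0]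
        linarith
    have hWo : IsOpen (Ω ∩ v ⁻¹' {0}ᶜ) := ho.inter (isOpen_compl_singleton.preimage hvc)
    intro x hx
    refine lt_of_le_of_ne (hv0 x) fun hvx => ?_
    have hall : ∀ y ∈ Ω, v y = 0 := by
      by_contra hcon
      push Not at hcon
      obtain ⟨y, hy, hvy⟩ := hcon
      have hpc := hc.isPreconnected
      obtain ⟨z, hz, hz1, hz2⟩ := hpc _ _ hZo hWo
        (fun w hw => by
          by_cases h : v w = 0
          · exact Or.inl ⟨hw, h⟩
          · exact Or.inr ⟨hw, h⟩)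
        ⟨x, hx, hx, hvx.symm⟩ ⟨y, hy, hy, hvy⟩
      exact hz2.2 hz1.2
    have hvz : ∀ y, v y = 0 := fun y => by
      by_cases hy : y ∈ Ω
      · exact hall y hy
      · exact hi.zero y hy
    have h2 := hw.norm
    have h3 : ∫ x, u x ^ 2 = 0 := by
      rw [integral_eq_zero_of_ae]
      filter_upwards [hi.ae] with y hy
      rw [← hy, hvz y]; simp
    rw [h3] at h2
    exact zero_ne_one h2
  obtain ⟨F, hF, hFmid, hFsym⟩ := hw.full
  have hFae : ∀ᵐ x, x ∈ F := by
    rw [ae_iff]; exact hF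
  have hGae : ∀ᵐ x, x ∈ F ∧ v x = u x := by
    filter_upwards [hFae, hi.ae] with x h1 h2 using ⟨h1, h2⟩
  -- midpoint inequality
  have hmid : ∀ x y : E n, v x * v y ≤ v ((1 / 2 : ℝ) • (x + y)) ^ 2 := by
    intro x y
    have htr : ∀ w : E n, ∀ᵐ z, (w + z ∈ F ∧ v (w + z) = u (w + z)) := by
      intro w
      exact (measurePreserving_add_left (volume : Measure (E n)) w).quasiMeasurePreserving.ae hGae
    have hD : Dense {z : E n | v (x + z) * v (y + z) ≤
        v ((1 / 2 : ℝ) • (x + y) + z) ^ 2} := by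
      refine Measure.dense_of_ae (μ := volume) ?_
      filter_upwards [htr x, htr y, htr ((1 / 2 : ℝ) • (x + y))] with z h1 h2 h3
      have e : (1 / 2 : ℝ) • (x + z + (y + z)) = (1 / 2 : ℝ) • (x + y) + z := by module
      have h4 := hFmid _ h1.1 _ h2.1 (by rw [e]; exact h3.1)
      rw [e] at h4
      rw [h1.2, h2.2, h3.2]
      exact h4
    have hcl : IsClosed {z : E n | v (x + z) * v (y + z) ≤
        v ((1 / 2 : ℝ) • (x + y) + z) ^ 2} := by
      refine isClosed_le ?_ ?_
      · exact (hvc.comp (continuous_const.add continuous_id)).mul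
          (hvc.comp (continuous_const.add continuous_id))
      · exact (hvc.comp (continuous_const.add continuous_id)).pow 2
    have h0 : (0 : E n) ∈ {z : E n | v (x + z) * v (y + z) ≤
        v ((1 / 2 : ℝ) • (x + y) + z) ^ 2} := by
      rw [← hcl.closure_eq]; exact hD 0
    simpa using h0
  refine ⟨v, ⟨hvc, hi.smooth, hi.zero, hpos, hi.eq, ?_, ?_⟩⟩
  · refine concave_of_midpoint hc ?_ ?_
    · exact ContinuousOn.log hcont fun x hx => (hpos x hx).ne'
    · intro x hx y hy
      have hm : (1 / 2 : ℝ) • (x + y) ∈ Ω := by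
        have := hc hx hy (by norm_num : (0 : ℝ) ≤ 1 / 2) (by norm_num : (0 : ℝ) ≤ 1 / 2)
          (by norm_num)
        rwa [← smul_add] at this
      have h1 := Real.log_le_log (mul_pos (hpos x hx) (hpos y hy)) (hmid x y)
      rw [Real.log_mul (hpos x hx).ne' (hpos y hy).ne', Real.log_pow] at h1
      push_cast at h1
      linarith
  · intro σ hσ
    have hmp : MeasurePreserving σ (volume : Measure (E n)) volume := σ.measurePreserving
    have h1 : (fun x => v (σ x)) =ᵐ[volume] v := by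
      filter_upwards [hGae, hmp.quasiMeasurePreserving.ae hGae] with x hx hx2
      rw [hx2.2, hx.2]
      exact hFsym σ hσ x hx.1 hx2.1
    have h2 : (fun x => v (σ x)) = v :=
      ((hvc.comp σ.continuous).ae_eq_iff_eq volume hvc).1 h1
    exact fun x => congrFun h2 x

end Pool.Agent.GS8
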