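import Mathlib
import Pool.Agent.GS8.Defs

/-!
# MP_dd30b7_an, JOB 8, part A: truncation, boxes, directional derivatives
-/

set_option autoImplicit false

open MeasureTheory Set Filter Topology
open scoped Real ContDiff

namespace Pool.Agent.GS8.Up

/-! ### the truncation `FF` -/

theorem FF'_eq {η : ℝ} (hη : 0 < η) (s : ℝ) : FF' η s = 1 - η ^ 2 / (max s η) ^ 2 := by
  unfold FF'
  split_ifs with h
  · rw [max_eq_right h]; field_simp; simp
  · rw [max_eq_left (le_of_lt (not_le.mp h))]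

theorem FF'_cont {η : ℝ} (hη : 0 < η) : Continuous (FF' η) := by
  have h : FF' η = fun s => 1 - η ^ 2 / (max s η) ^ 2 := funext (FF'_eq hη)
  rw [h]
  refine continuous_const.sub (continuous_const.div ((continuous_id.max continuous_const).pow 2) ?_)
  intro s
  have : 0 < max s η := lt_max_of_lt_right hη
  positivity

theorem FF'_nonneg {η : ℝ} (hη : 0 < η) (s : ℝ) : 0 ≤ FF' η s := by
  unfold FF'
  split_ifs with h
  · exact le_refl _
  · push Not at h
    have hs : 0 < s := lt_trans hη h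
    have : η ^ 2 / s ^ 2 ≤ 1 := by
      rw [div_le_one (by positivity)]
      nlinarith
    linarith

theorem FF'_le_one {η : ℝ} (hη : 0 < η) (s : ℝ) : FF' η s ≤ 1 := by
  rw [FF'_eq hη]
  have : 0 ≤ η ^ 2 / (max s η) ^ 2 := by positivity
  linarith

theorem FF_hasDerivAt {η : ℝ} (hη : 0 < η) (s : ℝ) : HasDerivAt (FF η) (FF' η s) s := by
  have key : ∀ x : ℝ, 0 < x → HasDerivAt (fun s : ℝ => (s - η) ^ 2 / s) (1 - η ^ 2 / x ^ 2) x := by
    intro x hx
    have h1 : HasDerivAt (fun s : ℝ => (s - η) ^ 2) (2 * (x - η)) x := by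
      have := ((hasDerivAt_id x).sub_const η).fun_pow 2
      simpa using this
    have h2 := h1.div (hasDerivAt_id x) hx.ne'
    refine h2.congr_deriv ?_
    simp only [id]
    field_simp
    ring
  rcases lt_trichotomy s η with h | h | h
  · have : FF η =ᶠ[𝓝 s] fun _ => 0 := by
      filter_upwards [Iio_mem_nhds h] with x hx
      unfold FF
      rw [if_pos (le_of_lt hx)]
    rw [show FF' η s = 0 by unfold FF'; rw [if_pos h.le]]
    exact (hasDerivAt_const s (0 : ℝ)).congr_of_eventuallyEq this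
  · subst h
    rw [show FF' s s = 0 by unfold FF'; rw [if_pos le_rfl]]
    have h1 : HasDerivWithinAt (FF s) 0 (Iic s) s := by
      refine (hasDerivWithinAt_const s (Iic s) (0 : ℝ)).congr ?_ ?_
      · intro x hx; unfold FF; rw [if_pos (show x ≤ s from hx)]
      · unfold FF; rw [if_pos le_rfl]
    have h2 : HasDerivWithinAt (FF s) 0 (Ici s) s := by
      have := (key s hη).hasDerivWithinAt (s := Ici s)
      have e0 : (1 : ℝ) - s ^ 2 / s ^ 2 = 0 := by field_simp; simp
      rw [e0] at this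
      refine this.congr ?_ ?_
      · intro x hx
        unfold FF
        rcases eq_or_lt_of_le (show s ≤ x from hx) with e | e
        · rw [if_pos e.symm.le, ← e]; simp
        · rw [if_neg (not_le.mpr e)]
      · unfold FF; rw [if_pos le_rfl]; simp
    have h3 := h1.union h2
    rw [Iic_union_Ici] at h3
    exact hasDerivWithinAt_univ.mp h3
  · have hs : 0 < s := lt_trans hη h
    rw [show FF' η s = 1 - η ^ 2 / s ^ 2 by unfold FF'; rw [if_neg (not_le.mpr h)]]
    refine (key s hs).congr_of_eventuallyEq ?_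
    filter_upwards [Ioi_mem_nhds h] with x hx
    unfold FF
    rw [if_neg (not_le.mpr hx)]

theorem FF_contDiff {η : ℝ} (hη : 0 < η) : ContDiff ℝ 1 (FF η) := by
  rw [contDiff_one_iff_deriv]
  refine ⟨fun s => (FF_hasDerivAt hη s).differentiableAt, ?_⟩
  have : deriv (FF η) = FF' η := funext fun s => (FF_hasDerivAt hη s).deriv
  rw [this]
  exact FF'_cont hη

theorem FF_nonneg {η : ℝ} (hη : 0 < η) (s : ℝ) : 0 ≤ FF η s := by
  unfold FF
  split_ifs with h
  · exact le_refl _
  · push Not at h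
    have : 0 < s := lt_trans hη h
    positivity

theorem FF_le {η : ℝ} (hη : 0 < η) {s : ℝ} (hs : 0 ≤ s) : FF η s ≤ s := by
  unfold FF
  split_ifs with h
  · exact hs
  · push Not at h
    have h0 : 0 < s := lt_trans hη h
    rw [div_le_iff₀ h0]
    nlinarith

theorem FF_ge {η : ℝ} (hη : 0 < η) (s : ℝ) : s - 2 * η ≤ FF η s := by
  unfold FF
  split_ifs with h
  · linarith
  · push Not at h
    have h0 : 0 < s := lt_trans hη h
    rw [le_div_iff₀ h0]
    nlinarith

/-- `s F(s) ≤ F(s)² + 2 η` for `0 ≤ s ≤ 1` -/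
theorem FF_mul_le {η : ℝ} (hη : 0 < η) {s : ℝ} (hs : 0 ≤ s) (hs1 : s ≤ 1) :
    FF η s * s ≤ FF η s ^ 2 + 2 * η := by
  have h1 := FF_nonneg hη s
  have h2 := FF_le hη hs
  have h3 := FF_ge hη s
  nlinarith

theorem FF_zero_of_le {η s : ℝ} (h : s ≤ η) : FF η s = 0 := by
  unfold FF; rw [if_pos h]

theorem FF'_zero_of_le {η s : ℝ} (h : s ≤ η) : FF' η s = 0 := by
  unfold FF'; rw [if_pos h]

/-- truncation of a function which is smooth on an open set `D` and small near the complement -/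
theorem trunc_contDiff {X : Type*} [NormedAddCommGroup X] [NormedSpace ℝ X] {D U : Set X}
    [DecidablePred (· ∈ D)]
    {Ψ : X → ℝ} {η : ℝ} (hη : 0 < η) (hD : IsOpen D) (hU : IsOpen U) (hDU : ∀ p, p ∈ D ∨ p ∈ U)
    (hΨ : ContDiffOn ℝ 1 Ψ D) (hle : ∀ p ∈ D, p ∈ U → Ψ p ≤ η) :
    ContDiff ℝ 1 (fun p => if p ∈ D then FF η (Ψ p) else 0) := by
  rw [contDiff_iff_contDiffAt]
  intro p
  rcases hDU p with h | h
  · have h1 : ContDiffAt ℝ 1 (fun p => FF η (Ψ p)) p :=
      (FF_contDiff hη).contDiffAt.comp p (hΨ.contDiffAt (hD.mem_nhds h))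
    refine h1.congr_of_eventuallyEq ?_
    filter_upwards [hD.mem_nhds h] with x hx
    rw [if_pos hx]
  · have h1 : ContDiffAt ℝ 1 (fun _ : X => (0 : ℝ)) p := contDiffAt_const
    refine h1.congr_of_eventuallyEq ?_
    filter_upwards [hU.mem_nhds h] with x hx
    split_ifs with h2
    · exact FF_zero_of_le (hle x h2 hx)
    · rfl

/-! ### boxes -/

def box (l : Fin 8 → ℝ) : Set (E 8) := {p | ∀ i, |p i| ≤ l i}

theorem box_eq (l : Fin 8 → ℝ) :
    box l = (WithLp.ofLp : E 8 → (Fin 8 → ℝ)) ⁻¹' (Icc (fun i => -l i) l) := by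
  ext p
  simp only [box, mem_ofPred_eq, mem_preimage, mem_Icc, abs_le, Pi.le_def]
  exact ⟨fun h => ⟨fun i => (h i).1, fun i => (h i).2⟩, fun h i => ⟨h.1 i, h.2 i⟩⟩

theorem box_compact (l : Fin 8 → ℝ) : IsCompact (box l) := by
  rw [box_eq]
  have h := (EuclideanSpace.equiv (Fin 8) ℝ).toHomeomorph.isCompact_preimage
    (s := Icc (fun i => -l i) l)
  exact h.mpr isCompact_Icc

theorem box_measurable (l : Fin 8 → ℝ) : MeasurableSet (box l) :=
  (box_compact l).isClosed.measurableSet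

theorem box_vol {l : Fin 8 → ℝ} (hl : ∀ i, 0 ≤ l i) :
    volume.real (box l) = ∏ i, (2 * l i) := by
  rw [box_eq, Measure.real,
    (PiLp.volume_preserving_ofLp (Fin 8)).measure_preimage measurableSet_Icc.nullMeasurableSet,
    Real.volume_Icc_pi_toReal (fun i => by have := hl i; simp only; linarith)]
  refine Finset.prod_congr rfl fun i _ => ?_
  ring

theorem box_vol_lt (l : Fin 8 → ℝ) : volume (box l) < ⊤ := (box_compact l).measure_lt_top

def hw (a b e : ℝ) (i : Fin 8) : ℝ := if i = 0 then a else if i = 7 then e else b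

theorem hw_vol {a b e : ℝ} (ha : 0 ≤ a) (hb : 0 ≤ b) (he : 0 ≤ e) :
    volume.real (box (hw a b e)) = (2 * a) * (2 * b) ^ 6 * (2 * e) := by
  have h0 : hw a b e 0 = a := rfl
  have h1 : hw a b e 1 = b := rfl
  have h2 : hw a b e 2 = b := rfl
  have h3 : hw a b e 3 = b := rfl
  have h4 : hw a b e 4 = b := rfl
  have h5 : hw a b e 5 = b := rfl
  have h6 : hw a b e 6 = b := rfl
  have h7 : hw a b e 7 = e := rfl
  rw [box_vol]
  · rw [Fin.prod_univ_eight, h0, h1, h2, h3, h4, h5, h6, h7]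
    ring
  · intro i
    unfold hw
    split_ifs <;> assumption

/-! ### directional derivatives -/

theorem pd_of {i : Fin 8} {F : E 8 → ℝ} {F' : E 8 →L[ℝ] ℝ} {p : E 8} (h : HasFDerivAt F F' p) :
    pd i F p = F' (ee i) := by
  unfold pd; rw [h.fderiv]

theorem pd_congr {i : Fin 8} {F G : E 8 → ℝ} {p : E 8} (h : F =ᶠ[𝓝 p] G) :
    pd i F p = pd i G p := by
  unfold pd; rw [h.fderiv_eq]

theorem pd_zero_of {i : Fin 8} {F : E 8 → ℝ} {p : E 8} (h : F =ᶠ[𝓝 p] fun _ => 0) :
    pd i F p = 0 := by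
  rw [pd_congr h]; simp [pd]

theorem pd_mul {i : Fin 8} {F G : E 8 → ℝ} {p : E 8} (hF : DifferentiableAt ℝ F p)
    (hG : DifferentiableAt ℝ G p) :
    pd i (fun x => F x * G x) p = pd i F p * G p + F p * pd i G p := by
  have h := pd_of (i := i) (hF.hasFDerivAt.mul hG.hasFDerivAt)
  have e : pd i (fun x => F x * G x) p = pd i (F * G) p := rfl
  rw [e, h]
  simp [pd]
  ring

theorem pd_comp {i : Fin 8} {T : ℝ → ℝ} {T' : ℝ} {G : E 8 → ℝ} {p : E 8}
    (hT : HasDerivAt T T' (G p)) (hG : DifferentiableAt ℝ G p) :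
    pd i (fun x => T (G x)) p = T' * pd i G p := by
  have h := pd_of (i := i) (hT.comp_hasFDerivAt p hG.hasFDerivAt)
  have e : pd i (fun x => T (G x)) p = pd i (T ∘ G) p := rfl
  rw [e, h]
  simp [pd]

theorem pd_line {i : Fin 8} {F : E 8 → ℝ} {p : E 8} {d : ℝ} (hF : DifferentiableAt ℝ F p)
    (h : HasDerivAt (fun t : ℝ => F (p + t • ee i)) d 0) : pd i F p = d := by
  have h1 : HasLineDerivAt ℝ F (fderiv ℝ F p (ee i)) p (ee i) := hF.hasFDerivAt.hasLineDerivAt _
  exact HasDerivAt.unique h1 h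

theorem pd_coord (i j : Fin 8) (p : E 8) : pd i (fun x : E 8 => x j) p = if i = j then 1 else 0 := by
  refine pd_line (by fun_prop) ?_
  have : HasDerivAt (fun t : ℝ => p j + t * (if i = j then 1 else 0)) (if i = j then 1 else 0) 0 := by
    have := ((hasDerivAt_id (0 : ℝ)).mul_const (if i = j then (1 : ℝ) else 0)).const_add (p j)
    simpa using this
  refine this.congr_of_eventuallyEq (Eventually.of_forall fun t => ?_)
  by_cases hij : i = j
  · subst hij; simp
  · simp [hij, Ne.symm hij]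

theorem integral_pd_zero {i : Fin 8} {F : E 8 → ℝ} (hF : ContDiff ℝ 1 F) (hc : HasCompactSupport F) :
    ∫ x, pd i F x = 0 := by
  have hcont : Continuous (fun x => (fderiv ℝ F x) (ee i)) :=
    (hF.continuous_fderiv (by norm_num)).clm_apply continuous_const
  have hcs : HasCompactSupport (fun x => (fderiv ℝ F x) (ee i)) :=
    (hc.fderiv (𝕜 := ℝ)).comp_left (g := fun L : E 8 →L[ℝ] ℝ => L (ee i)) (by simp)
  have h := integral_mul_fderiv_eq_neg_fderiv_mul_of_integrable (μ := (volume : Measure (E 8)))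
    (f := fun _ : E 8 => (1 : ℝ)) (g := F) (v := ee i) ?_ ?_ ?_ ?_ ?_
  · simpa [pd] using h
  · simp
  · simpa using hcont.integrable_of_hasCompactSupport hcs
  · simpa using hF.continuous.integrable_of_hasCompactSupport hc
  · intro x _; exact differentiableAt_const _
  · intro x _; exact (hF.differentiable (by norm_num)) x

theorem pd_continuous {i : Fin 8} {F : E 8 → ℝ} (hF : ContDiff ℝ 1 F) : Continuous (pd i F) :=
  (hF.continuous_fderiv (by norm_num)).clm_apply continuous_const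

theorem pd_compact {i : Fin 8} {F : E 8 → ℝ} (hc : HasCompactSupport F) :
    HasCompactSupport (pd i F) :=
  (hc.fderiv (𝕜 := ℝ)).comp_left (g := fun L : E 8 →L[ℝ] ℝ => L (ee i)) (by simp)

end Pool.Agent.GS8.Up
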