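import Mathlib
import Pool.Agent.GS8.Defs
import Pool.Agent.GS8.UpperA

/-!
# MP_dd30b7_an, JOB 8, part B: the factors of the trial function
-/

set_option autoImplicit false

open MeasureTheory Set Filter Topology
open scoped Real ContDiff

namespace Pool.Agent.GS8.Up

/-! ### the factor in the angle variable -/

noncomputable def Tr (η θ : ℝ) : ℝ :=
  if θ ∈ {t : ℝ | |t| < π / 2} then FF η (Real.cos θ) else 0

noncomputable def Tr' (η θ : ℝ) : ℝ :=
  if θ ∈ {t : ℝ | |t| < π / 2} then -(FF' η (Real.cos θ) * Real.sin θ) else 0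

theorem isOpen_D : IsOpen {t : ℝ | |t| < π / 2} := isOpen_lt (by fun_prop) (by fun_prop)

theorem isOpen_U (η : ℝ) : IsOpen {t : ℝ | Real.cos t < η ∨ π / 2 < |t|} := by
  have h1 : IsOpen {t : ℝ | Real.cos t < η} := isOpen_lt (by fun_prop) (by fun_prop)
  have h2 : IsOpen {t : ℝ | π / 2 < |t|} := isOpen_lt (by fun_prop) (by fun_prop)
  exact h1.union h2

theorem cover_T {η : ℝ} (hη : 0 < η) (t : ℝ) :
    t ∈ {t : ℝ | |t| < π / 2} ∨ t ∈ {t : ℝ | Real.cos t < η ∨ π / 2 < |t|} := by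
  rcases lt_trichotomy |t| (π / 2) with h | h | h
  · exact Or.inl h
  · refine Or.inr (Or.inl ?_)
    rw [← Real.cos_abs, h, Real.cos_pi_div_two]; exact hη
  · exact Or.inr (Or.inr h)

theorem Tr_contDiff {η : ℝ} (hη : 0 < η) : ContDiff ℝ 1 (Tr η) := by
  refine trunc_contDiff (D := {t : ℝ | |t| < π / 2}) hη isOpen_D (isOpen_U η) (cover_T hη)
    Real.contDiff_cos.contDiffOn ?_
  intro t ht hU
  rcases hU with h | h
  · exact h.le
  · exact absurd (show |t| < π / 2 from ht) (not_lt.mpr h.le)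

theorem Tr_zero {η t : ℝ} (h : t ∈ {t : ℝ | Real.cos t < η ∨ π / 2 < |t|}) : Tr η t = 0 := by
  unfold Tr
  split_ifs with h1
  · rcases h with h | h
    · exact FF_zero_of_le h.le
    · exact absurd (show |t| < π / 2 from h1) (not_lt.mpr h.le)
  · rfl

theorem Tr_hasDerivAt {η : ℝ} (hη : 0 < η) (t : ℝ) : HasDerivAt (Tr η) (Tr' η t) t := by
  by_cases h : t ∈ {t : ℝ | |t| < π / 2}
  · have h1 : HasDerivAt (fun t => FF η (Real.cos t)) (FF' η (Real.cos t) * (-Real.sin t)) t :=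
      (FF_hasDerivAt hη (Real.cos t)).comp t (Real.hasDerivAt_cos t)
    have h2 : Tr' η t = FF' η (Real.cos t) * (-Real.sin t) := by
      unfold Tr'; rw [if_pos h]; ring
    rw [h2]
    refine h1.congr_of_eventuallyEq ?_
    filter_upwards [isOpen_D.mem_nhds h] with x hx
    unfold Tr; exact if_pos hx
  · have hU : t ∈ {t : ℝ | Real.cos t < η ∨ π / 2 < |t|} := by
      rcases cover_T hη t with h1 | h1
      · exact absurd h1 h
      · exact h1
    have h2 : Tr' η t = 0 := by unfold Tr'; rw [if_neg h]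
    rw [h2]
    refine (hasDerivAt_const t (0 : ℝ)).congr_of_eventuallyEq ?_
    filter_upwards [(isOpen_U η).mem_nhds hU] with x hx
    exact Tr_zero hx

noncomputable def Sr (η θ : ℝ) : ℝ := Real.sin θ * Tr η θ

theorem Sr_hasDerivAt {η : ℝ} (hη : 0 < η) (t : ℝ) :
    HasDerivAt (Sr η) (Real.cos t * Tr η t + Real.sin t * Tr' η t) t :=
  (Real.hasDerivAt_sin t).mul (Tr_hasDerivAt hη t)

theorem Sr_contDiff {η : ℝ} (hη : 0 < η) : ContDiff ℝ 1 (Sr η) :=
  Real.contDiff_sin.mul (Tr_contDiff hη)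

theorem Tr_nonneg {η : ℝ} (hη : 0 < η) (t : ℝ) : 0 ≤ Tr η t := by
  unfold Tr; split_ifs
  · exact FF_nonneg hη _
  · exact le_rfl

/-- dichotomy: either everything vanishes or we are in the good region -/
theorem Tr_cases (η t : ℝ) :
    (Tr η t = 0 ∧ Tr' η t = 0) ∨
      (|t| < π / 2 ∧ η < Real.cos t ∧ Tr η t = FF η (Real.cos t) ∧
        Tr' η t = -(FF' η (Real.cos t) * Real.sin t)) := by
  by_cases h : t ∈ {t : ℝ | |t| < π / 2}
  · by_cases h1 : Real.cos t ≤ η
    · left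
      unfold Tr Tr'
      rw [if_pos h, if_pos h, FF_zero_of_le h1, FF'_zero_of_le h1]
      simp
    · right
      refine ⟨h, not_le.mp h1, ?_, ?_⟩
      · unfold Tr; rw [if_pos h]
      · unfold Tr'; rw [if_pos h]
  · left
    unfold Tr Tr'
    rw [if_neg h, if_neg h]
    exact ⟨rfl, rfl⟩

/-! ### smoothness of `V`, `hh`, `kap` -/

theorem r2_contDiff : ContDiff ℝ ∞ r2 := by unfold r2; fun_prop

theorem r2_nonneg (p : E 8) : 0 ≤ r2 p := Finset.sum_nonneg fun i _ => sq_nonneg _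

theorem AA_contDiff {w : ℝ} (hw : 0 < w) : ContDiff ℝ ∞ (AA w) := by
  unfold AA
  refine contDiff_const.add (contDiff_const.mul (ContDiff.sqrt (by fun_prop) ?_))
  intro x; positivity

theorem V_contDiff {w : ℝ} (hw : 0 < w) : ContDiff ℝ ∞ (V w) := by
  unfold V
  have h0 : ContDiff ℝ ∞ (fun p : E 8 => AA w (p 0)) := (AA_contDiff hw).comp (by fun_prop)
  have h1 := r2_contDiff
  refine ((h0.add h1).add (ContDiff.sqrt (((h0.sub h1).pow 2).add contDiff_const) ?_)).div_const 2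
  intro p; positivity

theorem AA_pos {w : ℝ} (hw : 0 < w) (x : ℝ) : 0 < AA w x := by unfold AA; positivity

theorem V_pos {w : ℝ} (hw : 0 < w) (p : E 8) : 0 < V w p := by
  unfold V
  have h1 := AA_pos hw (p 0)
  have h2 := r2_nonneg p
  have h3 := Real.sqrt_nonneg ((AA w (p 0) - r2 p) ^ 2 + w ^ 16)
  linarith

theorem sqrt_add_le (a b : ℝ) (hb : 0 ≤ b) : Real.sqrt (a ^ 2 + b ^ 2) ≤ |a| + b := by
  rw [Real.sqrt_le_left (by positivity)]
  nlinarith [sq_abs a, abs_nonneg a, mul_nonneg (abs_nonneg a) hb]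

theorem V_le {w : ℝ} (hw : 0 < w) (p : E 8) :
    V w p ≤ r2 p + max (AA w (p 0) - r2 p) 0 + w ^ 8 / 2 := by
  unfold V
  have h := sqrt_add_le (AA w (p 0) - r2 p) (w ^ 8) (by positivity)
  have e : w ^ 16 = (w ^ 8) ^ 2 := by ring
  rw [e]
  rcases le_total (AA w (p 0) - r2 p) 0 with h1 | h1
  · rw [max_eq_right h1]; rw [abs_of_nonpos h1] at h; linarith
  · rw [max_eq_left h1]; rw [abs_of_nonneg h1] at h; linarith

theorem AA_le {w : ℝ} (hw : 0 < w) (hw1 : w ≤ 1 / 4) {x : ℝ} (hx : |x| ≤ (w ^ 4)⁻¹ / 2) :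
    AA w x ≤ 2 * w ^ 2 := by
  unfold AA
  have h := sqrt_add_le x w hw.le
  have h2 : Real.sqrt (x ^ 2 + w ^ 2) ≤ (w ^ 4)⁻¹ / 2 + w := by linarith
  have h3 : w ^ 6 * Real.sqrt (x ^ 2 + w ^ 2) ≤ w ^ 6 * ((w ^ 4)⁻¹ / 2 + w) :=
    mul_le_mul_of_nonneg_left h2 (by positivity)
  have h4 : w ^ 6 * ((w ^ 4)⁻¹ / 2 + w) = w ^ 2 / 2 + w ^ 2 * w ^ 5 := by field_simp
  have h5 : w ^ 5 ≤ 1 / 2 := by
    have : w ^ 5 ≤ (1 / 4 : ℝ) ^ 5 := pow_le_pow_left₀ hw.le hw1 5
    linarith [show ((1 : ℝ) / 4) ^ 5 ≤ 1 / 2 by norm_num]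
  nlinarith [sq_nonneg w, mul_le_mul_of_nonneg_left h5 (sq_nonneg w)]

theorem ne_of_mem_yI : ∀ {i : Fin 8}, i ∈ yI → i ≠ 0 ∧ i ≠ 7 := by decide

theorem mem_yI_of : ∀ {i : Fin 8}, i ≠ 0 → i ≠ 7 → i ∈ yI := by decide

theorem r2_line (p : E 8) (i : Fin 8) (t : ℝ) :
    r2 (p + t • ee i) = ∑ j ∈ yI, (p j + t * (if i = j then 1 else 0)) ^ 2 := by
  unfold r2
  refine Finset.sum_congr rfl fun j _ => ?_
  congr 1
  by_cases hij : i = j
  · subst hij; simp
  · simp [hij, Ne.symm hij]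

theorem pd_r2_of_mem {i : Fin 8} (hi : i ∈ yI) (p : E 8) : pd i r2 p = 2 * p i := by
  refine pd_line ((r2_contDiff.differentiable (by simp)) p) ?_
  have h : HasDerivAt (fun t : ℝ => ∑ j ∈ yI, (p j + t * (if i = j then 1 else 0)) ^ 2)
      (∑ j ∈ yI, 2 * (p j + 0 * (if i = j then 1 else 0)) * (if i = j then (1 : ℝ) else 0)) 0 := by
    refine HasDerivAt.fun_sum fun j _ => ?_
    have h1 : HasDerivAt (fun t : ℝ => p j + t * (if i = j then (1 : ℝ) else 0))
        (if i = j then 1 else 0) 0 := by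
      have := ((hasDerivAt_id (0 : ℝ)).mul_const (if i = j then (1 : ℝ) else 0)).const_add (p j)
      simpa using this
    have h2 := h1.fun_pow 2
    refine h2.congr_deriv ?_
    simp
  have e : (∑ j ∈ yI, 2 * (p j + 0 * (if i = j then 1 else 0)) * (if i = j then (1 : ℝ) else 0))
      = 2 * p i := by
    simp [Finset.sum_ite_eq, hi]
  rw [e] at h
  refine h.congr_of_eventuallyEq (Eventually.of_forall fun t => ?_)
  exact r2_line p i t

theorem pd_r2_of_not_mem {i : Fin 8} (hi : i ∉ yI) (p : E 8) : pd i r2 p = 0 := by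
  refine pd_line ((r2_contDiff.differentiable (by simp)) p) ?_
  refine (hasDerivAt_const (0 : ℝ) (r2 p)).congr_of_eventuallyEq (Eventually.of_forall fun t => ?_)
  show r2 (p + t • ee i) = r2 p
  rw [r2_line]
  unfold r2
  refine Finset.sum_congr rfl fun j hj => ?_
  have hij : i ≠ j := fun h => hi (h ▸ hj)
  simp [hij]

theorem pd7_V {w : ℝ} (hw : 0 < w) (p : E 8) : pd 7 (V w) p = 0 := by
  refine pd_line (((V_contDiff hw).differentiable (by simp)) p) ?_
  refine (hasDerivAt_const (0 : ℝ) (V w p)).congr_of_eventuallyEq (Eventually.of_forall fun t => ?_)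
  show V w (p + t • ee 7) = V w p
  have h1 : r2 (p + t • ee 7) = r2 p := by
    rw [r2_line]
    unfold r2
    refine Finset.sum_congr rfl fun j hj => ?_
    have hij : (7 : Fin 8) ≠ j := fun h => (ne_of_mem_yI hj).2 h.symm
    simp [hij]
  have h2 : (p + t • ee 7 : E 8) 0 = p 0 := by simp
  unfold V
  rw [h1, h2]

/-! ### the factor in the `X` variables -/

/-- `β = π w⁴`, `β L / 2 = π / 2` -/
noncomputable def bet (w : ℝ) : ℝ := π * w ^ 4

noncomputable def Ph (w : ℝ) (p : E 8) : ℝ := Real.cos (bet w * p 0) * Real.exp (-(r2 p) / 2)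

/-- the partial derivatives of `Ph` -/
noncomputable def PhD (w : ℝ) (i : Fin 8) (p : E 8) : ℝ :=
  if i = 0 then -(bet w * Real.sin (bet w * p 0)) * Real.exp (-(r2 p) / 2)
  else if i = 7 then 0 else -(p i) * Ph w p

theorem Ph_contDiff (w : ℝ) : ContDiff ℝ ∞ (Ph w) := by
  unfold Ph
  have := r2_contDiff
  fun_prop

theorem PhD_contDiff (w : ℝ) (i : Fin 8) : ContDiff ℝ ∞ (PhD w i) := by
  unfold PhD
  have := r2_contDiff
  have := Ph_contDiff w
  split_ifs
  · fun_prop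
  · fun_prop
  · fun_prop

theorem pd_exp {i : Fin 8} (p : E 8) :
    pd i (fun x => Real.exp (-(r2 x) / 2)) p = Real.exp (-(r2 p) / 2) * (-(pd i r2 p) / 2) := by
  have h := (r2_contDiff.differentiable (by simp)) p
  have h1 : HasFDerivAt (fun x => Real.exp (-(r2 x) / 2))
      (Real.exp (-(r2 p) / 2) • ((-(1 / 2 : ℝ)) • fderiv ℝ r2 p)) p := by
    have h2 : HasFDerivAt (fun x => -(r2 x) / 2) ((-(1 / 2 : ℝ)) • fderiv ℝ r2 p) p := by
      have := h.hasFDerivAt.const_mul (-(1 / 2 : ℝ))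
      refine this.congr_of_eventuallyEq (Eventually.of_forall fun x => ?_)
      show -(r2 x) / 2 = -(1 / 2 : ℝ) * r2 x
      ring
    exact h2.exp
  rw [pd_of h1]
  simp only [smul_apply, smul_eq_mul, pd]
  ring

theorem pd_cos {i : Fin 8} (b : ℝ) (p : E 8) :
    pd i (fun x : E 8 => Real.cos (b * x 0)) p = -Real.sin (b * p 0) * (if i = 0 then b else 0) := by
  have h : HasDerivAt (fun s : ℝ => Real.cos (b * s)) (-Real.sin (b * p 0) * b) (p 0) := by
    have := ((hasDerivAt_id (p 0)).const_mul b).cos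
    simpa using this
  rw [pd_comp (G := fun x : E 8 => x 0) h (by fun_prop), pd_coord]
  split_ifs <;> ring

theorem pd_sin {i : Fin 8} (b : ℝ) (p : E 8) :
    pd i (fun x : E 8 => Real.sin (b * x 0)) p = Real.cos (b * p 0) * (if i = 0 then b else 0) := by
  have h : HasDerivAt (fun s : ℝ => Real.sin (b * s)) (Real.cos (b * p 0) * b) (p 0) := by
    have := ((hasDerivAt_id (p 0)).const_mul b).sin
    simpa using this
  rw [pd_comp (G := fun x : E 8 => x 0) h (by fun_prop), pd_coord]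
  split_ifs <;> ring

theorem diff_exp (p : E 8) : DifferentiableAt ℝ (fun x : E 8 => Real.exp (-(r2 x) / 2)) p := by
  have := (r2_contDiff.differentiable (by simp)) p
  fun_prop

theorem pd_Ph (w : ℝ) (i : Fin 8) (p : E 8) : pd i (Ph w) p = PhD w i p := by
  have h := pd_mul (i := i) (F := fun x : E 8 => Real.cos (bet w * x 0))
    (G := fun x : E 8 => Real.exp (-(r2 x) / 2)) (p := p) (by fun_prop) (diff_exp p)
  have e : pd i (Ph w) p = _ := h
  rw [e, pd_cos, pd_exp]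
  unfold PhD Ph
  by_cases h0 : i = 0
  · subst h0
    rw [if_pos rfl, if_pos rfl, pd_r2_of_not_mem (by decide)]
    ring
  · rw [if_neg h0, if_neg h0]
    by_cases h7 : i = 7
    · subst h7
      rw [if_pos rfl, pd_r2_of_not_mem (by decide)]
      ring
    · rw [if_neg h7, pd_r2_of_mem (mem_yI_of h0 h7)]
      ring

theorem pd_PhD_zero (w : ℝ) (p : E 8) : pd 0 (PhD w 0) p = -(bet w) ^ 2 * Ph w p := by
  have e : PhD w 0 = fun x => (-(bet w) * Real.sin (bet w * x 0)) * Real.exp (-(r2 x) / 2) := by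
    funext x; unfold PhD; rw [if_pos rfl]; ring
  have h := pd_mul (i := 0) (F := fun x : E 8 => -(bet w) * Real.sin (bet w * x 0))
    (G := fun x : E 8 => Real.exp (-(r2 x) / 2)) (p := p) (by fun_prop) (diff_exp p)
  have h2 := pd_mul (i := 0) (F := fun _ : E 8 => -(bet w))
    (G := fun x : E 8 => Real.sin (bet w * x 0)) (p := p) (by fun_prop) (by fun_prop)
  have h3 : pd 0 (fun _ : E 8 => -(bet w)) p = 0 := by simp [pd]
  rw [e, h, h2, h3, pd_sin, pd_exp, pd_r2_of_not_mem (by decide), if_pos rfl]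
  unfold Ph
  ring

theorem pd_PhD_mem (w : ℝ) {i : Fin 8} (hi : i ∈ yI) (p : E 8) :
    pd i (PhD w i) p = (p i ^ 2 - 1) * Ph w p := by
  obtain ⟨h0, h7⟩ := ne_of_mem_yI hi
  have e : PhD w i = fun x => (-(x i)) * Ph w x := by
    funext x; unfold PhD; rw [if_neg h0, if_neg h7]
  have h := pd_mul (i := i) (F := fun x : E 8 => -(x i)) (G := Ph w) (p := p) (by fun_prop)
    (((Ph_contDiff w).differentiable (by simp)) p)
  have h3 : pd i (fun x : E 8 => -(x i)) p = -1 := by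
    have := pd_coord i i p
    rw [if_pos rfl] at this
    unfold pd at this ⊢
    rw [fderiv_fun_neg, neg_apply, this]
  rw [e, h, h3, pd_Ph]
  unfold PhD
  rw [if_neg h0, if_neg h7]
  ring

theorem sum_pd_PhD (w : ℝ) (p : E 8) :
    pd 0 (PhD w 0) p + ∑ i ∈ yI, pd i (PhD w i) p = (-(bet w) ^ 2 - 6 + r2 p) * Ph w p := by
  rw [pd_PhD_zero, Finset.sum_congr rfl fun i hi => pd_PhD_mem w hi p, ← Finset.sum_mul,
    Finset.sum_sub_distrib]
  have : (∑ _i ∈ yI, (1 : ℝ)) = 6 := by simp [yI]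
  rw [this]
  unfold r2
  ring

end Pool.Agent.GS8.Up
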