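import Mathlib
import Pool.Agent.GS8.Defs
import Pool.Agent.GS8.UpperB

/-!
# MP_dd30b7_an, JOB 8, part C: the trial function and the pointwise inequality
-/

set_option autoImplicit false

open MeasureTheory Set Filter Topology
open scoped Real ContDiff

namespace Pool.Agent.GS8.Up

structure Par (w x η k D : ℝ) : Prop where
  w_pos : 0 < w
  w_le : w ≤ 1 / 4
  x_ge : 3 ≤ x
  η_pos : 0 < η
  η_le : η ≤ 1 / 10
  k_ge : 1 ≤ k
  k_sq : 2 * x + 2 ≤ k ^ 2
  D_nonneg : 0 ≤ D
  D_bd : ∀ i, ∀ p ∈ box (hw ((w ^ 4)⁻¹ / 2) (Real.sqrt (2 * x)) 2), |pd i (V w) p| ≤ D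

noncomputable def cc (x : ℝ) : ℝ := Real.exp (-x)

noncomputable def ph (w x : ℝ) (p : E 8) : ℝ :=
  if p ∈ {p : E 8 | |p 0| < (w ^ 4)⁻¹ / 2} then FF (cc x) (Ph w p) else 0

def UU (w x : ℝ) : Set (E 8) :=
  {p | Real.cos (bet w * p 0) < cc x ∨ (w ^ 4)⁻¹ / 2 < |p 0| ∨ 2 * x < r2 p}

noncomputable def th (w k : ℝ) (p : E 8) : ℝ := kap w k p * p 7

noncomputable def ta (w η k : ℝ) (p : E 8) : ℝ := Tr η (th w k p)

noncomputable def ff (w x η k : ℝ) (p : E 8) : ℝ := ph w x p * ta w η k p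

noncomputable def GG (w x η k : ℝ) (i : Fin 8) (p : E 8) : ℝ :=
  if i = 7 then ph w x p * (-(ph w x p * (kap w k p * Sr η (th w k p))))
  else ph w x p * (ta w η k p * (ta w η k p * PhD w i p))

section
variable {w x η k D : ℝ}

theorem cc_pos (x : ℝ) : 0 < cc x := Real.exp_pos _

theorem isOpen_D0 : IsOpen {p : E 8 | |p 0| < (w ^ 4)⁻¹ / 2} :=
  isOpen_lt (by fun_prop) (by fun_prop)

theorem isOpen_UU : IsOpen (UU w x) := by
  have h1 : IsOpen {p : E 8 | Real.cos (bet w * p 0) < cc x} :=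
    isOpen_lt (by fun_prop) (by fun_prop)
  have h2 : IsOpen {p : E 8 | (w ^ 4)⁻¹ / 2 < |p 0|} := isOpen_lt (by fun_prop) (by fun_prop)
  have h3 : IsOpen {p : E 8 | 2 * x < r2 p} := isOpen_lt (by fun_prop) r2_contDiff.continuous
  exact h1.union (h2.union h3)

theorem bet_mul (hw : 0 < w) : bet w * ((w ^ 4)⁻¹ / 2) = π / 2 := by
  unfold bet; field_simp

theorem bet_pos (hw : 0 < w) : 0 < bet w := by unfold bet; positivity

theorem cover_X (hw : 0 < w) (p : E 8) :
    p ∈ {p : E 8 | |p 0| < (w ^ 4)⁻¹ / 2} ∨ p ∈ UU w x := by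
  rcases lt_trichotomy |p 0| ((w ^ 4)⁻¹ / 2) with h | h | h
  · exact Or.inl h
  · refine Or.inr (Or.inl ?_)
    rw [← Real.cos_abs, abs_mul, abs_of_pos (bet_pos hw), h, bet_mul hw, Real.cos_pi_div_two]
    exact cc_pos x
  · exact Or.inr (Or.inr (Or.inl h))

theorem cos_pos_of (hw : 0 < w) {p : E 8} (h : |p 0| < (w ^ 4)⁻¹ / 2) :
    0 < Real.cos (bet w * p 0) := by
  have h1 : |bet w * p 0| < π / 2 := by
    rw [abs_mul, abs_of_pos (bet_pos hw), ← bet_mul hw]
    exact mul_lt_mul_of_pos_left h (bet_pos hw)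
  rw [abs_lt] at h1
  exact Real.cos_pos_of_mem_Ioo ⟨h1.1, h1.2⟩

theorem exp_le (p : E 8) : Real.exp (-(r2 p) / 2) ≤ 1 := by
  rw [Real.exp_le_one_iff]
  have := r2_nonneg p
  linarith

theorem Ph_le (hw : 0 < w) {p : E 8} (h : |p 0| < (w ^ 4)⁻¹ / 2) :
    0 < Ph w p ∧ Ph w p ≤ 1 ∧ Ph w p ≤ Real.cos (bet w * p 0) ∧
      Ph w p ≤ Real.exp (-(r2 p) / 2) := by
  have h1 := cos_pos_of hw h
  have h2 := exp_le p
  have h3 := Real.exp_pos (-(r2 p) / 2)
  have h4 := Real.cos_le_one (bet w * p 0)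
  unfold Ph
  refine ⟨by positivity, ?_, ?_, ?_⟩ <;> nlinarith

theorem ph_contDiff (hw : 0 < w) : ContDiff ℝ 1 (ph w x) := by
  refine trunc_contDiff (D := {p : E 8 | |p 0| < (w ^ 4)⁻¹ / 2}) (cc_pos x) isOpen_D0
    (isOpen_UU (w := w) (x := x)) (cover_X hw) ((Ph_contDiff w).of_le (by simp)).contDiffOn ?_
  intro p hp hU
  obtain ⟨_, h1, h2, h3⟩ := Ph_le hw hp
  rcases hU with h | h | h
  · linarith
  · exact absurd (show |p 0| < _ from hp) (not_lt.mpr h.le)
  · refine h3.trans ?_
    unfold cc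
    rw [Real.exp_le_exp]
    linarith

theorem ph_zero (hw : 0 < w) {p : E 8} (h : p ∈ UU w x) : ph w x p = 0 := by
  unfold ph
  split_ifs with hp
  · obtain ⟨_, h1, h2, h3⟩ := Ph_le hw hp
    apply FF_zero_of_le
    rcases h with h | h | h
    · linarith
    · exact absurd (show |p 0| < _ from hp) (not_lt.mpr h.le)
    · refine h3.trans ?_
      unfold cc
      rw [Real.exp_le_exp]
      linarith
  · rfl

theorem ph_nonneg (p : E 8) : 0 ≤ ph w x p := by
  unfold ph; split_ifs
  · exact FF_nonneg (cc_pos x) _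
  · exact le_rfl

theorem pd_ph (hw : 0 < w) {p : E 8} (h : |p 0| < (w ^ 4)⁻¹ / 2) (i : Fin 8) :
    pd i (ph w x) p = FF' (cc x) (Ph w p) * PhD w i p := by
  have h1 : ph w x =ᶠ[𝓝 p] fun p => FF (cc x) (Ph w p) := by
    filter_upwards [isOpen_D0.mem_nhds h] with y hy
    unfold ph; exact if_pos hy
  rw [pd_congr h1, pd_comp (FF_hasDerivAt (cc_pos x) _) (((Ph_contDiff w).differentiable (by simp)) p),
    pd_Ph]

theorem ph_eq {p : E 8} (h : |p 0| < (w ^ 4)⁻¹ / 2) : ph w x p = FF (cc x) (Ph w p) := if_pos h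

/-! ### `hh`, `kap`, `th` -/

theorem hh_contDiff (hw : 0 < w) : ContDiff ℝ ∞ (hh w k) := by
  unfold hh
  have := V_contDiff hw
  fun_prop

theorem kap_contDiffAt (hw : 0 < w) {p : E 8} (h : 0 < hh w k p) : ContDiffAt ℝ 1 (kap w k) p := by
  unfold kap
  exact contDiffAt_const.div (((hh_contDiff hw).of_le (by simp)).contDiffAt) h.ne'

theorem th_contDiffAt (hw : 0 < w) {p : E 8} (h : 0 < hh w k p) : ContDiffAt ℝ 1 (th w k) p := by
  unfold th
  exact (kap_contDiffAt hw h).mul (by fun_prop)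

theorem ta_contDiffAt (hw : 0 < w) (hη : 0 < η) {p : E 8} (h : 0 < hh w k p) :
    ContDiffAt ℝ 1 (ta w η k) p :=
  (Tr_contDiff hη).contDiffAt.comp p (th_contDiffAt hw h)

theorem pd_kap (hw : 0 < w) (hk : 1 ≤ k) {p : E 8} (h : 0 < hh w k p) (i : Fin 8) :
    pd i (kap w k) p = 1 / (2 * k * hh w k p ^ 2) * pd i (V w) p := by
  have h1 : HasDerivAt (fun s : ℝ => k / (1 - s / (2 * k ^ 2))) (1 / (2 * k * hh w k p ^ 2)) (V w p) := by
    have h2 : HasDerivAt (fun s : ℝ => 1 - s / (2 * k ^ 2)) (-(1 / (2 * k ^ 2))) (V w p) := by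
      have := ((hasDerivAt_id (V w p)).div_const (2 * k ^ 2)).const_sub 1
      simpa using this
    have h3 := (hasDerivAt_const (V w p) k).fun_div h2 (show (1 - V w p / (2 * k ^ 2)) ≠ 0 from h.ne')
    refine h3.congr_deriv ?_
    have h4 : (1 - V w p / (2 * k ^ 2)) = hh w k p := rfl
    rw [h4]
    have hk0 : k ≠ 0 := by linarith
    have hh0 : hh w k p ≠ 0 := h.ne'
    field_simp
    ring
  exact pd_comp h1 (((V_contDiff hw).differentiable (by simp)) p)

theorem pd_th (hw : 0 < w) (hk : 1 ≤ k) {p : E 8} (h : 0 < hh w k p) (i : Fin 8) :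
    pd i (th w k) p = 1 / (2 * k * hh w k p ^ 2) * pd i (V w) p * p 7 +
      kap w k p * (if i = 7 then 1 else 0) := by
  have h1 := pd_mul (i := i) (F := kap w k) (G := fun x : E 8 => x 7) (p := p)
    ((kap_contDiffAt hw h).differentiableAt (by simp)) (by fun_prop)
  have e : pd i (th w k) p = _ := h1
  rw [e, pd_kap hw hk h, pd_coord]

theorem pd_ta (hw : 0 < w) (hη : 0 < η) {p : E 8} (h : 0 < hh w k p) (i : Fin 8) :
    pd i (ta w η k) p = Tr' η (th w k p) * pd i (th w k) p :=
  pd_comp (Tr_hasDerivAt hη _) ((th_contDiffAt hw h).differentiableAt (by simp))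

/-- points with `hh ≤ 0` lie in `UU` -/
theorem mem_UU_of (P : Par w x η k D) {p : E 8} (h : hh w k p ≤ 0) : p ∈ UU w x := by
  by_contra hU
  unfold UU at hU
  simp only [mem_ofPred_eq, not_or, not_lt] at hU
  obtain ⟨_, h2, h3⟩ := hU
  have hA := AA_le P.w_pos P.w_le h2
  have hV := V_le P.w_pos p
  have hw0 := P.w_pos
  have hk := P.k_sq
  have hw2 : w ^ 2 ≤ 1 / 16 := by nlinarith [P.w_le]
  have hw8 : w ^ 8 ≤ 1 := pow_le_one₀ hw0.le (by linarith [P.w_le])
  have hm : max (AA w (p 0) - r2 p) 0 ≤ 1 / 8 := by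
    apply max_le
    · linarith [r2_nonneg p]
    · norm_num
  have h4 : V w p ≤ 2 * x + 1 := by linarith
  have hk1 := P.k_ge
  unfold hh at h
  have h5 : V w p / (2 * k ^ 2) < 1 := by
    rw [div_lt_one (by positivity)]
    nlinarith
  linarith

theorem glue (P : Par w x η k D) {H : E 8 → ℝ} (hH : ∀ p, 0 < hh w k p → ContDiffAt ℝ 1 H p) :
    ContDiff ℝ 1 (fun p => ph w x p * H p) := by
  rw [contDiff_iff_contDiffAt]
  intro p
  by_cases h : 0 < hh w k p
  · exact (ph_contDiff P.w_pos).contDiffAt.mul (hH p h)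
  · have hU := mem_UU_of P (not_lt.mp h)
    refine (contDiffAt_const (c := (0 : ℝ))).congr_of_eventuallyEq ?_
    filter_upwards [isOpen_UU.mem_nhds hU] with y hy
    rw [ph_zero P.w_pos hy, zero_mul]

theorem ff_contDiff (P : Par w x η k D) : ContDiff ℝ 1 (ff w x η k) :=
  glue P fun _ h => ta_contDiffAt P.w_pos P.η_pos h

theorem GG_contDiff (P : Par w x η k D) (i : Fin 8) : ContDiff ℝ 1 (GG w x η k i) := by
  unfold GG
  split_ifs
  · refine glue P (H := fun p => -(ph w x p * (kap w k p * Sr η (th w k p)))) fun p h => ?_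
    exact ((ph_contDiff P.w_pos).contDiffAt.mul ((kap_contDiffAt P.w_pos h).mul
      ((Sr_contDiff P.η_pos).contDiffAt.comp p (th_contDiffAt P.w_pos h)))).neg
  · refine glue P (H := fun p => ta w η k p * (ta w η k p * PhD w i p)) fun p h => ?_
    exact (ta_contDiffAt P.w_pos P.η_pos h).mul ((ta_contDiffAt P.w_pos P.η_pos h).mul
      ((PhD_contDiff w i).of_le (by simp)).contDiffAt)

/-- the support box -/
noncomputable def KK (w x k : ℝ) : Set (E 8) :=
  box (hw ((w ^ 4)⁻¹ / 2) (Real.sqrt (2 * x)) (2 / k))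

/-- the main case -/
structure Good (w x η k D : ℝ) (p : E 8) : Prop where
  p0 : |p 0| < (w ^ 4)⁻¹ / 2
  hpos : 1 / 2 ≤ hh w k p
  hle : hh w k p ≤ 1
  thl : |th w k p| < π / 2
  cosl : η < Real.cos (th w k p)
  phl : cc x < Ph w p
  r2l : r2 p < 2 * x
  p7 : |p 7| ≤ 2 / k
  mem : p ∈ KK w x k
  Vl : V w p ≤ 2 * x + 2
  pdV : ∀ i, |pd i (V w) p| ≤ D
  taEq : ta w η k p = FF η (Real.cos (th w k p))
  taEq' : Tr' η (th w k p) = -(FF' η (Real.cos (th w k p)) * Real.sin (th w k p))

/-- trivial case: everything vanishes at `p` -/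
structure Bad (w x η k : ℝ) (p : E 8) : Prop where
  f0 : ff w x η k p = 0
  G0 : ∀ i, GG w x η k i p = 0
  fd : ∀ i, pd i (ff w x η k) p = 0
  Gd : ∀ i, pd i (GG w x η k i) p = 0

theorem pd_ff (P : Par w x η k D) {p : E 8} (h0 : |p 0| < (w ^ 4)⁻¹ / 2) (h : 0 < hh w k p)
    (i : Fin 8) : pd i (ff w x η k) p = FF' (cc x) (Ph w p) * PhD w i p * ta w η k p +
      ph w x p * (Tr' η (th w k p) * pd i (th w k) p) := by
  have h1 := pd_mul (i := i) (F := ph w x) (G := ta w η k) (p := p)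
    (((ph_contDiff P.w_pos).differentiable (by simp)) p)
    ((ta_contDiffAt P.w_pos P.η_pos h).differentiableAt (by simp))
  have e : pd i (ff w x η k) p = _ := h1
  rw [e, pd_ph P.w_pos h0, pd_ta P.w_pos P.η_pos h]

theorem pd_GG (P : Par w x η k D) {p : E 8} (h0 : |p 0| < (w ^ 4)⁻¹ / 2) (h : 0 < hh w k p)
    {i : Fin 8} (hi : i ≠ 7) : pd i (GG w x η k i) p =
      FF' (cc x) (Ph w p) * PhD w i p * (ta w η k p * (ta w η k p * PhD w i p)) +
      ph w x p * (2 * ta w η k p * (Tr' η (th w k p) * pd i (th w k) p) * PhD w i p +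
        ta w η k p ^ 2 * pd i (PhD w i) p) := by
  have dta := (ta_contDiffAt P.w_pos P.η_pos h).differentiableAt (by simp)
  have dPh := ((PhD_contDiff w i).differentiable (by simp)) p
  have h3 := pd_mul (i := i) (F := ta w η k) (G := PhD w i) (p := p) dta dPh
  have h2 := pd_mul (i := i) (F := ta w η k) (G := fun p => ta w η k p * PhD w i p) (p := p) dta
    (dta.mul dPh)
  have h1 := pd_mul (i := i) (F := ph w x) (G := fun p => ta w η k p * (ta w η k p * PhD w i p))
    (p := p) (((ph_contDiff P.w_pos).differentiable (by simp)) p) (dta.mul (dta.mul dPh))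
  have e : GG w x η k i = fun p => ph w x p * (ta w η k p * (ta w η k p * PhD w i p)) := by
    funext q; unfold GG; rw [if_neg hi]
  rw [e, h1, h2, h3, pd_ph P.w_pos h0, pd_ta P.w_pos P.η_pos h]
  ring

theorem pd_GG7 (P : Par w x η k D) {p : E 8} (h0 : |p 0| < (w ^ 4)⁻¹ / 2) (h : 0 < hh w k p) :
    pd 7 (GG w x η k 7) p = -(ph w x p ^ 2 * kap w k p ^ 2 *
      (Real.cos (th w k p) * ta w η k p + Real.sin (th w k p) * Tr' η (th w k p))) := by
  have dph := ((ph_contDiff (x := x) P.w_pos).differentiable (by simp)) p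
  have dka := (kap_contDiffAt P.w_pos h).differentiableAt (by simp)
  have dth := (th_contDiffAt P.w_pos h).differentiableAt (by simp)
  have dS : DifferentiableAt ℝ (fun p => Sr η (th w k p)) p :=
    (((Sr_contDiff P.η_pos).contDiffAt.comp p (th_contDiffAt P.w_pos h))).differentiableAt (by simp)
  have h4 := pd_comp (i := 7) (Sr_hasDerivAt P.η_pos (th w k p)) dth
  have h3 := pd_mul (i := 7) dka dS
  have h2 := pd_mul (i := 7) dph (dka.mul dS)
  have h1 := pd_mul (i := 7) dph (dph.mul (dka.mul dS)).neg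
  have e : GG w x η k 7 = fun p => ph w x p * (-(ph w x p * (kap w k p * Sr η (th w k p)))) := by
    funext q; unfold GG; rw [if_pos rfl]
  have h5 : pd 7 (fun p => -(ph w x p * (kap w k p * Sr η (th w k p)))) p =
      - pd 7 (fun p => (ph w x p * (kap w k p * Sr η (th w k p)))) p := by
    unfold pd
    rw [fderiv_fun_neg, neg_apply]
  have h6 : PhD w 7 p = 0 := by unfold PhD; rw [if_neg (by decide), if_pos rfl]
  have h1' : pd 7 (GG w x η k 7) p = pd 7 (ph w x) p * (-(ph w x p * (kap w k p * Sr η (th w k p)))) +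
      ph w x p * pd 7 (fun p => -(ph w x p * (kap w k p * Sr η (th w k p)))) p := by
    rw [e]; exact h1
  have h2' : pd 7 (fun p => (ph w x p * (kap w k p * Sr η (th w k p)))) p = _ := h2
  have h3' : pd 7 (fun p => (kap w k p * Sr η (th w k p))) p = _ := h3
  rw [h1', h5, h2', pd_ph P.w_pos h0, h6]
  have h2'' : pd 7 (kap w k * fun p => Sr η (th w k p)) p = _ := h3
  rw [h2'', h4, pd_kap P.w_pos P.k_ge h, pd7_V P.w_pos, pd_th P.w_pos P.k_ge h, pd7_V P.w_pos,
    if_pos rfl]
  unfold ta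
  ring

theorem cases_p (P : Par w x η k D) (p : E 8) : Bad w x η k p ∨ Good w x η k D p := by
  have hk0 : 0 < k := lt_of_lt_of_le one_pos P.k_ge
  by_cases hU : p ∈ UU w x
  · left
    have h1 : ff w x η k =ᶠ[𝓝 p] fun _ => 0 := by
      filter_upwards [isOpen_UU.mem_nhds hU] with y hy
      unfold ff; rw [ph_zero P.w_pos hy, zero_mul]
    have h2 : ∀ i, GG w x η k i =ᶠ[𝓝 p] fun _ => 0 := by
      intro i
      filter_upwards [isOpen_UU.mem_nhds hU] with y hy
      unfold GG; rw [ph_zero P.w_pos hy]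
      split_ifs <;> simp
    exact ⟨h1.self_of_nhds, fun i => (h2 i).self_of_nhds, fun i => pd_zero_of h1,
      fun i => pd_zero_of (h2 i)⟩
  · have h0 : |p 0| < (w ^ 4)⁻¹ / 2 := (cover_X P.w_pos p).resolve_right hU
    have hh0 : 0 < hh w k p := by
      by_contra hc
      exact hU (mem_UU_of P (not_lt.mp hc))
    by_cases hc : Ph w p ≤ cc x
    · left
      have e1 : ph w x p = 0 := by rw [ph_eq h0, FF_zero_of_le hc]
      have e2 : FF' (cc x) (Ph w p) = 0 := FF'_zero_of_le hc
      refine ⟨by unfold ff; rw [e1, zero_mul], ?_, ?_, ?_⟩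
      · intro i; unfold GG; rw [e1]; split_ifs <;> simp
      · intro i; rw [pd_ff P h0 hh0, e1, e2]; simp
      · intro i
        by_cases hi : i = 7
        · subst hi; rw [pd_GG7 P h0 hh0, e1]; simp
        · rw [pd_GG P h0 hh0 hi, e1, e2]; simp
    · push Not at hc
      rcases Tr_cases η (th w k p) with ⟨e1, e2⟩ | ⟨t1, t2, t3, t4⟩
      · left
        have e3 : ta w η k p = 0 := e1
        have e4 : Sr η (th w k p) = 0 := by unfold Sr; rw [e1, mul_zero]
        refine ⟨by unfold ff; rw [e3, mul_zero], ?_, ?_, ?_⟩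
        · intro i; unfold GG; rw [e3, e4]; split_ifs <;> simp
        · intro i; rw [pd_ff P h0 hh0, e3, e2]; simp
        · intro i
          by_cases hi : i = 7
          · subst hi; rw [pd_GG7 P h0 hh0, e3, e2]; simp
          · rw [pd_GG P h0 hh0 hi, e3, e2]; simp
      · right
        obtain ⟨_, q1, q2, q3⟩ := Ph_le P.w_pos h0
        have r1 : r2 p < 2 * x := by
          have : cc x < Real.exp (-(r2 p) / 2) := lt_of_lt_of_le hc q3
          unfold cc at this
          rw [Real.exp_lt_exp] at this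
          linarith
        have hA := AA_le P.w_pos P.w_le h0.le
        have hV := V_le P.w_pos p
        have hw0 := P.w_pos
        have hw2 : w ^ 2 ≤ 1 / 16 := by nlinarith [P.w_le]
        have hw8 : w ^ 8 ≤ 1 := pow_le_one₀ hw0.le (by linarith [P.w_le])
        have hm : max (AA w (p 0) - r2 p) 0 ≤ 1 / 8 := by
          apply max_le
          · linarith [r2_nonneg p]
          · norm_num
        have Vl : V w p ≤ 2 * x + 2 := by linarith
        have hl : 1 / 2 ≤ hh w k p := by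
          unfold hh
          have h5 : V w p / (2 * k ^ 2) ≤ 1 / 2 := by
            rw [div_le_iff₀ (by positivity)]
            linarith [P.k_sq]
          linarith
        have hle : hh w k p ≤ 1 := by
          unfold hh
          have := V_pos P.w_pos p
          have : 0 ≤ V w p / (2 * k ^ 2) := by positivity
          linarith
        have p7 : |p 7| ≤ 2 / k := by
          have h1 : |th w k p| = k / hh w k p * |p 7| := by
            unfold th kap
            rw [abs_mul, abs_of_pos (by positivity)]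
          have h2 : k * |p 7| ≤ k / hh w k p * |p 7| := by
            apply mul_le_mul_of_nonneg_right _ (abs_nonneg _)
            rw [le_div_iff₀ hh0]
            nlinarith
          rw [le_div_iff₀ hk0]
          have := Real.pi_lt_four
          rw [h1] at t1
          linarith
        have coord : ∀ i ∈ yI, |p i| ≤ Real.sqrt (2 * x) := by
          intro i hi
          apply Real.abs_le_sqrt
          have : p i ^ 2 ≤ r2 p :=
            Finset.single_le_sum (f := fun i => p i ^ 2) (fun j _ => sq_nonneg _) hi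
          linarith
        have mem : ∀ e : ℝ, |p 7| ≤ e → p ∈ box (hw ((w ^ 4)⁻¹ / 2) (Real.sqrt (2 * x)) e) := by
          intro e he i
          by_cases hi : i = 0
          · subst hi; exact h0.le
          · by_cases hi7 : i = 7
            · subst hi7; exact he
            · have : hw ((w ^ 4)⁻¹ / 2) (Real.sqrt (2 * x)) e i = Real.sqrt (2 * x) := by
                unfold Up.hw; rw [if_neg hi, if_neg hi7]
              rw [this]
              exact coord i (mem_yI_of hi hi7)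
        refine ⟨h0, hl, hle, t1, t2, hc, r1, p7, mem _ p7, Vl, ?_, t3, t4⟩
        intro i
        refine P.D_bd i p (mem 2 (p7.trans ?_))
        rw [div_le_iff₀ hk0]
        linarith [P.k_ge]

end

end Pool.Agent.GS8.Up
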