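import Mathlib
import Pool.Agent.GS8.Defs
import Pool.Agent.GS8.UpperC

/-!
# MP_dd30b7_an, JOB 8, part D: pointwise inequality
-/

set_option autoImplicit false

open MeasureTheory Set Filter Topology
open scoped Real ContDiff

namespace Pool.Agent.GS8.Up

section
variable {w x η k D : ℝ}

theorem bet_le_one (hw : 0 < w) (hw1 : w ≤ 1 / 4) : bet w ≤ 1 := by
  unfold bet
  have h4 : w ^ 4 ≤ (1 / 4 : ℝ) ^ 4 := pow_le_pow_left₀ hw.le hw1 4
  have h3 := Real.pi_lt_four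
  have h5 : π * w ^ 4 ≤ 4 * (1 / 4 : ℝ) ^ 4 :=
    mul_le_mul h3.le h4 (by positivity) (by norm_num)
  norm_num at h5
  linarith

theorem abs_PhD (P : Par w x η k D) {p : E 8} (g : Good w x η k D p) (i : Fin 8) :
    |PhD w i p| ≤ 1 + Real.sqrt (2 * x) := by
  have hs := Real.sqrt_nonneg (2 * x)
  obtain ⟨q0, q1, q2, q3⟩ := Ph_le P.w_pos g.p0
  unfold PhD
  split_ifs with h0 h7
  · rw [abs_mul, abs_neg, abs_mul, abs_of_pos (bet_pos P.w_pos), abs_of_pos (Real.exp_pos _)]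
    have h1 := bet_le_one P.w_pos P.w_le
    have h2 := Real.abs_sin_le_one (bet w * p 0)
    have h3 := exp_le p
    have h4 : bet w * |Real.sin (bet w * p 0)| ≤ 1 :=
      mul_le_one₀ h1 (abs_nonneg _) h2
    have h5 : bet w * |Real.sin (bet w * p 0)| * Real.exp (-(r2 p) / 2) ≤ 1 :=
      mul_le_one₀ h4 (Real.exp_pos _).le h3
    linarith
  · simp; positivity
  · rw [abs_mul, abs_neg, abs_of_pos q0]
    have h1 : |p i| ≤ Real.sqrt (2 * x) := by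
      have := g.mem i
      unfold hw at this
      rwa [if_neg h0, if_neg h7] at this
    have : |p i| * Ph w p ≤ |p i| * 1 := mul_le_mul_of_nonneg_left q1 (abs_nonneg _)
    linarith

theorem abs_Tr' {t : ℝ} (hη : 0 < η) : |Tr' η t| ≤ 1 := by
  unfold Tr'
  split_ifs
  · rw [abs_neg, abs_mul, abs_of_nonneg (FF'_nonneg hη _)]
    exact mul_le_one₀ (FF'_le_one hη _) (abs_nonneg _) (Real.abs_sin_le_one _)
  · simp

theorem abs_b (P : Par w x η k D) {p : E 8} (g : Good w x η k D p) {i : Fin 8} (hi : i ≠ 7) :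
    |Tr' η (th w k p) * pd i (th w k) p| ≤ 4 * D / k ^ 2 := by
  have hk0 : 0 < k := lt_of_lt_of_le one_pos P.k_ge
  have hh0 : 0 < hh w k p := lt_of_lt_of_le (by norm_num) g.hpos
  rw [pd_th P.w_pos P.k_ge hh0, if_neg hi, mul_zero, add_zero, abs_mul, abs_mul, abs_mul,
    abs_of_pos (show 0 < 1 / (2 * k * hh w k p ^ 2) by positivity)]
  have h1 := abs_Tr' (η := η) (t := th w k p) P.η_pos
  have h2 : 1 / (2 * k * hh w k p ^ 2) ≤ 2 / k := by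
    rw [div_le_div_iff₀ (by positivity) hk0]
    have : (1 / 2 : ℝ) ^ 2 ≤ hh w k p ^ 2 := pow_le_pow_left₀ (by norm_num) g.hpos 2
    nlinarith
  have h3 : 1 / (2 * k * hh w k p ^ 2) * |pd i (V w) p| ≤ 2 / k * D :=
    mul_le_mul h2 (g.pdV i) (abs_nonneg _) (by positivity)
  have hD := P.D_nonneg
  have h4 : 1 / (2 * k * hh w k p ^ 2) * |pd i (V w) p| * |p 7| ≤ 2 / k * D * (2 / k) :=
    mul_le_mul h3 g.p7 (abs_nonneg _) (by positivity)
  have h5 : |Tr' η (th w k p)| * (1 / (2 * k * hh w k p ^ 2) * |pd i (V w) p| * |p 7|) ≤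
      1 * (2 / k * D * (2 / k)) := mul_le_mul h1 h4 (by positivity) (by norm_num)
  have e : 1 * (2 / k * D * (2 / k)) = 4 * D / k ^ 2 := by field_simp; ring
  rw [e] at h5
  exact h5

theorem ph_good (P : Par w x η k D) {p : E 8} (g : Good w x η k D p) :
    0 ≤ ph w x p ∧ ph w x p ≤ Ph w p ∧ ph w x p ≤ 1 ∧ Ph w p ≤ 1 ∧
      ph w x p * Ph w p ≤ ph w x p ^ 2 + 2 * cc x := by
  obtain ⟨q0, q1, q2, q3⟩ := Ph_le P.w_pos g.p0
  have e := ph_eq (x := x) g.p0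
  have h1 := FF_nonneg (cc_pos x) (Ph w p)
  have h2 := FF_le (cc_pos x) q0.le
  have h3 := FF_mul_le (cc_pos x) q0.le q1
  rw [e]
  exact ⟨h1, h2, h2.trans q1, q1, h3⟩

theorem ta_good (P : Par w x η k D) {p : E 8} (g : Good w x η k D p) :
    0 ≤ ta w η k p ∧ ta w η k p ≤ 1 ∧
      ta w η k p * Real.cos (th w k p) ≤ ta w η k p ^ 2 + 2 * η := by
  have hc : 0 ≤ Real.cos (th w k p) := (P.η_pos.trans g.cosl).le
  rw [g.taEq]
  exact ⟨FF_nonneg P.η_pos _, (FF_le P.η_pos hc).trans (Real.cos_le_one _),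
    FF_mul_le P.η_pos hc (Real.cos_le_one _)⟩

theorem alg1 {a d b t f R b0 : ℝ} (ha : 0 ≤ a) (ha1 : a ≤ 1) (hd : |d| ≤ R) (hb : |b| ≤ b0)
    (ht : 0 ≤ t) (ht1 : t ≤ 1) (hf : 0 ≤ f) (hf1 : f ≤ 1) :
    (a * d * t + f * b) ^ 2 ≤ a * d * (t * (t * d)) + f * (2 * t * b * d) + (4 * R * b0 + b0 ^ 2) := by
  have hR : 0 ≤ R := (abs_nonneg d).trans hd
  have hb0 : 0 ≤ b0 := (abs_nonneg b).trans hb
  have h1 : |d * b| ≤ R * b0 := by
    rw [abs_mul]; exact mul_le_mul hd hb (abs_nonneg _) hR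
  have h2 := abs_le.mp h1
  have h3 : b ^ 2 ≤ b0 ^ 2 := by rw [← sq_abs b]; exact pow_le_pow_left₀ (abs_nonneg _) hb 2
  have h4 : 0 ≤ a * (1 - a) * (d ^ 2 * t ^ 2) := by
    have : 0 ≤ 1 - a := by linarith
    positivity
  -- coefficient of d * b : 2 a t f - 2 f t
  have h5 : |(2 * a * t * f - 2 * f * t) * (d * b)| ≤ 2 * (R * b0) := by
    rw [abs_mul]
    have e1 : |2 * a * t * f - 2 * f * t| ≤ 2 := by
      have e0 : 0 ≤ t * f := by positivity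
      have e2 : t * f ≤ 1 := mul_le_one₀ ht1 hf hf1
      rw [abs_le]
      constructor <;> nlinarith [mul_nonneg ha e0]
    exact mul_le_mul e1 h1 (abs_nonneg _) (by norm_num)
  have h6 := abs_le.mp h5
  have h7 : f ^ 2 * b ^ 2 ≤ b0 ^ 2 := by
    have : f ^ 2 ≤ 1 := pow_le_one₀ hf hf1
    nlinarith [sq_nonneg b]
  have h8 : 0 ≤ R * b0 := mul_nonneg hR hb0
  nlinarith

theorem ineq_i (P : Par w x η k D) {p : E 8} (g : Good w x η k D p) {i : Fin 8} (hi : i ≠ 7) :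
    pd i (ff w x η k) p ^ 2 ≤ pd i (GG w x η k i) p -
      ph w x p * ta w η k p ^ 2 * pd i (PhD w i) p +
      (16 * (1 + Real.sqrt (2 * x)) * D + 16 * D ^ 2) / k ^ 2 := by
  have hh0 : 0 < hh w k p := lt_of_lt_of_le (by norm_num) g.hpos
  have hk1 := P.k_ge
  have hk0 : 0 < k := by linarith
  obtain ⟨f0, _, f1, _, _⟩ := ph_good P g
  obtain ⟨t0, t1, _⟩ := ta_good P g
  rw [pd_ff P g.p0 hh0, pd_GG P g.p0 hh0 hi]
  have h := alg1 (FF'_nonneg (cc_pos x) (Ph w p)) (FF'_le_one (cc_pos x) (Ph w p)) (abs_PhD P g i)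
    (abs_b P g hi) t0 t1 f0 f1
  have h2 : 4 * (1 + Real.sqrt (2 * x)) * (4 * D / k ^ 2) + (4 * D / k ^ 2) ^ 2 ≤
      (16 * (1 + Real.sqrt (2 * x)) * D + 16 * D ^ 2) / k ^ 2 := by
    have e : (4 * D / k ^ 2) ^ 2 ≤ 16 * D ^ 2 / k ^ 2 := by
      rw [div_pow, div_le_div_iff₀ (by positivity) (by positivity)]
      have : k ^ 2 ≤ (k ^ 2) ^ 2 := by nlinarith [show (1:ℝ) ≤ k ^ 2 by nlinarith]
      nlinarith [sq_nonneg D]
    have e2 : (16 * (1 + Real.sqrt (2 * x)) * D + 16 * D ^ 2) / k ^ 2 =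
      4 * (1 + Real.sqrt (2 * x)) * (4 * D / k ^ 2) + 16 * D ^ 2 / k ^ 2 := by ring
    rw [e2]; linarith
  nlinarith

theorem ineq_7 (P : Par w x η k D) {p : E 8} (g : Good w x η k D p) :
    pd 7 (ff w x η k) p ^ 2 ≤ pd 7 (GG w x η k 7) p +
      ph w x p ^ 2 * kap w k p ^ 2 * (ta w η k p * Real.cos (th w k p)) := by
  have hh0 : 0 < hh w k p := lt_of_lt_of_le (by norm_num) g.hpos
  have h6 : PhD w 7 p = 0 := by unfold PhD; rw [if_neg (by decide), if_pos rfl]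
  rw [pd_ff P g.p0 hh0, pd_GG7 P g.p0 hh0, pd_th P.w_pos P.k_ge hh0, pd7_V P.w_pos, if_pos rfl,
    h6, g.taEq']
  have h1 := FF'_nonneg P.η_pos (Real.cos (th w k p))
  have h2 := FF'_le_one P.η_pos (Real.cos (th w k p))
  have h3 : 0 ≤ ph w x p ^ 2 * kap w k p ^ 2 * (Real.sin (th w k p) ^ 2 *
      (FF' η (Real.cos (th w k p)) * (1 - FF' η (Real.cos (th w k p))))) := by
    have : 0 ≤ 1 - FF' η (Real.cos (th w k p)) := by linarith
    positivity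
  nlinarith

theorem sum8 (F : Fin 8 → ℝ) : ∑ i, F i = (F 0 + ∑ i ∈ yI, F i) + F 7 := by
  rw [Fin.sum_univ_eight]
  simp [yI]
  ring

theorem alg2 {v : ℝ} (h1 : v ≤ 1 / 2) : 1 / (1 - v) ^ 2 ≤ 1 + 2 * v + 8 * v ^ 2 := by
  have h2 : 0 < 1 - v := by linarith
  rw [div_le_iff₀ (by positivity)]
  nlinarith [mul_nonneg (sq_nonneg v) (mul_nonneg (show 0 ≤ 1 - 2 * v by linarith)
    (show 0 ≤ 5 - 4 * v by linarith))]

theorem kap_sq_le (P : Par w x η k D) {p : E 8} (g : Good w x η k D p) :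
    kap w k p ^ 2 ≤ k ^ 2 + V w p + 2 * (2 * x + 2) ^ 2 / k ^ 2 ∧ kap w k p ^ 2 ≤ 4 * k ^ 2 := by
  have hk0 : 0 < k := lt_of_lt_of_le one_pos P.k_ge
  have hh0 : 0 < hh w k p := lt_of_lt_of_le (by norm_num) g.hpos
  have hV := V_pos P.w_pos p
  set v := V w p / (2 * k ^ 2) with hv
  have hv0 : 0 ≤ v := by positivity
  have hv1 : v ≤ 1 / 2 := by
    have := g.hpos
    unfold hh at this
    linarith
  have h1 := alg2 hv1
  have e : kap w k p ^ 2 = k ^ 2 * (1 / (1 - v) ^ 2) := by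
    unfold kap hh; rw [div_pow]; ring
  constructor
  · rw [e]
    have h2 : k ^ 2 * (1 / (1 - v) ^ 2) ≤ k ^ 2 * (1 + 2 * v + 8 * v ^ 2) :=
      mul_le_mul_of_nonneg_left h1 (by positivity)
    have h3 : k ^ 2 * (1 + 2 * v + 8 * v ^ 2) = k ^ 2 + V w p + 2 * V w p ^ 2 / k ^ 2 := by
      rw [hv]; field_simp; ring
    have h4 : 2 * V w p ^ 2 / k ^ 2 ≤ 2 * (2 * x + 2) ^ 2 / k ^ 2 := by
      apply div_le_div_of_nonneg_right _ (by positivity)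
      have := pow_le_pow_left₀ hV.le g.Vl 2
      linarith
    linarith
  · rw [e]
    have : 1 / (1 - v) ^ 2 ≤ 4 := by
      rw [div_le_iff₀ (by nlinarith)]
      nlinarith
    nlinarith [sq_nonneg k]

noncomputable def KT (w k : ℝ) : Set (E 8) :=
  box (hw ((w ^ 4)⁻¹ / 2) (2 * w) (2 / k))

theorem max_ff (P : Par w x η k D) {p : E 8} (g : Good w x η k D p) :
    max (AA w (p 0) - r2 p) 0 * ff w x η k p ^ 2 ≤ 2 * w ^ 2 * (KT w k).indicator (fun _ => (1 : ℝ)) p := by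
  have hA := AA_le P.w_pos P.w_le g.p0.le
  obtain ⟨f0, _, f1, _, _⟩ := ph_good P g
  obtain ⟨t0, t1, _⟩ := ta_good P g
  have hf : ff w x η k p ^ 2 ≤ 1 := by
    unfold ff
    exact pow_le_one₀ (mul_nonneg f0 t0) (mul_le_one₀ f1 t0 t1)
  have hind : 0 ≤ (KT w k).indicator (fun _ => (1 : ℝ)) p :=
    indicator_nonneg (fun _ _ => zero_le_one) _
  have hw0 := P.w_pos
  rcases le_total (AA w (p 0) - r2 p) 0 with h | h
  · rw [max_eq_right h, zero_mul]; positivity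
  · have hr : r2 p ≤ 2 * w ^ 2 := by linarith
    have hm : p ∈ KT w k := by
      intro i
      by_cases hi : i = 0
      · subst hi; exact g.p0.le
      · by_cases hi7 : i = 7
        · subst hi7; exact g.p7
        · have e : hw ((w ^ 4)⁻¹ / 2) (2 * w) (2 / k) i = 2 * w := by
            unfold Up.hw; rw [if_neg hi, if_neg hi7]
          rw [e]
          have h1 : p i ^ 2 ≤ r2 p := Finset.single_le_sum (f := fun i => p i ^ 2)
            (fun j _ => sq_nonneg _) (mem_yI_of hi hi7)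
          apply abs_le_of_sq_le_sq _ (by positivity)
          nlinarith
    rw [indicator_of_mem hm, mul_one, max_eq_left h]
    have h2 : AA w (p 0) - r2 p ≤ 2 * w ^ 2 := by linarith [r2_nonneg p]
    calc _ ≤ (2 * w ^ 2) * 1 := mul_le_mul h2 hf (sq_nonneg _) (by positivity)
      _ = _ := by ring

noncomputable def C2 (x D : ℝ) : ℝ :=
  2 * (2 * x + 2) ^ 2 + 7 * (16 * (1 + Real.sqrt (2 * x)) * D + 16 * D ^ 2)

noncomputable def eps (w x η k D : ℝ) : ℝ :=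
  2 * cc x * (bet w ^ 2 + 6) + 8 * η * k ^ 2 + C2 x D / k ^ 2

theorem eps_nonneg (P : Par w x η k D) : 0 ≤ eps w x η k D := by
  unfold eps C2
  have h1 := cc_pos x
  have h2 := P.η_pos
  have h3 := P.D_nonneg
  have h4 := P.x_ge
  positivity

theorem alg3 {φ Φ τ c B r : ℝ} (fP : φ * Φ ≤ φ ^ 2 + 2 * c) (fle : φ ≤ Φ) (f0 : 0 ≤ φ)
    (t0 : 0 ≤ τ) (t1 : τ ≤ 1) (hB : 0 ≤ B) (hr : 0 ≤ r) (hc : 0 < c) :
    φ * τ ^ 2 * ((B - r) * Φ) ≤ B * (φ * τ) ^ 2 + 2 * c * B - r * (φ * τ) ^ 2 := by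
  have s1 : τ ^ 2 * (φ * Φ) ≤ (φ * τ) ^ 2 + 2 * c := by
    have h1 : τ ^ 2 * (φ * Φ) ≤ τ ^ 2 * (φ ^ 2 + 2 * c) :=
      mul_le_mul_of_nonneg_left fP (sq_nonneg _)
    have h2 : τ ^ 2 * (2 * c) ≤ 1 * (2 * c) :=
      mul_le_mul_of_nonneg_right (pow_le_one₀ t0 t1) (by positivity)
    have h3 : τ ^ 2 * (φ ^ 2 + 2 * c) = (φ * τ) ^ 2 + τ ^ 2 * (2 * c) := by ring
    linarith
  have s2 : (φ * τ) ^ 2 ≤ τ ^ 2 * (φ * Φ) := by
    have h1 : φ * φ ≤ φ * Φ := mul_le_mul_of_nonneg_left fle f0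
    have h2 := mul_le_mul_of_nonneg_left h1 (sq_nonneg τ)
    have h3 : (φ * τ) ^ 2 = τ ^ 2 * (φ * φ) := by ring
    linarith
  have s3 := mul_le_mul_of_nonneg_left s1 hB
  have s4 := mul_le_mul_of_nonneg_left s2 hr
  have e1 : φ * τ ^ 2 * ((B - r) * Φ) = B * (τ ^ 2 * (φ * Φ)) - r * (τ ^ 2 * (φ * Φ)) := by ring
  have e2 : B * ((φ * τ) ^ 2 + 2 * c) = B * (φ * τ) ^ 2 + 2 * c * B := by ring
  linarith

theorem alg4 {φ τ κ η C K : ℝ} (tc : τ * C ≤ τ ^ 2 + 2 * η) (f0 : 0 ≤ φ) (f1 : φ ≤ 1)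
    (hκ0 : 0 ≤ κ) (kb4 : κ ≤ 4 * K ^ 2) (hη : 0 < η) :
    φ ^ 2 * κ * (τ * C) ≤ κ * (φ * τ) ^ 2 + 8 * η * K ^ 2 := by
  have s1 : φ ^ 2 * κ * (τ * C) ≤ φ ^ 2 * κ * (τ ^ 2 + 2 * η) :=
    mul_le_mul_of_nonneg_left tc (by positivity)
  have s2 : φ ^ 2 * κ * (2 * η) ≤ 1 * (4 * K ^ 2) * (2 * η) := by
    apply mul_le_mul_of_nonneg_right _ (by positivity)
    exact mul_le_mul (pow_le_one₀ f0 f1) kb4 hκ0 (by norm_num)
  have s3 : φ ^ 2 * κ * (τ ^ 2 + 2 * η) = κ * (φ * τ) ^ 2 + φ ^ 2 * κ * (2 * η) := by ring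
  have s4 : 1 * (4 * K ^ 2) * (2 * η) = 8 * η * K ^ 2 := by ring
  linarith

theorem pointwise (P : Par w x η k D) (p : E 8) :
    ∑ i, pd i (ff w x η k) p ^ 2 ≤ ∑ i, pd i (GG w x η k i) p +
      (k ^ 2 + 6 + bet w ^ 2 + w ^ 8 / 2) * ff w x η k p ^ 2 +
      2 * w ^ 2 * (KT w k).indicator (fun _ => (1 : ℝ)) p +
      eps w x η k D * (KK w x k).indicator (fun _ => (1 : ℝ)) p := by
  have hw0 := P.w_pos
  rcases cases_p P p with b | g
  · have h1 : ∑ i, pd i (ff w x η k) p ^ 2 = 0 :=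
      Finset.sum_eq_zero fun i _ => by rw [b.fd i]; norm_num
    have h2 : ∑ i, pd i (GG w x η k i) p = 0 := Finset.sum_eq_zero fun i _ => b.Gd i
    rw [h1, h2, b.f0]
    have h3 : 0 ≤ (KT w k).indicator (fun _ => (1 : ℝ)) p :=
      indicator_nonneg (fun _ _ => zero_le_one) _
    have h4 : 0 ≤ (KK w x k).indicator (fun _ => (1 : ℝ)) p :=
      indicator_nonneg (fun _ _ => zero_le_one) _
    have h5 := eps_nonneg P
    have h6 := mul_nonneg h5 h4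
    have h7 : 0 ≤ 2 * w ^ 2 * (KT w k).indicator (fun _ => (1 : ℝ)) p := by positivity
    linarith
  · rw [indicator_of_mem g.mem, mul_one, sum8, sum8]
    have hmax := max_ff P g
    obtain ⟨f0, fle, f1, Ph1, fP⟩ := ph_good P g
    obtain ⟨t0, t1, tc⟩ := ta_good P g
    obtain ⟨kb, kb4⟩ := kap_sq_le P g
    have i0 := ineq_i P g (i := 0) (by decide)
    have i7 := ineq_7 P g
    have iY : ∑ i ∈ yI, pd i (ff w x η k) p ^ 2 ≤ ∑ i ∈ yI, pd i (GG w x η k i) p -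
        ph w x p * ta w η k p ^ 2 * ∑ i ∈ yI, pd i (PhD w i) p +
        6 * ((16 * (1 + Real.sqrt (2 * x)) * D + 16 * D ^ 2) / k ^ 2) := by
      have h := Finset.sum_le_sum fun i (hi : i ∈ yI) => ineq_i P g (ne_of_mem_yI hi).2
      rw [Finset.sum_add_distrib, Finset.sum_sub_distrib, ← Finset.mul_sum] at h
      have e : ∑ _i ∈ yI, (16 * (1 + Real.sqrt (2 * x)) * D + 16 * D ^ 2) / k ^ 2 =
          6 * ((16 * (1 + Real.sqrt (2 * x)) * D + 16 * D ^ 2) / k ^ 2) := by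
        rw [Finset.sum_const, show yI.card = 6 from rfl]; simp
      rw [e] at h
      exact h
    have hsum := sum_pd_PhD w p
    set e1 := (16 * (1 + Real.sqrt (2 * x)) * D + 16 * D ^ 2) / k ^ 2 with he1
    set φ := ph w x p with hφ
    set τ := ta w η k p with hτ
    set Φ := Ph w p with hΦ
    set κ := kap w k p ^ 2 with hκ
    have hff : ff w x η k p = φ * τ := rfl
    have hb2 : 0 ≤ bet w ^ 2 + 6 := by positivity
    have hr := r2_nonneg p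
    have hcc := cc_pos x
    have hη := P.η_pos
    -- X part
    have X1 := alg3 fP fle f0 t0 t1 hb2 hr hcc
    -- z part
    have Z1 := alg4 tc f0 f1 (show 0 ≤ κ from sq_nonneg _) kb4 hη
    have hff2 : (φ * τ) ^ 2 ≤ 1 := pow_le_one₀ (mul_nonneg f0 t0) (mul_le_one₀ f1 t0 t1)
    have hff0 : 0 ≤ (φ * τ) ^ 2 := sq_nonneg _
    have K1 : κ * (φ * τ) ^ 2 ≤ (k ^ 2 + V w p) * (φ * τ) ^ 2 + 2 * (2 * x + 2) ^ 2 / k ^ 2 := by
      have s1 := mul_le_mul_of_nonneg_right kb hff0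
      have s2 : 2 * (2 * x + 2) ^ 2 / k ^ 2 * (φ * τ) ^ 2 ≤ 2 * (2 * x + 2) ^ 2 / k ^ 2 * 1 :=
        mul_le_mul_of_nonneg_left hff2 (by positivity)
      have s3 : (k ^ 2 + V w p + 2 * (2 * x + 2) ^ 2 / k ^ 2) * (φ * τ) ^ 2 =
        (k ^ 2 + V w p) * (φ * τ) ^ 2 + 2 * (2 * x + 2) ^ 2 / k ^ 2 * (φ * τ) ^ 2 := by ring
      linarith
    have V1 : V w p * (φ * τ) ^ 2 ≤ r2 p * (φ * τ) ^ 2 +
        max (AA w (p 0) - r2 p) 0 * (φ * τ) ^ 2 + w ^ 8 / 2 * (φ * τ) ^ 2 := by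
      have := mul_le_mul_of_nonneg_right (V_le P.w_pos p) hff0
      rw [add_mul, add_mul] at this
      exact this
    rw [hff] at hmax ⊢
    have E1 : eps w x η k D = 2 * cc x * (bet w ^ 2 + 6) + 8 * η * k ^ 2 +
        2 * (2 * x + 2) ^ 2 / k ^ 2 + 7 * e1 := by
      unfold eps C2; rw [he1]; ring
    rw [E1]
    have X2 : φ * τ ^ 2 * pd 0 (PhD w 0) p + φ * τ ^ 2 * ∑ i ∈ yI, pd i (PhD w i) p =
        -(φ * τ ^ 2 * ((bet w ^ 2 + 6 - r2 p) * Φ)) := by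
      rw [← mul_add, hsum]; ring
    have G1 : (k ^ 2 + 6 + bet w ^ 2 + w ^ 8 / 2) * (φ * τ) ^ 2 =
        (bet w ^ 2 + 6) * (φ * τ) ^ 2 + k ^ 2 * (φ * τ) ^ 2 + w ^ 8 / 2 * (φ * τ) ^ 2 := by ring
    have G2 : (k ^ 2 + V w p) * (φ * τ) ^ 2 = k ^ 2 * (φ * τ) ^ 2 + V w p * (φ * τ) ^ 2 := by ring
    rw [G1]
    rw [G2] at K1
    linarith

end

end Pool.Agent.GS8.Up
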