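import Mathlib
import Pool.Agent.GS8.Defs
import Pool.Agent.GS8.UpperD

/-!
# MP_dd30b7_an, JOB 8: `TargetUpper`
-/

set_option autoImplicit false

open MeasureTheory Set Filter Topology
open scoped Real ContDiff

namespace Pool.Agent.GS8.Up

section
variable {w x η k D : ℝ}

theorem ff_zero (P : Par w x η k D) {p : E 8} (hp : p ∉ KK w x k) : ff w x η k p = 0 := by
  rcases cases_p P p with b | g
  · exact b.f0
  · exact absurd g.mem hp

theorem GG_zero (P : Par w x η k D) {p : E 8} (hp : p ∉ KK w x k) (i : Fin 8) :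
    GG w x η k i p = 0 := by
  rcases cases_p P p with b | g
  · exact b.G0 i
  · exact absurd g.mem hp

theorem ff_compact (P : Par w x η k D) : HasCompactSupport (ff w x η k) :=
  HasCompactSupport.intro (box_compact _) fun _ hp => ff_zero P hp

theorem GG_compact (P : Par w x η k D) (i : Fin 8) : HasCompactSupport (GG w x η k i) :=
  HasCompactSupport.intro (box_compact _) fun _ hp => GG_zero P hp i

theorem hh_ge (P : Par w x η k D) {p : E 8} (h0 : |p 0| ≤ (w ^ 4)⁻¹ / 2) (h3 : r2 p ≤ 2 * x) :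
    1 / 2 ≤ hh w k p := by
  have hA := AA_le P.w_pos P.w_le h0
  have hV := V_le P.w_pos p
  have hw0 := P.w_pos
  have hk0 : 0 < k := lt_of_lt_of_le one_pos P.k_ge
  have hw2 : w ^ 2 ≤ 1 / 16 := by nlinarith [P.w_le]
  have hw8 : w ^ 8 ≤ 1 := pow_le_one₀ hw0.le (by linarith [P.w_le])
  have hm : max (AA w (p 0) - r2 p) 0 ≤ 1 / 8 := by
    apply max_le
    · linarith [r2_nonneg p]
    · norm_num
  unfold hh
  have h5 : V w p / (2 * k ^ 2) ≤ 1 / 2 := by
    rw [div_le_iff₀ (by positivity)]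
    linarith [P.k_sq]
  linarith

theorem ff_test (P : Par w x η k D) : Test1 (Om w k) (ff w x η k) := by
  refine ⟨ff_contDiff P, ff_compact P, ?_⟩
  have hk0 : 0 < k := lt_of_lt_of_le one_pos P.k_ge
  set Kf : Set (E 8) := {p | |p 0| ≤ (w ^ 4)⁻¹ / 2 ∧ r2 p ≤ 2 * x ∧
    k * |p 7| ≤ Real.arccos η * hh w k p} with hKf
  have hclosed : IsClosed Kf := by
    have h1 : IsClosed {p : E 8 | |p 0| ≤ (w ^ 4)⁻¹ / 2} :=
      isClosed_le (by fun_prop) (by fun_prop)
    have h2 : IsClosed {p : E 8 | r2 p ≤ 2 * x} :=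
      isClosed_le r2_contDiff.continuous (by fun_prop)
    have h3 : IsClosed {p : E 8 | k * |p 7| ≤ Real.arccos η * hh w k p} :=
      isClosed_le (by fun_prop) (continuous_const.mul (hh_contDiff P.w_pos).continuous)
    exact h1.inter (h2.inter h3)
  have hsub : Function.support (ff w x η k) ⊆ Kf := by
    intro p hp
    rcases cases_p P p with b | g
    · exact absurd b.f0 hp
    · have hh0 : 0 < hh w k p := lt_of_lt_of_le (by norm_num) g.hpos
      refine ⟨g.p0.le, g.r2l.le, ?_⟩
      have h1 : |th w k p| = k / hh w k p * |p 7| := by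
        unfold th kap
        rw [abs_mul, abs_of_pos (by positivity)]
      have h2 : |th w k p| ≤ Real.arccos η := by
        have hpi := Real.pi_pos
        have h3 : Real.arccos (Real.cos |th w k p|) = |th w k p| :=
          Real.arccos_cos (abs_nonneg _) (by linarith [g.thl])
        rw [← h3]
        apply Real.arccos_le_arccos
        rw [Real.cos_abs]
        exact g.cosl.le
      rw [h1] at h2
      have h3 := mul_le_mul_of_nonneg_right h2 hh0.le
      have e : k / hh w k p * |p 7| * hh w k p = k * |p 7| := by field_simp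
      rw [e] at h3
      exact h3
  refine (closure_minimal hsub hclosed).trans ?_
  rintro p ⟨h1, h2, h3⟩
  have hh0 := hh_ge P h1 h2
  have hh1 : 0 < hh w k p := by linarith
  have hL : 0 < (w ^ 4)⁻¹ := by have := P.w_pos; positivity
  refine ⟨by linarith, ?_⟩
  have ha : Real.arccos η < π / 2 := Real.arccos_lt_pi_div_two.mpr P.η_pos
  have h4 : k * |p 7| < π / 2 * hh w k p := lt_of_le_of_lt h3 (mul_lt_mul_of_pos_right ha hh1)
  have e : π / (2 * k) * hh w k p = π / 2 * hh w k p / k := by field_simp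
  rw [e, lt_div_iff₀ hk0]
  linarith

theorem integral_ind (l : Fin 8 → ℝ) :
    ∫ p, (box l).indicator (fun _ => (1 : ℝ)) p = volume.real (box l) := by
  rw [integral_indicator_const _ (box_measurable l)]
  simp

theorem integrable_ind (l : Fin 8 → ℝ) :
    Integrable (fun p => (box l).indicator (fun _ => (1 : ℝ)) p) :=
  (integrable_indicator_iff (box_measurable l)).mpr (integrableOn_const (box_vol_lt l).ne)

theorem integrable_sq {F : E 8 → ℝ} (hF : Continuous F) (hc : HasCompactSupport F) :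
    Integrable (fun p => F p ^ 2) := by
  have h1 : Continuous (fun p => F p ^ 2) := hF.pow 2
  have h2 : HasCompactSupport (fun p => F p ^ 2) := by
    refine hc.mono fun p hp => ?_
    intro h0
    apply hp
    show F p ^ 2 = 0
    rw [h0]; norm_num
  exact h1.integrable_of_hasCompactSupport h2

theorem int4 {X : Type*} [MeasurableSpace X] {μ : Measure X} {F A B C D : X → ℝ} {b c d : ℝ}
    (hF : Integrable F μ) (hA : Integrable A μ) (hB : Integrable B μ) (hC : Integrable C μ)
    (hD : Integrable D μ) (h : ∀ p, F p ≤ A p + b * B p + c * C p + d * D p) :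
    ∫ p, F p ∂μ ≤ (∫ p, A p ∂μ) + b * (∫ p, B p ∂μ) + c * (∫ p, C p ∂μ) + d * (∫ p, D p ∂μ) := by
  have h1 := hB.const_mul b
  have h2 := hC.const_mul c
  have h3 := hD.const_mul d
  have h4 : Integrable (fun p => A p + b * B p) μ := hA.add h1
  have h5 : Integrable (fun p => A p + b * B p + c * C p) μ := h4.add h2
  have h6 : Integrable (fun p => A p + b * B p + c * C p + d * D p) μ := h5.add h3
  refine (integral_mono hF h6 h).trans (le_of_eq ?_)
  rw [integral_add h5 h3, integral_add h4 h2, integral_add hA h1, integral_const_mul,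
    integral_const_mul, integral_const_mul]

theorem energy_le (P : Par w x η k D) :
    (∑ i, ∫ p, pd i (ff w x η k) p ^ 2) ≤
      (k ^ 2 + 6 + bet w ^ 2 + w ^ 8 / 2) * (∫ p, ff w x η k p ^ 2) +
      2 * w ^ 2 * volume.real (KT w k) + eps w x η k D * volume.real (KK w x k) := by
  have hf := ff_contDiff P
  have hc := ff_compact P
  have I1 : ∀ i : Fin 8, Integrable (fun p => pd i (ff w x η k) p ^ 2) := fun i =>
    integrable_sq (pd_continuous hf) (pd_compact hc)
  have I2 : ∀ i : Fin 8, Integrable (fun p => pd i (GG w x η k i) p) := fun i =>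
    (pd_continuous (GG_contDiff P i)).integrable_of_hasCompactSupport (pd_compact (GG_compact P i))
  have I3 : Integrable (fun p => ff w x η k p ^ 2) := integrable_sq hf.continuous hc
  have I4 : Integrable (fun p => (KT w k).indicator (fun _ => (1 : ℝ)) p) := integrable_ind _
  have I5 : Integrable (fun p => (KK w x k).indicator (fun _ => (1 : ℝ)) p) := integrable_ind _
  have A0 : Integrable (fun p => ∑ i, pd i (ff w x η k) p ^ 2) :=
    integrable_finsetSum _ fun i _ => I1 i
  have A1 : Integrable (fun p => ∑ i, pd i (GG w x η k i) p) :=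
    integrable_finsetSum Finset.univ fun i _ => I2 i
  have hm := int4 A0 A1 I3 I4 I5 (fun p => pointwise P p)
  have e2 : ∑ i, (∫ p, pd i (GG w x η k i) p) = 0 :=
    Finset.sum_eq_zero fun i _ => integral_pd_zero (GG_contDiff P i) (GG_compact P i)
  have e3 : ∫ p, (KT w k).indicator (fun _ => (1 : ℝ)) p = volume.real (KT w k) := integral_ind _
  have e4 : ∫ p, (KK w x k).indicator (fun _ => (1 : ℝ)) p = volume.real (KK w x k) :=
    integral_ind _
  rw [integral_finsetSum _ fun i _ => I1 i, integral_finsetSum _ fun i _ => I2 i, e2, e3, e4,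
    zero_add] at hm
  exact hm

theorem exp_neg_three : Real.exp (-3) ≤ 1 / 19 := by
  rw [Real.exp_neg, inv_le_comm₀ (Real.exp_pos _) (by norm_num)]
  have h1 : Real.exp 3 = Real.exp 1 ^ 3 := by rw [← Real.exp_nat_mul]; norm_num
  rw [h1]
  have h2 : (2.7 : ℝ) < Real.exp 1 := by have := Real.exp_one_gt_d9; linarith
  have h3 : (2.7 : ℝ) ^ 3 ≤ Real.exp 1 ^ 3 := pow_le_pow_left₀ (by norm_num) h2.le 3
  norm_num at h3 ⊢
  linarith

theorem ff_lower (P : Par w x η k D) {p : E 8}
    (hp : p ∈ box (hw ((w ^ 4)⁻¹ / 8) (1 / 4) (1 / (4 * k)))) : 1 / 4 ≤ ff w x η k p := by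
  have hw0 := P.w_pos
  have hk0 : 0 < k := lt_of_lt_of_le one_pos P.k_ge
  have hL : 0 < (w ^ 4)⁻¹ := by positivity
  have h0 : |p 0| ≤ (w ^ 4)⁻¹ / 8 := hp 0
  have h7 : |p 7| ≤ 1 / (4 * k) := hp 7
  have hY : ∀ i ∈ yI, |p i| ≤ 1 / 4 := by
    intro i hi
    obtain ⟨a, b⟩ := ne_of_mem_yI hi
    have := hp i
    unfold hw at this
    rwa [if_neg a, if_neg b] at this
  have hr : r2 p ≤ 6 / 16 := by
    unfold r2
    have : ∑ i ∈ yI, p i ^ 2 ≤ ∑ i ∈ yI, (1 / 16 : ℝ) := by
      refine Finset.sum_le_sum fun i hi => ?_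
      have := pow_le_pow_left₀ (abs_nonneg _) (hY i hi) 2
      rw [sq_abs] at this
      linarith
    rw [Finset.sum_const, show yI.card = 6 from rfl] at this
    refine this.trans ?_
    norm_num
  have p0 : |p 0| < (w ^ 4)⁻¹ / 2 := by linarith
  have hx := P.x_ge
  have hh1 := hh_ge P p0.le (by linarith)
  have hh0 : 0 < hh w k p := by linarith
  -- cos (β p0)
  have hb : |bet w * p 0| ≤ 2 / 5 := by
    rw [abs_mul, abs_of_pos (bet_pos hw0)]
    have h1 : bet w * |p 0| ≤ bet w * ((w ^ 4)⁻¹ / 8) :=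
      mul_le_mul_of_nonneg_left h0 (bet_pos hw0).le
    have h2 := bet_mul hw0
    have h3 := Real.pi_lt_d2
    nlinarith
  have hc1 : 23 / 25 ≤ Real.cos (bet w * p 0) := by
    have h1 := Real.one_sub_sq_div_two_le_cos (x := bet w * p 0)
    have h2 : (bet w * p 0) ^ 2 ≤ (2 / 5) ^ 2 := by
      rw [← sq_abs]; exact pow_le_pow_left₀ (abs_nonneg _) hb 2
    linarith
  have he : 13 / 16 ≤ Real.exp (-(r2 p) / 2) := by
    have := Real.add_one_le_exp (-(r2 p) / 2)
    linarith
  have hPh : 7 / 10 ≤ Ph w p := by unfold Ph; nlinarith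
  have hcc : cc x ≤ 1 / 19 := by
    unfold cc
    refine le_trans ?_ exp_neg_three
    rw [Real.exp_le_exp]; linarith
  have hph : 1 / 2 ≤ ph w x p := by
    rw [ph_eq p0]
    have := FF_ge (cc_pos x) (Ph w p)
    linarith
  -- the angle
  have ht : |th w k p| ≤ 1 / 2 := by
    unfold th kap
    rw [abs_mul, abs_of_pos (show 0 < k / hh w k p by positivity)]
    have h1 : k / hh w k p ≤ 2 * k := by
      rw [div_le_iff₀ hh0]; nlinarith
    have h2 : k / hh w k p * |p 7| ≤ 2 * k * (1 / (4 * k)) :=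
      mul_le_mul h1 h7 (abs_nonneg _) (by positivity)
    have h3 : 2 * k * (1 / (4 * k)) = 1 / 2 := by field_simp; norm_num
    linarith
  have htc : 7 / 8 ≤ Real.cos (th w k p) := by
    have h1 := Real.one_sub_sq_div_two_le_cos (x := th w k p)
    have h2 : (th w k p) ^ 2 ≤ (1 / 2) ^ 2 := by
      rw [← sq_abs]; exact pow_le_pow_left₀ (abs_nonneg _) ht 2
    linarith
  have hta : 1 / 2 ≤ ta w η k p := by
    unfold ta Tr
    have hpi := Real.pi_gt_three
    rw [if_pos (show th w k p ∈ {t : ℝ | |t| < π / 2} by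
      show |th w k p| < π / 2
      linarith)]
    have := FF_ge P.η_pos (Real.cos (th w k p))
    have := P.η_le
    linarith
  unfold ff
  nlinarith

theorem int_lower (P : Par w x η k D) :
    (w ^ 4)⁻¹ / (8192 * k) ≤ ∫ p, ff w x η k p ^ 2 := by
  have hw0 := P.w_pos
  have hk0 : 0 < k := lt_of_lt_of_le one_pos P.k_ge
  have hf := ff_contDiff P
  have hc := ff_compact P
  have I3 : Integrable (fun p => ff w x η k p ^ 2) := integrable_sq hf.continuous hc
  have h := integral_mono ((integrable_ind (hw ((w ^ 4)⁻¹ / 8) (1 / 4) (1 / (4 * k)))).const_mul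
    (1 / 16)) I3 (fun p => by
      show 1 / 16 * (box (hw ((w ^ 4)⁻¹ / 8) (1 / 4) (1 / (4 * k)))).indicator
        (fun _ => (1 : ℝ)) p ≤ ff w x η k p ^ 2
      by_cases hp : p ∈ box (hw ((w ^ 4)⁻¹ / 8) (1 / 4) (1 / (4 * k)))
      · rw [indicator_of_mem hp]
        have := ff_lower P hp
        nlinarith
      · rw [indicator_of_notMem hp, mul_zero]; positivity)
  rw [integral_const_mul, integral_ind, hw_vol (by positivity) (by positivity) (by positivity)] at h
  refine le_trans (le_of_eq ?_) h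
  field_simp
  norm_num

theorem upper_main (P : Par w x η k D)
    (hsmall : 16777216 * x ^ 3 * eps w x η k D ≤ w ^ 8) {lam : ℝ}
    (hlam : lam * ∫ p, ff w x η k p ^ 2 ≤ ∑ i : Fin 8, ∫ p, pd i (ff w x η k) p ^ 2) :
    lam ≤ k ^ 2 + 6 + 268435470 * w ^ 8 := by
  have hw0 := P.w_pos
  have hk0 : 0 < k := lt_of_lt_of_le one_pos P.k_ge
  have hx := P.x_ge
  have hI := int_lower P
  have hE := energy_le P
  have hm : 0 < (w ^ 4)⁻¹ / (8192 * k) := by positivity
  have hI0 : 0 < ∫ p, ff w x η k p ^ 2 := lt_of_lt_of_le hm hI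
  have hT : 2 * w ^ 2 * volume.real (KT w k) = 268435456 * w ^ 8 * ((w ^ 4)⁻¹ / (8192 * k)) := by
    unfold KT
    rw [hw_vol (by positivity) (by positivity) (by positivity)]
    field_simp
    norm_num
  have hK : volume.real (KK w x k) = 16777216 * x ^ 3 * ((w ^ 4)⁻¹ / (8192 * k)) := by
    unfold KK
    rw [hw_vol (by positivity) (by positivity) (by positivity)]
    have e : (2 * Real.sqrt (2 * x)) ^ 6 = 512 * x ^ 3 := by
      have : (2 * Real.sqrt (2 * x)) ^ 6 = 64 * (Real.sqrt (2 * x) ^ 2) ^ 3 := by ring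
      rw [this, Real.sq_sqrt (by positivity)]; ring
    rw [e]
    field_simp
    norm_num
  have hK2 : eps w x η k D * volume.real (KK w x k) ≤ w ^ 8 * ((w ^ 4)⁻¹ / (8192 * k)) := by
    rw [hK]
    have := mul_le_mul_of_nonneg_right hsmall hm.le
    linarith
  have hb : bet w ^ 2 ≤ 10 * w ^ 8 := by
    unfold bet
    have h1 := Real.pi_lt_d2
    have h2 := Real.pi_pos
    have h3 : π ^ 2 ≤ 10 := by nlinarith
    have e : (π * w ^ 4) ^ 2 = π ^ 2 * w ^ 8 := by ring
    rw [e]
    exact mul_le_mul_of_nonneg_right h3 (by positivity)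
  rw [hT] at hE
  set I := ∫ p, ff w x η k p ^ 2 with hIdef
  set m := (w ^ 4)⁻¹ / (8192 * k) with hmdef
  have hw8 : 0 < w ^ 8 := by positivity
  have h1 : lam * I ≤ (k ^ 2 + 6 + 268435470 * w ^ 8) * I := by
    have a1 : w ^ 8 * m ≤ w ^ 8 * I := mul_le_mul_of_nonneg_left hI hw8.le
    have a2 : bet w ^ 2 * I ≤ 10 * w ^ 8 * I := mul_le_mul_of_nonneg_right hb hI0.le
    have a3 : 0 < w ^ 8 * I := by positivity
    nlinarith
  exact le_of_mul_le_mul_right h1 hI0

end

theorem exists_D {w x : ℝ} (hw0 : 0 < w) : ∃ D : ℝ, 0 ≤ D ∧ ∀ i : Fin 8,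
    ∀ p ∈ box (hw ((w ^ 4)⁻¹ / 2) (Real.sqrt (2 * x)) 2), |pd i (V w) p| ≤ D := by
  have h : ∀ i : Fin 8, ∃ D : ℝ, ∀ p ∈ box (hw ((w ^ 4)⁻¹ / 2) (Real.sqrt (2 * x)) 2),
      ‖pd i (V w) p‖ ≤ D := fun i =>
    (box_compact _).exists_bound_of_continuousOn
      (pd_continuous ((V_contDiff hw0).of_le (by simp))).continuousOn
  choose D hD using h
  refine ⟨∑ i, |D i|, Finset.sum_nonneg fun i _ => abs_nonneg _, fun i p hp => ?_⟩
  have h1 := hD i p hp
  rw [Real.norm_eq_abs] at h1
  refine h1.trans ((le_abs_self _).trans ?_)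
  exact Finset.single_le_sum (f := fun i => |D i|) (fun j _ => abs_nonneg _) (Finset.mem_univ i)

theorem exists_x {w : ℝ} (hw0 : 0 < w) :
    ∃ x : ℝ, 3 ≤ x ∧ 16777216 * x ^ 3 * (14 * Real.exp (-x)) ≤ w ^ 8 / 2 := by
  have h := Real.tendsto_pow_mul_exp_neg_atTop_nhds_zero 3
  have h1 : ∀ᶠ x : ℝ in atTop, x ^ 3 * Real.exp (-x) < w ^ 8 / (2 * 14 * 16777216) :=
    h.eventually_lt_const (by positivity)
  obtain ⟨x, hx, h3⟩ := (h1.and (eventually_ge_atTop 3)).exists
  refine ⟨x, h3, ?_⟩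
  rw [lt_div_iff₀ (by norm_num)] at hx
  linarith

end Pool.Agent.GS8.Up

namespace Pool.Agent.GS8

open Up in
theorem targetUpper : TargetUpper := by
  refine ⟨268435470, by norm_num, fun w hw0 hw1 => ?_⟩
  obtain ⟨x, hx3, hxs⟩ := exists_x hw0
  obtain ⟨D, hD0, hD⟩ := exists_D (w := w) (x := x) hw0
  have hC2 : 0 ≤ C2 x D := by unfold C2; positivity
  set M := 16777216 * x ^ 3 with hM
  have hM0 : 0 < M := by positivity
  have hw8 : 0 < w ^ 8 := by positivity
  refine ⟨1 + (2 * x + 2) + 2 * M * (1 + C2 x D) / w ^ 8, ?_, fun k hk lam hlam => ?_⟩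
  · have : 0 ≤ 2 * M * (1 + C2 x D) / w ^ 8 := by positivity
    linarith
  have hpos : 0 ≤ 2 * M * (1 + C2 x D) / w ^ 8 := by positivity
  have hk1 : 1 ≤ k := by linarith
  have hk0 : 0 < k := by linarith
  have hk2 : 2 * x + 2 ≤ k := by linarith
  have hk3 : 2 * M * (1 + C2 x D) / w ^ 8 ≤ k := by linarith
  have P : Par w x (1 / (10 * k ^ 3)) k D := by
    refine ⟨hw0, hw1, hx3, by positivity, ?_, hk1, by nlinarith, hD0, hD⟩
    apply one_div_le_one_div_of_le (by norm_num)
    have : 1 ≤ k ^ 3 := one_le_pow₀ hk1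
    linarith
  refine upper_main P ?_ (hlam _ (ff_test P))
  have hb : bet w ^ 2 ≤ 1 := by
    have h1 := bet_le_one hw0 hw1
    have h2 := bet_pos hw0
    nlinarith
  have he : eps w x (1 / (10 * k ^ 3)) k D ≤ 14 * Real.exp (-x) + (1 + C2 x D) / k := by
    unfold eps cc
    have e1 : 2 * Real.exp (-x) * (bet w ^ 2 + 6) ≤ 14 * Real.exp (-x) := by
      have := Real.exp_pos (-x)
      nlinarith
    have e2 : 8 * (1 / (10 * k ^ 3)) * k ^ 2 ≤ 1 / k := by
      have : 8 * (1 / (10 * k ^ 3)) * k ^ 2 = 4 / 5 * (1 / k) := by field_simp; norm_num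
      rw [this]
      have : 0 < 1 / k := by positivity
      linarith
    have e3 : C2 x D / k ^ 2 ≤ C2 x D / k := by
      apply div_le_div_of_nonneg_left hC2 hk0
      nlinarith
    have e4 : (1 + C2 x D) / k = 1 / k + C2 x D / k := by ring
    linarith
  have h1 : M * eps w x (1 / (10 * k ^ 3)) k D ≤ M * (14 * Real.exp (-x) + (1 + C2 x D) / k) :=
    mul_le_mul_of_nonneg_left he hM0.le
  have h2 : M * ((1 + C2 x D) / k) ≤ w ^ 8 / 2 := by
    rw [div_le_iff₀ hw8] at hk3
    rw [← mul_div_assoc, div_le_iff₀ hk0]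
    linarith
  have e : M * (14 * Real.exp (-x) + (1 + C2 x D) / k) =
    M * (14 * Real.exp (-x)) + M * ((1 + C2 x D) / k) := by ring
  linarith

end Pool.Agent.GS8
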