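import Pool.Agent.GS8.WeakCompact

/-!
# JOB 2: the weak ground state (`TargetWeak`)
-/

set_option autoImplicit false

open MeasureTheory Set Filter Topology
open scoped Real ContDiff

namespace Pool.Agent.GS8.WK

variable {n : ℕ} {Ω : Set (E n)} {M : ℝ}

/-- dominated convergence in the form we need -/
lemma dct (hΩo : IsOpen Ω) (hΩ : Bornology.IsBounded Ω) {B : ℕ → E n → ℝ} (hB : ∀ k, BD Ω M (B k))
    {u : E n → ℝ} (hF : ∀ᵐ x, Tendsto (fun k => B k x) atTop (𝓝 (u x)))
    {w : ℕ → E n → ℝ} {W : E n → ℝ} {K : ℝ} (hwm : ∀ k, AEStronglyMeasurable (w k) volume)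
    (hwK : ∀ k x, |w k x| ≤ K) (hw : ∀ᵐ x, Tendsto (fun k => w k x) atTop (𝓝 (W x))) :
    Tendsto (fun k => ∫ x, B k x * w k x) atTop (𝓝 (∫ x, u x * W x)) := by
  have hK0 : 0 ≤ K := (abs_nonneg _).trans (hwK 0 0)
  apply tendsto_integral_of_dominated_convergence (Ω.indicator (fun _ => M * K))
  · intro k
    exact (hB k).meas.aestronglyMeasurable.mul (hwm k)
  · rw [integrable_indicator_iff hΩo.measurableSet]
    exact integrableOn_const hΩ.measure_lt_top.ne
  · intro k
    filter_upwards with x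
    by_cases hx : x ∈ Ω
    · rw [indicator_of_mem hx, norm_mul, Real.norm_eq_abs, Real.norm_eq_abs,
        abs_of_nonneg ((hB k).nonneg x)]
      exact mul_le_mul ((hB k).le x) (hwK k x) (abs_nonneg _) (hB k).M_nonneg
    · rw [indicator_of_notMem hx, (hB k).zero x hx]
      simp
  · filter_upwards [hF, hw] with x h1 h2
    exact h1.mul h2

/-- convergence of equicontinuous averages at every point from convergence on a dense sequence -/
lemma conv_all (hΩ : Bornology.IsBounded Ω) {B : ℕ → E n → ℝ} (hB : ∀ k, BD Ω M (B k))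
    {s : ℝ} (hs : 0 < s)
    (hd : ∀ m : ℕ, ∃ l, Tendsto (fun k => gconv s (B k) (TopologicalSpace.denseSeq (E n) m)) atTop
      (𝓝 l)) (x : E n) : ∃ l, Tendsto (fun k => gconv s (B k) x) atTop (𝓝 l) := by
  apply cauchySeq_tendsto_of_complete
  rw [Metric.cauchySeq_iff']
  intro ε hε
  obtain ⟨δ, hδ, hE⟩ := gconv_equi hs hΩ M (show (0 : ℝ) < ε / 8 by positivity)
  obtain ⟨y, hy, hyx⟩ := Metric.dense_iff.mp (TopologicalSpace.denseRange_denseSeq (E n)) x δ hδ
  obtain ⟨m, rfl⟩ := hyx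
  obtain ⟨l, hl⟩ := hd m
  obtain ⟨N, hN⟩ := Metric.cauchySeq_iff'.mp hl.cauchySeq (ε / 2) (by positivity)
  refine ⟨N, fun k hk => ?_⟩
  have hdist : dist x (TopologicalSpace.denseSeq (E n) m) < δ := by
    rw [dist_comm]; exact hy
  have h1 := hE (B k) (hB k) x _ hdist
  have h2 := hE (B N) (hB N) x _ hdist
  have h3 := hN k hk
  rw [Real.dist_eq] at h3 ⊢
  rw [abs_lt] at h3 ⊢
  rw [abs_le] at h1 h2
  constructor <;> linarith [h1.1, h1.2, h2.1, h2.2, h3.1, h3.2]

/-- the data extracted by compactness -/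
structure Lim (Ω : Set (E n)) (C M : ℝ) (B : ℕ → E n → ℝ) (T R : ℕ → ℝ) (u : E n → ℝ) (lam : ℝ) :
    Prop where
  app : ∀ k, Approx Ω C M (T k) (B k) (R k)
  Tpos : ∀ k, 0 < T k
  Tlim : Tendsto T atTop (𝓝 0)
  rate : Tendsto (fun k => (1 - R k) / T k) atTop (𝓝 lam)
  lam_nonneg : 0 ≤ lam
  conv : ∀ᵐ x, Tendsto (fun k => B k x) atTop (𝓝 (u x))
  meas : Measurable u
  nonneg : ∀ x, 0 ≤ u x
  le : ∀ x, u x ≤ M
  zero : ∀ x, x ∉ Ω → u x = 0

theorem exists_lim (hΩo : IsOpen Ω) (hΩ : Bornology.IsBounded Ω) {C : ℝ} (hC : 0 ≤ C) {k₀ : ℕ}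
    (H : ∀ k : ℕ, k₀ ≤ k → ∃ (b : E n → ℝ) (r : ℝ), Approx Ω C M ((1 / 2 : ℝ) ^ k) b r) :
    ∃ (B : ℕ → E n → ℝ) (T R : ℕ → ℝ) (u : E n → ℝ) (lam : ℝ), Lim Ω C M B T R u lam := by
  choose b r hA using fun k : ℕ => H (k₀ + k) (Nat.le_add_right _ _)
  set t : ℕ → ℝ := fun k => (1 / 2 : ℝ) ^ (k₀ + k) with ht
  have htpos : ∀ k, 0 < t k := fun k => by positivity
  have htlim : Tendsto t atTop (𝓝 0) := by
    have h1 : Tendsto (fun k : ℕ => (1 / 2 : ℝ) ^ k) atTop (𝓝 0) :=
      tendsto_pow_atTop_nhds_zero_of_lt_one (by norm_num) (by norm_num)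
    exact h1.comp (tendsto_atTop_mono (fun k => Nat.le_add_left k k₀) tendsto_id)
  have hBD : ∀ k, BD Ω M (b k) := fun k => ofApprox (hA k)
  have hM0 : 0 ≤ M := (hBD 0).M_nonneg
  have hspos : ∀ i : ℕ, (0 : ℝ) < (1 / 2 : ℝ) ^ i := fun i => by positivity
  -- compactness
  let y : ℕ → Option (ℕ × ℕ) → ℝ := fun k o => match o with
    | none => (1 - r k) / t k
    | some (i, m) => gconv ((1 / 2 : ℝ) ^ i) (b k) (TopologicalSpace.denseSeq (E n) m)
  have hy : ∀ k, y k ∈ Set.pi univ (fun _ : Option (ℕ × ℕ) => Icc (0 : ℝ) (C + M)) := by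
    intro k o _
    rcases o with _ | ⟨i, m⟩
    · change (1 - r k) / t k ∈ Icc (0 : ℝ) (C + M)
      constructor
      · exact div_nonneg (by linarith [(hA k).r_le]) (htpos k).le
      · have h1 := (hA k).r_ge
        have h2 : (1 - r k) / t k ≤ C := by
          rw [div_le_iff₀ (htpos k)]
          change 1 - C * t k ≤ r k at h1
          linarith
        linarith
    · change gconv ((1 / 2 : ℝ) ^ i) (b k) (TopologicalSpace.denseSeq (E n) m) ∈ Icc (0 : ℝ) (C + M)
      exact ⟨gconv_nonneg (hspos i) (hBD k) _,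
        (gconv_le (hspos i) (hBD k) _).trans (by linarith)⟩
  have hcomp : IsSeqCompact (Set.pi univ (fun _ : Option (ℕ × ℕ) => Icc (0 : ℝ) (C + M))) :=
    (isCompact_univ_pi (fun _ => isCompact_Icc)).isSeqCompact
  obtain ⟨a, ha, φ, hφ, hlim⟩ := hcomp hy
  rw [tendsto_pi_nhds] at hlim
  have hrate : Tendsto (fun k => (1 - r (φ k)) / t (φ k)) atTop (𝓝 (a none)) := hlim none
  have hdense : ∀ i m : ℕ, Tendsto (fun k => gconv ((1 / 2 : ℝ) ^ i) (b (φ k))
      (TopologicalSpace.denseSeq (E n) m)) atTop (𝓝 (a (some (i, m)))) := fun i m => hlim (some (i, m))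
  have hall : ∀ i x, ∃ l, Tendsto (fun k => gconv ((1 / 2 : ℝ) ^ i) (b (φ k)) x) atTop (𝓝 l) :=
    fun i x => conv_all hΩ (fun k => hBD (φ k)) (hspos i) (fun m => ⟨_, hdense i m⟩) x
  -- closeness
  set V : ℝ := (volume Ω).toReal with hV
  have hV0 : 0 ≤ V := ENNReal.toReal_nonneg
  have : IsFiniteMeasure (volume.restrict Ω) := ⟨by
    rw [Measure.restrict_apply_univ]; exact hΩ.measure_lt_top⟩
  have hclose : ∀ i : ℕ, ∀ᶠ k in atTop, ∫ x in Ω, |b (φ k) x - gconv ((1 / 2 : ℝ) ^ i) (b (φ k)) x| ≤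
      Real.sqrt ((1 / 2 : ℝ) ^ i) * (V / 2 + C) := by
    intro i
    filter_upwards [eventually_ge_atTop i] with k hk
    have hk2 : i ≤ k₀ + φ k := by
      have := hφ.id_le k
      simp only [id] at this
      omega
    set s : ℝ := (1 / 2 : ℝ) ^ i with hs
    have hs0 : 0 < s := hspos i
    have hj : s = ((2 ^ (k₀ + φ k - i) : ℕ) : ℝ) * t (φ k) := by
      simp only [ht, hs]
      push_cast
      have : (1 / 2 : ℝ) ^ (k₀ + φ k) = (1 / 2 : ℝ) ^ i * (1 / 2 : ℝ) ^ (k₀ + φ k - i) := by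
        rw [← pow_add]; congr 1; omega
      rw [this, one_div, inv_pow, inv_pow]
      field_simp
    have h1 := l2_close hΩ (htpos (φ k)) (hA (φ k)) (j := 2 ^ (k₀ + φ k - i)) Nat.one_le_two_pow
    rw [← hj] at h1
    have hgc := gconv_continuous hs0 hΩ (hBD (φ k))
    have h2 := abs_of_sq hΩ (f := fun x => b (φ k) x - gconv s (b (φ k)) x) (K := M)
      ((hBD (φ k)).meas.sub hgc.measurable) (fun x => by
        rw [abs_le]
        constructor
        · linarith [(hBD (φ k)).nonneg x, gconv_le hs0 (hBD (φ k)) x]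
        · linarith [(hBD (φ k)).le x, gconv_nonneg hs0 (hBD (φ k)) x]) (Real.sqrt_pos.mpr hs0)
    refine h2.trans ?_
    have hsq : Real.sqrt s * Real.sqrt s = s := Real.mul_self_sqrt hs0.le
    have hsp : 0 < Real.sqrt s := Real.sqrt_pos.mpr hs0
    have h3 : (∫ x in Ω, (b (φ k) x - gconv s (b (φ k)) x) ^ 2) / (2 * Real.sqrt s) ≤
        C * Real.sqrt s := by
      rw [div_le_iff₀ (by positivity)]
      calc _ ≤ 2 * C * s := h1
        _ = C * Real.sqrt s * (2 * Real.sqrt s) := by
            have e : C * Real.sqrt s * (2 * Real.sqrt s) = 2 * C * (Real.sqrt s * Real.sqrt s) := by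
              ring
            rw [e, hsq]
    calc Real.sqrt s / 2 * V + (∫ x in Ω, (b (φ k) x - gconv s (b (φ k)) x) ^ 2) / (2 * Real.sqrt s)
        ≤ Real.sqrt s / 2 * V + C * Real.sqrt s := by linarith
      _ = Real.sqrt s * (V / 2 + C) := by ring
  have he : Tendsto (fun i : ℕ => Real.sqrt ((1 / 2 : ℝ) ^ i) * (V / 2 + C)) atTop (𝓝 0) := by
    have h1 : Tendsto (fun i : ℕ => (1 / 2 : ℝ) ^ i) atTop (𝓝 0) :=
      tendsto_pow_atTop_nhds_zero_of_lt_one (by norm_num) (by norm_num)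
    have h2 := (Real.continuous_sqrt.tendsto 0).comp h1
    rw [Real.sqrt_zero] at h2
    have h3 := h2.mul_const (V / 2 + C)
    rw [zero_mul] at h3
    exact h3
  obtain ⟨ψ, hψ, hae⟩ := ae_subseq (μ := volume.restrict Ω) (f := fun k => b (φ k)) (K := M)
    (fun k => (hBD (φ k)).meas) (fun k x => by
      rw [abs_of_nonneg ((hBD (φ k)).nonneg x)]; exact (hBD (φ k)).le x)
    (g := fun i k => gconv ((1 / 2 : ℝ) ^ i) (b (φ k)))
    (fun i k => (gconv_continuous (hspos i) hΩ (hBD (φ k))).measurable)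
    (fun i k x => by
      rw [abs_of_nonneg (gconv_nonneg (hspos i) (hBD (φ k)) x)]
      exact gconv_le (hspos i) (hBD (φ k)) x) hall he hclose
  -- the limit
  set B : ℕ → E n → ℝ := fun k => b (φ (ψ k)) with hB
  have hBB : ∀ k, BD Ω M (B k) := fun k => hBD _
  set u : E n → ℝ := fun x => limsup (fun k => B k x) atTop with hu
  have hbdd : ∀ x, IsBoundedUnder (· ≤ ·) atTop (fun k => B k x) := fun x =>
    isBoundedUnder_of ⟨M, fun k => (hBB k).le x⟩
  have hbdd' : ∀ x, IsBoundedUnder (· ≥ ·) atTop (fun k => B k x) := fun x =>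
    isBoundedUnder_of ⟨0, fun k => (hBB k).nonneg x⟩
  have hconv : ∀ᵐ x, Tendsto (fun k => B k x) atTop (𝓝 (u x)) := by
    rw [ae_restrict_iff' hΩo.measurableSet] at hae
    filter_upwards [hae] with x hx
    by_cases hxΩ : x ∈ Ω
    · obtain ⟨l, hl⟩ := hx hxΩ
      have hl' : Tendsto (fun k => B k x) atTop (𝓝 l) := hl
      have : u x = l := hl'.limsup_eq
      rw [this]; exact hl'
    · have h0 : (fun k => B k x) = fun _ => (0 : ℝ) := funext fun k => (hBB k).zero x hxΩ
      have : u x = 0 := by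
        simp only [hu]
        rw [h0]; exact tendsto_const_nhds.limsup_eq
      rw [this, h0]
      exact tendsto_const_nhds
  refine ⟨B, fun k => t (φ (ψ k)), fun k => r (φ (ψ k)), u, a none, ?_⟩
  have hφψ : Tendsto (fun k => φ (ψ k)) atTop atTop := hφ.tendsto_atTop.comp hψ.tendsto_atTop
  exact
  { app := fun k => hA _
    Tpos := fun k => htpos _
    Tlim := htlim.comp hφψ
    rate := hrate.comp hψ.tendsto_atTop
    lam_nonneg := (ha none (mem_univ _)).1
    conv := hconv
    meas := Measurable.limsup (fun k => (hBB k).meas)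
    nonneg := fun x => le_limsup_of_frequently_le
      (Frequently.of_forall fun k => (hBB k).nonneg x) (hbdd x)
    le := fun x => limsup_le_of_le (hbdd' x).isCoboundedUnder_flip
      (Eventually.of_forall fun k => (hBB k).le x)
    zero := fun x hx => by
      have h0 : (fun k => B k x) = fun _ => (0 : ℝ) := funext fun k => (hBB k).zero x hx
      simp only [hu]
      rw [h0]; exact tendsto_const_nhds.limsup_eq }

/-- the main limit: for a test function, the difference quotients converge -/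
theorem lim_quot (hΩo : IsOpen Ω) (hΩ : Bornology.IsBounded Ω) {C : ℝ} {B : ℕ → E n → ℝ}
    {T R : ℕ → ℝ} {u : E n → ℝ} {lam : ℝ} (h : Lim Ω C M B T R u lam) {ζ : E n → ℝ}
    (hζ : ContDiff ℝ ∞ ζ) (hc : HasCompactSupport ζ) :
    Tendsto (fun k => ∫ x, B k x * ((gconv (T k) ζ x - ζ x) / T k)) atTop
      (𝓝 (∫ x, u x * lap ζ x)) := by
  obtain ⟨⟨K, hK0, hK⟩, hl⟩ := gconv_expand hζ hc
  have hBB : ∀ k, BD Ω M (B k) := fun k => ofApprox (h.app k)
  apply dct hΩo hΩ hBB h.conv (K := K)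
  · intro k
    have hζi : Integrable ζ := hζ.continuous.integrable_of_hasCompactSupport hc
    have h1 := (gconv_int (h.Tpos k) hζi).1.aestronglyMeasurable
    exact ((h1.sub hζ.continuous.aestronglyMeasurable).mul_const (T k)⁻¹).congr
      (Eventually.of_forall fun x => by simp [div_eq_mul_inv])
  · intro k x
    rw [abs_div, abs_of_pos (h.Tpos k), div_le_iff₀ (h.Tpos k)]
    exact hK (T k) (h.Tpos k) x
  · filter_upwards with x
    have h1 : Tendsto T atTop (𝓝[>] 0) :=
      tendsto_nhdsWithin_iff.mpr ⟨h.Tlim, Eventually.of_forall h.Tpos⟩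
    exact (hl x).comp h1

/-- splitting of the quotient into the eigenvalue part and an error -/
theorem quot_eq (hΩo : IsOpen Ω) (hΩ : Bornology.IsBounded Ω) {C : ℝ} {B : ℕ → E n → ℝ}
    {T R : ℕ → ℝ} {u : E n → ℝ} {lam : ℝ} (h : Lim Ω C M B T R u lam) {ζ : E n → ℝ}
    (hζ : ContDiff ℝ ∞ ζ) (hc : HasCompactSupport ζ) :
    ∃ K : ℝ, ∀ k, ∃ err : ℝ, |err| ≤ K * T k ∧
      ((∀ x, x ∉ Ω → ζ x = 0) → ∫ x, B k x * ((gconv (T k) ζ x - ζ x) / T k) =
        -((1 - R k) / T k) * (∫ x, B k x * ζ x) + err) ∧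
      ((∀ x, 0 ≤ ζ x) → -((1 - R k) / T k) * (∫ x, B k x * ζ x) + err ≤
        ∫ x, B k x * ((gconv (T k) ζ x - ζ x) / T k)) := by
  obtain ⟨K1, hK1⟩ := hc.exists_bound_of_continuous hζ.continuous
  have hK10 : 0 ≤ K1 := (norm_nonneg _).trans (hK1 0)
  set V : ℝ := (volume Ω).toReal with hV
  have hV0 : 0 ≤ V := ENNReal.toReal_nonneg
  have hζi : Integrable ζ := hζ.continuous.integrable_of_hasCompactSupport hc
  refine ⟨K1 * ((V + 1) / 2), fun k => ?_⟩
  have hA := h.app k
  have hB : BD Ω M (B k) := ofApprox hA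
  have hT := h.Tpos k
  have hBi : Integrable (B k) := hB.integrable hΩ
  have hgc := gconv_continuous hT hΩ hB
  have hR0 : |R k| ≤ |C * T k| + 1 := by
    have h1 := hA.r_ge
    have h2 := hA.r_le
    rw [abs_le]
    constructor
    · have := le_abs_self (C * T k)
      linarith
    · have := abs_nonneg (C * T k)
      linarith
  -- the defect
  set D : E n → ℝ := fun x => gconv (T k) (B k) x - R k * B k x with hD
  have hDm : Measurable D := hgc.measurable.sub (hB.meas.const_mul _)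
  have hDb : ∀ x, |D x| ≤ M + (|C * T k| + 1) * M := by
    intro x
    calc |D x| ≤ |gconv (T k) (B k) x| + |R k * B k x| := abs_sub _ _
      _ ≤ M + (|C * T k| + 1) * M := by
          apply add_le_add
          · rw [abs_of_nonneg (gconv_nonneg hT hB x)]; exact gconv_le hT hB x
          · rw [abs_mul, abs_of_nonneg (hB.nonneg x)]
            exact mul_le_mul hR0 (hB.le x) (hB.nonneg x) (by positivity)
  have hDint : ∫ x in Ω, |D x| ≤ T k ^ 2 * ((V + 1) / 2) := by
    have h1 := abs_of_sq hΩ hDm hDb (show 0 < T k ^ 2 by positivity)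
    have h2 : ∫ x in Ω, D x ^ 2 ≤ T k ^ 4 := hA.eig
    calc ∫ x in Ω, |D x| ≤ T k ^ 2 / 2 * V + (∫ x in Ω, D x ^ 2) / (2 * T k ^ 2) := h1
      _ ≤ T k ^ 2 / 2 * V + T k ^ 4 / (2 * T k ^ 2) := by
          have : (∫ x in Ω, D x ^ 2) / (2 * T k ^ 2) ≤ T k ^ 4 / (2 * T k ^ 2) :=
            div_le_div_of_nonneg_right h2 (by positivity)
          linarith
      _ = T k ^ 2 * ((V + 1) / 2) := by field_simp
  have hDζi : IntegrableOn (fun x => ζ x * D x) Ω := by
    apply integrableOn_bdd hΩ (hζ.continuous.measurable.mul hDm)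
      (K := K1 * (M + (|C * T k| + 1) * M))
    intro x
    change |ζ x * D x| ≤ _
    rw [abs_mul (ζ x)]
    exact mul_le_mul (hK1 x) (hDb x) (abs_nonneg _) hK10
  have hE : |∫ x in Ω, ζ x * D x| ≤ K1 * (T k ^ 2 * ((V + 1) / 2)) := by
    calc |∫ x in Ω, ζ x * D x| ≤ ∫ x in Ω, |ζ x * D x| := abs_integral_le_integral_abs
      _ ≤ ∫ x in Ω, K1 * |D x| := by
          apply setIntegral_mono hDζi.abs
          · exact (integrableOn_bdd hΩ hDm hDb).abs.const_mul _
          · intro x
            change |ζ x * D x| ≤ K1 * |D x|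
            rw [abs_mul]
            exact mul_le_mul_of_nonneg_right (hK1 x) (abs_nonneg _)
      _ = K1 * ∫ x in Ω, |D x| := integral_const_mul _ _
      _ ≤ _ := mul_le_mul_of_nonneg_left hDint hK10
  -- the average
  have hgi : Integrable (fun x => ζ x * gconv (T k) (B k) x) :=
    hζi.mul_bdd (c := M) hgc.aestronglyMeasurable (Eventually.of_forall fun x => by
      rw [Real.norm_eq_abs, abs_of_nonneg (gconv_nonneg hT hB x)]; exact gconv_le hT hB x)
  have hBζi : Integrable (fun x => B k x * ζ x) :=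
    hBi.mul_bdd (c := K1) hζ.continuous.aestronglyMeasurable (Eventually.of_forall hK1)
  have hBgi : Integrable (fun x => B k x * gconv (T k) ζ x) := by
    have h1 := (gconv_int hT hζi).1.aestronglyMeasurable
    obtain ⟨⟨K2, hK20, hK2⟩, -⟩ := gconv_expand hζ hc
    apply hBi.mul_bdd (c := K1 + K2 * T k) h1
    filter_upwards with x
    rw [Real.norm_eq_abs]
    have h2 := hK2 (T k) hT x
    have h3 := hK1 x
    rw [Real.norm_eq_abs] at h3
    calc |gconv (T k) ζ x| = |(gconv (T k) ζ x - ζ x) + ζ x| := by ring_nf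
      _ ≤ |gconv (T k) ζ x - ζ x| + |ζ x| := abs_add_le _ _
      _ ≤ K1 + K2 * T k := by linarith
  have hsw : ∫ x, B k x * gconv (T k) ζ x = ∫ x, ζ x * gconv (T k) (B k) x :=
    gconv_symm hT hBi hζi
  have hmain : ∫ x, B k x * ((gconv (T k) ζ x - ζ x) / T k) =
      ((∫ x, ζ x * gconv (T k) (B k) x) - ∫ x, B k x * ζ x) / T k := by
    rw [← hsw, ← integral_sub hBgi hBζi, ← integral_div]
    apply integral_congr_ae
    filter_upwards with x
    ring
  have hin : ∫ x in Ω, ζ x * gconv (T k) (B k) x =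
      R k * (∫ x, B k x * ζ x) + ∫ x in Ω, ζ x * D x := by
    have e1 : ∫ x, B k x * ζ x = ∫ x in Ω, B k x * ζ x := by
      symm
      apply setIntegral_eq_integral_of_forall_compl_eq_zero
      intro x hx
      simp [hB.zero x hx]
    rw [e1, ← integral_const_mul, ← integral_add (hBζi.integrableOn.const_mul _) hDζi]
    apply integral_congr_ae
    filter_upwards with x
    simp only [hD]
    ring
  refine ⟨(∫ x in Ω, ζ x * D x) / T k, ?_, ?_, ?_⟩
  · rw [abs_div, abs_of_pos hT, div_le_iff₀ hT]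
    calc _ ≤ K1 * (T k ^ 2 * ((V + 1) / 2)) := hE
      _ = _ := by ring
  · intro h0
    have e2 : ∫ x, ζ x * gconv (T k) (B k) x = ∫ x in Ω, ζ x * gconv (T k) (B k) x := by
      symm
      apply setIntegral_eq_integral_of_forall_compl_eq_zero
      intro x hx
      simp [h0 x hx]
    rw [hmain, e2, hin]
    field_simp
    ring
  · intro h0
    have e2 : ∫ x in Ω, ζ x * gconv (T k) (B k) x ≤ ∫ x, ζ x * gconv (T k) (B k) x :=
      setIntegral_le_integral hgi (Eventually.of_forall fun x =>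
        mul_nonneg (h0 x) (gconv_nonneg hT hB x))
    rw [hmain]
    rw [hin] at e2
    have e3 : -((1 - R k) / T k) * (∫ x, B k x * ζ x) + (∫ x in Ω, ζ x * D x) / T k =
        ((R k * (∫ x, B k x * ζ x) + ∫ x in Ω, ζ x * D x) - ∫ x, B k x * ζ x) / T k := by
      field_simp
      ring
    rw [e3]
    apply div_le_div_of_nonneg_right _ hT.le
    linarith

end Pool.Agent.GS8.WK

namespace Pool.Agent.GS8

open WK

theorem targetWeak : TargetWeak := by
  intro hApp n Ω hn hΩo hconv hΩ hne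
  obtain ⟨C, M, k₀, hC, hM, H⟩ := hApp n Ω hn hΩo hconv hΩ hne
  obtain ⟨B, T, R, u, lam, h⟩ := exists_lim (M := M) hΩo hΩ hC H
  have hBB : ∀ k, BD Ω M (B k) := fun k => ofApprox (h.app k)
  have hζlim : ∀ ζ : E n → ℝ, ContDiff ℝ ∞ ζ → HasCompactSupport ζ →
      Tendsto (fun k => ∫ x, B k x * ζ x) atTop (𝓝 (∫ x, u x * ζ x)) := by
    intro ζ hζ hc
    obtain ⟨K1, hK1⟩ := hc.exists_bound_of_continuous hζ.continuous
    exact dct hΩo hΩ hBB h.conv (w := fun _ => ζ) (K := K1)
      (fun _ => hζ.continuous.aestronglyMeasurable) (fun _ x => hK1 x)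
      (Eventually.of_forall fun x => tendsto_const_nhds)
  refine ⟨u, lam, M, ?_⟩
  exact
  { meas := h.meas
    nonneg := h.nonneg
    le := h.le
    zero := h.zero
    norm := by
      have h1 := dct hΩo hΩ hBB h.conv (w := B) (W := u) (K := M)
        (fun k => (hBB k).meas.aestronglyMeasurable)
        (fun k x => by rw [abs_of_nonneg ((hBB k).nonneg x)]; exact (hBB k).le x) h.conv
      have h2 : (fun k => ∫ x, B k x * B k x) = fun _ => (1 : ℝ) := by
        funext k
        rw [← (h.app k).norm]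
        apply integral_congr_ae
        filter_upwards with x
        ring
      rw [h2] at h1
      have h3 := tendsto_nhds_unique h1 tendsto_const_nhds
      rw [← h3]
      apply integral_congr_ae
      filter_upwards with x
      ring
    lam_nonneg := h.lam_nonneg
    weak := by
      intro ζ hζ hc hsub
      obtain ⟨K, hK⟩ := quot_eq hΩo hΩ h hζ hc
      choose err herr heq hge using hK
      have h0 : ∀ x, x ∉ Ω → ζ x = 0 := by
        intro x hx
        by_contra hne
        exact hx (hsub (subset_tsupport _ hne))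
      have hle : Tendsto err atTop (𝓝 0) := by
        have h5 := h.Tlim.const_mul K
        rw [mul_zero] at h5
        exact squeeze_zero_norm herr h5
      have h1 := lim_quot hΩo hΩ h hζ hc
      have h2 : Tendsto (fun k => -((1 - R k) / T k) * (∫ x, B k x * ζ x) + err k) atTop
          (𝓝 (-lam * (∫ x, u x * ζ x) + 0)) :=
        (h.rate.neg.mul (hζlim ζ hζ hc)).add hle
      rw [add_zero] at h2
      refine tendsto_nhds_unique (h1.congr (fun k => heq k h0)) h2
    sub := by
      intro ζ hζ hc hpos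
      obtain ⟨K, hK⟩ := quot_eq hΩo hΩ h hζ hc
      choose err herr heq hge using hK
      have hle : Tendsto err atTop (𝓝 0) := by
        have h5 := h.Tlim.const_mul K
        rw [mul_zero] at h5
        exact squeeze_zero_norm herr h5
      have h1 := lim_quot hΩo hΩ h hζ hc
      have h2 : Tendsto (fun k => -((1 - R k) / T k) * (∫ x, B k x * ζ x) + err k) atTop
          (𝓝 (-lam * (∫ x, u x * ζ x) + 0)) :=
        (h.rate.neg.mul (hζlim ζ hζ hc)).add hle
      rw [add_zero] at h2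
      have h3 := le_of_tendsto_of_tendsto' h2 h1 (fun k => hge k hpos)
      linarith
    full := by
      refine ⟨{x | Tendsto (fun k => B k x) atTop (𝓝 (u x))}, h.conv, ?_, ?_⟩
      · intro x hx y hy hxy
        exact le_of_tendsto_of_tendsto' (hx.mul hy) (hxy.pow 2) (fun k => (h.app k).logc x y)
      · intro σ hσ x hx hσx
        have h1 : (fun k => B k (σ x)) = fun k => B k x := funext fun k => (h.app k).symm σ hσ x
        change Tendsto (fun k => B k (σ x)) atTop (𝓝 (u (σ x))) at hσx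
        rw [h1] at hσx
        exact tendsto_nhds_unique hσx hx }

end Pool.Agent.GS8
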