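import Pool.Agent.GS8.WeakTaylor

/-!
# JOB 2: compactness of the approximate eigenfunctions
-/

set_option autoImplicit false

open MeasureTheory Set Filter Topology
open scoped Real ContDiff

namespace Pool.Agent.GS8.WK

variable {n : ℕ} {Ω : Set (E n)} {M : ℝ} {b : E n → ℝ}

lemma ofApprox {C t r : ℝ} (h : Approx Ω C M t b r) : BD Ω M b := ⟨h.meas, h.nonneg, h.le, h.zero⟩

lemma integrableOn_bdd (hΩ : Bornology.IsBounded Ω) {f : E n → ℝ} {K : ℝ} (hm : Measurable f)
    (hK : ∀ x, |f x| ≤ K) : IntegrableOn f Ω :=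
  IntegrableOn.of_bound hΩ.measure_lt_top hm.aestronglyMeasurable K
    (Eventually.of_forall fun x => by rw [Real.norm_eq_abs]; exact hK x)

/-- a bounded approximate eigenfunction is close to its Gaussian averages -/
lemma l2_close (hΩ : Bornology.IsBounded Ω) {C t r : ℝ} (ht : 0 < t) (h : Approx Ω C M t b r)
    {j : ℕ} (hj : 1 ≤ j) :
    ∫ x in Ω, (b x - gconv (j * t) b x) ^ 2 ≤ 2 * C * (j * t) := by
  have hs : 0 < (j : ℝ) * t := by
    have : (1 : ℝ) ≤ j := by exact_mod_cast hj
    positivity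
  set s : ℝ := j * t with hsdef
  have hB := ofApprox h
  have hgc := gconv_continuous hs hΩ hB
  have hg0 := gconv_nonneg hs hB
  have hgM := gconv_le hs hB
  have i1 : IntegrableOn (fun x => b x ^ 2) Ω :=
    integrableOn_bdd hΩ hB.sq.meas (K := M ^ 2) (fun x => by
      rw [abs_of_nonneg (sq_nonneg _)]; exact hB.sq.le x)
  have i2 : IntegrableOn (fun x => b x * gconv s b x) Ω :=
    integrableOn_bdd hΩ (hB.meas.mul hgc.measurable) (K := M * M) (fun x => by
      rw [abs_of_nonneg (mul_nonneg (hB.nonneg x) (hg0 x))]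
      exact mul_le_mul (hB.le x) (hgM x) (hg0 x) hB.M_nonneg)
  have i3 : IntegrableOn (fun x => gconv s b x ^ 2) Ω :=
    integrableOn_bdd hΩ (hgc.measurable.pow_const 2) (K := M ^ 2) (fun x => by
      rw [abs_of_nonneg (sq_nonneg _)]
      exact pow_le_pow_left₀ (hg0 x) (hgM x) 2)
  have e1 : ∫ x in Ω, b x ^ 2 = 1 := by
    rw [← h.norm]
    apply setIntegral_eq_integral_of_forall_compl_eq_zero
    intro x hx
    simp [h.zero x hx]
  have e2 : ∫ x in Ω, b x * gconv s b x = ∫ x, b x * gconv s b x := by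
    apply setIntegral_eq_integral_of_forall_compl_eq_zero
    intro x hx
    simp [h.zero x hx]
  have e3 : ∫ x in Ω, gconv s b x ^ 2 ≤ 1 := by
    have hq := gconv_int hs (hB.sq.integrable hΩ)
    calc ∫ x in Ω, gconv s b x ^ 2 ≤ ∫ x in Ω, gconv s (fun y => b y ^ 2) x :=
          setIntegral_mono i3 hq.1.integrableOn (fun x => gconv_sq_le hs hB x)
      _ ≤ ∫ x, gconv s (fun y => b y ^ 2) x :=
          setIntegral_le_integral hq.1 (Eventually.of_forall fun x => gconv_nonneg hs hB.sq x)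
      _ = 1 := by rw [hq.2]; exact h.norm
  have e4 := h.energy j hj
  have e5 : ∫ x in Ω, (b x - gconv s b x) ^ 2 = (∫ x in Ω, b x ^ 2) -
      2 * (∫ x in Ω, b x * gconv s b x) + ∫ x in Ω, gconv s b x ^ 2 := by
    have i4 : IntegrableOn (fun x => b x ^ 2 - 2 * (b x * gconv s b x)) Ω :=
      i1.sub (i2.const_mul 2)
    calc ∫ x in Ω, (b x - gconv s b x) ^ 2
        = ∫ x in Ω, ((b x ^ 2 - 2 * (b x * gconv s b x)) + gconv s b x ^ 2) := by
          apply integral_congr_ae
          filter_upwards with x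
          ring
      _ = (∫ x in Ω, (b x ^ 2 - 2 * (b x * gconv s b x))) + ∫ x in Ω, gconv s b x ^ 2 :=
          integral_add i4 i3
      _ = _ := by
          rw [integral_sub i1 (i2.const_mul 2), integral_const_mul]
  rw [e5, e1, e2]
  linarith

/-- integral of an absolute value from the integral of the square -/
lemma abs_of_sq (hΩ : Bornology.IsBounded Ω) {f : E n → ℝ} {K : ℝ} (hm : Measurable f)
    (hK : ∀ x, |f x| ≤ K) {δ : ℝ} (hδ : 0 < δ) :
    ∫ x in Ω, |f x| ≤ δ / 2 * (volume Ω).toReal + (∫ x in Ω, f x ^ 2) / (2 * δ) := by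
  have i1 : IntegrableOn (fun x => |f x|) Ω :=
    integrableOn_bdd hΩ hm.abs (K := K) (fun x => by rw [abs_abs]; exact hK x)
  have i2 : IntegrableOn (fun x => f x ^ 2) Ω :=
    integrableOn_bdd hΩ (hm.pow_const 2) (K := K ^ 2) (fun x => by
      rw [abs_of_nonneg (sq_nonneg _), ← sq_abs]
      exact pow_le_pow_left₀ (abs_nonneg _) (hK x) 2)
  have i3 : IntegrableOn (fun _ : E n => δ / 2) Ω := integrableOn_const hΩ.measure_lt_top.ne
  calc ∫ x in Ω, |f x| ≤ ∫ x in Ω, (δ / 2 + f x ^ 2 / (2 * δ)) := by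
        apply setIntegral_mono i1 (i3.add (i2.div_const _))
        intro x
        have h1 : 0 ≤ (|f x| - δ) ^ 2 := sq_nonneg _
        have h2 : (δ / 2 + f x ^ 2 / (2 * δ)) - |f x| = (|f x| - δ) ^ 2 / (2 * δ) := by
          rw [← sq_abs (f x)]
          field_simp
          ring
        have h3 : 0 ≤ (|f x| - δ) ^ 2 / (2 * δ) := by positivity
        change |f x| ≤ δ / 2 + f x ^ 2 / (2 * δ)
        linarith
    _ = δ / 2 * (volume Ω).toReal + (∫ x in Ω, f x ^ 2) / (2 * δ) := by
        rw [integral_add i3 (i2.div_const _), setIntegral_const, integral_div, smul_eq_mul, mul_comm]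
        rfl

/-- almost everywhere convergent subsequence from approximations that converge everywhere -/
lemma ae_subseq {μ : Measure (E n)} [IsFiniteMeasure μ] {f : ℕ → E n → ℝ} {K : ℝ}
    (hm : ∀ k, Measurable (f k)) (hb : ∀ k x, |f k x| ≤ K) {g : ℕ → ℕ → E n → ℝ}
    (hgm : ∀ i k, Measurable (g i k)) (hgb : ∀ i k x, |g i k x| ≤ K)
    (hlim : ∀ i x, ∃ l, Tendsto (fun k => g i k x) atTop (𝓝 l)) {e : ℕ → ℝ}
    (he : Tendsto e atTop (𝓝 0)) (hclose : ∀ i, ∀ᶠ k in atTop, ∫ x, |f k x - g i k x| ∂μ ≤ e i) :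
    ∃ ψ : ℕ → ℕ, StrictMono ψ ∧ ∀ᵐ x ∂μ, ∃ l, Tendsto (fun k => f (ψ k) x) atTop (𝓝 l) := by
  have hfi : ∀ k, Integrable (f k) μ := fun k =>
    Integrable.of_bound (hm k).aestronglyMeasurable K
      (Eventually.of_forall fun x => by rw [Real.norm_eq_abs]; exact hb k x)
  have hgi : ∀ i k, Integrable (g i k) μ := fun i k =>
    Integrable.of_bound (hgm i k).aestronglyMeasurable K
      (Eventually.of_forall fun x => by rw [Real.norm_eq_abs]; exact hgb i k x)
  -- limits of the approximations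
  choose h hh using hlim
  have hhm : ∀ i, Measurable (h i) := fun i =>
    measurable_of_tendsto_metrizable (hgm i) (tendsto_pi_nhds.mpr (hh i))
  have hhb : ∀ i x, |h i x| ≤ K := fun i x =>
    le_of_tendsto (hh i x).abs (Eventually.of_forall fun k => hgb i k x)
  have hhi : ∀ i, Integrable (h i) μ := fun i =>
    Integrable.of_bound (hhm i).aestronglyMeasurable K
      (Eventually.of_forall fun x => by rw [Real.norm_eq_abs]; exact hhb i x)
  have hconv : ∀ i, Tendsto (fun k => ∫ x, |g i k x - h i x| ∂μ) atTop (𝓝 0) := by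
    intro i
    have := tendsto_integral_of_dominated_convergence (μ := μ) (F := fun k x => |g i k x - h i x|)
      (f := fun _ => (0 : ℝ)) (fun _ => 2 * K) (fun k => ((hgm i k).sub (hhm i)).abs.aestronglyMeasurable)
      (integrable_const _) (fun k => Eventually.of_forall fun x => ?_) (Eventually.of_forall fun x => ?_)
    · simpa using this
    · rw [Real.norm_eq_abs, abs_abs]
      calc |g i k x - h i x| ≤ |g i k x| + |h i x| := abs_sub _ _
        _ ≤ K + K := add_le_add (hgb i k x) (hhb i x)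
        _ = 2 * K := by ring
    · have h1 := ((hh i x).sub_const (h i x)).abs
      rw [sub_self, abs_zero] at h1
      exact h1
  -- Cauchy in L1
  have hC : CauchySeq (fun k => (hfi k).toL1 (f k)) := by
    rw [Metric.cauchySeq_iff']
    intro ε hε
    obtain ⟨i, hi⟩ := (he.eventually (gt_mem_nhds (show (0 : ℝ) < ε / 4 by positivity))).exists
    obtain ⟨N, hN⟩ := eventually_atTop.mp ((hclose i).and ((hconv i).eventually
      (gt_mem_nhds (show (0 : ℝ) < ε / 4 by positivity))))
    refine ⟨N, fun k hk => ?_⟩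
    have hstep : ∀ k, N ≤ k → ∫ x, |f k x - h i x| ∂μ < ε / 2 := by
      intro k hk
      obtain ⟨h1, h2⟩ := hN k hk
      calc ∫ x, |f k x - h i x| ∂μ ≤ ∫ x, (|f k x - g i k x| + |g i k x - h i x|) ∂μ := by
            apply integral_mono ((hfi k).sub (hhi i)).abs
              (((hfi k).sub (hgi i k)).abs.add ((hgi i k).sub (hhi i)).abs)
            intro x
            change |f k x - h i x| ≤ |f k x - g i k x| + |g i k x - h i x|
            exact abs_sub_le _ _ _
        _ = (∫ x, |f k x - g i k x| ∂μ) + ∫ x, |g i k x - h i x| ∂μ :=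
            integral_add ((hfi k).sub (hgi i k)).abs ((hgi i k).sub (hhi i)).abs
        _ < ε / 2 := by linarith
    rw [dist_eq_norm, ← Integrable.toL1_sub, L1.norm_of_fun_eq_integral_norm]
    calc ∫ x, ‖(f k - f N) x‖ ∂μ ≤ ∫ x, (|f k x - h i x| + |f N x - h i x|) ∂μ := by
          apply integral_mono ((hfi k).sub (hfi N)).norm
            (((hfi k).sub (hhi i)).abs.add ((hfi N).sub (hhi i)).abs)
          intro x
          change |f k x - f N x| ≤ |f k x - h i x| + |f N x - h i x|
          rw [abs_sub_comm (f N x)]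
          exact abs_sub_le _ _ _
      _ = (∫ x, |f k x - h i x| ∂μ) + ∫ x, |f N x - h i x| ∂μ :=
          integral_add ((hfi k).sub (hhi i)).abs ((hfi N).sub (hhi i)).abs
      _ < ε := by linarith [hstep k hk, hstep N le_rfl]
  obtain ⟨L, hL⟩ := cauchySeq_tendsto_of_complete hC
  have h1 := tendstoInMeasure_of_tendsto_Lp hL
  obtain ⟨ψ, hψ, hae⟩ := h1.exists_seq_tendsto_ae
  refine ⟨ψ, hψ, ?_⟩
  have hall : ∀ᵐ x ∂μ, ∀ k, (hfi k).toL1 (f k) x = f k x :=
    ae_all_iff.mpr (fun k => (hfi k).coeFn_toL1)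
  filter_upwards [hae, hall] with x hx hx2
  refine ⟨L x, ?_⟩
  simp_rw [hx2] at hx
  exact hx

end Pool.Agent.GS8.WK
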