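import Pool.Agent.GS8.Defs

/-!
# JOB 2: basic facts on the Gaussian kernel
-/

set_option autoImplicit false

open MeasureTheory Set Filter Topology
open scoped Real ContDiff

namespace Pool.Agent.GS8.WK

variable {n : ℕ}

lemma Gk_pos {t : ℝ} (ht : 0 < t) (x : E n) : 0 < Gk t x := by
  unfold Gk; positivity

lemma Gk_nonneg {t : ℝ} (ht : 0 < t) (x : E n) : 0 ≤ Gk t x := (Gk_pos ht x).le

lemma Gk_continuous (t : ℝ) : Continuous (Gk t : E n → ℝ) := by
  unfold Gk; fun_prop

lemma Gk_neg (t : ℝ) (x : E n) : Gk t (-x) = Gk t x := by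
  unfold Gk; rw [norm_neg]

lemma Gk_sub_comm (t : ℝ) (x y : E n) : Gk t (x - y) = Gk t (y - x) := by
  rw [← Gk_neg, neg_sub]

lemma Gk_eq {t : ℝ} (x : E n) : Gk t x =
    (4 * π * t) ^ (-(n : ℝ) / 2) * Real.exp (-(1 / (4 * t)) * ‖x‖ ^ 2) := by
  unfold Gk
  congr 2
  ring

lemma Gk_integral {t : ℝ} (ht : 0 < t) : ∫ x : E n, Gk t x = 1 := by
  simp_rw [Gk_eq]
  rw [integral_const_mul, GaussianFourier.integral_rexp_neg_mul_sq_norm (by positivity)]
  rw [finrank_euclideanSpace, Fintype.card_fin]
  have e : π / (1 / (4 * t)) = 4 * π * t := by field_simp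
  rw [e, ← Real.rpow_add (by positivity)]
  have e2 : -(n : ℝ) / 2 + (n : ℝ) / 2 = 0 := by ring
  rw [e2, Real.rpow_zero]

lemma Gk_integrable {t : ℝ} (ht : 0 < t) : Integrable (Gk t : E n → ℝ) := by
  by_contra h
  have := Gk_integral (n := n) ht
  rw [integral_undef h] at this
  exact zero_ne_one this

lemma Gk_le {t : ℝ} (ht : 0 < t) (x : E n) : Gk t x ≤ (4 * π * t) ^ (-(n : ℝ) / 2) := by
  unfold Gk
  have h1 : Real.exp (-‖x‖ ^ 2 / (4 * t)) ≤ 1 := by
    rw [Real.exp_le_one_iff]
    apply div_nonpos_of_nonpos_of_nonneg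
    · have := sq_nonneg ‖x‖; linarith
    · positivity
  have h2 : 0 ≤ (4 * π * t) ^ (-(n : ℝ) / 2) := by positivity
  nlinarith

/-- the kernel is uniformly continuous -/
lemma Gk_uc {t : ℝ} (ht : 0 < t) : UniformContinuous (Gk t : E n → ℝ) := by
  apply (Gk_continuous t).uniformContinuous_of_tendsto_cocompact (x := 0)
  have h1 : Tendsto (fun x : E n => ‖x‖) (cocompact (E n)) atTop := tendsto_norm_cocompact_atTop
  have h2 : Tendsto (fun r : ℝ => (4 * π * t) ^ (-(n : ℝ) / 2) * Real.exp (-r ^ 2 / (4 * t)))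
      atTop (𝓝 0) := by
    have h3 : Tendsto (fun r : ℝ => -r ^ 2 / (4 * t)) atTop atBot := by
      have h4 : Tendsto (fun r : ℝ => r ^ 2 / (4 * t)) atTop atTop :=
        (tendsto_pow_atTop two_ne_zero).atTop_div_const (by positivity)
      have h5 := tendsto_neg_atTop_atBot.comp h4
      refine h5.congr (fun r => ?_)
      simp only [Function.comp]
      ring
    have h6 := (Real.tendsto_exp_atBot.comp h3).const_mul ((4 * π * t) ^ (-(n : ℝ) / 2))
    rw [mul_zero] at h6
    exact h6
  exact h2.comp h1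

/-- bounded data: what we use about the approximate eigenfunctions -/
structure BD (Ω : Set (E n)) (M : ℝ) (b : E n → ℝ) : Prop where
  meas : Measurable b
  nonneg : ∀ x, 0 ≤ b x
  le : ∀ x, b x ≤ M
  zero : ∀ x, x ∉ Ω → b x = 0

variable {Ω : Set (E n)} {M : ℝ} {b : E n → ℝ}

lemma BD.M_nonneg (h : BD Ω M b) : 0 ≤ M := (h.nonneg 0).trans (h.le 0)

/-- integrability of a bounded function vanishing off a bounded set -/
lemma integrable_of_bdd (hΩ : Bornology.IsBounded Ω) {f : E n → ℝ} {K : ℝ}
    (hm : Measurable f) (hK : ∀ x, |f x| ≤ K) (h0 : ∀ x, x ∉ Ω → f x = 0) : Integrable f := by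
  obtain ⟨R, hR⟩ := hΩ.subset_closedBall (0 : E n)
  have h1 : IntegrableOn f (Metric.closedBall 0 R) := by
    exact IntegrableOn.of_bound measure_closedBall_lt_top hm.aestronglyMeasurable K
      (Eventually.of_forall fun x => by rw [Real.norm_eq_abs]; exact hK x)
  rw [← integrableOn_univ]
  apply h1.of_forall_sdiff_eq_zero MeasurableSet.univ
  intro x hx
  apply h0
  intro hx2
  exact hx.2 (hR hx2)

lemma BD.integrable (h : BD Ω M b) (hΩ : Bornology.IsBounded Ω) : Integrable b :=
  integrable_of_bdd hΩ h.meas (fun x => by rw [abs_of_nonneg (h.nonneg x)]; exact h.le x) h.zero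

lemma BD.sq (h : BD Ω M b) : BD Ω (M ^ 2) (fun x => b x ^ 2) where
  meas := h.meas.pow_const 2
  nonneg x := sq_nonneg _
  le x := pow_le_pow_left₀ (h.nonneg x) (h.le x) 2
  zero x hx := by simp [h.zero x hx]

lemma gconv_integrand {t : ℝ} (ht : 0 < t) (h : BD Ω M b) (x : E n) :
    Integrable (fun y => Gk t (x - y) * b y) := by
  have h1 : Integrable (fun y : E n => Gk t (x - y)) := (Gk_integrable ht).comp_sub_left x
  exact h1.mul_bdd (c := M) h.meas.aestronglyMeasurable (Eventually.of_forall fun y => by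
    rw [Real.norm_eq_abs, abs_of_nonneg (h.nonneg y)]; exact h.le y)

lemma Gk_integral_sub {t : ℝ} (ht : 0 < t) (x : E n) : ∫ y, Gk t (x - y) = 1 := by
  rw [integral_sub_left_eq_self (fun y => Gk t y) volume x]
  exact Gk_integral ht

lemma gconv_nonneg {t : ℝ} (ht : 0 < t) (h : BD Ω M b) (x : E n) : 0 ≤ gconv t b x :=
  integral_nonneg (fun y => mul_nonneg (Gk_nonneg ht _) (h.nonneg y))

lemma gconv_le {t : ℝ} (ht : 0 < t) (h : BD Ω M b) (x : E n) : gconv t b x ≤ M := by
  unfold gconv
  calc ∫ y, Gk t (x - y) * b y ≤ ∫ y, Gk t (x - y) * M :=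
        integral_mono (gconv_integrand ht h x) (((Gk_integrable ht).comp_sub_left x).mul_const M)
          (fun y => mul_le_mul_of_nonneg_left (h.le y) (Gk_nonneg ht _))
    _ = M := by rw [integral_mul_const, Gk_integral_sub ht, one_mul]

/-- equicontinuity of Gaussian averages -/
lemma gconv_equi {t : ℝ} (ht : 0 < t) (hΩ : Bornology.IsBounded Ω) (M : ℝ) {ε : ℝ} (hε : 0 < ε) :
    ∃ δ > 0, ∀ b : E n → ℝ, BD Ω M b → ∀ x x' : E n, dist x x' < δ →
      |gconv t b x - gconv t b x'| ≤ ε := by
  obtain ⟨R, hR⟩ := hΩ.subset_closedBall (0 : E n)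
  set V : ℝ := (volume (Metric.closedBall (0 : E n) R)).toReal with hV
  have hV0 : 0 ≤ V := ENNReal.toReal_nonneg
  obtain ⟨δ, hδ, h⟩ := Metric.uniformContinuous_iff.mp (Gk_uc (n := n) ht) (ε / (|M| * V + 1))
    (by positivity)
  refine ⟨δ, hδ, fun b hb x x' hx => ?_⟩
  have hint : Integrable b := hb.integrable hΩ
  have hbV : ∫ y, b y ≤ |M| * V := by
    calc ∫ y, b y = ∫ y in Metric.closedBall (0 : E n) R, b y := by
          symm
          apply setIntegral_eq_integral_of_forall_compl_eq_zero
          intro y hy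
          exact hb.zero y (fun hy2 => hy (hR hy2))
      _ ≤ ∫ y in Metric.closedBall (0 : E n) R, |M| := by
          apply setIntegral_mono hint.integrableOn
          · exact integrableOn_const measure_closedBall_lt_top.ne
          · intro y
            exact (hb.le y).trans (le_abs_self M)
      _ = |M| * V := by
          rw [setIntegral_const, smul_eq_mul, mul_comm]
          rfl
  unfold gconv
  rw [← integral_sub (gconv_integrand ht hb x) (gconv_integrand ht hb x')]
  calc |∫ y, (Gk t (x - y) * b y - Gk t (x' - y) * b y)|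
      ≤ ∫ y, |Gk t (x - y) * b y - Gk t (x' - y) * b y| := abs_integral_le_integral_abs
    _ ≤ ∫ y, (ε / (|M| * V + 1)) * b y := by
        apply integral_mono
        · exact ((gconv_integrand ht hb x).sub (gconv_integrand ht hb x')).abs
        · exact hint.const_mul _
        · intro y
          change |Gk t (x - y) * b y - Gk t (x' - y) * b y| ≤ _
          rw [← sub_mul, abs_mul, abs_of_nonneg (hb.nonneg y)]
          apply mul_le_mul_of_nonneg_right _ (hb.nonneg y)
          have := h (a := x - y) (b := x' - y) (by rwa [dist_sub_right])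
          rw [Real.dist_eq] at this
          exact this.le
    _ = (ε / (|M| * V + 1)) * ∫ y, b y := integral_const_mul _ _
    _ ≤ (ε / (|M| * V + 1)) * (|M| * V + 1) := by
        apply mul_le_mul_of_nonneg_left _ (by positivity)
        linarith
    _ = ε := by field_simp

lemma gconv_continuous {t : ℝ} (ht : 0 < t) (hΩ : Bornology.IsBounded Ω) (h : BD Ω M b) :
    Continuous (gconv t b) := by
  rw [Metric.continuous_iff]
  intro x ε hε
  obtain ⟨δ, hδ, H⟩ := gconv_equi ht hΩ M (half_pos hε)
  refine ⟨δ, hδ, fun y hy => ?_⟩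
  rw [Real.dist_eq]
  exact (H b h y x hy).trans_lt (half_lt_self hε)

/-- Jensen -/
lemma gconv_sq_le {t : ℝ} (ht : 0 < t) (h : BD Ω M b) (x : E n) :
    gconv t b x ^ 2 ≤ gconv t (fun y => b y ^ 2) x := by
  set c := gconv t b x with hc
  have h1 := gconv_integrand ht h x
  have h2 := gconv_integrand ht h.sq x
  have h3 : Integrable (fun y : E n => Gk t (x - y)) := (Gk_integrable ht).comp_sub_left x
  have h0 : 0 ≤ ∫ y, Gk t (x - y) * (b y - c) ^ 2 :=
    integral_nonneg (fun y => mul_nonneg (Gk_nonneg ht _) (sq_nonneg _))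
  have e : ∫ y, Gk t (x - y) * (b y - c) ^ 2 =
      gconv t (fun y => b y ^ 2) x - 2 * c * c + c ^ 2 * 1 := by
    have e1 : ∀ y, Gk t (x - y) * (b y - c) ^ 2 =
        Gk t (x - y) * b y ^ 2 - (2 * c) * (Gk t (x - y) * b y) + c ^ 2 * Gk t (x - y) := by
      intro y; ring
    calc ∫ y, Gk t (x - y) * (b y - c) ^ 2 = ∫ y, ((Gk t (x - y) * b y ^ 2 -
            (2 * c) * (Gk t (x - y) * b y)) + c ^ 2 * Gk t (x - y)) :=
          integral_congr_ae (Eventually.of_forall e1)
      _ = (∫ y, (Gk t (x - y) * b y ^ 2 - (2 * c) * (Gk t (x - y) * b y))) +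
            ∫ y, c ^ 2 * Gk t (x - y) := integral_add (h2.sub (h1.const_mul (2 * c))) (h3.const_mul _)
      _ = ((∫ y, Gk t (x - y) * b y ^ 2) - ∫ y, (2 * c) * (Gk t (x - y) * b y)) +
            ∫ y, c ^ 2 * Gk t (x - y) := by rw [integral_sub h2 (h1.const_mul (2 * c))]
      _ = _ := by
          rw [integral_const_mul, integral_const_mul, Gk_integral_sub ht]
          rfl
  rw [e] at h0
  nlinarith

/-- the kernel integrated against two bounded functions -/
lemma kernel_integrable {t : ℝ} (ht : 0 < t) {f g : E n → ℝ} (hf : Integrable f)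
    (hg : Integrable g) :
    Integrable (fun p : E n × E n => f p.1 * (Gk t (p.1 - p.2) * g p.2)) := by
  have h1 : Integrable (fun p : E n × E n => f p.1 * g p.2) := hf.mul_prod hg
  have h2 : Integrable (fun p : E n × E n => (f p.1 * g p.2) * Gk t (p.1 - p.2)) := by
    apply h1.mul_bdd (c := (4 * π * t) ^ (-(n : ℝ) / 2))
    · exact ((Gk_continuous t).comp (by fun_prop)).aestronglyMeasurable
    · filter_upwards with p
      rw [Real.norm_eq_abs, abs_of_nonneg (Gk_nonneg ht _)]
      exact Gk_le ht _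
  refine h2.congr (Eventually.of_forall fun p => ?_)
  simp only
  ring

/-- symmetry of the kernel -/
lemma gconv_symm {t : ℝ} (ht : 0 < t) {f g : E n → ℝ} (hf : Integrable f)
    (hg : Integrable g) :
    ∫ x, f x * gconv t g x = ∫ x, g x * gconv t f x := by
  have e1 : ∫ x, f x * gconv t g x = ∫ x, ∫ y, f x * (Gk t (x - y) * g y) := by
    apply integral_congr_ae
    filter_upwards with x
    rw [integral_const_mul]
    rfl
  have e2 : ∫ y, g y * gconv t f y = ∫ y, ∫ x, f x * (Gk t (x - y) * g y) := by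
    apply integral_congr_ae
    filter_upwards with y
    unfold gconv
    rw [← integral_const_mul]
    apply integral_congr_ae
    filter_upwards with x
    rw [Gk_sub_comm]
    ring
  rw [e1, e2]
  exact integral_integral_swap (kernel_integrable ht hf hg)

/-- mass is preserved, and the average is integrable -/
lemma gconv_int {t : ℝ} (ht : 0 < t) {g : E n → ℝ} (hg : Integrable g) :
    Integrable (gconv t g) ∧ ∫ x, gconv t g x = ∫ x, g x := by
  have h1 : (gconv t g) = (convolution g (Gk t) (ContinuousLinearMap.mul ℝ ℝ) volume) := by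
    funext x
    unfold gconv
    rw [convolution_def]
    apply integral_congr_ae
    filter_upwards with y
    simp only [ContinuousLinearMap.mul_apply']
    ring
  constructor
  · rw [h1]
    exact hg.integrable_convolution _ (Gk_integrable ht)
  · rw [h1, integral_convolution _ hg (Gk_integrable ht), Gk_integral ht]
    simp

end Pool.Agent.GS8.WK
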