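import Pool.Agent.GS8.WeakGauss

/-!
# JOB 2: expansion of the Gaussian average of a test function
-/

set_option autoImplicit false

open MeasureTheory Set Filter Topology
open scoped Real ContDiff

namespace Pool.Agent.GS8.WK

variable {n : ℕ}

lemma G1_sq_integrable : Integrable (fun z : E n => Gk 1 z * ‖z‖ ^ 2) := by
  have h1 : Integrable (fun z : E n => 8 * (Gk 2 z * 2 ^ ((n : ℝ) / 2))) :=
    ((Gk_integrable (by norm_num)).mul_const _).const_mul 8
  apply h1.mono'
  · exact ((Gk_continuous 1).mul (by fun_prop)).aestronglyMeasurable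
  · filter_upwards with z
    rw [Real.norm_eq_abs, abs_of_nonneg (mul_nonneg (Gk_nonneg one_pos _) (by positivity))]
    have h2 : ‖z‖ ^ 2 ≤ 8 * Real.exp (‖z‖ ^ 2 / 8) := by
      have := Real.add_one_le_exp (‖z‖ ^ 2 / 8)
      linarith
    have h3 : Gk 1 z * Real.exp (‖z‖ ^ 2 / 8) = Gk 2 z * 2 ^ ((n : ℝ) / 2) := by
      unfold Gk
      have e1 : (4 * π * 2) ^ (-(n : ℝ) / 2) * 2 ^ ((n : ℝ) / 2) = (4 * π * 1) ^ (-(n : ℝ) / 2) := by
        rw [show 4 * π * 2 = (4 * π * 1) * 2 by ring, Real.mul_rpow (by positivity) (by norm_num),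
          mul_assoc, ← Real.rpow_add (by norm_num)]
        have : -(n : ℝ) / 2 + (n : ℝ) / 2 = 0 := by ring
        rw [this, Real.rpow_zero, mul_one]
      rw [mul_assoc, ← Real.exp_add, ← e1]
      have e2 : -‖z‖ ^ 2 / (4 * 1) + ‖z‖ ^ 2 / 8 = -‖z‖ ^ 2 / (4 * 2) := by ring
      rw [e2]
      ring
    calc Gk 1 z * ‖z‖ ^ 2 ≤ Gk 1 z * (8 * Real.exp (‖z‖ ^ 2 / 8)) :=
          mul_le_mul_of_nonneg_left h2 (Gk_nonneg one_pos _)
      _ = 8 * (Gk 1 z * Real.exp (‖z‖ ^ 2 / 8)) := by ring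
      _ = _ := by rw [h3]

lemma abs_coord_le (z : E n) (i : Fin n) : |z i| ≤ ‖z‖ := by
  have := PiLp.norm_apply_le z i
  simpa using this

lemma G1_coord_integrable (i j : Fin n) : Integrable (fun z : E n => Gk 1 z * (z i * z j)) := by
  apply (G1_sq_integrable (n := n)).mono'
  · exact ((Gk_continuous 1).mul (by fun_prop)).aestronglyMeasurable
  · filter_upwards with z
    rw [Real.norm_eq_abs, abs_mul, abs_of_nonneg (Gk_nonneg one_pos _), abs_mul]
    apply mul_le_mul_of_nonneg_left _ (Gk_nonneg one_pos _)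
    calc |z i| * |z j| ≤ ‖z‖ * ‖z‖ :=
          mul_le_mul (abs_coord_le z i) (abs_coord_le z j) (abs_nonneg _) (norm_nonneg _)
      _ = ‖z‖ ^ 2 := by ring

lemma G1_norm_integrable : Integrable (fun z : E n => Gk 1 z * ‖z‖) := by
  have h1 : Integrable (fun z : E n => Gk 1 z + Gk 1 z * ‖z‖ ^ 2) :=
    (Gk_integrable one_pos).add G1_sq_integrable
  apply h1.mono'
  · exact ((Gk_continuous 1).mul (by fun_prop)).aestronglyMeasurable
  · filter_upwards with z
    rw [Real.norm_eq_abs, abs_of_nonneg (mul_nonneg (Gk_nonneg one_pos _) (norm_nonneg _))]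
    have : ‖z‖ ≤ 1 + ‖z‖ ^ 2 := by nlinarith [sq_nonneg (‖z‖ - 1), norm_nonneg z]
    calc Gk 1 z * ‖z‖ ≤ Gk 1 z * (1 + ‖z‖ ^ 2) := mul_le_mul_of_nonneg_left this (Gk_nonneg one_pos _)
      _ = _ := by ring

lemma G1_hasFDerivAt (z v : E n) :
    DifferentiableAt ℝ (Gk 1 : E n → ℝ) z ∧
      fderiv ℝ (Gk 1 : E n → ℝ) z v = -(inner ℝ z v / 2) * Gk 1 z := by
  have h1 : HasFDerivAt (fun z : E n => ‖z‖ ^ 2) (2 • (innerSL ℝ z)) z :=
    (hasStrictFDerivAt_norm_sq z).hasFDerivAt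
  have h2 : HasFDerivAt (fun z : E n => -‖z‖ ^ 2 / (4 * 1))
      ((-(1 / 4 : ℝ)) • (2 • (innerSL ℝ z))) z := by
    have := h1.const_mul (-(1 / 4 : ℝ))
    refine this.congr_of_eventuallyEq ?_
    filter_upwards with y
    ring
  have h3 := (h2.exp).const_mul ((4 * π * 1) ^ (-(n : ℝ) / 2))
  have h4 : HasFDerivAt (Gk 1 : E n → ℝ) _ z := h3
  refine ⟨h4.differentiableAt, ?_⟩
  rw [h4.fderiv]
  simp only [smul_apply, innerSL_apply_apply, smul_eq_mul, nsmul_eq_mul]
  unfold Gk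
  push_cast
  ring

lemma pd_coord (i j : Fin n) (z : E n) :
    fderiv ℝ (fun y : E n => y j) z (ee i) = if i = j then 1 else 0 := by
  have h : HasFDerivAt (fun y : E n => y j) (EuclideanSpace.proj j : E n →L[ℝ] ℝ) z :=
    (EuclideanSpace.proj j : E n →L[ℝ] ℝ).hasFDerivAt
  rw [h.fderiv]
  change (EuclideanSpace.single i (1 : ℝ) : E n) j = _
  rw [PiLp.single_apply]
  by_cases hij : i = j
  · rw [if_pos hij, if_pos hij.symm]
  · rw [if_neg hij, if_neg (fun h => hij h.symm)]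

lemma G1_moment (i j : Fin n) : ∫ z : E n, Gk 1 z * (z i * z j) = if i = j then 2 else 0 := by
  have hG : ∀ z : E n, fderiv ℝ (Gk 1 : E n → ℝ) z (ee i) = -(z i / 2) * Gk 1 z := by
    intro z
    rw [(G1_hasFDerivAt z (ee i)).2]
    congr 3
    change inner ℝ z (EuclideanSpace.single i (1 : ℝ)) = z i
    rw [EuclideanSpace.inner_single_right]
    simp
  have key := integral_mul_fderiv_eq_neg_fderiv_mul_of_integrable (μ := (volume : Measure (E n)))
    (f := fun z : E n => z j) (g := (Gk 1 : E n → ℝ)) (v := ee i) ?_ ?_ ?_ ?_ ?_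
  · simp_rw [pd_coord, hG] at key
    rw [integral_const_mul, Gk_integral one_pos] at key
    have e : ∫ z : E n, z j * (-(z i / 2) * Gk 1 z) = -(1 / 2) * ∫ z : E n, Gk 1 z * (z i * z j) := by
      rw [← integral_const_mul]
      apply integral_congr_ae
      filter_upwards with z
      ring
    rw [e] at key
    split_ifs at key ⊢ <;> linarith
  · simp_rw [pd_coord]
    exact (Gk_integrable one_pos).const_mul _
  · simp_rw [hG]
    have := (G1_coord_integrable i j).const_mul (-(1 / 2 : ℝ))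
    refine this.congr ?_
    filter_upwards with z
    ring
  · apply (G1_norm_integrable (n := n)).mono'
    · exact (Continuous.mul (by fun_prop) (Gk_continuous 1)).aestronglyMeasurable
    · filter_upwards with z
      rw [Real.norm_eq_abs, abs_mul, abs_of_nonneg (Gk_nonneg one_pos _), mul_comm]
      exact mul_le_mul_of_nonneg_left (abs_coord_le z j) (Gk_nonneg one_pos _)
  · intro x _
    exact ((EuclideanSpace.proj j : E n →L[ℝ] ℝ).hasFDerivAt).differentiableAt
  · intro x _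
    exact (G1_hasFDerivAt x (ee i)).1

lemma sum_coord (z : E n) : z = ∑ i, z i • (ee i : E n) := by
  have := (EuclideanSpace.basisFun (Fin n) ℝ).sum_repr z
  simp only [EuclideanSpace.basisFun_repr, EuclideanSpace.basisFun_apply] at this
  exact this.symm

lemma bilin_expand (A : E n →L[ℝ] E n →L[ℝ] ℝ) (z : E n) :
    A z z = ∑ i, ∑ j, (z i * z j) * A (ee i) (ee j) := by
  have h1 : A z = ∑ i, z i • A (ee i) := by
    conv_lhs => rw [sum_coord z, map_sum]
    simp_rw [map_smul]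
  have h2 : ∀ L : E n →L[ℝ] ℝ, L z = ∑ j, z j * L (ee j) := by
    intro L
    conv_lhs => rw [sum_coord z, map_sum]
    simp_rw [map_smul, smul_eq_mul]
  rw [h1, FunLike.coe_sum, Finset.sum_apply]
  apply Finset.sum_congr rfl
  intro i _
  change z i * A (ee i) z = _
  rw [h2 (A (ee i)), Finset.mul_sum]
  apply Finset.sum_congr rfl
  intro j _
  ring

lemma G1_bilin (A : E n →L[ℝ] E n →L[ℝ] ℝ) :
    ∫ z : E n, Gk 1 z * ((1 / 2) * A z z) = ∑ i, A (ee i) (ee i) := by
  have e1 : ∀ z : E n, Gk 1 z * ((1 / 2) * A z z) =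
      ∑ i, ∑ j, ((1 / 2) * A (ee i) (ee j)) * (Gk 1 z * (z i * z j)) := by
    intro z
    rw [bilin_expand, Finset.mul_sum, Finset.mul_sum]
    apply Finset.sum_congr rfl
    intro i _
    rw [Finset.mul_sum, Finset.mul_sum]
    apply Finset.sum_congr rfl
    intro j _
    ring
  simp_rw [e1]
  rw [integral_finsetSum _ (fun i _ => integrable_finsetSum _
    (fun j _ => (G1_coord_integrable i j).const_mul _))]
  apply Finset.sum_congr rfl
  intro i _
  rw [integral_finsetSum _ (fun j _ => (G1_coord_integrable i j).const_mul _)]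
  simp_rw [integral_const_mul, G1_moment]
  simp only [mul_ite, mul_zero, Finset.sum_ite_eq, Finset.mem_univ, if_true]
  ring

lemma G1_odd (L : E n →L[ℝ] ℝ) : ∫ z : E n, Gk 1 z * L z = 0 := by
  have h : ∫ z : E n, Gk 1 z * L z = ∫ z : E n, Gk 1 (-z) * L (-z) :=
    (integral_neg_eq_self (fun z : E n => Gk 1 z * L z) volume).symm
  have h2 : ∫ z : E n, Gk 1 (-z) * L (-z) = - ∫ z : E n, Gk 1 z * L z := by
    rw [← integral_neg]
    apply integral_congr_ae
    filter_upwards with z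
    rw [Gk_neg, map_neg]
    ring
  linarith

lemma G1_lin_integrable (L : E n →L[ℝ] ℝ) : Integrable (fun z : E n => Gk 1 z * L z) := by
  apply ((G1_norm_integrable (n := n)).const_mul ‖L‖).mono'
  · exact ((Gk_continuous 1).mul L.continuous).aestronglyMeasurable
  · filter_upwards with z
    rw [norm_mul, Real.norm_eq_abs, abs_of_nonneg (Gk_nonneg one_pos _)]
    calc Gk 1 z * ‖L z‖ ≤ Gk 1 z * (‖L‖ * ‖z‖) :=
          mul_le_mul_of_nonneg_left (L.le_opNorm z) (Gk_nonneg one_pos _)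
      _ = ‖L‖ * (Gk 1 z * ‖z‖) := by ring

/-- rescaled form of the Gaussian average -/
lemma gconv_scale {t : ℝ} (ht : 0 < t) (f : E n → ℝ) (x : E n) :
    gconv t f x = ∫ z : E n, Gk 1 z * f (x - Real.sqrt t • z) := by
  have e1 : gconv t f x = ∫ y : E n, Gk t y * f (x - y) := by
    unfold gconv
    rw [← integral_sub_left_eq_self (fun y => Gk t (x - y) * f y) volume x]
    simp only [sub_sub_cancel]
  have h := Measure.integral_comp_smul_of_nonneg (volume : Measure (E n))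
    (fun y : E n => Gk t y * f (x - y)) (Real.sqrt t) (hR := Real.sqrt_nonneg t)
  rw [finrank_euclideanSpace, Fintype.card_fin] at h
  have hs : 0 < Real.sqrt t := Real.sqrt_pos.mpr ht
  have e2 : ∀ z : E n, Gk t (Real.sqrt t • z) = ((Real.sqrt t) ^ n)⁻¹ * Gk 1 z := by
    intro z
    unfold Gk
    rw [norm_smul, Real.norm_eq_abs, abs_of_pos hs, mul_pow, Real.sq_sqrt ht.le]
    have e3 : -(t * ‖z‖ ^ 2) / (4 * t) = -‖z‖ ^ 2 / (4 * 1) := by field_simp
    have e4 : (4 * π * t) ^ (-(n : ℝ) / 2) = ((Real.sqrt t) ^ n)⁻¹ * (4 * π * 1) ^ (-(n : ℝ) / 2) := by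
      rw [show 4 * π * t = t * (4 * π * 1) by ring, Real.mul_rpow ht.le (by positivity)]
      congr 1
      rw [Real.sqrt_eq_rpow, ← Real.rpow_natCast, ← Real.rpow_mul ht.le, ← Real.rpow_neg ht.le]
      congr 1
      ring
    rw [e3, e4]
    ring
  rw [e1]
  have e5 : ∫ z : E n, Gk t (Real.sqrt t • z) * f (x - Real.sqrt t • z) =
      ((Real.sqrt t) ^ n)⁻¹ * ∫ z : E n, Gk 1 z * f (x - Real.sqrt t • z) := by
    rw [← integral_const_mul]
    apply integral_congr_ae
    filter_upwards with z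
    rw [e2]
    ring
  rw [e5, smul_eq_mul] at h
  have hne : ((Real.sqrt t) ^ n)⁻¹ ≠ 0 := by positivity
  exact (mul_left_cancel₀ hne h).symm

lemma taylor_lip_aux {F : Type*} [NormedAddCommGroup F] [NormedSpace ℝ F] {g : E n → F}
    (h1 : ContDiff ℝ ∞ g) (hc : HasCompactSupport (fderiv ℝ g)) :
    ∃ K : ℝ, 0 ≤ K ∧ ∀ x y : E n, ‖g y - g x‖ ≤ K * ‖y - x‖ := by
  have h2 : Continuous (fderiv ℝ g) := h1.continuous_fderiv (by norm_num)
  obtain ⟨K, hK⟩ := hc.exists_bound_of_continuous h2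
  have hK0 : 0 ≤ K := (norm_nonneg _).trans (hK 0)
  have hd : Differentiable ℝ g := h1.differentiable (by norm_num)
  refine ⟨K, hK0, fun x y => ?_⟩
  exact Convex.norm_image_sub_le_of_norm_fderiv_le (𝕜 := ℝ) (s := univ)
      (fun z _ => hd z) (fun z _ => hK z) convex_univ (mem_univ x) (mem_univ y)

lemma taylor_lip {ζ : E n → ℝ} (hζ : ContDiff ℝ ∞ ζ) (hc : HasCompactSupport ζ) :
    ∃ K : ℝ, 0 ≤ K ∧ ∀ x y : E n, ‖fderiv ℝ ζ y - fderiv ℝ ζ x‖ ≤ K * ‖y - x‖ := by
  have h1 : ContDiff ℝ ∞ (fderiv ℝ ζ) := hζ.fderiv_right (by norm_num)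
  have h3 : HasCompactSupport (fderiv ℝ (fderiv ℝ ζ)) :=
    HasCompactSupport.fderiv ℝ (HasCompactSupport.fderiv ℝ hc)
  exact taylor_lip_aux h1 h3

/-- second order remainder bound -/
lemma taylor_bound {ζ : E n → ℝ} (hζ : ContDiff ℝ ∞ ζ) (hc : HasCompactSupport ζ) :
    ∃ K : ℝ, 0 ≤ K ∧ ∀ x h : E n, |ζ (x + h) - ζ x - fderiv ℝ ζ x h| ≤ K * ‖h‖ ^ 2 := by
  obtain ⟨K, hK0, hL⟩ := taylor_lip hζ hc
  refine ⟨K, hK0, fun x h => ?_⟩
  have hd : Differentiable ℝ ζ := hζ.differentiable (by norm_num)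
  have h5 : ‖ζ (x + h) - ζ x - fderiv ℝ ζ x (x + h - x)‖ ≤ K * ‖h‖ * ‖x + h - x‖ := by
    apply Convex.norm_image_sub_le_of_norm_hasFDerivWithin_le' (𝕜 := ℝ)
      (s := Metric.closedBall x ‖h‖) (f := ζ) (f' := fun z => fderiv ℝ ζ z)
    · intro z _
      exact (hd z).hasFDerivAt.hasFDerivWithinAt
    · intro z hz
      refine (hL x z).trans ?_
      apply mul_le_mul_of_nonneg_left _ hK0
      rwa [mem_closedBall_iff_norm] at hz
    · exact convex_closedBall x ‖h‖
    · exact Metric.mem_closedBall_self (norm_nonneg _)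
    · rw [mem_closedBall_iff_norm]; simp
  rw [add_sub_cancel_left, Real.norm_eq_abs] at h5
  calc |ζ (x + h) - ζ x - fderiv ℝ ζ x h| ≤ K * ‖h‖ * ‖h‖ := h5
    _ = K * ‖h‖ ^ 2 := by ring

/-- pointwise second order expansion -/
lemma taylor_lim {ζ : E n → ℝ} (hζ : ContDiff ℝ ∞ ζ) (x z : E n) :
    Tendsto (fun t : ℝ => (ζ (x - Real.sqrt t • z) - ζ x + Real.sqrt t * fderiv ℝ ζ x z) / t)
      (𝓝[>] 0) (𝓝 ((1 / 2) * fderiv ℝ (fderiv ℝ ζ) x z z)) := by
  set φ : ℝ → ℝ := fun τ => ζ (x - τ • z) with hφ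
  have h1 : ContDiff ℝ ∞ (fderiv ℝ ζ) := hζ.fderiv_right (by norm_num)
  have hφ2 : ContDiff ℝ (2 : ℕ) φ := by
    have : ContDiff ℝ ∞ φ := hζ.comp (by fun_prop)
    exact contDiff_infty.mp this 2
  have hline : ∀ τ : ℝ, HasDerivAt (fun τ : ℝ => x - τ • z) (-z) τ := by
    intro τ
    have := ((hasDerivAt_id τ).smul_const z).const_sub x
    simpa using this
  have hd1 : ∀ τ, HasDerivAt φ (-(fderiv ℝ ζ (x - τ • z) z)) τ := by
    intro τ
    have := (((hζ.differentiable (by norm_num)) (x - τ • z)).hasFDerivAt).comp_hasDerivAt τ (hline τ)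
    rw [map_neg] at this
    exact this
  have hd1' : deriv φ = fun τ => -(fderiv ℝ ζ (x - τ • z) z) := funext fun τ => (hd1 τ).deriv
  have hd2 : deriv (deriv φ) 0 = fderiv ℝ (fderiv ℝ ζ) x z z := by
    rw [hd1']
    have h2 : HasDerivAt (fun τ : ℝ => fderiv ℝ ζ (x - τ • z)) (fderiv ℝ (fderiv ℝ ζ) (x - (0 : ℝ) • z) (-z)) 0 :=
      (((h1.differentiable (by norm_num)) (x - (0 : ℝ) • z)).hasFDerivAt).comp_hasDerivAt 0 (hline 0)
    have h3 : HasDerivAt (fun τ : ℝ => -(fderiv ℝ ζ (x - τ • z) z)) _ 0 :=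
      (h2.clm_apply (hasDerivAt_const (0 : ℝ) z)).neg
    rw [h3.deriv]
    simp
  have hT := taylor_isLittleO_univ (x₀ := 0) hφ2
  have hT2 : ∀ τ, taylorWithinEval φ 2 univ 0 τ =
      ζ x - τ * fderiv ℝ ζ x z + τ ^ 2 * ((1 / 2) * fderiv ℝ (fderiv ℝ ζ) x z z) := by
    intro τ
    have i1 : iteratedDeriv (0 + 1) φ 0 = deriv φ 0 := by rw [zero_add, iteratedDeriv_one]
    have i2 : iteratedDeriv (1 + 1) φ 0 = deriv (deriv φ) 0 := by
      rw [iteratedDeriv_succ, iteratedDeriv_one]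
    rw [taylorWithinEval_succ, taylorWithinEval_succ, taylor_within_zero_eval,
      iteratedDerivWithin_univ, iteratedDerivWithin_univ, i1, i2, hd2, hd1']
    simp only [hφ, zero_smul, sub_zero, smul_eq_mul]
    norm_num
    ring
  have hs : Tendsto (fun t : ℝ => Real.sqrt t) (𝓝[>] 0) (𝓝 0) := by
    have := (Real.continuous_sqrt.tendsto 0)
    rw [Real.sqrt_zero] at this
    exact this.mono_left nhdsWithin_le_nhds
  have hT3 := (hT.comp_tendsto hs)
  have hT4 := hT3.tendsto_div_nhds_zero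
  have hT5 : Tendsto (fun t : ℝ => (ζ (x - Real.sqrt t • z) - (ζ x - Real.sqrt t * fderiv ℝ ζ x z +
      Real.sqrt t ^ 2 * ((1 / 2) * fderiv ℝ (fderiv ℝ ζ) x z z))) / t) (𝓝[>] 0) (𝓝 0) := by
    refine hT4.congr' ?_
    filter_upwards [self_mem_nhdsWithin] with t ht
    simp only [Function.comp, hT2, sub_zero]
    rw [Real.sq_sqrt (le_of_lt ht)]
  have hT6 := hT5.add_const ((1 / 2) * fderiv ℝ (fderiv ℝ ζ) x z z)
  rw [zero_add] at hT6
  refine hT6.congr' ?_
  filter_upwards [self_mem_nhdsWithin] with t ht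
  have ht' : (0 : ℝ) < t := ht
  rw [Real.sq_sqrt ht'.le]
  field_simp
  ring

lemma lap_eq {ζ : E n → ℝ} (hζ : ContDiff ℝ ∞ ζ) (x : E n) :
    lap ζ x = ∑ i, fderiv ℝ (fderiv ℝ ζ) x (ee i) (ee i) := by
  unfold lap
  apply Finset.sum_congr rfl
  intro i _
  have h1 : ContDiff ℝ ∞ (fderiv ℝ ζ) := hζ.fderiv_right (by norm_num)
  have h2 : HasFDerivAt (fun y => fderiv ℝ ζ y (ee i)) _ x :=
    (((h1.differentiable (by norm_num)) x).hasFDerivAt).clm_apply (hasFDerivAt_const (ee i) x)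
  unfold pd
  rw [h2.fderiv]
  simp

/-- The Gaussian average of a test function: bound and expansion. -/
theorem gconv_expand {ζ : E n → ℝ} (hζ : ContDiff ℝ ∞ ζ) (hc : HasCompactSupport ζ) :
    (∃ K : ℝ, 0 ≤ K ∧ ∀ t : ℝ, 0 < t → ∀ x, |gconv t ζ x - ζ x| ≤ K * t) ∧
    ∀ x, Tendsto (fun t : ℝ => (gconv t ζ x - ζ x) / t) (𝓝[>] 0) (𝓝 (lap ζ x)) := by
  obtain ⟨K, hK0, hK⟩ := taylor_bound hζ hc
  obtain ⟨K1, hK1⟩ := hc.exists_bound_of_continuous hζ.continuous
  set m : ℝ := ∫ z : E n, Gk 1 z * ‖z‖ ^ 2 with hm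
  have hm0 : 0 ≤ m := integral_nonneg (fun z => mul_nonneg (Gk_nonneg one_pos _) (by positivity))
  -- remainder form
  have hrem : ∀ t : ℝ, 0 < t → ∀ x z : E n,
      |ζ (x - Real.sqrt t • z) - ζ x + Real.sqrt t * fderiv ℝ ζ x z| ≤ K * (t * ‖z‖ ^ 2) := by
    intro t ht x z
    have := hK x (-(Real.sqrt t • z))
    rw [map_neg, map_smul, smul_eq_mul, sub_neg_eq_add, ← sub_eq_add_neg, norm_neg, norm_smul,
      Real.norm_eq_abs, mul_pow, sq_abs, Real.sq_sqrt ht.le] at this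
    exact this
  have hint : ∀ t : ℝ, 0 < t → ∀ x : E n,
      Integrable (fun z : E n => Gk 1 z * ζ (x - Real.sqrt t • z)) := by
    intro t ht x
    apply (Gk_integrable one_pos).mul_bdd (c := K1)
    · exact (hζ.continuous.comp (by fun_prop)).aestronglyMeasurable
    · exact Eventually.of_forall fun z => hK1 _
  have hform : ∀ t : ℝ, 0 < t → ∀ x : E n, gconv t ζ x - ζ x =
      ∫ z : E n, Gk 1 z * (ζ (x - Real.sqrt t • z) - ζ x + Real.sqrt t * fderiv ℝ ζ x z) := by
    intro t ht x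
    have i1 := hint t ht x
    have i2 : Integrable (fun z : E n => Gk 1 z * ζ x) := (Gk_integrable one_pos).mul_const _
    have i3 : Integrable (fun z : E n => Real.sqrt t * (Gk 1 z * fderiv ℝ ζ x z)) :=
      (G1_lin_integrable _).const_mul _
    calc gconv t ζ x - ζ x = (∫ z : E n, Gk 1 z * ζ (x - Real.sqrt t • z)) - (∫ z : E n, Gk 1 z * ζ x) +
          ∫ z : E n, Real.sqrt t * (Gk 1 z * fderiv ℝ ζ x z) := by
          rw [gconv_scale ht, integral_mul_const, Gk_integral one_pos, one_mul, integral_const_mul,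
            G1_odd, mul_zero, add_zero]
      _ = (∫ z : E n, (Gk 1 z * ζ (x - Real.sqrt t • z) - Gk 1 z * ζ x)) +
          ∫ z : E n, Real.sqrt t * (Gk 1 z * fderiv ℝ ζ x z) := by rw [integral_sub i1 i2]
      _ = ∫ z : E n, ((Gk 1 z * ζ (x - Real.sqrt t • z) - Gk 1 z * ζ x) +
          Real.sqrt t * (Gk 1 z * fderiv ℝ ζ x z)) := (integral_add (i1.sub i2) i3).symm
      _ = _ := by
          apply integral_congr_ae
          filter_upwards with z
          ring
  have hbound : ∀ t : ℝ, 0 < t → ∀ x z : E n,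
      |Gk 1 z * (ζ (x - Real.sqrt t • z) - ζ x + Real.sqrt t * fderiv ℝ ζ x z)| ≤
        K * t * (Gk 1 z * ‖z‖ ^ 2) := by
    intro t ht x z
    rw [abs_mul, abs_of_nonneg (Gk_nonneg one_pos _)]
    calc _ ≤ Gk 1 z * (K * (t * ‖z‖ ^ 2)) :=
          mul_le_mul_of_nonneg_left (hrem t ht x z) (Gk_nonneg one_pos _)
      _ = _ := by ring
  constructor
  · refine ⟨K * m, by positivity, fun t ht x => ?_⟩
    rw [hform t ht x]
    calc |∫ z : E n, Gk 1 z * (ζ (x - Real.sqrt t • z) - ζ x + Real.sqrt t * fderiv ℝ ζ x z)|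
        ≤ ∫ z : E n, K * t * (Gk 1 z * ‖z‖ ^ 2) := by
          rw [← Real.norm_eq_abs]
          apply norm_integral_le_of_norm_le (G1_sq_integrable.const_mul _)
          filter_upwards with z
          rw [Real.norm_eq_abs]
          exact hbound t ht x z
      _ = K * m * t := by rw [integral_const_mul, ← hm]; ring
  · intro x
    have hlim : Tendsto (fun t : ℝ => ∫ z : E n,
        Gk 1 z * ((ζ (x - Real.sqrt t • z) - ζ x + Real.sqrt t * fderiv ℝ ζ x z) / t)) (𝓝[>] 0)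
        (𝓝 (∫ z : E n, Gk 1 z * ((1 / 2) * fderiv ℝ (fderiv ℝ ζ) x z z))) := by
      apply tendsto_integral_filter_of_dominated_convergence (fun z => K * (Gk 1 z * ‖z‖ ^ 2))
      · filter_upwards with t
        have hcont := hζ.continuous
        exact ((Gk_continuous 1).mul (by fun_prop)).aestronglyMeasurable
      · filter_upwards [self_mem_nhdsWithin] with t ht
        have ht' : (0 : ℝ) < t := ht
        filter_upwards with z
        rw [← mul_div_assoc, norm_div, Real.norm_eq_abs, Real.norm_eq_abs, abs_of_pos ht',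
          div_le_iff₀ ht']
        calc _ ≤ K * t * (Gk 1 z * ‖z‖ ^ 2) := hbound t ht' x z
          _ = _ := by ring
      · exact G1_sq_integrable.const_mul _
      · filter_upwards with z
        exact (taylor_lim hζ x z).const_mul _
    rw [G1_bilin, ← lap_eq hζ] at hlim
    refine hlim.congr' ?_
    filter_upwards [self_mem_nhdsWithin] with t ht
    have ht' : (0 : ℝ) < t := ht
    rw [hform t ht' x, div_eq_mul_inv, ← integral_mul_const]
    apply integral_congr_ae
    filter_upwards with z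
    rw [div_eq_mul_inv]
    ring

end Pool.Agent.GS8.WK
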