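import Pool.Agent.GS8.Defs

/-!
# Job 9a: the window function
-/

set_option autoImplicit false

open MeasureTheory Set Filter Topology
open scoped Real ContDiff

namespace Pool.Agent.GS8

theorem targetWin : TargetWin := by
  intro β hβ hβ2
  let φ : ContDiffBump (0 : ℝ) := ⟨β / 2, β, by positivity, by linarith⟩
  have hφc : Continuous (fun t => φ t) := φ.continuous
  have hφ0 : ∀ t, 0 ≤ φ t := fun t => φ.nonneg
  have hφ1 : ∀ t, φ t ≤ 1 := fun t => φ.le_one
  have hone : ∀ t, |t| ≤ β / 2 → φ t = 1 := by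
    intro t ht
    apply φ.one_of_mem_closedBall
    simpa [Metric.mem_closedBall, dist_eq_norm] using ht
  have hzero : ∀ t, β ≤ |t| → φ t = 0 := by
    intro t ht
    apply φ.zero_of_le_dist
    simpa [dist_eq_norm] using ht
  set I : ℝ := ∫ θ in (-(π / 2))..(π / 2), φ θ * Real.cos θ with hIdef
  have hcont : Continuous (fun θ => φ θ * Real.cos θ) := hφc.mul Real.continuous_cos
  have hpi : (0 : ℝ) < π := Real.pi_pos
  have hI : 0 < I := by
    apply intervalIntegral.integral_pos (by linarith) hcont.continuousOn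
    · intro x hx
      exact mul_nonneg (hφ0 x) (Real.cos_nonneg_of_mem_Icc ⟨by linarith [hx.1], hx.2⟩)
    · refine ⟨0, ⟨by linarith, by linarith⟩, ?_⟩
      rw [hone 0 (by simp; linarith)]
      simp
  set b₀ : ℝ := π / (2 * I) with hb₀
  have hb₀pos : 0 < b₀ := by positivity
  set q : ℝ → ℝ := fun t => Real.cos t ^ 2 - b₀ * φ t * Real.cos t with hq
  have hqc : Continuous q := by
    have := Real.continuous_cos
    fun_prop
  set Q : ℝ → ℝ := fun θ => ∫ t in (-(π / 2))..θ, q t with hQ
  have hQd : ∀ θ, HasDerivAt Q (q θ) θ := fun θ =>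
    intervalIntegral.integral_hasDerivAt_right (hqc.intervalIntegrable _ _)
      (hqc.stronglyMeasurableAtFilter _ _) hqc.continuousAt
  have hqb : ∀ t, |q t| ≤ 1 + b₀ := by
    intro t
    have h1 : |Real.cos t| ≤ 1 := Real.abs_cos_le_one t
    have h2 : |b₀ * φ t * Real.cos t| ≤ b₀ := by
      rw [abs_mul, abs_mul, abs_of_pos hb₀pos, abs_of_nonneg (hφ0 t)]
      calc b₀ * φ t * |Real.cos t| ≤ b₀ * 1 * 1 := by
            apply mul_le_mul _ h1 (abs_nonneg _) (by positivity)
            exact mul_le_mul_of_nonneg_left (hφ1 t) hb₀pos.le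
        _ = b₀ := by ring
    have h3 : |Real.cos t ^ 2| ≤ 1 := by
      rw [abs_pow]; exact pow_le_one₀ (abs_nonneg _) h1
    calc |q t| ≤ |Real.cos t ^ 2| + |b₀ * φ t * Real.cos t| := abs_sub _ _
      _ ≤ 1 + b₀ := add_le_add h3 h2
  have hQl : Q (-(π / 2)) = 0 := by simp [hQ]
  have hQr : Q (π / 2) = 0 := by
    have h1 : Q (π / 2) = (∫ t in (-(π / 2))..(π / 2), Real.cos t ^ 2) -
        b₀ * ∫ t in (-(π / 2))..(π / 2), φ t * Real.cos t := by
      have hi1 : IntervalIntegrable (fun t => Real.cos t ^ 2) volume (-(π / 2)) (π / 2) :=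
        (Real.continuous_cos.pow 2).intervalIntegrable _ _
      have hi2 : IntervalIntegrable (fun t => b₀ * (φ t * Real.cos t)) volume (-(π / 2)) (π / 2) :=
        (hcont.const_mul b₀).intervalIntegrable _ _
      rw [← intervalIntegral.integral_const_mul, ← intervalIntegral.integral_sub hi1 hi2]
      apply intervalIntegral.integral_congr
      intro x _
      simp only [hq]
      ring
    rw [h1, integral_cos_sq, ← hIdef, hb₀]
    simp only [Real.cos_pi_div_two, Real.sin_neg, Real.cos_neg]
    field_simp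
    ring
  have hQlip : ∀ a b : ℝ, |Q a - Q b| ≤ (1 + b₀) * |a - b| := by
    intro a b
    have := Convex.norm_image_sub_le_of_norm_hasDerivWithin_le (f := Q) (f' := q) (s := univ)
      (C := 1 + b₀) (x := b) (y := a) (fun x _ => (hQd x).hasDerivWithinAt)
      (fun x _ => by simpa using hqb x) convex_univ (mem_univ _) (mem_univ _)
    simpa [Real.norm_eq_abs] using this
  refine ⟨fun θ => b₀ * φ θ, Q, (1 + b₀) * (π / 2), b₀, ?_, ?_, ?_, hb₀pos, ?_, ?_, ?_, ?_, ?_⟩
  · have : ContDiff ℝ 2 (fun t => φ t) := φ.contDiff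
    exact contDiff_const.mul this
  · intro θ; exact mul_nonneg hb₀pos.le (hφ0 θ)
  · intro θ hθ; simp [hzero θ hθ]
  · intro θ hθ; simp [hone θ hθ]
  · rw [contDiff_one_iff_deriv]
    refine ⟨fun θ => (hQd θ).differentiableAt, ?_⟩
    have : deriv Q = q := funext fun θ => (hQd θ).deriv
    rw [this]; exact hqc
  · intro θ; rw [(hQd θ).deriv]
  · positivity
  · intro θ hθ
    have h1 : |Q θ| ≤ (1 + b₀) * (π / 2 - |θ|) := by
      rcases le_total 0 θ with h | h
      · have := hQlip θ (π / 2)
        rw [hQr, sub_zero, abs_sub_comm] at this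
        rw [abs_of_nonneg h] at hθ ⊢
        rwa [abs_of_pos (by linarith : 0 < π / 2 - θ)] at this
      · have := hQlip θ (-(π / 2))
        rw [hQl, sub_zero] at this
        rw [abs_of_nonpos h] at hθ ⊢
        rw [abs_of_pos (by linarith : 0 < θ - -(π / 2))] at this
        convert this using 2
        ring
    have h2 : 2 / π * (π / 2 - |θ|) ≤ Real.cos θ := by
      have := Real.mul_le_sin (x := π / 2 - |θ|) (by linarith) (by linarith [abs_nonneg θ])
      rwa [Real.sin_pi_div_two_sub, Real.cos_abs] at this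
    have h3 : π / 2 - |θ| ≤ π / 2 * Real.cos θ := by
      have h4 := mul_le_mul_of_nonneg_left h2 (by positivity : 0 ≤ π / 2)
      have h5 : π / 2 * (2 / π * (π / 2 - |θ|)) = π / 2 - |θ| := by
        field_simp
      rwa [h5] at h4
    calc |Q θ| ≤ (1 + b₀) * (π / 2 - |θ|) := h1
      _ ≤ (1 + b₀) * (π / 2 * Real.cos θ) := mul_le_mul_of_nonneg_left h3 (by positivity)
      _ = (1 + b₀) * (π / 2) * Real.cos θ := by ring

end Pool.Agent.GS8
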